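import Pool.Agent.W_1b8d5d_h85.Defs

/-!
MP_1b8d5d_pr: the passage time of the frozen statement `S19191` (for `d = 2`) is the passage time `T`.
-/

set_option autoImplicit false

namespace Pool.Agent.W_1b8d5d_h85

open Finset

/-- The vertex as a function on `Fin 2`. -/
def toF (x : V) : Fin 2 → ℤ := ![x.1, x.2]

/-- The edge in the indexing of the frozen statement. -/
def toE (e : Edge) : (Fin 2 → ℤ) × Fin 2 := (toF e.1, if e.2 then 1 else 0)

private theorem FWalks_toF_inj : Function.Injective toF := by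
  intro x y h
  have h0 := congrFun h 0
  have h1 := congrFun h 1
  simp only [toF, Matrix.cons_val_zero, Matrix.cons_val_one] at h0 h1
  exact Prod.ext h0 h1

private theorem FWalks_toF_mk (f : Fin 2 → ℤ) : toF (f 0, f 1) = f := by
  funext i
  fin_cases i <;> simp [toF]

private theorem FWalks_toF_add0 (x : V) :
    toF x + (Pi.single 0 (1 : ℤ) : Fin 2 → ℤ) = toF (x + dir false) := by
  funext i
  fin_cases i <;> simp [toF, dir]

private theorem FWalks_toF_add1 (x : V) :
    toF x + (Pi.single 1 (1 : ℤ) : Fin 2 → ℤ) = toF (x + dir true) := by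
  funext i
  fin_cases i <;> simp [toF, dir]

theorem toE_injective : Function.Injective toE := by
  rintro ⟨x, s⟩ ⟨y, t⟩ h
  have h0 : toF x = toF y := congrArg Prod.fst h
  have h1 : (if s then (1 : Fin 2) else 0) = if t then 1 else 0 := congrArg Prod.snd h
  have h2 : x = y := FWalks_toF_inj h0
  have h3 : s = t := by
    cases s <;> cases t <;> simp at h1 ⊢
  rw [h2, h3]

/-- The passage time of one step in the indexing of the frozen statement. -/
noncomputable def stepT (τ : (Fin 2 → ℤ) × Fin 2 → ℝ) (x y : Fin 2 → ℤ) : ℝ :=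
  ∑ i : Fin 2, ((if y = x + (Pi.single i (1 : ℤ) : Fin 2 → ℤ) then τ (x, i) else 0) +
    (if x = y + (Pi.single i (1 : ℤ) : Fin 2 → ℤ) then τ (y, i) else 0))

/-- The set of the passage times of the paths from `0` to `z`. -/
def pathSet (τ : (Fin 2 → ℤ) × Fin 2 → ℝ) (z : Fin 2 → ℤ) : Set ℝ :=
  {t : ℝ | ∃ (m : ℕ) (p : ℕ → Fin 2 → ℤ), p 0 = 0 ∧ p m = z ∧
    (∀ k < m, ∑ i, |p (k+1) i - p k i| = 1) ∧
    t = ∑ k ∈ Finset.range m, stepT τ (p k) (p (k + 1))}

/-- Adjacent vertices have `ℓ¹` distance one. -/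
theorem adj_iff (x y : V) : grid.Adj x y ↔ ∑ i, |toF y i - toF x i| = 1 := by
  obtain ⟨x1, x2⟩ := x
  obtain ⟨y1, y2⟩ := y
  rw [Fin.sum_univ_two]
  have e : |toF (y1, y2) 0 - toF (x1, x2) 0| + |toF (y1, y2) 1 - toF (x1, x2) 1| =
      |y1 - x1| + |y2 - x2| := by simp [toF]
  rw [e]
  constructor
  · rintro ⟨s, h | h⟩
    · have h1 := congrArg Prod.fst h
      have h2 := congrArg Prod.snd h
      cases s <;> simp only [dir, Prod.fst_add, Prod.snd_add, if_true, Bool.false_eq_true,
        if_false] at h1 h2 <;> subst h1 <;> subst h2 <;> simp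
    · have h1 := congrArg Prod.fst h
      have h2 := congrArg Prod.snd h
      cases s <;> simp only [dir, Prod.fst_add, Prod.snd_add, if_true, Bool.false_eq_true,
        if_false] at h1 h2 <;> subst h1 <;> subst h2 <;> simp
  · intro h
    rcases abs_cases (y1 - x1) with ⟨ha, ha'⟩ | ⟨ha, ha'⟩ <;>
      rcases abs_cases (y2 - x2) with ⟨hb, hb'⟩ | ⟨hb, hb'⟩ <;> rw [ha, hb] at h
    · by_cases h0 : y1 = x1
      · exact ⟨true, Or.inl (by simp only [dir, if_true]; ext <;> simp <;> omega)⟩
      · exact ⟨false, Or.inl (by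
          simp only [dir, Bool.false_eq_true, if_false]; ext <;> simp <;> omega)⟩
    · by_cases h0 : y1 = x1
      · exact ⟨true, Or.inr (by simp only [dir, if_true]; ext <;> simp <;> omega)⟩
      · exact ⟨false, Or.inl (by
          simp only [dir, Bool.false_eq_true, if_false]; ext <;> simp <;> omega)⟩
    · by_cases h0 : y1 = x1
      · omega
      · exact ⟨false, Or.inr (by
          simp only [dir, Bool.false_eq_true, if_false]; ext <;> simp <;> omega)⟩
    · by_cases h0 : y1 = x1
      · omega
      · exact ⟨false, Or.inr (by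
          simp only [dir, Bool.false_eq_true, if_false]; ext <;> simp <;> omega)⟩

theorem stepT_eq (τ : (Fin 2 → ℤ) × Fin 2 → ℝ) {x y : V} (h : grid.Adj x y) :
    stepT τ (toF x) (toF y) = τ (toE (ke s(x, y))) := by
  have hs : stepT τ (toF x) (toF y) =
      ((if y = x + dir false then τ (toF x, 0) else 0) +
        (if x = y + dir false then τ (toF y, 0) else 0)) +
      ((if y = x + dir true then τ (toF x, 1) else 0) +
        (if x = y + dir true then τ (toF y, 1) else 0)) := by
    rw [stepT, Fin.sum_univ_two, FWalks_toF_add0, FWalks_toF_add0, FWalks_toF_add1,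
      FWalks_toF_add1]
    simp only [FWalks_toF_inj.eq_iff]
  rw [hs]
  obtain ⟨x1, x2⟩ := x
  obtain ⟨y1, y2⟩ := y
  obtain ⟨s, h | h⟩ := h
  · have h1 := congrArg Prod.fst h
    have h2 := congrArg Prod.snd h
    cases s
    · simp only [dir, Prod.fst_add, Prod.snd_add, Bool.false_eq_true, if_false, add_zero]
        at h1 h2
      subst h1 h2
      simp [dir, ke, toE, Prod.ext_iff]
      intro hh
      omega
    · simp only [dir, Prod.fst_add, Prod.snd_add, if_true, add_zero] at h1 h2
      subst h1 h2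
      simp [dir, ke, toE, Prod.ext_iff]
      intro hh
      omega
  · have h1 := congrArg Prod.fst h
    have h2 := congrArg Prod.snd h
    cases s
    · simp only [dir, Prod.fst_add, Prod.snd_add, Bool.false_eq_true, if_false, add_zero]
        at h1 h2
      subst h1 h2
      simp [dir, ke, toE, Prod.ext_iff]
      intro hh
      omega
    · simp only [dir, Prod.fst_add, Prod.snd_add, if_true, add_zero] at h1 h2
      subst h1 h2
      simp [dir, ke, toE, Prod.ext_iff]
      intro hh
      omega

private theorem FWalks_cost (τ : (Fin 2 → ℤ) × Fin 2 → ℝ) {x z : V} (w : grid.Walk x z) :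
    cost (fun e => τ (toE e)) w =
      ∑ k ∈ Finset.range w.length, stepT τ (toF (w.getVert k)) (toF (w.getVert (k + 1))) := by
  induction w with
  | nil => simp [cost, wedges]
  | cons h p ih =>
    rw [SimpleGraph.Walk.length_cons, sum_range_succ', cost, wedges]
    rw [cost, wedges] at ih
    simp only [SimpleGraph.Walk.edges_cons, List.map_cons, List.sum_cons,
      SimpleGraph.Walk.getVert_cons_succ, SimpleGraph.Walk.getVert_zero]
    rw [ih, ← stepT_eq τ h, add_comm]

/-- A walk gives a sequence of vertices (`w.getVert`). -/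
theorem cost_mem_pathSet (τ : (Fin 2 → ℤ) × Fin 2 → ℝ) {z : V} (w : grid.Walk 0 z) :
    cost (fun e => τ (toE e)) w ∈ pathSet τ (toF z) := by
  refine ⟨w.length, fun k => toF (w.getVert k), ?_, ?_, ?_, FWalks_cost τ w⟩
  · beta_reduce
    rw [SimpleGraph.Walk.getVert_zero]
    funext i
    fin_cases i <;> simp [toF]
  · beta_reduce
    rw [SimpleGraph.Walk.getVert_length]
  · intro k hk
    exact (adj_iff _ _).1 (w.adj_getVert_succ hk)

private theorem FWalks_walk (τ : (Fin 2 → ℤ) × Fin 2 → ℝ) (p : ℕ → Fin 2 → ℤ) (m : ℕ)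
    (hp : ∀ k < m, ∑ i, |p (k+1) i - p k i| = 1) :
    ∀ x z : V, toF x = p 0 → toF z = p m → ∃ w : grid.Walk x z,
      cost (fun e => τ (toE e)) w = ∑ k ∈ Finset.range m, stepT τ (p k) (p (k + 1)) := by
  induction m with
  | zero =>
    intro x z hx hz
    have : x = z := FWalks_toF_inj (hx.trans hz.symm)
    subst this
    exact ⟨SimpleGraph.Walk.nil, by simp [cost, wedges]⟩
  | succ m ih =>
    intro x z hx hz
    obtain ⟨w, hw⟩ := ih (fun k hk => hp k (Nat.lt_succ_of_lt hk)) x (p m 0, p m 1) hx
      (FWalks_toF_mk (p m))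
    have hadj : grid.Adj (p m 0, p m 1) z := by
      rw [adj_iff, FWalks_toF_mk, hz]
      exact hp m (Nat.lt_succ_self m)
    refine ⟨w.concat hadj, ?_⟩
    rw [sum_range_succ, ← hw, ← hz]
    have hst := stepT_eq τ hadj
    rw [FWalks_toF_mk] at hst
    rw [hst, cost, cost, wedges, wedges, SimpleGraph.Walk.edges_concat, List.concat_eq_append]
    simp only [List.map_append, List.sum_append, List.map_cons, List.map_nil, List.sum_cons,
      List.sum_nil, add_zero]

/-- A sequence of vertices gives a walk (induction on `m`, `Walk.append` or `Walk.concat`). -/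
theorem exists_walk_of_mem (τ : (Fin 2 → ℤ) × Fin 2 → ℝ) {z : V} {t : ℝ} (ht : t ∈ pathSet τ (toF z)) :
    ∃ w : grid.Walk 0 z, cost (fun e => τ (toE e)) w = t := by
  obtain ⟨m, p, h0, hm, hs, rfl⟩ := ht
  refine FWalks_walk τ p m hs 0 z ?_ hm.symm
  rw [h0]
  funext i
  fin_cases i <;> simp [toF]

theorem sInf_pathSet (τ : (Fin 2 → ℤ) × Fin 2 → ℝ) (z : V) :
    sInf (pathSet τ (toF z)) = T (fun e => τ (toE e)) 0 z := by
  have h : pathSet τ (toF z) =
      Set.range (fun w : grid.Walk 0 z => cost (fun e => τ (toE e)) w) := by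
    ext t
    constructor
    · intro ht
      obtain ⟨w, hw⟩ := exists_walk_of_mem τ ht
      exact ⟨w, hw⟩
    · rintro ⟨w, rfl⟩
      exact cost_mem_pathSet τ w
  rw [h]
  rfl

end Pool.Agent.W_1b8d5d_h85
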