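import Pool.Agent.W_1b8d5d_h85.FMuG
import Pool.Agent.W_1b8d5d_h85.FWalks

/-!
MP_1b8d5d_pr: the limit shape of planar first-passage percolation with a continuous bounded law is not a polygon;
reduction of the statement in the form of the frozen statement to the abstract theorems.
-/

set_option autoImplicit false

open MeasureTheory ProbabilityTheory Filter Topology

namespace Pool.Agent.W_1b8d5d_h85

/-- Part (A): good models. -/
def PartA : Prop := ∀ (a b : ℝ) (ν : Measure ℝ), 0 < a → Law a b ν →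
  ∀ (Ω : Type) [MeasurableSpace Ω] (P : Measure Ω) (τ : Edge → Ω → ℝ), IsFPP ν P τ →
    ∃ Q : Par, HasModels Q (tm P τ) ∧ IsMean Q (tm P τ)

/-- Part (B): the corner bound. -/
def PartB : Prop := ∀ (Q : Par) (g : V → ℝ), HasModels Q g → IsMean Q g → CornerThm g

/-- Parts (C), (D), (E): two adjacent flat cones are impossible. -/
def PartE : Prop := ∀ (Q : Par) (g : V → ℝ), HasModels Q g → IsMean Q g → FTwoCones g → False

/-- The passage times of the frozen statement, indexed by `Edge`. -/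
theorem isFPP_frozen {ν : Measure ℝ} {Ω : Type} [MeasurableSpace Ω] {P : Measure Ω} (hP : IsProbabilityMeasure P)
    {τ : (Fin 2 → ℤ) × Fin 2 → Ω → ℝ} (hm : ∀ e, Measurable (τ e)) (hi : iIndepFun τ P)
    (hl : ∀ e, P.map (τ e) = ν) : IsFPP ν P fun e => τ (toE e) where
  prob := hP
  meas := fun e => hm (toE e)
  indep := hi.precomp toE_injective
  law := fun e => hl (toE e)

/-- The polygon property is transported from `Fin 2 → ℝ` to `ℝ × ℝ`. -/
theorem hull_transport {μ : (Fin 2 → ℝ) → ℝ} {s : Set (Fin 2 → ℝ)} (hs : s.Finite)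
    (h : {x | μ x ≤ 1} = convexHull ℝ s) :
    ∃ t : Set (ℝ × ℝ), t.Finite ∧ {x : ℝ × ℝ | μ ![x.1, x.2] ≤ 1} = convexHull ℝ t := by
  let L : (Fin 2 → ℝ) →ₗ[ℝ] ℝ × ℝ :=
    (LinearMap.proj (R := ℝ) (φ := fun _ : Fin 2 => ℝ) 0).prod (LinearMap.proj 1)
  refine ⟨L '' s, hs.image L, ?_⟩
  rw [← LinearMap.image_convexHull, ← h]
  ext x
  constructor
  · intro hx
    refine ⟨![x.1, x.2], hx, ?_⟩
    apply Prod.ext <;> simp [L]
  · rintro ⟨y, hy, rfl⟩
    have e : (![(L y).1, (L y).2] : Fin 2 → ℝ) = y := by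
      funext i
      fin_cases i <;> simp [L]
    show μ ![(L y).1, (L y).2] ≤ 1
    rw [e]
    exact hy

/-- The theorem, from the three parts. PROOF: `isFPP_frozen`, `sInf_pathSet`, `tendsto_tm`, `muG`, `hull_transport`,
`twoCones_of_polygon`. -/
theorem not_polygon (hA : PartA) (hB : PartB) (hE : PartE) :
    ∀ (a b : ℝ), 0 < a →
    ∀ (ν : Measure ℝ), IsProbabilityMeasure ν → ν (Set.Icc a b)ᶜ = 0 →
      (∀ x : ℝ, ν ({x} : Set ℝ) = 0) →
    ∀ (Ω : Type) [MeasurableSpace Ω] (P : Measure Ω), IsProbabilityMeasure P →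
    ∀ (τ : (Fin 2 → ℤ) × Fin 2 → Ω → ℝ),
      (∀ e, Measurable (τ e)) → iIndepFun τ P → (∀ e, P.map (τ e) = ν) →
    ∀ (μ : (Fin 2 → ℝ) → ℝ), Continuous μ →
      (∀ (c : ℝ) (x : Fin 2 → ℝ), 0 ≤ c → μ (c • x) = c * μ x) →
      (∀ x : Fin 2 → ℤ, TendstoInMeasure P
        (fun (n : ℕ) (ω : Ω) =>
            sInf {t : ℝ | ∃ (m : ℕ) (p : ℕ → Fin 2 → ℤ), p 0 = 0 ∧ p m = (n : ℤ) • x ∧
              (∀ k < m, ∑ i, |p (k+1) i - p k i| = 1) ∧
              t = ∑ k ∈ Finset.range m, ∑ i : Fin 2,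
                ((if p (k+1) = p k + (Pi.single i (1 : ℤ) : Fin 2 → ℤ) then τ (p k, i) ω else 0) +
                 (if p k = p (k+1) + (Pi.single i (1 : ℤ) : Fin 2 → ℤ) then τ (p (k+1), i) ω else 0))}
            / (n : ℝ))
        atTop (fun _ => μ (fun i => (x i : ℝ)))) →
      ∀ s : Set (Fin 2 → ℝ), s.Finite → {x | μ x ≤ 1} ≠ convexHull ℝ s := by
  intro a b ha ν hν hsupp hatom Ω _ P hP τ hm hi hl μ hcont hhom hlim s hs heq
  have hlaw : Law a b ν := ⟨hν, hsupp, hatom⟩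
  have hfpp := isFPP_frozen hP hm hi hl
  obtain ⟨t, ht, hK⟩ := hull_transport hs heq
  obtain ⟨Q, hM, hg⟩ := hA a b ν ha hlaw Ω P (fun e => τ (toE e)) hfpp
  have hcont' : Continuous fun x : ℝ × ℝ => μ ![x.1, x.2] := by
    refine hcont.comp ?_
    refine continuous_pi fun i => ?_
    fin_cases i
    · exact continuous_fst
    · exact continuous_snd
  have hhom' : ∀ (c : ℝ) (x : ℝ × ℝ), 0 ≤ c → μ ![(c • x).1, (c • x).2] = c * μ ![x.1, x.2] := by
    intro c x hc
    rw [← hhom c _ hc]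
    congr 1
    funext i
    fin_cases i <;> simp
  have hlim' : ∀ x : V, Tendsto (fun n : ℕ => tm P (fun e => τ (toE e)) (n • x) / n) atTop
      (𝓝 (μ ![(toR x).1, (toR x).2])) := by
    intro x
    refine tendsto_tm ha hlaw hfpp ?_
    have h1 := hlim (toF x)
    have e1 : (fun i => ((toF x i : ℤ) : ℝ)) = ![(toR x).1, (toR x).2] := by
      funext i
      fin_cases i <;> simp [toF, toR]
    rw [e1] at h1
    refine h1.congr_left fun n => ?_
    refine Filter.Eventually.of_forall fun ω => ?_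
    have h2 := sInf_pathSet (fun e => τ e ω) (n • x)
    have e2 : toF (n • x) = (n : ℤ) • toF x := by
      funext i
      fin_cases i <;> simp [toF]
    rw [e2] at h2
    show sInf _ / (n : ℝ) = T (fun e => τ (toE e) ω) 0 (n • x) / (n : ℝ)
    rw [← h2]
    rfl
  have hmu := muG (μ := fun x : ℝ × ℝ => μ ![x.1, x.2]) hg hcont' hhom' hlim'
  obtain ⟨tc⟩ := twoCones_of_polygon (Q.ha.trans Q.hab) hmu (hB Q _ hM hg) ht hK
  exact hE Q _ hM hg tc

end Pool.Agent.W_1b8d5d_h85
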