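import Pool.Agent.W_1b8d5d_h85.Grid2

/-!
MP_1b8d5d_pr, proofs row 571: restricted environments, changes of the environment.
-/

set_option autoImplicit false

namespace Pool.Agent.W_1b8d5d_h85

private theorem grid3_mem {e : Sym2 V} (h : e ∈ grid.edgeSet) :
    ∃ x s, e = s(x, x + dir s) := by
  induction e using Sym2.ind with
  | _ x y =>
    rw [SimpleGraph.mem_edgeSet] at h
    obtain ⟨s, h | h⟩ := h
    · exact ⟨x, s, by rw [h]⟩
    · exact ⟨y, s, by rw [h, Sym2.eq_swap]⟩

/-- The end points of the edges of a walk are vertices of the walk. -/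
theorem wedges_support {x y : V} (w : grid.Walk x y) {e : Edge} (he : e ∈ wedges w) :
    e.1 ∈ w.support ∧ e.1 + dir e.2 ∈ w.support := by
  unfold wedges at he
  obtain ⟨e', he', rfl⟩ := List.mem_map.1 he
  obtain ⟨u, s, rfl⟩ := grid3_mem (w.edges_subset_edgeSet he')
  rw [ke_dir]
  exact ⟨w.fst_mem_support_of_mem_edges he', w.snd_mem_support_of_mem_edges he'⟩

/-- Vertices and edges of a walk are near its starting point. -/
theorem wedges_near {x y : V} (w : grid.Walk x y) {e : Edge} (he : e ∈ wedges w) :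
    nm (e.1 - x) ≤ w.length := by
  classical
  have h := (wedges_support w he).1
  have h1 := nm_le_length (w.takeUntil e.1 h)
  have h2 := w.length_takeUntil_le_length h
  have h3 : ((w.takeUntil e.1 h).length : ℝ) ≤ w.length := by exact_mod_cast h2
  exact h1.trans h3

theorem cost_congr {τ τ' : Env} {x y : V} (w : grid.Walk x y) (h : ∀ e ∈ wedges w, τ e = τ' e) :
    cost τ w = cost τ' w := by
  unfold cost
  rw [List.map_congr_left h]

theorem cost_mono {τ τ' : Env} {x y : V} (w : grid.Walk x y) (h : ∀ e ∈ wedges w, τ e ≤ τ' e) :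
    cost τ w ≤ cost τ' w := by
  unfold cost
  exact List.sum_le_sum h

/-- The cost of a path as a sum over a finset of edges. -/
theorem cost_path (τ : Env) {x y : V} {w : grid.Walk x y} (hw : w.IsPath) :
    cost τ w = ∑ e ∈ (wedges w).toFinset, τ e := by
  unfold cost
  rw [List.sum_toFinset _ (wedges_nodup hw)]

section bd

variable {a b : ℝ} {τ : Env}

theorem Bd_res (hab : a ≤ b) (hτ : Bd a b τ) (A : Set Edge) : Bd a b (res b A τ) := by
  intro e
  unfold res
  split_ifs with h
  · exact hτ e
  · exact ⟨hab, le_rfl⟩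

theorem le_res (hτ : Bd a b τ) (A : Set Edge) (e : Edge) : τ e ≤ res b A τ e := by
  unfold res
  split_ifs with h
  · exact le_rfl
  · exact (hτ e).2

theorem T_le_res (ha : 0 ≤ a) (hτ : Bd a b τ) (A : Set Edge) (x y : V) :
    T τ x y ≤ T (res b A τ) x y :=
  T_mono ha hτ (le_res hτ A) x y

theorem T_res_anti (ha : 0 ≤ a) (hab : a ≤ b) (hτ : Bd a b τ) {A A' : Set Edge} (h : A ⊆ A')
    (x y : V) : T (res b A' τ) x y ≤ T (res b A τ) x y := by
  refine T_mono ha (Bd_res hab hτ A') (fun e => ?_) x y
  unfold res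
  by_cases h1 : e ∈ A
  · rw [if_pos (h h1), if_pos h1]
  · rw [if_neg h1]
    split_ifs with h2
    · exact (hτ e).2
    · exact le_rfl

/-- If a walk of minimal cost uses only edges of `A`, the restriction to `A` does not matter. -/
theorem T_res_eq (ha : 0 ≤ a) (hab : a ≤ b) (hτ : Bd a b τ) {A : Set Edge} {x y : V}
    {w : grid.Walk x y} (hw : cost τ w = T τ x y) (hA : ∀ e ∈ wedges w, e ∈ A) :
    T (res b A τ) x y = T τ x y := by
  refine le_antisymm ?_ (T_le_res ha hτ A x y)
  have h1 := T_le_cost (Bd_res hab hτ A) ha w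
  have h2 : cost (res b A τ) w = cost τ w := by
    refine cost_congr w (fun e he => ?_)
    unfold res
    rw [if_pos (hA e he)]
  rw [h2, hw] at h1
  exact h1

end bd

/-- The restricted passage time depends only on the edges of `A`. -/
theorem dependsOn_T_res (b : ℝ) (A : Set Edge) (x y : V) :
    DependsOn (fun τ : Env => T (res b A τ) x y) A := by
  intro τ τ' h
  have h1 : res b A τ = res b A τ' := by
    funext e
    unfold res
    by_cases he : e ∈ A
    · rw [if_pos he, if_pos he, h e he]
    · rw [if_neg he, if_neg he]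
  simp only [h1]

private theorem grid3_local {a b : ℝ} (ha : 0 < a) {τ τ' : Env} (hτ : Bd a b τ)
    (hτ' : Bd a b τ') {x y : V}
    (h : ∀ e : Edge, nm (e.1 - x) ≤ b / a * nm (y - x) → τ e = τ' e) : T τ' x y ≤ T τ x y := by
  obtain ⟨w, hw⟩ := exists_geo hτ ha x y
  have h1 := geo_length hτ ha hw
  have h2 : (w.length : ℝ) ≤ b / a * nm (y - x) := by
    rw [div_mul_eq_mul_div, le_div_iff₀ ha]
    linarith
  have h3 : cost τ w = cost τ' w :=
    cost_congr w fun e he => h e ((wedges_near w he).trans h2)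
  rw [← hw.2, h3]
  exact T_le_cost hτ' ha.le w

/-- The passage time of a bounded environment depends only on a box: if `τ`, `τ'` are in `[a,b]` and agree on the edges with
`nm (e.1 - x) ≤ (b/a) nm (y - x)`, then `T τ x y = T τ' x y`. -/
theorem T_local {a b : ℝ} (ha : 0 < a) {τ τ' : Env} (hτ : Bd a b τ) (hτ' : Bd a b τ') {x y : V}
    (h : ∀ e : Edge, nm (e.1 - x) ≤ b / a * nm (y - x) → τ e = τ' e) : T τ x y = T τ' x y :=
  le_antisymm (grid3_local ha hτ' hτ fun e he => (h e he).symm) (grid3_local ha hτ hτ' h)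

end Pool.Agent.W_1b8d5d_h85
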