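import Pool.Agent.W_1b8d5d_h85.ATor

/-!
MP_1b8d5d_pr, part (A): independence in product spaces; (G3) for the torus models.
-/

set_option autoImplicit false

namespace Pool.Agent.W_1b8d5d_h85

open Finset

section product

variable {J β : Type} [Fintype J] [DecidableEq J] [Fintype β] [Nonempty β]

/-- PROOF.  The map `(ω, ω') ↦ (ω on I and ω' off I, ω' on I and ω off I)` is an involution of the pairs; it turns
`f ω * g ω'` into `f ω * g ω` (first components: `f` depends on `I` only, `g` on the complement of `I`).  `Ex_prod`,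
`Ex_equiv`. -/
theorem Ex_mul_dep {I K : Set J} (hIK : Disjoint I K) {f g : (J → β) → ℝ} (hf : DependsOn f I) (hg : DependsOn g K) :
    Ex (fun ω => f ω * g ω) = Ex f * Ex g := by
  classical
  have hinv : ∀ x : (J → β) × (J → β), (I.piecewise (I.piecewise x.1 x.2) (I.piecewise x.2 x.1),
      I.piecewise (I.piecewise x.2 x.1) (I.piecewise x.1 x.2)) = x := by
    intro x
    refine Prod.ext ?_ ?_
    · funext j
      by_cases hj : j ∈ I
      · simp [Set.piecewise, hj]
      · simp [Set.piecewise, hj]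
    · funext j
      by_cases hj : j ∈ I
      · simp [Set.piecewise, hj]
      · simp [Set.piecewise, hj]
  let e : ((J → β) × (J → β)) ≃ ((J → β) × (J → β)) :=
    { toFun := fun x => (I.piecewise x.1 x.2, I.piecewise x.2 x.1)
      invFun := fun x => (I.piecewise x.1 x.2, I.piecewise x.2 x.1)
      left_inv := hinv
      right_inv := hinv }
  have h1 : Ex (fun x : (J → β) × (J → β) => f x.1 * g x.2) = Ex f * Ex g := by
    rw [Ex_prod]
    have h2 : ∀ ω, Ex (fun ω' => f ω * g ω') = f ω * Ex g := fun ω => Ex_mul_left _ _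
    simp only [h2]
    exact Ex_mul_right _ _
  have h3 : Ex (fun x : (J → β) × (J → β) => f (e x).1 * g (e x).2) = Ex f * Ex g := by
    rw [← h1]
    exact Ex_equiv e (fun x : (J → β) × (J → β) => f x.1 * g x.2)
  rw [← h3, Ex_prod]
  refine Ex_congr fun ω => ?_
  rw [← Ex_const (Ω := J → β) (f ω * g ω)]
  refine Ex_congr fun ω' => ?_
  show f ω * g ω = f (I.piecewise ω ω') * g (I.piecewise ω' ω)
  congr 1
  · exact hf fun j hj => (Set.piecewise_eq_of_mem I _ _ hj).symm
  · exact hg fun j hj => (Set.piecewise_eq_of_notMem I _ _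
      (fun h => Set.disjoint_left.1 hIK h hj)).symm

private theorem AInd_coord (t : J) (h : β → ℝ) : Ex (fun ω : J → β => h (ω t)) = Ex h := by
  rw [← Ex_avg t]
  rw [← Ex_const (Ω := J → β) (Ex h)]
  refine Ex_congr fun ω => ?_
  show Ex (fun u => h (Function.update ω t u t)) = Ex h
  simp only [Function.update_self]

/-- The mean of a product of functions of different coordinates.  PROOF.  `Finset.prod_univ_sum` (with the function `1`
for `t ∉ s`), or induction on `s` with `Ex_mul_dep` and `Ex_avg`. -/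
theorem Ex_prod_coord (s : Finset J) (h : J → β → ℝ) :
    Ex (fun ω : J → β => ∏ t ∈ s, h t (ω t)) = ∏ t ∈ s, Ex (h t) := by
  induction s using Finset.induction_on with
  | empty =>
    simp only [prod_empty]
    exact Ex_const 1
  | insert t s hts ih =>
    rw [prod_insert hts, ← ih, ← AInd_coord t (h t)]
    have h2 : ∀ ω : J → β, ∏ r ∈ insert t s, h r (ω r) = h t (ω t) * ∏ r ∈ s, h r (ω r) :=
      fun ω => prod_insert hts
    simp only [h2]
    refine Ex_mul_dep (I := {t}) (K := (s : Set J)) ?_ ?_ ?_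
    · rw [Set.disjoint_singleton_left]
      exact fun h3 => hts (mem_coe.1 h3)
    · intro x y hxy
      show h t (x t) = h t (y t)
      rw [hxy t rfl]
    · intro x y hxy
      show ∏ r ∈ s, h r (x r) = ∏ r ∈ s, h r (y r)
      exact prod_congr rfl fun r hr => by rw [hxy r (mem_coe.2 hr)]

/-- A function of one coordinate. -/
theorem Ex_coord (t : J) (h : β → ℝ) : Ex (fun ω : J → β => h (ω t)) = Ex h :=
  AInd_coord t h

/-- Marginals.  PROOF.  `Equiv.piEquivPiSubtypeProd` for the range of `ι` (or induction: both sides are linear in `f`, and for the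
indicator of a point use `Ex_prod_coord`). -/
theorem Ex_marginal {A : Type} [Fintype A] [DecidableEq A] (ι : A → J) (hι : Function.Injective ι)
    (f : (A → β) → ℝ) : Ex (fun ω : J → β => f (fun i => ω (ι i))) = Ex f := by
  classical
  let e := Equiv.piEquivPiSubtypeProd (fun j => j ∈ Set.range ι) (fun _ : J => β)
  let G : ({j // j ∈ Set.range ι} → β) → ℝ := fun u => f (fun i => u ⟨ι i, Set.mem_range_self i⟩)
  have h1 : Ex (fun ω : J → β => f (fun i => ω (ι i))) =
      Ex (fun x : ({j // j ∈ Set.range ι} → β) × ({j // ¬ j ∈ Set.range ι} → β) => G x.1) :=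
    Ex_equiv e (fun x : ({j // j ∈ Set.range ι} → β) × ({j // ¬ j ∈ Set.range ι} → β) => G x.1)
  rw [h1, Ex_prod]
  have h2 : ∀ u : {j // j ∈ Set.range ι} → β,
      Ex (fun _ : {j // ¬ j ∈ Set.range ι} → β => G u) = G u := fun u => Ex_const _
  simp only [h2]
  let e2 : (A → β) ≃ ({j // j ∈ Set.range ι} → β) :=
    Equiv.arrowCongr (Equiv.ofInjective ι hι) (Equiv.refl β)
  have h3 : Ex (fun x : A → β => G (e2 x)) = Ex G := Ex_equiv e2 G
  rw [← h3]
  refine Ex_congr fun x => ?_
  show f (fun i => x ((Equiv.ofInjective ι hι).symm ⟨ι i, Set.mem_range_self i⟩)) = f x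
  congr 1
  funext i
  congr 1
  exact Equiv.ofInjective_symm_apply hι i

end product

/-- (G3).  PROOF.  `F ∘ tenv` depends on the coordinates in `pr m '' A`, `G ∘ tenv` on those in `pr m '' B` (choose for every
`t` in `pr m '' A` its preimage; equality of `ω, ω'` on `pr m '' A` means equality of `tenv` on `A`); the images are disjoint by
`pr_inj` (with `x = 0`, `L = R`). -/
theorem tor_indep {a b : ℝ} (m N : ℕ) [NeZero m] [NeZero N] (c : ℕ → ℝ) (hc : ∀ j, a ≤ c j ∧ c j ≤ b) {R : ℝ}
    (hm : 2 * R < m) (A B : Set Edge) (hAB : Disjoint A B) (hR : ∀ e ∈ A ∪ B, nm e.1 ≤ R)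
    (F G : Env → ℝ) (hF : DependsOn F A) (hG : DependsOn G B) :
    (tor m N c hc).E (fun τ => F τ * G τ) = (tor m N c hc).E F * (tor m N c hc).E G := by
  rw [tor_E, tor_E, tor_E]
  refine Ex_mul_dep (I := pr m '' A) (K := pr m '' B) (f := fun ω => F (tenv m c ω))
    (g := fun ω => G (tenv m c ω)) ?_ ?_ ?_
  · rw [Set.disjoint_left]
    rintro t ⟨e, he, rfl⟩ ⟨e', he', h1⟩
    have h2 : nm (e.1 - 0) ≤ R := by
      rw [sub_zero]
      exact hR e (Or.inl he)
    have h3 : nm (e'.1 - 0) ≤ R := by
      rw [sub_zero]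
      exact hR e' (Or.inr he')
    have h4 : e' = e := pr_inj hm h3 h2 h1
    rw [h4] at he'
    exact Set.disjoint_left.1 hAB he he'
  · intro x y hxy
    refine hF fun e he => ?_
    show c (x (pr m e)) = c (y (pr m e))
    rw [hxy _ (Set.mem_image_of_mem _ he)]
  · intro x y hxy
    refine hG fun e he => ?_
    show c (x (pr m e)) = c (y (pr m e))
    rw [hxy _ (Set.mem_image_of_mem _ he)]

end Pool.Agent.W_1b8d5d_h85
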