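import Pool.Agent.W_1b8d5d_h85.AKer1
import Pool.Agent.W_1b8d5d_h85.AInd

/-!
MP_1b8d5d_pr, part (A), (G8): the density of the tilted configuration.
-/

set_option autoImplicit false

namespace Pool.Agent.W_1b8d5d_h85

open Finset

variable {J β : Type} [Fintype J] [DecidableEq J] [Fintype β] [DecidableEq β] [Nonempty β]

/-- The deviation of the density of one site from `1`. -/
noncomputable def dens (wt : β → ℝ) (sl su d : ℝ) (v : β) : ℝ :=
  (if wt v ≤ sl then d * ((univ.filter fun u => su ≤ wt u).card / (lowS wt sl).card) else 0)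
    - (if su ≤ wt v then d else 0)

section

variable {wt : β → ℝ} {sl su d pl : ℝ}

/-- The density of one site.  PROOF.  Split the sum over `u` in high and not high `u`. -/
theorem sum_kap_left (hL : ∃ v, wt v ≤ sl) (hs : sl < su) (v : β) :
    ∑ u, kap wt sl su d u v = 1 + dens wt sl su d v := by
  have h1 : ∀ u, kap wt sl su d u v = ((if v = u then (1 : ℝ) else 0) -
      (if v = u then (if su ≤ wt v then d else 0) else 0)) +
      (if su ≤ wt u then d * ((if wt v ≤ sl then 1 else 0) / (lowS wt sl).card) else 0) := by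
    intro u
    unfold kap
    by_cases h : v = u
    · subst h
      by_cases h2 : su ≤ wt v
      · simp only [if_pos h2, if_true]
        ring
      · simp only [if_neg h2, if_true]
        ring
    · by_cases h2 : su ≤ wt u
      · simp only [if_pos h2, if_neg h]
        ring
      · simp only [if_neg h2, if_neg h]
        ring
  rw [sum_congr rfl fun u _ => h1 u, sum_add_distrib, sum_sub_distrib, sum_ite_eq, sum_ite_eq,
    if_pos (mem_univ v), if_pos (mem_univ v), ← sum_filter, sum_const, nsmul_eq_mul]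
  unfold dens
  by_cases h : wt v ≤ sl
  · simp only [if_pos h]
    ring
  · simp only [if_neg h]
    ring

/-- PROOF.  `sum_kap_left`, `sum_pi_prod` (for the first argument), sites outside `D` give `1`. -/
theorem sum_Ker_left (hL : ∃ v, wt v ≤ sl) (hs : sl < su) (D : Finset J) (ω' : J → β) :
    ∑ ω, Ker wt sl su d D ω ω' = ∏ t ∈ D, (1 + dens wt sl su d (ω' t)) := by
  unfold Ker
  have h1 := sum_pi_prod (J := J) (β := β) fun t u =>
    if t ∈ D then kap wt sl su d u (ω' t) else if ω' t = u then 1 else 0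
  rw [h1]
  have h2 : ∀ t : J, (∑ u, if t ∈ D then kap wt sl su d u (ω' t) else if ω' t = u then 1 else 0) =
      if t ∈ D then 1 + dens wt sl su d (ω' t) else 1 := by
    intro t
    by_cases h : t ∈ D
    · simp only [if_pos h]
      exact sum_kap_left hL hs (ω' t)
    · simp only [if_neg h]
      rw [sum_ite_eq, if_pos (mem_univ _)]
  rw [prod_congr rfl fun t _ => h2 t, prod_ite_mem, univ_inter]

private theorem AKer2_Pr (p : β → Prop) [DecidablePred p] :
    Pr p = ((univ.filter p).card : ℝ) / Fintype.card β := by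
  unfold Pr Ex
  congr 1
  rw [card_eq_sum_ones, sum_filter, Nat.cast_sum]
  refine sum_congr rfl fun v _ => ?_
  beta_reduce
  by_cases h : p v
  · rw [if_pos h, if_pos h, Nat.cast_one]
  · rw [if_neg h, if_neg h, Nat.cast_zero]

private theorem AKer2_low (hpl : 0 < pl) (hL : pl ≤ Pr (fun v : β => wt v ≤ sl)) :
    0 < ((lowS wt sl).card : ℝ) ∧ pl * Fintype.card β ≤ (lowS wt sl).card := by
  have h0 : (0 : ℝ) < Fintype.card β := card_pos'
  have h1 : pl * Fintype.card β ≤ (lowS wt sl).card := by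
    rw [AKer2_Pr, le_div_iff₀ h0] at hL
    exact hL
  exact ⟨lt_of_lt_of_le (mul_pos hpl h0) h1, h1⟩

private theorem AKer2_ex (hpl : 0 < pl) (hL : pl ≤ Pr (fun v : β => wt v ≤ sl)) :
    ∃ v, wt v ≤ sl := by
  have h1 := (AKer2_low hpl hL).1
  have h2 : 0 < (lowS wt sl).card := by exact_mod_cast h1
  obtain ⟨v, hv⟩ := card_pos.1 h2
  exact ⟨v, (mem_filter.1 hv).2⟩

theorem Ex_dens (hL : ∃ v, wt v ≤ sl) : Ex (fun v => dens wt sl su d v) = 0 := by
  have hc : ((lowS wt sl).card : ℝ) ≠ 0 := by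
    obtain ⟨v, hv⟩ := hL
    have h2 : (lowS wt sl).Nonempty := ⟨v, mem_filter.2 ⟨mem_univ v, hv⟩⟩
    exact_mod_cast (card_pos.2 h2).ne'
  unfold Ex dens
  rw [sum_sub_distrib, ← sum_filter, ← sum_filter, sum_const, sum_const, nsmul_eq_mul, nsmul_eq_mul]
  have h3 : ((univ.filter fun v => wt v ≤ sl).card : ℝ) *
      (d * (((univ.filter fun u => su ≤ wt u).card : ℝ) / (lowS wt sl).card)) =
      ((univ.filter fun u => su ≤ wt u).card : ℝ) * d := by
    have h4 : ((univ.filter fun v => wt v ≤ sl).card : ℝ) = (lowS wt sl).card := rfl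
    rw [h4]
    field_simp
  rw [h3, sub_self, zero_div]

private theorem AKer2_ratio (hpl : 0 < pl) (hL : pl ≤ Pr (fun v : β => wt v ≤ sl)) :
    ((univ.filter fun u => su ≤ wt u).card : ℝ) / (lowS wt sl).card ≤ 1 / pl := by
  obtain ⟨h1, h2⟩ := AKer2_low hpl hL
  rw [div_le_div_iff₀ h1 hpl, one_mul]
  have h3 : ((univ.filter fun u => su ≤ wt u).card : ℝ) ≤ Fintype.card β := by
    exact_mod_cast card_le_univ _
  calc ((univ.filter fun u => su ≤ wt u).card : ℝ) * pl ≤ Fintype.card β * pl :=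
        mul_le_mul_of_nonneg_right h3 hpl.le
    _ ≤ _ := by linarith [mul_comm (Fintype.card β : ℝ) pl]

/-- PROOF.  `Pr (low) ≥ pl`, `Pr (high) ≤ 1`. -/
theorem dens_le (hpl : 0 < pl) (hL : pl ≤ Pr (fun v : β => wt v ≤ sl)) (hd : 0 ≤ d) (v : β) :
    dens wt sl su d v ≤ d / pl := by
  have h1 := AKer2_ratio (su := su) hpl hL
  have h2 : d * (((univ.filter fun u => su ≤ wt u).card : ℝ) / (lowS wt sl).card) ≤ d / pl := by
    have := mul_le_mul_of_nonneg_left h1 hd
    rwa [mul_one_div] at this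
  have h3 : 0 ≤ d / pl := div_nonneg hd hpl.le
  unfold dens
  split_ifs <;> linarith

theorem neg_le_dens (hd : 0 ≤ d) (v : β) : -d ≤ dens wt sl su d v := by
  have h1 : 0 ≤ d * (((univ.filter fun u => su ≤ wt u).card : ℝ) / (lowS wt sl).card) := by
    positivity
  unfold dens
  split_ifs <;> linarith

/-- PROOF.  `E X² = d² (ph² / pL + ph)` with `ph = Pr (high) ≤ 1`, `pL = Pr (low) ≥ pl`. -/
theorem Ex_dens_sq (hpl : 0 < pl) (hL : pl ≤ Pr (fun v : β => wt v ≤ sl)) (hs : sl < su) (hd : 0 ≤ d) :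
    Ex (fun v => dens wt sl su d v ^ 2) ≤ (1 / pl + 1) * d ^ 2 := by
  obtain ⟨hc, hc2⟩ := AKer2_low hpl hL
  have hN : (0 : ℝ) < Fintype.card β := card_pos'
  set h : ℝ := ((univ.filter fun u => su ≤ wt u).card : ℝ) with hh
  set l : ℝ := ((lowS wt sl).card : ℝ) with hl
  have hh0 : 0 ≤ h := Nat.cast_nonneg _
  have hhN : h ≤ Fintype.card β := by
    rw [hh]
    exact_mod_cast card_le_univ _
  have h1 : ∀ v, dens wt sl su d v ^ 2 = (if wt v ≤ sl then (d * (h / l)) ^ 2 else 0) +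
      (if su ≤ wt v then d ^ 2 else 0) := by
    intro v
    unfold dens
    by_cases h2 : wt v ≤ sl
    · have h3 : ¬ su ≤ wt v := not_le.2 (lt_of_le_of_lt h2 hs)
      rw [if_pos h2, if_neg h3, if_pos h2, if_neg h3, sub_zero, add_zero]
    · by_cases h3 : su ≤ wt v
      · rw [if_neg h2, if_pos h3, if_neg h2, if_pos h3]
        ring
      · rw [if_neg h2, if_neg h3, if_neg h2, if_neg h3]
        ring
  rw [Ex_congr h1]
  unfold Ex
  rw [sum_add_distrib, ← sum_filter, ← sum_filter, sum_const, sum_const, nsmul_eq_mul, nsmul_eq_mul,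
    ← hh]
  have h4 : ((univ.filter fun v => wt v ≤ sl).card : ℝ) = l := rfl
  rw [h4, div_le_iff₀ hN]
  have h5 : l * (d * (h / l)) ^ 2 = d ^ 2 * (h * (h / l)) := by
    field_simp
  have h6 : h / l ≤ 1 / pl := AKer2_ratio (su := su) hpl hL
  have h7 : h * (h / l) ≤ Fintype.card β * (1 / pl) :=
    mul_le_mul hhN h6 (by positivity) hN.le
  rw [h5]
  have h8 : d ^ 2 * (h * (h / l)) ≤ d ^ 2 * (Fintype.card β * (1 / pl)) :=
    mul_le_mul_of_nonneg_left h7 (by positivity)
  have h9 : h * d ^ 2 ≤ Fintype.card β * d ^ 2 := mul_le_mul_of_nonneg_right hhN (by positivity)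
  calc d ^ 2 * (h * (h / l)) + h * d ^ 2 ≤
      d ^ 2 * (Fintype.card β * (1 / pl)) + Fintype.card β * d ^ 2 := add_le_add h8 h9
    _ = (1 / pl + 1) * d ^ 2 * Fintype.card β := by ring

private theorem AKer2_exp {x : ℝ} (hx : x ≤ 1) : Real.exp x ≤ 1 + x + x ^ 2 := by
  rcases le_or_gt (-1) x with h | h
  · have h1 := Real.abs_exp_sub_one_sub_id_le (abs_le.2 ⟨h, hx⟩)
    have h2 := (abs_le.1 h1).2
    linarith
  · have h1 : Real.exp x ≤ 1 := by
      rw [← Real.exp_zero]
      exact Real.exp_le_exp.2 (by linarith)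
    nlinarith

/-- PROOF.  `(1 + X)^m ≤ exp (m X) ≤ 1 + m X + m² X²` because `m X ≤ m d / pl ≤ 1` (`exp x ≤ 1 + x + x²` for `x ≤ 1`); take
`Ex`. -/
theorem Ex_dens_pow (hpl : 0 < pl) (hL : pl ≤ Pr (fun v : β => wt v ≤ sl)) (hs : sl < su) (hd : 0 ≤ d) (hd1 : d ≤ 1)
    {m : ℕ} (hm : m * d ≤ pl) :
    Ex (fun v => (1 + dens wt sl su d v) ^ m) ≤ Real.exp ((1 / pl + 1) * m ^ 2 * d ^ 2) := by
  have h1 : ∀ v, (1 + dens wt sl su d v) ^ m ≤
      1 + m * dens wt sl su d v + m ^ 2 * dens wt sl su d v ^ 2 := by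
    intro v
    set X := dens wt sl su d v with hX
    have hX1 : -d ≤ X := neg_le_dens hd v
    have hX2 : X ≤ d / pl := dens_le hpl hL hd v
    have h2 : (m : ℝ) * X ≤ 1 := by
      calc (m : ℝ) * X ≤ m * (d / pl) := mul_le_mul_of_nonneg_left hX2 (Nat.cast_nonneg m)
        _ = m * d / pl := by ring
        _ ≤ 1 := by
          rw [div_le_one hpl]
          exact hm
    have h3 : (1 + X) ^ m ≤ Real.exp (m * X) := by
      rw [Real.exp_nat_mul]
      refine pow_le_pow_left₀ (by linarith) ?_ m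
      have := Real.add_one_le_exp X
      linarith
    have h4 := AKer2_exp h2
    calc (1 + X) ^ m ≤ Real.exp (m * X) := h3
      _ ≤ 1 + m * X + (m * X) ^ 2 := h4
      _ = 1 + m * X + m ^ 2 * X ^ 2 := by ring
  refine (Ex_mono h1).trans ?_
  rw [Ex_add (fun v => 1 + m * dens wt sl su d v), Ex_add, Ex_const, Ex_mul_left, Ex_mul_left,
    Ex_dens (AKer2_ex hpl hL), mul_zero, add_zero]
  have h5 := Ex_dens_sq hpl hL hs hd
  have h6 : (m : ℝ) ^ 2 * Ex (fun v => dens wt sl su d v ^ 2) ≤ m ^ 2 * ((1 / pl + 1) * d ^ 2) :=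
    mul_le_mul_of_nonneg_left h5 (by positivity)
  have h7 := Real.add_one_le_exp ((1 / pl + 1) * m ^ 2 * d ^ 2)
  linarith [mul_assoc (1 / pl + 1) ((m : ℝ) ^ 2) (d ^ 2), mul_left_comm ((m : ℝ) ^ 2) (1 / pl + 1) (d ^ 2)]

/-- PROOF.  `f = ∏_{t ∈ D} (1 + dens (ω' t)) ≥ 0`.  For `m = 0`: `E f = 1 ≤ 2`.  For `m ≥ 1`: `f 1{f > 2} ≤ f (f / 2)^(m - 1)
= 2 (1 / 2)^m f^m`, and `E f^m = ∏ E (1 + dens)^m` (`Ex_prod_coord`), `Ex_dens_pow`. -/
theorem Ker_dens (hpl : 0 < pl) (hL : pl ≤ Pr (fun v : β => wt v ≤ sl)) (hs : sl < su) (hd : 0 ≤ d) (hd1 : d ≤ 1)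
    (D : Finset J) {m : ℕ} (hm : m * d ≤ pl) :
    Ex (fun ω' : J → β => if 2 < ∑ ω, Ker wt sl su d D ω ω' then ∑ ω, Ker wt sl su d D ω ω' else 0)
      ≤ 2 * (1 / 2) ^ m * Real.exp ((1 / pl + 1) * m ^ 2 * d ^ 2 * D.card) := by
  have hex := AKer2_ex hpl hL
  simp only [sum_Ker_left hex hs]
  set f : (J → β) → ℝ := fun ω' => ∏ t ∈ D, (1 + dens wt sl su d (ω' t)) with hf
  have hf0 : ∀ ω', 0 ≤ f ω' := by
    intro ω'
    refine prod_nonneg fun t _ => ?_
    have := neg_le_dens (wt := wt) (sl := sl) (su := su) hd (ω' t)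
    linarith
  have hpow : ∀ k : ℕ, Ex (fun ω' => f ω' ^ k) = ∏ _t ∈ D, Ex (fun v => (1 + dens wt sl su d v) ^ k) := by
    intro k
    rw [← Ex_prod_coord D fun _ v => (1 + dens wt sl su d v) ^ k]
    refine Ex_congr fun ω' => ?_
    rw [hf]
    exact (prod_pow _ _ _).symm
  rcases Nat.eq_zero_or_pos m with h0 | h0
  · subst h0
    have h1 : Ex (fun ω' : J → β => if 2 < f ω' then f ω' else 0) ≤ Ex f := by
      refine Ex_mono fun ω' => ?_
      split_ifs
      · exact le_refl _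
      · exact hf0 ω'
    refine h1.trans ?_
    have h2 := hpow 1
    simp only [pow_one] at h2
    have h3 : Ex (fun v => 1 + dens wt sl su d v) = 1 := by
      rw [Ex_add, Ex_const, Ex_dens hex, add_zero]
    rw [h3, prod_const_one] at h2
    have h4 : Ex f = 1 := h2
    rw [h4]
    simp
  · obtain ⟨k, rfl⟩ : ∃ k, m = k + 1 := ⟨m - 1, by omega⟩
    have h1 : ∀ ω', (if 2 < f ω' then f ω' else 0) ≤ 2 * (1 / 2) ^ (k + 1) * f ω' ^ (k + 1) := by
      intro ω'
      have h2 := hf0 ω'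
      split_ifs with h3
      · have h4 : 1 ≤ (f ω' / 2) ^ k := one_le_pow₀ (by linarith)
        calc f ω' = f ω' * 1 := (mul_one _).symm
          _ ≤ f ω' * (f ω' / 2) ^ k := mul_le_mul_of_nonneg_left h4 h2
          _ = 2 * (1 / 2) ^ (k + 1) * f ω' ^ (k + 1) := by
            rw [div_pow, one_div, inv_pow]
            field_simp
            ring
      · positivity
    refine (Ex_mono h1).trans ?_
    rw [Ex_mul_left, hpow]
    refine mul_le_mul_of_nonneg_left ?_ (by positivity)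
    have h5 := Ex_dens_pow (su := su) hpl hL hs hd hd1 hm
    calc ∏ _t ∈ D, Ex (fun v => (1 + dens wt sl su d v) ^ (k + 1)) ≤
        ∏ _t ∈ D, Real.exp ((1 / pl + 1) * ((k + 1 : ℕ) : ℝ) ^ 2 * d ^ 2) := by
          refine prod_le_prod (fun t _ => Ex_nonneg fun v => ?_) fun t _ => h5
          have := neg_le_dens (wt := wt) (sl := sl) (su := su) hd v
          exact pow_nonneg (by linarith) _
      _ = Real.exp ((1 / pl + 1) * ((k + 1 : ℕ) : ℝ) ^ 2 * d ^ 2 * D.card) := by
        rw [prod_const, ← Real.exp_nat_mul, mul_comm]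

end

end Pool.Agent.W_1b8d5d_h85
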