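import Pool.Agent.W_1b8d5d_h85.AKer1
import Pool.Agent.W_1b8d5d_h85.AKer2
import Pool.Agent.W_1b8d5d_h85.AInd

/-!
MP_1b8d5d_pr, part (A), (G8): the tilt for the torus models.
-/

set_option autoImplicit false

namespace Pool.Agent.W_1b8d5d_h85

open Finset

/-- (G8).  PROOF.  `J = Ker` with `wt u = c u`, `D = C.image (pr m)`.  Support: `Ker_supp`; an edge `e ∉ C` with `nm e.1 ≤ R` has
`pr m e ∉ D` (`pr_inj` around `0`).  Low sums: the sum over `H` is the sum over `H.image (pr m)` (`pr m` is injective on `H`).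
Densities: `D.card ≤ C.card`, `Ker_dens`. -/
theorem tor_tilt {a b : ℝ} (m N : ℕ) [NeZero m] [NeZero N] (c : ℕ → ℝ) (hc : ∀ j, a ≤ c j ∧ c j ≤ b)
    {R sl su pl K : ℝ} (hm : 2 * R < m) (hs : sl < su) (hpl : 0 < pl)
    (hL : pl ≤ Pr (fun u : Fin N => c u ≤ sl)) (hK : 1 / pl + 1 ≤ K)
    (C : Finset Edge) (d : ℝ) (hC : ∀ e ∈ C, nm e.1 ≤ R) (hd : 0 ≤ d) (hd2 : d ≤ 1 / 2) :
    ∃ J : (tor m N c hc).Ω → (tor m N c hc).Ω → ℝ, (∀ ω ω', 0 ≤ J ω ω') ∧ (∀ ω, ∑ ω', J ω ω' = 1) ∧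
      (∀ ω ω', J ω ω' ≠ 0 → (∀ e, (tor m N c hc).env ω' e ≤ (tor m N c hc).env ω e) ∧
        ∀ e, e ∉ C → nm e.1 ≤ R → (tor m N c hc).env ω' e = (tor m N c hc).env ω e) ∧
      (∀ (ω : (tor m N c hc).Ω) (H : Finset Edge), H ⊆ C → (∀ e ∈ H, su ≤ (tor m N c hc).env ω e) →
        ∑ ω' ∈ univ.filter (fun ω' => ∑ e ∈ H, ((tor m N c hc).env ω e - (tor m N c hc).env ω' e)
          < (su - sl) * (d * H.card / 4)), J ω ω' ≤ Real.exp (-(d * H.card / 16))) ∧
      (∀ k : ℕ, k * d ≤ pl → Ex (fun ω' => if 2 < ∑ ω, J ω ω' then ∑ ω, J ω ω' else 0)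
        ≤ 2 * (1 / 2) ^ k * Real.exp (K * k ^ 2 * d ^ 2 * C.card)) := by
  classical
  have hL' : ∃ v : Fin N, (fun u : Fin N => c u) v ≤ sl := by
    by_contra hcon
    push Not at hcon
    have h0 : Pr (fun u : Fin N => c u ≤ sl) ≤ 0 := by
      unfold Pr
      refine Ex_le_of_le fun u => ?_
      rw [if_neg (not_le.2 (hcon u))]
    linarith
  have hd1 : d ≤ 1 := by linarith
  have hinj : ∀ e e' : Edge, nm e.1 ≤ R → nm e'.1 ≤ R → pr m e = pr m e' → e = e' := by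
    intro e e' he he' h
    have h1 : nm (e.1 - 0) ≤ R := by rw [sub_zero]; exact he
    have h2 : nm (e'.1 - 0) ≤ R := by rw [sub_zero]; exact he'
    exact pr_inj hm h1 h2 h
  refine ⟨Ker (fun u : Fin N => c u) sl su d (C.image (pr m)), fun ω ω' => Ker_nonneg hd hd1 ω ω',
    fun ω => Ker_sum hL' ω, ?_, ?_, ?_⟩
  · intro ω ω' h
    obtain ⟨h1, h2⟩ := Ker_supp hs h
    refine ⟨fun e => h1 (pr m e), fun e he hR => ?_⟩
    show c (ω' (pr m e)) = c (ω (pr m e))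
    rw [h2 (pr m e) ?_]
    intro hmem
    obtain ⟨e', he', h3⟩ := Finset.mem_image.1 hmem
    exact he ((hinj e' e (hC e' he') hR h3) ▸ he')
  · intro ω H hH hu
    have hinjH : Set.InjOn (pr m) (H : Set Edge) := by
      intro e he e' he' h
      exact hinj e e' (hC e (hH he)) (hC e' (hH he')) h
    have h1 := Ker_low (D := C.image (pr m)) hs hL' hd hd1 ω (H.image (pr m)) (Finset.image_subset_image hH) (by
      intro t ht
      obtain ⟨e, he, rfl⟩ := Finset.mem_image.1 ht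
      exact hu e he)
    rw [Finset.card_image_of_injOn hinjH] at h1
    simp only [Finset.sum_image hinjH] at h1
    exact h1
  · intro k hk
    have h1 := Ker_dens (wt := fun u : Fin N => c u) hpl hL hs hd hd1 (C.image (pr m)) hk
    refine h1.trans ?_
    have h2 : ((C.image (pr m)).card : ℝ) ≤ C.card := by exact_mod_cast Finset.card_image_le
    have h3 : (1 / pl + 1) * k ^ 2 * d ^ 2 * ((C.image (pr m)).card : ℝ) ≤ K * k ^ 2 * d ^ 2 * C.card := by
      have h4 : 0 ≤ 1 / pl + 1 := by positivity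
      have h5 : 0 ≤ K := h4.trans hK
      gcongr
    exact mul_le_mul_of_nonneg_left (Real.exp_le_exp.2 h3) (by positivity)

end Pool.Agent.W_1b8d5d_h85
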