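import Pool.Agent.W_1b8d5d_h85.Model
import Pool.Agent.W_1b8d5d_h85.Grid2
import Pool.Agent.W_1b8d5d_h85.Grid3

/-!
MP_1b8d5d_pr, part (A): the finite torus models.  One coordinate in `Fin N` for every edge of the torus of side `m`; the
weight of an edge is `c u`, `u` the coordinate (`c` monotone: cut points, quantiles).
-/

set_option autoImplicit false

namespace Pool.Agent.W_1b8d5d_h85

open Finset

/-- The edges of the torus. -/
abbrev TE (m : ℕ) : Type := (ZMod m × ZMod m) × Bool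

/-- The projection of the edges to the torus. -/
def pr (m : ℕ) (e : Edge) : TE m := ((((e.1.1 : ℤ) : ZMod m), ((e.1.2 : ℤ) : ZMod m)), e.2)

/-- The periodic environment of a configuration of the torus. -/
def tenv (m : ℕ) {N : ℕ} (c : ℕ → ℝ) (ω : TE m → Fin N) : Env := fun e => c (ω (pr m e))

/-- The torus model. -/
noncomputable def tor {a b : ℝ} (m N : ℕ) [NeZero m] [NeZero N] (c : ℕ → ℝ) (hc : ∀ j, a ≤ c j ∧ c j ≤ b) :
    Mdl a b where
  Ω := TE m → Fin N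
  env := tenv m c
  bd _ _ := hc _

theorem tor_E {a b : ℝ} (m N : ℕ) [NeZero m] [NeZero N] (c : ℕ → ℝ) (hc : ∀ j, a ≤ c j ∧ c j ≤ b) (F : Env → ℝ) :
    (tor m N c hc).E F = Ex fun ω : TE m → Fin N => F (tenv m c ω) := rfl

theorem tor_P {a b : ℝ} (m N : ℕ) [NeZero m] [NeZero N] (c : ℕ → ℝ) (hc : ∀ j, a ≤ c j ∧ c j ≤ b) (p : Env → Prop) :
    (tor m N c hc).P p = Pr fun ω : TE m → Fin N => p (tenv m c ω) := rfl

theorem tenv_Bd {a b : ℝ} {m N : ℕ} {c : ℕ → ℝ} (hc : ∀ j, a ≤ c j ∧ c j ≤ b) (ω : TE m → Fin N) :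
    Bd a b (tenv m c ω) := fun _ => hc _

/-- The projection is injective on boxes.  PROOF.  The second components agree, the coordinates of `e.1 - e'.1` are
divisible by `m` and have absolute value `≤ nm (e.1 - e'.1) ≤ 2 L < m`. -/
theorem pr_inj {m : ℕ} {L : ℝ} (hm : 2 * L < m) {x : V} {e e' : Edge} (h : nm (e.1 - x) ≤ L)
    (h' : nm (e'.1 - x) ≤ L) (hp : pr m e = pr m e') : e = e' := by
  have h1 := congrArg (fun t : TE m => t.1.1) hp
  have h2 := congrArg (fun t : TE m => t.1.2) hp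
  have h3 := congrArg (fun t : TE m => t.2) hp
  simp only [pr] at h1 h2 h3
  rw [ZMod.intCast_eq_intCast_iff_dvd_sub] at h1 h2
  unfold nm at h h'
  simp only [Prod.fst_sub, Prod.snd_sub, Int.cast_sub] at h h'
  have ha1 : |((e'.1.1 - e.1.1 : ℤ) : ℝ)| < m := by
    push_cast
    have k1 := abs_sub_le (e'.1.1 : ℝ) (x.1 : ℝ) (e.1.1 : ℝ)
    have k2 := abs_sub_comm (x.1 : ℝ) (e.1.1 : ℝ)
    have k3 := abs_nonneg ((e.1.2 : ℝ) - x.2)
    have k4 := abs_nonneg ((e'.1.2 : ℝ) - x.2)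
    linarith
  have ha2 : |((e'.1.2 - e.1.2 : ℤ) : ℝ)| < m := by
    push_cast
    have k1 := abs_sub_le (e'.1.2 : ℝ) (x.2 : ℝ) (e.1.2 : ℝ)
    have k2 := abs_sub_comm (x.2 : ℝ) (e.1.2 : ℝ)
    have k3 := abs_nonneg ((e.1.1 : ℝ) - x.1)
    have k4 := abs_nonneg ((e'.1.1 : ℝ) - x.1)
    linarith
  have hb1 : |e'.1.1 - e.1.1| < (m : ℤ) := by exact_mod_cast ha1
  have hb2 : |e'.1.2 - e.1.2| < (m : ℤ) := by exact_mod_cast ha2
  have c1 := Int.eq_zero_of_abs_lt_dvd h1 hb1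
  have c2 := Int.eq_zero_of_abs_lt_dvd h2 hb2
  refine Prod.ext (Prod.ext ?_ ?_) h3
  · omega
  · omega

/-- The shift of the torus by `z`. -/
def tshift (m : ℕ) (z : V) : TE m ≃ TE m where
  toFun t := ((t.1.1 + ((z.1 : ℤ) : ZMod m), t.1.2 + ((z.2 : ℤ) : ZMod m)), t.2)
  invFun t := ((t.1.1 - ((z.1 : ℤ) : ZMod m), t.1.2 - ((z.2 : ℤ) : ZMod m)), t.2)
  left_inv t := by
    ext <;> simp
  right_inv t := by
    ext <;> simp

theorem pr_shift (m : ℕ) (z : V) (e : Edge) : pr m (e.1 + z, e.2) = tshift m z (pr m e) := by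
  simp [pr, tshift]

theorem tenv_shift {m N : ℕ} (c : ℕ → ℝ) (z : V) (ω : TE m → Fin N) :
    tenv m c (fun t => ω (tshift m z t)) = sh z (tenv m c ω) := by
  funext e
  show c (ω (tshift m z (pr m e))) = c (ω (pr m (e.1 + z, e.2)))
  rw [pr_shift]

/-- (G1).  PROOF.  `tenv_shift`, `Ex_equiv` for `Equiv.arrowCongr`. -/
theorem tor_inv {a b : ℝ} (m N : ℕ) [NeZero m] [NeZero N] (c : ℕ → ℝ) (hc : ∀ j, a ≤ c j ∧ c j ≤ b) (z : V)
    (F : Env → ℝ) : (tor m N c hc).E (fun τ => F (sh z τ)) = (tor m N c hc).E F := by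
  rw [tor_E, tor_E]
  rw [← Ex_equiv (Equiv.arrowCongr (tshift m z).symm (Equiv.refl (Fin N)))
    (fun ω : TE m → Fin N => F (tenv m c ω))]
  refine Ex_congr fun ω => ?_
  rw [← tenv_shift]
  rfl

/-- The reflection of the torus. -/
def ATor_tr (m : ℕ) : TE m ≃ TE m where
  toFun t := ((-t.1.1 - (((dir t.2).1 : ℤ) : ZMod m), -t.1.2 - (((dir t.2).2 : ℤ) : ZMod m)), t.2)
  invFun t := ((-t.1.1 - (((dir t.2).1 : ℤ) : ZMod m), -t.1.2 - (((dir t.2).2 : ℤ) : ZMod m)), t.2)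
  left_inv t := by
    refine Prod.ext (Prod.ext ?_ ?_) rfl
    · show -(-t.1.1 - (((dir t.2).1 : ℤ) : ZMod m)) - (((dir t.2).1 : ℤ) : ZMod m) = t.1.1
      ring
    · show -(-t.1.2 - (((dir t.2).2 : ℤ) : ZMod m)) - (((dir t.2).2 : ℤ) : ZMod m) = t.1.2
      ring
  right_inv t := by
    refine Prod.ext (Prod.ext ?_ ?_) rfl
    · show -(-t.1.1 - (((dir t.2).1 : ℤ) : ZMod m)) - (((dir t.2).1 : ℤ) : ZMod m) = t.1.1
      ring
    · show -(-t.1.2 - (((dir t.2).2 : ℤ) : ZMod m)) - (((dir t.2).2 : ℤ) : ZMod m) = t.1.2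
      ring

theorem ATor_tr_pr (m : ℕ) (e : Edge) : pr m (-e.1 - dir e.2, e.2) = ATor_tr m (pr m e) := by
  refine Prod.ext (Prod.ext ?_ ?_) rfl
  · show (((-e.1 - dir e.2).1 : ℤ) : ZMod m) = -(((e.1.1 : ℤ) : ZMod m)) - (((dir e.2).1 : ℤ) : ZMod m)
    rw [Prod.fst_sub, Prod.fst_neg, Int.cast_sub, Int.cast_neg]
  · show (((-e.1 - dir e.2).2 : ℤ) : ZMod m) = -(((e.1.2 : ℤ) : ZMod m)) - (((dir e.2).2 : ℤ) : ZMod m)
    rw [Prod.snd_sub, Prod.snd_neg, Int.cast_sub, Int.cast_neg]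

theorem ATor_tenv {m N : ℕ} (c : ℕ → ℝ) (ω : TE m → Fin N) :
    tenv m c (fun t => ω (ATor_tr m t)) = rf (tenv m c ω) := by
  funext e
  show c (ω (ATor_tr m (pr m e))) = c (ω (pr m (-e.1 - dir e.2, e.2)))
  rw [ATor_tr_pr]

/-- (G2).  PROOF.  The same with the involution `(x, s) ↦ (-x - dir s, s)` of the torus. -/
theorem tor_refl {a b : ℝ} (m N : ℕ) [NeZero m] [NeZero N] (c : ℕ → ℝ) (hc : ∀ j, a ≤ c j ∧ c j ≤ b)
    (F : Env → ℝ) : (tor m N c hc).E (fun τ => F (rf τ)) = (tor m N c hc).E F := by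
  rw [tor_E, tor_E]
  rw [← Ex_equiv (Equiv.arrowCongr (ATor_tr m).symm (Equiv.refl (Fin N)))
    (fun ω : TE m → Fin N => F (tenv m c ω))]
  refine Ex_congr fun ω => ?_
  rw [← ATor_tenv]
  rfl

end Pool.Agent.W_1b8d5d_h85
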