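import Pool.Agent.W_1b8d5d_h85.FQuant
import Pool.Agent.W_1b8d5d_h85.ATor

/-!
MP_1b8d5d_pr, part (A): the levels `sl < su` and the probabilities of low and high weights in the models.
-/

set_option autoImplicit false

open MeasureTheory

namespace Pool.Agent.W_1b8d5d_h85

open Finset

variable {a b : ℝ} {ν : Measure ℝ}

private theorem ALev_card {N k : ℕ} (hk : k ≤ N) :
    (univ.filter fun u : Fin N => (u : ℕ) < k).card = k := by
  have h : (univ.filter fun u : Fin N => (u : ℕ) < k).map Fin.valEmbedding = range k := by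
    ext j
    simp only [mem_map, mem_filter, mem_univ, true_and, Fin.valEmbedding_apply, mem_range]
    constructor
    · rintro ⟨u, hu, rfl⟩
      exact hu
    · intro hj
      exact ⟨⟨j, hj.trans_le hk⟩, hj, rfl⟩
  rw [← card_map Fin.valEmbedding, h, card_range]

open Classical in
private theorem ALev_Pr {N : ℕ} [NeZero N] (p : Fin N → Prop) :
    Pr p = ((univ.filter p).card : ℝ) / N := by
  unfold Pr Ex
  rw [Fintype.card_fin, sum_boole]

/-- PROOF.  `Fd_cont`, `Fd_a`, `Fd_b`, intermediate value theorem; `sl < su` since `Fd_mono`. -/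
theorem exists_levels (h : Law a b ν) : ∃ sl su : ℝ, sl < su ∧ Fd ν sl = 1 / 4096 ∧ Fd ν su = 1 / 2048 := by
  have := h.prob
  have hivt := intermediate_value_Icc h.lt.le (Fd_cont h).continuousOn
  rw [Fd_a h, Fd_b h] at hivt
  obtain ⟨sl, -, hsl⟩ := hivt (show (1 / 4096 : ℝ) ∈ Set.Icc (0 : ℝ) 1 by constructor <;> norm_num)
  obtain ⟨su, -, hsu⟩ := hivt (show (1 / 2048 : ℝ) ∈ Set.Icc (0 : ℝ) 1 by constructor <;> norm_num)
  refine ⟨sl, su, ?_, hsl, hsu⟩
  by_contra hle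
  push Not at hle
  have h1 := Fd_mono (ν := ν) hle
  rw [hsl, hsu] at h1
  norm_num at h1

/-- PROOF.  `Cuts.le_Fd`: the `u` in question satisfy `u / N ≤ 1 / 2048`; there are at most `N / 2048 + 1 ≤ N / 1024` of them. -/
theorem Pr_lt_su (h : Law a b ν) {N : ℕ} [NeZero N] (hN : 2048 ≤ N) {c : ℕ → ℝ} (hc : Cuts ν a b N c) {su : ℝ}
    (hsu : Fd ν su = 1 / 2048) : Pr (fun u : Fin N => c u < su) ≤ 1 / 1024 := by
  classical
  have hN0 : 0 < N := by omega
  have hNr : (0 : ℝ) < N := by exact_mod_cast hN0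
  have hNr' : (2048 : ℝ) ≤ N := by exact_mod_cast hN
  rw [ALev_Pr, div_le_iff₀ hNr]
  have hsub : (univ.filter fun u : Fin N => c u < su)
      ⊆ univ.filter fun u : Fin N => (u : ℕ) < N / 2048 + 1 := by
    intro u hu
    rw [mem_filter] at hu ⊢
    refine ⟨mem_univ _, ?_⟩
    have h1 := hc.le_Fd h hN0 u.2.le hu.2.le
    rw [hsu, div_le_iff₀ hNr] at h1
    have h2 : (2048 : ℝ) * ((u : ℕ) : ℝ) ≤ (N : ℝ) := by linarith
    have h3 : 2048 * (u : ℕ) ≤ N := by exact_mod_cast h2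
    omega
  have h4 := card_le_card hsub
  rw [ALev_card (by omega)] at h4
  have h5 : (((univ.filter fun u : Fin N => c u < su).card : ℕ) : ℝ) ≤ ((N / 2048 + 1 : ℕ) : ℝ) := by
    exact_mod_cast h4
  have h6 : ((N / 2048 : ℕ) : ℝ) ≤ (N : ℝ) / 2048 := by
    have := Nat.cast_div_le (α := ℝ) (m := N) (n := 2048)
    simpa using this
  push_cast at h5
  linarith

/-- PROOF.  `Cuts.le_of_lt`: all `u` with `u / N < 1 / 4096` qualify; there are at least `N / 4096` of them. -/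
theorem le_Pr_sl (h : Law a b ν) {N : ℕ} [NeZero N] {c : ℕ → ℝ} (hc : Cuts ν a b N c) {sl : ℝ}
    (hsl : Fd ν sl = 1 / 4096) : 1 / 4096 ≤ Pr (fun u : Fin N => c u ≤ sl) := by
  classical
  have hN0 : 0 < N := Nat.pos_of_ne_zero (NeZero.ne N)
  have hNr : (0 : ℝ) < N := by exact_mod_cast hN0
  rw [ALev_Pr, le_div_iff₀ hNr]
  set k : ℕ := ⌈(N : ℝ) / 4096⌉₊ with hk
  have hkN : k ≤ N := by
    rw [hk, Nat.ceil_le]
    have : (N : ℝ) / 4096 ≤ N := div_le_self hNr.le (by norm_num)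
    exact this
  have hsub : (univ.filter fun u : Fin N => (u : ℕ) < k)
      ⊆ univ.filter fun u : Fin N => c u ≤ sl := by
    intro u hu
    rw [mem_filter] at hu ⊢
    refine ⟨mem_univ _, ?_⟩
    have h1 : ((u : ℕ) : ℝ) < (N : ℝ) / 4096 := Nat.lt_ceil.1 hu.2
    refine hc.le_of_lt h hN0 u.2.le ?_
    rw [hsl, div_lt_iff₀ hNr]
    linarith
  have h4 := card_le_card hsub
  rw [ALev_card hkN] at h4
  have h5 : (k : ℝ) ≤ (((univ.filter fun u : Fin N => c u ≤ sl).card : ℕ) : ℝ) := by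
    exact_mod_cast h4
  have h6 : (N : ℝ) / 4096 ≤ k := Nat.le_ceil _
  linarith

end Pool.Agent.W_1b8d5d_h85
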