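import Pool.Agent.W_1b8d5d_h85.AInd
import Pool.Agent.W_1b8d5d_np.LowTail

/-!
MP_1b8d5d_pr, part (A): variance and concentration for the torus models (linear bounds, Efron-Stein only).
-/

set_option autoImplicit false

namespace Pool.Agent.W_1b8d5d_h85

open Finset
open Pool.Agent.W_1b8d5d_np

/-- The torus models are local environments.  PROOF.  `pr_inj`. -/
theorem tor_loc {h : ℝ} {m N L : ℕ} [NeZero m] [NeZero N] {c : ℕ → ℝ} (hc : ∀ j, 0 ≤ c j ∧ c j ≤ h)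
    (hm : 2 * L < m) (x : V) :
    Loc (J := TE m) (β := Fin N) h L x (fun ω => tenv m c ω) (pr m) where
  bd _ _ := hc _
  loc ω i u e he := by
    show c (Function.update ω i u (pr m e)) = c (ω (pr m e))
    rw [Function.update_of_ne he]
  inj e e' h1 h2 h3 := by
    have hm' : 2 * (L : ℝ) < m := by exact_mod_cast hm
    exact pr_inj hm' h1 h2 h3

/-- For weights `≥ a > 0` the passage time is that over short paths.  PROOF.  `geo_isGeo`, `geo_length`. -/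
theorem T_eq_TL {a b : ℝ} {τ : Env} (hτ : Bd a b τ) (ha : 0 < a) {L : ℕ} {x y : V}
    (hL : b / a * nm (y - x) ≤ L) (hL' : nm (y - x) ≤ L) : T τ x y = TL L τ x y := by
  rcases T_eq_TL_or hτ ha hL' with h | ⟨w, hw1, hw2, hw3⟩
  · exact h
  · exfalso
    have h1 := geo_length hτ ha (w := w) ⟨hw1, hw3⟩
    have h2 : (w.length : ℝ) ≤ b / a * nm (y - x) := by
      rw [div_mul_eq_mul_div, le_div_iff₀ ha]
      linarith
    have h3 : (L : ℝ) < w.length := by exact_mod_cast hw2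
    linarith

private theorem ALoc_L {a b l R : ℝ} {z : V} (ha : 0 < a) (hab : a ≤ b) (hl : 1 ≤ l) (hz : nm z ≤ l)
    (hR : l ≤ R) {m : ℕ} (hm : 4 * (b / a * R) < m) :
    ∃ L : ℕ, 1 ≤ L ∧ 2 * L < m ∧ b / a * nm (z - 0) ≤ L ∧ nm (z - 0) ≤ L ∧ (L : ℝ) ≤ 2 * b / a * l := by
  have hba : 1 ≤ b / a := by rwa [le_div_iff₀ ha, one_mul]
  have h1 : 1 ≤ b / a * l := by nlinarith
  have h2 : (⌈b / a * l⌉₊ : ℝ) < b / a * l + 1 := Nat.ceil_lt_add_one (by linarith)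
  have h3 : b / a * l ≤ ⌈b / a * l⌉₊ := Nat.le_ceil _
  have hz0 := nm_nonneg z
  refine ⟨⌈b / a * l⌉₊, ?_, ?_, ?_, ?_, ?_⟩
  · have : (1 : ℝ) ≤ ⌈b / a * l⌉₊ := h1.trans h3
    exact_mod_cast this
  · have h4 : b / a * l ≤ b / a * R := mul_le_mul_of_nonneg_left hR (by linarith)
    have h5 : (2 : ℝ) * ⌈b / a * l⌉₊ < m := by linarith
    exact_mod_cast h5
  · rw [sub_zero]
    exact (mul_le_mul_of_nonneg_left hz (by linarith)).trans h3
  · rw [sub_zero]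
    refine hz.trans (le_trans ?_ h3)
    nlinarith
  · have : 2 * b / a * l = b / a * l + b / a * l := by ring
    linarith

/-- The variance.  PROOF.  `L = ⌈b / a * l⌉₊ ≤ 2 (b / a) l`; `T_eq_TL`, `TL_var`. -/
theorem tor_var {a b : ℝ} (ha : 0 < a) (hab : a ≤ b) {m N : ℕ} [NeZero m] [NeZero N] {c : ℕ → ℝ}
    (hc : ∀ j, a ≤ c j ∧ c j ≤ b) {l R : ℝ} {z : V} (hl : 1 ≤ l) (hz : nm z ≤ l) (hR : l ≤ R)
    (hm : 4 * (b / a * R) < m) {K : ℝ} (hK : 2 * b ^ 3 / a ≤ K) :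
    (tor m N c hc).E (fun τ => (T τ 0 z - (tor m N c hc).E fun τ => T τ 0 z) ^ 2) ≤ K * l := by
  obtain ⟨L, hL1, hL2, hL3, hL4, hL5⟩ := ALoc_L ha hab hl hz hR hm
  have hb : 0 < b := lt_of_lt_of_le ha hab
  have hc0 : ∀ j, 0 ≤ c j ∧ c j ≤ b := fun j => ⟨ha.le.trans (hc j).1, (hc j).2⟩
  have hloc := tor_loc (h := b) (m := m) (N := N) (L := L) hc0 hL2 0
  have h1 := TL_var hloc hL4 hb.le
  have h2 : ∀ ω : TE m → Fin N, T (tenv m c ω) 0 z = TL L (tenv m c ω) 0 z :=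
    fun ω => T_eq_TL (tenv_Bd hc ω) ha hL3 hL4
  rw [tor_E, tor_E]
  simp only [h2]
  refine le_trans h1 ?_
  calc b ^ 2 * (L : ℝ) ≤ b ^ 2 * (2 * b / a * l) := mul_le_mul_of_nonneg_left hL5 (sq_nonneg b)
    _ = 2 * b ^ 3 / a * l := by ring
    _ ≤ K * l := mul_le_mul_of_nonneg_right hK (by linarith)

/-- (G6).  PROOF.  As `tor_var`, with `TL_conc`; `2 b √L ≤ K √l`. -/
theorem tor_conc {a b : ℝ} (ha : 0 < a) (hab : a ≤ b) {m N : ℕ} [NeZero m] [NeZero N] {c : ℕ → ℝ}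
    (hc : ∀ j, a ≤ c j ∧ c j ≤ b) {l R s : ℝ} {z : V} (hl : 1 ≤ l) (hz : nm z ≤ l) (hR : l ≤ R) (hs : 0 ≤ s)
    (hm : 4 * (b / a * R) < m) {K : ℝ} (hK : 4 ≤ K) (hK' : 2 * b * Real.sqrt (2 * b / a) ≤ K) :
    (tor m N c hc).P (fun τ => s ≤ |T τ 0 z - (tor m N c hc).E fun τ => T τ 0 z|)
      ≤ K * Real.exp (-(s / (K * Real.sqrt l))) := by
  obtain ⟨L, hL1, hL2, hL3, hL4, hL5⟩ := ALoc_L ha hab hl hz hR hm
  have hb : 0 < b := lt_of_lt_of_le ha hab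
  have hc0 : ∀ j, 0 ≤ c j ∧ c j ≤ b := fun j => ⟨ha.le.trans (hc j).1, (hc j).2⟩
  have hloc := tor_loc (h := b) (m := m) (N := N) (L := L) hc0 hL2 0
  have h1 := TL_conc hloc hL4 hb hL1 s
  have h2 : ∀ ω : TE m → Fin N, T (tenv m c ω) 0 z = TL L (tenv m c ω) 0 z :=
    fun ω => T_eq_TL (tenv_Bd hc ω) ha hL3 hL4
  rw [tor_E, tor_P]
  simp only [h2]
  refine le_trans h1 ?_
  have hl0 : 0 < l := by linarith
  have h3 : Real.sqrt L ≤ Real.sqrt (2 * b / a) * Real.sqrt l := by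
    rw [← Real.sqrt_mul (by positivity)]
    exact Real.sqrt_le_sqrt hL5
  have h4 : 2 * (b * Real.sqrt L) ≤ K * Real.sqrt l := by
    calc 2 * (b * Real.sqrt L) ≤ 2 * (b * (Real.sqrt (2 * b / a) * Real.sqrt l)) := by gcongr
      _ = 2 * b * Real.sqrt (2 * b / a) * Real.sqrt l := by ring
      _ ≤ K * Real.sqrt l := mul_le_mul_of_nonneg_right hK' (Real.sqrt_nonneg _)
  have hL0 : (0 : ℝ) < L := by exact_mod_cast hL1
  have h5 : 0 < 2 * (b * Real.sqrt L) := by positivity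
  have h6 : s / (K * Real.sqrt l) ≤ s / (2 * (b * Real.sqrt L)) :=
    div_le_div_of_nonneg_left hs h5 h4
  refine mul_le_mul hK (Real.exp_le_exp.2 (by linarith)) (Real.exp_pos _).le (by linarith)

end Pool.Agent.W_1b8d5d_h85
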