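import Pool.Agent.W_1b8d5d_h85.FQuant

/-!
MP_1b8d5d_pr, proofs row 571, section 9: comparison of the true law with the finite models.
-/

set_option autoImplicit false

open MeasureTheory ProbabilityTheory Finset

namespace Pool.Agent.W_1b8d5d_h85

variable {a b : ℝ} {ν : Measure ℝ}

/-- The index as an element of `Fin N`. -/
noncomputable def idxF (c : ℕ → ℝ) {N : ℕ} (hN : 0 < N) (x : ℝ) : Fin N := ⟨idx c N x, idx_lt hN c x⟩

theorem measurable_idxF (c : ℕ → ℝ) {N : ℕ} (hN : 0 < N) : Measurable (idxF c hN) := by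
  refine measurable_to_countable' fun j => ?_
  have h1 : idxF c hN ⁻¹' {j} = idx c N ⁻¹' {(j : ℕ)} := by
    ext x
    simp only [Set.mem_preimage, Set.mem_singleton_iff, idxF, Fin.ext_iff]
  rw [h1]
  exact measurable_idx c N (measurableSet_singleton _)

/-- The law of the index is uniform. -/
private theorem FBridge_law (h : Law a b ν) {N : ℕ} (hN : 0 < N) {c : ℕ → ℝ} (hc : Cuts ν a b N c) (j : Fin N) :
    (ν.map (idxF c hN)).real {j} = 1 / N := by
  have := h.prob
  rw [measureReal_def, Measure.map_apply (measurable_idxF c hN) (measurableSet_singleton j)]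
  have h1 : idxF c hN ⁻¹' {j} = {x | idx c N x = (j : ℕ)} := by
    ext x
    simp only [Set.mem_preimage, Set.mem_singleton_iff, idxF, Fin.ext_iff, Set.mem_ofPred_eq]
  rw [h1]
  exact law_idx h hN hc j.2

/-- The mean of a function of the indices is the uniform average. PROOF: `Measure.pi_map_pi` (or induction), the law of
`idxF` is uniform (`law_idx`); integral over a finite type. -/
theorem integral_idx (h : Law a b ν) {N : ℕ} (hN : 0 < N) {c : ℕ → ℝ} (hc : Cuts ν a b N c)
    {ι : Type} [Fintype ι] [DecidableEq ι] (f : (ι → Fin N) → ℝ) :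
    ∫ x, f (fun i => idxF c hN (x i)) ∂(Measure.pi fun _ : ι => ν) = Ex f := by
  have := h.prob
  have : IsProbabilityMeasure (ν.map (idxF c hN)) :=
    Measure.isProbabilityMeasure_map (measurable_idxF c hN).aemeasurable
  have h1 : (Measure.pi fun _ : ι => ν).map (fun x i => idxF c hN (x i))
      = Measure.pi fun _ : ι => ν.map (idxF c hN) :=
    Measure.pi_map_pi (f := fun _ : ι => idxF c hN) fun _ => (measurable_idxF c hN).aemeasurable
  have hm : Measurable (fun (x : ι → ℝ) (i : ι) => idxF c hN (x i)) :=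
    measurable_pi_lambda _ fun i => (measurable_idxF c hN).comp (measurable_pi_apply i)
  have h2 : ∫ x, f (fun i => idxF c hN (x i)) ∂(Measure.pi fun _ : ι => ν)
      = ∫ y, f y ∂((Measure.pi fun _ : ι => ν).map (fun x i => idxF c hN (x i))) :=
    (integral_map hm.aemeasurable (measurable_of_countable f).aestronglyMeasurable).symm
  rw [h2, h1, integral_fintype .of_finite]
  have h3 : ∀ y : ι → Fin N, (Measure.pi fun _ : ι => ν.map (idxF c hN)).real {y}
      = 1 / (Fintype.card (ι → Fin N) : ℝ) := fun y => by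
    rw [measureReal_def, Measure.pi_singleton, ENNReal.toReal_prod]
    have h4 : ∀ i ∈ (univ : Finset ι), ((ν.map (idxF c hN)) {y i}).toReal = 1 / (N : ℝ) :=
      fun i _ => FBridge_law h hN hc (y i)
    rw [prod_congr rfl h4, prod_const, card_univ, Fintype.card_fun, Fintype.card_fin]
    push_cast
    rw [one_div, one_div, inv_pow]
  unfold Ex
  rw [sum_div]
  refine sum_congr rfl fun y _ => ?_
  rw [h3 y, smul_eq_mul]
  ring

/-- The mean of a function of the index of one coordinate. -/
private theorem FBridge_integral_one (h : Law a b ν) {N : ℕ} (hN : 0 < N) {c : ℕ → ℝ} (hc : Cuts ν a b N c)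
    (g : Fin N → ℝ) : ∫ x, g (idxF c hN x) ∂ν = (∑ j, g j) / N := by
  have := h.prob
  have : IsProbabilityMeasure (ν.map (idxF c hN)) :=
    Measure.isProbabilityMeasure_map (measurable_idxF c hN).aemeasurable
  have h2 : ∫ x, g (idxF c hN x) ∂ν = ∫ y, g y ∂(ν.map (idxF c hN)) :=
    (integral_map (measurable_idxF c hN).aemeasurable (measurable_of_countable g).aestronglyMeasurable).symm
  rw [h2, integral_fintype .of_finite, sum_div]
  refine sum_congr rfl fun j _ => ?_
  rw [FBridge_law h hN hc j, smul_eq_mul]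
  ring

private theorem FBridge_ae (h : Law a b ν) : ∀ᵐ x ∂ν, x ∈ Set.Icc a b := by
  rw [ae_iff]
  exact h.supp

private theorem FBridge_int_dist (h : Law a b ν) {N : ℕ} (hN : 0 < N) {c : ℕ → ℝ} (hc : Cuts ν a b N c) :
    Integrable (fun x => |x - c (idx c N x)|) ν := by
  have := h.prob
  have hm : Measurable (fun x => |x - c (idx c N x)|) := by
    have h1 : Measurable (fun x => c (idx c N x)) :=
      (measurable_of_countable c).comp (measurable_idx c N)
    exact (measurable_id.sub h1).abs
  refine Integrable.mono' (integrable_const (b - a)) hm.aestronglyMeasurable ?_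
  filter_upwards [FBridge_ae h] with x hx
  have h2 := hc.mem (idx c N x)
  rw [Real.norm_eq_abs, abs_abs, abs_le]
  constructor
  · linarith [hx.1, h2.2]
  · linarith [hx.2, h2.1]

/-- The mean distance to the left cut point. PROOF: on `{idx = j}` the distance is at most `c (j + 1) - c j`; the sum
telescopes. -/
theorem integral_dist (h : Law a b ν) {N : ℕ} (hN : 0 < N) {c : ℕ → ℝ} (hc : Cuts ν a b N c) :
    ∫ x, |x - c (idx c N x)| ∂ν ≤ (b - a) / N := by
  have := h.prob
  have hm : Measurable (fun x => c (idx c N x + 1) - c (idx c N x)) := by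
    have h1 : Measurable (fun x => c (idx c N x)) :=
      (measurable_of_countable c).comp (measurable_idx c N)
    have h2 : Measurable (fun x => c (idx c N x + 1)) :=
      (measurable_of_countable fun j => c (j + 1)).comp (measurable_idx c N)
    exact h2.sub h1
  have hi : Integrable (fun x => c (idx c N x + 1) - c (idx c N x)) ν := by
    refine Integrable.mono' (integrable_const (b - a)) hm.aestronglyMeasurable ?_
    refine Filter.Eventually.of_forall fun x => ?_
    have h2 := hc.mem (idx c N x)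
    have h3 := hc.mem (idx c N x + 1)
    rw [Real.norm_eq_abs, abs_le]
    constructor
    · linarith [h2.2, h3.1]
    · linarith [h2.1, h3.2]
  refine (integral_mono_ae (FBridge_int_dist h hN hc) hi ?_).trans ?_
  · filter_upwards [FBridge_ae h] with x hx
    obtain ⟨h1, h2⟩ := idx_le hN hc hx
    rw [abs_of_nonneg (by linarith)]
    linarith
  · have h3 := FBridge_integral_one h hN hc (fun j : Fin N => c ((j : ℕ) + 1) - c (j : ℕ))
    have h4 : ∫ x, (c (idx c N x + 1) - c (idx c N x)) ∂ν
        = ∫ x, (fun j : Fin N => c ((j : ℕ) + 1) - c (j : ℕ)) (idxF c hN x) ∂ν := rfl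
    rw [h4, h3]
    refine le_of_eq ?_
    congr 1
    rw [Fin.sum_univ_eq_sum_range (fun j => c (j + 1) - c j) N, sum_range_sub, hc.zero, hc.last N le_rfl]

/-- Clipping to `[a, b]`. -/
private noncomputable def FBridge_clip (a b : ℝ) {ι : Type} (x : ι → ℝ) : ι → ℝ := fun i => max a (min b (x i))

private theorem FBridge_clip_mem (hab : a ≤ b) {ι : Type} (x : ι → ℝ) (i : ι) :
    FBridge_clip a b x i ∈ Set.Icc a b :=
  ⟨le_max_left _ _, max_le hab (min_le_left _ _)⟩

private theorem FBridge_clip_of_mem {ι : Type} {x : ι → ℝ} (hx : ∀ i, x i ∈ Set.Icc a b) :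
    FBridge_clip a b x = x := by
  funext i
  show max a (min b (x i)) = x i
  rw [min_eq_right (hx i).2, max_eq_right (hx i).1]

private theorem FBridge_clip_cont {ι : Type} : Continuous (FBridge_clip a b (ι := ι)) := by
  refine continuous_pi fun i => ?_
  exact continuous_const.max (continuous_const.min (continuous_apply i))

/-- A function which is Lipschitz on the cube is continuous after clipping. -/
private theorem FBridge_cont (hab : a ≤ b) {ι : Type} [Fintype ι] (F : (ι → ℝ) → ℝ)
    (hF : ∀ x y : ι → ℝ, (∀ i, x i ∈ Set.Icc a b) → (∀ i, y i ∈ Set.Icc a b) →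
      |F x - F y| ≤ ∑ i, |x i - y i|) : Continuous fun x => F (FBridge_clip a b x) := by
  rw [continuous_iff_continuousAt]
  intro x
  have h1 : ∀ y, |F (FBridge_clip a b y) - F (FBridge_clip a b x)|
      ≤ ∑ i, |FBridge_clip a b y i - FBridge_clip a b x i| := fun y =>
    hF _ _ (FBridge_clip_mem hab y) (FBridge_clip_mem hab x)
  have h2 : Filter.Tendsto (fun y : ι → ℝ => ∑ i, |FBridge_clip a b y i - FBridge_clip a b x i|)
      (nhds x) (nhds 0) := by
    have h3 : Continuous (fun y : ι → ℝ => ∑ i, |FBridge_clip a b y i - FBridge_clip a b x i|) := by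
      refine continuous_finsetSum _ fun i _ => ?_
      exact (((continuous_apply i).comp FBridge_clip_cont).sub continuous_const).abs
    have h4 := h3.tendsto x
    have h5 : ∑ i, |FBridge_clip a b x i - FBridge_clip a b x i| = 0 := by simp
    rwa [h5] at h4
  have h6 : Filter.Tendsto (fun y : ι → ℝ => F (FBridge_clip a b y) - F (FBridge_clip a b x))
      (nhds x) (nhds 0) :=
    squeeze_zero_norm (fun y => by rw [Real.norm_eq_abs]; exact h1 y) h2
  have h7 := h6.add_const (F (FBridge_clip a b x))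
  simp only [sub_add_cancel, zero_add] at h7
  exact h7

private theorem FBridge_ae_pi (h : Law a b ν) {ι : Type} [Fintype ι] :
    ∀ᵐ x ∂(Measure.pi fun _ : ι => ν), ∀ i, x i ∈ Set.Icc a b := by
  have := h.prob
  rw [ae_all_iff]
  intro i
  exact (Measure.quasiMeasurePreserving_eval (fun _ : ι => ν) i).ae (FBridge_ae h)

private theorem FBridge_aesm (h : Law a b ν) {ι : Type} [Fintype ι] (F : (ι → ℝ) → ℝ)
    (hF : ∀ x y : ι → ℝ, (∀ i, x i ∈ Set.Icc a b) → (∀ i, y i ∈ Set.Icc a b) →
      |F x - F y| ≤ ∑ i, |x i - y i|) : AEStronglyMeasurable F (Measure.pi fun _ : ι => ν) := by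
  refine AEStronglyMeasurable.congr (FBridge_cont h.lt.le F hF).aestronglyMeasurable ?_
  filter_upwards [FBridge_ae_pi h] with x hx
  rw [FBridge_clip_of_mem hx]

private theorem FBridge_int (h : Law a b ν) {ι : Type} [Fintype ι] (F : (ι → ℝ) → ℝ)
    (hF : ∀ x y : ι → ℝ, (∀ i, x i ∈ Set.Icc a b) → (∀ i, y i ∈ Set.Icc a b) →
      |F x - F y| ≤ ∑ i, |x i - y i|) : Integrable F (Measure.pi fun _ : ι => ν) := by
  have := h.prob
  refine Integrable.mono' (integrable_const (|F fun _ => a| + Fintype.card ι * (b - a))) (FBridge_aesm h F hF) ?_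
  filter_upwards [FBridge_ae_pi h] with x hx
  have h1 := hF x (fun _ => a) hx (fun _ => ⟨le_rfl, h.lt.le⟩)
  have h2 : ∑ i, |x i - a| ≤ Fintype.card ι * (b - a) := by
    have h3 : ∀ i ∈ (univ : Finset ι), |x i - a| ≤ b - a := fun i _ => by
      rw [abs_of_nonneg (by linarith [(hx i).1])]
      linarith [(hx i).2]
    have h4 := sum_le_card_nsmul univ (fun i => |x i - a|) (b - a) h3
    rwa [card_univ, nsmul_eq_mul] at h4
  have h5 : |F x| ≤ |F fun _ => a| + |F x - F fun _ => a| := by
    have h6 := abs_add_le (F fun _ => a) (F x - F fun _ => a)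
    rwa [add_sub_cancel] at h6
  rw [Real.norm_eq_abs]
  exact h5.trans (add_le_add le_rfl (h1.trans h2))

/-- The finite dimensional comparison. PROOF: the difference is at most the integral of `∑ i, |x i - c (idx (x i))|`
(almost every `x` has all coordinates in `[a, b]`); `integral_idx`, `integral_dist`. The hypothesis `hF` makes
`x ↦ F (clip x)` continuous, which gives the measurability. -/
theorem bridge_pi (h : Law a b ν) {N : ℕ} (hN : 0 < N) {c : ℕ → ℝ} (hc : Cuts ν a b N c)
    {ι : Type} [Fintype ι] [DecidableEq ι] (F : (ι → ℝ) → ℝ)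
    (hF : ∀ x y : ι → ℝ, (∀ i, x i ∈ Set.Icc a b) → (∀ i, y i ∈ Set.Icc a b) →
      |F x - F y| ≤ ∑ i, |x i - y i|) :
    |∫ x, F x ∂(Measure.pi fun _ : ι => ν) - Ex fun u : ι → Fin N => F fun i => c (u i)| ≤
      Fintype.card ι * ((b - a) / N) := by
  have := h.prob
  have hm : Measurable (fun (x : ι → ℝ) (i : ι) => idxF c hN (x i)) :=
    measurable_pi_lambda _ fun i => (measurable_idxF c hN).comp (measurable_pi_apply i)
  set G : (ι → ℝ) → ℝ := fun x => F fun i => c (idx c N (x i)) with hG
  have hGm : Measurable G :=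
    (measurable_of_countable fun u : ι → Fin N => F fun i => c (u i)).comp hm
  have hE : Ex (fun u : ι → Fin N => F fun i => c (u i)) = ∫ x, G x ∂(Measure.pi fun _ : ι => ν) :=
    (integral_idx h hN hc fun u : ι → Fin N => F fun i => c (u i)).symm
  have hGi : Integrable G (Measure.pi fun _ : ι => ν) := by
    refine Integrable.mono' (integrable_const (|F fun _ => a| + Fintype.card ι * (b - a)))
      hGm.aestronglyMeasurable ?_
    refine Filter.Eventually.of_forall fun x => ?_
    have h1 := hF (fun i => c (idx c N (x i))) (fun _ => a) (fun i => hc.mem _) (fun _ => ⟨le_rfl, h.lt.le⟩)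
    have h2 : ∑ i, |c (idx c N (x i)) - a| ≤ Fintype.card ι * (b - a) := by
      have h3 : ∀ i ∈ (univ : Finset ι), |c (idx c N (x i)) - a| ≤ b - a := fun i _ => by
        have h4 := hc.mem (idx c N (x i))
        rw [abs_of_nonneg (by linarith [h4.1])]
        linarith [h4.2]
      have h4 := sum_le_card_nsmul univ (fun i => |c (idx c N (x i)) - a|) (b - a) h3
      rwa [card_univ, nsmul_eq_mul] at h4
    have h5 : |G x| ≤ |F fun _ => a| + |G x - F fun _ => a| := by
      have h6 := abs_add_le (F fun _ => a) (G x - F fun _ => a)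
      rwa [add_sub_cancel] at h6
    rw [Real.norm_eq_abs]
    exact h5.trans (add_le_add le_rfl (h1.trans h2))
  have hone : ∀ i : ι, Integrable (fun x : ι → ℝ => |x i - c (idx c N (x i))|) (Measure.pi fun _ : ι => ν) :=
    fun i => (measurePreserving_eval (fun _ : ι => ν) i).integrable_comp_of_integrable
      (FBridge_int_dist h hN hc)
  have hval : ∀ i : ι, ∫ x, |x i - c (idx c N (x i))| ∂(Measure.pi fun _ : ι => ν)
      = ∫ x, |x - c (idx c N x)| ∂ν := fun i => by
    have hmp := measurePreserving_eval (fun _ : ι => ν) i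
    have h1 : ∫ x, |x - c (idx c N x)| ∂ν
        = ∫ x, |x - c (idx c N x)| ∂((Measure.pi fun _ : ι => ν).map (Function.eval i)) := by
      rw [hmp.map_eq]
    have h2 : AEStronglyMeasurable (fun x => |x - c (idx c N x)|)
        ((Measure.pi fun _ : ι => ν).map (Function.eval i)) := by
      rw [hmp.map_eq]
      exact (FBridge_int_dist h hN hc).aestronglyMeasurable
    rw [h1, integral_map hmp.measurable.aemeasurable h2]
  rw [hE, ← integral_sub (FBridge_int h F hF) hGi]
  refine (abs_integral_le_integral_abs).trans ?_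
  have hle : ∫ x, |F x - G x| ∂(Measure.pi fun _ : ι => ν)
      ≤ ∫ x, ∑ i, |x i - c (idx c N (x i))| ∂(Measure.pi fun _ : ι => ν) := by
    refine integral_mono_ae ((FBridge_int h F hF).sub hGi).abs (integrable_finsetSum _ fun i _ => hone i) ?_
    filter_upwards [FBridge_ae_pi h] with x hx
    exact hF x (fun i => c (idx c N (x i))) hx fun i => hc.mem _
  refine hle.trans ?_
  rw [integral_finsetSum _ fun i _ => hone i, sum_congr rfl fun i _ => hval i, sum_const, card_univ, nsmul_eq_mul]
  exact mul_le_mul_of_nonneg_left (integral_dist h hN hc) (Nat.cast_nonneg _)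

/-- Independent passage times with the law `ν`. -/
structure IsFPP (ν : Measure ℝ) {Ω : Type} [MeasurableSpace Ω] (P : Measure Ω) (τ : Edge → Ω → ℝ) : Prop where
  prob : IsProbabilityMeasure P
  meas : ∀ e, Measurable (τ e)
  indep : iIndepFun τ P
  law : ∀ e, P.map (τ e) = ν

/-- The environment of a finite model: cut points on `A`, the value `b` off `A`. -/
noncomputable def mdlEnv (b : ℝ) (c : ℕ → ℝ) {N : ℕ} (A : Finset Edge) (u : A → Fin N) : Env :=
  fun e => if h : e ∈ A then c (u ⟨e, h⟩) else b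

private theorem FBridge_ae_Bd (h : Law a b ν) {Ω : Type} [MeasurableSpace Ω] {P : Measure Ω} {τ : Edge → Ω → ℝ}
    (hτ : IsFPP ν P τ) : ∀ᵐ ω ∂P, Bd a b fun e => τ e ω := by
  have h1 : ∀ᵐ ω ∂P, ∀ e : Edge, τ e ω ∈ Set.Icc a b := by
    rw [ae_all_iff]
    intro e
    have h2 := FBridge_ae h
    rw [← hτ.law e] at h2
    exact ae_of_ae_map (hτ.meas e).aemeasurable h2
  filter_upwards [h1] with ω hω
  exact fun e => ⟨(hω e).1, (hω e).2⟩

/-- THE BRIDGE. PROOF: the law of `(τ e)_{e ∈ A}` is the product measure (`iIndepFun` restricted to `A`,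
`iIndepFun_iff_map_fun_eq_pi_map`); almost surely all `τ e` are in `[a, b]` (countably many edges), and then
`F (τ ω) = F (res b A (τ ω))` by `hF`; `bridge_pi` for `ι = A`. -/
theorem bridge (h : Law a b ν) {N : ℕ} (hN : 0 < N) {c : ℕ → ℝ} (hc : Cuts ν a b N c)
    {Ω : Type} [MeasurableSpace Ω] {P : Measure Ω} {τ : Edge → Ω → ℝ} (hτ : IsFPP ν P τ)
    (A : Finset Edge) (F : Env → ℝ)
    (hF : ∀ τ₁ τ₂ : Env, Bd a b τ₁ → Bd a b τ₂ → |F τ₁ - F τ₂| ≤ ∑ e ∈ A, |τ₁ e - τ₂ e|) :
    |∫ ω, F (fun e => τ e ω) ∂P - Ex fun u : A → Fin N => F (mdlEnv b c A u)| ≤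
      A.card * ((b - a) / N) := by
  have := h.prob
  have := hτ.prob
  set ext : (A → ℝ) → Env := fun x e => if he : e ∈ A then x ⟨e, he⟩ else b with hext
  have hextBd : ∀ x : A → ℝ, (∀ i, x i ∈ Set.Icc a b) → Bd a b (ext x) := fun x hx e => by
    simp only [hext]
    split_ifs with he
    · exact ⟨(hx ⟨e, he⟩).1, (hx ⟨e, he⟩).2⟩
    · exact ⟨h.lt.le, le_rfl⟩
  set G : (A → ℝ) → ℝ := fun x => F (ext x) with hG
  have hGF : ∀ x y : A → ℝ, (∀ i, x i ∈ Set.Icc a b) → (∀ i, y i ∈ Set.Icc a b) →
      |G x - G y| ≤ ∑ i, |x i - y i| := fun x y hx hy => by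
    refine (hF _ _ (hextBd x hx) (hextBd y hy)).trans (le_of_eq ?_)
    rw [← sum_attach]
    refine sum_congr rfl fun e _ => ?_
    simp only [hext, dif_pos e.2]
  have hb := bridge_pi h hN hc G hGF
  have hind : iIndepFun (fun (e : A) (ω : Ω) => τ e ω) P :=
    hτ.indep.precomp Subtype.val_injective
  have hmap : P.map (fun ω (e : A) => τ e ω) = Measure.pi fun _ : A => ν := by
    rw [(iIndepFun_iff_map_fun_eq_pi_map fun e : A => (hτ.meas e).aemeasurable).1 hind]
    simp only [hτ.law]
  have hm : Measurable (fun ω (e : A) => τ e ω) := measurable_pi_lambda _ fun e => hτ.meas e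
  have h1 : ∫ x, G x ∂(Measure.pi fun _ : A => ν) = ∫ ω, G (fun e : A => τ e ω) ∂P := by
    have h2 : AEStronglyMeasurable G (P.map fun ω (e : A) => τ e ω) := by
      rw [hmap]
      exact FBridge_aesm h G hGF
    rw [← hmap, integral_map hm.aemeasurable h2]
  have h3 : ∫ ω, F (fun e => τ e ω) ∂P = ∫ ω, G (fun e : A => τ e ω) ∂P := by
    refine integral_congr_ae ?_
    filter_upwards [FBridge_ae_Bd h hτ] with ω hω
    have h4 : Bd a b (ext fun e : A => τ e ω) := hextBd _ fun i => ⟨(hω i).1, (hω i).2⟩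
    have h5 := hF (fun e => τ e ω) (ext fun e : A => τ e ω) hω h4
    have h6 : ∑ e ∈ A, |τ e ω - ext (fun e : A => τ e ω) e| = 0 := by
      refine sum_eq_zero fun e he => ?_
      simp only [hext, dif_pos he, sub_self, abs_zero]
    rw [h6] at h5
    exact sub_eq_zero.1 (abs_eq_zero.1 (le_antisymm h5 (abs_nonneg _)))
  rw [h3, ← h1]
  rw [Fintype.card_coe] at hb
  exact hb

/-- Almost surely all passage times are in `[a, b]`. -/
theorem ae_Bd (h : Law a b ν) {Ω : Type} [MeasurableSpace Ω] {P : Measure Ω} {τ : Edge → Ω → ℝ}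
    (hτ : IsFPP ν P τ) : ∀ᵐ ω ∂P, Bd a b fun e => τ e ω := FBridge_ae_Bd h hτ

/-- The mean passage time. -/
noncomputable def tm {Ω : Type} [MeasurableSpace Ω] (P : Measure Ω) (τ : Edge → Ω → ℝ) (z : V) : ℝ :=
  ∫ ω, T (fun e => τ e ω) 0 z ∂P

end Pool.Agent.W_1b8d5d_h85
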