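import Pool.Agent.W_1b8d5d_h85.AInd
import Pool.Agent.W_1b8d5d_h85.FBridge

/-!
MP_1b8d5d_pr, part (A): the mean passage times of the torus models are near the true ones.
-/

set_option autoImplicit false

open MeasureTheory ProbabilityTheory

namespace Pool.Agent.W_1b8d5d_h85

open Finset

/-- Finite boxes of edges. -/
theorem exists_box (ρ : ℝ) : ∃ A : Finset Edge, ∀ e, e ∈ A ↔ nm e.1 ≤ ρ := by
  have hfin : {e : Edge | nm e.1 ≤ ρ}.Finite := by
    refine Set.Finite.subset (s := (Set.Icc ((-⌈ρ⌉, -⌈ρ⌉) : V) (⌈ρ⌉, ⌈ρ⌉)) ×ˢ (Set.univ : Set Bool))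
      ((Set.finite_Icc _ _).prod Set.finite_univ) ?_
    intro e he
    have he' : |(e.1.1 : ℝ)| + |(e.1.2 : ℝ)| ≤ ρ := he
    have h1 := abs_nonneg (e.1.1 : ℝ)
    have h2 := abs_nonneg (e.1.2 : ℝ)
    have h3 : |(e.1.1 : ℝ)| ≤ (⌈ρ⌉ : ℤ) := by
      have := Int.le_ceil ρ
      linarith
    have h4 : |(e.1.2 : ℝ)| ≤ (⌈ρ⌉ : ℤ) := by
      have := Int.le_ceil ρ
      linarith
    have h5 : |e.1.1| ≤ ⌈ρ⌉ := by exact_mod_cast h3
    have h6 : |e.1.2| ≤ ⌈ρ⌉ := by exact_mod_cast h4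
    obtain ⟨h7, h8⟩ := abs_le.1 h5
    obtain ⟨h9, h10⟩ := abs_le.1 h6
    exact ⟨⟨⟨h7, h9⟩, ⟨h8, h10⟩⟩, Set.mem_univ _⟩
  exact ⟨hfin.toFinset, fun e => by rw [Set.Finite.mem_toFinset]; rfl⟩

private theorem AMean_lip {a b : ℝ} (ha : 0 < a) (hab : a ≤ b) (A : Finset Edge) {τ₁ τ₂ : Env} (h₁ : Bd a b τ₁)
    (h₂ : Bd a b τ₂) (x y : V) :
    T (res b (A : Set Edge) τ₁) x y - T (res b (A : Set Edge) τ₂) x y ≤ ∑ e ∈ A, |τ₁ e - τ₂ e| := by
  classical
  obtain ⟨w, hw⟩ := exists_geo (Bd_res hab h₂ (A : Set Edge)) ha x y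
  have h3 := T_le_cost (Bd_res hab h₁ (A : Set Edge)) ha.le w
  rw [cost_path _ hw.1] at h3
  have h4 := hw.2
  rw [cost_path _ hw.1] at h4
  rw [← h4]
  refine (sub_le_sub_right h3 _).trans ?_
  rw [← sum_sub_distrib]
  have h5 : ∀ e ∈ (wedges w).toFinset, res b (A : Set Edge) τ₁ e - res b (A : Set Edge) τ₂ e
      ≤ if e ∈ A then |τ₁ e - τ₂ e| else 0 := by
    intro e _
    unfold res
    by_cases he : e ∈ A
    · rw [if_pos (mem_coe.2 he), if_pos (mem_coe.2 he), if_pos he]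
      exact le_abs_self _
    · rw [if_neg (fun h => he (mem_coe.1 h)), if_neg (fun h => he (mem_coe.1 h)), if_neg he, sub_self]
  refine (sum_le_sum h5).trans ?_
  rw [← sum_filter]
  refine sum_le_sum_of_subset_of_nonneg ?_ fun e _ _ => abs_nonneg _
  intro e he
  exact (mem_filter.1 he).2

/-- Lipschitz property of the passage time inside a finite set of edges.  PROOF.  Compare along a geodesic of `res b A τ₂`
(`cost_path`: a path uses every edge at most once; off `A` both environments have the value `b`). -/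
theorem T_res_lip {a b : ℝ} (ha : 0 < a) (hab : a ≤ b) (A : Finset Edge) {τ₁ τ₂ : Env} (h₁ : Bd a b τ₁)
    (h₂ : Bd a b τ₂) (x y : V) :
    |T (res b (A : Set Edge) τ₁) x y - T (res b (A : Set Edge) τ₂) x y| ≤ ∑ e ∈ A, |τ₁ e - τ₂ e| := by
  rw [abs_le']
  refine ⟨AMean_lip ha hab A h₁ h₂ x y, ?_⟩
  have h := AMean_lip ha hab A h₂ h₁ x y
  have h3 : ∑ e ∈ A, |τ₂ e - τ₁ e| = ∑ e ∈ A, |τ₁ e - τ₂ e| := sum_congr rfl fun e _ => abs_sub_comm _ _
  rw [h3] at h
  linarith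

/-- PROOF.  A geodesic from `0` to `z` has at most `b / a * nm z` edges, all of them in `A` (`wedges_near`); `T_res_eq`. -/
theorem T_res_box {a b : ℝ} (ha : 0 < a) (hab : a ≤ b) {R : ℝ} {A : Finset Edge} (hA : ∀ e, nm e.1 ≤ b / a * R → e ∈ A)
    {τ : Env} (hτ : Bd a b τ) {z : V} (hz : nm z ≤ R) : T (res b (A : Set Edge) τ) 0 z = T τ 0 z := by
  obtain ⟨w, hw⟩ := exists_geo hτ ha 0 z
  refine T_res_eq ha.le hab hτ hw.2 fun e he => mem_coe.2 (hA e ?_)
  have h1 := wedges_near w he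
  have h2 := geo_length hτ ha hw
  rw [sub_zero] at h1 h2
  refine h1.trans ?_
  rw [div_mul_eq_mul_div, le_div_iff₀ ha]
  have hb : 0 ≤ b := ha.le.trans hab
  have h3 := mul_le_mul_of_nonneg_left hz hb
  linarith

/-- (G4).  PROOF.  `bridge` for `F τ = T (res b A τ) 0 z` (`T_res_lip`); almost surely `F = T` (`ae_Bd`, `T_res_box`); in the torus
model `F (tenv m c ω) = F (mdlEnv b c A (fun e => ω (pr m e)))`, and `Ex_marginal` (`pr m` is injective on `A`: `pr_inj`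
around `0`). -/
theorem tor_mean {a b : ℝ} {ν : Measure ℝ} (h : Law a b ν) (ha : 0 < a) {m N : ℕ} [NeZero m] [NeZero N] {c : ℕ → ℝ}
    (hcut : Cuts ν a b N c) (hc : ∀ j, a ≤ c j ∧ c j ≤ b) {Ω : Type} [MeasurableSpace Ω] {P : Measure Ω}
    {τ : Edge → Ω → ℝ} (hτ : IsFPP ν P τ) {R : ℝ} (hm : 2 * (b / a * R) < m) {A : Finset Edge}
    (hA : ∀ e, e ∈ A ↔ nm e.1 ≤ b / a * R) {z : V} (hz : nm z ≤ R) :
    |(tor m N c hc).E (fun τ => T τ 0 z) - tm P τ z| ≤ A.card * ((b - a) / N) := by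
  classical
  have hab : a ≤ b := h.lt.le
  have hb := bridge h (Nat.pos_of_ne_zero (NeZero.ne N)) hcut hτ A (fun τ => T (res b (A : Set Edge) τ) 0 z)
    (fun τ₁ τ₂ h₁ h₂ => T_res_lip ha hab A h₁ h₂ 0 z)
  have hA' : ∀ e, nm e.1 ≤ b / a * R → e ∈ A := fun e => (hA e).2
  have e1 : ∫ ω, T (res b (A : Set Edge) (fun e => τ e ω)) 0 z ∂P = tm P τ z := by
    unfold tm
    refine integral_congr_ae ?_
    filter_upwards [ae_Bd h hτ] with ω hω
    exact T_res_box ha hab hA' hω hz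
  have e2 : (tor m N c hc).E (fun τ => T τ 0 z)
      = Ex fun u : A → Fin N => T (res b (A : Set Edge) (mdlEnv b c A u)) 0 z := by
    rw [tor_E]
    have hinj : Function.Injective (fun i : A => pr m (i : Edge)) := by
      intro i i' hii
      refine Subtype.ext ?_
      have h1 : nm ((i : Edge).1 - 0) ≤ b / a * R := by rw [sub_zero]; exact (hA _).1 i.2
      have h2 : nm ((i' : Edge).1 - 0) ≤ b / a * R := by rw [sub_zero]; exact (hA _).1 i'.2
      exact pr_inj hm h1 h2 hii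
    rw [← Ex_marginal (β := Fin N) (fun i : A => pr m (i : Edge)) hinj
      (fun u : A → Fin N => T (res b (A : Set Edge) (mdlEnv b c A u)) 0 z)]
    refine Ex_congr fun ω => ?_
    rw [← T_res_box ha hab hA' (tenv_Bd hc ω) hz]
    congr 1
    funext e
    unfold res
    by_cases he : e ∈ A
    · rw [if_pos (mem_coe.2 he), if_pos (mem_coe.2 he)]
      unfold mdlEnv
      rw [dif_pos he]
      rfl
    · rw [if_neg (fun h => he (mem_coe.1 h)), if_neg (fun h => he (mem_coe.1 h))]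
  rw [e2, ← e1, abs_sub_comm]
  exact hb

/-- Arbitrarily good models.  PROOF.  `m` and `N` large in `tor_mean`, `exists_cuts`, `tor_inv`, `tor_refl`. -/
theorem exists_approxA {a b : ℝ} {ν : Measure ℝ} (h : Law a b ν) (ha : 0 < a) {Ω : Type} [MeasurableSpace Ω]
    {P : Measure Ω} {τ : Edge → Ω → ℝ} (hτ : IsFPP ν P τ) (R : ℝ) {ε : ℝ} (hε : 0 < ε) :
    ∃ M : Mdl a b, (∀ (z : V) (F : Env → ℝ), M.E (fun τ => F (sh z τ)) = M.E F) ∧
      ∀ z, nm z ≤ R → |M.E (fun τ => T τ 0 z) - tm P τ z| ≤ ε := by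
  obtain ⟨A, hA⟩ := exists_box (b / a * R)
  obtain ⟨m, hm⟩ := exists_nat_gt (2 * (b / a * R))
  obtain ⟨N, hN⟩ := exists_nat_gt (A.card * (b - a) / ε)
  obtain ⟨c, hcut⟩ := exists_cuts h (Nat.succ_pos N)
  have hc : ∀ j, a ≤ c j ∧ c j ≤ b := fun j => ⟨(hcut.mem j).1, (hcut.mem j).2⟩
  have hm' : 2 * (b / a * R) < ((m + 1 : ℕ) : ℝ) := by
    push_cast
    linarith
  refine ⟨tor (m + 1) (N + 1) c hc, tor_inv (m + 1) (N + 1) c hc, fun z hz => ?_⟩
  refine (tor_mean h ha hcut hc hτ hm' hA hz).trans ?_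
  rw [div_lt_iff₀ hε] at hN
  have hpos : (0 : ℝ) < ((N + 1 : ℕ) : ℝ) := by positivity
  rw [← mul_div_assoc, div_le_iff₀ hpos]
  push_cast
  nlinarith

/-- The mean passage times.  PROOF.  `exists_approxA` with `ε → 0`; `T_self`, `T_symm`, `T_triangle`, `T_sh`, `T_lower`, `T_upper`. -/
theorem isMean_tm {ν : Measure ℝ} (Q : Par) (h : Law Q.a Q.b ν) {Ω : Type} [MeasurableSpace Ω]
    {P : Measure Ω} {τ : Edge → Ω → ℝ} (hτ : IsFPP ν P τ) : IsMean Q (tm P τ) := by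
  have ha := Q.ha
  refine ⟨?_, ?_, ?_, ?_, ?_⟩
  · refine abs_eq_zero.1 (le_antisymm (le_of_forall_pos_le_add fun ε hε => ?_) (abs_nonneg _))
    obtain ⟨M, _, hM⟩ := exists_approxA h ha hτ 0 hε
    have h1 := hM 0 nm_zero.le
    have h2 : M.E (fun τ => T τ 0 0) = 0 := by
      rw [← M.E_const 0]
      exact M.E_congr fun τ hτ => T_self hτ ha.le 0
    rw [h2, zero_sub, abs_neg] at h1
    rwa [zero_add]
  · intro z
    refine sub_eq_zero.1 (abs_eq_zero.1 (le_antisymm (le_of_forall_pos_le_add fun ε hε => ?_) (abs_nonneg _)))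
    obtain ⟨M, hinv, hM⟩ := exists_approxA h ha hτ (nm z) (half_pos hε)
    have h1 := hM z le_rfl
    have h2 := hM (-z) (nm_neg z).le
    have h3 : M.E (fun τ => T τ 0 (-z)) = M.E (fun τ => T τ 0 z) := by
      rw [← hinv z (fun τ => T τ 0 (-z))]
      refine M.E_congr fun τ _ => ?_
      rw [T_sh, zero_add, neg_add_cancel, T_symm]
    rw [h3] at h2
    have h4 := abs_sub_le (tm P τ (-z)) (M.E fun τ => T τ 0 z) (tm P τ z)
    have h5 := abs_sub_comm (tm P τ (-z)) (M.E fun τ => T τ 0 z)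
    rw [h5] at h4
    linarith
  · intro x y
    refine le_of_forall_pos_le_add fun ε hε => ?_
    obtain ⟨M, hinv, hM⟩ := exists_approxA h ha hτ (nm x + nm y) (show 0 < ε / 3 by positivity)
    have h1 := hM x (by linarith [nm_nonneg y])
    have h2 := hM y (by linarith [nm_nonneg x])
    have h3 := hM (x + y) (nm_add_le x y)
    have h4 : M.E (fun τ => T τ 0 (x + y)) ≤ M.E (fun τ => T τ 0 x) + M.E (fun τ => T τ 0 y) := by
      rw [← hinv x (fun τ => T τ 0 y), ← M.E_add]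
      refine M.E_mono fun τ hτ => ?_
      have h5 := T_triangle hτ ha.le 0 x (x + y)
      rw [T_sh, zero_add, add_comm y x]
      exact h5
    have h5 := (abs_le.1 h1).1
    have h6 := (abs_le.1 h1).2
    have h7 := (abs_le.1 h2).1
    have h8 := (abs_le.1 h2).2
    have h9 := (abs_le.1 h3).1
    have h10 := (abs_le.1 h3).2
    linarith
  · intro z
    refine le_of_forall_pos_le_add fun ε hε => ?_
    obtain ⟨M, _, hM⟩ := exists_approxA h ha hτ (nm z) hε
    have h1 := hM z le_rfl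
    have h2 : Q.a * nm z ≤ M.E (fun τ => T τ 0 z) := by
      refine M.le_E_of_le fun τ hτ => ?_
      have h3 := T_lower hτ ha.le 0 z
      rwa [sub_zero] at h3
    have h5 := (abs_le.1 h1).2
    linarith
  · intro z
    refine le_of_forall_pos_le_add fun ε hε => ?_
    obtain ⟨M, _, hM⟩ := exists_approxA h ha hτ (nm z) hε
    have h1 := hM z le_rfl
    have h2 : M.E (fun τ => T τ 0 z) ≤ Q.b * nm z := by
      refine M.E_le_of_le fun τ hτ => ?_
      have h3 := T_upper hτ ha.le 0 z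
      rwa [sub_zero] at h3
    have h5 := (abs_le.1 h1).1
    linarith

end Pool.Agent.W_1b8d5d_h85
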