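import Pool.Agent.W_1b8d5d_h85.APeierls

/-!
MP_1b8d5d_pr, part (A): (G7) for one starting vertex.
-/

set_option autoImplicit false

namespace Pool.Agent.W_1b8d5d_h85

open Finset

/-- (G7) for one starting vertex: at most `4 ^ n` paths of length `n`, `Pr_list_low`. -/
theorem tor_peierls_one {a b : ℝ} (m N : ℕ) [NeZero m] [NeZero N] (c : ℕ → ℝ) (hc : ∀ j, a ≤ c j ∧ c j ≤ b)
    {su R K : ℝ} (hR : 1 ≤ R) (hm : 2 * R < m) (hδ : Pr (fun u : Fin N => c u < su) ≤ 1 / 1024) (hK : 2 ≤ K)
    (x : V) (l : ℕ) :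
    (tor m N c hc).P (fun τ => ∃ (y : V) (w : grid.Walk x y), w.IsPath ∧
      l ≤ w.length ∧ (w.length : ℝ) ≤ R ∧ (nHigh su τ w : ℝ) < w.length / 2) ≤ K * (1 / 2) ^ l := by
  classical
  rw [tor_P]
  set r : ℕ := ⌊R⌋₊ with hr
  have hR0 : 0 ≤ R := by linarith
  have hrR : (r : ℝ) ≤ R := Nat.floor_le hR0
  set p : (TE m → Fin N) → List Edge → Prop := fun ω L =>
    (((L.filter fun e => su ≤ tenv m c ω e).length : ℕ) : ℝ) < (L.length : ℝ) / 2 with hp
  have hone : ∀ (x : V) (n : ℕ), (n : ℝ) ≤ R →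
      Pr (fun ω : TE m → Fin N => ∃ (y : V) (w : grid.Walk x y), w.IsPath ∧ w.length = n ∧
        p ω (wedges w)) ≤ (1 / 4) ^ n := by
    intro x n hn
    refine (Pr_paths_le x n p).trans ?_
    have h2 : ∀ σ : Fin n → Bool × Bool, Pr (fun ω : TE m → Fin N =>
        (sedges x (List.ofFn σ)).Nodup ∧ p ω (sedges x (List.ofFn σ))) ≤ (1 / 16) ^ n := by
      intro σ
      have hlen : (sedges x (List.ofFn σ)).length = n := by
        rw [length_sedges, List.length_ofFn]
      by_cases hnd : (sedges x (List.ofFn σ)).Nodup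
      · refine (Pr_mono (q := fun ω : TE m → Fin N => p ω (sedges x (List.ofFn σ)))
          fun ω hω => hω.2).trans ?_
        have h3 := Pr_list_low (c := c) (su := su) (L := R) hδ hm x (sedges x (List.ofFn σ)) hnd
          (fun e he => by
            have := sedges_near x _ he
            rw [List.length_ofFn] at this
            linarith)
        rw [hlen] at h3
        rw [hp]
        simp only [hlen]
        exact h3
      · refine (Pr_mono (q := fun _ : TE m → Fin N => False) fun ω hω => hnd hω.1).trans ?_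
        have : Pr (fun _ : TE m → Fin N => False) = 0 := by
          rw [Pr_def]
          simp only [if_false]
          exact Ex_const 0
        rw [this]
        positivity
    refine (sum_le_sum fun σ _ => h2 σ).trans ?_
    rw [sum_const, card_univ, nsmul_eq_mul]
    have h4 : Fintype.card (Fin n → Bool × Bool) = 4 ^ n := by
      rw [Fintype.card_fun, Fintype.card_prod, Fintype.card_bool, Fintype.card_fin]
    rw [h4]
    push_cast
    rw [← mul_pow]
    norm_num
  have h1 : Pr (fun ω : TE m → Fin N => ∃ (y : V) (w : grid.Walk x y), w.IsPath ∧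
      l ≤ w.length ∧ (w.length : ℝ) ≤ R ∧ (nHigh su (tenv m c ω) w : ℝ) < w.length / 2) ≤
      Pr (fun ω : TE m → Fin N => ∃ q ∈ Ico l (r + 1),
        ∃ (y : V) (w : grid.Walk x y), w.IsPath ∧ w.length = q ∧ p ω (wedges w)) := by
    refine Pr_mono fun ω hω => ?_
    obtain ⟨y, w, hw, hl1, hl2, hn⟩ := hω
    refine ⟨w.length, ?_, y, w, hw, rfl, ?_⟩
    · rw [mem_Ico]
      refine ⟨hl1, ?_⟩
      have h3 : w.length ≤ r := Nat.le_floor hl2
      omega
    · rw [hp]
      show (((wedges w).filter fun e => su ≤ tenv m c ω e).length : ℝ) < ((wedges w).length : ℝ) / 2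
      rw [length_wedges]
      exact hn
  refine (h1.trans (Pr_exists_le _ _)).trans ?_
  have h2 : ∀ q ∈ Ico l (r + 1), Pr (fun ω : TE m → Fin N =>
      ∃ (y : V) (w : grid.Walk x y), w.IsPath ∧ w.length = q ∧ p ω (wedges w)) ≤ (1 / 4) ^ q := by
    intro q hq
    rw [mem_Ico] at hq
    refine hone x q ?_
    have h3 : (q : ℝ) ≤ r := by
      have : q ≤ r := by omega
      exact_mod_cast this
    linarith
  refine (sum_le_sum h2).trans ?_
  have h3 : ∀ M : ℕ, ∑ n ∈ Ico l M, (1 / 4 : ℝ) ^ n ≤ 4 / 3 * (1 / 4) ^ l := by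
    intro M
    have h4 : l ≤ M → ∑ n ∈ Ico l M, (1 / 4 : ℝ) ^ n = 4 / 3 * ((1 / 4) ^ l - (1 / 4) ^ M) := by
      intro hM
      induction M, hM using Nat.le_induction with
      | base => simp
      | succ M hM ih =>
        rw [sum_Ico_succ_top hM, ih, pow_succ]
        ring
    rcases le_or_gt l M with hM | hM
    · rw [h4 hM]
      have : (0 : ℝ) ≤ (1 / 4) ^ M := by positivity
      linarith
    · rw [Ico_eq_empty (by omega), sum_empty]
      positivity
  have h5 := h3 (r + 1)
  have h6 : (1 / 4 : ℝ) ^ l ≤ (1 / 2) ^ l := pow_le_pow_left₀ (by norm_num) (by norm_num) _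
  have h7 : (0 : ℝ) ≤ (1 / 2) ^ l := by positivity
  have h8 : 2 * (1 / 2 : ℝ) ^ l ≤ K * (1 / 2) ^ l := mul_le_mul_of_nonneg_right hK h7
  linarith

end Pool.Agent.W_1b8d5d_h85
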