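import Pool.Agent.W_1b8d5d_h85.AVar
import Pool.Agent.W_1b8d5d_h85.AInd
import Pool.Agent.W_1b8d5d_h85.AKer
import Pool.Agent.W_1b8d5d_h85.ALev
import Pool.Agent.W_1b8d5d_h85.ALoc
import Pool.Agent.W_1b8d5d_h85.AMean
import Pool.Agent.W_1b8d5d_h85.APeierls1
import Pool.Agent.W_1b8d5d_h85.FFinal

/-!
MP_1b8d5d_pr, part (A): the torus models are good.
-/

set_option autoImplicit false

open MeasureTheory ProbabilityTheory

namespace Pool.Agent.W_1b8d5d_h85

/-- All the properties of the models. -/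
theorem exists_par (a b : ℝ) (ν : Measure ℝ) (ha : 0 < a) (h : Law a b ν) : ∃ Q : Par, Q.a = a ∧ Q.b = b ∧
    ∀ (Ω : Type) [MeasurableSpace Ω] (P : Measure Ω) (τ : Edge → Ω → ℝ), IsFPP ν P τ → HasModels Q (tm P τ) := by
  have hab := h.lt
  obtain ⟨sl, su, hs, hsl, hsu⟩ := exists_levels h
  obtain ⟨K, hK0, hK⟩ := tor_bks a b ha
  set K' : ℝ := K + (4 + 2 * b * Real.sqrt (2 * b / a)) + 12 + 4097 with hK'
  have hb : 0 < b := ha.trans hab
  have hsq : 0 ≤ 2 * b * Real.sqrt (2 * b / a) := by positivity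
  refine ⟨⟨a, b, sl, su, 1 / 4096, K', ha, hab, hs, by norm_num, by linarith⟩, rfl, rfl, ?_⟩
  intro Ω _ P τ hτ R
  set R' : ℝ := max R 1 with hR'
  have hR1 : 1 ≤ R' := le_max_right _ _
  obtain ⟨m, hm⟩ := exists_nat_gt (4 * ((b / a + 2) * R' + 2))
  have hba : 1 ≤ b / a := by rw [le_div_iff₀ ha]; linarith
  have hbR : 0 ≤ b / a * R' := by positivity
  have e1 : 4 * ((b / a + 2) * R' + 2) = 4 * (b / a * R') + 8 * R' + 8 := by ring
  rw [e1] at hm
  have hm0 : 0 < (m : ℝ) := by linarith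
  haveI : NeZero m := ⟨by rintro rfl; simp at hm0⟩
  obtain ⟨A, hA⟩ := exists_box (b / a * R')
  obtain ⟨k, hk⟩ := pow_unbounded_of_one_lt (max 2048 (A.card * (b - a))) (by norm_num : (1 : ℝ) < 2)
  have hk1 : (2048 : ℝ) < 2 ^ k := lt_of_le_of_lt (le_max_left _ _) hk
  have hk2 : A.card * (b - a) < 2 ^ k := lt_of_le_of_lt (le_max_right _ _) hk
  have hN : 0 < 2 ^ k := by positivity
  obtain ⟨c, hc⟩ := exists_cuts h hN
  have hcc : ∀ j, a ≤ c j ∧ c j ≤ b := fun j => ⟨(hc.mem j).1, (hc.mem j).2⟩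
  refine ⟨R', tor m (2 ^ k) c hcc, le_max_left _ _, ?_⟩
  constructor
  · exact fun z F => tor_inv m (2 ^ k) c hcc z F
  · exact fun F => tor_refl m (2 ^ k) c hcc F
  · exact fun A B hAB hAR F G hF hG => tor_indep m (2 ^ k) c hcc (by linarith) A B hAB hAR F G hF hG
  · intro z hz
    refine (tor_mean h ha hc hcc hτ (by linarith) hA hz).trans ?_
    push_cast
    rw [← mul_div_assoc, div_le_one (by positivity)]
    exact hk2.le
  · intro l z hl hz hlR
    refine (hK m k c hcc hc.mono R' (by rw [e1]; exact hm) l z hl hz hlR).trans ?_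
    exact mul_le_mul_of_nonneg_right (by simp only [hK']; linarith) (sq_nonneg _)
  · intro l s z hl hz hlR hs0
    exact tor_conc ha hab.le hcc hl hz hlR hs0 (by linarith) (by simp only [hK']; linarith)
      (by simp only [hK']; linarith)
  · intro x l hx hl
    exact tor_peierls_one m (2 ^ k) c hcc hR1 (by linarith) (Pr_lt_su h (by exact_mod_cast hk1.le) hc hsu)
      (by simp only [hK']; linarith) x l
  · intro C d hC hd hd2
    exact tor_tilt m (2 ^ k) c hcc (by linarith) hs (by norm_num) (le_Pr_sl h hc hsl)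
      (by simp only [hK']; norm_num; linarith) C d hC hd hd2

theorem partA : PartA := by
  intro a b ν ha h Ω _ P τ hτ
  obtain ⟨Q, hQa, hQb, hQ⟩ := exists_par a b ν ha h
  refine ⟨Q, hQ Ω P τ hτ, ?_⟩
  have h' : Law Q.a Q.b ν := by rw [hQa, hQb]; exact h
  exact isMean_tm Q h' hτ

end Pool.Agent.W_1b8d5d_h85
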