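import Pool.Agent.W_1b8d5d_h85.SProp

/-!
MP_1b8d5d_pr, proofs row 571, part (B), section 3: the iteration.
-/

set_option autoImplicit false

namespace Pool.Agent.W_1b8d5d_h85

private theorem cornerIter_gen {D E : ℝ → ℝ} {q c : ℝ} (hq : 0 < q) (hqc : q * c < 1)
    (hE : ∀ n, 1 ≤ n → 0 ≤ E n)
    (hE2 : ∀ n, 1 ≤ n → E (2 * n) ≤ c * E n)
    (hD : ∀ n, 1 ≤ n → D n ≤ q * D (2 * n) + E n) (J : ℕ) :
    ∀ n, 1 ≤ n → D n ≤ q ^ J * D (2 ^ J * n) + E n / (1 - q * c) := by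
  have h0 : 0 < 1 - q * c := by linarith
  induction J with
  | zero =>
    intro n hn
    have := div_nonneg (hE n hn) h0.le
    simpa using this
  | succ J ih =>
    intro n hn
    have h1 := hD n hn
    have h2 := ih (2 * n) (by linarith)
    have h3 : E (2 * n) / (1 - q * c) ≤ c * E n / (1 - q * c) :=
      div_le_div_of_nonneg_right (hE2 n hn) h0.le
    have h4 : q * D (2 * n) ≤ q * (q ^ J * D (2 ^ J * (2 * n)) + c * E n / (1 - q * c)) :=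
      mul_le_mul_of_nonneg_left (h2.trans (by linarith)) hq.le
    have e1 : (2 : ℝ) ^ J * (2 * n) = 2 ^ (J + 1) * n := by ring
    rw [e1] at h4
    have e2 : q * (q ^ J * D (2 ^ (J + 1) * n) + c * E n / (1 - q * c)) + E n =
        q ^ (J + 1) * D (2 ^ (J + 1) * n) + E n / (1 - q * c) := by
      field_simp
      ring
    linarith

private theorem cornerIter_lim {D E : ℝ → ℝ} {q c : ℝ} (hq : 0 < q) (hqc : q * c < 1)
    (hE : ∀ n, 1 ≤ n → 0 ≤ E n)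
    (hE2 : ∀ n, 1 ≤ n → E (2 * n) ≤ c * E n)
    (hD : ∀ n, 1 ≤ n → D n ≤ q * D (2 * n) + E n)
    (hL : ∀ n : ℝ, 1 ≤ n → ∀ ε : ℝ, 0 < ε → ∃ J : ℕ, q ^ J * D (2 ^ J * n) ≤ ε) :
    ∀ n, 1 ≤ n → D n ≤ E n / (1 - q * c) := by
  intro n hn
  refine le_of_forall_pos_le_add ?_
  intro ε hε
  obtain ⟨J, hJ⟩ := hL n hn ε hε
  have := cornerIter_gen hq hqc hE hE2 hD J n hn
  linarith

private theorem cornerIter_two_rpow : (2 : ℝ) ^ (7 / 8 : ℝ) < 19 / 10 := by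
  refine lt_of_pow_lt_pow_left₀ 8 (by norm_num) ?_
  have : ((2 : ℝ) ^ (7 / 8 : ℝ)) ^ 8 = 2 ^ 7 := by
    rw [← Real.rpow_natCast ((2 : ℝ) ^ (7 / 8 : ℝ)) 8, ← Real.rpow_mul (by norm_num)]
    rw [← Real.rpow_natCast (2 : ℝ) 7]
    norm_num
  rw [this]
  norm_num

/-- First iteration: `D n ≤ C n^(7/8)`.

PROOF.  Take `β = n^(-1/8)`.  With `S n ≤ 2 √n` the recursion gives `2 D n ≤ D (2 n) + n^(-1/8) D n + C₃ (2 n^(3/4) + 1)`
and `D n ≤ K₅ n`, so `D n / n ≤ D (2 n) / (2 n) + C n^(-1/8)`, `C = (K₅ + 3 C₃) / 2` (all `n ≥ 1`).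
Iterating `J` times: `D n / n ≤ D (2^J n) / (2^J n) + C n^(-1/8) ∑_j (2^(-1/8))^j`, and the first term tends to `0` by `hlim`. -/
theorem iter_one {D : ℝ → ℝ} {K₅ C₃ : ℝ} (hK : 0 ≤ K₅) (hC : 0 ≤ C₃)
    (h1 : ∀ n, 1 ≤ n → D n ≤ K₅ * n)
    (hlim : ∀ ε : ℝ, 0 < ε → ∃ N : ℝ, ∀ n, N ≤ n → D n ≤ ε * n)
    (hrec : ∀ n β : ℝ, 1 ≤ n → 0 < β → β ≤ 1 → (2 - β) * D n - C₃ * (S n / β ^ 2 + 1) ≤ D (2 * n)) :
    ∃ C : ℝ, 0 ≤ C ∧ ∀ n : ℝ, 1 ≤ n → D n ≤ C * n ^ (7 / 8 : ℝ) := by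
  have hr := cornerIter_two_rpow
  have hr0 : 0 < (2 : ℝ) ^ (7 / 8 : ℝ) := by positivity
  have hqc : (1 / 2 : ℝ) * (2 : ℝ) ^ (7 / 8 : ℝ) < 1 := by linarith
  have h0 : 0 < 1 - (1 / 2 : ℝ) * (2 : ℝ) ^ (7 / 8 : ℝ) := by linarith
  have hA : 0 ≤ (K₅ + 3 * C₃) / 2 := by positivity
  refine ⟨(K₅ + 3 * C₃) / 2 / (1 - (1 / 2 : ℝ) * (2 : ℝ) ^ (7 / 8 : ℝ)), div_nonneg hA h0.le, ?_⟩
  have key := cornerIter_lim (D := D) (E := fun n => (K₅ + 3 * C₃) / 2 * n ^ (7 / 8 : ℝ))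
    (q := 1 / 2) (c := (2 : ℝ) ^ (7 / 8 : ℝ)) (by norm_num) hqc
    (fun n hn => mul_nonneg hA (Real.rpow_nonneg (by linarith) _))
    (fun n hn => by
      rw [Real.mul_rpow (by norm_num) (by linarith)]
      exact le_of_eq (by ring)) ?_ ?_
  · intro n hn
    have := key n hn
    calc D n ≤ _ := this
      _ = _ := by ring
  · intro n hn
    have hn0 : (0 : ℝ) < n := by linarith
    have hb0 : 0 < n ^ (-(1 / 8) : ℝ) := Real.rpow_pos_of_pos hn0 _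
    have hb1 : n ^ (-(1 / 8) : ℝ) ≤ 1 := Real.rpow_le_one_of_one_le_of_nonpos hn (by norm_num)
    have hb2 : (n ^ (-(1 / 8) : ℝ)) ^ 2 = n ^ (-(1 / 4) : ℝ) := by
      rw [← Real.rpow_natCast, ← Real.rpow_mul hn0.le]
      norm_num
    have h := hrec n _ hn hb0 hb1
    have hS : S n / (n ^ (-(1 / 8) : ℝ)) ^ 2 ≤ 2 * n ^ (3 / 4 : ℝ) := by
      rw [hb2, div_le_iff₀ (Real.rpow_pos_of_pos hn0 _), mul_assoc, ← Real.rpow_add hn0]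
      refine (S_le_two_sqrt hn0.le).trans (le_of_eq ?_)
      rw [Real.sqrt_eq_rpow]
      norm_num
    have h34 : n ^ (3 / 4 : ℝ) ≤ n ^ (7 / 8 : ℝ) :=
      Real.rpow_le_rpow_of_exponent_le hn (by norm_num)
    have h1' : (1 : ℝ) ≤ n ^ (7 / 8 : ℝ) := Real.one_le_rpow hn (by norm_num)
    have hbn : n ^ (-(1 / 8) : ℝ) * n = n ^ (7 / 8 : ℝ) := by
      conv_lhs => rw [← Real.rpow_one n]
      rw [← Real.rpow_mul hn0.le, ← Real.rpow_add hn0]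
      norm_num
    have h5 : n ^ (-(1 / 8) : ℝ) * D n ≤ K₅ * n ^ (7 / 8 : ℝ) := by
      calc n ^ (-(1 / 8) : ℝ) * D n ≤ n ^ (-(1 / 8) : ℝ) * (K₅ * n) :=
            mul_le_mul_of_nonneg_left (h1 n hn) hb0.le
        _ = K₅ * (n ^ (-(1 / 8) : ℝ) * n) := by ring
        _ = _ := by rw [hbn]
    have h6 : C₃ * (S n / (n ^ (-(1 / 8) : ℝ)) ^ 2 + 1) ≤ C₃ * (3 * n ^ (7 / 8 : ℝ)) :=
      mul_le_mul_of_nonneg_left (by linarith) hC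
    nlinarith
  · intro n hn ε hε
    have hn0 : (0 : ℝ) < n := by linarith
    obtain ⟨N, hN⟩ := hlim (ε / n) (div_pos hε hn0)
    obtain ⟨J, hJ⟩ := pow_unbounded_of_one_lt N (show (1 : ℝ) < 2 by norm_num)
    refine ⟨J, ?_⟩
    have h2 : (0 : ℝ) < 2 ^ J := by positivity
    have h3 := hN (2 ^ J * n) (by nlinarith)
    have h4 : ε / n * (2 ^ J * n) = ε * 2 ^ J := by
      field_simp
    rw [h4] at h3
    calc (1 / 2 : ℝ) ^ J * D (2 ^ J * n) ≤ (1 / 2 : ℝ) ^ J * (ε * 2 ^ J) :=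
          mul_le_mul_of_nonneg_left h3 (by positivity)
      _ = ε * ((1 / 2 : ℝ) * 2) ^ J := by rw [mul_pow]; ring
      _ = ε := by norm_num

/-- Second iteration: `D n ≤ C₄ S n`.

PROOF.  Take `β = 1/10`: `D n ≤ (D (2 n) + 100 C₃ (S n + 1)) / 1.9` and `S n + 1 ≤ 3 S n` (`half_le_S`).  Iterate `J` times
with `S (2^j n) ≤ (√2)^j S n` (`S_mul_le`): `D n ≤ (10/19)^J D (2^J n) + 300 C₃ S n ∑_j (10/19)^(j+1) (√2)^j`.  The sum
is at most a constant (`√2 < 1.9`), and the first term is `≤ C (10/19)^J 2^(7 J/8) n^(7/8) → 0` by `iter_one`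
(`2^(7/8) < 1.9`: `2^7 = 128 < 1.9^8 ≈ 169`). -/
theorem iter_two {D : ℝ → ℝ} {K₅ C₃ : ℝ} (hK : 0 ≤ K₅) (hC : 0 ≤ C₃)
    (h1 : ∀ n, 1 ≤ n → D n ≤ K₅ * n)
    (hlim : ∀ ε : ℝ, 0 < ε → ∃ N : ℝ, ∀ n, N ≤ n → D n ≤ ε * n)
    (hrec : ∀ n β : ℝ, 1 ≤ n → 0 < β → β ≤ 1 → (2 - β) * D n - C₃ * (S n / β ^ 2 + 1) ≤ D (2 * n)) :
    ∃ C₄ : ℝ, 0 ≤ C₄ ∧ ∀ n : ℝ, 1 ≤ n → D n ≤ C₄ * S n := by
  obtain ⟨C, hC0, hCn⟩ := iter_one hK hC h1 hlim hrec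
  have hr := cornerIter_two_rpow
  have hr0 : 0 < (2 : ℝ) ^ (7 / 8 : ℝ) := by positivity
  have hs2 : Real.sqrt 2 < 19 / 10 := by
    rw [Real.sqrt_lt' (by norm_num)]
    norm_num
  have hqc : (10 / 19 : ℝ) * Real.sqrt 2 < 1 := by linarith
  have h0 : 0 < 1 - (10 / 19 : ℝ) * Real.sqrt 2 := by linarith
  have hA : 0 ≤ 60 * C₃ := by positivity
  refine ⟨60 * C₃ / (1 - (10 / 19 : ℝ) * Real.sqrt 2), div_nonneg hA h0.le, ?_⟩
  have key := cornerIter_lim (D := D) (E := fun n => 60 * C₃ * S n)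
    (q := 10 / 19) (c := Real.sqrt 2) (by norm_num) hqc
    (fun n hn => mul_nonneg hA (S_nonneg _))
    (fun n hn => by
      have := mul_le_mul_of_nonneg_left (S_mul_le (c := 2) (by norm_num) (show (0 : ℝ) ≤ n by linarith)) hA
      linarith) ?_ ?_
  · intro n hn
    have := key n hn
    calc D n ≤ _ := this
      _ = _ := by ring
  · intro n hn
    have h := hrec n (1 / 10) hn (by norm_num) (by norm_num)
    have hS := half_le_S hn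
    have h6 : C₃ * (S n / (1 / 10 : ℝ) ^ 2 + 1) ≤ C₃ * (102 * S n) := by
      refine mul_le_mul_of_nonneg_left ?_ hC
      have : S n / (1 / 10 : ℝ) ^ 2 = 100 * S n := by
        field_simp
        norm_num
      rw [this]
      linarith
    have h7 : 0 ≤ C₃ * S n := mul_nonneg hC (S_nonneg _)
    linarith
  · intro n hn ε hε
    have hn0 : (0 : ℝ) < n := by linarith
    have hq1 : (10 / 19 : ℝ) * (2 : ℝ) ^ (7 / 8 : ℝ) < 1 := by linarith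
    have hK0 : 0 < C * n ^ (7 / 8 : ℝ) + 1 := by
      have := mul_nonneg hC0 (Real.rpow_nonneg hn0.le (7 / 8 : ℝ))
      linarith
    obtain ⟨J, hJ⟩ := exists_pow_lt_of_lt_one (div_pos hε hK0) hq1
    refine ⟨J, ?_⟩
    have h2 : (1 : ℝ) ≤ 2 ^ J := one_le_pow₀ (by norm_num)
    have h3 := hCn (2 ^ J * n) (by nlinarith)
    have e : ((2 : ℝ) ^ J * n) ^ (7 / 8 : ℝ) = ((2 : ℝ) ^ (7 / 8 : ℝ)) ^ J * n ^ (7 / 8 : ℝ) := by
      rw [Real.mul_rpow (by positivity) hn0.le]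
      congr 1
      rw [← Real.rpow_natCast, ← Real.rpow_mul (by norm_num), ← Real.rpow_natCast,
        ← Real.rpow_mul (by norm_num), mul_comm]
    rw [e] at h3
    rw [lt_div_iff₀ hK0] at hJ
    have hp : 0 ≤ ((10 / 19 : ℝ) * (2 : ℝ) ^ (7 / 8 : ℝ)) ^ J := by positivity
    calc (10 / 19 : ℝ) ^ J * D (2 ^ J * n)
        ≤ (10 / 19 : ℝ) ^ J * (C * (((2 : ℝ) ^ (7 / 8 : ℝ)) ^ J * n ^ (7 / 8 : ℝ))) :=
          mul_le_mul_of_nonneg_left h3 (by positivity)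
      _ = ((10 / 19 : ℝ) * (2 : ℝ) ^ (7 / 8 : ℝ)) ^ J * (C * n ^ (7 / 8 : ℝ)) := by
          rw [mul_pow]; ring
      _ ≤ ((10 / 19 : ℝ) * (2 : ℝ) ^ (7 / 8 : ℝ)) ^ J * (C * n ^ (7 / 8 : ℝ) + 1) :=
          mul_le_mul_of_nonneg_left (by linarith) hp
      _ ≤ ε := hJ.le

end Pool.Agent.W_1b8d5d_h85
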