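import Pool.Agent.W_1b8d5d_h85.CornerRec
import Pool.Agent.W_1b8d5d_h85.CornerIter

/-!
MP_1b8d5d_pr, proofs row 571, part (B), section 3: the upper bound for the mean passage times at a corner.
-/

set_option autoImplicit false

namespace Pool.Agent.W_1b8d5d_h85

/-- The excesses of the points of the strip of `n`. -/
def stripSet (g : V → ℝ) (c : Crd) (n : ℝ) : Set ℝ :=
  {d | ∃ x, n ≤ c.p x ∧ c.p x ≤ n + 2 * c.C ∧ d = g x - c.p x}

/-- The infimum of the excess in the strip of `n`. -/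
noncomputable def stripInf (g : V → ℝ) (c : Crd) (n : ℝ) : ℝ := sInf (stripSet g c n)

section strip

variable {g : V → ℝ} {c : Crd}

theorem strip_rd (c : Crd) (n : ℝ) : n ≤ c.p (c.rd (n + c.C) 0) ∧
    c.p (c.rd (n + c.C) 0) ≤ n + 2 * c.C := by
  have h := abs_le.1 (c.rd_p (n + c.C) 0)
  constructor <;> linarith

theorem stripSet_nonempty (g : V → ℝ) (c : Crd) (n : ℝ) : (stripSet g c n).Nonempty :=
  ⟨_, c.rd (n + c.C) 0, (strip_rd c n).1, (strip_rd c n).2, rfl⟩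

theorem stripSet_bdd (hlow : ∀ z, c.p z + |c.q z| ≤ g z) (n : ℝ) : BddBelow (stripSet g c n) := by
  refine ⟨0, ?_⟩
  rintro d ⟨x, _, _, rfl⟩
  have h1 := hlow x
  have h2 := abs_nonneg (c.q x)
  linarith

theorem stripInf_le (hlow : ∀ z, c.p z + |c.q z| ≤ g z) {n : ℝ} {x : V} (hx : n ≤ c.p x)
    (hx' : c.p x ≤ n + 2 * c.C) : stripInf g c n ≤ g x - c.p x :=
  csInf_le (stripSet_bdd hlow n) ⟨x, hx, hx', rfl⟩

theorem exists_near_stripInf (g : V → ℝ) (c : Crd) (n : ℝ) :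
    ∃ x, n ≤ c.p x ∧ c.p x ≤ n + 2 * c.C ∧ g x - c.p x < stripInf g c n + 1 := by
  obtain ⟨d, ⟨x, h1, h2, rfl⟩, h3⟩ := exists_lt_of_csInf_lt (stripSet_nonempty g c n)
    (show sInf (stripSet g c n) < stripInf g c n + 1 by unfold stripInf; linarith)
  exact ⟨x, h1, h2, h3⟩

theorem le_stripInf {n d : ℝ} (h : ∀ x, n ≤ c.p x → c.p x ≤ n + 2 * c.C → d ≤ g x - c.p x) :
    d ≤ stripInf g c n := by
  refine le_csInf (stripSet_nonempty g c n) ?_
  rintro e ⟨x, h1, h2, rfl⟩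
  exact h x h1 h2

end strip

/-- The infimum of the excess is at most `C₄ S n`. -/
theorem stripInf_bound {Q : Par} {g : V → ℝ} (hg : IsMean Q g) (hM : HasModels Q g) (c : Crd)
    (hlow : ∀ z, c.p z + |c.q z| ≤ g z)
    (ho : ∀ ε : ℝ, 0 < ε → ∃ L : ℝ, ∀ l : ℝ, L ≤ l → g (c.rd l 0) ≤ (1 + ε) * l) :
    ∃ C₄ : ℝ, 0 ≤ C₄ ∧ ∀ n : ℝ, 1 ≤ n → stripInf g c n ≤ C₄ * S n := by
  have hC := c.one_le
  have hb : 0 < Q.b := Q.ha.trans Q.hab
  obtain ⟨C₃, hC₃, hrec⟩ := corner_rec hg hM c hlow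
  refine iter_two (D := stripInf g c) (K₅ := 4 * Q.b * c.C ^ 2) (C₃ := C₃) (by positivity) hC₃ ?_ ?_ ?_
  · intro n hn
    have h0 := strip_rd c n
    have h1 := stripInf_le hlow h0.1 h0.2
    have hq := c.rd_q (n + c.C) 0
    rw [sub_zero] at hq
    set x₀ : V := c.rd (n + c.C) 0
    have h2 := c.nm_le x₀
    have h3 : |c.p x₀| ≤ n + 2 * c.C := by
      rw [abs_le]
      constructor <;> linarith [h0.1, h0.2]
    have h4 : c.C * (|c.p x₀| + |c.q x₀|) ≤ c.C * (n + 3 * c.C) :=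
      mul_le_mul_of_nonneg_left (by linarith) (by linarith)
    have h5 : nm x₀ ≤ 4 * c.C ^ 2 * n := by
      nlinarith [mul_nonneg (sub_nonneg.2 hC) (sub_nonneg.2 hn), mul_nonneg (sub_nonneg.2 hn) (sq_nonneg c.C),
        mul_nonneg (mul_nonneg (sub_nonneg.2 hC) (by linarith : (0:ℝ) ≤ c.C)) (by linarith : (0:ℝ) ≤ n)]
    have h6 := hg.upp x₀
    have h7 : Q.b * nm x₀ ≤ Q.b * (4 * c.C ^ 2 * n) := mul_le_mul_of_nonneg_left h5 hb.le
    have h8 : 0 ≤ c.p x₀ := by linarith [h0.1]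
    linarith
  · intro ε hε
    obtain ⟨L, hL⟩ := ho (ε / 4) (by positivity)
    refine ⟨max (max L 1) (2 * c.C + 4 * c.C / ε), fun n hn => ?_⟩
    have hnL : L ≤ n := (le_max_left _ _).trans ((le_max_left _ _).trans hn)
    have hn1 : 1 ≤ n := (le_max_right _ _).trans ((le_max_left _ _).trans hn)
    have hn2 : 2 * c.C + 4 * c.C / ε ≤ n := (le_max_right _ _).trans hn
    have h0 := strip_rd c n
    have h1 := stripInf_le hlow h0.1 h0.2
    have h2 := hL (n + c.C) (by linarith)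
    have h3 : 0 ≤ 4 * c.C / ε := by positivity
    have h4 : 4 * c.C ≤ ε * n := by
      have h5 : 4 * c.C / ε ≤ n := by linarith
      rw [div_le_iff₀ hε] at h5
      linarith
    have h6 : ε * c.C ≤ ε * n := mul_le_mul_of_nonneg_left (by linarith) hε.le
    linarith [h0.1]
  · intro n β hn hβ hβ1
    refine le_stripInf fun y hy hy' => ?_
    exact hrec n β (stripInf g c n) hn hβ hβ1 (fun x h1 h2 => stripInf_le hlow h1 h2) y hy hy'

/-- CORNER BOUND.  If the means satisfy `g ≥ p + |q|` (corner) and `g (rd l 0) ≤ (1 + o(1)) l`, then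
`g z ≤ l + C₁ S l` for every `z` within a bounded distance `C₀` of the point `(l, 0)` of the axis. -/
theorem corner {Q : Par} {g : V → ℝ} (hg : IsMean Q g) (hM : HasModels Q g) (c : Crd)
    (hlow : ∀ z, c.p z + |c.q z| ≤ g z)
    (ho : ∀ ε : ℝ, 0 < ε → ∃ L : ℝ, ∀ l : ℝ, L ≤ l → g (c.rd l 0) ≤ (1 + ε) * l) (C₀ : ℝ) :
    ∃ C₁ : ℝ, 0 ≤ C₁ ∧ ∀ (l : ℝ) (z : V), 1 ≤ l → |c.p z - l| ≤ C₀ → |c.q z| ≤ C₀ →
      g z ≤ l + C₁ * S l := by
  have hC := c.one_le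
  have hb : 0 < Q.b := Q.ha.trans Q.hab
  obtain ⟨C₄, hC₄, hbd⟩ := stripInf_bound hg hM c hlow ho
  set C₀' : ℝ := max C₀ 0 with hC₀'
  have hC₀0 : 0 ≤ C₀' := le_max_right _ _
  -- the constant
  refine ⟨(C₄ + 2 * (2 * c.C + 1)) + Q.b * c.C * (C₄ + 2 * (2 * C₀' + 2 * c.C + 1)), by positivity, ?_⟩
  intro l z hl hp hq
  have hp' : |c.p z - l| ≤ C₀' := hp.trans (le_max_left _ _)
  have hq' : |c.q z| ≤ C₀' := hq.trans (le_max_left _ _)
  obtain ⟨x, hx, hx', hxg⟩ := exists_near_stripInf g c l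
  have hD := hbd l hl
  have hlx := hlow x
  have hS := half_le_S hl
  have h1 : |c.q x| ≤ C₄ * S l + 1 := by linarith
  have h2 : nm (z - x) ≤ c.C * (C₀' + 2 * c.C + (C₀' + (C₄ * S l + 1))) := by
    refine (c.nm_le (z - x)).trans ?_
    refine mul_le_mul_of_nonneg_left (add_le_add ?_ ?_) (by linarith)
    · rw [map_sub]
      have h3 : |l - c.p x| ≤ 2 * c.C := by
        rw [abs_le]
        constructor <;> linarith
      have h4 : c.p z - c.p x = (c.p z - l) + (l - c.p x) := by ring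
      rw [h4]
      exact (abs_add_le _ _).trans (add_le_add hp' h3)
    · rw [map_sub]
      have h5 := abs_sub (c.q z) (c.q x)
      linarith
  have h6 : g z ≤ g x + g (z - x) := by
    have := hg.add x (z - x)
    simpa using this
  have h7 := hg.upp (z - x)
  have h8 : Q.b * nm (z - x) ≤ Q.b * (c.C * (C₀' + 2 * c.C + (C₀' + (C₄ * S l + 1)))) :=
    mul_le_mul_of_nonneg_left h2 hb.le
  have h9 : 0 ≤ 2 * c.C + 1 := by linarith
  have h10 : 2 * c.C + 1 ≤ 2 * (2 * c.C + 1) * S l := by nlinarith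
  have h11 : 2 * C₀' + 2 * c.C + 1 ≤ 2 * (2 * C₀' + 2 * c.C + 1) * S l := by nlinarith
  have h12 : Q.b * c.C * (2 * C₀' + 2 * c.C + 1)
      ≤ Q.b * c.C * (2 * (2 * C₀' + 2 * c.C + 1) * S l) :=
    mul_le_mul_of_nonneg_left h11 (by positivity)
  have h13 : g x ≤ l + 2 * c.C + C₄ * S l + 1 := by linarith
  have h14 : Q.b * (c.C * (C₀' + 2 * c.C + (C₀' + (C₄ * S l + 1))))
      = Q.b * c.C * C₄ * S l + Q.b * c.C * (2 * C₀' + 2 * c.C + 1) := by ring
  rw [h14] at h8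
  nlinarith

end Pool.Agent.W_1b8d5d_h85
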