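import Pool.Agent.W_1b8d5d_h85.FCones
import Pool.Agent.W_1b8d5d_h85.FBridge

/-!
MP_1b8d5d_pr: the time constant and the mean passage times.
-/

set_option autoImplicit false

open MeasureTheory ProbabilityTheory Filter Topology

namespace Pool.Agent.W_1b8d5d_h85

variable {a b : ℝ} {ν : Measure ℝ}

/-- Walks of the grid are determined by their support, so there are countably many. -/
instance walk_countable (x y : V) : Countable (grid.Walk x y) := by
  have h : Function.Injective (fun w : grid.Walk x y => w.support) :=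
    fun p q hpq => SimpleGraph.Walk.ext_support hpq
  exact h.countable

private theorem FMuG_list {Ω : Type} [MeasurableSpace Ω] {τ : Edge → Ω → ℝ}
    (hτ : ∀ e, Measurable (τ e)) (l : List Edge) :
    Measurable fun ω => (l.map fun e => τ e ω).sum := by
  induction l with
  | nil => simp
  | cons e l ih =>
    simp only [List.map_cons, List.sum_cons]
    exact (hτ e).add ih

theorem measurable_T {Ω : Type} [MeasurableSpace Ω] {τ : Edge → Ω → ℝ} (hτ : ∀ e, Measurable (τ e))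
    (x y : V) : Measurable fun ω => T (fun e => τ e ω) x y := by
  unfold T
  refine Measurable.iInf fun w => ?_
  exact FMuG_list hτ (wedges w)

/-- Bounded convergence in measure. PROOF: `|E X_n - m| ≤ E |X_n - m| ≤ ε + (B + |m|) P(ε ≤ |X_n - m|)`. -/
theorem tendsto_mean {Ω : Type} [MeasurableSpace Ω] {P : Measure Ω} [IsProbabilityMeasure P]
    {X : ℕ → Ω → ℝ} (hX : ∀ n, Measurable (X n)) {B m : ℝ} (hB : ∀ n, ∀ᵐ ω ∂P, |X n ω| ≤ B)
    (h : TendstoInMeasure P X atTop fun _ => m) :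
    Tendsto (fun n => ∫ ω, X n ω ∂P) atTop (𝓝 m) := by
  rw [tendstoInMeasure_iff_measureReal_norm] at h
  have hint : ∀ n, Integrable (X n) P := fun n =>
    Integrable.of_bound (hX n).aestronglyMeasurable B ((hB n).mono fun ω hω => by
      rw [Real.norm_eq_abs]; exact hω)
  rw [Metric.tendsto_atTop]
  intro ε hε
  have hD : 0 < max B 0 + |m| + 1 := by positivity
  have h1 := h (ε / 2) (by linarith)
  rw [Metric.tendsto_atTop] at h1
  obtain ⟨n₀, hn₀⟩ := h1 (ε / 2 / (max B 0 + |m| + 1)) (by positivity)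
  refine ⟨n₀, fun n hn => ?_⟩
  have h2 := hn₀ n hn
  rw [Real.dist_eq, sub_zero, abs_of_nonneg measureReal_nonneg, lt_div_iff₀ hD] at h2
  set A : Set Ω := {ω | ε / 2 ≤ ‖X n ω - m‖} with hA
  have hAm : MeasurableSet A := measurableSet_le measurable_const ((hX n).sub_const m).norm
  have h3 : |∫ ω, X n ω ∂P - m| ≤ ∫ ω, |X n ω - m| ∂P := by
    have h4 : ∫ ω, X n ω ∂P - m = ∫ ω, (X n ω - m) ∂P := by
      rw [integral_sub (hint n) (integrable_const m)]
      simp
    rw [h4]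
    exact abs_integral_le_integral_abs
  have h5 : ∫ ω, |X n ω - m| ∂P ≤
      ∫ ω, (ε / 2 + A.indicator (fun _ => max B 0 + |m| + 1) ω) ∂P := by
    refine integral_mono_ae ((hint n).sub (integrable_const m)).abs
      ((integrable_const _).add ((integrable_const _).indicator hAm)) ?_
    filter_upwards [hB n] with ω hω
    by_cases hm : ω ∈ A
    · rw [Set.indicator_of_mem hm]
      have h6 : |X n ω - m| ≤ |X n ω| + |m| := abs_sub _ _
      have h7 := le_max_left B 0
      linarith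
    · rw [Set.indicator_of_notMem hm, add_zero]
      rw [hA, Set.mem_ofPred_eq, Real.norm_eq_abs] at hm
      linarith [not_le.1 hm]
  have h8 : ∫ ω, (ε / 2 + A.indicator (fun _ => max B 0 + |m| + 1) ω) ∂P =
      ε / 2 + (max B 0 + |m| + 1) * P.real A := by
    rw [integral_add (integrable_const _) ((integrable_const _).indicator hAm),
      integral_indicator_const _ hAm]
    simp [mul_comm]
  rw [Real.dist_eq]
  rw [h8] at h5
  rw [mul_comm] at h2
  linarith

/-- The means converge to the time constant. PROOF: `tendsto_mean`, `T_nonneg`, `T_upper` and `ae_Bd`. -/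
theorem tendsto_tm (ha : 0 < a) (h : Law a b ν) {Ω : Type} [MeasurableSpace Ω] {P : Measure Ω}
    {τ : Edge → Ω → ℝ} (hτ : IsFPP ν P τ) {x : V} {m : ℝ}
    (hlim : TendstoInMeasure P (fun (n : ℕ) ω => T (fun e => τ e ω) 0 (n • x) / (n : ℝ)) atTop fun _ => m) :
    Tendsto (fun n : ℕ => tm P τ (n • x) / n) atTop (𝓝 m) := by
  have := hτ.prob
  have hb : 0 ≤ b := (ha.trans h.lt).le
  have h1 := tendsto_mean (P := P)
    (X := fun (n : ℕ) ω => T (fun e => τ e ω) 0 (n • x) / (n : ℝ)) (m := m)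
    (B := b * nm x) (fun n => (measurable_T hτ.meas 0 (n • x)).div_const _) (fun n => ?_) hlim
  · refine h1.congr fun n => ?_
    rw [integral_div]
    rfl
  · filter_upwards [ae_Bd h hτ] with ω hω
    rcases Nat.eq_zero_or_pos n with hn | hn
    · subst hn
      simp only [Nat.cast_zero, div_zero, abs_zero]
      exact mul_nonneg hb (nm_nonneg x)
    · have hn' : (0 : ℝ) < n := by exact_mod_cast hn
      rw [abs_of_nonneg (div_nonneg (T_nonneg hω ha.le _ _) hn'.le), div_le_iff₀ hn']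
      have h2 := T_upper hω ha.le 0 (n • x)
      rw [sub_zero, nm_eq_rn, toR_nsmul, rn_smul, abs_of_pos hn', ← nm_eq_rn] at h2
      linarith

section mu

variable {Q : Par} {g : V → ℝ} {μ : ℝ × ℝ → ℝ}

/-- Subadditivity. -/
theorem IsMean.nsmul (hg : IsMean Q g) (n : ℕ) (x : V) : g (n • x) ≤ n * g x := by
  induction n with
  | zero => rw [zero_nsmul, hg.zero]; simp
  | succ n ih =>
    rw [succ_nsmul]
    have := hg.add (n • x) x
    push_cast
    linarith

/-- Lipschitz. -/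
theorem IsMean.lipF (hg : IsMean Q g) (x y : V) : g x ≤ g y + Q.b * nm (x - y) := by
  have h1 := hg.add y (x - y)
  rw [add_sub_cancel] at h1
  have h2 := hg.upp (x - y)
  linarith

/-- PROOF: `g (n x) ≤ n g x`. -/
theorem mu_le (hg : IsMean Q g) (hlim : ∀ x : V, Tendsto (fun n : ℕ => g (n • x) / n) atTop (𝓝 (μ (toR x))))
    (x : V) : μ (toR x) ≤ g x := by
  refine le_of_tendsto (hlim x) ?_
  filter_upwards [eventually_ge_atTop 1] with n hn
  have hn' : (0 : ℝ) < n := by exact_mod_cast hn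
  rw [div_le_iff₀ hn']
  have := hg.nsmul n x
  linarith

/-- Every point of the plane is a limit of points `toR w / N`: for `ε > 0` there are `N ≥ 1` and `w` with
`rn (toR w - N v) ≤ 1` and `1 / N ≤ ε`. -/
theorem exists_approx (v : ℝ × ℝ) {ε : ℝ} (hε : 0 < ε) :
    ∃ (N : ℕ) (w : V), 1 ≤ N ∧ 1 / (N : ℝ) ≤ ε ∧ rn (toR w - (N : ℝ) • v) ≤ 1 := by
  obtain ⟨n, hn⟩ := exists_nat_one_div_lt hε
  obtain ⟨w, hw⟩ := exists_round (((n + 1 : ℕ) : ℝ) • v)
  refine ⟨n + 1, w, by omega, ?_, hw⟩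
  push_cast
  exact hn.le

private theorem FMuG_norm_le (x : ℝ × ℝ) : ‖x‖ ≤ rn x := by
  rw [Prod.norm_def, Real.norm_eq_abs, Real.norm_eq_abs]
  unfold rn
  exact max_le (by linarith [abs_nonneg x.2]) (by linarith [abs_nonneg x.1])

private theorem FMuG_scale {N : ℕ} (hN : 1 ≤ N) {w : V} {v : ℝ × ℝ}
    (h : rn (toR w - (N : ℝ) • v) ≤ 1) : rn ((1 / (N : ℝ)) • toR w - v) ≤ 1 / (N : ℝ) := by
  have hN' : (0 : ℝ) < N := by exact_mod_cast hN
  have e : (1 / (N : ℝ)) • toR w - v = (1 / (N : ℝ)) • (toR w - (N : ℝ) • v) := by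
    rw [smul_sub, smul_smul, one_div, inv_mul_cancel₀ hN'.ne', one_smul]
  rw [e, rn_smul, abs_of_pos (by positivity)]
  calc 1 / (N : ℝ) * rn (toR w - (N : ℝ) • v) ≤ 1 / (N : ℝ) * 1 :=
        mul_le_mul_of_nonneg_left h (by positivity)
    _ = _ := mul_one _

/-- A sequence of lattice directions which converges to `x`. -/
private theorem FMuG_seq (x : ℝ × ℝ) : ∃ (N : ℕ → ℕ) (w : ℕ → V), (∀ k, 1 ≤ N k) ∧
    Tendsto (fun k => (1 / (N k : ℝ)) • toR (w k)) atTop (𝓝 x) := by
  have h : ∀ k : ℕ, ∃ (N : ℕ) (w : V), 1 ≤ N ∧ 1 / (N : ℝ) ≤ 1 / ((k : ℝ) + 1) ∧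
      rn (toR w - (N : ℝ) • x) ≤ 1 := fun k => exists_approx x (by positivity)
  choose N w h1 h2 h3 using h
  refine ⟨N, w, h1, ?_⟩
  rw [tendsto_iff_norm_sub_tendsto_zero]
  refine squeeze_zero (fun k => norm_nonneg _) (fun k => ?_) tendsto_one_div_add_atTop_nhds_zero_nat
  exact (FMuG_norm_le _).trans ((FMuG_scale (h1 k) (h3 k)).trans (h2 k))

private theorem FMuG_lat (hg : IsMean Q g)
    (hlim : ∀ x : V, Tendsto (fun n : ℕ => g (n • x) / n) atTop (𝓝 (μ (toR x)))) (x : V) :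
    Q.a * rn (toR x) ≤ μ (toR x) ∧ μ (toR x) ≤ Q.b * rn (toR x) := by
  have key : ∀ n : ℕ, 1 ≤ n → nm (n • x) = n * rn (toR x) := by
    intro n hn
    have hn' : (0 : ℝ) < n := by exact_mod_cast hn
    rw [nm_eq_rn, toR_nsmul, rn_smul, abs_of_pos hn']
  constructor
  · refine ge_of_tendsto (hlim x) ?_
    filter_upwards [eventually_ge_atTop 1] with n hn
    have hn' : (0 : ℝ) < n := by exact_mod_cast hn
    rw [le_div_iff₀ hn']
    have h1 := hg.low (n • x)
    rw [key n hn] at h1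
    linarith
  · refine le_of_tendsto (hlim x) ?_
    filter_upwards [eventually_ge_atTop 1] with n hn
    have hn' : (0 : ℝ) < n := by exact_mod_cast hn
    rw [div_le_iff₀ hn']
    have h1 := hg.upp (n • x)
    rw [key n hn] at h1
    linarith

/-- The bounds for `μ`: on the lattice from `IsMean.low`, `IsMean.upp`, then by homogeneity and continuity
(`exists_approx`). -/
theorem mu_bounds (hg : IsMean Q g) (hc : Continuous μ)
    (hom : ∀ (c : ℝ) (x : ℝ × ℝ), 0 ≤ c → μ (c • x) = c * μ x)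
    (hlim : ∀ x : V, Tendsto (fun n : ℕ => g (n • x) / n) atTop (𝓝 (μ (toR x)))) (x : ℝ × ℝ) :
    Q.a * rn x ≤ μ x ∧ μ x ≤ Q.b * rn x := by
  obtain ⟨N, w, hN, hw⟩ := FMuG_seq x
  have h1 : ∀ k, Q.a * rn ((1 / (N k : ℝ)) • toR (w k)) ≤ μ ((1 / (N k : ℝ)) • toR (w k)) ∧
      μ ((1 / (N k : ℝ)) • toR (w k)) ≤ Q.b * rn ((1 / (N k : ℝ)) • toR (w k)) := by
    intro k
    have hk : (0 : ℝ) < 1 / (N k : ℝ) := by
      have : (0 : ℝ) < N k := by exact_mod_cast hN k
      positivity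
    have h2 := FMuG_lat hg hlim (w k)
    rw [hom _ _ hk.le, rn_smul, abs_of_pos hk]
    constructor
    · have := mul_le_mul_of_nonneg_left h2.1 hk.le
      linarith
    · have := mul_le_mul_of_nonneg_left h2.2 hk.le
      linarith
  have h3 := (hc.tendsto x).comp hw
  have h4 := (continuous_rn.tendsto x).comp hw
  exact ⟨le_of_tendsto_of_tendsto' (h4.const_mul Q.a) h3 fun k => (h1 k).1,
    le_of_tendsto_of_tendsto' h3 (h4.const_mul Q.b) fun k => (h1 k).2⟩

/-- The upper limit in every direction. PROOF: `exists_approx` gives `w, N` with `μ (toR w) / N ≤ μ v + ε / 4` (continuity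
and homogeneity) and `Q.b * 2 / N ≤ ε / 4`; for large `n` put `k = n / N` (integer division) and compare `x` with `k • w`
(`IsMean.lipF`): `nm (x - k • w) ≤ D + N * rn v + k`, and `g (k • w) ≤ k (μ (toR w) + ε / 4)` for large `k`. -/
theorem mu_lim (hg : IsMean Q g) (hc : Continuous μ)
    (hom : ∀ (c : ℝ) (x : ℝ × ℝ), 0 ≤ c → μ (c • x) = c * μ x)
    (hlim : ∀ x : V, Tendsto (fun n : ℕ => g (n • x) / n) atTop (𝓝 (μ (toR x))))
    (v : ℝ × ℝ) (ε D : ℝ) (hε : 0 < ε) : ∃ n₀ : ℕ, ∀ n : ℕ, n₀ ≤ n → ∀ x : V,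
      rn (toR x - (n : ℝ) • v) ≤ D → g x ≤ n * (μ v + ε) := by
  have hb : 0 < Q.b := Q.ha.trans Q.hab
  have hmu : 0 ≤ μ v := le_trans (mul_nonneg Q.ha.le (rn_nonneg v)) (mu_bounds hg hc hom hlim v).1
  obtain ⟨δ, hδ, hδ'⟩ := Metric.continuous_iff.1 hc v (ε / 4) (by linarith)
  obtain ⟨N, w, hN, hNδ, hw⟩ := exists_approx v (ε := min (δ / 2) (ε / 4 / Q.b))
    (lt_min (by linarith) (by positivity))
  have hN' : (0 : ℝ) < N := by exact_mod_cast hN
  have hy : μ ((1 / (N : ℝ)) • toR w) ≤ μ v + ε / 4 := by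
    have h1 : dist ((1 / (N : ℝ)) • toR w) v < δ := by
      rw [dist_eq_norm]
      have := FMuG_norm_le ((1 / (N : ℝ)) • toR w - v)
      have h2 := FMuG_scale hN hw
      have h3 := hNδ.trans (min_le_left _ _)
      linarith
    have h4 := hδ' _ h1
    rw [Real.dist_eq] at h4
    linarith [(abs_lt.1 h4).2]
  have hw' : μ (toR w) ≤ N * (μ v + ε / 4) := by
    rw [hom _ _ (by positivity)] at hy
    have h1 : μ (toR w) = N * (1 / (N : ℝ) * μ (toR w)) := by
      field_simp
    rw [h1]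
    exact mul_le_mul_of_nonneg_left hy hN'.le
  have hbN : Q.b ≤ N * (ε / 4) := by
    have h1 := hNδ.trans (min_le_right _ _)
    rw [div_le_div_iff₀ hN' hb] at h1
    linarith
  have hK : ∀ᶠ k : ℕ in atTop, g (k • w) / k < μ (toR w) + ε / 4 :=
    (hlim w).eventually_lt_const (by linarith)
  obtain ⟨K, hK⟩ := eventually_atTop.1 hK
  set E : ℝ := Q.b * |D| + Q.b * (N * rn v) with hE
  obtain ⟨n₁, hn₁⟩ := exists_nat_ge (4 * E / ε)
  refine ⟨max (N * (K + 1)) n₁, fun n hn x hx => ?_⟩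
  have hn1 : N * (K + 1) ≤ n := (le_max_left _ _).trans hn
  have hn2 : (n₁ : ℝ) ≤ n := by exact_mod_cast (le_max_right _ _).trans hn
  set k := n / N with hk
  have hkK : K + 1 ≤ k := by
    rw [hk, Nat.le_div_iff_mul_le hN]
    rw [mul_comm]
    exact hn1
  have hk0 : (0 : ℝ) < k := by
    have : 0 < k := by omega
    exact_mod_cast this
  have hkN : (k : ℝ) * N ≤ n := by exact_mod_cast Nat.div_mul_le_self n N
  have hkN' : (n : ℝ) - k * N ≤ N := by
    have h1 : n < (k + 1) * N := by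
      rw [hk]
      have h2 := Nat.div_add_mod n N
      have h3 := Nat.mod_lt n hN
      have h4 : (n / N + 1) * N = N * (n / N) + N := by ring
      omega
    have h2 : (n : ℝ) < (k + 1) * N := by exact_mod_cast h1
    linarith
  have hkn : (k : ℝ) ≤ n := by exact_mod_cast Nat.div_le_self n N
  have hgk : g (k • w) ≤ k * (μ (toR w) + ε / 4) := by
    have h1 := hK k (by omega)
    rw [div_lt_iff₀ hk0] at h1
    linarith
  have hnm : nm (x - k • w) ≤ |D| + N * rn v + k := by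
    rw [nm_eq_rn, toR_sub, toR_nsmul]
    have e : toR x - (k : ℝ) • toR w = (toR x - (n : ℝ) • v) + ((((n : ℝ) - k * N) • v) +
        (-((k : ℝ) • (toR w - (N : ℝ) • v)))) := by
      rw [sub_smul, smul_sub, smul_smul]
      abel
    rw [e]
    have h1 := rn_add_le (toR x - (n : ℝ) • v) ((((n : ℝ) - k * N) • v) +
        (-((k : ℝ) • (toR w - (N : ℝ) • v))))
    have h2 := rn_add_le (((n : ℝ) - k * N) • v) (-((k : ℝ) • (toR w - (N : ℝ) • v)))
    rw [rn_neg, rn_smul, rn_smul, abs_of_nonneg (by linarith), abs_of_pos hk0] at h2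
    have h3 : ((n : ℝ) - k * N) * rn v ≤ N * rn v := mul_le_mul_of_nonneg_right hkN' (rn_nonneg v)
    have h4 : (k : ℝ) * rn (toR w - (N : ℝ) • v) ≤ k * 1 := mul_le_mul_of_nonneg_left hw hk0.le
    have h5 := le_abs_self D
    linarith
  have hEn : E ≤ n * (ε / 4) := by
    have h1 := hn₁.trans hn2
    rw [div_le_iff₀ hε] at h1
    linarith
  have h1 := hg.lipF x (k • w)
  have h2 := mul_le_mul_of_nonneg_left hnm hb.le
  have h3 : (k : ℝ) * μ (toR w) ≤ k * (N * (μ v + ε / 4)) := mul_le_mul_of_nonneg_left hw' hk0.le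
  have h4 : (k : ℝ) * (N * (μ v + ε / 4)) ≤ n * (μ v + ε / 4) := by
    rw [← mul_assoc]
    exact mul_le_mul_of_nonneg_right hkN (by linarith)
  have h5 : (k : ℝ) * (ε / 4) ≤ n * (ε / 4) := mul_le_mul_of_nonneg_right hkn (by linarith)
  have h6 : Q.b * (k : ℝ) ≤ n * (ε / 4) := by
    have h7 : Q.b * (k : ℝ) ≤ N * (ε / 4) * k := mul_le_mul_of_nonneg_right hbN hk0.le
    have h8 : (N : ℝ) * (ε / 4) * k = (k * N) * (ε / 4) := by ring
    have h9 : ((k : ℝ) * N) * (ε / 4) ≤ n * (ε / 4) := mul_le_mul_of_nonneg_right hkN (by linarith)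
    linarith
  have h10 : Q.b * (|D| + N * rn v + k) = E + Q.b * k := by rw [hE]; ring
  rw [h10] at h2
  have h11 : (k : ℝ) * (μ (toR w) + ε / 4) = k * μ (toR w) + k * (ε / 4) := by ring
  rw [h11] at hgk
  have h12 : (n : ℝ) * (μ v + ε) = n * (μ v + ε / 4) + 3 * (n * (ε / 4)) := by ring
  rw [h12]
  linarith

theorem muG (hg : IsMean Q g) (hc : Continuous μ)
    (hom : ∀ (c : ℝ) (x : ℝ × ℝ), 0 ≤ c → μ (c • x) = c * μ x)
    (hlim : ∀ x : V, Tendsto (fun n : ℕ => g (n • x) / n) atTop (𝓝 (μ (toR x)))) : MuG Q.b μ g where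
  hom := hom
  pos := fun x hx => by
    have h1 := (mu_bounds hg hc hom hlim x).1
    have h2 : 0 < rn x := lt_of_le_of_ne (rn_nonneg x) fun h => hx (rn_eq_zero.1 h.symm)
    exact lt_of_lt_of_le (mul_pos Q.ha h2) h1
  upp := fun x => (mu_bounds hg hc hom hlim x).2
  le := mu_le hg hlim
  lim := fun v ε D hε => mu_lim hg hc hom hlim v ε D hε

end mu

end Pool.Agent.W_1b8d5d_h85
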