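import Pool.Agent.W_1b8d5d_h85.Basic

/-!
MP_1b8d5d_pr, proofs row 571, part (B), section 3: the net lemma.
-/

set_option autoImplicit false

namespace Pool.Agent.W_1b8d5d_h85

/-- `E (Y - s)₊ ≤ E Y² / (4 s)`, from `Y - s ≤ Y² / (4 s)`. -/
theorem Ex_pos_part_le {Ω : Type*} [Fintype Ω] [Nonempty Ω] (Y : Ω → ℝ) {s v : ℝ} (hs : 0 < s)
    (hv : Ex (fun ω => Y ω ^ 2) ≤ v) : Ex (fun ω => max (Y ω - s) 0) ≤ v / (4 * s) := by
  have h1 : ∀ ω, max (Y ω - s) 0 ≤ (1 / (4 * s)) * Y ω ^ 2 := by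
    intro ω
    have hs4 : 0 < 4 * s := by linarith
    refine max_le ?_ (by positivity)
    rw [one_div, inv_mul_eq_div, le_div_iff₀ hs4]
    nlinarith [sq_nonneg (Y ω - 2 * s)]
  refine (Ex_mono h1).trans ?_
  rw [Ex_mul_left, one_div, inv_mul_eq_div]
  exact div_le_div_of_nonneg_right hv (by linarith)

private theorem CornerNet_sum (k₀ : ℕ) (hk : 1 ≤ k₀) (n : ℕ) (hn : k₀ ≤ n) :
    ∑ k ∈ Finset.Ico k₀ n, 1 / (k : ℝ) ^ 2 ≤ 2 / (k₀ : ℝ) - 2 / (n : ℝ) := by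
  induction n, hn using Nat.le_induction with
  | base => simp
  | succ n hn ih =>
    rw [Finset.sum_Ico_succ_top hn]
    have hn0 : (1 : ℝ) ≤ (n : ℝ) := by exact_mod_cast hk.trans hn
    have h1 : 1 / (n : ℝ) ^ 2 ≤ 2 / (n : ℝ) - 2 / ((n + 1 : ℕ) : ℝ) := by
      push_cast
      rw [div_sub_div _ _ (by positivity) (by positivity), div_le_div_iff₀ (by positivity)
        (by positivity)]
      nlinarith [sq_nonneg (n : ℝ), mul_nonneg (sub_nonneg.2 hn0) (sq_nonneg (n : ℝ))]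
    linarith

/-- NET LEMMA.  A finite family `A x`, `x ∈ X`, of random variables with variances at most `σ²` which is Lipschitz
(up to an additive constant) in a real parameter `q x`.  Then `E sup (E A_x - A_x - β |q x|)₊ ≤ 50 Λ (σ / β² + 1)`;
the supremum is replaced by an upper bound `U`.

PROOF.  Put `Y x ω = Ex (A x) - A x ω`, so `Ex (Y x)² ≤ σ²` and `|Y x ω - Y x' ω| ≤ 2 Λ (|q x - q x'| + 1)`
(also the means are Lipschitz).  If `X` is empty take `U = 0`.  Otherwise let `k₀ = ⌈24 Λ / β⌉₊` (so `24 Λ ≤ β k₀` and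
`k₀ ≤ 25 Λ / β`) and `κ = σ / k₀²`.  For `x` put `k x = ⌊√(|q x| / κ)⌋₊`, so `κ k² ≤ |q x| < κ (k + 1)²`, and `sg x` the
sign of `q x` (a Bool: `0 ≤ q x`).
* Points with `k x < k₀` have `|q x| ≤ κ k₀² = σ`; fix one of them, `x₀`, if there is any (else this term is absent):
  `Y x ω ≤ |Y x₀ ω| + 2 Λ (2 σ + 1)`, and `Ex |Y x₀| ≤ σ` (`Ex_abs_le_sqrt`).
* Points with `k x = k ≥ k₀` and the same sign: `|q x - q x'| ≤ κ (2 k + 1) ≤ 3 κ k`, so with a chosen representative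
  `x' = rep (k, sg)` of the class: `Y x ω - β |q x| ≤ Y x' ω + 2 Λ (3 κ k + 1) - β κ k² ≤ (Y x' ω - (3/4) β κ k²) + 2 Λ`
  because `6 Λ κ k ≤ β κ k² / 4` (`24 Λ ≤ β k`).
* `U ω = |Y x₀ ω| + 4 Λ σ + 4 Λ + ∑_{sg} ∑_{k₀ ≤ k ≤ k_max, class nonempty} max (Y (rep (k, sg)) ω - (3/4) β κ k²) 0`.
  By `Ex_pos_part_le` each term has mean `≤ σ² / (3 β κ k²)`, `∑_{k ≥ k₀} 1/k² ≤ 2/k₀` (telescoping,
  `1/k² ≤ 2 (1/k - 1/(k+1))`), so the sum has mean `≤ 2 (σ² / (3 β κ)) (2 / k₀) = (4/3) σ k₀ / β ≤ 34 Λ σ / β²`.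
  Total: `σ + 4 Λ σ + 4 Λ + 34 Λ σ / β² ≤ 50 Λ (σ / β² + 1)`. -/
theorem net {Ω ι : Type*} [Fintype Ω] [Nonempty Ω] (X : Finset ι) (q : ι → ℝ) (A : ι → Ω → ℝ)
    {Λ σ β : ℝ} (hΛ : 1 ≤ Λ) (hσ : 0 < σ) (hβ : 0 < β) (hβ1 : β ≤ 1)
    (hlip : ∀ x ∈ X, ∀ x' ∈ X, ∀ ω, |A x ω - A x' ω| ≤ Λ * (|q x - q x'| + 1))
    (hvar : ∀ x ∈ X, Ex (fun ω => (A x ω - Ex (A x)) ^ 2) ≤ σ ^ 2) :
    ∃ U : Ω → ℝ, (∀ ω, 0 ≤ U ω) ∧ (∀ x ∈ X, ∀ ω, Ex (A x) - A x ω - β * |q x| ≤ U ω) ∧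
      Ex U ≤ 50 * Λ * (σ / β ^ 2 + 1) := by
  classical
  set Y : ι → Ω → ℝ := fun x ω => Ex (A x) - A x ω with hY
  have hYvar : ∀ x ∈ X, Ex (fun ω => Y x ω ^ 2) ≤ σ ^ 2 := by
    intro x hx
    refine le_trans (le_of_eq ?_) (hvar x hx)
    exact Ex_congr fun ω => by rw [hY]; ring
  have hEx : ∀ x ∈ X, ∀ x' ∈ X, |Ex (A x) - Ex (A x')| ≤ Λ * (|q x - q x'| + 1) := by
    intro x hx x' hx'
    rw [← Ex_sub]
    refine (abs_Ex_le _).trans ?_
    exact Ex_le_of_le fun ω => hlip x hx x' hx' ω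
  have hYlip : ∀ x ∈ X, ∀ x' ∈ X, ∀ ω, Y x ω ≤ Y x' ω + 2 * Λ * (|q x - q x'| + 1) := by
    intro x hx x' hx' ω
    have h1 := abs_le.1 (hlip x hx x' hx' ω)
    have h2 := abs_le.1 (hEx x hx x' hx')
    show Ex (A x) - A x ω ≤ Ex (A x') - A x' ω + 2 * Λ * (|q x - q x'| + 1)
    linarith [h1.1, h2.2]
  obtain ⟨k₀, hk₀⟩ : ∃ k₀ : ℕ, k₀ = ⌈24 * Λ / β⌉₊ := ⟨_, rfl⟩
  have hβk : 24 * Λ ≤ β * k₀ := by
    have h1 : 24 * Λ / β ≤ (k₀ : ℝ) := by rw [hk₀]; exact Nat.le_ceil _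
    rw [div_le_iff₀ hβ] at h1
    linarith
  have hΛβ : 1 ≤ Λ / β := by
    rw [le_div_iff₀ hβ]
    linarith
  have hk25 : (k₀ : ℝ) ≤ 25 * Λ / β := by
    have h1 : (k₀ : ℝ) < 24 * Λ / β + 1 := by
      rw [hk₀]
      exact Nat.ceil_lt_add_one (by positivity)
    have h2 : 25 * Λ / β = 24 * Λ / β + Λ / β := by ring
    linarith
  have hk0pos : (0 : ℝ) < k₀ := by
    by_contra h
    have h0 : (k₀ : ℝ) = 0 := le_antisymm (not_lt.1 h) (Nat.cast_nonneg _)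
    rw [h0] at hβk
    linarith
  have hk1 : 1 ≤ k₀ := by
    have : 0 < k₀ := by exact_mod_cast hk0pos
    exact this
  obtain ⟨κ, hκ⟩ : ∃ κ : ℝ, κ = σ / (k₀ : ℝ) ^ 2 := ⟨_, rfl⟩
  have hκpos : 0 < κ := by rw [hκ]; positivity
  have hκσ : κ * (k₀ : ℝ) ^ 2 = σ := by
    rw [hκ]
    field_simp
  set kk : ι → ℕ := fun x => ⌊Real.sqrt (|q x| / κ)⌋₊ with hkk
  have hlo : ∀ x, κ * (kk x : ℝ) ^ 2 ≤ |q x| := by
    intro x
    have h1 : (kk x : ℝ) ≤ Real.sqrt (|q x| / κ) := Nat.floor_le (Real.sqrt_nonneg _)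
    have h2 : (kk x : ℝ) ^ 2 ≤ |q x| / κ := by
      calc (kk x : ℝ) ^ 2 ≤ Real.sqrt (|q x| / κ) ^ 2 :=
            pow_le_pow_left₀ (Nat.cast_nonneg _) h1 2
        _ = |q x| / κ := Real.sq_sqrt (by positivity)
    rw [le_div_iff₀ hκpos] at h2
    linarith
  have hhi : ∀ x, |q x| < κ * ((kk x : ℝ) + 1) ^ 2 := by
    intro x
    have h1 : Real.sqrt (|q x| / κ) < (kk x : ℝ) + 1 := Nat.lt_floor_add_one _
    have h2 : |q x| / κ < ((kk x : ℝ) + 1) ^ 2 := by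
      calc |q x| / κ = Real.sqrt (|q x| / κ) ^ 2 := (Real.sq_sqrt (by positivity)).symm
        _ < ((kk x : ℝ) + 1) ^ 2 := pow_lt_pow_left₀ h1 (Real.sqrt_nonneg _) (by norm_num)
    rw [div_lt_iff₀ hκpos] at h2
    linarith
  -- the classes
  set cl : ι → ℕ × Bool := fun x => (kk x, decide (0 ≤ q x)) with hcl
  have hrep : ∀ c : ℕ × Bool, c ∈ X.image cl → ∃ x ∈ X, cl x = c := by
    intro c hc
    obtain ⟨x, hx, hxc⟩ := Finset.mem_image.1 hc
    exact ⟨x, hx, hxc⟩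
  rcases X.eq_empty_or_nonempty with hX | hX
  · refine ⟨fun _ => 0, fun _ => le_rfl, ?_, ?_⟩
    · intro x hx
      rw [hX] at hx
      exact absurd hx (Finset.notMem_empty x)
    · rw [Ex_const]
      positivity
  obtain ⟨xd, hxd⟩ := hX
  have hrep' : ∀ c : ℕ × Bool, ∃ x ∈ X, c ∈ X.image cl → cl x = c := by
    intro c
    by_cases hc : c ∈ X.image cl
    · obtain ⟨x, hx, hxc⟩ := hrep c hc
      exact ⟨x, hx, fun _ => hxc⟩
    · exact ⟨xd, hxd, fun h => absurd h hc⟩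
  choose rep hrepX hrepc using hrep'
  obtain ⟨x₀, hx₀X, hx₀⟩ : ∃ x₀ ∈ X, (∃ x ∈ X, kk x < k₀) → kk x₀ < k₀ := by
    by_cases h : ∃ x ∈ X, kk x < k₀
    · obtain ⟨x, hx, hx'⟩ := h
      exact ⟨x, hx, fun _ => hx'⟩
    · exact ⟨xd, hxd, fun h' => absurd h' h⟩
  set I : Finset (ℕ × Bool) := (X.image cl).filter (fun c => k₀ ≤ c.1) with hI
  set s : ℕ × Bool → ℝ := fun c => 3 / 4 * β * κ * (c.1 : ℝ) ^ 2 with hs
  refine ⟨fun ω => |Y x₀ ω| + (4 * Λ * σ + 2 * Λ) +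
    ∑ c ∈ I, max (Y (rep c) ω - s c) 0, ?_, ?_, ?_⟩
  · intro ω
    have h1 : 0 ≤ ∑ c ∈ I, max (Y (rep c) ω - s c) 0 :=
      Finset.sum_nonneg fun c _ => le_max_right _ _
    have h2 := abs_nonneg (Y x₀ ω)
    have h3 : 0 ≤ 4 * Λ * σ + 2 * Λ := by positivity
    show 0 ≤ |Y x₀ ω| + (4 * Λ * σ + 2 * Λ) + ∑ c ∈ I, max (Y (rep c) ω - s c) 0
    linarith
  · intro x hx ω
    show Y x ω - β * |q x| ≤ |Y x₀ ω| + (4 * Λ * σ + 2 * Λ) +
      ∑ c ∈ I, max (Y (rep c) ω - s c) 0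
    have h1 : 0 ≤ ∑ c ∈ I, max (Y (rep c) ω - s c) 0 :=
      Finset.sum_nonneg fun c _ => le_max_right _ _
    by_cases hkx : kk x < k₀
    · have hs1 : ∀ z, kk z < k₀ → |q z| ≤ σ := by
        intro z hz
        have h2 := hhi z
        have h3 : ((kk z : ℝ) + 1) ≤ k₀ := by exact_mod_cast hz
        have h4 : κ * ((kk z : ℝ) + 1) ^ 2 ≤ κ * (k₀ : ℝ) ^ 2 :=
          mul_le_mul_of_nonneg_left (pow_le_pow_left₀ (by positivity) h3 2) hκpos.le
        linarith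
      have h2 := hs1 x hkx
      have h3 := hs1 x₀ (hx₀ ⟨x, hx, hkx⟩)
      have h4 := hYlip x hx x₀ hx₀X ω
      have h5 : |q x - q x₀| ≤ 2 * σ := by
        have := abs_sub (q x) (q x₀)
        linarith
      have h6 : 2 * Λ * (|q x - q x₀| + 1) ≤ 2 * Λ * (2 * σ + 1) :=
        mul_le_mul_of_nonneg_left (by linarith) (by linarith)
      have h7 := le_abs_self (Y x₀ ω)
      have h8 : 0 ≤ β * |q x| := by positivity
      nlinarith
    · have hkx' : k₀ ≤ kk x := not_lt.1 hkx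
      have hmem : cl x ∈ X.image cl := Finset.mem_image_of_mem cl hx
      have hmemI : cl x ∈ I := by
        rw [hI, Finset.mem_filter]
        exact ⟨hmem, hkx'⟩
      have h2 : max (Y (rep (cl x)) ω - s (cl x)) 0 ≤ ∑ c ∈ I, max (Y (rep c) ω - s c) 0 :=
        Finset.single_le_sum (f := fun c => max (Y (rep c) ω - s c) 0)
          (fun c _ => le_max_right _ _) hmemI
      have h3 := le_max_left (Y (rep (cl x)) ω - s (cl x)) 0
      obtain ⟨x', hx'⟩ : ∃ x', x' = rep (cl x) := ⟨_, rfl⟩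
      have hx'X : x' ∈ X := by rw [hx']; exact hrepX _
      have hx'c : cl x' = cl x := by rw [hx']; exact hrepc _ hmem
      have hk' : kk x' = kk x := congrArg Prod.fst hx'c
      have hsg : (0 ≤ q x' ↔ 0 ≤ q x) := by
        have h4 : decide (0 ≤ q x') = decide (0 ≤ q x) := congrArg Prod.snd hx'c
        simpa using h4
      rw [← hx'] at h2 h3
      have h4 := hYlip x hx x' hx'X ω
      -- distance
      have hkr : (k₀ : ℝ) ≤ kk x := by exact_mod_cast hkx'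
      have hk1r : (1 : ℝ) ≤ kk x := by
        have : (1 : ℝ) ≤ k₀ := by exact_mod_cast hk1
        linarith
      have l1 := hlo x
      have u1 := hhi x
      have l2 := hlo x'
      have u2 := hhi x'
      rw [hk'] at l2 u2
      have hd : |q x - q x'| ≤ 3 * κ * kk x := by
        have e1 : κ * ((kk x : ℝ) + 1) ^ 2 - κ * (kk x : ℝ) ^ 2 ≤ 3 * κ * kk x := by
          nlinarith
        by_cases h0 : 0 ≤ q x
        · have h0' := hsg.2 h0
          rw [abs_of_nonneg h0] at l1 u1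
          rw [abs_of_nonneg h0'] at l2 u2
          rw [abs_le]
          constructor <;> linarith
        · have h0' : ¬ 0 ≤ q x' := fun h => h0 (hsg.1 h)
          rw [abs_of_neg (not_le.1 h0)] at l1 u1
          rw [abs_of_neg (not_le.1 h0')] at l2 u2
          rw [abs_le]
          constructor <;> linarith
      have e2 : 2 * Λ * (|q x - q x'| + 1) ≤ 2 * Λ * (3 * κ * kk x + 1) :=
        mul_le_mul_of_nonneg_left (by linarith) (by linarith)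
      have e3 : 24 * Λ ≤ β * kk x := hβk.trans (mul_le_mul_of_nonneg_left hkr hβ.le)
      have e4 : 24 * Λ * (κ * kk x) ≤ β * kk x * (κ * kk x) :=
        mul_le_mul_of_nonneg_right e3 (by positivity)
      have e5 : β * (κ * (kk x : ℝ) ^ 2) ≤ β * |q x| := mul_le_mul_of_nonneg_left l1 hβ.le
      have e6 : s (cl x) = 3 / 4 * β * κ * (kk x : ℝ) ^ 2 := rfl
      have e7 := abs_nonneg (Y x₀ ω)
      have e8 : 0 ≤ 4 * Λ * σ := by positivity
      nlinarith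
  · -- the mean
    have h0 : Ex (fun ω => |Y x₀ ω|) ≤ σ := by
      refine (Ex_abs_le_sqrt _).trans ?_
      rw [Real.sqrt_le_left hσ.le]
      exact hYvar x₀ hx₀X
    have hterm : ∀ c ∈ I, Ex (fun ω => max (Y (rep c) ω - s c) 0)
        ≤ σ ^ 2 / (3 * β * κ) * (1 / (c.1 : ℝ) ^ 2) := by
      intro c hc
      have hc1 : k₀ ≤ c.1 := (Finset.mem_filter.1 hc).2
      have hc0 : (0 : ℝ) < c.1 := lt_of_lt_of_le hk0pos (by exact_mod_cast hc1)
      have hspos : 0 < s c := by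
        rw [hs]
        positivity
      refine (Ex_pos_part_le (Y (rep c)) hspos (hYvar _ (hrepX c))).trans (le_of_eq ?_)
      rw [hs]
      field_simp
      try ring
    obtain ⟨n, hn⟩ : ∃ n : ℕ, k₀ ≤ n ∧ ∀ c ∈ I, c.1 < n := by
      refine ⟨max k₀ (I.sup Prod.fst + 1), le_max_left _ _, fun c hc => ?_⟩
      have h1 : c.1 ≤ I.sup Prod.fst := Finset.le_sup (f := Prod.fst) hc
      exact lt_of_lt_of_le (Nat.lt_succ_of_le h1) (le_max_right _ _)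
    have hIsub : I ⊆ (Finset.Ico k₀ n) ×ˢ (Finset.univ : Finset Bool) := by
      intro c hc
      rw [Finset.mem_product]
      exact ⟨Finset.mem_Ico.2 ⟨(Finset.mem_filter.1 hc).2, hn.2 c hc⟩, Finset.mem_univ _⟩
    have hsum : ∑ c ∈ I, Ex (fun ω => max (Y (rep c) ω - s c) 0)
        ≤ σ ^ 2 / (3 * β * κ) * (4 / k₀) := by
      have hp : 0 ≤ σ ^ 2 / (3 * β * κ) := by positivity
      calc ∑ c ∈ I, Ex (fun ω => max (Y (rep c) ω - s c) 0)
          ≤ ∑ c ∈ I, σ ^ 2 / (3 * β * κ) * (1 / (c.1 : ℝ) ^ 2) := Finset.sum_le_sum hterm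
        _ ≤ ∑ c ∈ (Finset.Ico k₀ n) ×ˢ (Finset.univ : Finset Bool),
              σ ^ 2 / (3 * β * κ) * (1 / (c.1 : ℝ) ^ 2) :=
            Finset.sum_le_sum_of_subset_of_nonneg hIsub fun c _ _ => by positivity
        _ = σ ^ 2 / (3 * β * κ) * (2 * ∑ k ∈ Finset.Ico k₀ n, 1 / (k : ℝ) ^ 2) := by
            rw [Finset.sum_product, Finset.mul_sum, Finset.mul_sum]
            refine Finset.sum_congr rfl fun k _ => ?_
            simp
            ring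
        _ ≤ σ ^ 2 / (3 * β * κ) * (4 / k₀) := by
            refine mul_le_mul_of_nonneg_left ?_ hp
            have h1 := CornerNet_sum k₀ hk1 n hn.1
            have h2 : 0 ≤ 2 / (n : ℝ) := by positivity
            have h3 : 4 / (k₀ : ℝ) = 2 * (2 / (k₀ : ℝ)) := by ring
            linarith
    have hval : σ ^ 2 / (3 * β * κ) * (4 / k₀) = 4 / 3 * σ * k₀ / β := by
      rw [hκ]
      field_simp
    have hval2 : 4 / 3 * σ * k₀ / β ≤ 34 * Λ * (σ / β ^ 2) := by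
      have h1 : 4 / 3 * σ * k₀ / β ≤ 4 / 3 * σ * (25 * Λ / β) / β := by
        refine div_le_div_of_nonneg_right ?_ hβ.le
        exact mul_le_mul_of_nonneg_left hk25 (by positivity)
      have h2 : 4 / 3 * σ * (25 * Λ / β) / β = 100 / 3 * Λ * (σ / β ^ 2) := by
        field_simp
        try ring
      have h3 : 0 ≤ Λ * (σ / β ^ 2) := by positivity
      linarith
    have hEU : Ex (fun ω => |Y x₀ ω| + (4 * Λ * σ + 2 * Λ) +
        ∑ c ∈ I, max (Y (rep c) ω - s c) 0)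
        = Ex (fun ω => |Y x₀ ω|) + (4 * Λ * σ + 2 * Λ) +
          ∑ c ∈ I, Ex (fun ω => max (Y (rep c) ω - s c) 0) := by
      rw [Ex_add (fun ω => |Y x₀ ω| + (4 * Λ * σ + 2 * Λ)), Ex_add_const, Ex_sum]
    rw [hEU]
    have hσβ : σ ≤ σ / β ^ 2 := by
      rw [le_div_iff₀ (by positivity)]
      have : β ^ 2 ≤ 1 := pow_le_one₀ hβ.le hβ1
      nlinarith
    have hσβ' : 0 ≤ σ / β ^ 2 := by positivity
    nlinarith [mul_le_mul_of_nonneg_left hσβ (by linarith : (0 : ℝ) ≤ Λ),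
      mul_le_mul_of_nonneg_right hΛ hσβ']

end Pool.Agent.W_1b8d5d_h85
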