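import Pool.Agent.W_1b8d5d_h85.Defs

/-!
MP_1b8d5d_pr, proofs row 571, part (B): elementary properties of `S x = √(x / log (x + 2))`.
-/

set_option autoImplicit false

namespace Pool.Agent.W_1b8d5d_h85

theorem log_two_add_pos {x : ℝ} (hx : 0 ≤ x) : 0 < Real.log (x + 2) :=
  Real.log_pos (by linarith)

theorem S_nonneg (x : ℝ) : 0 ≤ S x := Real.sqrt_nonneg _

theorem S_sq {x : ℝ} (hx : 0 ≤ x) : S x ^ 2 = x / Real.log (x + 2) :=
  Real.sq_sqrt (div_nonneg hx (log_two_add_pos hx).le)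

theorem S_pos {x : ℝ} (hx : 0 < x) : 0 < S x :=
  Real.sqrt_pos.2 (div_pos hx (log_two_add_pos hx.le))

/-- `S` is monotone on `[0, ∞)`.  PROOF.  `x ↦ x / log (x + 2)` is monotone: for `0 ≤ x ≤ y`, `x > 0`,
`log (y + 2) ≤ log (x + 2) + (y - x) / (x + 2)` (concavity, `log t ≤ t - 1` for `t = (y + 2)/(x + 2)`) and
`(y - x)/(x + 2) ≤ (y / x - 1) log (x + 2)` because `x / (x + 2) ≤ log (x + 2)` (`1 - 1/t ≤ log t` for `t = x + 2` gives
`(x + 1)/(x + 2) ≤ log (x + 2)`); so `x log (y + 2) ≤ y log (x + 2)`. -/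
theorem S_mono {x y : ℝ} (hx : 0 ≤ x) (hxy : x ≤ y) : S x ≤ S y := by
  rcases hx.eq_or_lt with h0 | h0
  · rw [← h0]
    have : S 0 = 0 := by simp [S]
    rw [this]
    exact S_nonneg _
  have hy : 0 < y := h0.trans_le hxy
  have hlx := log_two_add_pos hx
  have hly := log_two_add_pos hy.le
  refine Real.sqrt_le_sqrt ?_
  rw [div_le_div_iff₀ hlx hly]
  have hx2 : 0 < x + 2 := by linarith
  have hy2 : 0 < y + 2 := by linarith
  -- concavity
  have h1 : Real.log (y + 2) ≤ Real.log (x + 2) + (y - x) / (x + 2) := by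
    have h := Real.log_le_sub_one_of_pos (div_pos hy2 hx2)
    rw [Real.log_div hy2.ne' hx2.ne'] at h
    have e : (y + 2) / (x + 2) - 1 = (y - x) / (x + 2) := by
      field_simp
      ring
    rw [e] at h
    linarith
  have h2 : x / (x + 2) ≤ Real.log (x + 2) := by
    have h := Real.one_sub_inv_le_log_of_pos hx2
    have e : x / (x + 2) ≤ 1 - (x + 2)⁻¹ := by
      rw [div_le_iff₀ hx2, sub_mul, inv_mul_cancel₀ hx2.ne']
      linarith
    exact e.trans h
  have h3 : x * ((y - x) / (x + 2)) ≤ (y - x) * Real.log (x + 2) := by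
    have e : x * ((y - x) / (x + 2)) = (y - x) * (x / (x + 2)) := by ring
    rw [e]
    exact mul_le_mul_of_nonneg_left h2 (sub_nonneg.2 hxy)
  have h4 := mul_le_mul_of_nonneg_left h1 hx
  nlinarith

/-- `S (c x) ≤ √c S x` for `c ≥ 1`. -/
theorem S_mul_le {c x : ℝ} (hc : 1 ≤ c) (hx : 0 ≤ x) : S (c * x) ≤ Real.sqrt c * S x := by
  have hc0 : 0 ≤ c := zero_le_one.trans hc
  unfold S
  rw [← Real.sqrt_mul hc0]
  refine Real.sqrt_le_sqrt ?_
  rw [mul_div_assoc]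
  refine mul_le_mul_of_nonneg_left ?_ hc0
  refine div_le_div_of_nonneg_left hx (log_two_add_pos hx) ?_
  refine Real.log_le_log (by linarith) ?_
  nlinarith

/-- `S x ≥ 1/2` for `x ≥ 1` (`S 1 = 1/√(log 3) ≥ 1/√2`; `log 3 ≤ 2`). -/
theorem half_le_S {x : ℝ} (hx : 1 ≤ x) : 1 / 2 ≤ S x := by
  refine le_trans ?_ (S_mono zero_le_one hx)
  unfold S
  refine Real.le_sqrt_of_sq_le ?_
  have h3 : Real.log (1 + 2) ≤ 2 := by
    have h := Real.log_le_sub_one_of_pos (show (0 : ℝ) < 1 + 2 by norm_num)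
    refine h.trans ?_
    norm_num
  have h0 : 0 < Real.log ((1 : ℝ) + 2) := log_two_add_pos zero_le_one
  rw [le_div_iff₀ h0]
  calc ((1 : ℝ) / 2) ^ 2 * Real.log (1 + 2) ≤ (1 / 2) ^ 2 * 2 :=
        mul_le_mul_of_nonneg_left h3 (by norm_num)
    _ ≤ 1 := by norm_num

/-- `S x ≤ 2 √x` for `x ≥ 0` (`log (x + 2) ≥ log 2 ≥ 1/4`). -/
theorem S_le_two_sqrt {x : ℝ} (hx : 0 ≤ x) : S x ≤ 2 * Real.sqrt x := by
  have h4 : (2 : ℝ) = Real.sqrt 4 := by
    rw [show (4 : ℝ) = 2 ^ 2 by norm_num, Real.sqrt_sq (by norm_num)]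
  unfold S
  rw [h4, ← Real.sqrt_mul (by norm_num)]
  refine Real.sqrt_le_sqrt ?_
  have hl : (1 : ℝ) / 4 ≤ Real.log (x + 2) := by
    have h1 : Real.log 2 ≤ Real.log (x + 2) := Real.log_le_log (by norm_num) (by linarith)
    have h2 := Real.one_sub_inv_le_log_of_pos (show (0 : ℝ) < 2 by norm_num)
    linarith
  rw [← h4, div_le_iff₀ (log_two_add_pos hx)]
  nlinarith

/-- `S` of a product by a constant `c > 0` of any size: `S (c x) ≤ (√c + 1) S x`. -/
theorem S_mul_le' {c x : ℝ} (hc : 0 ≤ c) (hx : 0 ≤ x) : S (c * x) ≤ (Real.sqrt c + 1) * S x := by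
  have hs := S_nonneg x
  rcases le_total 1 c with h | h
  · have := S_mul_le h hx
    nlinarith
  · have h1 : S (c * x) ≤ S x := S_mono (mul_nonneg hc hx) (by nlinarith)
    have h2 := mul_nonneg (Real.sqrt_nonneg c) hs
    nlinarith

end Pool.Agent.W_1b8d5d_h85
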