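import Pool.Agent.W_1b8d5d_h85.Model
import Pool.Agent.W_1b8d5d_h85.Grid2
import Pool.Agent.W_1b8d5d_h85.SProp
import Pool.Agent.W_1b8d5d_h85.CornerNet

/-!
MP_1b8d5d_pr, proofs row 571, part (B), section 3: the recursion `D (2 n) ≥ (2 - β) D n - C (S n / β² + 1)`.
-/

set_option autoImplicit false

namespace Pool.Agent.W_1b8d5d_h85

/-- A geodesic from `0` to a point `y` with `p y ≥ n` passes the strip `n ≤ p ≤ n + C`. -/
theorem exists_cut {Q : Par} {τ : Env} (hτ : Bd Q.a Q.b τ) (c : Crd) {n : ℝ} (hn : 0 < n) {y : V}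
    (hy : n ≤ c.p y) : ∃ x : V, n ≤ c.p x ∧ c.p x ≤ n + c.C ∧ T τ 0 x + T τ x y = T τ 0 y ∧
      nm x ≤ Q.b / Q.a * nm y := by
  obtain ⟨w, hw⟩ := exists_geo hτ Q.ha 0 y
  have hlip : ∀ x y : V, grid.Adj x y → |c.p y - c.p x| ≤ c.C := by
    intro x y hxy
    have h1 := c.p_le (y - x)
    rw [nm_adj hxy, mul_one, map_sub] at h1
    exact h1
  obtain ⟨i, _, h1, h2, _⟩ := first_passage (fun x => c.p x) c.C hlip n w
    (by simpa using hn) hy
  refine ⟨w.getVert i, h1, h2.le, geo_add hτ Q.ha.le hw i, ?_⟩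
  have h3 := geo_near hτ Q.ha hw i
  simpa using h3

/-- The means: for `x` in the strip of `n` and `y` in the strip of `2 n`,
`g x + g (y - x) ≥ p y + (2 - β) D + β |q x| - C₂`. -/
theorem mean_two {Q : Par} {g : V → ℝ} (hg : IsMean Q g) (c : Crd)
    (hlow : ∀ z, c.p z + |c.q z| ≤ g z) {n β D : ℝ} (hβ : 0 ≤ β) (hβ1 : β ≤ 1)
    (hD : ∀ x, n ≤ c.p x → c.p x ≤ n + 2 * c.C → D ≤ g x - c.p x)
    {x y : V} (hx : n ≤ c.p x) (hx' : c.p x ≤ n + 2 * c.C)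
    (hy : 2 * n ≤ c.p y) (hy' : c.p y ≤ 2 * n + 2 * c.C) :
    c.p y + (2 - β) * D + β * |c.q x| - (2 * c.C + 5 * Q.b * c.C ^ 2) ≤ g x + g (y - x) := by
  have hC := c.one_le
  have hb : 0 < Q.b := Q.ha.trans Q.hab
  set α : ℝ := n + c.C - c.p (y - x) with hα
  have hpyx : c.p (y - x) = c.p y - c.p x := map_sub _ _ _
  set u : V := c.rd α 0 with hu
  have hup := c.rd_p α 0
  have huq := c.rd_q α 0
  rw [← hu] at hup huq
  rw [sub_zero] at huq
  have hup1 := abs_le.1 hup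
  have hα1 : |α| ≤ 3 * c.C := by
    rw [abs_le]
    constructor <;> rw [hα, hpyx] <;> linarith
  have hpu : |c.p u| ≤ 4 * c.C := by
    have h1 : |c.p u| ≤ |c.p u - α| + |α| := by
      have := abs_add_le (c.p u - α) α
      simpa using this
    linarith
  have hnu : nm u ≤ 5 * c.C ^ 2 := by
    have h1 := c.nm_le u
    have h2 : c.C * (|c.p u| + |c.q u|) ≤ c.C * (4 * c.C + c.C) :=
      mul_le_mul_of_nonneg_left (add_le_add hpu huq) (by linarith)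
    nlinarith
  have hgu : g u ≤ 5 * Q.b * c.C ^ 2 := by
    have h1 := hg.upp u
    have h2 : Q.b * nm u ≤ Q.b * (5 * c.C ^ 2) := mul_le_mul_of_nonneg_left hnu hb.le
    linarith
  have hsum : c.p (y - x + u) = c.p (y - x) + c.p u := map_add _ _ _
  have hDu := hD (y - x + u) (by rw [hsum]; linarith) (by rw [hsum]; linarith)
  have hadd := hg.add (y - x) u
  have hDx := hD x hx hx'
  have hlx := hlow x
  -- `g (y - x) ≥ p (y - x) + D - C₂`
  have h1 : c.p (y - x) + D - (2 * c.C + 5 * Q.b * c.C ^ 2) ≤ g (y - x) := by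
    rw [hsum] at hDu
    have h2 : α - c.C ≤ c.p u := by linarith
    have h5 : α ≥ -c.C := by rw [hα, hpyx]; linarith
    linarith
  rw [hpyx] at h1
  nlinarith [mul_nonneg hβ (abs_nonneg (c.q x)),
    mul_le_mul_of_nonneg_left hDx (sub_nonneg.2 hβ1), mul_le_mul_of_nonneg_left hlx hβ]

/-- A finite set of vertices which contains a ball. -/
noncomputable def cball (N : ℕ) : Finset V := Finset.Icc ((-(N : ℤ), -(N : ℤ)) : V) (((N : ℤ), (N : ℤ)) : V)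

theorem mem_cball {N : ℕ} {x : V} (h : nm x ≤ N) : x ∈ cball N := by
  have h1 : |(x.1 : ℝ)| ≤ N := by
    have := abs_nonneg (x.2 : ℝ)
    unfold nm at h
    linarith
  have h2 : |(x.2 : ℝ)| ≤ N := by
    have := abs_nonneg (x.1 : ℝ)
    unfold nm at h
    linarith
  rw [abs_le] at h1 h2
  unfold cball
  rw [Finset.mem_Icc]
  refine ⟨⟨?_, ?_⟩, ⟨?_, ?_⟩⟩
  · show -(N : ℤ) ≤ x.1
    exact_mod_cast h1.1
  · show -(N : ℤ) ≤ x.2
    exact_mod_cast h2.1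
  · show x.1 ≤ (N : ℤ)
    exact_mod_cast h1.2
  · show x.2 ≤ (N : ℤ)
    exact_mod_cast h2.2

/-- Shift invariance of the mean passage time. -/
theorem mean_shift {Q : Par} {g : V → ℝ} {R : ℝ} {M : Mdl Q.a Q.b} (hM : Good Q g R M) (x y : V) :
    M.E (fun τ => T τ x y) = M.E fun τ => T τ 0 (y - x) := by
  rw [← hM.inv x fun τ => T τ 0 (y - x)]
  refine M.E_congr fun τ _ => ?_
  rw [T_sh]
  simp

/-- Shift invariance of the second moment. -/
theorem var_shift {Q : Par} {g : V → ℝ} {R : ℝ} {M : Mdl Q.a Q.b} (hM : Good Q g R M) (x y : V) (m : ℝ) :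
    M.E (fun τ => (T τ x y - m) ^ 2) = M.E fun τ => (T τ 0 (y - x) - m) ^ 2 := by
  rw [← hM.inv x fun τ => (T τ 0 (y - x) - m) ^ 2]
  refine M.E_congr fun τ _ => ?_
  rw [T_sh]
  simp

/-- The recursion for points `y` of norm at most `K₄ n`, in a good model. -/
theorem corner_rec_near {Q : Par} {g : V → ℝ} (hg : IsMean Q g) (hM : HasModels Q g) (c : Crd)
    (hlow : ∀ z, c.p z + |c.q z| ≤ g z) {K₄ : ℝ} (hK₄ : 1 ≤ K₄) {n β D : ℝ} (hn : 1 ≤ n)
    (hβ : 0 < β) (hβ1 : β ≤ 1)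
    (hD : ∀ x, n ≤ c.p x → c.p x ≤ n + 2 * c.C → D ≤ g x - c.p x)
    {y : V} (hy : 2 * n ≤ c.p y) (hy' : c.p y ≤ 2 * n + 2 * c.C) (hny : nm y ≤ K₄ * n) :
    (2 - β) * D - (2 * c.C + 5 * Q.b * c.C ^ 2 + 3)
      - 50 * (4 * Q.b * c.C ^ 2 + 1) * (2 * Q.K * (Real.sqrt ((1 + Q.b / Q.a) * K₄) * S n) / β ^ 2 + 1)
      ≤ g y - c.p y := by
  classical
  have hC := c.one_le
  have hb : 0 < Q.b := Q.ha.trans Q.hab
  have hK := Q.hK
  have hκ : 1 ≤ Q.b / Q.a := by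
    rw [le_div_iff₀ Q.ha]
    linarith [Q.hab]
  set κ : ℝ := Q.b / Q.a with hκdef
  set K₆ : ℝ := (1 + κ) * K₄ with hK₆
  have hK₆1 : 1 ≤ K₆ := by nlinarith
  set l : ℝ := K₆ * n with hl
  have hl1 : 1 ≤ l := by nlinarith
  have hκl : κ * (K₄ * n) ≤ l := by
    rw [hl, hK₆]
    nlinarith [mul_pos (by linarith : (0 : ℝ) < K₄) (by linarith : (0 : ℝ) < n)]
  obtain ⟨R, M, hR, hG⟩ := hM l
  -- the set of cut points
  obtain ⟨N, hN⟩ := exists_nat_ge (κ * (K₄ * n))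
  set X : Finset V := (cball N).filter fun x => n ≤ c.p x ∧ c.p x ≤ n + 2 * c.C ∧
    nm x ≤ κ * (K₄ * n) with hX
  have hXmem : ∀ x, x ∈ X ↔ n ≤ c.p x ∧ c.p x ≤ n + 2 * c.C ∧ nm x ≤ κ * (K₄ * n) := by
    intro x
    rw [hX, Finset.mem_filter]
    refine ⟨fun h => h.2, fun h => ⟨mem_cball (h.2.2.trans hN), h⟩⟩
  have hnx : ∀ x ∈ X, nm x ≤ l := fun x hx => ((hXmem x).1 hx).2.2.trans hκl
  have hnyx : ∀ x ∈ X, nm (y - x) ≤ l := by
    intro x hx
    have h1 := nm_add_le y (-x)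
    rw [nm_neg] at h1
    have h2 := ((hXmem x).1 hx).2.2
    have h3 : nm (y - x) ≤ K₄ * n + κ * (K₄ * n) := by
      rw [sub_eq_add_neg]
      linarith
    have h4 : l = K₄ * n + κ * (K₄ * n) := by rw [hl, hK₆]; ring
    rw [h4]
    exact h3
  set A : V → M.Ω → ℝ := fun x ω => T (M.env ω) 0 x + T (M.env ω) x y with hA
  have hEA : ∀ x, Ex (A x) = M.E (fun τ => T τ 0 x) + M.E (fun τ => T τ 0 (y - x)) := by
    intro x
    rw [← mean_shift hG x y]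
    exact Ex_add _ _
  set Λ : ℝ := 4 * Q.b * c.C ^ 2 + 1 with hΛ
  have hΛ1 : 1 ≤ Λ := by
    have : 0 ≤ 4 * Q.b * c.C ^ 2 := by positivity
    linarith
  set σ : ℝ := 2 * Q.K * S l with hσ
  have hσ0 : 0 < σ := by
    have := S_pos (show (0 : ℝ) < l by linarith)
    positivity
  have hlip : ∀ x ∈ X, ∀ x' ∈ X, ∀ ω, |A x ω - A x' ω| ≤ Λ * (|c.q x - c.q x'| + 1) := by
    intro x hx x' hx' ω
    have h1 := T_lip (M.bd ω) Q.ha.le 0 x x'
    have h2 := T_lip' (M.bd ω) Q.ha.le x x' y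
    have h3 : |A x ω - A x' ω| ≤ 2 * Q.b * nm (x - x') := by
      have h4 : A x ω - A x' ω = (T (M.env ω) 0 x - T (M.env ω) 0 x')
          + (T (M.env ω) x y - T (M.env ω) x' y) := by
        simp only [hA]
        ring
      rw [h4]
      refine (abs_add_le _ _).trans ?_
      linarith
    have h5 := c.nm_le (x - x')
    rw [map_sub, map_sub] at h5
    have h6 : |c.p x - c.p x'| ≤ 2 * c.C := by
      have h7 := (hXmem x).1 hx
      have h8 := (hXmem x').1 hx'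
      rw [abs_le]
      constructor <;> linarith
    have h9 : 2 * Q.b * nm (x - x') ≤ 2 * Q.b * (c.C * (2 * c.C + |c.q x - c.q x'|)) := by
      refine mul_le_mul_of_nonneg_left (h5.trans ?_) (by linarith)
      exact mul_le_mul_of_nonneg_left (by linarith) (by linarith)
    refine h3.trans (h9.trans ?_)
    rw [hΛ]
    have h10 := abs_nonneg (c.q x - c.q x')
    have h11 : 0 ≤ Q.b * c.C := by positivity
    nlinarith [mul_nonneg h11 h10, mul_nonneg (mul_nonneg h11 h10) (sub_nonneg.2 hC)]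
  have hvar : ∀ x ∈ X, Ex (fun ω => (A x ω - Ex (A x)) ^ 2) ≤ σ ^ 2 := by
    intro x hx
    have h1 := hG.var l x hl1 (hnx x hx) hR
    have h2 := hG.var l (y - x) hl1 (hnyx x hx) hR
    rw [← var_shift hG x y, ← mean_shift hG x y] at h2
    have h3 : Vr (A x) ≤ 2 * Vr (fun ω => T (M.env ω) 0 x) + 2 * Vr (fun ω => T (M.env ω) x y) :=
      Vr_add_le _ _
    have h4 : Vr (fun ω => T (M.env ω) 0 x) ≤ Q.K * S l ^ 2 := h1
    have h5 : Vr (fun ω => T (M.env ω) x y) ≤ Q.K * S l ^ 2 := h2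
    have h6 : Ex (fun ω => (A x ω - Ex (A x)) ^ 2) = Vr (A x) := rfl
    rw [h6, hσ]
    have h7 : 0 ≤ S l ^ 2 := sq_nonneg _
    nlinarith [mul_nonneg (mul_nonneg (by linarith : (0 : ℝ) ≤ Q.K) (sub_nonneg.2 hK)) h7]
  obtain ⟨U, hU0, hU, hEU⟩ := net X (fun x => c.q x) A hΛ1 hσ0 hβ hβ1 hlip hvar
  -- the pointwise bound
  have hpt : ∀ ω, c.p y + (2 - β) * D - (2 * c.C + 5 * Q.b * c.C ^ 2) - 2 - U ω
      ≤ T (M.env ω) 0 y := by
    intro ω
    obtain ⟨x, hx1, hx2, hx3, hx4⟩ := exists_cut (M.bd ω) c (by linarith : (0 : ℝ) < n)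
      (y := y) (by linarith)
    have hx5 : c.p x ≤ n + 2 * c.C := by linarith
    have hx6 : nm x ≤ κ * (K₄ * n) :=
      hx4.trans (mul_le_mul_of_nonneg_left hny (by linarith))
    have hxX : x ∈ X := (hXmem x).2 ⟨hx1, hx5, hx6⟩
    have h1 := hU x hxX ω
    rw [hEA x] at h1
    have h2 := mean_two hg c hlow hβ.le hβ1 hD hx1 hx5 hy hy'
    have h3 := abs_le.1 (hG.mean x ((hnx x hxX).trans hR))
    have h4 := abs_le.1 (hG.mean (y - x) ((hnyx x hxX).trans hR))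
    have h5 : A x ω = T (M.env ω) 0 y := hx3
    rw [h5] at h1
    linarith [h3.1, h4.1]
  have hEx := Ex_mono hpt
  have hEx2 : Ex (fun ω => c.p y + (2 - β) * D - (2 * c.C + 5 * Q.b * c.C ^ 2) - 2 - U ω)
      = c.p y + (2 - β) * D - (2 * c.C + 5 * Q.b * c.C ^ 2) - 2 - Ex U := by
    rw [Ex_sub, Ex_const]
  rw [hEx2] at hEx
  have hyl : nm y ≤ l := hny.trans (by rw [hl]; nlinarith)
  have hmy := abs_le.1 (hG.mean y (hyl.trans hR))
  have hmy2 : Ex (fun ω => T (M.env ω) 0 y) ≤ g y + 1 := by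
    have h1 : M.E (fun τ => T τ 0 y) ≤ g y + 1 := by linarith [hmy.2]
    exact h1
  have hSl : S l ≤ Real.sqrt K₆ * S n := S_mul_le hK₆1 (by linarith)
  have hEU2 : Ex U ≤ 50 * Λ * (2 * Q.K * (Real.sqrt K₆ * S n) / β ^ 2 + 1) := by
    refine hEU.trans ?_
    refine mul_le_mul_of_nonneg_left ?_ (by linarith)
    have h1 : σ ≤ 2 * Q.K * (Real.sqrt K₆ * S n) := by
      rw [hσ]
      exact mul_le_mul_of_nonneg_left hSl (by linarith)
    have h2 : σ / β ^ 2 ≤ 2 * Q.K * (Real.sqrt K₆ * S n) / β ^ 2 :=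
      div_le_div_of_nonneg_right h1 (by positivity)
    linarith
  linarith

/-- The recursion. -/
theorem corner_rec {Q : Par} {g : V → ℝ} (hg : IsMean Q g) (hM : HasModels Q g) (c : Crd)
    (hlow : ∀ z, c.p z + |c.q z| ≤ g z) :
    ∃ C₃ : ℝ, 0 ≤ C₃ ∧ ∀ n β D : ℝ, 1 ≤ n → 0 < β → β ≤ 1 →
      (∀ x, n ≤ c.p x → c.p x ≤ n + 2 * c.C → D ≤ g x - c.p x) →
      ∀ y, 2 * n ≤ c.p y → c.p y ≤ 2 * n + 2 * c.C →
        (2 - β) * D - C₃ * (S n / β ^ 2 + 1) ≤ g y - c.p y := by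
  have hC := c.one_le
  have hb : 0 < Q.b := Q.ha.trans Q.hab
  have hK := Q.hK
  set K₄ : ℝ := 8 * Q.b * c.C ^ 3 + 4 * c.C ^ 2 with hK₄def
  have hK₄ : 1 ≤ K₄ := by
    have h1 : 0 ≤ 8 * Q.b * c.C ^ 3 := by positivity
    nlinarith
  set s₆ : ℝ := Real.sqrt ((1 + Q.b / Q.a) * K₄) with hs₆
  have hs₆0 : 0 ≤ s₆ := Real.sqrt_nonneg _
  set Λ : ℝ := 4 * Q.b * c.C ^ 2 + 1 with hΛ
  have hΛ1 : 1 ≤ Λ := by
    have : 0 ≤ 4 * Q.b * c.C ^ 2 := by positivity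
    linarith
  have hC5 : 0 ≤ 2 * c.C + 5 * Q.b * c.C ^ 2 + 3 := by positivity
  refine ⟨(2 * c.C + 5 * Q.b * c.C ^ 2 + 3) + 50 * Λ * (2 * Q.K * s₆ + 1), by positivity, ?_⟩
  intro n β D hn hβ hβ1 hD y hy hy'
  have hS0 := S_nonneg n
  have hsb : 0 ≤ S n / β ^ 2 := by positivity
  rcases le_or_gt (nm y) (K₄ * n) with hny | hny
  · have h1 := corner_rec_near hg hM c hlow hK₄ hn hβ hβ1 hD hy hy' hny
    refine le_trans ?_ h1
    rw [← hs₆, ← hΛ]
    have h2 : 2 * Q.K * (s₆ * S n) / β ^ 2 = 2 * Q.K * s₆ * (S n / β ^ 2) := by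
      ring
    rw [h2]
    have h3 : 0 ≤ 50 * Λ * 1 * (S n / β ^ 2) := by positivity
    have h4 : 0 ≤ 50 * Λ * (2 * Q.K * s₆) := by positivity
    nlinarith [mul_nonneg hC5 hsb]
  · -- far points
    have hx0p := c.rd_p (n + c.C) 0
    have hx0q := c.rd_q (n + c.C) 0
    rw [sub_zero] at hx0q
    set x₀ : V := c.rd (n + c.C) 0 with hx₀
    have hp0 := abs_le.1 hx0p
    have hD0 := hD x₀ (by linarith) (by linarith)
    have hnx0 : nm x₀ ≤ 4 * c.C ^ 2 * n := by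
      have h1 := c.nm_le x₀
      have h2 : |c.p x₀| ≤ n + 2 * c.C := by
        rw [abs_le]
        constructor <;> linarith
      have h3 : c.C * (|c.p x₀| + |c.q x₀|) ≤ c.C * (n + 3 * c.C) :=
        mul_le_mul_of_nonneg_left (by linarith) (by linarith)
      nlinarith [mul_nonneg (sub_nonneg.2 hC) (sub_nonneg.2 hn), mul_nonneg (sub_nonneg.2 hn) (sq_nonneg c.C),
        mul_nonneg (mul_nonneg (sub_nonneg.2 hC) (by linarith : (0:ℝ) ≤ c.C)) (by linarith : (0:ℝ) ≤ n)]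
    have hgx0 : g x₀ ≤ 4 * Q.b * c.C ^ 2 * n := by
      have h1 := hg.upp x₀
      have h2 : Q.b * nm x₀ ≤ Q.b * (4 * c.C ^ 2 * n) := mul_le_mul_of_nonneg_left hnx0 hb.le
      linarith
    have hD1 : D ≤ 4 * Q.b * c.C ^ 2 * n := by linarith
    have hqy : 8 * Q.b * c.C ^ 2 * n ≤ |c.q y| := by
      have h1 := c.nm_le y
      have h2 : |c.p y| ≤ 2 * n + 2 * c.C := by
        rw [abs_le]
        constructor <;> linarith
      have h3 : K₄ * n < c.C * (|c.p y| + |c.q y|) := lt_of_lt_of_le hny h1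
      have h4 : K₄ * n = c.C * ((8 * Q.b * c.C ^ 2 + 4 * c.C) * n) := by rw [hK₄def]; ring
      rw [h4] at h3
      have h5 : (8 * Q.b * c.C ^ 2 + 4 * c.C) * n < |c.p y| + |c.q y| :=
        lt_of_mul_lt_mul_left h3 (by linarith)
      nlinarith [mul_nonneg (sub_nonneg.2 hC) (sub_nonneg.2 hn)]
    have hly := hlow y
    have h6 : (2 - β) * D ≤ 8 * Q.b * c.C ^ 2 * n := by
      rcases le_or_gt 0 D with h | h
      · nlinarith [mul_nonneg hβ.le h]
      · have h7 : (2 - β) * D ≤ 0 := mul_nonpos_of_nonneg_of_nonpos (by linarith) h.le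
        have h8 : 0 ≤ 8 * Q.b * c.C ^ 2 * n := by positivity
        linarith
    have h9 : 0 ≤ ((2 * c.C + 5 * Q.b * c.C ^ 2 + 3) + 50 * Λ * (2 * Q.K * s₆ + 1)) *
        (S n / β ^ 2 + 1) := by positivity
    linarith

end Pool.Agent.W_1b8d5d_h85
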