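import Pool.Agent.W_1b8d5d_h85.Basic

/-!
MP_1b8d5d_pr, part (A), (G8): the tilt kernel on a finite product space.  `wt` is the weight of a letter, letters with
`su ≤ wt` are high, letters with `wt ≤ sl` are low.  A high letter at a site of `D` is replaced with probability `d` by a uniform
low letter.
-/

set_option autoImplicit false

namespace Pool.Agent.W_1b8d5d_h85

open Finset

variable {J β : Type} [Fintype J] [DecidableEq J] [Fintype β] [DecidableEq β] [Nonempty β]

/-- The set of the low letters. -/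
noncomputable def lowS (wt : β → ℝ) (sl : ℝ) : Finset β := univ.filter fun v => wt v ≤ sl

/-- The kernel of one site of `D`. -/
noncomputable def kap (wt : β → ℝ) (sl su d : ℝ) (u v : β) : ℝ :=
  if su ≤ wt u then (1 - d) * (if v = u then 1 else 0) + d * ((if wt v ≤ sl then 1 else 0) / (lowS wt sl).card)
  else if v = u then 1 else 0

/-- The kernel. -/
noncomputable def Ker (wt : β → ℝ) (sl su d : ℝ) (D : Finset J) (ω ω' : J → β) : ℝ :=
  ∏ t, if t ∈ D then kap wt sl su d (ω t) (ω' t) else if ω' t = ω t then 1 else 0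

section one

variable {wt : β → ℝ} {sl su d : ℝ}

theorem kap_nonneg (hd : 0 ≤ d) (hd1 : d ≤ 1) (u v : β) : 0 ≤ kap wt sl su d u v := by
  unfold kap
  have h1 : 0 ≤ 1 - d := by linarith
  split_ifs <;> positivity

/-- PROOF.  `∑ v, (if wt v ≤ sl then 1 else 0) / card = 1` since `lowS` is not empty. -/
theorem sum_kap (hL : ∃ v, wt v ≤ sl) (u : β) : ∑ v, kap wt sl su d u v = 1 := by
  have hc : ((lowS wt sl).card : ℝ) ≠ 0 := by
    obtain ⟨v, hv⟩ := hL
    have : 0 < (lowS wt sl).card := Finset.card_pos.mpr ⟨v, by simp [lowS, hv]⟩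
    exact_mod_cast this.ne'
  unfold kap
  by_cases h : su ≤ wt u
  · simp only [h, if_true]
    rw [Finset.sum_add_distrib, ← Finset.mul_sum, ← Finset.mul_sum, ← Finset.sum_div, Finset.sum_ite_eq' univ u,
      if_pos (Finset.mem_univ u), ← Finset.sum_filter]
    have h2 : (∑ v ∈ univ.filter fun v => wt v ≤ sl, (1 : ℝ)) = ((lowS wt sl).card : ℝ) := by
      rw [Finset.sum_const, nsmul_eq_mul, mul_one]
      rfl
    rw [h2, div_self hc]
    ring
  · simp only [h, if_false]
    rw [Finset.sum_ite_eq' univ u, if_pos (Finset.mem_univ u)]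

/-- Only `v = u`, or `u` high and `v` low. -/
theorem kap_supp {u v : β} (h : kap wt sl su d u v ≠ 0) : v = u ∨ (su ≤ wt u ∧ wt v ≤ sl) := by
  unfold kap at h
  by_cases hu : su ≤ wt u
  · simp only [hu, if_true] at h
    by_cases hv : v = u
    · exact Or.inl hv
    · by_cases hw : wt v ≤ sl
      · exact Or.inr ⟨hu, hw⟩
      · exfalso
        apply h
        simp [hv, hw]
  · simp only [hu, if_false] at h
    by_cases hv : v = u
    · exact Or.inl hv
    · exact absurd (if_neg hv) h

/-- The exponential moment of the decrease of one high site.  PROOF.  The term `v = u` gives `1 - d`; for low `v` the decrease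
`(wt u - wt v) / (su - sl)` is at least `1`; `sum_kap`-computation of the low part; `1 - d + d * exp (-1) ≤ exp (-(d / 2))`
because `exp (-1) ≤ 1 / 2` and `1 - x ≤ exp (-x)`. -/
theorem kap_exp (hs : sl < su) (hL : ∃ v, wt v ≤ sl) (hd : 0 ≤ d) (hd1 : d ≤ 1) {u : β} (hu : su ≤ wt u) :
    ∑ v, kap wt sl su d u v * Real.exp (-((wt u - wt v) / (su - sl))) ≤ Real.exp (-(d / 2)) := by
  have hc : ((lowS wt sl).card : ℝ) ≠ 0 := by
    obtain ⟨v, hv⟩ := hL
    have : 0 < (lowS wt sl).card := Finset.card_pos.mpr ⟨v, by simp [lowS, hv]⟩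
    exact_mod_cast this.ne'
  have hpos : 0 < su - sl := by linarith
  have hterm : ∀ v ∈ (univ : Finset β), kap wt sl su d u v * Real.exp (-((wt u - wt v) / (su - sl))) ≤
      (1 - d) * (if v = u then 1 else 0) + (d * Real.exp (-1)) * ((if wt v ≤ sl then 1 else 0) / (lowS wt sl).card) := by
    intro v _
    unfold kap
    simp only [hu, if_true]
    rw [add_mul]
    apply add_le_add
    · by_cases hv : v = u
      · subst hv
        simp
      · simp [hv]
    · by_cases hw : wt v ≤ sl
      · simp only [hw, if_true]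
        have h1 : 1 ≤ (wt u - wt v) / (su - sl) := by
          rw [le_div_iff₀ hpos]
          linarith
        have h2 : Real.exp (-((wt u - wt v) / (su - sl))) ≤ Real.exp (-1) := by
          apply Real.exp_le_exp.mpr
          linarith
        have h3 : (0 : ℝ) ≤ d * (1 / (lowS wt sl).card) := by positivity
        calc d * (1 / ((lowS wt sl).card : ℝ)) * Real.exp (-((wt u - wt v) / (su - sl)))
            ≤ d * (1 / ((lowS wt sl).card : ℝ)) * Real.exp (-1) := mul_le_mul_of_nonneg_left h2 h3
          _ = (d * Real.exp (-1)) * (1 / ((lowS wt sl).card : ℝ)) := by ring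
      · simp [hw]
  refine (Finset.sum_le_sum hterm).trans ?_
  have hsum : ∑ v, ((1 - d) * (if v = u then (1 : ℝ) else 0) +
      (d * Real.exp (-1)) * ((if wt v ≤ sl then 1 else 0) / (lowS wt sl).card)) = (1 - d) + d * Real.exp (-1) := by
    rw [Finset.sum_add_distrib, ← Finset.mul_sum, ← Finset.mul_sum, ← Finset.sum_div, Finset.sum_ite_eq' univ u,
      if_pos (Finset.mem_univ u), ← Finset.sum_filter]
    have h2 : (∑ v ∈ univ.filter fun v => wt v ≤ sl, (1 : ℝ)) = ((lowS wt sl).card : ℝ) := by
      rw [Finset.sum_const, nsmul_eq_mul, mul_one]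
      rfl
    rw [h2, div_self hc]
    ring
  rw [hsum]
  have he : Real.exp (-1) ≤ 1 / 2 := by
    have h1 : (2 : ℝ) ≤ Real.exp 1 := by
      have := Real.add_one_le_exp (1 : ℝ)
      linarith
    rw [Real.exp_neg, inv_eq_one_div]
    exact one_div_le_one_div_of_le (by norm_num) h1
  have h3 : d * Real.exp (-1) ≤ d * (1 / 2) := mul_le_mul_of_nonneg_left he hd
  have h4 := Real.add_one_le_exp (-(d / 2))
  linarith

end one

section many

variable {wt : β → ℝ} {sl su d : ℝ} {D : Finset J}

theorem Ker_nonneg (hd : 0 ≤ d) (hd1 : d ≤ 1) (ω ω' : J → β) : 0 ≤ Ker wt sl su d D ω ω' := by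
  unfold Ker
  apply Finset.prod_nonneg
  intro t _
  split_ifs
  · exact kap_nonneg hd hd1 _ _
  · exact zero_le_one
  · exact le_refl _

/-- Sums of products.  PROOF.  `Finset.prod_univ_sum`, `Fintype.piFinset_univ`. -/
theorem sum_pi_prod (f : J → β → ℝ) : ∑ ω' : J → β, ∏ t, f t (ω' t) = ∏ t, ∑ v, f t v := by
  rw [Finset.prod_univ_sum, Fintype.piFinset_univ]

theorem Ker_sum (hL : ∃ v, wt v ≤ sl) (ω : J → β) : ∑ ω', Ker wt sl su d D ω ω' = 1 := by
  unfold Ker
  rw [sum_pi_prod (fun t v => if t ∈ D then kap wt sl su d (ω t) v else if v = ω t then 1 else 0)]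
  apply Finset.prod_eq_one
  intro t _
  by_cases h : t ∈ D
  · simp only [h, if_true]
    exact sum_kap hL _
  · simp only [h, if_false]
    rw [Finset.sum_ite_eq' univ (ω t), if_pos (Finset.mem_univ _)]

theorem Ker_supp (hs : sl < su) {ω ω' : J → β} (h : Ker wt sl su d D ω ω' ≠ 0) :
    (∀ t, wt (ω' t) ≤ wt (ω t)) ∧ ∀ t, t ∉ D → ω' t = ω t := by
  unfold Ker at h
  have h1 := Finset.prod_ne_zero_iff.mp h
  constructor
  · intro t
    have h2 := h1 t (Finset.mem_univ t)
    by_cases ht : t ∈ D
    · rw [if_pos ht] at h2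
      rcases kap_supp h2 with h3 | ⟨h3, h4⟩
      · rw [h3]
      · linarith
    · rw [if_neg ht] at h2
      have h3 : ω' t = ω t := by
        by_contra h4
        exact h2 (if_neg h4)
      rw [h3]
  · intro t ht
    have h2 := h1 t (Finset.mem_univ t)
    rw [if_neg ht] at h2
    by_contra h4
    exact h2 (if_neg h4)

/-- Chernoff.  PROOF.  On the event the number `exp (d n / 4 - ∑_{t ∈ H} (wt (ω t) - wt (ω' t)) / (su - sl))` is at least `1`
(`n = |H|`), so the sum is at most `exp (d n / 4)` times `∑ ω', Ker * ∏_{t ∈ H} exp (-(wt (ω t) - wt (ω' t)) / (su - sl))`, which is a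
product over the sites (`sum_pi_prod`): the factor is at most `exp (-(d / 2))` for `t ∈ H` (`kap_exp`) and `1` otherwise
(`sum_kap`). -/
theorem Ker_low (hs : sl < su) (hL : ∃ v, wt v ≤ sl) (hd : 0 ≤ d) (hd1 : d ≤ 1) (ω : J → β) (H : Finset J)
    (hH : H ⊆ D) (hu : ∀ t ∈ H, su ≤ wt (ω t)) :
    ∑ ω' ∈ univ.filter (fun ω' => ∑ t ∈ H, (wt (ω t) - wt (ω' t)) < (su - sl) * (d * H.card / 4)),
      Ker wt sl su d D ω ω' ≤ Real.exp (-(d * H.card / 16)) := by
  have hpos : 0 < su - sl := by linarith
  set n : ℝ := (H.card : ℝ) with hn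
  have hn0 : 0 ≤ n := by positivity
  -- the factor of the exponential
  let G : (J → β) → ℝ := fun ω' => ∏ t, if t ∈ H then Real.exp (-((wt (ω t) - wt (ω' t)) / (su - sl))) else 1
  have hG : ∀ ω' : J → β, G ω' = Real.exp (-(∑ t ∈ H, (wt (ω t) - wt (ω' t)) / (su - sl))) := by
    intro ω'
    show (∏ t, if t ∈ H then Real.exp (-((wt (ω t) - wt (ω' t)) / (su - sl))) else 1) = _
    rw [← Finset.prod_filter, ← Finset.sum_neg_distrib, Real.exp_sum]
    congr 1
    ext t
    simp
  have step1 : ∑ ω' ∈ univ.filter (fun ω' => ∑ t ∈ H, (wt (ω t) - wt (ω' t)) < (su - sl) * (d * n / 4)),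
      Ker wt sl su d D ω ω' ≤ ∑ ω', Real.exp (d * n / 4) * (Ker wt sl su d D ω ω' * G ω') := by
    refine (Finset.sum_le_sum (g := fun ω' => Real.exp (d * n / 4) * (Ker wt sl su d D ω ω' * G ω')) ?_).trans
      (Finset.sum_le_sum_of_subset_of_nonneg (Finset.filter_subset _ _) ?_)
    · intro ω' hω'
      have h1 := (Finset.mem_filter.mp hω').2
      have h2 : ∑ t ∈ H, (wt (ω t) - wt (ω' t)) / (su - sl) < d * n / 4 := by
        rw [← Finset.sum_div, div_lt_iff₀ hpos]
        linarith
      have h3 : 1 ≤ Real.exp (d * n / 4) * G ω' := by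
        rw [hG, ← Real.exp_add]
        apply Real.one_le_exp
        linarith
      have h4 := Ker_nonneg (wt := wt) (sl := sl) (su := su) (D := D) hd hd1 ω ω'
      calc Ker wt sl su d D ω ω' = Ker wt sl su d D ω ω' * 1 := by ring
        _ ≤ Ker wt sl su d D ω ω' * (Real.exp (d * n / 4) * G ω') := mul_le_mul_of_nonneg_left h3 h4
        _ = Real.exp (d * n / 4) * (Ker wt sl su d D ω ω' * G ω') := by ring
    · intro ω' _ _
      have h4 := Ker_nonneg (wt := wt) (sl := sl) (su := su) (D := D) hd hd1 ω ω'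
      have h5 : 0 ≤ G ω' := by
        rw [hG]
        exact (Real.exp_pos _).le
      positivity
  have step2 : ∑ ω', Ker wt sl su d D ω ω' * G ω' =
      ∏ t, ∑ v, (if t ∈ D then kap wt sl su d (ω t) v else if v = ω t then 1 else 0) *
        (if t ∈ H then Real.exp (-((wt (ω t) - wt v) / (su - sl))) else 1) := by
    rw [← sum_pi_prod (fun t v => (if t ∈ D then kap wt sl su d (ω t) v else if v = ω t then 1 else 0) *
        (if t ∈ H then Real.exp (-((wt (ω t) - wt v) / (su - sl))) else 1))]
    apply Finset.sum_congr rfl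
    intro ω' _
    unfold Ker
    rw [Finset.prod_mul_distrib]
  have step3 : ∏ t, ∑ v, (if t ∈ D then kap wt sl su d (ω t) v else if v = ω t then 1 else 0) *
        (if t ∈ H then Real.exp (-((wt (ω t) - wt v) / (su - sl))) else 1) ≤
      ∏ t, (if t ∈ H then Real.exp (-(d / 2)) else 1) := by
    apply Finset.prod_le_prod
    · intro t _
      apply Finset.sum_nonneg
      intro v _
      have h5 : 0 ≤ (if t ∈ D then kap wt sl su d (ω t) v else if v = ω t then 1 else 0) := by
        split_ifs
        · exact kap_nonneg hd hd1 _ _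
        · exact zero_le_one
        · exact le_refl _
      have h6 : 0 ≤ (if t ∈ H then Real.exp (-((wt (ω t) - wt v) / (su - sl))) else 1) := by
        split_ifs
        · exact (Real.exp_pos _).le
        · exact zero_le_one
      exact mul_nonneg h5 h6
    · intro t _
      by_cases ht : t ∈ H
      · have htD := hH ht
        simp only [ht, htD, if_true]
        exact kap_exp hs hL hd hd1 (hu t ht)
      · simp only [ht, if_false, mul_one]
        by_cases htD : t ∈ D
        · simp only [htD, if_true]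
          exact (sum_kap hL _).le
        · simp only [htD, if_false]
          rw [Finset.sum_ite_eq' univ (ω t), if_pos (Finset.mem_univ _)]
  have step4 : (∏ t : J, (if t ∈ H then Real.exp (-(d / 2)) else 1)) = Real.exp (-(d / 2) * n) := by
    rw [← Finset.prod_filter, Finset.prod_const]
    have h7 : (univ.filter fun t => t ∈ H) = H := by
      ext t
      simp
    rw [h7, ← Real.exp_nat_mul, hn]
    congr 1
    ring
  have step5 : ∑ ω', Real.exp (d * n / 4) * (Ker wt sl su d D ω ω' * G ω') ≤ Real.exp (d * n / 4) * Real.exp (-(d / 2) * n) := by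
    rw [← Finset.mul_sum, step2]
    exact mul_le_mul_of_nonneg_left (step3.trans step4.le) (Real.exp_pos _).le
  refine (step1.trans step5).trans ?_
  rw [← Real.exp_add]
  apply Real.exp_le_exp.mpr
  nlinarith [mul_nonneg hd hn0]

end many

end Pool.Agent.W_1b8d5d_h85
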