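import Pool.Agent.W_1b8d5d_h85.LogSob

/-!
MP_1b8d5d_pr, proofs row 571, section 2: bits of one edge.
-/

set_option autoImplicit false

namespace Pool.Agent.W_1b8d5d_h85

open Finset

/-- The number with the binary digits `u` (`u 0` is the leading bit). -/
def val {k : ℕ} (u : Fin k → Bool) : ℕ := ∑ i : Fin k, if u i then 2 ^ (k - 1 - (i : ℕ)) else 0

private theorem abits_val_succ {k : ℕ} (u : Fin (k + 1) → Bool) :
    val u = (if u 0 then 2 ^ k else 0) + val (fun i : Fin k => u i.succ) := by
  unfold val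
  rw [Fin.sum_univ_succ]
  congr 1
  refine sum_congr rfl fun i _ => ?_
  have h : k + 1 - 1 - ((i.succ : Fin (k + 1)) : ℕ) = k - 1 - (i : ℕ) := by
    rw [Fin.val_succ]; omega
  rw [h]

theorem val_lt {k : ℕ} (u : Fin k → Bool) : val u < 2 ^ k := by
  induction k with
  | zero => simp [val]
  | succ k ih =>
    rw [abits_val_succ, pow_succ]
    have := ih (fun i : Fin k => u i.succ)
    split_ifs <;> omega

theorem val_inj {k : ℕ} : Function.Injective (val (k := k)) := by
  induction k with
  | zero => intro u v _; exact Subsingleton.elim _ _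
  | succ k ih =>
    intro u v h
    rw [abits_val_succ, abits_val_succ] at h
    have h1 := val_lt (fun i : Fin k => u i.succ)
    have h2 := val_lt (fun i : Fin k => v i.succ)
    have h3 : u 0 = v 0 := by
      cases hu : u 0 <;> cases hv : v 0 <;> simp only [hu, hv, Bool.false_eq_true, if_true,
        if_false] at h ⊢ <;> omega
    rw [h3] at h
    have h4 : val (fun i : Fin k => u i.succ) = val (fun i : Fin k => v i.succ) := by omega
    have h5 := ih h4
    funext i
    refine Fin.cases h3 (fun j => ?_) i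
    exact congrFun h5 j

private theorem abits_bij {k : ℕ} :
    Function.Bijective (fun u : Fin k → Bool => (⟨val u, val_lt u⟩ : Fin (2 ^ k))) := by
  rw [Fintype.bijective_iff_injective_and_card]
  refine ⟨fun u v h => val_inj (congrArg Fin.val h), ?_⟩
  simp

/-- Every number below `2^k` is a value. -/
theorem val_surj {k : ℕ} {j : ℕ} (hj : j < 2 ^ k) : ∃ u : Fin k → Bool, val u = j := by
  obtain ⟨u, hu⟩ := abits_bij.2 (⟨j, hj⟩ : Fin (2 ^ k))
  exact ⟨u, congrArg Fin.val hu⟩

/-- Averages over the bits are averages over the numbers. -/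
theorem Ex_val {k : ℕ} (F : ℕ → ℝ) :
    Ex (fun u : Fin k → Bool => F (val u)) = (∑ j ∈ range (2 ^ k), F j) / 2 ^ k := by
  unfold Ex
  congr 1
  · rw [Finset.sum_range]
    exact Fintype.sum_bijective _ abits_bij _ _ fun u => rfl
  · simp

/-- Setting the bit `i` increases the value. -/
theorem val_update {k : ℕ} (u : Fin k → Bool) (i : Fin k) :
    val (Function.update u i true) = val (Function.update u i false) + 2 ^ (k - 1 - (i : ℕ)) := by
  unfold val
  rw [← add_sum_erase _ _ (mem_univ i), ← add_sum_erase univ _ (mem_univ i)]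
  have h : ∑ x ∈ univ.erase i, (if Function.update u i true x then 2 ^ (k - 1 - (x : ℕ)) else 0)
      = ∑ x ∈ univ.erase i, (if Function.update u i false x then 2 ^ (k - 1 - (x : ℕ)) else 0) := by
    refine sum_congr rfl fun x hx => ?_
    have hne : x ≠ i := (mem_erase.1 hx).1
    rw [Function.update_of_ne hne, Function.update_of_ne hne]
  rw [h]
  simp only [Function.update_self, if_true, Bool.false_eq_true, if_false]
  omega

private theorem abits_Ex_bool (f : Bool → ℝ) : Ex f = (f true + f false) / 2 := by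
  unfold Ex
  simp

/-- The probability of a small value after clearing a bit.  PROOF.  On `{u i = false}` (half of the space) nothing is cleared. -/
theorem Pr_clear {k : ℕ} (i : Fin k) (m : ℕ) :
    Pr (fun u : Fin k → Bool => val (Function.update u i false) < m)
      ≤ 2 * Pr (fun u : Fin k → Bool => val u < m) := by
  let g : (Fin k → Bool) → ℝ := fun u => if val u < m then (1 : ℝ) else 0
  have e1 : Pr (fun u : Fin k → Bool => val (Function.update u i false) < m)
      = Ex (fun u : Fin k → Bool => g (Function.update u i false)) := by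
    unfold Pr
    refine Ex_congr fun u => ?_
    by_cases h : val (Function.update u i false) < m <;> simp [g, h]
  have e2 : Pr (fun u : Fin k → Bool => val u < m) = Ex g := by
    unfold Pr
    refine Ex_congr fun u => ?_
    by_cases h : val u < m <;> simp [g, h]
  rw [e1, e2, ← Ex_avg i g, ← Ex_mul_left]
  refine Ex_mono fun u => ?_
  unfold avg
  rw [abits_Ex_bool]
  have h1 : (0 : ℝ) ≤ g (Function.update u i true) := by
    simp only [g]
    split_ifs <;> norm_num
  linarith

private theorem abits_mono_val {k : ℕ} (F : ℕ → ℝ) (hF : Monotone F) (u : Fin k → Bool)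
    (i : Fin k) :
    |Dd i (fun u => F (val u)) u|
      = F (val (Function.update u i true)) - F (val (Function.update u i false)) := by
  unfold Dd
  refine abs_of_nonneg (sub_nonneg.2 (hF ?_))
  rw [val_update]
  exact Nat.le_add_right _ _

private theorem abits_Ex_cons {k : ℕ} (f : (Fin (k + 1) → Bool) → ℝ) :
    Ex f = (Ex (fun v : Fin k → Bool => f (Fin.cons true v))
      + Ex (fun v : Fin k → Bool => f (Fin.cons false v))) / 2 := by
  have h := Ex_equiv (Fin.consEquiv (fun _ : Fin (k + 1) => Bool)) f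
  rw [← h, Ex_prod, abits_Ex_bool]
  rfl

private theorem abits_val_cons {k : ℕ} (b : Bool) (v : Fin k → Bool) :
    val (Fin.cons b v : Fin (k + 1) → Bool) = (if b then 2 ^ k else 0) + val v := by
  rw [abits_val_succ]
  simp

private theorem abits_update_cons_succ {k : ℕ} (b c : Bool) (v : Fin k → Bool) (j : Fin k) :
    Function.update (Fin.cons b v : Fin (k + 1) → Bool) j.succ c
      = Fin.cons b (Function.update v j c) := by
  exact (Fin.cons_update (α := fun _ => Bool) b v j c).symm

private theorem abits_update_cons_zero {k : ℕ} (b c : Bool) (v : Fin k → Bool) :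
    Function.update (Fin.cons b v : Fin (k + 1) → Bool) 0 c = Fin.cons c v :=
  Fin.update_cons_zero (α := fun _ => Bool) b v c

private theorem abits_one_bit {k : ℕ} : ∀ (F : ℕ → ℝ), Monotone F → ∀ i : Fin k,
    Ex (fun u : Fin k → Bool => |Dd i (fun u => F (val u)) u|)
      ≤ (F (2 ^ k - 1) - F 0) * (1 / 2) ^ (i : ℕ) := by
  induction k with
  | zero => intro F _ i; exact i.elim0
  | succ k ih =>
    intro F hF i
    refine Fin.cases ?_ (fun j => ?_) i
    · rw [Fin.val_zero, pow_zero, mul_one]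
      refine Ex_le_of_le fun u => ?_
      rw [abits_mono_val F hF]
      have h1 := hF (Nat.le_sub_one_of_lt (val_lt (Function.update u 0 true)))
      have h2 := hF (Nat.zero_le (val (Function.update u 0 false)))
      linarith
    · rw [abits_Ex_cons]
      have key : ∀ b : Bool, Ex (fun v : Fin k → Bool =>
          |Dd j.succ (fun u : Fin (k + 1) → Bool => F (val u)) (Fin.cons b v)|)
          ≤ (F ((if b then 2 ^ k else 0) + (2 ^ k - 1)) - F ((if b then 2 ^ k else 0) + 0))
            * (1 / 2) ^ (j : ℕ) := by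
        intro b
        have hmono : Monotone (fun n : ℕ => F ((if b then 2 ^ k else 0) + n)) :=
          fun x y hxy => hF (Nat.add_le_add_left hxy _)
        refine le_trans (le_of_eq (Ex_congr fun v => ?_)) (ih _ hmono j)
        rw [abits_mono_val F hF, abits_mono_val _ hmono, abits_update_cons_succ,
          abits_update_cons_succ, abits_val_cons, abits_val_cons]
      have h1 := key true
      have h2 := key false
      simp only [if_true, Bool.false_eq_true, if_false, Nat.zero_add, Nat.add_zero] at h1 h2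
      have hpos : (0 : ℝ) < (1 / 2) ^ (j : ℕ) := by positivity
      have h3 : F (2 ^ k - 1) ≤ F (2 ^ k) := hF (Nat.sub_le _ _)
      have h4 : 2 ^ k + (2 ^ k - 1) = 2 ^ (k + 1) - 1 := by
        have : 1 ≤ 2 ^ k := Nat.one_le_two_pow
        rw [pow_succ]; omega
      rw [h4] at h1
      have h5 := mul_nonneg (sub_nonneg.2 h3) hpos.le
      rw [Fin.val_succ, pow_succ (1 / 2 : ℝ) (j : ℕ)]
      nlinarith [h5, h1, h2]

/-- Telescoping.  PROOF.  For fixed lower bits (`2^(k-1-i)` choices) the intervals `[val(i→0), val(i→1)]` for the different upper bits do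
not overlap, so the increments add up to at most `L`; the bit `i` itself is free (factor 2). -/
theorem one_bit {k : ℕ} (F : ℕ → ℝ) {L : ℝ} (hF : Monotone F) (hL : F (2 ^ k - 1) - F 0 ≤ L)
    (i : Fin k) :
    Ex (fun u : Fin k → Bool => |Dd i (fun u => F (val u)) u|) ≤ L * (1 / 2) ^ (i : ℕ) :=
  (abits_one_bit F hF i).trans (mul_le_mul_of_nonneg_right hL (by positivity))

private theorem abits_Dd_le {k : ℕ} (F : ℕ → ℝ) {L : ℝ} (hF : Monotone F)
    (hL : F (2 ^ k - 1) - F 0 ≤ L) (u : Fin k → Bool) (i : Fin k) :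
    |Dd i (fun u => F (val u)) u| ≤ L := by
  rw [abits_mono_val F hF]
  have h1 := hF (Nat.le_sub_one_of_lt (val_lt (Function.update u i true)))
  have h2 := hF (Nat.zero_le (val (Function.update u i false)))
  linarith

/-- Threshold.  PROOF.  The difference vanishes if `val (i→0) ≥ m`; it is at most `L`; `Pr_clear`. -/
theorem one_bit' {k : ℕ} (F : ℕ → ℝ) {L : ℝ} (hF : Monotone F) (hL : F (2 ^ k - 1) - F 0 ≤ L)
    {m : ℕ} (hm : ∀ j, m ≤ j → F j = F m) (i : Fin k) :
    Ex (fun u : Fin k → Bool => |Dd i (fun u => F (val u)) u|)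
      ≤ 2 * L * Pr (fun u : Fin k → Bool => val u < m) := by
  have hL0 : 0 ≤ L := (sub_nonneg.2 (hF (Nat.zero_le _))).trans hL
  have h1 : Ex (fun u : Fin k → Bool => |Dd i (fun u => F (val u)) u|)
      ≤ L * Pr (fun u : Fin k → Bool => val (Function.update u i false) < m) := by
    unfold Pr
    rw [← Ex_mul_left]
    refine Ex_mono fun u => ?_
    by_cases h : val (Function.update u i false) < m
    · rw [if_pos h, mul_one]
      exact abits_Dd_le F hF hL u i
    · rw [if_neg h, mul_zero, abits_mono_val F hF, hm _ (not_lt.1 h), hm (val _), sub_self]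
      rw [val_update]
      exact (not_lt.1 h).trans (Nat.le_add_right _ _)
  have h2 := mul_le_mul_of_nonneg_left (Pr_clear i m) hL0
  linarith

private theorem abits_Pr_lt {k m : ℕ} (hmk : m ≤ 2 ^ k) :
    Pr (fun u : Fin k → Bool => val u < m) = (m : ℝ) / 2 ^ k := by
  have h0 : Pr (fun u : Fin k → Bool => val u < m)
      = Ex (fun u : Fin k → Bool => (fun j : ℕ => if j < m then (1 : ℝ) else 0) (val u)) := by
    unfold Pr
    refine Ex_congr fun u => ?_
    by_cases h : val u < m <;> simp [h]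
  rw [h0, Ex_val (fun j : ℕ => if j < m then (1 : ℝ) else 0)]
  congr 1
  rw [← sum_filter, sum_const, nsmul_eq_mul, mul_one]
  congr 1
  have : (range (2 ^ k)).filter (fun j => j < m) = range m := by
    ext j; simp only [mem_filter, mem_range]; omega
  rw [this, card_range]

private theorem abits_geom (L θ : ℝ) (hL : 0 ≤ L) (hθ : 0 < θ) (hθ1 : θ ≤ 1) (k : ℕ) (a : ℕ → ℝ)
    (h1 : ∀ i, a i ≤ L * (1 / 2) ^ i) (h2 : ∀ i, a i ≤ 2 * L * θ) :
    ∑ i ∈ range k, a i ≤ 8 * L * (θ * (1 + Real.log (1 / θ))) := by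
  have hlog2 : (0.6931471803 : ℝ) < Real.log 2 := Real.log_two_gt_d9
  have hinv : 1 ≤ 1 / θ := by rw [le_div_iff₀ hθ]; linarith
  have hlog : 0 ≤ Real.log (1 / θ) := Real.log_nonneg hinv
  set s := ⌊Real.log (1 / θ) / Real.log 2⌋₊ with hs
  have hdiv : 0 ≤ Real.log (1 / θ) / Real.log 2 := div_nonneg hlog (by linarith)
  have hs1 : (s : ℝ) ≤ Real.log (1 / θ) / Real.log 2 := Nat.floor_le hdiv
  have hs2 : Real.log (1 / θ) / Real.log 2 < s + 1 := Nat.lt_floor_add_one _
  have hs3 : (s : ℝ) * Real.log 2 ≤ Real.log (1 / θ) := by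
    rwa [le_div_iff₀ (by linarith)] at hs1
  -- `(1/2)^(s+1) ≤ θ`
  have hs4 : (1 / 2 : ℝ) ^ (s + 1) ≤ θ := by
    have h3 : Real.log (1 / θ) ≤ (s + 1 : ℕ) * Real.log 2 := by
      rw [div_lt_iff₀ (by linarith)] at hs2
      push_cast
      exact hs2.le
    rw [← Real.log_pow] at h3
    have h4 : 1 / θ ≤ (2 : ℝ) ^ (s + 1) :=
      (Real.log_le_log_iff (by positivity) (by positivity)).1 h3
    rw [one_div_pow, div_le_iff₀ (by positivity)]
    rw [div_le_iff₀ hθ] at h4
    linarith
  have hsum : ∀ k : ℕ, ∑ i ∈ range k, a i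
      ≤ 2 * L * θ * (min k (s + 1) : ℕ) + 2 * L * ((1 / 2) ^ (s + 1) - (1 / 2) ^ (max k (s + 1))) := by
    intro k
    induction k with
    | zero =>
      simp
    | succ k ih =>
      rw [sum_range_succ]
      rcases Nat.lt_or_ge k (s + 1) with hk | hk
      · rw [min_eq_left hk.le, max_eq_right hk.le] at ih
        rw [min_eq_left (by omega : k + 1 ≤ s + 1), max_eq_right (by omega : k + 1 ≤ s + 1)]
        have := h2 k
        push_cast
        linarith
      · rw [min_eq_right hk, max_eq_left hk] at ih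
        rw [min_eq_right (by omega : s + 1 ≤ k + 1), max_eq_left (by omega : s + 1 ≤ k + 1)]
        have := h1 k
        rw [pow_succ (1 / 2 : ℝ) k]
        linarith
  have h5 := hsum k
  have h6 : ((min k (s + 1) : ℕ) : ℝ) ≤ s + 1 := by
    have : min k (s + 1) ≤ s + 1 := min_le_right _ _
    exact_mod_cast this
  have h7 : (0 : ℝ) ≤ (1 / 2) ^ (max k (s + 1)) := by positivity
  have hLθ : 0 ≤ L * θ := mul_nonneg hL hθ.le
  have h8 : 2 * L * θ * (min k (s + 1) : ℕ) ≤ 2 * (L * θ) * (s + 1) := by
    have := mul_le_mul_of_nonneg_left h6 hLθ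
    linarith
  have h9 : 2 * L * ((1 / 2) ^ (s + 1) - (1 / 2) ^ (max k (s + 1))) ≤ 2 * (L * θ) := by
    have h10 : (1 / 2 : ℝ) ^ (s + 1) - (1 / 2) ^ (max k (s + 1)) ≤ θ := by linarith
    have := mul_le_mul_of_nonneg_left h10 hL
    linarith
  have h11 : (s : ℝ) ≤ 2 * Real.log (1 / θ) := by
    have : (s : ℝ) * (1 / 2) ≤ s * Real.log 2 :=
      mul_le_mul_of_nonneg_left (by linarith) (Nat.cast_nonneg _)
    linarith
  have h12 : 2 * (L * θ) * (s + 1) + 2 * (L * θ) ≤ (L * θ) * (8 * (1 + Real.log (1 / θ))) := by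
    have h13 : 2 * ((s : ℝ) + 1) + 2 ≤ 8 * (1 + Real.log (1 / θ)) := by linarith
    have := mul_le_mul_of_nonneg_left h13 hLθ
    linarith
  calc ∑ i ∈ range k, a i ≤ 2 * (L * θ) * (s + 1) + 2 * (L * θ) := by linarith
    _ ≤ (L * θ) * (8 * (1 + Real.log (1 / θ))) := h12
    _ = 8 * L * (θ * (1 + Real.log (1 / θ))) := by ring

open Classical in
/-- **One edge.**  PROOF.  With `θ = m/2^k` (`m ≤ 2^k`; `m = 0` trivial): `∑_i min (2 L θ) (L 2^-i) ≤ 8 L θ (1 + log (1/θ))` and
`θ (1 + log (1/θ)) ≤ E[1_{val < m} (1 + log (2^k/(val + 1)))]` because `val + 1 ≤ m`. -/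
theorem one_edge {k : ℕ} (F : ℕ → ℝ) {L : ℝ} (hL0 : 0 ≤ L) (hF : Monotone F)
    (hL : F (2 ^ k - 1) - F 0 ≤ L) {m : ℕ} (hmk : m ≤ 2 ^ k) (hm : ∀ j, m ≤ j → F j = F m) :
    ∑ i, Ex (fun u : Fin k → Bool => |Dd i (fun u => F (val u)) u|)
      ≤ 8 * L * Ex (fun u : Fin k → Bool =>
        if val u < m then 1 + Real.log (2 ^ k / (val u + 1)) else 0) := by
  have hPr := abits_Pr_lt hmk
  have hpow : (0 : ℝ) < 2 ^ k := by positivity
  rcases Nat.eq_zero_or_pos m with h0 | hpos
  · subst h0
    have h1 : ∀ i : Fin k, Ex (fun u : Fin k → Bool => |Dd i (fun u => F (val u)) u|) ≤ 0 := by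
      intro i
      have := one_bit' F hF hL hm i
      rw [hPr] at this
      simpa using this
    refine (sum_nonpos fun i _ => h1 i).trans ?_
    refine mul_nonneg (by linarith) (Ex_nonneg fun u => ?_)
    simp
  have hm0 : (0 : ℝ) < m := by exact_mod_cast hpos
  set θ : ℝ := (m : ℝ) / 2 ^ k with hθdef
  have hθ : 0 < θ := div_pos hm0 hpow
  have hθ1 : θ ≤ 1 := by
    rw [hθdef, div_le_one hpow]
    exact_mod_cast hmk
  let a : ℕ → ℝ := fun i => if h : i < k then
    Ex (fun u : Fin k → Bool => |Dd ⟨i, h⟩ (fun u => F (val u)) u|) else 0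
  have ha1 : ∀ i, a i ≤ L * (1 / 2) ^ i := by
    intro i
    by_cases h : i < k
    · simp only [a, dif_pos h]
      exact one_bit F hF hL ⟨i, h⟩
    · simp only [a, dif_neg h]
      positivity
  have ha2 : ∀ i, a i ≤ 2 * L * θ := by
    intro i
    by_cases h : i < k
    · simp only [a, dif_pos h]
      have := one_bit' F hF hL hm ⟨i, h⟩
      rwa [hPr] at this
    · simp only [a, dif_neg h]
      positivity
  have h3 := abits_geom L θ hL0 hθ hθ1 k a ha1 ha2
  have h4 : ∑ i : Fin k, Ex (fun u : Fin k → Bool => |Dd i (fun u => F (val u)) u|)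
      = ∑ i ∈ range k, a i := by
    rw [Finset.sum_range]
    refine sum_congr rfl fun i _ => ?_
    simp only [a, dif_pos i.2]
  rw [h4]
  refine h3.trans (mul_le_mul_of_nonneg_left ?_ (by linarith))
  have h5 : θ * (1 + Real.log (1 / θ))
      = Ex (fun u : Fin k → Bool => (if val u < m then (1 : ℝ) else 0) * (1 + Real.log (1 / θ))) := by
    rw [Ex_mul_right]
    congr 1
    rw [← hPr]
    unfold Pr
    refine Ex_congr fun u => ?_
    by_cases h : val u < m <;> simp [h]
  rw [h5]
  refine Ex_mono fun u => ?_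
  by_cases h : val u < m
  · rw [if_pos h, if_pos h, one_mul]
    have h6 : 1 / θ ≤ 2 ^ k / ((val u : ℝ) + 1) := by
      rw [hθdef, one_div_div]
      refine div_le_div_of_nonneg_left hpow.le (by positivity) ?_
      exact_mod_cast h
    have := Real.log_le_log (by positivity) h6
    linarith
  · rw [if_neg h, if_neg h, zero_mul]

open Classical in
/-- The quadratic version.  PROOF.  `(Dd)² ≤ L |Dd|`. -/
theorem one_edge_sq {k : ℕ} (F : ℕ → ℝ) {L : ℝ} (hL0 : 0 ≤ L) (hF : Monotone F)
    (hL : F (2 ^ k - 1) - F 0 ≤ L) {m : ℕ} (hmk : m ≤ 2 ^ k) (hm : ∀ j, m ≤ j → F j = F m) :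
    ∑ i, Ex (fun u : Fin k → Bool => Dd i (fun u => F (val u)) u ^ 2)
      ≤ 8 * L ^ 2 * Ex (fun u : Fin k → Bool =>
        if val u < m then 1 + Real.log (2 ^ k / (val u + 1)) else 0) := by
  have h1 : ∀ i : Fin k, Ex (fun u : Fin k → Bool => Dd i (fun u => F (val u)) u ^ 2)
      ≤ L * Ex (fun u : Fin k → Bool => |Dd i (fun u => F (val u)) u|) := by
    intro i
    rw [← Ex_mul_left]
    refine Ex_mono fun u => ?_
    have h2 := abits_Dd_le F hF hL u i
    rw [← sq_abs, sq]
    exact mul_le_mul_of_nonneg_right h2 (abs_nonneg _)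
  have h3 := mul_le_mul_of_nonneg_left (one_edge F hL0 hF hL hmk hm) hL0
  calc ∑ i, Ex (fun u : Fin k → Bool => Dd i (fun u => F (val u)) u ^ 2)
      ≤ ∑ i, L * Ex (fun u : Fin k → Bool => |Dd i (fun u => F (val u)) u|) :=
        sum_le_sum fun i _ => h1 i
    _ = L * ∑ i, Ex (fun u : Fin k → Bool => |Dd i (fun u => F (val u)) u|) := by
        rw [mul_sum]
    _ ≤ _ := h3
    _ = _ := by ring

end Pool.Agent.W_1b8d5d_h85
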