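import Pool.Agent.W_1b8d5d_h85.ABits
import Pool.Agent.W_1b8d5d_h85.ATor

/-!
MP_1b8d5d_pr, part (A), variance: the passage time as a function of the weight of one edge of the torus.
-/

set_option autoImplicit false

namespace Pool.Agent.W_1b8d5d_h85

open Finset

/-- The periodic environment of a configuration of bits. -/
def benv (m : ℕ) {k : ℕ} (c : ℕ → ℝ) (ω : TE m → Fin k → Bool) : Env := fun e => c (val (ω (pr m e)))

theorem benv_Bd {a b : ℝ} {m k : ℕ} {c : ℕ → ℝ} (hc : ∀ j, a ≤ c j ∧ c j ≤ b) (ω : TE m → Fin k → Bool) :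
    Bd a b (benv m c ω) := fun _ => hc _

/-- Averages of the torus model are averages over the bits.  PROOF.  `Ex_equiv` for the equivalence
`(TE m → Fin k → Bool) ≃ (TE m → Fin (2 ^ k))` which is `val` in every coordinate (`val_lt`, `val_inj`, `val_surj`,
`Equiv.ofBijective`, `Equiv.piCongrRight` or `Equiv.arrowCongr`). -/
theorem tor_E_bits {a b : ℝ} (m k : ℕ) [NeZero m] (c : ℕ → ℝ) (hc : ∀ j, a ≤ c j ∧ c j ≤ b) (F : Env → ℝ) :
    (tor m (2 ^ k) c hc).E F = Ex fun ω : TE m → Fin k → Bool => F (benv m c ω) := by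
  have hbij : Function.Bijective (fun u : Fin k → Bool => (⟨val u, val_lt u⟩ : Fin (2 ^ k))) := by
    refine ⟨fun u v h => val_inj (congrArg Fin.val h), fun j => ?_⟩
    obtain ⟨u, hu⟩ := val_surj j.2
    exact ⟨u, Fin.ext hu⟩
  rw [tor_E, ← Ex_equiv (Equiv.arrowCongr (Equiv.refl (TE m)) (Equiv.ofBijective _ hbij))
    (fun ω : TE m → Fin (2 ^ k) => F (tenv m c ω))]
  refine Ex_congr fun ω => ?_
  rfl

/-- The edges of a geodesic are near its starting point.  PROOF.  `wedges_support` (Grid3), `SimpleGraph.Walk.mem_support_iff_exists_getVert`,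
`geo_near`. -/
theorem geo_edges_near {a b : ℝ} (ha : 0 < a) {τ : Env} (hτ : Bd a b τ) {x y : V} {w : grid.Walk x y}
    (hw : IsGeo τ w) {e : Edge} (he : e ∈ wedges w) : nm (e.1 - x) ≤ b / a * nm (y - x) := by
  obtain ⟨n, hn, -⟩ := SimpleGraph.Walk.mem_support_iff_exists_getVert.1 (wedges_support w he).1
  have h := geo_near hτ ha hw n
  rwa [hn] at h

/-- `t` is used by every geodesic from `x` to `y`. -/
def UsedT (m : ℕ) (τ : Env) (x y : V) (t : TE m) : Prop :=
  ∀ w : grid.Walk x y, IsGeo τ w → ∃ e ∈ wedges w, pr m e = t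

/-- The passage time as a function of the number at `t` (constant from `2 ^ k - 1` on). -/
noncomputable def FT (m : ℕ) {k : ℕ} (c : ℕ → ℝ) (ω : TE m → Fin k → Bool) (t : TE m) (x y : V) (j : ℕ) : ℝ :=
  T (fun e => if pr m e = t then c (min j (2 ^ k - 1)) else benv m c ω e) x y

section

variable {a b : ℝ} {m k : ℕ} {c : ℕ → ℝ} (ω : TE m → Fin k → Bool) (t : TE m) (x y : V)

/-- the environment with the number `j` at `t` -/
private noncomputable def ABks1_env (m : ℕ) {k : ℕ} (c : ℕ → ℝ) (ω : TE m → Fin k → Bool) (t : TE m) (j : ℕ) : Env :=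
  fun e => if pr m e = t then c (min j (2 ^ k - 1)) else benv m c ω e

private theorem ABks1_FT (j : ℕ) : FT m c ω t x y j = T (ABks1_env m c ω t j) x y := rfl

private theorem ABks1_update (u : Fin k → Bool) :
    benv m c (Function.update ω t u) = ABks1_env m c ω t (val u) := by
  have h := val_lt u
  have h2 : min (val u) (2 ^ k - 1) = val u := min_eq_left (by omega)
  funext e
  unfold benv ABks1_env
  by_cases he : pr m e = t
  · rw [if_pos he, h2, he, Function.update_self]
  · rw [if_neg he, Function.update_of_ne he]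
    rfl

private theorem ABks1_Bd (hc : ∀ j, a ≤ c j ∧ c j ≤ b) (j : ℕ) : Bd a b (ABks1_env m c ω t j) := by
  intro e
  unfold ABks1_env
  split_ifs
  · exact hc _
  · exact benv_Bd hc ω e

/-- PROOF.  `val_lt`; the two environments are equal. -/
theorem T_update (u : Fin k → Bool) : T (benv m c (Function.update ω t u)) x y = FT m c ω t x y (val u) := by
  rw [ABks1_update]
  rfl

/-- PROOF.  `T_mono`. -/
theorem FT_mono (ha : 0 ≤ a) (hc : ∀ j, a ≤ c j ∧ c j ≤ b) (hcm : Monotone c) : Monotone (FT m c ω t x y) := by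
  intro i j hij
  rw [ABks1_FT, ABks1_FT]
  refine T_mono ha (ABks1_Bd ω t hc i) (fun e => ?_) x y
  unfold ABks1_env
  split_ifs
  · exact hcm (min_le_min_right _ hij)
  · exact le_rfl

/-- PROOF.  Take a geodesic for the number `0`; its edges are within `b / a * nm (y - x)` of `x` (`geo_edges_near`), so by `pr_inj` at
most one of them is projected to `t` (`wedges_nodup`); so its cost increases by at most `b - a`. -/
theorem FT_range (ha : 0 < a) (hc : ∀ j, a ≤ c j ∧ c j ≤ b) (hcm : Monotone c)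
    (hm : 2 * (b / a * nm (y - x)) < m) : FT m c ω t x y (2 ^ k - 1) - FT m c ω t x y 0 ≤ b - a := by
  classical
  have hab : a ≤ b := (hc 0).1.trans (hc 0).2
  rw [ABks1_FT, ABks1_FT]
  obtain ⟨w, hw⟩ := exists_geo (ABks1_Bd ω t hc 0) ha x y
  have h1 := T_le_cost (ABks1_Bd ω t hc (2 ^ k - 1)) ha.le w
  rw [← hw.2]
  have h2 : cost (ABks1_env m c ω t (2 ^ k - 1)) w - cost (ABks1_env m c ω t 0) w ≤ b - a := by
    rw [cost_path _ hw.1, cost_path _ hw.1, ← sum_sub_distrib]
    have h3 : ∀ e ∈ (wedges w).toFinset, ABks1_env m c ω t (2 ^ k - 1) e - ABks1_env m c ω t 0 e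
        ≤ if pr m e = t then b - a else 0 := by
      intro e _
      unfold ABks1_env
      by_cases he : pr m e = t
      · rw [if_pos he, if_pos he, if_pos he]
        have h4 := (hc (min (2 ^ k - 1) (2 ^ k - 1))).2
        have h5 := (hc (min 0 (2 ^ k - 1))).1
        linarith
      · rw [if_neg he, if_neg he, if_neg he, sub_self]
    refine (sum_le_sum h3).trans ?_
    rw [← sum_filter, sum_const, nsmul_eq_mul]
    have h6 : ((wedges w).toFinset.filter (fun e => pr m e = t)).card ≤ 1 := by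
      rw [card_le_one]
      intro e he e' he'
      rw [mem_filter, List.mem_toFinset] at he he'
      exact pr_inj hm (geo_edges_near ha (ABks1_Bd ω t hc 0) hw he.1)
        (geo_edges_near ha (ABks1_Bd ω t hc 0) hw he'.1) (he.2.trans he'.2.symm)
    have h7 : (((wedges w).toFinset.filter (fun e => pr m e = t)).card : ℝ) ≤ 1 := by exact_mod_cast h6
    have h8 := mul_le_mul_of_nonneg_right h7 (sub_nonneg.2 hab)
    linarith
  linarith

/-- The threshold: the least number `M < 2 ^ k` for which some geodesic (for the number `M` at `t`) does not use `t`; `M = 2 ^ k` if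
there is none.  PROOF.  For `j ≥ M` this geodesic still has the same cost, so `T j ≤ T M`; monotonicity. -/
theorem FT_threshold (ha : 0 < a) (hc : ∀ j, a ≤ c j ∧ c j ≤ b) (hcm : Monotone c) :
    ∃ M ≤ 2 ^ k, (∀ j, M ≤ j → FT m c ω t x y j = FT m c ω t x y M) ∧
      ∀ u : Fin k → Bool, val u < M → UsedT m (benv m c (Function.update ω t u)) x y t := by
  classical
  by_cases hex : ∃ j, j < 2 ^ k ∧ ¬ UsedT m (ABks1_env m c ω t j) x y t
  · obtain ⟨M, hMdef⟩ : ∃ M, M = Nat.find hex := ⟨_, rfl⟩
    have hspec := Nat.find_spec hex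
    rw [← hMdef] at hspec
    obtain ⟨hM1, hM2⟩ := hspec
    refine ⟨M, hM1.le, fun j hj => ?_, fun u hu => ?_⟩
    · refine le_antisymm ?_ (FT_mono ω t x y ha.le hc hcm hj)
      unfold UsedT at hM2
      push Not at hM2
      obtain ⟨w, hw, hwt⟩ := hM2
      rw [ABks1_FT, ABks1_FT, ← hw.2]
      refine (T_le_cost (ABks1_Bd ω t hc j) ha.le w).trans (le_of_eq (cost_congr w fun e he => ?_))
      unfold ABks1_env
      rw [if_neg (hwt e he), if_neg (hwt e he)]
    · rw [hMdef] at hu
      have h := Nat.find_min hex hu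
      rw [ABks1_update]
      by_contra h2
      exact h ⟨val_lt u, h2⟩
  · push Not at hex
    refine ⟨2 ^ k, le_rfl, fun j hj => ?_, fun u hu => ?_⟩
    · unfold FT
      have h1 : min j (2 ^ k - 1) = 2 ^ k - 1 := min_eq_right ((Nat.sub_le _ _).trans hj)
      have h2 : min (2 ^ k) (2 ^ k - 1) = 2 ^ k - 1 := min_eq_right (Nat.sub_le _ _)
      rw [h1, h2]
    · rw [ABks1_update]
      exact hex _ (val_lt u)

private theorem ABks1_log (u : Fin k → Bool) : 0 ≤ 1 + Real.log (2 ^ k / ((val u : ℝ) + 1)) := by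
  have h := val_lt u
  have h1 : ((val u : ℝ) + 1) ≤ 2 ^ k := by exact_mod_cast h
  have h2 : (0 : ℝ) < (val u : ℝ) + 1 := by positivity
  have h3 : (1 : ℝ) ≤ 2 ^ k / ((val u : ℝ) + 1) := by
    rw [le_div_iff₀ h2]
    linarith
  have := Real.log_nonneg h3
  linarith

open Classical in
private theorem ABks1_cmp {M : ℕ}
    (hM : ∀ u : Fin k → Bool, val u < M → UsedT m (benv m c (Function.update ω t u)) x y t) :
    Ex (fun u : Fin k → Bool => if val u < M then 1 + Real.log (2 ^ k / ((val u : ℝ) + 1)) else 0)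
      ≤ Ex (fun u : Fin k → Bool => if UsedT m (benv m c (Function.update ω t u)) x y t
        then 1 + Real.log (2 ^ k / (val u + 1)) else 0) := by
  refine Ex_mono fun u => ?_
  by_cases h : val u < M
  · rw [if_pos h, if_pos (hM u h)]
  · rw [if_neg h]
    split_ifs
    · exact ABks1_log u
    · exact le_rfl

open Classical in
/-- PROOF.  `one_edge` with `F = FT m c ω t x y`, `L = b - a`, `M` from `FT_threshold`; `Ex_mono` (`1 + log (2 ^ k / (val u + 1)) ≥ 1 ≥ 0`). -/
theorem edge_sum (ha : 0 < a) (hc : ∀ j, a ≤ c j ∧ c j ≤ b) (hcm : Monotone c)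
    (hm : 2 * (b / a * nm (y - x)) < m) :
    ∑ i, Ex (fun u : Fin k → Bool => |Dd i (fun u => T (benv m c (Function.update ω t u)) x y) u|)
      ≤ 8 * (b - a) * Ex (fun u : Fin k → Bool => if UsedT m (benv m c (Function.update ω t u)) x y t
        then 1 + Real.log (2 ^ k / (val u + 1)) else 0) := by
  have hab : 0 ≤ b - a := sub_nonneg.2 ((hc 0).1.trans (hc 0).2)
  obtain ⟨M, hM1, hM2, hM3⟩ := FT_threshold ω t x y ha hc hcm
  have h := one_edge (FT m c ω t x y) hab (FT_mono ω t x y ha.le hc hcm)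
    (FT_range ω t x y ha hc hcm hm) hM1 hM2
  have e : (fun u : Fin k → Bool => T (benv m c (Function.update ω t u)) x y)
      = fun u => FT m c ω t x y (val u) := funext fun u => T_update ω t x y u
  rw [e]
  refine h.trans (mul_le_mul_of_nonneg_left ?_ (by positivity))
  refine le_trans (le_of_eq (Ex_congr fun u => ?_)) (ABks1_cmp ω t x y hM3)
  split_ifs <;> rfl

open Classical in
/-- PROOF.  `one_edge_sq`. -/
theorem edge_sum_sq (ha : 0 < a) (hc : ∀ j, a ≤ c j ∧ c j ≤ b) (hcm : Monotone c)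
    (hm : 2 * (b / a * nm (y - x)) < m) :
    ∑ i, Ex (fun u : Fin k → Bool => Dd i (fun u => T (benv m c (Function.update ω t u)) x y) u ^ 2)
      ≤ 8 * (b - a) ^ 2 * Ex (fun u : Fin k → Bool => if UsedT m (benv m c (Function.update ω t u)) x y t
        then 1 + Real.log (2 ^ k / (val u + 1)) else 0) := by
  have hab : 0 ≤ b - a := sub_nonneg.2 ((hc 0).1.trans (hc 0).2)
  obtain ⟨M, hM1, hM2, hM3⟩ := FT_threshold ω t x y ha hc hcm
  have h := one_edge_sq (FT m c ω t x y) hab (FT_mono ω t x y ha.le hc hcm)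
    (FT_range ω t x y ha hc hcm hm) hM1 hM2
  have e : (fun u : Fin k → Bool => T (benv m c (Function.update ω t u)) x y)
      = fun u => FT m c ω t x y (val u) := funext fun u => T_update ω t x y u
  rw [e]
  refine h.trans (mul_le_mul_of_nonneg_left ?_ (by positivity))
  refine le_trans (le_of_eq (Ex_congr fun u => ?_)) (ABks1_cmp ω t x y hM3)
  split_ifs <;> rfl

/-- PROOF.  `one_bit'`, `Pr_mono`. -/
theorem edge_one (ha : 0 < a) (hc : ∀ j, a ≤ c j ∧ c j ≤ b) (hcm : Monotone c)
    (hm : 2 * (b / a * nm (y - x)) < m) (i : Fin k) :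
    Ex (fun u : Fin k → Bool => |Dd i (fun u => T (benv m c (Function.update ω t u)) x y) u|)
      ≤ 2 * (b - a) * Pr (fun u : Fin k → Bool => UsedT m (benv m c (Function.update ω t u)) x y t) := by
  have hab : 0 ≤ b - a := sub_nonneg.2 ((hc 0).1.trans (hc 0).2)
  obtain ⟨M, hM1, hM2, hM3⟩ := FT_threshold ω t x y ha hc hcm
  have h := one_bit' (FT m c ω t x y) (FT_mono ω t x y ha.le hc hcm)
    (FT_range ω t x y ha hc hcm hm) hM2 i
  have e : (fun u : Fin k → Bool => T (benv m c (Function.update ω t u)) x y)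
      = fun u => FT m c ω t x y (val u) := funext fun u => T_update ω t x y u
  rw [e]
  exact h.trans (mul_le_mul_of_nonneg_left (Pr_mono hM3) (by positivity))

end

end Pool.Agent.W_1b8d5d_h85
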