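import Pool.Agent.W_1b8d5d_h85.LogSob

/-!
MP_1b8d5d_pr, proofs row 571, (1d): the Falik-Samorodnitsky inequality.
-/

set_option autoImplicit false

namespace Pool.Agent.W_1b8d5d_h85

open Finset

/-- PROOF.  `W = V²/E V²`: `E[V² log V²] - E V² log E V² ≥ E V² log (E V²/(E |V|)²)` is
`E[W log (1/|V|)] ≤ log E[W/|V|] = log (E|V|/E V²)` (Jensen for the concave `log` and the weights `W` on `V ≠ 0`). -/
theorem Ent_sq_ge {Ω : Type} [Fintype Ω] [Nonempty Ω] (U : Ω → ℝ) :
    Ex (fun ω => U ω ^ 2) * Real.log (Ex (fun ω => U ω ^ 2) / Ex (fun ω => |U ω|) ^ 2)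
      ≤ Ent fun ω => U ω ^ 2 := by
  have hm2 : 0 ≤ Ex fun ω => U ω ^ 2 := Ex_nonneg fun ω => sq_nonneg _
  have hm1 : 0 ≤ Ex fun ω => |U ω| := Ex_nonneg fun ω => abs_nonneg _
  have hc : (0 : ℝ) < Fintype.card Ω := card_pos'
  rcases hm2.eq_or_lt with h0 | hpos
  · -- all values are zero
    have hU : ∀ ω, U ω = 0 := by
      have h1 : ∑ ω, U ω ^ 2 = 0 := by
        have h2 : (∑ ω, U ω ^ 2) / (Fintype.card Ω : ℝ) = 0 := h0.symm
        rcases div_eq_zero_iff.1 h2 with h3 | h3
        · exact h3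
        · exact absurd h3 hc.ne'
      intro ω
      have h2 := (sum_eq_zero_iff_of_nonneg (fun ω _ => sq_nonneg (U ω))).1 h1 ω (mem_univ _)
      exact pow_eq_zero_iff (two_ne_zero) |>.1 h2
    rw [← h0, zero_mul]
    unfold Ent
    have h1 : ∀ ω, U ω ^ 2 * Real.log (U ω ^ 2) = 0 := fun ω => by rw [hU ω]; simp
    rw [Ex_congr h1, ← h0, Ex_const, zero_mul, sub_zero]
  · have hm1' : 0 < Ex fun ω => |U ω| := by
      rcases hm1.eq_or_lt with h0 | h
      · exfalso
        have h1 : ∑ ω, |U ω| = 0 := by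
          have h2 : (∑ ω, |U ω|) / (Fintype.card Ω : ℝ) = 0 := h0.symm
          rcases div_eq_zero_iff.1 h2 with h3 | h3
          · exact h3
          · exact absurd h3 hc.ne'
        have hU : ∀ ω, U ω ^ 2 = 0 := by
          intro ω
          have h2 := (sum_eq_zero_iff_of_nonneg (fun ω _ => abs_nonneg (U ω))).1 h1 ω (mem_univ _)
          have h3 : U ω = 0 := abs_eq_zero.1 h2
          rw [h3]; simp
        rw [Ex_congr hU, Ex_const] at hpos
        exact lt_irrefl _ hpos
      · exact h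
    set m2 := Ex fun ω => U ω ^ 2 with hm2d
    set m1 := Ex fun ω => |U ω| with hm1d
    have key : ∀ ω, U ω ^ 2 - |U ω| * (m2 / m1) + U ω ^ 2 * Real.log (m2 / m1) ≤
        U ω ^ 2 * Real.log |U ω| := by
      intro ω
      rcases eq_or_ne (U ω) 0 with h | h
      · rw [h]; simp
      · have ha : 0 < |U ω| := abs_pos.2 h
        have ht : 0 < |U ω| * m1 / m2 := by positivity
        have h1 := Real.one_sub_inv_le_log_of_pos ht
        have h2 : Real.log (|U ω| * m1 / m2) = Real.log |U ω| - Real.log (m2 / m1) := by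
          rw [Real.log_div (by positivity) hpos.ne', Real.log_mul ha.ne' hm1'.ne',
            Real.log_div hpos.ne' hm1'.ne']
          ring
        rw [h2] at h1
        have h3 : U ω ^ 2 * (1 - (|U ω| * m1 / m2)⁻¹) ≤
            U ω ^ 2 * (Real.log |U ω| - Real.log (m2 / m1)) :=
          mul_le_mul_of_nonneg_left h1 (sq_nonneg _)
        have h4 : U ω ^ 2 * (1 - (|U ω| * m1 / m2)⁻¹) = U ω ^ 2 - |U ω| * (m2 / m1) := by
          rw [← sq_abs (U ω)]
          field_simp
        rw [h4] at h3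
        linarith
    have h5 := Ex_mono key
    have h6 : Ex (fun ω => U ω ^ 2 - |U ω| * (m2 / m1) + U ω ^ 2 * Real.log (m2 / m1)) =
        m2 - m1 * (m2 / m1) + m2 * Real.log (m2 / m1) := by
      rw [Ex_add (fun ω => U ω ^ 2 - |U ω| * (m2 / m1)), Ex_sub, Ex_mul_right, Ex_mul_right]
    rw [h6] at h5
    have h7 : m1 * (m2 / m1) = m2 := by field_simp
    rw [h7, sub_self, zero_add] at h5
    unfold Ent
    rw [← hm2d]
    have h8 : ∀ ω, U ω ^ 2 * Real.log (U ω ^ 2) = 2 * (U ω ^ 2 * Real.log |U ω|) := by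
      intro ω
      have h9 : Real.log (U ω ^ 2) = 2 * Real.log |U ω| := by
        rw [Real.log_pow, ← Real.log_abs]
        push_cast
        ring
      rw [h9]
      ring
    rw [Ex_congr h8, Ex_mul_left]
    have h10 : Real.log (m2 / m1 ^ 2) = Real.log m2 - 2 * Real.log m1 := by
      rw [Real.log_div hpos.ne' (by positivity), Real.log_pow]
      push_cast
      ring
    have h11 : Real.log (m2 / m1) = Real.log m2 - Real.log m1 := Real.log_div hpos.ne' hm1'.ne'
    rw [h10]
    rw [h11] at h5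
    nlinarith

section FS

variable {J : Type} [Fintype J] [DecidableEq J]

private lemma FS_ExBool (f : Bool → ℝ) : Ex f = (f true + f false) / 2 := by
  unfold Ex
  simp

private lemma FS_avg (i : J) (f : (J → Bool) → ℝ) (ω : J → Bool) :
    avg i f ω = (f (Function.update ω i true) + f (Function.update ω i false)) / 2 := by
  unfold avg
  rw [FS_ExBool]

private lemma FS_avg_upd (i : J) (f : (J → Bool) → ℝ) (ω : J → Bool) (u : Bool) :
    avg i f (Function.update ω i u) = avg i f ω := by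
  rw [FS_avg, FS_avg, Function.update_idem, Function.update_idem]

private lemma FS_Dd_avg_self (i : J) (f : (J → Bool) → ℝ) (ω : J → Bool) :
    Dd i (avg i f) ω = 0 := by
  unfold Dd
  rw [FS_avg_upd, FS_avg_upd, sub_self]

private lemma FS_Dd_avg {i j : J} (h : i ≠ j) (f : (J → Bool) → ℝ) (ω : J → Bool) :
    Dd i (avg j f) ω = avg j (Dd i f) ω := by
  unfold Dd
  rw [FS_avg, FS_avg, FS_avg]
  rw [Function.update_comm h, Function.update_comm h, Function.update_comm h,
    Function.update_comm h]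
  ring

private lemma FS_Ex_avg (i : J) (f : (J → Bool) → ℝ) : Ex (avg i f) = Ex f := Ex_avg i f

private lemma FS_pyth (i : J) (g : (J → Bool) → ℝ) :
    Ex (fun ω => (g ω - avg i g ω) ^ 2) + Ex (fun ω => avg i g ω ^ 2) = Ex fun ω => g ω ^ 2 := by
  have h1 : Ex (fun ω => g ω * avg i g ω) = Ex fun ω => avg i g ω ^ 2 := by
    rw [← FS_Ex_avg i]
    refine Ex_congr fun ω => ?_
    rw [FS_avg, FS_avg_upd, FS_avg_upd]
    rw [FS_avg i g ω]
    ring
  have h2 : ∀ ω, (g ω - avg i g ω) ^ 2 = g ω ^ 2 - 2 * (g ω * avg i g ω) + avg i g ω ^ 2 :=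
    fun ω => by ring
  rw [Ex_congr h2, Ex_add, Ex_sub, Ex_mul_left, h1]
  ring

private lemma FS_energy (j : J) (g : (J → Bool) → ℝ) :
    (∑ i, Ex fun ω => Dd i (fun ω => g ω - avg j g ω) ω ^ 2) +
      (∑ i, Ex fun ω => Dd i (avg j g) ω ^ 2) = ∑ i, Ex fun ω => Dd i g ω ^ 2 := by
  rw [← sum_add_distrib]
  refine sum_congr rfl fun i _ => ?_
  rcases eq_or_ne i j with h | h
  · subst h
    have e1 : ∀ ω, Dd i (fun ω => g ω - avg i g ω) ω ^ 2 = Dd i g ω ^ 2 := by
      intro ω
      have : Dd i (fun ω => g ω - avg i g ω) ω = Dd i g ω - Dd i (avg i g) ω := by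
        unfold Dd; ring
      rw [this, FS_Dd_avg_self, sub_zero]
    have e2 : ∀ ω, Dd i (avg i g) ω ^ 2 = 0 := by
      intro ω
      rw [FS_Dd_avg_self]; ring
    rw [Ex_congr e1, Ex_congr e2, Ex_const, add_zero]
  · have e1 : ∀ ω, Dd i (fun ω => g ω - avg j g ω) ω ^ 2 = (Dd i g ω - avg j (Dd i g) ω) ^ 2 := by
      intro ω
      have : Dd i (fun ω => g ω - avg j g ω) ω = Dd i g ω - Dd i (avg j g) ω := by
        unfold Dd; ring
      rw [this, FS_Dd_avg h]
    have e2 : ∀ ω, Dd i (avg j g) ω ^ 2 = avg j (Dd i g) ω ^ 2 := by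
      intro ω
      rw [FS_Dd_avg h]
    rw [Ex_congr e1, Ex_congr e2, FS_pyth]

private lemma FS_abs (j : J) (g : (J → Bool) → ℝ) (ω : J → Bool) :
    |g ω - avg j g ω| = 1 / 2 * |Dd j g ω| := by
  rw [FS_avg]
  unfold Dd
  have h : g ω = g (Function.update ω j (ω j)) := by rw [Function.update_eq_self]
  rw [h]
  have hh : (1 / 2 : ℝ) = |(1 / 2 : ℝ)| := by norm_num
  cases ω j
  · rw [hh, ← abs_mul, ← abs_neg]
    congr 1
    ring
  · rw [hh, ← abs_mul]
    congr 1
    ring

private lemma FS_L1 (j k : J) (g : (J → Bool) → ℝ) :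
    Ex (fun ω => |Dd j (avg k g) ω|) ≤ Ex fun ω => |Dd j g ω| := by
  rcases eq_or_ne j k with h | h
  · subst h
    have e : ∀ ω, |Dd j (avg j g) ω| = 0 := by
      intro ω
      rw [FS_Dd_avg_self, abs_zero]
    rw [Ex_congr e, Ex_const]
    exact Ex_nonneg fun ω => abs_nonneg _
  · rw [← FS_Ex_avg k (fun ω => |Dd j g ω|)]
    refine Ex_mono fun ω => ?_
    rw [FS_Dd_avg h]
    exact abs_Ex_le _

/-- iterated averages -/
private noncomputable def FS_P (f : (J → Bool) → ℝ) : List J → (J → Bool) → ℝ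
  | [] => f
  | j :: L => avg j (FS_P f L)

private lemma FS_P_Ex (f : (J → Bool) → ℝ) (L : List J) : Ex (FS_P f L) = Ex f := by
  induction L with
  | nil => rfl
  | cons j L ih => exact (FS_Ex_avg j _).trans ih

private lemma FS_P_L1 (f : (J → Bool) → ℝ) (L : List J) (j : J) :
    Ex (fun ω => |Dd j (FS_P f L) ω|) ≤ Ex fun ω => |Dd j f ω| := by
  induction L with
  | nil => exact le_rfl
  | cons k L ih => exact (FS_L1 j k _).trans ih

private lemma FS_P_upd (f : (J → Bool) → ℝ) (L : List J) {i : J} (hi : i ∈ L) (ω : J → Bool)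
    (u : Bool) : FS_P f L (Function.update ω i u) = FS_P f L ω := by
  induction L generalizing ω with
  | nil => simp at hi
  | cons j L ih =>
    show avg j (FS_P f L) _ = avg j (FS_P f L) _
    rcases eq_or_ne i j with h | h
    · subst h
      exact FS_avg_upd _ _ _ _
    · have hi' : i ∈ L := by
        rcases List.mem_cons.1 hi with h1 | h1
        · exact absurd h1 h
        · exact h1
      rw [FS_avg, FS_avg, Function.update_comm h, Function.update_comm h, ih hi', ih hi']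

private lemma FS_const {h : (J → Bool) → ℝ} (hh : ∀ i ω u, h (Function.update ω i u) = h ω)
    (ω ω' : J → Bool) : h ω = h ω' := by
  have key : ∀ S : Finset J, h (fun i => if i ∈ S then ω i else ω' i) = h ω' := by
    intro S
    induction S using Finset.induction_on with
    | empty => simp
    | insert a S ha ih =>
      have e : (fun i => if i ∈ insert a S then ω i else ω' i) =
          Function.update (fun i => if i ∈ S then ω i else ω' i) a (ω a) := by
        funext i
        rcases eq_or_ne i a with h1 | h1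
        · subst h1
          simp
        · rw [Function.update_of_ne h1]
          simp [Finset.mem_insert, h1]
      rw [e, hh, ih]
  have := key univ
  simpa using this

private lemma FS_step (V : (J → Bool) → ℝ) {c : ℝ} (hc : 0 < c) :
    (Real.log c + 1) * (Ex fun ω => V ω ^ 2) - c * (Ex fun ω => |V ω|) ^ 2 ≤
      3 / 4 * ∑ i, Ex fun ω => Dd i V ω ^ 2 := by
  refine le_trans ?_ (Ent_cube V)
  refine le_trans ?_ (Ent_sq_ge V)
  set x := Ex fun ω => V ω ^ 2 with hx
  set m := Ex fun ω => |V ω| with hm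
  have hx0 : 0 ≤ x := Ex_nonneg fun ω => sq_nonneg _
  have hm0 : 0 ≤ m := Ex_nonneg fun ω => abs_nonneg _
  rcases hx0.eq_or_lt with h0 | hpos
  · rw [← h0]
    have : 0 ≤ c * m ^ 2 := by positivity
    simp only [mul_zero, zero_mul]
    linarith
  · rcases hm0.eq_or_lt with h1 | hmpos
    · exfalso
      have hcard : (0 : ℝ) < Fintype.card (J → Bool) := card_pos'
      have h2 : (∑ ω, |V ω|) / (Fintype.card (J → Bool) : ℝ) = 0 := h1.symm
      have h3 : ∑ ω, |V ω| = 0 := by
        rcases div_eq_zero_iff.1 h2 with h3 | h3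
        · exact h3
        · exact absurd h3 hcard.ne'
      have hU : ∀ ω, V ω ^ 2 = 0 := by
        intro ω
        have h4 := (sum_eq_zero_iff_of_nonneg (fun ω _ => abs_nonneg (V ω))).1 h3 ω (mem_univ _)
        have h5 : V ω = 0 := abs_eq_zero.1 h4
        rw [h5]; simp
      rw [hx, Ex_congr hU, Ex_const] at hpos
      exact lt_irrefl _ hpos
    · have hy : 0 < m ^ 2 := by positivity
      have ht : 0 < x / (c * m ^ 2) := by positivity
      have h1 := Real.one_sub_inv_le_log_of_pos ht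
      have h2 : Real.log (x / (c * m ^ 2)) = Real.log (x / m ^ 2) - Real.log c := by
        rw [Real.log_div hpos.ne' (by positivity), Real.log_mul hc.ne' hy.ne',
          Real.log_div hpos.ne' hy.ne']
        ring
      rw [h2] at h1
      have h3 : x * (1 - (x / (c * m ^ 2))⁻¹) ≤ x * (Real.log (x / m ^ 2) - Real.log c) :=
        mul_le_mul_of_nonneg_left h1 hx0
      have h4 : x * (1 - (x / (c * m ^ 2))⁻¹) = x - c * m ^ 2 := by
        field_simp
      rw [h4] at h3
      linarith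

private lemma FS_main (f : (J → Bool) → ℝ) {c : ℝ} (hc : 0 < c) (L : List J) :
    (Real.log c + 1) * ((Ex fun ω => f ω ^ 2) - Ex fun ω => FS_P f L ω ^ 2) -
      c * ((L.map fun j => (Ex fun ω => |Dd j f ω|) ^ 2 / 4).sum) ≤
      3 / 4 * ((∑ i, Ex fun ω => Dd i f ω ^ 2) - ∑ i, Ex fun ω => Dd i (FS_P f L) ω ^ 2) := by
  induction L with
  | nil => simp [FS_P]
  | cons j L ih =>
    have h1 := FS_step (fun ω => FS_P f L ω - avg j (FS_P f L) ω) hc
    have h2 := FS_pyth j (FS_P f L)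
    have h3 := FS_energy j (FS_P f L)
    have h4 : (Ex fun ω => |FS_P f L ω - avg j (FS_P f L) ω|) ^ 2 ≤
        (Ex fun ω => |Dd j f ω|) ^ 2 / 4 := by
      have e : Ex (fun ω => |FS_P f L ω - avg j (FS_P f L) ω|) =
          1 / 2 * Ex fun ω => |Dd j (FS_P f L) ω| := by
        rw [← Ex_mul_left]
        exact Ex_congr fun ω => FS_abs j _ ω
      rw [e]
      have h5 := FS_P_L1 f L j
      have h6 : 0 ≤ Ex fun ω => |Dd j (FS_P f L) ω| := Ex_nonneg fun ω => abs_nonneg _
      nlinarith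
    have e : FS_P f (j :: L) = avg j (FS_P f L) := rfl
    rw [e, List.map_cons, List.sum_cons]
    have h5 := mul_le_mul_of_nonneg_left h4 hc.le
    have h6 : (Ex fun ω => (FS_P f L ω - avg j (FS_P f L) ω) ^ 2) =
      (Ex fun ω => FS_P f L ω ^ 2) - Ex fun ω => avg j (FS_P f L) ω ^ 2 := by linarith
    rw [h6] at h1
    have h7 : (∑ i, Ex fun ω => Dd i (fun ω => FS_P f L ω - avg j (FS_P f L) ω) ω ^ 2) =
      (∑ i, Ex fun ω => Dd i (FS_P f L) ω ^ 2) - ∑ i, Ex fun ω => Dd i (avg j (FS_P f L)) ω ^ 2 := by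
      linarith
    rw [h7] at h1
    nlinarith

end FS

/-- PROOF.  Enumerate `J`; `V_j = A_1 ⋯ A_{j-1} (1 - A_j) f`, `f - E f = ∑ V_j` orthogonal, `E |V_j| ≤ (1/2) E |D_j f|`.
`Ent_cube` for `V_j`: `D_i V_j = 0` for `i < j`, and `∑_{j ≤ i} E (D_i V_j)² = E (D_i f)²` (`D_i V_i = A_{<i} D_i f`,
`D_i V_j = A_{<j} (1-A_j) D_i f` for `j < i`), so `∑_j Ent (V_j²) ≤ (3/4) ∑_i E (D_i f)²`.  `Ent_sq_ge` and the log sum
inequality `∑ x_j log (x_j/y_j) ≥ (∑ x_j) log (∑ x_j/∑ y_j)`, `x_j = E V_j²`, `y_j = (E|V_j|)²`. -/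
theorem falik_samorodnitsky {J : Type} [Fintype J] [DecidableEq J] (f : (J → Bool) → ℝ) :
    Vr f * Real.log (Vr f / ∑ i, Ex (fun ω => |Dd i f ω|) ^ 2) ≤ ∑ i, Ex fun ω => Dd i f ω ^ 2 := by
  set Z := ∑ i, Ex (fun ω => |Dd i f ω|) ^ 2 with hZ
  have hZ0 : 0 ≤ Z := sum_nonneg fun i _ => sq_nonneg _
  have hD0 : 0 ≤ ∑ i, Ex fun ω => Dd i f ω ^ 2 := sum_nonneg fun i _ => Ex_nonneg fun ω => sq_nonneg _
  have hX0 : 0 ≤ Vr f := Vr_nonneg f
  rcases hX0.eq_or_lt with h0 | hX
  · rw [← h0, zero_mul]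
    exact hD0
  rcases hZ0.eq_or_lt with h0 | hZpos
  · rw [← h0, div_zero, Real.log_zero, mul_zero]
    exact hD0
  have h := FS_main f (c := Vr f / Z) (by positivity) (univ : Finset J).toList
  have hconst : ∀ ω, FS_P f (univ : Finset J).toList ω = Ex f := by
    intro ω
    have h1 : ∀ ω', FS_P f (univ : Finset J).toList ω' = FS_P f (univ : Finset J).toList ω := by
      intro ω'
      exact FS_const (fun i ω u => FS_P_upd f _ (by simp) ω u) ω' ω
    have h2 := FS_P_Ex f (univ : Finset J).toList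
    rw [Ex_congr h1, Ex_const] at h2
    exact h2
  have e1 : (Ex fun ω => f ω ^ 2) - (Ex fun ω => FS_P f (univ : Finset J).toList ω ^ 2) = Vr f := by
    have h1 : ∀ ω, FS_P f (univ : Finset J).toList ω ^ 2 = Ex f ^ 2 := fun ω => by rw [hconst ω]
    rw [Ex_congr h1, Ex_const, Vr_eq]
  have e2 : ((univ : Finset J).toList.map fun j => (Ex fun ω => |Dd j f ω|) ^ 2 / 4).sum = Z / 4 := by
    rw [Finset.sum_map_toList, ← sum_div]
  have e3 : 0 ≤ ∑ i, Ex fun ω => Dd i (FS_P f (univ : Finset J).toList) ω ^ 2 :=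
    sum_nonneg fun i _ => Ex_nonneg fun ω => sq_nonneg _
  rw [e1, e2] at h
  have e4 : Vr f / Z * (Z / 4) = Vr f / 4 := by field_simp
  rw [e4] at h
  nlinarith

end Pool.Agent.W_1b8d5d_h85
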