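import Pool.Agent.W_1b8d5d_h85.EfronStein
import Pool.Agent.W_1b8d5d_h85.FS

/-!
MP_1b8d5d_pr, part (A), variance: blocks of bits.
-/

set_option autoImplicit false

namespace Pool.Agent.W_1b8d5d_h85

open Finset

variable {J : Type} [Fintype J] [DecidableEq J] {k : ℕ}

/-- The difference with respect to the bit `i` of the block `t`. -/
noncomputable def Db (t : J) (i : Fin k) (f : (J → Fin k → Bool) → ℝ) (ω : J → Fin k → Bool) : ℝ :=
  Dd i (fun u => f (Function.update ω t u)) (ω t)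

/-- Conditioning on the other blocks.  PROOF.  `Ex_avg t`: `Db t i f (update ω t u) = Dd i (fun u => f (update ω t u)) u`
(`Function.update_idem`, `Function.update_self`). -/
theorem Ex_Db (t : J) (i : Fin k) (f : (J → Fin k → Bool) → ℝ) (φ : ℝ → ℝ) :
    Ex (fun ω => φ (Db t i f ω)) = Ex fun ω : J → Fin k → Bool =>
      Ex fun u : Fin k → Bool => φ (Dd i (fun u => f (Function.update ω t u)) u) := by
  rw [← Ex_avg t (fun ω => φ (Db t i f ω))]
  refine Ex_congr fun ω => ?_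
  unfold avg
  refine Ex_congr fun u => ?_
  unfold Db
  simp only [Function.update_self, Function.update_idem]

/-- Linearity. -/
theorem Db_sum {ι : Type} (s : Finset ι) (r : ℝ) (t : J) (i : Fin k) (f : ι → (J → Fin k → Bool) → ℝ)
    (ω : J → Fin k → Bool) :
    Db t i (fun ω => r * ∑ y ∈ s, f y ω) ω = r * ∑ y ∈ s, Db t i (f y) ω := by
  unfold Db Dd
  rw [sum_sub_distrib]
  ring

/-- Currying of bit configurations. -/
def ABks2_e (J : Type) (k : ℕ) : (J × Fin k → Bool) ≃ (J → Fin k → Bool) := Equiv.curry J (Fin k) Bool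

theorem ABks2_Dd (t : J) (i : Fin k) (f : (J → Fin k → Bool) → ℝ) (w : J × Fin k → Bool) :
    Dd (t, i) (fun w => f (ABks2_e J k w)) w = Db t i f (ABks2_e J k w) := by
  unfold Db Dd
  have h : ∀ b : Bool, ABks2_e J k (Function.update w (t, i) b)
      = Function.update (ABks2_e J k w) t (Function.update (ABks2_e J k w t) i b) := by
    intro b
    funext s j
    show Function.update w (t, i) b (s, j) = _
    by_cases hs : s = t
    · subst hs
      rw [Function.update_self]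
      by_cases hj : j = i
      · subst hj
        rw [Function.update_self, Function.update_self]
      · rw [Function.update_of_ne hj, Function.update_of_ne (by simp [hj])]
        rfl
    · rw [Function.update_of_ne hs, Function.update_of_ne (by simp [hs])]
      rfl
  simp only [h]

theorem ABks2_Vr (f : (J → Fin k → Bool) → ℝ) : Vr (fun w => f (ABks2_e J k w)) = Vr f := by
  unfold Vr
  have h1 : Ex (fun w => f (ABks2_e J k w)) = Ex f := Ex_equiv (ABks2_e J k) f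
  rw [h1]
  exact Ex_equiv (ABks2_e J k) (fun ω => (f ω - Ex f) ^ 2)

/-- The inequality of Falik and Samorodnitsky for blocks of bits.  PROOF.  `falik_samorodnitsky` for `J × Fin k` and
`fun w => f (fun t i => w (t, i))` (`Equiv.curry`, `Ex_equiv`, `Fintype.sum_prod_type`). -/
theorem fs_block (f : (J → Fin k → Bool) → ℝ) :
    Vr f * Real.log (Vr f / ∑ t, ∑ i, Ex (fun ω => |Db t i f ω|) ^ 2)
      ≤ ∑ t, ∑ i, Ex fun ω => Db t i f ω ^ 2 := by
  have h := falik_samorodnitsky (fun w => f (ABks2_e J k w))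
  rw [ABks2_Vr, Fintype.sum_prod_type, Fintype.sum_prod_type] at h
  have e1 : ∀ (t : J) (i : Fin k), Ex (fun w => |Dd (t, i) (fun w => f (ABks2_e J k w)) w|)
      = Ex (fun ω => |Db t i f ω|) := fun t i => by
    simp only [ABks2_Dd]
    exact Ex_equiv (ABks2_e J k) (fun ω => |Db t i f ω|)
  have e2 : ∀ (t : J) (i : Fin k), Ex (fun w => Dd (t, i) (fun w => f (ABks2_e J k w)) w ^ 2)
      = Ex (fun ω => Db t i f ω ^ 2) := fun t i => by
    simp only [ABks2_Dd]
    exact Ex_equiv (ABks2_e J k) (fun ω => Db t i f ω ^ 2)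
  simp only [e1, e2] at h
  exact h

/-- The degenerate case.  PROOF.  All terms vanish, so `Db t i f = 0` everywhere, so changing one bit does not change `f`; `Vr f` is zero by
Efron-Stein (EfronStein.lean, for `J × Fin k` as above) or because `f` is constant. -/
theorem fs_zero (f : (J → Fin k → Bool) → ℝ) (h : ∑ t, ∑ i, Ex (fun ω => |Db t i f ω|) ^ 2 = 0) : Vr f = 0 := by
  have h1 : ∀ (t : J) (i : Fin k), Ex (fun ω => |Db t i f ω|) = 0 := by
    intro t i
    have h2 := (sum_eq_zero_iff_of_nonneg (fun t _ => sum_nonneg fun i _ => sq_nonneg _)).1 h t (mem_univ _)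
    have h3 := (sum_eq_zero_iff_of_nonneg (fun i _ => sq_nonneg _)).1 h2 i (mem_univ _)
    exact pow_eq_zero_iff (two_ne_zero) |>.1 h3
  have h4 : ∀ (t : J) (i : Fin k) (ω : J → Fin k → Bool), Db t i f ω = 0 := by
    intro t i ω
    have h5 : ∑ ω, |Db t i f ω| = 0 := by
      have h6 := h1 t i
      unfold Ex at h6
      rcases div_eq_zero_iff.1 h6 with h7 | h7
      · exact h7
      · exact absurd h7 (by simp [Fintype.card_ne_zero])
    exact abs_eq_zero.1 ((sum_eq_zero_iff_of_nonneg (fun ω _ => abs_nonneg _)).1 h5 ω (mem_univ _))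
  rw [← ABks2_Vr]
  refine le_antisymm ?_ (Vr_nonneg _)
  refine (efron_stein' (fun w => f (ABks2_e J k w))).trans (le_of_eq ?_)
  refine sum_eq_zero fun p _ => ?_
  have h7 : ∀ (w : J × Fin k → Bool) (u : Bool),
      f (ABks2_e J k (Function.update w p u)) - f (ABks2_e J k w) = 0 := by
    intro w u
    have h8 := ABks2_Dd p.1 p.2 f w
    rw [h4] at h8
    unfold Dd at h8
    have h9 : Function.update w p (w p) = w := Function.update_eq_self _ _
    have h10 : ∀ b b' : Bool, f (ABks2_e J k (Function.update w p b)) = f (ABks2_e J k (Function.update w p b')) := by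
      intro b b'
      have h11 : f (ABks2_e J k (Function.update w p true)) = f (ABks2_e J k (Function.update w p false)) := by
        linarith
      cases b <;> cases b' <;> first | rfl | exact h11 | exact h11.symm
    rw [h10 u (w p), h9, sub_self]
  have h12 : ∀ w : J × Fin k → Bool, Ex (fun u : Bool =>
      (max (f (ABks2_e J k (Function.update w p u)) - f (ABks2_e J k w)) 0) ^ 2) = 0 := by
    intro w
    rw [Ex_congr (g := fun _ => (0 : ℝ)) fun u => by rw [h7]; simp]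
    exact Ex_const 0
  rw [Ex_congr (g := fun _ => (0 : ℝ)) h12]
  exact Ex_const 0

/-- Averages of several functions: the inequalities.  PROOF.  `Db_sum`, triangle inequality; Cauchy-Schwarz
(`Finset.inner_mul_le_norm_mul_norm` or `inner_le_nnorm_mul_nnorm`, `sq_sum_le_card_mul_sum_sq`) for the squares;
`∑ x ^ 2 ≤ (max x) * ∑ x` for the third. -/
theorem avg_block {ι : Type} (s : Finset ι) (hs : s.Nonempty) (f : ι → (J → Fin k → Bool) → ℝ) {A B ε : ℝ}
    (hε0 : 0 ≤ ε)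
    (hA : ∀ y ∈ s, ∑ t, ∑ i, Ex (fun ω => Db t i (f y) ω ^ 2) ≤ A)
    (hB : ∀ y ∈ s, ∑ t, ∑ i, Ex (fun ω => |Db t i (f y) ω|) ≤ B)
    (hε : ∀ t i, ∑ y ∈ s, Ex (fun ω => |Db t i (f y) ω|) ≤ ε * s.card) :
    ∑ t, ∑ i, Ex (fun ω => Db t i (fun ω => (s.card : ℝ)⁻¹ * ∑ y ∈ s, f y ω) ω ^ 2) ≤ A ∧
    ∑ t, ∑ i, Ex (fun ω => |Db t i (fun ω => (s.card : ℝ)⁻¹ * ∑ y ∈ s, f y ω) ω|) ^ 2 ≤ ε * B := by
  have hc : (0 : ℝ) < s.card := by exact_mod_cast hs.card_pos
  have hci : (0 : ℝ) ≤ (s.card : ℝ)⁻¹ := (inv_pos.2 hc).le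
  constructor
  · have h1 : ∀ (t : J) (i : Fin k), Ex (fun ω => Db t i (fun ω => (s.card : ℝ)⁻¹ * ∑ y ∈ s, f y ω) ω ^ 2)
        ≤ (s.card : ℝ)⁻¹ * ∑ y ∈ s, Ex (fun ω => Db t i (f y) ω ^ 2) := by
      intro t i
      rw [← Ex_sum, ← Ex_mul_left]
      refine Ex_mono fun ω => ?_
      rw [Db_sum, mul_pow]
      have h2 : (∑ y ∈ s, Db t i (f y) ω) ^ 2 ≤ s.card * ∑ y ∈ s, Db t i (f y) ω ^ 2 :=
        sq_sum_le_card_mul_sum_sq
      calc (s.card : ℝ)⁻¹ ^ 2 * (∑ y ∈ s, Db t i (f y) ω) ^ 2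
          ≤ (s.card : ℝ)⁻¹ ^ 2 * (s.card * ∑ y ∈ s, Db t i (f y) ω ^ 2) :=
            mul_le_mul_of_nonneg_left h2 (sq_nonneg _)
        _ = (s.card : ℝ)⁻¹ * ∑ y ∈ s, Db t i (f y) ω ^ 2 := by
            field_simp
    calc ∑ t, ∑ i, Ex (fun ω => Db t i (fun ω => (s.card : ℝ)⁻¹ * ∑ y ∈ s, f y ω) ω ^ 2)
        ≤ ∑ t : J, ∑ i : Fin k, (s.card : ℝ)⁻¹ * ∑ y ∈ s, Ex (fun ω => Db t i (f y) ω ^ 2) :=
          sum_le_sum fun t _ => sum_le_sum fun i _ => h1 t i
      _ = (s.card : ℝ)⁻¹ * ∑ y ∈ s, ∑ t : J, ∑ i : Fin k, Ex (fun ω => Db t i (f y) ω ^ 2) := by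
          simp only [← mul_sum]
          congr 1
          rw [sum_comm' (s := s) (t := fun _ => univ) (t' := univ) (s' := fun _ => s) (by simp)]
          refine sum_congr rfl fun t _ => ?_
          rw [sum_comm]
      _ ≤ (s.card : ℝ)⁻¹ * ∑ y ∈ s, A := mul_le_mul_of_nonneg_left (sum_le_sum hA) hci
      _ = A := by rw [sum_const, nsmul_eq_mul, ← mul_assoc, inv_mul_cancel₀ hc.ne', one_mul]
  · have h1 : ∀ (t : J) (i : Fin k), Ex (fun ω => |Db t i (fun ω => (s.card : ℝ)⁻¹ * ∑ y ∈ s, f y ω) ω|)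
        ≤ (s.card : ℝ)⁻¹ * ∑ y ∈ s, Ex (fun ω => |Db t i (f y) ω|) := by
      intro t i
      rw [← Ex_sum, ← Ex_mul_left]
      refine Ex_mono fun ω => ?_
      rw [Db_sum, abs_mul, abs_of_nonneg hci]
      exact mul_le_mul_of_nonneg_left (abs_sum_le_sum_abs _ _) hci
    have h2 : ∀ (t : J) (i : Fin k), (s.card : ℝ)⁻¹ * ∑ y ∈ s, Ex (fun ω => |Db t i (f y) ω|) ≤ ε := by
      intro t i
      rw [inv_mul_le_iff₀ hc, mul_comm]
      exact hε t i
    have h0 : ∀ (t : J) (i : Fin k), 0 ≤ Ex (fun ω => |Db t i (fun ω => (s.card : ℝ)⁻¹ * ∑ y ∈ s, f y ω) ω|) :=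
      fun t i => Ex_nonneg fun ω => abs_nonneg _
    calc ∑ t, ∑ i, Ex (fun ω => |Db t i (fun ω => (s.card : ℝ)⁻¹ * ∑ y ∈ s, f y ω) ω|) ^ 2
        ≤ ∑ t : J, ∑ i : Fin k, ε * ((s.card : ℝ)⁻¹ * ∑ y ∈ s, Ex (fun ω => |Db t i (f y) ω|)) := by
          refine sum_le_sum fun t _ => sum_le_sum fun i _ => ?_
          rw [sq]
          exact mul_le_mul ((h1 t i).trans (h2 t i)) (h1 t i) (h0 t i) hε0
      _ = ε * ((s.card : ℝ)⁻¹ * ∑ y ∈ s, ∑ t : J, ∑ i : Fin k, Ex (fun ω => |Db t i (f y) ω|)) := by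
          simp only [← mul_sum]
          congr 2
          rw [sum_comm' (s := s) (t := fun _ => univ) (t' := univ) (s' := fun _ => s) (by simp)]
          refine sum_congr rfl fun t _ => ?_
          rw [sum_comm]
      _ ≤ ε * ((s.card : ℝ)⁻¹ * ∑ y ∈ s, B) :=
          mul_le_mul_of_nonneg_left (mul_le_mul_of_nonneg_left (sum_le_sum hB) hci) hε0
      _ = ε * B := by rw [sum_const, nsmul_eq_mul, ← mul_assoc (s.card : ℝ)⁻¹, inv_mul_cancel₀ hc.ne', one_mul]

/-- The final computation.  PROOF.  If `X ≤ l ^ (7 / 8)`: `l ^ (7 / 8) ≤ C l / log (l + 2)` for `l ≥ 1`.  Otherwise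
`X / Z ≥ l ^ (1 / 8) / B`, and for `l ≥ l₀ (A, B)` its logarithm is at least `log (l + 2) / 16`, so `X ≤ 16 A l / log (l + 2)`;
for `l < l₀`: `X ≤ G l ^ 2 ≤ C l / log (l + 2)`. -/
theorem fs_final (A B G : ℝ) : ∃ C : ℝ, 0 ≤ C ∧ ∀ l X Z W : ℝ, 1 ≤ l → 0 ≤ X → X ≤ G * l ^ 2 → 0 ≤ Z →
    (Z = 0 → X = 0) → Z ≤ B * l ^ (3 / 4 : ℝ) → W ≤ A * l → X * Real.log (X / Z) ≤ W →
    X ≤ C * (l / Real.log (l + 2)) := by
  set B' : ℝ := max B 1 with hB'
  set D : ℝ := (Real.log 3 / 8 + Real.log B') * (32 / 3) with hD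
  set E0 : ℝ := Real.exp |D| with hE0
  have hB1 : 1 ≤ B' := le_max_right _ _
  have hE0' : 0 < E0 := Real.exp_pos _
  refine ⟨48 + 32 * |A| + |G| * E0 * |D|, by positivity, ?_⟩
  intro l X Z W hl hX hXG hZ hZX hZB hW hlog
  have hl0 : 0 < l := by linarith
  set L : ℝ := Real.log (l + 2) with hL
  have hL0 : 0 < L := Real.log_pos (by linarith)
  have hlL : 0 < l / L := div_pos hl0 hL0
  have hA0 : 0 ≤ 32 * |A| * (l / L) := by positivity
  have hG0 : 0 ≤ |G| * E0 * |D| * (l / L) := by positivity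
  have h48 : 0 ≤ 48 * (l / L) := by positivity
  by_cases h1 : X ≤ l ^ (7 / 8 : ℝ)
  · -- small
    have h2 : L ≤ 48 * l ^ (1 / 8 : ℝ) := by
      have h3 : L ≤ (l + 2) ^ (1 / 8 : ℝ) / (1 / 8) := Real.log_le_rpow_div (by linarith) (by norm_num)
      have h4 : (l + 2) ^ (1 / 8 : ℝ) ≤ (3 * l) ^ (1 / 8 : ℝ) :=
        Real.rpow_le_rpow (by linarith) (by linarith) (by norm_num)
      have h5 : (3 * l) ^ (1 / 8 : ℝ) = 3 ^ (1 / 8 : ℝ) * l ^ (1 / 8 : ℝ) :=
        Real.mul_rpow (by norm_num) hl0.le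
      have h6 : (3 : ℝ) ^ (1 / 8 : ℝ) ≤ 3 ^ (1 : ℝ) :=
        Real.rpow_le_rpow_of_exponent_le (by norm_num) (by norm_num)
      rw [Real.rpow_one] at h6
      have h7 : 0 ≤ l ^ (1 / 8 : ℝ) := Real.rpow_nonneg hl0.le _
      have h8 : 3 ^ (1 / 8 : ℝ) * l ^ (1 / 8 : ℝ) ≤ 3 * l ^ (1 / 8 : ℝ) :=
        mul_le_mul_of_nonneg_right h6 h7
      rw [le_div_iff₀ (by norm_num)] at h3
      linarith
    have h9 : X ≤ 48 * (l / L) := by
      rw [← mul_div_assoc, le_div_iff₀ hL0]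
      have h10 : l ^ (7 / 8 : ℝ) * l ^ (1 / 8 : ℝ) = l := by
        rw [← Real.rpow_add hl0]; norm_num
      have h11 : 0 ≤ l ^ (7 / 8 : ℝ) := Real.rpow_nonneg hl0.le _
      calc X * L ≤ l ^ (7 / 8 : ℝ) * (48 * l ^ (1 / 8 : ℝ)) := mul_le_mul h1 h2 hL0.le h11
        _ = 48 * (l ^ (7 / 8 : ℝ) * l ^ (1 / 8 : ℝ)) := by ring
        _ = 48 * l := by rw [h10]
    have : (48 + 32 * |A| + |G| * E0 * |D|) * (l / L)
      = 48 * (l / L) + 32 * |A| * (l / L) + |G| * E0 * |D| * (l / L) := by ring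
    linarith
  · push Not at h1
    have hX0 : 0 < X := lt_of_le_of_lt (Real.rpow_nonneg hl0.le _) h1
    have hZ0 : 0 < Z := lt_of_le_of_ne hZ fun h => hX0.ne' (hZX h.symm)
    have h34 : 0 < l ^ (3 / 4 : ℝ) := Real.rpow_pos_of_pos hl0 _
    have hZB' : Z ≤ B' * l ^ (3 / 4 : ℝ) := hZB.trans (mul_le_mul_of_nonneg_right (le_max_left _ _) h34.le)
    have hB0 : 0 < B' := by linarith
    have h2 : l ^ (1 / 8 : ℝ) / B' ≤ X / Z := by
      rw [div_le_div_iff₀ hB0 hZ0]
      have h3 : l ^ (1 / 8 : ℝ) * l ^ (3 / 4 : ℝ) = l ^ (7 / 8 : ℝ) := by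
        rw [← Real.rpow_add hl0]; norm_num
      have h4 : 0 ≤ l ^ (1 / 8 : ℝ) := Real.rpow_nonneg hl0.le _
      calc l ^ (1 / 8 : ℝ) * Z ≤ l ^ (1 / 8 : ℝ) * (B' * l ^ (3 / 4 : ℝ)) := mul_le_mul_of_nonneg_left hZB' h4
        _ = B' * (l ^ (1 / 8 : ℝ) * l ^ (3 / 4 : ℝ)) := by ring
        _ = B' * l ^ (7 / 8 : ℝ) := by rw [h3]
        _ ≤ B' * X := mul_le_mul_of_nonneg_left h1.le hB0.le
        _ = X * B' := by ring
    have h18 : 0 < l ^ (1 / 8 : ℝ) := Real.rpow_pos_of_pos hl0 _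
    have h3 : Real.log (l ^ (1 / 8 : ℝ) / B') ≤ Real.log (X / Z) := Real.log_le_log (div_pos h18 hB0) h2
    rw [Real.log_div h18.ne' hB0.ne', Real.log_rpow hl0] at h3
    have h4 : L ≤ Real.log 3 + Real.log l := by
      rw [← Real.log_mul (by norm_num) hl0.ne']
      exact Real.log_le_log (by linarith) (by linarith)
    by_cases h5 : D ≤ L
    · have h6 : L / 32 ≤ Real.log (X / Z) := by
        have : D = (Real.log 3 / 8 + Real.log B') * (32 / 3) := rfl
        nlinarith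
      have h7 : X * (L / 32) ≤ A * l := ((mul_le_mul_of_nonneg_left h6 hX).trans hlog).trans hW
      have h8 : X ≤ 32 * |A| * (l / L) := by
        rw [← mul_div_assoc, le_div_iff₀ hL0]
        have := mul_le_mul_of_nonneg_right (le_abs_self A) hl0.le
        nlinarith
      have : (48 + 32 * |A| + |G| * E0 * |D|) * (l / L)
        = 48 * (l / L) + 32 * |A| * (l / L) + |G| * E0 * |D| * (l / L) := by ring
      linarith
    · push Not at h5
      have hD0 : 0 < D := hL0.trans h5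
      have h6 : l ≤ E0 := by
        have h7 : Real.exp L = l + 2 := Real.exp_log (by linarith)
        have h8 : Real.exp L ≤ E0 := Real.exp_le_exp.2 (h5.le.trans (le_abs_self D))
        linarith
      have h9 : X ≤ |G| * E0 * |D| * (l / L) := by
        have h10 : G * l ^ 2 ≤ |G| * (E0 * l) := by
          calc G * l ^ 2 ≤ |G| * l ^ 2 := mul_le_mul_of_nonneg_right (le_abs_self G) (sq_nonneg _)
            _ = |G| * (l * l) := by ring
            _ ≤ |G| * (E0 * l) := mul_le_mul_of_nonneg_left (mul_le_mul_of_nonneg_right h6 hl0.le) (abs_nonneg _)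
        have h11 : 1 ≤ |D| / L := by
          rw [le_div_iff₀ hL0, one_mul]
          exact h5.le.trans (le_abs_self D)
        have h12 : |G| * (E0 * l) ≤ |G| * (E0 * l) * (|D| / L) := by
          have : 0 ≤ |G| * (E0 * l) := by positivity
          nlinarith
        calc X ≤ |G| * (E0 * l) * (|D| / L) := (hXG.trans h10).trans h12
          _ = |G| * E0 * |D| * (l / L) := by ring
      have : (48 + 32 * |A| + |G| * E0 * |D|) * (l / L)
        = 48 * (l / L) + 32 * |A| * (l / L) + |G| * E0 * |D| * (l / L) := by ring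
      linarith

end Pool.Agent.W_1b8d5d_h85
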