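import Pool.Agent.W_1b8d5d_h85.ABks1

/-!
MP_1b8d5d_pr, part (A), variance: shifts of the used edges, and the number of used edges in a box.
-/

set_option autoImplicit false

namespace Pool.Agent.W_1b8d5d_h85

open Finset

/-- An index of an edge of a walk. -/
private theorem ABks3_ix {x y : V} (w : grid.Walk x y) {e : Edge} (he : e ∈ wedges w) :
    (wedges w).idxOf e < w.length ∧ nm (w.getVert ((wedges w).idxOf e) - e.1) ≤ 1 ∧
      nm (w.getVert ((wedges w).idxOf e + 1) - e.1) ≤ 1 := by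
  have h1 : (wedges w).idxOf e < (wedges w).length := List.idxOf_lt_length_iff.2 he
  have h2 : (wedges w).idxOf e < w.length := by rw [← length_wedges]; exact h1
  have h3 : (wedges w)[(wedges w).idxOf e]'h1 = e := List.getElem_idxOf h1
  obtain ⟨i, hi⟩ : ∃ i, i = (wedges w).idxOf e := ⟨_, rfl⟩
  have h4 : ke s(w.getVert i, w.getVert (i + 1)) = e := by
    have h5 : i < w.edges.length := by rw [SimpleGraph.Walk.length_edges, hi]; exact h2
    rw [← SimpleGraph.Walk.getElem_edges h5, ← h3]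
    unfold wedges
    rw [List.getElem_map]
    congr 2
  rw [← hi]
  refine ⟨hi ▸ h2, ?_⟩
  have hadj := w.adj_getVert_succ (i := i) (by rw [hi]; exact h2)
  obtain ⟨u, hu⟩ : ∃ u, u = w.getVert i := ⟨_, rfl⟩
  obtain ⟨v, hv⟩ : ∃ v, v = w.getVert (i + 1) := ⟨_, rfl⟩
  rw [← hu, ← hv] at hadj h4 ⊢
  obtain ⟨s, h | h⟩ := hadj
  · rw [h, ke_dir] at h4
    rw [← h4, h]
    constructor
    · rw [sub_self, nm_zero]
      exact zero_le_one
    · rw [add_sub_cancel_left, nm_dir]
  · rw [h, ke_dir'] at h4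
    rw [← h4, h]
    constructor
    · rw [add_sub_cancel_left, nm_dir]
    · rw [sub_self, nm_zero]
      exact zero_le_one

/-- A geodesic has few edges in a ball.  PROOF.  The `i`-th edge of `w` joins `getVert i` and `getVert (i + 1)`; let `i ≤ j` be the first
and the last index of an edge of `A`; all the edges of `A` have indices in `[i, j]`, so (`wedges_nodup`) `A.card ≤ j + 1 - i`; the piece from
`getVert i` to `getVert (j + 1)` is a geodesic (`geo_piece`), so `a (j + 1 - i) ≤ b nm (..) ≤ b (D + 2)` (`geo_length`). -/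
theorem geo_few {a b : ℝ} (ha : 0 < a) {τ : Env} (hτ : Bd a b τ) {x y : V} {w : grid.Walk x y} (hw : IsGeo τ w)
    {D : ℝ} (hD : 0 ≤ D) (A : Finset Edge) (hA : ∀ e ∈ A, e ∈ wedges w)
    (hAD : ∀ e ∈ A, ∀ e' ∈ A, nm (e.1 - e'.1) ≤ D) : (A.card : ℝ) ≤ b / a * (D + 2) := by
  classical
  have hb : 0 < b := ha.trans_le ((hτ ((0, 0), true)).1.trans (hτ ((0, 0), true)).2)
  rcases A.eq_empty_or_nonempty with hA0 | hA0
  · rw [hA0, Finset.card_empty, Nat.cast_zero]
    positivity
  obtain ⟨ei, hei, himin⟩ := A.exists_min_image (fun e => (wedges w).idxOf e) hA0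
  obtain ⟨ej, hej, hjmax⟩ := A.exists_max_image (fun e => (wedges w).idxOf e) hA0
  obtain ⟨i, hi⟩ : ∃ i, i = (wedges w).idxOf ei := ⟨_, rfl⟩
  obtain ⟨j, hj⟩ : ∃ j, j = (wedges w).idxOf ej := ⟨_, rfl⟩
  have hij : i ≤ j := by rw [hi, hj]; exact himin ej hej
  obtain ⟨hi1, hi2, -⟩ := ABks3_ix w (hA ei hei)
  obtain ⟨hj1, -, hj2⟩ := ABks3_ix w (hA ej hej)
  rw [← hi] at hi1 hi2
  rw [← hj] at hj1 hj2
  have hcard : A.card ≤ j + 1 - i := by
    have h1 : A.image (fun e => (wedges w).idxOf e) ⊆ Finset.Icc i j := by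
      intro l hl
      obtain ⟨e, he, rfl⟩ := Finset.mem_image.1 hl
      rw [Finset.mem_Icc, hi, hj]
      exact ⟨himin e he, hjmax e he⟩
    have h2 : (A.image (fun e => (wedges w).idxOf e)).card = A.card := by
      refine Finset.card_image_of_injOn ?_
      intro e he e' he' hee
      exact (List.idxOf_inj (hA e he)).1 hee
    rw [← h2]
    refine (Finset.card_le_card h1).trans ?_
    rw [Nat.card_Icc]
  obtain ⟨w', hw', hlen, -, -⟩ := geo_piece hτ ha.le hw (i := i) (j := j + 1) (by omega) (by omega)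
  have h1 := geo_length hτ ha hw'
  have h2 : nm (w.getVert (j + 1) - w.getVert i) ≤ D + 2 := by
    have e1 : w.getVert (j + 1) - w.getVert i =
        (w.getVert (j + 1) - ej.1) + ((ej.1 - ei.1) + -(w.getVert i - ei.1)) := by abel
    rw [e1]
    have h3 := nm_add_le (w.getVert (j + 1) - ej.1) ((ej.1 - ei.1) + -(w.getVert i - ei.1))
    have h4 := nm_add_le (ej.1 - ei.1) (-(w.getVert i - ei.1))
    rw [nm_neg] at h4
    have h5 := hAD ej hej ei hei
    linarith
  have h3 : (A.card : ℝ) ≤ w'.length := by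
    rw [hlen]
    exact_mod_cast hcard
  rw [div_mul_eq_mul_div, le_div_iff₀ ha]
  have h4 : b * nm (w.getVert (j + 1) - w.getVert i) ≤ b * (D + 2) :=
    mul_le_mul_of_nonneg_left h2 hb.le
  have h5 := mul_le_mul_of_nonneg_left h3 ha.le
  linarith

/-- The shift of the grid. -/
private def ABks3_hom (z : V) : grid →g grid where
  toFun v := v + z
  map_rel' := by
    rintro x y ⟨s, h | h⟩
    · exact ⟨s, Or.inl (by rw [h]; abel)⟩
    · exact ⟨s, Or.inr (by rw [h]; abel)⟩

private theorem ABks3_ke (z : V) (e : Sym2 V) :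
    ke (Sym2.map (ABks3_hom z) e) = ((ke e).1 + z, (ke e).2) := by
  induction e using Sym2.ind with
  | _ x y =>
    show ke s(x + z, y + z) = _
    unfold ke
    simp only [Sym2.lift_mk]
    refine Prod.ext (Prod.ext ?_ ?_) ?_
    · show min (x.1 + z.1) (y.1 + z.1) = min x.1 y.1 + z.1
      exact min_add_add_right _ _ _
    · show min (x.2 + z.2) (y.2 + z.2) = min x.2 y.2 + z.2
      exact min_add_add_right _ _ _
    · show decide (x.1 + z.1 = y.1 + z.1) = decide (x.1 = y.1)
      simp only [add_left_inj]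

private theorem ABks3_wedges (z : V) {x y : V} (w : grid.Walk x y) :
    wedges (w.map (ABks3_hom z)) = (wedges w).map fun e => (e.1 + z, e.2) := by
  unfold wedges
  rw [SimpleGraph.Walk.edges_map, List.map_map, List.map_map]
  refine List.map_congr_left fun e _ => ?_
  exact ABks3_ke z e

private theorem ABks3_geo (z : V) (τ : Env) {x y : V} {w : grid.Walk x y} (hw : IsGeo (sh z τ) w) :
    ∃ w' : grid.Walk (x + z) (y + z), IsGeo τ w' ∧
      wedges w' = (wedges w).map fun e => (e.1 + z, e.2) := by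
  refine ⟨w.map (ABks3_hom z), ⟨?_, ?_⟩, ABks3_wedges z w⟩
  · refine SimpleGraph.Walk.IsPath.map ?_ hw.1
    intro u v huv
    exact add_right_cancel (b := z) huv
  · show cost τ (w.map (ABks3_hom z)) = T τ (x + z) (y + z)
    rw [← T_sh, ← hw.2]
    unfold cost
    rw [ABks3_wedges, List.map_map]
    rfl

private theorem ABks3_key (m : ℕ) (z : V) (τ : Env) (x y : V) (t : TE m)
    (h : UsedT m τ (x + z) (y + z) (tshift m z t)) : UsedT m (sh z τ) x y t := by
  intro w hw
  obtain ⟨w', hw', hww⟩ := ABks3_geo z τ hw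
  obtain ⟨e', he', hp⟩ := h w' hw'
  rw [hww] at he'
  obtain ⟨e, he, rfl⟩ := List.mem_map.1 he'
  refine ⟨e, he, ?_⟩
  rw [pr_shift] at hp
  exact (tshift m z).injective hp

/-- Covariance under shifts.  PROOF.  A walk from `x` to `y` is moved to a walk from `x + z` to `y + z` (as in `T_sh`, Grid1: `SimpleGraph.Walk.map`
for the shift), its edges `(e.1, s)` to `(e.1 + z, s)`, costs and geodesics correspond (`T_sh`); `pr_shift`. -/
theorem usedT_shift (m : ℕ) (z : V) (τ : Env) (x y : V) (t : TE m) :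
    UsedT m (sh z τ) x y t ↔ UsedT m τ (x + z) (y + z) (tshift m z t) := by
  refine ⟨fun h => ?_, ABks3_key m z τ x y t⟩
  have h1 : UsedT m (sh z τ) (x + z + -z) (y + z + -z) (tshift m (-z) (tshift m z t)) := by
    rw [add_neg_cancel_right, add_neg_cancel_right]
    have h2 : tshift m (-z) (tshift m z t) = t := by
      refine Prod.ext (Prod.ext ?_ ?_) rfl
      · show t.1.1 + ((z.1 : ℤ) : ZMod m) + (((-z).1 : ℤ) : ZMod m) = t.1.1
        rw [Prod.fst_neg, Int.cast_neg]
        ring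
      · show t.1.2 + ((z.2 : ℤ) : ZMod m) + (((-z).2 : ℤ) : ZMod m) = t.1.2
        rw [Prod.snd_neg, Int.cast_neg]
        ring
    rw [h2]
    exact h
  have h3 := ABks3_key m (-z) (sh z τ) (x + z) (y + z) (tshift m z t) h1
  have h4 : sh (-z) (sh z τ) = τ := by
    funext e
    show τ (e.1 + -z + z, e.2) = τ e
    rw [neg_add_cancel_right]
  rw [h4] at h3
  exact h3

/-- PROOF.  `usedT_shift` and `benv m c (fun s => ω (tshift m z s)) = sh z (benv m c ω)` (as `tenv_shift`), `Ex_equiv`. -/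
theorem Pr_usedT_shift (m : ℕ) [NeZero m] {k : ℕ} (c : ℕ → ℝ) (z x y : V) (t : TE m) :
    Pr (fun ω : TE m → Fin k → Bool => UsedT m (benv m c ω) (x + z) (y + z) (tshift m z t))
      = Pr (fun ω : TE m → Fin k → Bool => UsedT m (benv m c ω) x y t) := by
  classical
  have h1 : ∀ ω : TE m → Fin k → Bool, UsedT m (benv m c ω) (x + z) (y + z) (tshift m z t) ↔
      UsedT m (benv m c fun s => ω (tshift m z s)) x y t := by
    intro ω
    rw [← usedT_shift]
    have h2 : sh z (benv m c ω) = benv m c fun s => ω (tshift m z s) := by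
      funext e
      show c (val (ω (pr m (e.1 + z, e.2)))) = c (val (ω (tshift m z (pr m e))))
      rw [pr_shift]
    rw [h2]
  rw [Pr_def, Pr_def]
  rw [← Ex_equiv (Equiv.arrowCongr (tshift m z).symm (Equiv.refl (Fin k → Bool)))
    (fun ω : TE m → Fin k → Bool => if UsedT m (benv m c ω) x y t then (1 : ℝ) else 0)]
  refine Ex_congr fun ω => ?_
  rw [if_congr (h1 ω) rfl rfl]
  rfl

/-- The box of the shifts. -/
noncomputable def box (q : ℕ) : Finset V := Finset.Ico (0 : ℤ) q ×ˢ Finset.Ico (0 : ℤ) q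

theorem card_box (q : ℕ) : (box q).card = q ^ 2 := by
  unfold box
  rw [Finset.card_product, Int.card_Ico, sub_zero, Int.toNat_natCast, sq]

theorem nm_box {q : ℕ} {y : V} (hy : y ∈ box q) : nm y ≤ 2 * q := by
  unfold box at hy
  rw [Finset.mem_product, Finset.mem_Ico, Finset.mem_Ico] at hy
  obtain ⟨⟨h1, h2⟩, h3, h4⟩ := hy
  have e1 : (0 : ℝ) ≤ y.1 := by exact_mod_cast h1
  have e2 : (y.1 : ℝ) < q := by exact_mod_cast h2
  have e3 : (0 : ℝ) ≤ y.2 := by exact_mod_cast h3
  have e4 : (y.2 : ℝ) < q := by exact_mod_cast h4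
  unfold nm
  rw [abs_of_nonneg e1, abs_of_nonneg e3]
  linarith

private theorem ABks3_dvd {m : ℕ} {u v : ℤ} (h : ((u : ℤ) : ZMod m) = ((v : ℤ) : ZMod m))
    (h1 : |((u - v : ℤ) : ℝ)| < m) : u = v := by
  rw [ZMod.intCast_eq_intCast_iff_dvd_sub] at h
  have h2 : |v - u| < (m : ℤ) := by
    rw [abs_sub_comm]
    exact_mod_cast h1
  have := Int.eq_zero_of_abs_lt_dvd h h2
  omega

/-- The edges at two shifts. -/
private theorem ABks3_pos {m q : ℕ} {L : ℝ} (hm : 2 * L + 4 * q < m) {y y' : V} (hy : y ∈ box q)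
    (hy' : y' ∈ box q) {e e' : Edge} (he : nm e.1 ≤ L) (he' : nm e'.1 ≤ L) {t : TE m}
    (hp : pr m e = (tshift m y).symm t) (hp' : pr m e' = (tshift m y').symm t) :
    e.1 + y = e'.1 + y' := by
  have k1 := nm_box hy
  have k2 := nm_box hy'
  unfold nm at k1 k2 he he'
  have h1 : (((e.1.1 + y.1 : ℤ)) : ZMod m) = ((e'.1.1 + y'.1 : ℤ) : ZMod m) := by
    have e1 : ((e.1.1 : ℤ) : ZMod m) = t.1.1 - ((y.1 : ℤ) : ZMod m) := congrArg (fun s : TE m => s.1.1) hp
    have e2 : ((e'.1.1 : ℤ) : ZMod m) = t.1.1 - ((y'.1 : ℤ) : ZMod m) :=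
      congrArg (fun s : TE m => s.1.1) hp'
    rw [Int.cast_add, Int.cast_add, e1, e2]
    ring
  have h2 : (((e.1.2 + y.2 : ℤ)) : ZMod m) = ((e'.1.2 + y'.2 : ℤ) : ZMod m) := by
    have e1 : ((e.1.2 : ℤ) : ZMod m) = t.1.2 - ((y.2 : ℤ) : ZMod m) := congrArg (fun s : TE m => s.1.2) hp
    have e2 : ((e'.1.2 : ℤ) : ZMod m) = t.1.2 - ((y'.2 : ℤ) : ZMod m) :=
      congrArg (fun s : TE m => s.1.2) hp'
    rw [Int.cast_add, Int.cast_add, e1, e2]
    ring
  have a1 := abs_nonneg (e.1.1 : ℝ)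
  have a2 := abs_nonneg (e.1.2 : ℝ)
  have a3 := abs_nonneg (e'.1.1 : ℝ)
  have a4 := abs_nonneg (e'.1.2 : ℝ)
  have a5 := abs_nonneg (y.1 : ℝ)
  have a6 := abs_nonneg (y.2 : ℝ)
  have a7 := abs_nonneg (y'.1 : ℝ)
  have a8 := abs_nonneg (y'.2 : ℝ)
  have hq : (0 : ℝ) ≤ q := Nat.cast_nonneg q
  by_cases hq0 : q = 0
  · subst hq0
    unfold box at hy
    simp at hy
  have hq1 : (1 : ℝ) ≤ q := by exact_mod_cast Nat.one_le_iff_ne_zero.2 hq0
  refine Prod.ext (ABks3_dvd h1 ?_) (ABks3_dvd h2 ?_)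
  · have b1 := abs_le.1 (le_refl |(e.1.1 : ℝ)|)
    have b2 := abs_le.1 (le_refl |(e'.1.1 : ℝ)|)
    have b3 := abs_le.1 (le_refl |(y.1 : ℝ)|)
    have b4 := abs_le.1 (le_refl |(y'.1 : ℝ)|)
    simp only [Prod.fst_add, Prod.snd_add]
    push_cast
    rw [abs_lt]
    constructor <;> linarith [b1.1, b1.2, b2.1, b2.2, b3.1, b3.2, b4.1, b4.2]
  · have b1 := abs_le.1 (le_refl |(e.1.2 : ℝ)|)
    have b2 := abs_le.1 (le_refl |(e'.1.2 : ℝ)|)
    have b3 := abs_le.1 (le_refl |(y.2 : ℝ)|)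
    have b4 := abs_le.1 (le_refl |(y'.2 : ℝ)|)
    simp only [Prod.fst_add, Prod.snd_add]
    push_cast
    rw [abs_lt]
    constructor <;> linarith [b1.1, b1.2, b2.1, b2.2, b3.1, b3.2, b4.1, b4.2]

open Classical in
private theorem ABks3_pt {a b : ℝ} {m k : ℕ} {c : ℕ → ℝ} (ha : 0 < a)
    (hc : ∀ j, a ≤ c j ∧ c j ≤ b) (z : V) (q : ℕ) (hm : 2 * (b / a * nm z) + 4 * q < m) (t : TE m)
    (ω : TE m → Fin k → Bool) :
    ∑ y ∈ box q, (if UsedT m (benv m c ω) 0 z ((tshift m y).symm t) then (1 : ℝ) else 0)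
      ≤ b / a * (4 * q + 2) := by
  have hBd := benv_Bd (m := m) hc ω
  obtain ⟨w, hw⟩ := exists_geo hBd ha 0 z
  rw [Finset.sum_ite, Finset.sum_const_zero, add_zero, Finset.sum_const, nsmul_eq_mul, mul_one]
  obtain ⟨B, hB⟩ : ∃ B : Finset V, B = (box q).filter
      (fun y => UsedT m (benv m c ω) 0 z ((tshift m y).symm t)) := ⟨_, rfl⟩
  rw [← hB]
  have h1 : ∀ y : V, ∃ e : Edge, y ∈ B → e ∈ wedges w ∧ pr m e = (tshift m y).symm t := by
    intro y
    by_cases hy : y ∈ B
    · rw [hB, Finset.mem_filter] at hy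
      obtain ⟨e, he, hp⟩ := hy.2 w hw
      exact ⟨e, fun _ => ⟨he, hp⟩⟩
    · exact ⟨((0, 0), true), fun h => absurd h hy⟩
  choose f hf using h1
  have hbox : ∀ y ∈ B, y ∈ box q := by
    intro y hy
    rw [hB, Finset.mem_filter] at hy
    exact hy.1
  have hnear : ∀ y ∈ B, nm (f y).1 ≤ b / a * nm z := by
    intro y hy
    have := geo_edges_near ha hBd hw (hf y hy).1
    rwa [sub_zero, sub_zero] at this
  have hpos : ∀ y ∈ B, ∀ y' ∈ B, (f y).1 + y = (f y').1 + y' := by
    intro y hy y' hy'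
    exact ABks3_pos hm (hbox y hy) (hbox y' hy') (hnear y hy) (hnear y' hy') (hf y hy).2 (hf y' hy').2
  have hcard : (B.image f).card = B.card := by
    refine Finset.card_image_of_injOn ?_
    intro y hy y' hy' hyy
    have h2 := hpos y hy y' hy'
    rw [show f y = f y' from hyy] at h2
    exact add_left_cancel h2
  rw [← hcard]
  refine geo_few ha hBd hw (D := 4 * q) (by positivity) (B.image f) ?_ ?_
  · intro e he
    obtain ⟨y, hy, rfl⟩ := Finset.mem_image.1 he
    exact (hf y hy).1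
  · intro e he e' he'
    obtain ⟨y, hy, rfl⟩ := Finset.mem_image.1 he
    obtain ⟨y', hy', rfl⟩ := Finset.mem_image.1 he'
    have h2 := hpos y hy y' hy'
    have h3 : (f y).1 - (f y').1 = y' + -y := by
      rw [sub_eq_iff_eq_add]
      have : y' + -y + (f y').1 = ((f y').1 + y') + -y := by abel
      rw [this, ← h2]
      abel
    rw [h3]
    have h4 := nm_add_le y' (-y)
    rw [nm_neg] at h4
    have h5 := nm_box (hbox y hy)
    have h6 := nm_box (hbox y' hy')
    linarith

/-- **Few used edges in a box.**  PROOF.  `Pr_usedT_shift` (shift by `y`; `t = tshift m y ((tshift m y).symm t)`):  the sum is the mean of the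
number of the `y ∈ box q` with `UsedT m (benv m c ω) 0 z ((tshift m y).symm t)`.  For fixed `ω` take a geodesic `w` from `0` to `z`
(`exists_geo`); every such `y` gives an edge `e y` of `w` with `pr m (e y) = (tshift m y).symm t`.  `pr m (e y) ` and
`pr m (e y')` differ by `y' - y` modulo `m`; both edges are within `b / a * nm z` of `0`; so `(e y).1 - (e y').1 = y' - y` (the coordinates
of the difference of the two sides are divisible by `m` and smaller than `m`), so `e` is injective on the box and the edges are within `4 q` of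
each other; `geo_few` with `D = 4 q`. -/
theorem count_box {a b : ℝ} {m k : ℕ} [NeZero m] {c : ℕ → ℝ} (ha : 0 < a) (hc : ∀ j, a ≤ c j ∧ c j ≤ b) (z : V) (q : ℕ)
    (hm : 2 * (b / a * nm z) + 4 * q < m) (t : TE m) :
    ∑ y ∈ box q, Pr (fun ω : TE m → Fin k → Bool => UsedT m (benv m c ω) y (z + y) t)
      ≤ b / a * (4 * q + 2) := by
  classical
  have h1 : ∀ y ∈ box q, Pr (fun ω : TE m → Fin k → Bool => UsedT m (benv m c ω) y (z + y) t) =
      Ex (fun ω : TE m → Fin k → Bool =>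
        if UsedT m (benv m c ω) 0 z ((tshift m y).symm t) then (1 : ℝ) else 0) := by
    intro y _
    have h2 := Pr_usedT_shift (k := k) m c y 0 z ((tshift m y).symm t)
    rw [zero_add, Equiv.apply_symm_apply] at h2
    rw [h2, Pr_def]
  rw [Finset.sum_congr rfl h1, ← Ex_sum]
  exact Ex_le_of_le fun ω => ABks3_pt ha hc z q hm t ω

end Pool.Agent.W_1b8d5d_h85
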