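import Pool.Agent.W_1b8d5d_h85.ABits

/-!
MP_1b8d5d_pr, proofs row 571, section 2: the greedy bound.
-/

set_option autoImplicit false

namespace Pool.Agent.W_1b8d5d_h85

open Finset

theorem AGreedy_sum_le (n : ℕ) : ∑ j ∈ range n, 1 / Real.sqrt ((j : ℝ) + 1) ≤ 2 * Real.sqrt n := by
  induction n with
  | zero => simp
  | succ n ih =>
    rw [sum_range_succ]
    have h0 : 0 < Real.sqrt ((n : ℝ) + 1) := Real.sqrt_pos.2 (by positivity)
    have h1 : Real.sqrt ((n : ℝ) + 1) * Real.sqrt ((n : ℝ) + 1) = (n : ℝ) + 1 :=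
      Real.mul_self_sqrt (by positivity)
    have h2 : Real.sqrt (n : ℝ) * Real.sqrt (n : ℝ) = (n : ℝ) := Real.mul_self_sqrt (by positivity)
    have h3 : 0 ≤ Real.sqrt (n : ℝ) := Real.sqrt_nonneg _
    have h4 : 1 / Real.sqrt ((n : ℝ) + 1) ≤ 2 * Real.sqrt ((n : ℝ) + 1) - 2 * Real.sqrt (n : ℝ) := by
      rw [div_le_iff₀ h0]
      nlinarith [sq_nonneg (Real.sqrt ((n : ℝ) + 1) - Real.sqrt (n : ℝ))]
    push_cast
    linarith

/-- `E (2^k/(val + 1))^(1/2) ≤ 2`.  PROOF.  `Ex_val`, `∑_{j=1}^n j^(-1/2) ≤ 2 √n`. -/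
theorem Ex_sqrt_inv (k : ℕ) : Ex (fun u : Fin k → Bool => Real.sqrt (2 ^ k / (val u + 1))) ≤ 2 := by
  have h0 := Ex_val (k := k) (fun j => Real.sqrt (2 ^ k / ((j : ℝ) + 1)))
  rw [h0]
  have h1 : ∀ j ∈ range (2 ^ k), Real.sqrt (2 ^ k / ((j : ℝ) + 1)) =
      Real.sqrt (2 ^ k) * (1 / Real.sqrt ((j : ℝ) + 1)) := by
    intro j _
    rw [Real.sqrt_div (by positivity)]
    ring
  rw [sum_congr rfl h1, ← mul_sum, div_le_iff₀ (by positivity)]
  have h2 := AGreedy_sum_le (2 ^ k)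
  push_cast at h2
  have h3 : Real.sqrt ((2 : ℝ) ^ k) * Real.sqrt ((2 : ℝ) ^ k) = 2 ^ k :=
    Real.mul_self_sqrt (by positivity)
  have h4 := mul_le_mul_of_nonneg_left h2 (Real.sqrt_nonneg ((2 : ℝ) ^ k))
  nlinarith

/-- Jensen: `E X ≤ 2 log E exp (X/2)`. -/
theorem Ex_le_log {Ω : Type} [Fintype Ω] [Nonempty Ω] (X : Ω → ℝ) :
    Ex X ≤ 2 * Real.log (Ex fun ω => Real.exp (X ω / 2)) := by
  have h1 : Real.exp (Ex X / 2) ≤ Ex fun ω => Real.exp (X ω / 2) := by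
    have h2 : ∀ ω, Real.exp (Ex X / 2) * (X ω / 2 - Ex X / 2 + 1) ≤ Real.exp (X ω / 2) := by
      intro ω
      have h3 := Real.add_one_le_exp (X ω / 2 - Ex X / 2)
      have h4 := mul_le_mul_of_nonneg_left h3 (Real.exp_pos (Ex X / 2)).le
      rwa [← Real.exp_add, add_sub_cancel] at h4
    refine le_trans (le_of_eq ?_) (Ex_mono h2)
    rw [Ex_mul_left]
    have h5 : Ex (fun ω => X ω / 2 - Ex X / 2 + 1) = 1 := by
      have h6 : ∀ ω, X ω / 2 - Ex X / 2 + 1 = 1 / 2 * X ω + (1 - Ex X / 2) := fun ω => by ring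
      rw [Ex_congr h6, Ex_add_const, Ex_mul_left]
      ring
    rw [h5, mul_one]
  have h7 := Real.log_le_log (Real.exp_pos _) h1
  rw [Real.log_exp] at h7
  linarith

/-- Product of functions of different coordinates. -/
theorem Ex_prod_coordG {J β : Type} [Fintype J] [DecidableEq J] [Fintype β] [Nonempty β] (s : Finset J)
    (F : J → β → ℝ) : Ex (fun ω : J → β => ∏ e ∈ s, F e (ω e)) = ∏ e ∈ s, Ex (F e) := by
  have h1 : ∀ ω : J → β, ∏ e ∈ s, F e (ω e) = ∏ e, (if e ∈ s then F e (ω e) else 1) := by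
    intro ω
    rw [Fintype.prod_ite_mem]
  have h2 : ∏ e ∈ s, Ex (F e) = ∏ e, Ex (fun b => if e ∈ s then F e b else 1) := by
    rw [← Fintype.prod_ite_mem s (fun e => Ex (F e))]
    refine prod_congr rfl fun e _ => ?_
    by_cases he : e ∈ s
    · simp only [he, if_true]
    · simp only [he, if_false]
      rw [Ex_const]
  rw [Ex_congr h1, h2]
  unfold Ex
  rw [prod_div_distrib, prod_const, card_univ, Fintype.card_fun, Nat.cast_pow]
  congr 1
  have h3 := (Finset.prod_univ_sum (fun _ : J => (univ : Finset β))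
    (fun e b => if e ∈ s then F e b else 1))
  rw [h3, Fintype.piFinset_univ]

/-- **The greedy bound.**  `Ps` is a finite family of at most `A^n` sets with at most `n` elements, `P ω` a member of it.  PROOF.
`exp (X/2)`, `X = ∑_{e ∈ P ω} log (..)`, is at most the sum over `Ps` of the products of `√(2^k/(val + 1))`; `Ex_prod_coordG`,
`Ex_sqrt_inv`: `E exp (X/2) ≤ A^n 2^n`; `Ex_le_log`. -/
theorem greedy {J : Type} [Fintype J] [DecidableEq J] (k n : ℕ) (A : ℝ) (hA : 1 ≤ A)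
    (Ps : Finset (Finset J)) (hcard : (Ps.card : ℝ) ≤ A ^ n) (hn : ∀ P ∈ Ps, P.card ≤ n)
    (P : (J → Fin k → Bool) → Finset J) (hP : ∀ ω, P ω ∈ Ps) :
    Ex (fun ω : J → Fin k → Bool => ∑ e ∈ P ω, Real.log (2 ^ k / (val (ω e) + 1)))
      ≤ 2 * n * Real.log (2 * A) := by
  have hpos : ∀ (e : J) (ω : J → Fin k → Bool), (0 : ℝ) < 2 ^ k / (val (ω e) + 1) := fun e ω => by
    positivity
  have h1 : ∀ ω : J → Fin k → Bool,
      Real.exp ((∑ e ∈ P ω, Real.log (2 ^ k / (val (ω e) + 1))) / 2)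
        ≤ ∑ Q ∈ Ps, ∏ e ∈ Q, Real.sqrt (2 ^ k / (val (ω e) + 1)) := by
    intro ω
    have h2 : Real.exp ((∑ e ∈ P ω, Real.log (2 ^ k / (val (ω e) + 1))) / 2) =
        ∏ e ∈ P ω, Real.sqrt (2 ^ k / (val (ω e) + 1)) := by
      rw [sum_div, Real.exp_sum]
      refine prod_congr rfl fun e _ => ?_
      rw [Real.exp_half, Real.exp_log (hpos e ω)]
    rw [h2]
    exact single_le_sum (f := fun Q => ∏ e ∈ Q, Real.sqrt (2 ^ k / (val (ω e) + 1)))
      (fun Q _ => prod_nonneg fun e _ => Real.sqrt_nonneg _) (hP ω)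
  have h3 : Ex (fun ω : J → Fin k → Bool =>
      Real.exp ((∑ e ∈ P ω, Real.log (2 ^ k / (val (ω e) + 1))) / 2)) ≤ (2 * A) ^ n := by
    refine (Ex_mono h1).trans ?_
    rw [Ex_sum]
    have h4 : ∀ Q ∈ Ps, Ex (fun ω : J → Fin k → Bool =>
        ∏ e ∈ Q, Real.sqrt (2 ^ k / (val (ω e) + 1))) ≤ 2 ^ n := by
      intro Q hQ
      rw [Ex_prod_coordG Q (fun _ (u : Fin k → Bool) => Real.sqrt (2 ^ k / (val u + 1)))]
      rw [prod_const]
      have h5 : (Ex fun u : Fin k → Bool => Real.sqrt (2 ^ k / (val u + 1))) ^ Q.card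
          ≤ 2 ^ Q.card :=
        pow_le_pow_left₀ (Ex_nonneg fun u => Real.sqrt_nonneg _) (Ex_sqrt_inv k) _
      exact h5.trans (pow_le_pow_right₀ (by norm_num) (hn Q hQ))
    refine (sum_le_sum h4).trans ?_
    rw [sum_const, nsmul_eq_mul, mul_pow, mul_comm]
    exact mul_le_mul_of_nonneg_left hcard (by positivity)
  have h6 := Ex_le_log (fun ω : J → Fin k → Bool => ∑ e ∈ P ω, Real.log (2 ^ k / (val (ω e) + 1)))
  refine h6.trans ?_
  have h7 : 0 < Ex (fun ω : J → Fin k → Bool =>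
      Real.exp ((∑ e ∈ P ω, Real.log (2 ^ k / (val (ω e) + 1))) / 2)) := by
    unfold Ex
    refine div_pos (sum_pos (fun ω _ => Real.exp_pos _) univ_nonempty) ?_
    exact card_pos'
  have h8 := Real.log_le_log h7 h3
  rw [Real.log_pow] at h8
  calc 2 * Real.log (Ex (fun ω : J → Fin k → Bool =>
      Real.exp ((∑ e ∈ P ω, Real.log (2 ^ k / (val (ω e) + 1))) / 2)))
      ≤ 2 * (n * Real.log (2 * A)) := by linarith
    _ = 2 * n * Real.log (2 * A) := by ring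

end Pool.Agent.W_1b8d5d_h85
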