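import Pool.Agent.W_1b8d5d_h85.Basic
import Pool.Agent.W_1b8d5d_h85.Grid3

/-!
MP_1b8d5d_pr, part (A): walks from a point as sequences of steps; the union bound over paths.
-/

set_option autoImplicit false

namespace Pool.Agent.W_1b8d5d_h85

open Finset

/-- The edges of the walk from `x` with a given list of steps (direction, sign). -/
def sedges : V → List (Bool × Bool) → List Edge
  | _, [] => []
  | x, (s, true) :: l => (x, s) :: sedges (x + dir s) l
  | x, (s, false) :: l => (x - dir s, s) :: sedges (x - dir s) l

theorem length_sedges (x : V) (l : List (Bool × Bool)) : (sedges x l).length = l.length := by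
  induction l generalizing x with
  | nil => rfl
  | cons a l ih =>
    obtain ⟨s, b⟩ := a
    cases b
    · show ((x - dir s, s) :: sedges (x - dir s) l).length = _
      rw [List.length_cons, List.length_cons, ih]
    · show ((x, s) :: sedges (x + dir s) l).length = _
      rw [List.length_cons, List.length_cons, ih]

/-- Every walk is given by steps.  PROOF.  Induction on `w`; `ke_dir`, `ke_dir'`. -/
theorem exists_steps {x y : V} (w : grid.Walk x y) :
    ∃ l : List (Bool × Bool), l.length = w.length ∧ sedges x l = wedges w := by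
  induction w with
  | nil => exact ⟨[], rfl, rfl⟩
  | @cons u v z h w ih =>
    obtain ⟨l, hl1, hl2⟩ := ih
    have e : wedges (SimpleGraph.Walk.cons h w) = ke s(u, v) :: wedges w := rfl
    obtain ⟨s, hs | hs⟩ := h
    · refine ⟨(s, true) :: l, ?_, ?_⟩
      · rw [List.length_cons, SimpleGraph.Walk.length_cons, hl1]
      · show (u, s) :: sedges (u + dir s) l = _
        rw [e, ← hs, hl2]
        congr 1
        rw [hs, ke_dir]
    · refine ⟨(s, false) :: l, ?_, ?_⟩
      · rw [List.length_cons, SimpleGraph.Walk.length_cons, hl1]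
      · show (u - dir s, s) :: sedges (u - dir s) l = _
        have e2 : u - dir s = v := by rw [hs, add_sub_cancel_right]
        rw [e, e2, hl2]
        congr 1
        rw [hs, ke_dir']

theorem sedges_near (x : V) (l : List (Bool × Bool)) {e : Edge} (he : e ∈ sedges x l) : nm (e.1 - x) ≤ l.length := by
  induction l generalizing x with
  | nil => simp [sedges] at he
  | cons a l ih =>
    obtain ⟨s, b⟩ := a
    have h0 : (0 : ℝ) ≤ l.length := Nat.cast_nonneg _
    rw [List.length_cons]
    push_cast
    cases b
    · have he' : e ∈ (x - dir s, s) :: sedges (x - dir s) l := he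
      rcases List.mem_cons.1 he' with h | h
      · rw [h]
        show nm (x - dir s - x) ≤ _
        have e1 : x - dir s - x = -dir s := by abel
        rw [e1, nm_neg, nm_dir]
        linarith
      · have h1 := ih (x - dir s) h
        have e1 : e.1 - x = (e.1 - (x - dir s)) + -dir s := by abel
        rw [e1]
        refine (nm_add_le _ _).trans ?_
        rw [nm_neg, nm_dir]
        linarith
    · have he' : e ∈ (x, s) :: sedges (x + dir s) l := he
      rcases List.mem_cons.1 he' with h | h
      · rw [h]
        show nm (x - x) ≤ _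
        rw [sub_self, nm_zero]
        linarith
      · have h1 := ih (x + dir s) h
        have e1 : e.1 - x = (e.1 - (x + dir s)) + dir s := by abel
        rw [e1]
        refine (nm_add_le _ _).trans ?_
        rw [nm_dir]
        linarith

/-- The union bound over the paths of length `n` from `x`.  PROOF.  `exists_steps` (the list of length `n` is `List.ofFn σ`),
`wedges_nodup`, `Pr_exists_le`. -/
theorem Pr_paths_le {Ω : Type} [Fintype Ω] (x : V) (n : ℕ) (p : Ω → List Edge → Prop) :
    Pr (fun ω => ∃ (y : V) (w : grid.Walk x y), w.IsPath ∧ w.length = n ∧ p ω (wedges w)) ≤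
      ∑ σ : Fin n → Bool × Bool,
        Pr fun ω => (sedges x (List.ofFn σ)).Nodup ∧ p ω (sedges x (List.ofFn σ)) := by
  refine le_trans (Pr_mono (q := fun ω => ∃ σ ∈ (univ : Finset (Fin n → Bool × Bool)),
    (sedges x (List.ofFn σ)).Nodup ∧ p ω (sedges x (List.ofFn σ))) ?_) (Pr_exists_le _ _)
  rintro ω ⟨y, w, hw, hn, hp⟩
  obtain ⟨l, hl1, hl2⟩ := exists_steps w
  rw [hn] at hl1
  subst hl1
  refine ⟨l.get, mem_univ _, ?_, ?_⟩
  · rw [List.ofFn_get, hl2]
    exact wedges_nodup hw
  · rw [List.ofFn_get, hl2]
    exact hp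

/-- Functions dominated along paths of length at most `n` from `x`.  PROOF.  For every `ω` the path with `X ω ≤ F ω (wedges w)`
is one of the finitely many step sequences with `Nodup` edges; all terms are nonnegative. -/
theorem Ex_paths_le {Ω : Type} [Fintype Ω] (x : V) (n : ℕ) (X : Ω → ℝ) (F : Ω → List Edge → ℝ)
    (hF : ∀ ω l, 0 ≤ F ω l)
    (hX : ∀ ω, ∃ (y : V) (w : grid.Walk x y), w.IsPath ∧ w.length ≤ n ∧ X ω ≤ F ω (wedges w)) :
    Ex X ≤ ∑ j ∈ range (n + 1), ∑ σ : Fin j → Bool × Bool,
      Ex fun ω => if (sedges x (List.ofFn σ)).Nodup then F ω (sedges x (List.ofFn σ)) else 0 := by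
  have e : (∑ j ∈ range (n + 1), ∑ σ : Fin j → Bool × Bool,
      Ex fun ω => if (sedges x (List.ofFn σ)).Nodup then F ω (sedges x (List.ofFn σ)) else 0) =
      Ex fun ω => ∑ j ∈ range (n + 1), ∑ σ : Fin j → Bool × Bool,
        if (sedges x (List.ofFn σ)).Nodup then F ω (sedges x (List.ofFn σ)) else 0 := by
    rw [Ex_sum]
    refine sum_congr rfl fun j _ => ?_
    rw [Ex_sum]
  rw [e]
  refine Ex_mono fun ω => ?_
  obtain ⟨y, w, hw, hn, hle⟩ := hX ω
  obtain ⟨l, hl1, hl2⟩ := exists_steps w
  have hnn : ∀ (j : ℕ) (σ : Fin j → Bool × Bool), 0 ≤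
      (if (sedges x (List.ofFn σ)).Nodup then F ω (sedges x (List.ofFn σ)) else 0) := by
    intro j σ
    split_ifs
    · exact hF _ _
    · exact le_rfl
  have h1 : X ω ≤ (if (sedges x (List.ofFn l.get)).Nodup then
      F ω (sedges x (List.ofFn l.get)) else 0) := by
    rw [List.ofFn_get, hl2, if_pos (wedges_nodup hw)]
    exact hle
  refine h1.trans ?_
  refine le_trans ?_ (single_le_sum (f := fun j => ∑ σ : Fin j → Bool × Bool,
        if (sedges x (List.ofFn σ)).Nodup then F ω (sedges x (List.ofFn σ)) else 0)
    (fun j _ => sum_nonneg fun σ _ => hnn j σ) (a := l.length) (mem_range.2 (by omega)))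
  exact single_le_sum (f := fun σ : Fin l.length → Bool × Bool =>
    if (sedges x (List.ofFn σ)).Nodup then F ω (sedges x (List.ofFn σ)) else 0)
    (fun σ _ => hnn _ σ) (mem_univ l.get)

end Pool.Agent.W_1b8d5d_h85
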