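import Pool.Agent.W_1b8d5d_h85.ABks1
import Pool.Agent.W_1b8d5d_h85.AGreedy
import Pool.Agent.W_1b8d5d_h85.AWalk

/-!
MP_1b8d5d_pr, part (A), variance: the greedy bound for the used edges of the torus.
-/

set_option autoImplicit false

namespace Pool.Agent.W_1b8d5d_h85

open Finset

open Classical in
/-- The sets of the projections of the edges of the step sequences of length at most `n` from `x`. -/
noncomputable def pathSets (m n : ℕ) (x : V) : Finset (Finset (TE m)) :=
  (range (n + 1)).biUnion fun j =>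
    (univ : Finset (Fin j → Bool × Bool)).image fun σ => ((sedges x (List.ofFn σ)).map (pr m)).toFinset

/-- PROOF.  `∑ j ≤ n, 4 ^ j ≤ 4 ^ (n + 1) ≤ 16 ^ n`. -/
theorem card_pathSets {m n : ℕ} (hn : 1 ≤ n) (x : V) : ((pathSets m n x).card : ℝ) ≤ 16 ^ n := by
  classical
  have h1 : (pathSets m n x).card ≤ ∑ j ∈ range (n + 1), 4 ^ j := by
    unfold pathSets
    refine Finset.card_biUnion_le.trans (Finset.sum_le_sum fun j _ => ?_)
    refine Finset.card_image_le.trans ?_
    rw [Finset.card_univ, Fintype.card_fun]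
    simp
  have h2 : ∀ N : ℕ, ∑ j ∈ range N, 4 ^ j ≤ 4 ^ N := by
    intro N
    induction N with
    | zero => simp
    | succ N ih =>
      rw [Finset.sum_range_succ, pow_succ]
      have : 0 < 4 ^ N := by positivity
      omega
  have h3 : 4 ^ (n + 1) ≤ 16 ^ n := by
    have h4 : (16 : ℕ) = 4 * 4 := by norm_num
    have h5 : (4 : ℕ) ^ 1 ≤ 4 ^ n := Nat.pow_le_pow_right (by norm_num) hn
    rw [h4, mul_pow, pow_succ, mul_comm]
    exact Nat.mul_le_mul_right _ (by simpa using h5)
  exact_mod_cast (h1.trans (h2 (n + 1))).trans h3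

theorem card_le_of_mem_pathSets {m n : ℕ} {x : V} {P : Finset (TE m)} (hP : P ∈ pathSets m n x) : P.card ≤ n := by
  classical
  unfold pathSets at hP
  rw [Finset.mem_biUnion] at hP
  obtain ⟨j, hj, hP⟩ := hP
  rw [Finset.mem_image] at hP
  obtain ⟨σ, _, rfl⟩ := hP
  rw [Finset.mem_range] at hj
  refine (List.toFinset_card_le _).trans ?_
  rw [List.length_map, length_sedges, List.length_ofFn]
  omega

/-- PROOF.  `exists_steps`, `List.ofFn` of `l.get`. -/
theorem walk_mem_pathSets {m n : ℕ} {x y : V} (w : grid.Walk x y) (hw : w.length ≤ n) :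
    ((wedges w).map (pr m)).toFinset ∈ pathSets m n x := by
  classical
  obtain ⟨l, hl1, hl2⟩ := exists_steps w
  unfold pathSets
  rw [Finset.mem_biUnion]
  refine ⟨l.length, Finset.mem_range.mpr (by omega), ?_⟩
  rw [Finset.mem_image]
  refine ⟨l.get, Finset.mem_univ _, ?_⟩
  rw [List.ofFn_get, hl2]

open Classical in
/-- **Greedy bound.**  PROOF.  For every `ω` choose a geodesic from `x` to `y` (`exists_geo`, `geo_length`: at most `n` edges) and let `P ω` be the
set of the projections of its edges; `t` used implies `t ∈ P ω`; `greedy` with `A = 16` (`2 * log 32 ≤ 7`). -/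
theorem used_greedy {a b : ℝ} {m k n : ℕ} [NeZero m] {c : ℕ → ℝ} (ha : 0 < a) (hc : ∀ j, a ≤ c j ∧ c j ≤ b)
    (x y : V) (hn : 1 ≤ n) (hxy : b / a * nm (y - x) ≤ n) :
    Ex (fun ω : TE m → Fin k → Bool => ∑ t : TE m, if UsedT m (benv m c ω) x y t
      then 1 + Real.log (2 ^ k / (val (ω t) + 1)) else 0) ≤ 8 * n := by
  classical
  have hgeo : ∀ ω : TE m → Fin k → Bool, ∃ w : grid.Walk x y, IsGeo (benv m c ω) w :=
    fun ω => exists_geo (benv_Bd hc ω) ha x y
  choose w hw using hgeo
  have hlen : ∀ ω, (w ω).length ≤ n := by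
    intro ω
    have h1 := geo_length (benv_Bd hc ω) ha (hw ω)
    have h2 : ((w ω).length : ℝ) ≤ n := by
      refine le_trans ?_ hxy
      rw [div_mul_eq_mul_div, le_div_iff₀ ha]
      linarith
    exact_mod_cast h2
  obtain ⟨P, hPd⟩ : ∃ P : (TE m → Fin k → Bool) → Finset (TE m),
      P = fun ω => ((wedges (w ω)).map (pr m)).toFinset := ⟨_, rfl⟩
  have hPm : ∀ ω, P ω ∈ pathSets m n x := by
    intro ω
    rw [hPd]
    exact walk_mem_pathSets (w ω) (hlen ω)
  have hg := greedy k n 16 (by norm_num) (pathSets m n x) (card_pathSets hn x)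
    (fun P hP => card_le_of_mem_pathSets hP) P hPm
  have hlog : ∀ (ω : TE m → Fin k → Bool) (t : TE m), 0 ≤ Real.log (2 ^ k / (val (ω t) + 1)) := by
    intro ω t
    apply Real.log_nonneg
    have h1 := val_lt (ω t)
    have h2 : ((val (ω t) : ℕ) : ℝ) + 1 ≤ 2 ^ k := by exact_mod_cast h1
    rw [one_le_div (by positivity)]
    exact h2
  have hle : Ex (fun ω : TE m → Fin k → Bool => ∑ t : TE m, if UsedT m (benv m c ω) x y t
      then 1 + Real.log (2 ^ k / (val (ω t) + 1)) else 0) ≤
      Ex (fun ω : TE m → Fin k → Bool => (n : ℝ) + ∑ t ∈ P ω, Real.log (2 ^ k / (val (ω t) + 1))) := by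
    refine Ex_mono fun ω => ?_
    have h1 : (∑ t : TE m, if UsedT m (benv m c ω) x y t
        then 1 + Real.log (2 ^ k / (val (ω t) + 1)) else 0) ≤
        ∑ t : TE m, if t ∈ P ω then 1 + Real.log (2 ^ k / (val (ω t) + 1)) else 0 := by
      refine Finset.sum_le_sum fun t _ => ?_
      by_cases ht : UsedT m (benv m c ω) x y t
      · have htP : t ∈ P ω := by
          obtain ⟨e, he, hpe⟩ := ht (w ω) (hw ω)
          rw [hPd]
          simp only [List.mem_toFinset, List.mem_map]
          exact ⟨e, he, hpe⟩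
        rw [if_pos ht, if_pos htP]
      · rw [if_neg ht]
        split_ifs
        · linarith [hlog ω t]
        · exact le_rfl
    refine h1.trans ?_
    rw [Finset.sum_ite_mem, Finset.univ_inter, Finset.sum_add_distrib, Finset.sum_const, nsmul_eq_mul,
      mul_one]
    have h3 : ((P ω).card : ℝ) ≤ n := by exact_mod_cast card_le_of_mem_pathSets (hPm ω)
    linarith
  refine hle.trans ?_
  have hadd : Ex (fun ω : TE m → Fin k → Bool => (n : ℝ) + ∑ t ∈ P ω, Real.log (2 ^ k / (val (ω t) + 1))) =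
      n + Ex (fun ω : TE m → Fin k → Bool => ∑ t ∈ P ω, Real.log (2 ^ k / (val (ω t) + 1))) := by
    rw [Ex_add, Ex_const]
  rw [hadd]
  have hl32 : Real.log (2 * 16) ≤ 7 / 2 := by
    have h1 : (2 * 16 : ℝ) = 2 ^ 5 := by norm_num
    rw [h1, Real.log_pow]
    have := Real.log_two_lt_d9
    push_cast
    linarith
  have hn0 : (0 : ℝ) ≤ n := Nat.cast_nonneg n
  nlinarith [mul_le_mul_of_nonneg_left hl32 (by positivity : (0 : ℝ) ≤ 2 * n)]

end Pool.Agent.W_1b8d5d_h85
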