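import Pool.Agent.W_1b8d5d_h85.AInd
import Pool.Agent.W_1b8d5d_h85.AWalk

/-!
MP_1b8d5d_pr, part (A): (G7), the Peierls estimate for the torus models.
-/

set_option autoImplicit false

namespace Pool.Agent.W_1b8d5d_h85

open Finset

/-- All edges of a set of edges are low.  PROOF.  `pr m` is injective on `A` (`pr_inj`), so the indicator is a product over the
image of `A` of functions of one coordinate; `Ex_prod_coord`. -/
theorem Pr_all_low {m N : ℕ} [NeZero m] [NeZero N] {c : ℕ → ℝ} {su δ L : ℝ} (hδ : Pr (fun u : Fin N => c u < su) ≤ δ)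
    (hm : 2 * L < m) (x : V) (A : Finset Edge) (hA : ∀ e ∈ A, nm (e.1 - x) ≤ L) :
    Pr (fun ω : TE m → Fin N => ∀ e ∈ A, tenv m c ω e < su) ≤ δ ^ A.card := by
  classical
  set h : Fin N → ℝ := fun u => if c u < su then (1 : ℝ) else 0 with hh
  have hEh : Ex h ≤ δ := by
    have e : Ex h = Pr (fun u : Fin N => c u < su) := by
      rw [Pr_def]
    rw [e]
    exact hδ
  have hE0 : 0 ≤ Ex h := Ex_nonneg fun u => by rw [hh]; simp only; split_ifs <;> norm_num
  have hinj : Set.InjOn (pr m) (A : Set Edge) := by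
    intro e he e' he' h1
    exact pr_inj hm (hA e (mem_coe.1 he)) (hA e' (mem_coe.1 he')) h1
  have hcard : (A.image (pr m)).card = A.card := card_image_of_injOn hinj
  have h1 : Pr (fun ω : TE m → Fin N => ∀ e ∈ A, tenv m c ω e < su) ≤
      Ex (fun ω : TE m → Fin N => ∏ t ∈ A.image (pr m), h (ω t)) := by
    rw [Pr_def]
    refine Ex_mono fun ω => ?_
    have hnn : 0 ≤ ∏ t ∈ A.image (pr m), h (ω t) :=
      prod_nonneg fun t _ => by rw [hh]; simp only; split_ifs <;> norm_num
    split_ifs with h2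
    · refine le_of_eq ?_
      symm
      refine prod_eq_one fun t ht => ?_
      obtain ⟨e, he, rfl⟩ := mem_image.1 ht
      rw [hh]
      simp only
      exact if_pos (h2 e he)
    · exact hnn
  refine h1.trans ?_
  rw [Ex_prod_coord (A.image (pr m)) (fun _ => h), prod_const, hcard]
  exact pow_le_pow_left₀ hE0 hEh _

/-- One list of edges.  PROOF.  If fewer than half of the `n` edges are high then there is a set `A` of low edges with `n ≤ 2 |A|`;
union bound over the `2 ^ n` subsets of `l.toFinset`, `Pr_all_low` with `δ = 1 / 1024 = (1 / 32) ^ 2`, and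
`(1 / 1024) ^ |A| ≤ (1 / 32) ^ n`. -/
theorem Pr_list_low {m N : ℕ} [NeZero m] [NeZero N] {c : ℕ → ℝ} {su L : ℝ}
    (hδ : Pr (fun u : Fin N => c u < su) ≤ 1 / 1024) (hm : 2 * L < m) (x : V) (l : List Edge) (hl : l.Nodup)
    (hL : ∀ e ∈ l, nm (e.1 - x) ≤ L) :
    Pr (fun ω : TE m → Fin N => (((l.filter fun e => su ≤ tenv m c ω e).length : ℕ) : ℝ) < (l.length : ℝ) / 2) ≤
      (1 / 16) ^ l.length := by
  classical
  set S : Finset (Finset Edge) := l.toFinset.powerset.filter (fun A => l.length ≤ 2 * A.card) with hS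
  have hcl : l.toFinset.card = l.length := List.toFinset_card_of_nodup hl
  have h1 : Pr (fun ω : TE m → Fin N =>
      (((l.filter fun e => su ≤ tenv m c ω e).length : ℕ) : ℝ) < (l.length : ℝ) / 2) ≤
      Pr (fun ω : TE m → Fin N => ∃ A ∈ S, ∀ e ∈ A, tenv m c ω e < su) := by
    refine Pr_mono fun ω hω => ?_
    refine ⟨l.toFinset.filter (fun e => tenv m c ω e < su), ?_, fun e he => (mem_filter.1 he).2⟩
    rw [hS, mem_filter, mem_powerset]
    refine ⟨filter_subset _ _, ?_⟩
    have h2 : (l.filter fun e => su ≤ tenv m c ω e).length =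
        (l.toFinset.filter (fun e => su ≤ tenv m c ω e)).card := by
      have h3 : (l.filter fun e => su ≤ tenv m c ω e).toFinset =
          l.toFinset.filter (fun e => su ≤ tenv m c ω e) := by
        ext e
        simp
      rw [← h3, List.toFinset_card_of_nodup (hl.filter _)]
    rw [h2] at hω
    have h4 : (l.toFinset.filter (fun e => su ≤ tenv m c ω e)).card +
        (l.toFinset.filter (fun e => tenv m c ω e < su)).card = l.length := by
      rw [← hcl, ← card_filter_add_card_filter_not (s := l.toFinset)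
        (fun e => su ≤ tenv m c ω e)]
      congr 2
      ext e
      simp
    have h5 : (2 * ((l.toFinset.filter (fun e => su ≤ tenv m c ω e)).card : ℝ)) < l.length := by
      linarith
    have h6 : 2 * (l.toFinset.filter (fun e => su ≤ tenv m c ω e)).card < l.length := by
      exact_mod_cast h5
    omega
  refine (h1.trans (Pr_exists_le _ _)).trans ?_
  have h2 : ∀ A ∈ S, Pr (fun ω : TE m → Fin N => ∀ e ∈ A, tenv m c ω e < su) ≤ (1 / 32) ^ l.length := by
    intro A hA
    rw [hS, mem_filter, mem_powerset] at hA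
    refine (Pr_all_low hδ hm x A fun e he => hL e (List.mem_toFinset.1 (hA.1 he))).trans ?_
    have e1 : (1 / 1024 : ℝ) ^ A.card = (1 / 32) ^ (2 * A.card) := by
      rw [pow_mul]; norm_num
    rw [e1]
    exact pow_le_pow_of_le_one (by norm_num) (by norm_num) hA.2
  refine (sum_le_sum h2).trans ?_
  rw [sum_const, nsmul_eq_mul]
  have h3 : (S.card : ℝ) ≤ 2 ^ l.length := by
    have : S.card ≤ 2 ^ l.length := by
      rw [← hcl, ← card_powerset]
      exact card_le_card (filter_subset _ _)
    exact_mod_cast this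
  calc (S.card : ℝ) * (1 / 32) ^ l.length ≤ 2 ^ l.length * (1 / 32) ^ l.length :=
        mul_le_mul_of_nonneg_right h3 (by positivity)
    _ = (1 / 16) ^ l.length := by rw [← mul_pow]; norm_num

/-- (G7).  PROOF.  Union over the at most `9 R ^ 2` points `x` with `nm x ≤ R`, over the lengths `n` with `l ≤ n ≤ R` and over the
`4 ^ n` sequences of steps (`Pr_paths_le`); `Pr_list_low` with `L = R` (`sedges_near`); the sum over `n ≥ l` of
`4 ^ n * (1 / 16) ^ n = (1 / 4) ^ n` is at most `(4 / 3) (1 / 4) ^ l`. -/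
theorem tor_peierls {a b : ℝ} (m N : ℕ) [NeZero m] [NeZero N] (c : ℕ → ℝ) (hc : ∀ j, a ≤ c j ∧ c j ≤ b)
    {su R K : ℝ} (hR : 1 ≤ R) (hm : 2 * R < m) (hδ : Pr (fun u : Fin N => c u < su) ≤ 1 / 1024) (hK : 12 ≤ K)
    (l : ℕ) (hl : 1 ≤ l) :
    (tor m N c hc).P (fun τ => ∃ (x y : V) (w : grid.Walk x y), nm x ≤ R ∧ w.IsPath ∧
      l ≤ w.length ∧ (w.length : ℝ) ≤ R ∧ (nHigh su τ w : ℝ) < w.length / 2) ≤ K * R ^ 2 * (1 / 2) ^ l := by
  classical
  rw [tor_P]
  set r : ℕ := ⌊R⌋₊ with hr
  have hR0 : 0 ≤ R := by linarith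
  have hrR : (r : ℝ) ≤ R := Nat.floor_le hR0
  set X : Finset V := Icc (-(r : ℤ)) r ×ˢ Icc (-(r : ℤ)) r with hX
  have hXc : (X.card : ℝ) ≤ 9 * R ^ 2 := by
    have h1 : X.card = (2 * r + 1) * (2 * r + 1) := by
      rw [hX, card_product, Int.card_Icc]
      congr 1 <;> omega
    rw [h1]
    push_cast
    nlinarith
  set p : (TE m → Fin N) → List Edge → Prop := fun ω L =>
    (((L.filter fun e => su ≤ tenv m c ω e).length : ℕ) : ℝ) < (L.length : ℝ) / 2 with hp
  have hone : ∀ (x : V) (n : ℕ), (n : ℝ) ≤ R →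
      Pr (fun ω : TE m → Fin N => ∃ (y : V) (w : grid.Walk x y), w.IsPath ∧ w.length = n ∧
        p ω (wedges w)) ≤ (1 / 4) ^ n := by
    intro x n hn
    refine (Pr_paths_le x n p).trans ?_
    have h2 : ∀ σ : Fin n → Bool × Bool, Pr (fun ω : TE m → Fin N =>
        (sedges x (List.ofFn σ)).Nodup ∧ p ω (sedges x (List.ofFn σ))) ≤ (1 / 16) ^ n := by
      intro σ
      have hlen : (sedges x (List.ofFn σ)).length = n := by
        rw [length_sedges, List.length_ofFn]
      by_cases hnd : (sedges x (List.ofFn σ)).Nodup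
      · refine (Pr_mono (q := fun ω : TE m → Fin N => p ω (sedges x (List.ofFn σ)))
          fun ω hω => hω.2).trans ?_
        have h3 := Pr_list_low (c := c) (su := su) (L := R) hδ hm x (sedges x (List.ofFn σ)) hnd
          (fun e he => by
            have := sedges_near x _ he
            rw [List.length_ofFn] at this
            linarith)
        rw [hlen] at h3
        rw [hp]
        simp only [hlen]
        exact h3
      · refine (Pr_mono (q := fun _ : TE m → Fin N => False) fun ω hω => hnd hω.1).trans ?_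
        have : Pr (fun _ : TE m → Fin N => False) = 0 := by
          rw [Pr_def]
          simp only [if_false]
          exact Ex_const 0
        rw [this]
        positivity
    refine (sum_le_sum fun σ _ => h2 σ).trans ?_
    rw [sum_const, card_univ, nsmul_eq_mul]
    have h4 : Fintype.card (Fin n → Bool × Bool) = 4 ^ n := by
      rw [Fintype.card_fun, Fintype.card_prod, Fintype.card_bool, Fintype.card_fin]
    rw [h4]
    push_cast
    rw [← mul_pow]
    norm_num
  have h1 : Pr (fun ω : TE m → Fin N => ∃ (x y : V) (w : grid.Walk x y), nm x ≤ R ∧ w.IsPath ∧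
      l ≤ w.length ∧ (w.length : ℝ) ≤ R ∧ (nHigh su (tenv m c ω) w : ℝ) < w.length / 2) ≤
      Pr (fun ω : TE m → Fin N => ∃ q ∈ X ×ˢ Ico l (r + 1),
        ∃ (y : V) (w : grid.Walk q.1 y), w.IsPath ∧ w.length = q.2 ∧ p ω (wedges w)) := by
    refine Pr_mono fun ω hω => ?_
    obtain ⟨x, y, w, hx, hw, hl1, hl2, hn⟩ := hω
    refine ⟨(x, w.length), ?_, y, w, hw, rfl, ?_⟩
    · rw [mem_product, mem_Ico]
      refine ⟨?_, hl1, ?_⟩
      · rw [hX, mem_product, mem_Icc, mem_Icc]
        rw [nm_eq_nat] at hx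
        have h3 : x.1.natAbs + x.2.natAbs ≤ r := Nat.le_floor hx
        refine ⟨⟨?_, ?_⟩, ⟨?_, ?_⟩⟩ <;> show _ ≤ _ <;> simp only <;> omega
      · have h3 : w.length ≤ r := Nat.le_floor hl2
        show w.length < r + 1
        omega
    · rw [hp]
      show (((wedges w).filter fun e => su ≤ tenv m c ω e).length : ℝ) < ((wedges w).length : ℝ) / 2
      rw [length_wedges]
      exact hn
  refine (h1.trans (Pr_exists_le _ _)).trans ?_
  have h2 : ∀ q ∈ X ×ˢ Ico l (r + 1), Pr (fun ω : TE m → Fin N =>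
      ∃ (y : V) (w : grid.Walk q.1 y), w.IsPath ∧ w.length = q.2 ∧ p ω (wedges w)) ≤ (1 / 4) ^ q.2 := by
    intro q hq
    rw [mem_product, mem_Ico] at hq
    refine hone q.1 q.2 ?_
    have h3 : (q.2 : ℝ) ≤ r := by
      have : q.2 ≤ r := by omega
      exact_mod_cast this
    linarith
  refine (sum_le_sum h2).trans ?_
  rw [sum_product]
  simp only [sum_const, nsmul_eq_mul]
  have h3 : ∀ M : ℕ, ∑ n ∈ Ico l M, (1 / 4 : ℝ) ^ n ≤ 4 / 3 * (1 / 4) ^ l := by
    intro M
    have h4 : l ≤ M → ∑ n ∈ Ico l M, (1 / 4 : ℝ) ^ n = 4 / 3 * ((1 / 4) ^ l - (1 / 4) ^ M) := by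
      intro hM
      induction M, hM using Nat.le_induction with
      | base => simp
      | succ M hM ih =>
        rw [sum_Ico_succ_top hM, ih, pow_succ]
        ring
    rcases le_or_gt l M with hM | hM
    · rw [h4 hM]
      have : (0 : ℝ) ≤ (1 / 4) ^ M := by positivity
      linarith
    · rw [Ico_eq_empty (by omega), sum_empty]
      positivity
  have h5 := h3 (r + 1)
  have h6 : (1 / 4 : ℝ) ^ l ≤ (1 / 2) ^ l := pow_le_pow_left₀ (by norm_num) (by norm_num) _
  have h7 : (0 : ℝ) ≤ (1 / 2) ^ l := by positivity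
  calc (X.card : ℝ) * ∑ n ∈ Ico l (r + 1), (1 / 4 : ℝ) ^ n
      ≤ (9 * R ^ 2) * (4 / 3 * (1 / 4) ^ l) :=
        mul_le_mul hXc h5 (sum_nonneg fun n _ => by positivity) (by positivity)
    _ = 12 * R ^ 2 * (1 / 4) ^ l := by ring
    _ ≤ K * R ^ 2 * (1 / 2) ^ l := by
      refine mul_le_mul (mul_le_mul_of_nonneg_right hK (by positivity)) h6 (by positivity) ?_
      have : 0 ≤ K := by linarith
      positivity

end Pool.Agent.W_1b8d5d_h85
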