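import Pool.Agent.W_1b8d5d_h85.ABks2
import Pool.Agent.W_1b8d5d_h85.ABks3
import Pool.Agent.W_1b8d5d_h85.ABks4
import Pool.Agent.W_1b8d5d_h85.SProp

/-!
MP_1b8d5d_pr, part (A), variance: the theorem of Benjamini, Kalai and Schramm for the torus models.
-/

set_option autoImplicit false

namespace Pool.Agent.W_1b8d5d_h85

open Finset

section

variable {a b : ℝ} {m k : ℕ} [NeZero m] {c : ℕ → ℝ}

open Classical in
/-- The two sums over the bits, in terms of a nonnegative function of the block. -/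
private theorem AVar_sum (x y : V) (φ : ℝ → ℝ) {L : ℝ} (hL : 0 ≤ L)
    (h : ∀ (ω : TE m → Fin k → Bool) (t : TE m),
      ∑ i, Ex (fun u : Fin k → Bool => φ (Dd i (fun u => T (benv m c (Function.update ω t u)) x y) u))
      ≤ 8 * L * Ex (fun u : Fin k → Bool => if UsedT m (benv m c (Function.update ω t u)) x y t
        then 1 + Real.log (2 ^ k / (val u + 1)) else 0))
    {n : ℕ} (hn : Ex (fun ω : TE m → Fin k → Bool => ∑ t : TE m, if UsedT m (benv m c ω) x y t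
      then 1 + Real.log (2 ^ k / (val (ω t) + 1)) else 0) ≤ 8 * n) :
    ∑ t : TE m, ∑ i : Fin k, Ex (fun ω => φ (Db t i (fun ω => T (benv m c ω) x y) ω)) ≤ 64 * L * n := by
  have h1 : ∀ t : TE m, ∑ i : Fin k, Ex (fun ω => φ (Db t i (fun ω => T (benv m c ω) x y) ω))
      ≤ 8 * L * Ex (fun ω : TE m → Fin k → Bool => if UsedT m (benv m c ω) x y t
        then 1 + Real.log (2 ^ k / (val (ω t) + 1)) else 0) := by
    intro t
    have h2 : ∑ i : Fin k, Ex (fun ω => φ (Db t i (fun ω => T (benv m c ω) x y) ω))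
        = Ex fun ω : TE m → Fin k → Bool => ∑ i : Fin k, Ex fun u : Fin k → Bool =>
          φ (Dd i (fun u => T (benv m c (Function.update ω t u)) x y) u) := by
      rw [Ex_sum]
      refine sum_congr rfl fun i _ => ?_
      exact Ex_Db t i (fun ω => T (benv m c ω) x y) φ
    rw [h2]
    refine (Ex_mono fun ω => h ω t).trans ?_
    rw [Ex_mul_left]
    refine mul_le_mul_of_nonneg_left (le_of_eq ?_) (by linarith)
    rw [← Ex_avg t (fun ω : TE m → Fin k → Bool => if UsedT m (benv m c ω) x y t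
        then 1 + Real.log (2 ^ k / (val (ω t) + 1)) else 0)]
    refine Ex_congr fun ω => ?_
    unfold avg
    refine Ex_congr fun u => ?_
    beta_reduce
    rw [Function.update_self]
  refine (sum_le_sum fun t _ => h1 t).trans ?_
  rw [← mul_sum, ← Ex_sum]
  calc 8 * L * Ex (fun ω : TE m → Fin k → Bool => ∑ t : TE m, if UsedT m (benv m c ω) x y t
      then 1 + Real.log (2 ^ k / (val (ω t) + 1)) else 0) ≤ 8 * L * (8 * n) :=
        mul_le_mul_of_nonneg_left hn (by linarith)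
    _ = 64 * L * n := by ring

/-- PROOF.  `Ex_Db` with `φ = |.|` or the square, `edge_sum` / `edge_sum_sq` for every `t`, then back by `Ex_avg`
(`fun ω => if UsedT .. t then 1 + log (2 ^ k / (val (ω t) + 1)) else 0`), sum over `t` (`Ex_sum`), `used_greedy`. -/
theorem sum_Db_T (ha : 0 < a) (hc : ∀ j, a ≤ c j ∧ c j ≤ b) (hcm : Monotone c) (x y : V) {n : ℕ} (hn : 1 ≤ n)
    (hxy : b / a * nm (y - x) ≤ n) (hm : 2 * n < m) :
    ∑ t : TE m, ∑ i : Fin k, Ex (fun ω => |Db t i (fun ω => T (benv m c ω) x y) ω|) ≤ 64 * (b - a) * n ∧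
    ∑ t : TE m, ∑ i : Fin k, Ex (fun ω => Db t i (fun ω => T (benv m c ω) x y) ω ^ 2) ≤ 64 * (b - a) ^ 2 * n := by
  have hab : 0 ≤ b - a := by linarith [(hc 0).1, (hc 0).2]
  have hm' : 2 * (b / a * nm (y - x)) < m := by
    have h1 : (2 : ℝ) * n < m := by exact_mod_cast hm
    linarith
  have hg := used_greedy (m := m) (k := k) (c := c) ha hc x y hn hxy
  constructor
  · exact AVar_sum x y (fun r => |r|) hab (fun ω t => edge_sum ω t x y ha hc hcm hm') hg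
  · exact AVar_sum x y (fun r => r ^ 2) (sq_nonneg _) (fun ω t => edge_sum_sq ω t x y ha hc hcm hm') hg

/-- PROOF.  `Ex_Db`, `edge_one`, `Ex_avg` (the probability is the mean of an indicator), `count_box`. -/
theorem sum_box_Db (ha : 0 < a) (hc : ∀ j, a ≤ c j ∧ c j ≤ b) (hcm : Monotone c) (z : V) {q : ℕ}
    (hm : 2 * (b / a * nm z) + 4 * q < m) (t : TE m) (i : Fin k) :
    ∑ y ∈ box q, Ex (fun ω => |Db t i (fun ω => T (benv m c ω) y (z + y)) ω|)
      ≤ 2 * (b - a) * (b / a * (4 * q + 2)) := by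
  classical
  have hab : 0 ≤ b - a := by linarith [(hc 0).1, (hc 0).2]
  have h1 : ∀ y ∈ box q, Ex (fun ω => |Db t i (fun ω => T (benv m c ω) y (z + y)) ω|)
      ≤ 2 * (b - a) * Pr (fun ω : TE m → Fin k → Bool => UsedT m (benv m c ω) y (z + y) t) := by
    intro y _
    have hm' : 2 * (b / a * nm (z + y - y)) < m := by
      rw [add_sub_cancel_right]
      have hq : (0 : ℝ) ≤ q := Nat.cast_nonneg q
      linarith
    rw [Ex_Db t i (fun ω => T (benv m c ω) y (z + y)) (fun r => |r|)]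
    refine (Ex_mono fun ω => edge_one ω t y (z + y) ha hc hcm hm' i).trans ?_
    rw [Ex_mul_left]
    refine mul_le_mul_of_nonneg_left (le_of_eq ?_) (by linarith)
    rw [Pr_def, ← Ex_avg t (fun ω : TE m → Fin k → Bool =>
      if UsedT m (benv m c ω) y (z + y) t then (1 : ℝ) else 0)]
    rfl
  refine (sum_le_sum h1).trans ?_
  rw [← mul_sum]
  exact mul_le_mul_of_nonneg_left (count_box ha hc z q hm t) (by linarith)

/-- The average over the box is near `T 0 z`.  PROOF.  `T_lip`, `T_lip'`, `nm_box`. -/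
theorem avg_box_near (ha : 0 < a) (hc : ∀ j, a ≤ c j ∧ c j ≤ b) (z : V) {q : ℕ} (hq : 1 ≤ q) (ω : TE m → Fin k → Bool) :
    |T (benv m c ω) 0 z - ((box q).card : ℝ)⁻¹ * ∑ y ∈ box q, T (benv m c ω) y (z + y)| ≤ 4 * b * q := by
  have hb : 0 ≤ b := by linarith [(hc 0).1, (hc 0).2]
  have hcard : (0 : ℝ) < (box q).card := by
    rw [card_box]
    have : (0 : ℝ) < q := by exact_mod_cast hq
    positivity
  have h1 : T (benv m c ω) 0 z - ((box q).card : ℝ)⁻¹ * ∑ y ∈ box q, T (benv m c ω) y (z + y)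
      = ((box q).card : ℝ)⁻¹ * ∑ y ∈ box q, (T (benv m c ω) 0 z - T (benv m c ω) y (z + y)) := by
    rw [sum_sub_distrib, sum_const, nsmul_eq_mul, mul_sub, ← mul_assoc, inv_mul_cancel₀ hcard.ne', one_mul]
  have hbd := benv_Bd (m := m) hc ω
  have h2 : ∀ y ∈ box q, |T (benv m c ω) 0 z - T (benv m c ω) y (z + y)| ≤ 4 * b * q := by
    intro y hy
    have h3 := T_lip hbd ha.le 0 z (z + y)
    have h4 := T_lip' hbd ha.le 0 y (z + y)
    have e1 : nm (z - (z + y)) = nm y := by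
      rw [sub_add_cancel_left, nm_neg]
    have e2 : nm (0 - y) = nm y := by
      rw [zero_sub, nm_neg]
    rw [e1] at h3
    rw [e2] at h4
    have h5 := mul_le_mul_of_nonneg_left (nm_box hy) hb
    have h6 := abs_sub_le (T (benv m c ω) 0 z) (T (benv m c ω) 0 (z + y)) (T (benv m c ω) y (z + y))
    linarith
  rw [h1, abs_mul, abs_of_pos (inv_pos.2 hcard)]
  have h3 : |∑ y ∈ box q, (T (benv m c ω) 0 z - T (benv m c ω) y (z + y))| ≤ (box q).card * (4 * b * q) := by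
    refine (abs_sum_le_sum_abs _ _).trans ?_
    refine (sum_le_sum h2).trans ?_
    rw [sum_const, nsmul_eq_mul]
  refine (mul_le_mul_of_nonneg_left h3 (inv_pos.2 hcard).le).trans (le_of_eq ?_)
  rw [← mul_assoc, inv_mul_cancel₀ hcard.ne', one_mul]

end

/-- `√l ≤ 4 l / log (l + 2)`. -/
private theorem AVar_sqrt {l : ℝ} (hl : 1 ≤ l) : Real.sqrt l ≤ 4 * (l / Real.log (l + 2)) := by
  have hlog : 0 < Real.log (l + 2) := Real.log_pos (by linarith)
  have h0 : 0 < l := by linarith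
  have h1 : Real.log (l + 2) ≤ 2 * Real.sqrt (l + 2) := by
    have h2 := Real.log_le_sub_one_of_pos (Real.sqrt_pos.2 (by linarith : (0 : ℝ) < l + 2))
    have h3 : Real.log (Real.sqrt (l + 2)) = Real.log (l + 2) / 2 := Real.log_sqrt (by linarith)
    rw [h3] at h2
    linarith
  have h2 : Real.sqrt (l + 2) ≤ 2 * Real.sqrt l := by
    have h3 : (2 : ℝ) = Real.sqrt 4 := by
      rw [show (4 : ℝ) = 2 ^ 2 by norm_num, Real.sqrt_sq (by norm_num)]
    rw [h3, ← Real.sqrt_mul (by norm_num), ← h3]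
    exact Real.sqrt_le_sqrt (by linarith)
  have h3 : Real.sqrt l * Real.sqrt l = l := Real.mul_self_sqrt h0.le
  rw [← mul_div_assoc, le_div_iff₀ hlog]
  have h4 : Real.log (l + 2) ≤ 4 * Real.sqrt l := by linarith
  calc Real.sqrt l * Real.log (l + 2) ≤ Real.sqrt l * (4 * Real.sqrt l) :=
        mul_le_mul_of_nonneg_left h4 (Real.sqrt_nonneg _)
    _ = 4 * l := by linear_combination 4 * h3

/-- The side of the box. -/
private theorem AVar_q {l : ℝ} (hl : 1 ≤ l) : ∃ q : ℕ, 1 ≤ q ∧ l ^ (1 / 4 : ℝ) ≤ q ∧ (q : ℝ) ≤ 2 * l ^ (1 / 4 : ℝ) := by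
  have h1 : 1 ≤ l ^ (1 / 4 : ℝ) := Real.one_le_rpow hl (by norm_num)
  refine ⟨⌈l ^ (1 / 4 : ℝ)⌉₊, ?_, Nat.le_ceil _, ?_⟩
  · exact Nat.one_le_ceil_iff.2 (by linarith)
  · have := Nat.ceil_lt_add_one (by linarith : (0 : ℝ) ≤ l ^ (1 / 4 : ℝ))
    linarith

/-- **Variance.**  PROOF.  `tor_E_bits`; `q = ⌈l ^ (1/4)⌉`, so `1 ≤ q ≤ 2 l ^ (1/4)`, `F = ` average over `box q` of `T y (z + y)`;
`n = ⌈b / a * l⌉ ≤ (b / a + 1) l`; `avg_block` with `A = 64 (b-a)^2 n`, `B = 64 (b-a) n`, `ε = 2 (b-a) (b/a) (4 q + 2) / q ^ 2 ≤ 12 (b-a) (b/a) / q`;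
so `Z ≤ ε B ≤ C l ^ (3/4)`; `fs_block`, `fs_zero`, `fs_final` (`Vr F ≤ E F ^ 2 ≤ (b l) ^ 2`) give `Vr F ≤ C l / log (l + 2)`; `avg_box_near` and
`Vr_add_le`: `Vr T ≤ 2 Vr F + 2 (4 b q) ^ 2`, `q ^ 2 ≤ 4 l ^ (1/2) ≤ C l / log (l + 2)`; `S l ^ 2 = l / log (l + 2)`. -/
theorem tor_bks (a b : ℝ) (ha : 0 < a) : ∃ K : ℝ, 0 ≤ K ∧
    ∀ (m k : ℕ) [NeZero m] (c : ℕ → ℝ) (hc : ∀ j, a ≤ c j ∧ c j ≤ b), Monotone c →
    ∀ R : ℝ, 4 * ((b / a + 2) * R + 2) < m → ∀ (l : ℝ) (z : V), 1 ≤ l → nm z ≤ l → l ≤ R →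
    (tor m (2 ^ k) c hc).E (fun τ => (T τ 0 z - (tor m (2 ^ k) c hc).E fun τ => T τ 0 z) ^ 2) ≤ K * S l ^ 2 := by
  obtain ⟨C, hC0, hC⟩ := fs_final (64 * (b - a) ^ 2 * (b / a + 1))
    (768 * (b - a) ^ 2 * (b / a) * (b / a + 1)) (b ^ 2)
  refine ⟨2 * C + 512 * b ^ 2, by positivity, ?_⟩
  intro m k _ c hc hcm R hmR l z hl hzl hlR
  have hab : 0 ≤ b - a := by linarith [(hc 0).1, (hc 0).2]
  have hb : 0 < b := by linarith
  have hba : 1 ≤ b / a := by
    rw [le_div_iff₀ ha]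
    linarith
  have hl0 : 0 < l := by linarith
  have hz0 := nm_nonneg z
  -- the numbers
  obtain ⟨q, hq1, hq2, hq3⟩ := AVar_q hl
  have hq0 : (1 : ℝ) ≤ q := by exact_mod_cast hq1
  obtain ⟨n, hn1, hn2, hn3⟩ : ∃ n : ℕ, 1 ≤ n ∧ b / a * l ≤ n ∧ (n : ℝ) ≤ b / a * l + 1 := by
    have h1 : 1 ≤ b / a * l := by nlinarith
    refine ⟨⌈b / a * l⌉₊, ?_, Nat.le_ceil _, ?_⟩
    · exact Nat.one_le_ceil_iff.2 (by linarith)
    · exact (Nat.ceil_lt_add_one (by linarith)).le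
  have hn4 : (n : ℝ) ≤ (b / a + 1) * l := by nlinarith
  have hbl : b / a * l ≤ b / a * R := mul_le_mul_of_nonneg_left hlR (by linarith)
  have hl14 : l ^ (1 / 4 : ℝ) ≤ l := by
    calc l ^ (1 / 4 : ℝ) ≤ l ^ (1 : ℝ) := Real.rpow_le_rpow_of_exponent_le hl (by norm_num)
      _ = l := Real.rpow_one l
  have hmn : 2 * n < m := by
    have h1 : (2 : ℝ) * n < m := by nlinarith
    exact_mod_cast h1
  have hzb : b / a * nm z ≤ b / a * l := mul_le_mul_of_nonneg_left hzl (by linarith)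
  have hmq : 2 * (b / a * nm z) + 4 * q < m := by nlinarith
  -- the functions
  let f : V → (TE m → Fin k → Bool) → ℝ := fun y ω => T (benv m c ω) y (z + y)
  let F : (TE m → Fin k → Bool) → ℝ := fun ω => ((box q).card : ℝ)⁻¹ * ∑ y ∈ box q, f y ω
  have hcardq : ((box q).card : ℝ) = (q : ℝ) ^ 2 := by
    rw [card_box]
    push_cast
    rfl
  have hcard : (0 : ℝ) < (box q).card := by
    rw [hcardq]
    positivity
  have hne : (box q).Nonempty := by
    rw [← card_pos]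
    exact_mod_cast hcard
  have hAB : ∀ y ∈ box q, _ := fun y _ => sum_Db_T (k := k) ha hc hcm y (z + y) hn1
    (by rw [add_sub_cancel_right]; linarith) hmn
  obtain ⟨ε, hεd⟩ : ∃ ε : ℝ, ε = 2 * (b - a) * (b / a * (4 * q + 2)) / (q : ℝ) ^ 2 := ⟨_, rfl⟩
  have hε0 : 0 ≤ ε := by
    rw [hεd]
    positivity
  have hε : ∀ (t : TE m) (i : Fin k), ∑ y ∈ box q, Ex (fun ω => |Db t i (f y) ω|) ≤ ε * (box q).card := by
    intro t i
    refine (sum_box_Db ha hc hcm z hmq t i).trans (le_of_eq ?_)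
    rw [hεd, hcardq, div_mul_cancel₀]
    positivity
  obtain ⟨hW, hZ⟩ := avg_block (box q) hne f hε0 (fun y hy => (hAB y hy).2) (fun y hy => (hAB y hy).1) hε
  -- the bound of `ε`
  have hε12 : ε ≤ 12 * (b - a) * (b / a) / q := by
    rw [hεd, div_le_div_iff₀ (by positivity) (by positivity)]
    have h1 : 0 ≤ (b - a) * (b / a) * q := by positivity
    nlinarith [mul_nonneg h1 (sub_nonneg.2 hq0)]
  have hpow : l ^ (3 / 4 : ℝ) * l ^ (1 / 4 : ℝ) = l := by
    rw [← Real.rpow_add hl0]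
    norm_num
  have hp0 : 0 < l ^ (1 / 4 : ℝ) := Real.rpow_pos_of_pos hl0 _
  have hlq : l / q ≤ l ^ (3 / 4 : ℝ) := by
    rw [div_le_iff₀ (by linarith)]
    calc l = l ^ (3 / 4 : ℝ) * l ^ (1 / 4 : ℝ) := hpow.symm
      _ ≤ l ^ (3 / 4 : ℝ) * q := mul_le_mul_of_nonneg_left hq2 (Real.rpow_nonneg hl0.le _)
  have hεB : ε * (64 * (b - a) * n) ≤ 768 * (b - a) ^ 2 * (b / a) * (b / a + 1) * l ^ (3 / 4 : ℝ) := by
    calc ε * (64 * (b - a) * n) ≤ 12 * (b - a) * (b / a) / q * (64 * (b - a) * ((b / a + 1) * l)) :=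
          mul_le_mul hε12 (mul_le_mul_of_nonneg_left hn4 (by linarith)) (by positivity) (by positivity)
      _ = 768 * (b - a) ^ 2 * (b / a) * (b / a + 1) * (l / q) := by ring
      _ ≤ 768 * (b - a) ^ 2 * (b / a) * (b / a + 1) * l ^ (3 / 4 : ℝ) :=
          mul_le_mul_of_nonneg_left hlq (by positivity)
  -- the bound of `F`
  have hfb : ∀ y ω, 0 ≤ f y ω ∧ f y ω ≤ b * l := by
    intro y ω
    have hbd := benv_Bd (m := m) hc ω
    refine ⟨T_nonneg hbd ha.le _ _, ?_⟩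
    refine (T_upper hbd ha.le _ _).trans ?_
    rw [add_sub_cancel_right]
    exact mul_le_mul_of_nonneg_left hzl hb.le
  have hFb : ∀ ω, 0 ≤ F ω ∧ F ω ≤ b * l := by
    intro ω
    constructor
    · exact mul_nonneg (inv_pos.2 hcard).le (sum_nonneg fun y _ => (hfb y ω).1)
    · have h1 : ∑ y ∈ box q, f y ω ≤ (box q).card * (b * l) := by
        refine (sum_le_sum fun y _ => (hfb y ω).2).trans ?_
        rw [sum_const, nsmul_eq_mul]
      refine (mul_le_mul_of_nonneg_left h1 (inv_pos.2 hcard).le).trans (le_of_eq ?_)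
      rw [← mul_assoc, inv_mul_cancel₀ hcard.ne', one_mul]
  have hVF : Vr F ≤ b ^ 2 * l ^ 2 := by
    refine (Vr_le F 0).trans (Ex_le_of_le fun ω => ?_)
    rw [sub_zero, ← mul_pow]
    exact pow_le_pow_left₀ (hFb ω).1 (hFb ω).2 2
  have hWA : ∑ t : TE m, ∑ i : Fin k, Ex (fun ω => Db t i F ω ^ 2) ≤ 64 * (b - a) ^ 2 * (b / a + 1) * l := by
    refine hW.trans ?_
    have h1 := mul_le_mul_of_nonneg_left hn4 (by positivity : 0 ≤ 64 * (b - a) ^ 2)
    linarith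
  have hX : Vr F ≤ C * (l / Real.log (l + 2)) :=
    hC l (Vr F) (∑ t : TE m, ∑ i : Fin k, Ex (fun ω => |Db t i F ω|) ^ 2)
      (∑ t : TE m, ∑ i : Fin k, Ex (fun ω => Db t i F ω ^ 2)) hl (Vr_nonneg F) hVF
      (sum_nonneg fun t _ => sum_nonneg fun i _ => sq_nonneg _) (fs_zero F) (hZ.trans hεB) hWA (fs_block F)
  -- the passage time
  have hVT : Vr (fun ω : TE m → Fin k → Bool => T (benv m c ω) 0 z) ≤ 2 * Vr F + 2 * (4 * b * q) ^ 2 := by
    have h1 := Vr_add_le F (fun ω : TE m → Fin k → Bool => T (benv m c ω) 0 z - F ω)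
    have h2 : Vr (fun ω : TE m → Fin k → Bool => F ω + (T (benv m c ω) 0 z - F ω))
        = Vr (fun ω : TE m → Fin k → Bool => T (benv m c ω) 0 z) := by
      congr 1
      funext ω
      ring
    rw [h2] at h1
    have h3 : Vr (fun ω : TE m → Fin k → Bool => T (benv m c ω) 0 z - F ω) ≤ (4 * b * q) ^ 2 := by
      refine (Vr_le _ 0).trans (Ex_le_of_le fun ω => ?_)
      rw [sub_zero, ← sq_abs]
      exact pow_le_pow_left₀ (abs_nonneg _) (avg_box_near ha hc z hq1 ω) 2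
    linarith
  have hq2' : (q : ℝ) ^ 2 ≤ 4 * Real.sqrt l := by
    have h1 : (q : ℝ) ^ 2 ≤ (2 * l ^ (1 / 4 : ℝ)) ^ 2 := pow_le_pow_left₀ (by linarith) hq3 2
    have h2 : (l ^ (1 / 4 : ℝ)) ^ 2 = Real.sqrt l := by
      rw [Real.sqrt_eq_rpow, ← Real.rpow_natCast, ← Real.rpow_mul hl0.le]
      norm_num
    rw [mul_pow, h2] at h1
    linarith
  have hsq := AVar_sqrt hl
  have hfin : 2 * (4 * b * q) ^ 2 ≤ 512 * b ^ 2 * (l / Real.log (l + 2)) := by
    have h1 : (q : ℝ) ^ 2 ≤ 16 * (l / Real.log (l + 2)) := by linarith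
    have h2 := mul_le_mul_of_nonneg_left h1 (by positivity : 0 ≤ 32 * b ^ 2)
    calc 2 * (4 * b * q) ^ 2 = 32 * b ^ 2 * (q : ℝ) ^ 2 := by ring
      _ ≤ 32 * b ^ 2 * (16 * (l / Real.log (l + 2))) := h2
      _ = 512 * b ^ 2 * (l / Real.log (l + 2)) := by ring
  rw [tor_E_bits, tor_E_bits, S_sq hl0.le]
  have hVr : Ex (fun ω : TE m → Fin k → Bool =>
      (T (benv m c ω) 0 z - Ex fun ω : TE m → Fin k → Bool => T (benv m c ω) 0 z) ^ 2)
      = Vr (fun ω : TE m → Fin k → Bool => T (benv m c ω) 0 z) := rfl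
  rw [hVr]
  linarith

end Pool.Agent.W_1b8d5d_h85
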