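import Pool.Agent.W_1b8d5d_h85.Defs

/-!
MP_1b8d5d_pr, proofs row 571: the elementary calculus of finite averages.
-/

set_option autoImplicit false

namespace Pool.Agent.W_1b8d5d_h85

open Finset
open scoped BigOperators

section basic

variable {Ω : Type*} [Fintype Ω]

theorem Ex_add (f g : Ω → ℝ) : Ex (fun ω => f ω + g ω) = Ex f + Ex g := by
  simp only [Ex, sum_add_distrib, add_div]

theorem Ex_sub (f g : Ω → ℝ) : Ex (fun ω => f ω - g ω) = Ex f - Ex g := by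
  simp only [Ex, sum_sub_distrib, sub_div]

theorem Ex_neg (f : Ω → ℝ) : Ex (fun ω => - f ω) = - Ex f := by
  simp only [Ex, sum_neg_distrib, neg_div]

theorem Ex_mul_left (c : ℝ) (f : Ω → ℝ) : Ex (fun ω => c * f ω) = c * Ex f := by
  simp only [Ex, ← mul_sum, mul_div_assoc]

theorem Ex_mul_right (c : ℝ) (f : Ω → ℝ) : Ex (fun ω => f ω * c) = Ex f * c := by
  simp only [mul_comm _ c, Ex_mul_left]

theorem Ex_sum {ι : Type*} (s : Finset ι) (f : ι → Ω → ℝ) :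
    Ex (fun ω => ∑ i ∈ s, f i ω) = ∑ i ∈ s, Ex (f i) := by
  simp only [Ex]
  rw [sum_comm, sum_div]

theorem Ex_mono {f g : Ω → ℝ} (h : ∀ ω, f ω ≤ g ω) : Ex f ≤ Ex g := by
  unfold Ex
  exact div_le_div_of_nonneg_right (sum_le_sum fun ω _ => h ω) (Nat.cast_nonneg _)

theorem Ex_nonneg {f : Ω → ℝ} (h : ∀ ω, 0 ≤ f ω) : 0 ≤ Ex f :=
  div_nonneg (sum_nonneg fun ω _ => h ω) (Nat.cast_nonneg _)

theorem abs_Ex_le (f : Ω → ℝ) : |Ex f| ≤ Ex fun ω => |f ω| := by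
  unfold Ex
  rw [abs_div, abs_of_nonneg (Nat.cast_nonneg (Fintype.card Ω) : (0 : ℝ) ≤ _)]
  exact div_le_div_of_nonneg_right (abs_sum_le_sum_abs _ _) (Nat.cast_nonneg _)

theorem Ex_congr {f g : Ω → ℝ} (h : ∀ ω, f ω = g ω) : Ex f = Ex g := by
  rw [funext h]

theorem Ex_equiv {Ω' : Type*} [Fintype Ω'] (e : Ω ≃ Ω') (f : Ω' → ℝ) :
    Ex (fun ω => f (e ω)) = Ex f := by
  unfold Ex
  rw [Equiv.sum_comp e f, Fintype.card_congr e]

theorem Ex_comm {Ω' : Type*} [Fintype Ω'] (f : Ω → Ω' → ℝ) :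
    Ex (fun ω => Ex fun ω' => f ω ω') = Ex fun ω' => Ex fun ω => f ω ω' := by
  unfold Ex
  simp only [← sum_div]
  rw [sum_comm]
  ring

theorem Ex_prod {Ω' : Type*} [Fintype Ω'] (f : Ω × Ω' → ℝ) :
    Ex f = Ex fun ω => Ex fun ω' => f (ω, ω') := by
  unfold Ex
  simp only [← sum_div]
  rw [Fintype.sum_prod_type, Fintype.card_prod]
  push_cast
  rw [div_div, mul_comm (Fintype.card Ω' : ℝ)]

section ne

variable [Nonempty Ω]

theorem card_pos' : (0 : ℝ) < Fintype.card Ω := by exact_mod_cast Fintype.card_pos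

theorem Ex_const (c : ℝ) : Ex (fun _ : Ω => c) = c := by
  have h : (Fintype.card Ω : ℝ) ≠ 0 := card_pos'.ne'
  unfold Ex
  rw [sum_const, card_univ, nsmul_eq_mul]
  field_simp

theorem Ex_le_of_le {f : Ω → ℝ} {c : ℝ} (h : ∀ ω, f ω ≤ c) : Ex f ≤ c :=
  (Ex_mono h).trans (Ex_const c).le

theorem le_Ex_of_le {f : Ω → ℝ} {c : ℝ} (h : ∀ ω, c ≤ f ω) : c ≤ Ex f :=
  (Ex_const c).ge.trans (Ex_mono h)

theorem Ex_add_const (f : Ω → ℝ) (c : ℝ) : Ex (fun ω => f ω + c) = Ex f + c := by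
  rw [Ex_add, Ex_const]

theorem Ex_sub_const (f : Ω → ℝ) (c : ℝ) : Ex (fun ω => f ω - c) = Ex f - c := by
  rw [Ex_sub, Ex_const]

theorem exists_le_Ex (f : Ω → ℝ) : ∃ ω, f ω ≤ Ex f := by
  by_contra h
  push Not at h
  have h1 : ∑ _ω : Ω, Ex f < ∑ ω, f ω := sum_lt_sum_of_nonempty univ_nonempty fun ω _ => h ω
  rw [sum_const, card_univ, nsmul_eq_mul] at h1
  have h2 : (Fintype.card Ω : ℝ) * Ex f = ∑ ω, f ω := by
    unfold Ex
    field_simp [card_pos' (Ω := Ω) |>.ne']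
  linarith

/-- The variance identity. -/
theorem Vr_eq (f : Ω → ℝ) : Vr f = Ex (fun ω => f ω ^ 2) - Ex f ^ 2 := by
  unfold Vr
  have h : ∀ ω, (f ω - Ex f) ^ 2 = f ω ^ 2 - 2 * Ex f * f ω + Ex f ^ 2 := fun ω => by ring
  rw [Ex_congr h, Ex_add, Ex_sub, Ex_mul_left, Ex_const]
  ring

theorem sq_Ex_le (f : Ω → ℝ) : Ex f ^ 2 ≤ Ex fun ω => f ω ^ 2 := by
  have h := Vr_eq f
  have h2 : 0 ≤ Vr f := Ex_nonneg fun ω => sq_nonneg _
  linarith

/-- `E |f| ≤ √(E f²)`. -/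
theorem Ex_abs_le_sqrt (f : Ω → ℝ) : Ex (fun ω => |f ω|) ≤ Real.sqrt (Ex fun ω => f ω ^ 2) := by
  refine Real.le_sqrt_of_sq_le ?_
  have h := sq_Ex_le fun ω => |f ω|
  simpa only [sq_abs] using h

/-- The mean minimises the quadratic deviation. -/
theorem Vr_le (f : Ω → ℝ) (c : ℝ) : Vr f ≤ Ex fun ω => (f ω - c) ^ 2 := by
  rw [Vr_eq]
  have h : ∀ ω, (f ω - c) ^ 2 = f ω ^ 2 - 2 * c * f ω + c ^ 2 := fun ω => by ring
  rw [Ex_congr h, Ex_add, Ex_sub, Ex_mul_left, Ex_const]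
  nlinarith [sq_nonneg (Ex f - c)]

theorem Vr_nonneg (f : Ω → ℝ) : 0 ≤ Vr f := Ex_nonneg fun _ => sq_nonneg _

/-- `Vr (f + g) ≤ 2 Vr f + 2 Vr g`. -/
theorem Vr_add_le (f g : Ω → ℝ) : Vr (fun ω => f ω + g ω) ≤ 2 * Vr f + 2 * Vr g := by
  have h : ∀ ω, (f ω + g ω - (Ex f + Ex g)) ^ 2
      ≤ 2 * (f ω - Ex f) ^ 2 + 2 * (g ω - Ex g) ^ 2 := fun ω => by
    nlinarith [sq_nonneg ((f ω - Ex f) - (g ω - Ex g))]
  have h2 := Ex_mono h
  rw [Ex_add (fun ω => 2 * (f ω - Ex f) ^ 2), Ex_mul_left, Ex_mul_left] at h2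
  unfold Vr
  rwa [Ex_add]

end ne

open Classical in
theorem Pr_def (p : Ω → Prop) : Pr p = Ex (fun ω => if p ω then (1 : ℝ) else 0) := rfl

theorem Pr_nonneg (p : Ω → Prop) : 0 ≤ Pr p := by
  unfold Pr
  exact Ex_nonneg fun ω => by split_ifs <;> norm_num

theorem Pr_le_one [Nonempty Ω] (p : Ω → Prop) : Pr p ≤ 1 := by
  unfold Pr
  exact Ex_le_of_le fun ω => by split_ifs <;> norm_num

theorem Pr_mono {p q : Ω → Prop} (h : ∀ ω, p ω → q ω) : Pr p ≤ Pr q := by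
  unfold Pr
  refine Ex_mono fun ω => ?_
  by_cases h1 : p ω
  · rw [if_pos h1, if_pos (h ω h1)]
  · rw [if_neg h1]
    split_ifs <;> norm_num

theorem Pr_or (p q : Ω → Prop) : Pr (fun ω => p ω ∨ q ω) ≤ Pr p + Pr q := by
  unfold Pr
  rw [← Ex_add]
  refine Ex_mono fun ω => ?_
  by_cases h1 : p ω <;> by_cases h2 : q ω <;> simp [h1, h2]

open Classical in
theorem Pr_not [Nonempty Ω] (p : Ω → Prop) : Pr (fun ω => ¬ p ω) = 1 - Pr p := by
  unfold Pr
  have h0 := Ex_sub (fun _ : Ω => (1 : ℝ)) (fun ω => if p ω then (1 : ℝ) else 0)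
  rw [Ex_const] at h0
  rw [← h0]
  refine Ex_congr fun ω => ?_
  by_cases h1 : p ω
  · rw [if_neg (not_not.2 h1), if_pos h1, sub_self]
  · rw [if_pos h1, if_neg h1, sub_zero]

open Classical in
/-- The union bound. -/
theorem Pr_exists_le {ι : Type*} (s : Finset ι) (p : ι → Ω → Prop) :
    Pr (fun ω => ∃ i ∈ s, p i ω) ≤ ∑ i ∈ s, Pr (p i) := by
  unfold Pr
  rw [← Ex_sum]
  refine Ex_mono fun ω => ?_
  by_cases h : ∃ i ∈ s, p i ω
  · rw [if_pos h]
    obtain ⟨i, hi, hp⟩ := h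
    have h1 : (if p i ω then (1 : ℝ) else 0) = 1 := if_pos hp
    refine h1.symm.le.trans ?_
    exact single_le_sum (f := fun i => if p i ω then (1 : ℝ) else 0)
      (fun j _ => by show 0 ≤ (if p j ω then (1 : ℝ) else 0); split_ifs <;> norm_num) hi
  · rw [if_neg h]
    exact sum_nonneg fun j _ => by split_ifs <;> norm_num

/-- Markov's inequality. -/
theorem markov {f : Ω → ℝ} (hf : ∀ ω, 0 ≤ f ω) {s : ℝ} (hs : 0 < s) :
    Pr (fun ω => s ≤ f ω) ≤ Ex f / s := by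
  unfold Pr
  rw [div_eq_mul_inv, ← Ex_mul_right]
  refine Ex_mono fun ω => ?_
  by_cases h : s ≤ f ω
  · rw [if_pos h, ← div_eq_mul_inv, le_div_iff₀ hs, one_mul]
    exact h
  · rw [if_neg h]
    exact mul_nonneg (hf ω) (inv_nonneg.2 hs.le)

/-- Chebyshev's inequality. -/
theorem chebyshev (f : Ω → ℝ) {s : ℝ} (hs : 0 < s) :
    Pr (fun ω => s ≤ |f ω - Ex f|) ≤ Vr f / s ^ 2 := by
  have h := markov (f := fun ω => (f ω - Ex f) ^ 2) (fun ω => sq_nonneg _) (s := s ^ 2)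
    (by positivity)
  refine (Pr_mono fun ω hω => ?_).trans h
  show s ^ 2 ≤ (f ω - Ex f) ^ 2
  rw [← sq_abs (f ω - Ex f)]
  exact pow_le_pow_left₀ hs.le hω 2

/-- `E f ≤ c + sup * P(f > c)`. -/
theorem Ex_le_add [Nonempty Ω] {f : Ω → ℝ} {c D : ℝ} (hD : ∀ ω, f ω ≤ D) (hc : 0 ≤ D - c) :
    Ex f ≤ c + (D - c) * Pr (fun ω => c < f ω) := by
  unfold Pr
  rw [← Ex_mul_left, ← Ex_const (Ω := Ω) c, ← Ex_add, Ex_const]
  refine Ex_mono fun ω => ?_
  by_cases h : c < f ω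
  · rw [if_pos h]
    have := hD ω
    linarith
  · rw [if_neg h]
    push Not at h
    linarith

end basic

section product

variable {J β : Type*} [Fintype J] [DecidableEq J] [Fintype β]

/-- The average over one coordinate does not change the expectation. -/
theorem Ex_avg [Nonempty β] (i : J) (f : (J → β) → ℝ) : Ex (avg i f) = Ex f := by
  classical
  have key : ∀ u v : β, (∑ ω : J → β, if ω i = v then f (Function.update ω i u) else 0)
      = ∑ ω : J → β, if ω i = u then f ω else 0 := by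
    intro u v
    rw [← sum_filter, ← sum_filter]
    refine sum_bij' (fun ω _ => Function.update ω i u) (fun ω _ => Function.update ω i v)
      ?_ ?_ ?_ ?_ ?_
    · intro ω hω
      simp
    · intro ω hω
      simp
    · intro ω hω
      have h1 : ω i = v := by simpa using hω
      simp [← h1]
    · intro ω hω
      have h1 : ω i = u := by simpa using hω
      simp [← h1]
    · intro ω hω
      rfl
  have hcard : (Fintype.card β : ℝ) ≠ 0 := card_pos'.ne'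
  unfold avg Ex
  congr 1
  rw [← sum_div, sum_comm, div_eq_iff hcard]
  have h2 : ∀ u : β, ∑ ω : J → β, f (Function.update ω i u)
      = (Fintype.card β : ℝ) * ∑ ω : J → β, if ω i = u then f ω else 0 := by
    intro u
    have h3 : ∀ ω : J → β, f (Function.update ω i u)
        = ∑ v : β, if ω i = v then f (Function.update ω i u) else 0 := by
      intro ω
      rw [sum_ite_eq]
      simp
    rw [sum_congr rfl fun ω _ => h3 ω, sum_comm, sum_congr rfl fun v _ => key u v, sum_const,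
      card_univ, nsmul_eq_mul]
  rw [sum_congr rfl fun u _ => h2 u, ← mul_sum, sum_comm, mul_comm]
  congr 1
  refine sum_congr rfl fun ω _ => ?_
  rw [sum_ite_eq]
  simp

end product

end Pool.Agent.W_1b8d5d_h85
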