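import Pool.Agent.W_1b8d5d_h85.DDefs

/-!
MP_1b8d5d_pr, proofs row 571, section 7: the numerical part of the tilt argument.
-/

set_option autoImplicit false

namespace Pool.Agent.W_1b8d5d_h85

open Finset

theorem Tilt4_log {h : ℝ} (hh : 3 ≤ h) :
    1 ≤ Real.log h ∧ Real.log h ≤ h ∧ 1 ≤ Real.sqrt (Real.log h) ∧ Real.sqrt (Real.log h) ≤ h := by
  have h0 : 0 < h := by linarith
  have h1 : 1 ≤ Real.log h := by
    rw [Real.le_log_iff_exp_le h0]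
    have := Real.exp_one_lt_d9
    linarith
  have h2 : Real.log h ≤ h := (Real.log_le_sub_one_of_pos h0).trans (by linarith)
  have h3 : 1 ≤ Real.sqrt (Real.log h) := by
    rw [Real.one_le_sqrt]
    exact h1
  refine ⟨h1, h2, h3, ?_⟩
  rw [Real.sqrt_le_left h0.le]
  nlinarith

theorem Tilt4_x0 {h : ℝ} (hh : 3 ≤ h) : h ^ 19 ≤ x0 h ∧ x0 h ≤ h ^ 20 := by
  obtain ⟨-, -, h3, h4⟩ := Tilt4_log hh
  have h0 : 0 < h := by linarith
  have hs : 0 < Real.sqrt (Real.log h) := by linarith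
  unfold x0
  constructor
  · rw [le_div_iff₀ hs]
    have : h ^ 19 * Real.sqrt (Real.log h) ≤ h ^ 19 * h := mul_le_mul_of_nonneg_left h4 (by positivity)
    calc h ^ 19 * Real.sqrt (Real.log h) ≤ h ^ 19 * h := this
      _ = h ^ 20 := by ring
  · rw [div_le_iff₀ hs]
    have : h ^ 20 * 1 ≤ h ^ 20 * Real.sqrt (Real.log h) := mul_le_mul_of_nonneg_left h3 (by positivity)
    linarith

theorem Tilt4_s0 {h : ℝ} (hh : 3 ≤ h) : h ^ 39 ≤ s0 h ∧ s0 h ≤ h ^ 40 := by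
  obtain ⟨-, -, h3, h4⟩ := Tilt4_log hh
  have h0 : 0 < h := by linarith
  have hs : 0 < Real.sqrt (Real.log h) := by linarith
  unfold s0
  constructor
  · rw [le_div_iff₀ hs]
    have : h ^ 39 * Real.sqrt (Real.log h) ≤ h ^ 39 * h := mul_le_mul_of_nonneg_left h4 (by positivity)
    calc h ^ 39 * Real.sqrt (Real.log h) ≤ h ^ 39 * h := this
      _ = h ^ 40 := by ring
  · rw [div_le_iff₀ hs]
    have : h ^ 40 * 1 ≤ h ^ 40 * Real.sqrt (Real.log h) := mul_le_mul_of_nonneg_left h3 (by positivity)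
    linarith

theorem Tilt4_s0x0 {h : ℝ} (hh : 3 ≤ h) : s0 h = h ^ 20 * x0 h := by
  unfold s0 x0
  ring

/-- The probability of lanes of very negative excess: `s₀ / (x₀² log h) = 1 / √(log h)`. -/
theorem Tilt4_lane {h : ℝ} (hh : 3 ≤ h) :
    s0 h / (x0 h ^ 2 * Real.log h) = 1 / Real.sqrt (Real.log h) := by
  obtain ⟨h1, -, h3, -⟩ := Tilt4_log hh
  have h0 : 0 < h := by linarith
  have hs : 0 < Real.sqrt (Real.log h) := by linarith
  have hsq : Real.sqrt (Real.log h) ^ 2 = Real.log h := Real.sq_sqrt (by linarith)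
  unfold s0 x0
  rw [div_pow, hsq]
  have hL : Real.log h ≠ 0 := by linarith
  have h40 : (h : ℝ) ^ 40 ≠ 0 := by positivity
  have e : (h ^ 20) ^ 2 = h ^ 40 := by ring
  rw [e]
  field_simp

/-- The number of steps `m = ⌈40 log h⌉`. -/
theorem Tilt4_m {h : ℝ} (hh : 3 ≤ h) :
    (⌈40 * Real.log h⌉₊ : ℝ) ≤ 41 * Real.log h ∧ ((1 : ℝ) / 2) ^ ⌈40 * Real.log h⌉₊ ≤ 1 / h ^ 27 := by
  obtain ⟨h1, -, -, -⟩ := Tilt4_log hh
  have h0 : 0 < h := by linarith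
  constructor
  · have := Nat.ceil_lt_add_one (show 0 ≤ 40 * Real.log h by linarith)
    linarith
  · have h2 := Nat.le_ceil (40 * Real.log h)
    have h3 : ((1 : ℝ) / 2) ^ ⌈40 * Real.log h⌉₊
        = Real.exp (-(Real.log 2 * (⌈40 * Real.log h⌉₊ : ℝ))) := by
      have h7 : Real.log 2 * (⌈40 * Real.log h⌉₊ : ℝ) = (⌈40 * Real.log h⌉₊ : ℝ) * Real.log 2 :=
        mul_comm _ _
      rw [one_div, inv_pow, Real.exp_neg, h7, Real.exp_nat_mul, Real.exp_log (by norm_num)]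
    have h4 : (1 : ℝ) / h ^ 27 = Real.exp (-(27 * Real.log h)) := by
      rw [one_div, Real.exp_neg]
      congr 1
      have : (27 : ℝ) * Real.log h = ((27 : ℕ) : ℝ) * Real.log h := by norm_num
      rw [this, Real.exp_nat_mul, Real.exp_log h0]
    rw [h3, h4]
    apply Real.exp_le_exp.2
    have h5 := Real.log_two_gt_d9
    have h6 : 0.69 * (40 * Real.log h) ≤ Real.log 2 * (⌈40 * Real.log h⌉₊ : ℝ) :=
      mul_le_mul (by linarith) h2 (by linarith) (by linarith)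
    linarith

/-- The exponent: with `d = D x₀ / h^60` and at most `G h^60 x₀` edges, `K m² d² N ≤ log h`. -/
theorem Tilt4_exp {h K D G N : ℝ} (hh : 3 ≤ h) (hK : 0 ≤ K) (hG : 0 ≤ G)
    (hN : N ≤ G * h ^ 60 * x0 h) (hL : 1681 * K * D ^ 2 * G ≤ Real.sqrt (Real.log h)) :
    K * (⌈40 * Real.log h⌉₊ : ℝ) ^ 2 * (D * x0 h / h ^ 60) ^ 2 * N ≤ Real.log h := by
  obtain ⟨h1, -, h3, -⟩ := Tilt4_log hh
  have h0 : 0 < h := by linarith
  have hs : 0 < Real.sqrt (Real.log h) := by linarith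
  have hsq : Real.sqrt (Real.log h) ^ 2 = Real.log h := Real.sq_sqrt (by linarith)
  obtain ⟨hm, -⟩ := Tilt4_m hh
  have hm0 : (0 : ℝ) ≤ (⌈40 * Real.log h⌉₊ : ℝ) := Nat.cast_nonneg _
  have hm2 : (⌈40 * Real.log h⌉₊ : ℝ) ^ 2 ≤ (41 * Real.log h) ^ 2 := pow_le_pow_left₀ hm0 hm 2
  have e1 : (D * x0 h / h ^ 60) ^ 2 * (G * h ^ 60 * x0 h) = D ^ 2 * G / Real.sqrt (Real.log h) ^ 3 := by
    unfold x0
    field_simp
  have h4 : K * (⌈40 * Real.log h⌉₊ : ℝ) ^ 2 * (D * x0 h / h ^ 60) ^ 2 * N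
      ≤ K * (41 * Real.log h) ^ 2 * (D * x0 h / h ^ 60) ^ 2 * (G * h ^ 60 * x0 h) := by
    have a1 : K * (⌈40 * Real.log h⌉₊ : ℝ) ^ 2 * (D * x0 h / h ^ 60) ^ 2
        ≤ K * (41 * Real.log h) ^ 2 * (D * x0 h / h ^ 60) ^ 2 :=
      mul_le_mul_of_nonneg_right (mul_le_mul_of_nonneg_left hm2 hK) (sq_nonneg _)
    have a2 : 0 ≤ K * (⌈40 * Real.log h⌉₊ : ℝ) ^ 2 * (D * x0 h / h ^ 60) ^ 2 := by positivity
    have a3 : 0 ≤ G * h ^ 60 * x0 h := by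
      have := (Tilt4_x0 hh).1
      have h5 : 0 ≤ x0 h := le_trans (by positivity) this
      positivity
    calc K * (⌈40 * Real.log h⌉₊ : ℝ) ^ 2 * (D * x0 h / h ^ 60) ^ 2 * N
        ≤ K * (⌈40 * Real.log h⌉₊ : ℝ) ^ 2 * (D * x0 h / h ^ 60) ^ 2 * (G * h ^ 60 * x0 h) :=
          mul_le_mul_of_nonneg_left hN a2
      _ ≤ _ := mul_le_mul_of_nonneg_right a1 a3
  refine h4.trans ?_
  have h5 : K * (41 * Real.log h) ^ 2 * (D * x0 h / h ^ 60) ^ 2 * (G * h ^ 60 * x0 h)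
      = K * (41 * Real.log h) ^ 2 * (D ^ 2 * G / Real.sqrt (Real.log h) ^ 3) := by
    rw [← e1]
    ring
  rw [h5]
  have h6 : K * (41 * Real.log h) ^ 2 * (D ^ 2 * G / Real.sqrt (Real.log h) ^ 3)
      = 1681 * K * D ^ 2 * G * Real.sqrt (Real.log h) := by
    have : (41 * Real.log h) ^ 2 = 1681 * Real.sqrt (Real.log h) ^ 4 := by
      rw [← hsq]
      have e2 : Real.sqrt (Real.sqrt (Real.log h) ^ 2) = Real.sqrt (Real.log h) :=
        Real.sqrt_sq hs.le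
      rw [e2]
      ring
    rw [this]
    field_simp
  rw [h6, ← hsq]
  have e2 : Real.sqrt (Real.sqrt (Real.log h) ^ 2) = Real.sqrt (Real.log h) := Real.sqrt_sq hs.le
  rw [e2]
  calc 1681 * K * D ^ 2 * G * Real.sqrt (Real.log h)
      ≤ Real.sqrt (Real.log h) * Real.sqrt (Real.log h) := mul_le_mul_of_nonneg_right hL hs.le
    _ = Real.sqrt (Real.log h) ^ 2 := by ring

/-- The error of the double counting. -/
theorem Tilt4_err {h K D G N : ℝ} (hh : 4 ≤ h) (hK : 0 ≤ K) (hG : 0 ≤ G)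
    (hN : N ≤ G * h ^ 60 * x0 h) (hL : 1681 * K * D ^ 2 * G ≤ Real.sqrt (Real.log h)) :
    (2 * h ^ 20 + 5) * (2 * (1 / 2) ^ ⌈40 * Real.log h⌉₊ *
      Real.exp (K * (⌈40 * Real.log h⌉₊ : ℝ) ^ 2 * (D * x0 h / h ^ 60) ^ 2 * N)) ≤ 1 / 100 := by
  have h0 : 0 < h := by linarith
  have h1 := Tilt4_exp (h := h) (by linarith) hK hG hN hL
  have h2 := (Tilt4_m (h := h) (by linarith)).2
  have h3 : Real.exp (K * (⌈40 * Real.log h⌉₊ : ℝ) ^ 2 * (D * x0 h / h ^ 60) ^ 2 * N) ≤ h := by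
    rw [← Real.exp_log h0]
    rw [Real.exp_log h0]
    calc Real.exp (K * (⌈40 * Real.log h⌉₊ : ℝ) ^ 2 * (D * x0 h / h ^ 60) ^ 2 * N)
        ≤ Real.exp (Real.log h) := Real.exp_le_exp.2 h1
      _ = h := Real.exp_log h0
  have h4 : 2 * ((1 : ℝ) / 2) ^ ⌈40 * Real.log h⌉₊ *
      Real.exp (K * (⌈40 * Real.log h⌉₊ : ℝ) ^ 2 * (D * x0 h / h ^ 60) ^ 2 * N)
      ≤ 2 * (1 / h ^ 27) * h :=
    mul_le_mul (mul_le_mul_of_nonneg_left h2 (by norm_num)) h3 (Real.exp_pos _).le (by positivity)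
  have h5 : (2 * h ^ 20 + 5) * (2 * (1 / h ^ 27) * h) ≤ 1 / 100 := by
    have e1 : (2 * h ^ 20 + 5) * (2 * (1 / h ^ 27) * h) = (4 * h ^ 20 + 10) / h ^ 26 := by
      field_simp
      ring
    rw [e1, div_le_div_iff₀ (by positivity) (by norm_num)]
    have h6 : (4 : ℝ) ^ 6 ≤ h ^ 6 := pow_le_pow_left₀ (by norm_num) hh 6
    have h7 : (1 : ℝ) ≤ h ^ 20 := one_le_pow₀ (by linarith)
    have h8 : h ^ 26 = h ^ 6 * h ^ 20 := by ring
    rw [h8]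
    have h9 : (4 : ℝ) ^ 6 * h ^ 20 ≤ h ^ 6 * h ^ 20 := mul_le_mul_of_nonneg_right h6 (by positivity)
    norm_num at h9
    linarith
  calc (2 * h ^ 20 + 5) * (2 * (1 / 2) ^ ⌈40 * Real.log h⌉₊ *
      Real.exp (K * (⌈40 * Real.log h⌉₊ : ℝ) ^ 2 * (D * x0 h / h ^ 60) ^ 2 * N))
      ≤ (2 * h ^ 20 + 5) * (2 * (1 / h ^ 27) * h) :=
        mul_le_mul_of_nonneg_left h4 (by positivity)
    _ ≤ 1 / 100 := h5

/-- `(1/2)^n ≤ 1/n`. -/
theorem Tilt4_half (n : ℕ) (hn : 1 ≤ n) : ((1 : ℝ) / 2) ^ n ≤ 1 / n := by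
  have h1 : n < 2 ^ n := Nat.lt_two_pow_self
  have h2 : (n : ℝ) ≤ 2 ^ n := by exact_mod_cast h1.le
  have h3 : (0 : ℝ) < n := by exact_mod_cast hn
  rw [one_div, inv_pow, one_div]
  exact inv_anti₀ h3 h2

end Pool.Agent.W_1b8d5d_h85
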