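import Pool.Agent.W_1b8d5d_h85.Tilt3
import Pool.Agent.W_1b8d5d_h85.Tilt4

/-!
MP_1b8d5d_pr, proofs row 571, section 7: geometric facts for the assembly of the tilt argument.
-/

set_option autoImplicit false

namespace Pool.Agent.W_1b8d5d_h85

open Finset

/-- The event that some long path which starts in the start window has few high edges. -/
def PBad (su : ℝ) (c : Crd) (C α B R : ℝ) (l : ℕ) (τ : Env) : Prop :=
  ∃ z : V, |c.p z - α| ≤ C ∧ |c.q z| ≤ B ∧ ∃ (y : V) (w : grid.Walk z y), w.IsPath ∧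
    l ≤ w.length ∧ (w.length : ℝ) ≤ R ∧ (nHigh su τ w : ℝ) < w.length / 2

/-- The start window is finite. -/
theorem Tilt5_win (c : Crd) {C α B : ℝ} (hC : 0 ≤ C) (hB : 0 ≤ B) :
    ∃ s : Finset V, (∀ z, z ∈ s ↔ (|c.p z - α| ≤ C ∧ |c.q z| ≤ B)) ∧
      (s.card : ℝ) ≤ (4 * c.C * (2 * C) + 2) * (4 * c.C * (2 * B) + 2) := by
  have hbd : ∀ z : V, |c.p z - α| ≤ C ∧ |c.q z| ≤ B → nm z ≤ c.C * (|α| + C + B) := by
    intro z hz
    refine (c.nm_le z).trans (mul_le_mul_of_nonneg_left ?_ (by linarith [c.one_le]))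
    have h1 : |c.p z| ≤ |c.p z - α| + |α| := by
      have := abs_add_le (c.p z - α) α
      rwa [sub_add_cancel] at this
    linarith [hz.1, hz.2]
  have hf : {z : V | |c.p z - α| ≤ C ∧ |c.q z| ≤ B}.Finite :=
    (Tilt2_fin _).subset fun z hz => hbd z hz
  refine ⟨hf.toFinset, fun z => hf.mem_toFinset, ?_⟩
  refine Tilt2_count c (α - C) (2 * C) (-B) (2 * B) (by linarith) (by linarith) _ ?_
  intro z hz
  obtain ⟨h1, h2⟩ := hf.mem_toFinset.1 hz
  rw [abs_le] at h1 h2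
  refine ⟨by linarith [h1.1], by linarith [h1.2], by linarith [h2.1], by linarith [h2.2]⟩

/-- The Peierls estimate for the start window. -/
theorem Tilt5_peierls {Q : Par} {g : V → ℝ} {R : ℝ} {M : Mdl Q.a Q.b} (hG : Good Q g R M) (c : Crd)
    {C α B : ℝ} (hC : 0 ≤ C) (hB : 0 ≤ B) (hR : c.C * (|α| + C + B) ≤ R) (l : ℕ) (hl : 1 ≤ l) :
    M.P (PBad Q.su c C α B R l) ≤
      (4 * c.C * (2 * C) + 2) * (4 * c.C * (2 * B) + 2) * (Q.K * (1 / 2) ^ l) := by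
  obtain ⟨s, hs, hcard⟩ := Tilt5_win c (α := α) hC hB
  have h1 : M.P (PBad Q.su c C α B R l) ≤
      M.P (fun τ => ∃ z ∈ s, ∃ (y : V) (w : grid.Walk z y), w.IsPath ∧
        l ≤ w.length ∧ (w.length : ℝ) ≤ R ∧ (nHigh Q.su τ w : ℝ) < w.length / 2) := by
    refine M.P_mono fun τ _ hτ => ?_
    obtain ⟨z, h2, h3, h4⟩ := hτ
    exact ⟨z, (hs z).2 ⟨h2, h3⟩, h4⟩
  refine h1.trans ((M.P_exists_le s _).trans ?_)
  have hK : 0 ≤ Q.K * (1 / 2) ^ l := by
    have := Q.hK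
    positivity
  have h2 : ∀ z ∈ s, M.P (fun τ => ∃ (y : V) (w : grid.Walk z y), w.IsPath ∧
        l ≤ w.length ∧ (w.length : ℝ) ≤ R ∧ (nHigh Q.su τ w : ℝ) < w.length / 2)
        ≤ Q.K * (1 / 2) ^ l := by
    intro z hz
    refine hG.peierls z l ?_ hl
    have h3 := (hs z).1 hz
    refine le_trans ?_ hR
    refine (c.nm_le z).trans (mul_le_mul_of_nonneg_left ?_ (by linarith [c.one_le]))
    have h4 : |c.p z| ≤ |c.p z - α| + |α| := by
      have := abs_add_le (c.p z - α) α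
      rwa [sub_add_cancel] at this
    linarith [h3.1, h3.2]
  calc ∑ z ∈ s, M.P (fun τ => ∃ (y : V) (w : grid.Walk z y), w.IsPath ∧
        l ≤ w.length ∧ (w.length : ℝ) ≤ R ∧ (nHigh Q.su τ w : ℝ) < w.length / 2)
      ≤ s.card • (Q.K * (1 / 2) ^ l) := sum_le_card_nsmul _ _ _ h2
    _ = s.card * (Q.K * (1 / 2) ^ l) := by rw [nsmul_eq_mul]
    _ ≤ _ := mul_le_mul_of_nonneg_right hcard hK

/-- A good lane is a lane in one of the cells. -/
theorem Tilt5_laneIn {Q : Par} (c : Crd) {C h α B R τmax : ℝ} {l : ℕ} {τ : Env}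
    (hτ : Bd Q.a Q.b τ) (hC : 1 ≤ C) (hx : 0 < x0 h) (hB : B = C * s0 h)
    (hp : h ^ 60 / 2 ≤ h ^ 60 - 2 * h ^ 41 - 2 * C) (hh : 0 ≤ h ^ 60)
    (hl : (l : ℝ) ≤ h ^ 60 / (2 * c.C))
    (hτmax : c.C * (2 * h ^ 60 + 2 * C + 2 * B) ≤ τmax) (hR : Q.b * τmax ≤ Q.a * R)
    (h41 : 0 ≤ h ^ 41)
    (hGL : GoodLane c C h α τ) (hPB : ¬ PBad Q.su c C α B R l τ) (m : ℕ)
    (hm : B / (2 * C * x0 h) + 2 ≤ m) :
    ∃ j ∈ Finset.Icc (-(m : ℤ)) m,
      LaneIn Q.su c C h α B (2 * C * x0 h) (C * x0 h) j τ := by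
  obtain ⟨z, z', w, hw, h1, h2, h3, h4, h5, h6⟩ := hGL
  have hcC : 0 < c.C := by linarith [c.one_le]
  have hW : 0 < 2 * C * x0 h := by positivity
  rw [← hB] at h3 h4
  have hB0 : 0 ≤ B := (abs_nonneg _).trans h3
  refine ⟨⌊(c.q z - 2 * C * x0 h / 2) / (2 * C * x0 h)⌋, Tilt2_sel_mem hW h3 m hm, ?_⟩
  -- the length
  have hp1 : h ^ 60 / 2 ≤ c.p (z' - z) := by
    rw [map_sub]
    rw [abs_le] at h1 h2
    linarith [h1.2, h2.1]
  have hp2 : c.p (z' - z) ≤ h ^ 60 + 2 * C := by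
    rw [map_sub]
    rw [abs_le] at h1 h2
    linarith [h1.1, h2.2]
  have hnm1 : h ^ 60 / (2 * c.C) ≤ nm (z' - z) := by
    rw [div_le_iff₀ (by positivity)]
    have := c.p_le (z' - z)
    have h7 := le_abs_self (c.p (z' - z))
    nlinarith
  have hnm2 : nm (z' - z) ≤ c.C * (2 * h ^ 60 + 2 * C + 2 * B) := by
    refine (c.nm_le _).trans (mul_le_mul_of_nonneg_left ?_ hcC.le)
    have h7 : |c.p (z' - z)| ≤ 2 * h ^ 60 + 2 * C := by
      rw [abs_le]
      constructor <;> linarith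
    have h8 : |c.q (z' - z)| ≤ 2 * B := by
      rw [map_sub]
      have := abs_sub (c.q z') (c.q z)
      linarith
    linarith
  have hlen1 : nm (z' - z) ≤ w.length := nm_le_length w
  have hlen2 := geo_length hτ Q.ha hw
  have hlenR : (w.length : ℝ) ≤ R := by
    have h7 : Q.b * nm (z' - z) ≤ Q.b * τmax :=
      mul_le_mul_of_nonneg_left (hnm2.trans hτmax) (by linarith [Q.ha, Q.hab])
    have h8 : Q.a * w.length ≤ Q.a * R := by linarith
    exact le_of_mul_le_mul_left h8 Q.ha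
  have hlenl : l ≤ w.length := by
    have : (l : ℝ) ≤ w.length := by linarith
    exact_mod_cast this
  have hhigh : (w.length : ℝ) / 2 ≤ nHigh Q.su τ w := by
    by_contra hcon
    exact hPB ⟨z, h1, h3, z', w, hw.1, hlenl, hlenR, not_le.1 hcon⟩
  refine ⟨z, z', w, hw.1, h1, h3, h2, h4, ?_, ?_, ?_⟩
  · intro e he
    obtain ⟨e1, e2⟩ := wedges_support w he
    have key : ∀ v ∈ w.support, v ∈ CV c α (2 * h ^ 42) (h ^ 60) (2 * C * x0 h)
        ⌊(c.q z - 2 * C * x0 h / 2) / (2 * C * x0 h)⌋ := by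
      intro v hv
      obtain ⟨a1, a2, a3⟩ := h5 v hv
      have a4 : |c.q v - c.q z| ≤ 2 * C * x0 h / 2 := by
        have : 2 * C * x0 h / 2 = C * x0 h := by ring
        rw [this]
        exact a3
      obtain ⟨b1, b2⟩ := Tilt2_sel hW a4
      exact ⟨a1, a2, b1, b2⟩
    exact ⟨key _ e1, key _ e2⟩
  · rw [hw.2]
    exact h6
  · have h7 : h ^ 60 / (4 * c.C) = h ^ 60 / (2 * c.C) / 2 := by
      field_simp
      try ring
    rw [h7]
    linarith

end Pool.Agent.W_1b8d5d_h85
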