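import Pool.Agent.W_1b8d5d_h85.Tilt1
import Pool.Agent.W_1b8d5d_h85.Tilt5

/-!
MP_1b8d5d_pr, proofs row 571, section 7: the tilt argument in one model.
-/

set_option autoImplicit false

namespace Pool.Agent.W_1b8d5d_h85

open Finset

/-- The tilt argument at one scale: good lanes are frequent, lanes of very negative excess are rare, the error terms are
small. -/
theorem Tilt6_one {Q : Par} {g : V → ℝ} {R : ℝ} {M : Mdl Q.a Q.b} (hG : Good Q g R M) (c : Crd)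
    {C h α B D N : ℝ} {l m0 m : ℕ} (hC : 1 ≤ C) (hx : 0 < x0 h) (hB : B = C * s0 h)
    (hD : D = 32 * c.C * C / (Q.su - Q.sl)) (hh : 0 < h)
    (hp : h ^ 60 / 2 ≤ h ^ 60 - 2 * h ^ 41 - 2 * C)
    (hl : (l : ℝ) ≤ h ^ 60 / (2 * c.C))
    (hR : Q.b * (c.C * (2 * h ^ 60 + 2 * C + 2 * B)) ≤ Q.a * R)
    (hm0 : B / (2 * C * x0 h) + 2 ≤ m0)
    (hbox : c.C * (|α| + 2 * h ^ 42 + h ^ 60 + ((m0 : ℝ) + 2) * (2 * C * x0 h)) ≤ R)
    (hd : D * x0 h / h ^ 60 ≤ 1 / 2) (hmd : m * (D * x0 h / h ^ 60) ≤ Q.pl)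
    (hx1 : 64 * c.C ≤ D * x0 h)
    (hN : 2 * ((4 * c.C * (2 * h ^ 42 + h ^ 60) + 2) * (4 * c.C * (2 * (2 * C * x0 h)) + 2)) ≤ N)
    (hw1 : C + h ^ 33 / 2 ≤ h ^ 60 / 2) (hw2 : 2 * h ^ 41 ≤ h ^ 60 / 2)
    (hGL : 3 / 4 ≤ M.P (GoodLane c C h α))
    (hPB : M.P (PBad Q.su c C α B R l) ≤ 1 / 8)
    (hLn : M.P (Lane c C (h ^ 33 / 2) (3 / 2 * h ^ 60) α B (C * x0 h)) ≤ 1 / 100)
    (herr : (2 * (m0 : ℝ) + 1) * (2 * (1 / 2) ^ m *
      Real.exp (Q.K * (m : ℝ) ^ 2 * (D * x0 h / h ^ 60) ^ 2 * N)) ≤ 1 / 100) : False := by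
  classical
  have hσ : 0 < Q.su - Q.sl := by linarith [Q.hs]
  have hcC : 0 < c.C := by linarith [c.one_le]
  have hD0 : 0 < D := by rw [hD]; positivity
  set d : ℝ := D * x0 h / h ^ 60 with hddef
  have hd0 : 0 ≤ d := by rw [hddef]; positivity
  set W : ℝ := 2 * C * x0 h with hWdef
  have hW : 0 < W := by rw [hWdef]; positivity
  set Js : Finset ℤ := Finset.Icc (-(m0 : ℤ)) m0 with hJs
  have hjabs : ∀ j ∈ Js, |(j : ℝ)| ≤ m0 := by
    intro j hj
    rw [hJs, mem_Icc] at hj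
    rw [abs_le]
    constructor
    · exact_mod_cast hj.1
    · exact_mod_cast hj.2
  have hcellnm : ∀ j ∈ Js, ∀ e ∈ TCell c h α W j, nm e.1 ≤ R := by
    intro j hj e he
    refine (Tilt2_nm c (by positivity) (by positivity) hW.le he.1).trans ?_
    refine le_trans ?_ hbox
    refine mul_le_mul_of_nonneg_left ?_ hcC.le
    have h1 : (|(j : ℝ)| + 2) * W ≤ ((m0 : ℝ) + 2) * W :=
      mul_le_mul_of_nonneg_right (by linarith [hjabs j hj]) hW.le
    linarith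
  -- the cells as finite sets
  have hcell : ∀ j : ℤ, ∃ s : Finset Edge, (∀ e, e ∈ s ↔ e ∈ TCell c h α W j) ∧
      (s.card : ℝ) ≤ N := by
    intro j
    obtain ⟨s, h1, h2⟩ := Tilt2_cell c (α := α) (u := 2 * h ^ 42) (ℓ := h ^ 60) (W := W) (j := j)
      (by positivity) (by positivity) hW.le
    exact ⟨s, h1, h2.trans hN⟩
  choose s hs hscard using hcell
  -- the kernels
  have hker : ∀ j : ℤ, ∃ J : M.Ω → M.Ω → ℝ, j ∈ Js → ((∀ ω ω', 0 ≤ J ω ω') ∧
      (∀ ω, ∑ ω', J ω ω' = 1) ∧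
      (∀ ω ω', J ω ω' ≠ 0 → (∀ e, M.env ω' e ≤ M.env ω e) ∧
        ∀ e, e ∉ s j → nm e.1 ≤ R → M.env ω' e = M.env ω e) ∧
      (∀ (ω : M.Ω) (H : Finset Edge), H ⊆ s j → (∀ e ∈ H, Q.su ≤ M.env ω e) →
        ∑ ω' ∈ univ.filter (fun ω' => ∑ e ∈ H, (M.env ω e - M.env ω' e)
          < (Q.su - Q.sl) * (d * H.card / 4)), J ω ω' ≤ Real.exp (-(d * H.card / 16))) ∧
      (∀ m : ℕ, m * d ≤ Q.pl → Ex (fun ω' => if 2 < ∑ ω, J ω ω' then ∑ ω, J ω ω' else 0)
        ≤ 2 * (1 / 2) ^ m * Real.exp (Q.K * m ^ 2 * d ^ 2 * (s j).card))) := by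
    intro j
    by_cases hj : j ∈ Js
    · obtain ⟨J, h1, h2, h3, h4, h5⟩ := hG.tilt (s j) d
        (fun e he => hcellnm j hj e ((hs j e).1 he)) hd0 hd
      refine ⟨J, fun _ => ⟨h1, h2, h3, ?_, h5⟩⟩
      intro ω H hH hsu
      convert h4 ω H hH hsu
    · exact ⟨fun _ _ => 0, fun h => absurd h hj⟩
  choose J hJ using hker
  -- the events
  set E : M.Ω → Prop := fun ω => GoodLane c C h α (M.env ω) ∧ ¬ PBad Q.su c C α B R l (M.env ω) ∧
    ¬ Lane c C (h ^ 33 / 2) (3 / 2 * h ^ 60) α B (C * x0 h) (M.env ω) with hE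
  have hselex : ∀ ω, ∃ j, E ω → j ∈ Js ∧ LaneIn Q.su c C h α B W (C * x0 h) j (M.env ω) := by
    intro ω
    by_cases hEω : E ω
    · obtain ⟨j, h1, h2⟩ := Tilt5_laneIn (Q := Q) c (M.bd ω) hC hx hB hp (by positivity) hl le_rfl hR
        (by positivity) hEω.1 hEω.2.1 m0 hm0
      exact ⟨j, fun _ => ⟨h1, h2⟩⟩
    · exact ⟨0, fun h => absurd h hEω⟩
  choose sel hsel using hselex
  set Bad : ℤ → M.Ω → Prop := fun j ω => TBad Q.b c C h α B W (C * x0 h) j (M.env ω) with hBad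
  have hBadLane : ∀ j ω, Bad j ω →
      Lane c C (h ^ 33 / 2) (3 / 2 * h ^ 60) α B (C * x0 h) (M.env ω) := fun j ω hb =>
    Tilt3_lane Q.ha.le (M.bd ω) hw1 (by positivity) hw2 (by positivity) hb
  -- the hypotheses of the double counting
  have H1 : ∀ ω, E ω → 1 / 2 ≤ ∑ ω', if Bad (sel ω) ω' then J (sel ω) ω ω' else 0 := by
    intro ω hEω
    obtain ⟨hjs, z, z', w, hwp, h1, h2, h3, h4, h5, h6, h7⟩ := hsel ω hEω
    obtain ⟨k1, k2, k3, k4, -⟩ := hJ (sel ω) hjs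
    set H : Finset Edge := (wedges w).toFinset.filter fun e => Q.su ≤ M.env ω e with hH
    have hHs : H ⊆ s (sel ω) := by
      intro e he
      exact (hs _ e).2 (h5 e (List.mem_toFinset.1 (mem_filter.1 he).1))
    have hHc : h ^ 60 / (4 * c.C) ≤ H.card := by
      rw [Tilt3_card Q.su (M.env ω) hwp] at h7
      exact h7
    have hdH : D * x0 h / (4 * c.C) ≤ d * H.card := by
      have e1 : D * x0 h / (4 * c.C) = d * (h ^ 60 / (4 * c.C)) := by
        rw [hddef]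
        field_simp
      rw [e1]
      exact mul_le_mul_of_nonneg_left hHc hd0
    have hthr : 2 * (C * x0 h) ≤ (Q.su - Q.sl) * (d * H.card / 4) := by
      have e1 : (Q.su - Q.sl) * (D * x0 h / (4 * c.C) / 4) = 2 * (C * x0 h) := by
        rw [hD]
        field_simp
        ring
      rw [← e1]
      exact mul_le_mul_of_nonneg_left (by linarith) hσ.le
    refine Tilt3_half (J (sel ω) ω) (k1 ω) (k2 ω) (fun ω' => Bad (sel ω) ω')
      (fun ω' => ∑ e ∈ H, (M.env ω e - M.env ω' e) < (Q.su - Q.sl) * (d * H.card / 4)) ?_ ?_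
    · intro ω' hne hnb
      by_contra hcon
      refine hnb ?_
      have hcon' := not_lt.1 hcon
      exact Tilt3_bad (τ := M.env ω) (τ' := M.env ω') Q.ha.le Q.hab.le (M.bd ω')
        (k3 ω ω' hne).1 hwp h1 h2 h3 h4 h5 h6
        (Y := (Q.su - Q.sl) * (d * H.card / 4)) hcon' (by linarith)
    · refine (k4 ω H hHs fun e he => (mem_filter.1 he).2).trans ?_
      have h8 : 1 ≤ d * H.card / 16 := by
        have h9 : 16 ≤ D * x0 h / (4 * c.C) := by
          rw [le_div_iff₀ (by positivity)]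
          linarith
        linarith
      calc Real.exp (-(d * H.card / 16)) ≤ Real.exp (-1) := Real.exp_le_exp.2 (by linarith)
        _ ≤ 1 / 2 := by
            rw [Real.exp_neg, one_div]
            refine inv_anti₀ (by norm_num) ?_
            have := Real.add_one_le_exp (1 : ℝ)
            linarith
  have H2 : ∀ ω ω' j, E ω → J (sel ω) ω ω' ≠ 0 → Bad (sel ω) ω' → j ∈ Js → Bad j ω' →
      |sel ω - j| ≤ 2 := by
    intro ω ω' j hEω hne _ hj hb
    by_contra hcon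
    obtain ⟨-, -, k3, -, -⟩ := hJ (sel ω) (hsel ω hEω).1
    have h1 : TBad Q.b c C h α B W (C * x0 h) j (M.env ω) := by
      refine Tilt3_back hW (not_le.1 hcon) ?_ hb
      intro e he he'
      exact (k3 ω ω' hne).2 e (fun hc => he ((hs _ e).1 hc)) (hcellnm j hj e he')
    exact hEω.2.2 (hBadLane j ω h1)
  have H4 : 1 / 2 ≤ Pr E := by
    have h1 : M.P (GoodLane c C h α) ≤ Pr (fun ω => E ω ∨ (PBad Q.su c C α B R l (M.env ω) ∨
        Lane c C (h ^ 33 / 2) (3 / 2 * h ^ 60) α B (C * x0 h) (M.env ω))) := by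
      refine Pr_mono fun ω hω => ?_
      by_cases a1 : PBad Q.su c C α B R l (M.env ω)
      · exact Or.inr (Or.inl a1)
      · by_cases a2 : Lane c C (h ^ 33 / 2) (3 / 2 * h ^ 60) α B (C * x0 h) (M.env ω)
        · exact Or.inr (Or.inr a2)
        · exact Or.inl ⟨hω, a1, a2⟩
    have h2 := Pr_or E (fun ω => PBad Q.su c C α B R l (M.env ω) ∨
        Lane c C (h ^ 33 / 2) (3 / 2 * h ^ 60) α B (C * x0 h) (M.env ω))
    have h3 := Pr_or (fun ω => PBad Q.su c C α B R l (M.env ω))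
        (fun ω => Lane c C (h ^ 33 / 2) (3 / 2 * h ^ 60) α B (C * x0 h) (M.env ω))
    have h4 : Pr (fun ω => PBad Q.su c C α B R l (M.env ω)) ≤ 1 / 8 := hPB
    have h5 : Pr (fun ω => Lane c C (h ^ 33 / 2) (3 / 2 * h ^ 60) α B (C * x0 h) (M.env ω))
        ≤ 1 / 100 := hLn
    linarith
  have H5 : ∀ j ∈ Js, Ex (fun ω' => if 2 < ∑ ω, J j ω ω' then ∑ ω, J j ω ω' else 0) ≤
      2 * (1 / 2) ^ m * Real.exp (Q.K * (m : ℝ) ^ 2 * d ^ 2 * N) := by
    intro j hj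
    obtain ⟨-, -, -, -, k5⟩ := hJ j hj
    refine (k5 m hmd).trans ?_
    refine mul_le_mul_of_nonneg_left (Real.exp_le_exp.2 ?_) (by positivity)
    have hK := Q.hK
    exact mul_le_mul_of_nonneg_left (hscard j) (by positivity)
  have hfin := Tilt1_count Js J E sel Bad _ (fun j hj => (hJ j hj).1)
    (fun ω hω => (hsel ω hω).1) H1 H2 H4 H5
  have hP : Pr (fun ω' => ∃ j ∈ Js, Bad j ω') ≤ 1 / 100 := by
    refine le_trans ?_ hLn
    exact Pr_mono fun ω hω => by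
      obtain ⟨j, -, hb⟩ := hω
      exact hBadLane j ω hb
  have hcard : (Js.card : ℝ) = 2 * (m0 : ℝ) + 1 := by
    rw [hJs, Int.card_Icc]
    have : ((m0 : ℤ) + 1 - -(m0 : ℤ)).toNat = 2 * m0 + 1 := by omega
    rw [this]
    push_cast
    ring
  rw [hcard] at hfin
  linarith

end Pool.Agent.W_1b8d5d_h85
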