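import Pool.Agent.W_1b8d5d_h85.LFin
import Pool.Agent.W_1b8d5d_h85.Tilt6

/-!
MP_1b8d5d_pr, proofs row 571, section 7: the tilt argument.
-/

set_option autoImplicit false

namespace Pool.Agent.W_1b8d5d_h85

open Finset

private theorem TiltE_mono (c : Crd) {C C' h α : ℝ} (hCC : C ≤ C') (hx : 0 ≤ x0 h)
    (hs : 0 ≤ s0 h) {τ : Env} (hGL : GoodLane c C h α τ) : GoodLane c C' h α τ := by
  obtain ⟨z, z', w, hw, h1, h2, h3, h4, h5, h6⟩ := hGL
  have e1 : C * s0 h ≤ C' * s0 h := mul_le_mul_of_nonneg_right hCC hs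
  have e2 : C * x0 h ≤ C' * x0 h := mul_le_mul_of_nonneg_right hCC hx
  refine ⟨z, z', w, hw, h1.trans hCC, h2.trans hCC, h3.trans e1, h4.trans e1, ?_, by linarith⟩
  intro v hv
  obtain ⟨a1, a2, a3⟩ := h5 v hv
  exact ⟨a1, a2, a3.trans e2⟩

/-- The choice of the scale. -/
private theorem TiltE_scale (K0 K1 : ℝ) : ∃ h : ℕ, K0 ≤ h ∧ K1 ≤ Real.sqrt (Real.log h) := by
  have h1 : Filter.Tendsto (fun n : ℕ => (n : ℝ)) Filter.atTop Filter.atTop :=
    tendsto_natCast_atTop_atTop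
  have h2 : Filter.Tendsto (fun n : ℕ => Real.sqrt (Real.log (n : ℝ))) Filter.atTop Filter.atTop :=
    Real.tendsto_sqrt_atTop.comp (Real.tendsto_log_atTop.comp h1)
  obtain ⟨n, hn⟩ := ((h1.eventually_ge_atTop K0).and (h2.eventually_ge_atTop K1)).exists
  exact ⟨n, hn.1, hn.2⟩

/-- **Section 7.**  Good lanes with probability `≥ 3/4` at all scales contradict the rarity of lanes of very negative excess. -/
theorem tilt_contra (Q : Par) (g : V → ℝ) (hg : IsMean Q g) (hm : HasModels Q g) (c : Crd) (c₀ C₁ : ℝ)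
    (hc : IsCone g c c₀ C₁)
    (hGL : ∃ C h₀ : ℝ, ∀ h : ℕ, h₀ ≤ h → ∀ (R : ℝ) (M : Mdl Q.a Q.b), Good Q g R M →
      (h : ℝ) ^ 1000 ≤ R → ∃ α : ℝ, |α| ≤ 2 * (h : ℝ) ^ 80 ∧ 3 / 4 ≤ M.P (GoodLane c C h α)) : False := by
  obtain ⟨C', h₀, hGL'⟩ := hGL
  obtain ⟨C, hCdef⟩ : ∃ C : ℝ, C = max C' 1 := ⟨_, rfl⟩
  have hC : 1 ≤ C := by rw [hCdef]; exact le_max_right _ _
  have hCC : C' ≤ C := by rw [hCdef]; exact le_max_left _ _
  obtain ⟨CL, h₁, hCL, hlanes⟩ := lanes Q g hg c C c₀ C₁ hc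
  have ha := Q.ha
  have hb : 0 < Q.b := lt_trans Q.ha Q.hab
  have hσ : 0 < Q.su - Q.sl := by linarith [Q.hs]
  have hpl := Q.hpl
  have hK := Q.hK
  have hcC1 := c.one_le
  have hcC : 0 < c.C := by linarith
  obtain ⟨D, hD⟩ : ∃ D : ℝ, D = 32 * c.C * C / (Q.su - Q.sl) := ⟨_, rfl⟩
  have hD0 : 0 < D := by rw [hD]; positivity
  obtain ⟨G, hGdef⟩ : ∃ G : ℝ, G = 504 * c.C ^ 2 * C := ⟨_, rfl⟩
  have hG0 : 0 ≤ G := by rw [hGdef]; positivity
  obtain ⟨h, hK0, hK1⟩ := TiltE_scale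
    (|h₀| + |h₁| + 10 + 10 * C + 10 * c.C + 41 * D / Q.pl + 2 * D + 64 * c.C / D +
      6 * c.C * Q.b / Q.a + 800 * c.C ^ 2 * C ^ 2 * Q.K)
    (1681 * Q.K * D ^ 2 * G + 1000 * CL)
  -- individual bounds
  have p1 := abs_nonneg h₀
  have p2 := abs_nonneg h₁
  have p3 : 0 ≤ 41 * D / Q.pl := by positivity
  have p4 : 0 ≤ 64 * c.C / D := by positivity
  have p5 : 0 ≤ 6 * c.C * Q.b / Q.a := by positivity
  have p6 : 0 ≤ 800 * c.C ^ 2 * C ^ 2 * Q.K := by positivity
  have q1 : h₀ ≤ h := by linarith [le_abs_self h₀]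
  have q2 : h₁ ≤ h := by linarith [le_abs_self h₁]
  have q3 : (10 : ℝ) ≤ h := by linarith
  have q4 : 10 * C ≤ h := by linarith
  have q5 : 10 * c.C ≤ h := by linarith
  have q6 : 41 * D / Q.pl ≤ h := by linarith
  have q7 : 2 * D ≤ h := by linarith
  have q8 : 64 * c.C / D ≤ h := by linarith
  have q9 : 6 * c.C * Q.b / Q.a ≤ h := by linarith
  have q10 : 800 * c.C ^ 2 * C ^ 2 * Q.K ≤ h := by linarith
  have r1 : 1681 * Q.K * D ^ 2 * G ≤ Real.sqrt (Real.log h) := by linarith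
  have r2 : 1000 * CL ≤ Real.sqrt (Real.log h) := by
    have : 0 ≤ 1681 * Q.K * D ^ 2 * G := by positivity
    linarith
  obtain ⟨H, hH⟩ : ∃ H : ℝ, H = (h : ℝ) := ⟨_, rfl⟩
  rw [← hH] at q1 q2 q3 q4 q5 q6 q7 q8 q9 q10 r1 r2
  have hH0 : 0 < H := by linarith
  have hH3 : 3 ≤ H := by linarith
  obtain ⟨hx1, hx2⟩ := Tilt4_x0 hH3
  obtain ⟨hs1, hs2⟩ := Tilt4_s0 hH3
  have hx : 0 < x0 H := lt_of_lt_of_le (by positivity) hx1
  have hs : 0 < s0 H := lt_of_lt_of_le (by positivity) hs1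
  obtain ⟨R, M, hRR, hG⟩ := hm (H ^ 1000)
  obtain ⟨α, hα, hP⟩ := hGL' h (by rw [← hH]; exact q1) R M hG (by rw [← hH]; exact hRR)
  rw [← hH] at hα hP
  have hP' : 3 / 4 ≤ M.P (GoodLane c C H α) :=
    hP.trans (M.P_mono fun τ _ hτ => TiltE_mono c hCC hx.le hs.le hτ)
  -- powers
  have w1 : ∀ n : ℕ, (1 : ℝ) ≤ H ^ n := fun n => one_le_pow₀ (by linarith)
  have w2 : ∀ n m : ℕ, n ≤ m → H ^ n ≤ H ^ m := fun n m hnm => pow_le_pow_right₀ (by linarith) hnm
  have w3 : ∀ n m : ℕ, m = n + 1 → 10 * H ^ n ≤ H ^ m := fun n m hnm => by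
    rw [hnm, pow_succ, mul_comm (H ^ n)]
    exact mul_le_mul_of_nonneg_right q3 (by positivity)
  obtain ⟨B, hB⟩ : ∃ B : ℝ, B = C * s0 H := ⟨_, rfl⟩
  have hB1 : H ^ 39 ≤ B := by
    rw [hB]
    exact hs1.trans (le_mul_of_one_le_left hs.le hC)
  have hB2 : B ≤ H ^ 41 / 10 := by
    have e1 : C * s0 H ≤ (H / 10) * H ^ 40 := mul_le_mul (by linarith) hs2 hs.le (by positivity)
    have e2 : (H / 10) * H ^ 40 = H ^ 41 / 10 := by ring
    rw [hB]
    linarith
  have hB0 : 0 < B := lt_of_lt_of_le (by positivity) hB1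
  -- the numbers of section 7
  refine Tilt6_one (l := h ^ 59) (m0 := h ^ 20 + 2) (m := ⌈40 * Real.log H⌉₊) (D := D)
    (N := G * H ^ 60 * x0 H) hG c hC hx hB hD hH0 ?_ ?_ ?_ ?_ ?_ ?_ ?_ ?_ ?_ ?_ ?_ hP' ?_ ?_ ?_
  · -- hp
    have e1 := w3 59 60 rfl
    have e2 := w2 41 59 (by norm_num)
    have e3 := w2 1 59 (by norm_num)
    rw [pow_one] at e3
    linarith
  · -- hl
    rw [le_div_iff₀ (by positivity)]
    push_cast
    rw [← hH]
    have e1 : H ^ 59 * (2 * c.C) ≤ H ^ 59 * H := mul_le_mul_of_nonneg_left (by linarith) (by positivity)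
    calc H ^ 59 * (2 * c.C) ≤ H ^ 59 * H := e1
      _ = H ^ 60 := by ring
  · -- hR
    have e1 : c.C * (2 * H ^ 60 + 2 * C + 2 * B) ≤ c.C * (3 * H ^ 60) := by
      refine mul_le_mul_of_nonneg_left ?_ hcC.le
      have a1 := w2 1 59 (by norm_num)
      have a2 := w2 41 59 (by norm_num)
      have a3 := w3 59 60 rfl
      rw [pow_one] at a1
      linarith
    have e2 : Q.b * (c.C * (3 * H ^ 60)) ≤ Q.a * (H * H ^ 60) := by
      rw [div_le_iff₀ ha] at q9
      have : Q.b * (c.C * (3 * H ^ 60)) = (3 * c.C * Q.b) * H ^ 60 := by ring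
      rw [this]
      have : Q.a * (H * H ^ 60) = (H * Q.a) * H ^ 60 := by ring
      rw [this]
      refine mul_le_mul_of_nonneg_right ?_ (by positivity)
      have : 0 ≤ c.C * Q.b := by positivity
      linarith
    have e3 : Q.a * (H * H ^ 60) ≤ Q.a * R := by
      refine mul_le_mul_of_nonneg_left ?_ ha.le
      have : H * H ^ 60 = H ^ 61 := by ring
      rw [this]
      exact (w2 61 1000 (by norm_num)).trans hRR
    have e4 := mul_le_mul_of_nonneg_left e1 hb.le
    linarith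
  · -- hm0
    have e1 : B / (2 * C * x0 H) = H ^ 20 / 2 := by
      rw [hB, Tilt4_s0x0 hH3]
      field_simp
    rw [e1]
    push_cast
    rw [← hH]
    have := w1 20
    linarith
  · -- hbox
    push_cast
    rw [← hH]
    have e1 : (H ^ 20 + 2 + 2) * (2 * C * x0 H) ≤ (2 * H ^ 20) * (H * H ^ 20) := by
      refine mul_le_mul ?_ ?_ (by positivity) (by positivity)
      · have := w2 1 20 (by norm_num)
        rw [pow_one] at this
        linarith
      · exact mul_le_mul (by linarith) hx2 hx.le (by positivity)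
    have e2 : (2 * H ^ 20) * (H * H ^ 20) = 2 * H ^ 41 := by ring
    have e3 : |α| + 2 * H ^ 42 + H ^ 60 + (H ^ 20 + 2 + 2) * (2 * C * x0 H) ≤ 10 * H ^ 80 := by
      have a1 := w2 42 80 (by norm_num)
      have a2 := w2 60 80 (by norm_num)
      have a3 := w2 41 80 (by norm_num)
      linarith
    have e4 : c.C * (|α| + 2 * H ^ 42 + H ^ 60 + (H ^ 20 + 2 + 2) * (2 * C * x0 H)) ≤
        H * (10 * H ^ 80) := mul_le_mul (by linarith) e3 (by positivity) (by positivity)
    have e5 : H * (10 * H ^ 80) = 10 * H ^ 81 := by ring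
    have e6 := w3 81 82 rfl
    have e7 := w2 82 1000 (by norm_num)
    linarith
  · -- hd
    rw [div_le_div_iff₀ (by positivity) (by norm_num)]
    have e1 : D * x0 H ≤ (H / 2) * H ^ 20 := mul_le_mul (by linarith) hx2 hx.le (by positivity)
    have e2 : (H / 2) * H ^ 20 = H ^ 21 / 2 := by ring
    have e3 := w2 21 60 (by norm_num)
    linarith
  · -- hmd
    obtain ⟨hm1, -⟩ := Tilt4_m hH3
    obtain ⟨-, hL2, -, -⟩ := Tilt4_log hH3
    have e1 : (⌈40 * Real.log H⌉₊ : ℝ) ≤ 41 * H := by linarith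
    have e2 : D * x0 H / H ^ 60 ≤ D / H ^ 40 := by
      rw [div_le_div_iff₀ (by positivity) (by positivity)]
      have : D * x0 H * H ^ 40 ≤ D * H ^ 20 * H ^ 40 :=
        mul_le_mul_of_nonneg_right (mul_le_mul_of_nonneg_left hx2 hD0.le) (by positivity)
      calc D * x0 H * H ^ 40 ≤ D * H ^ 20 * H ^ 40 := this
        _ = D * H ^ 60 := by ring
    have e3 : (⌈40 * Real.log H⌉₊ : ℝ) * (D * x0 H / H ^ 60) ≤ 41 * H * (D / H ^ 40) :=
      mul_le_mul e1 e2 (by positivity) (by positivity)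
    refine e3.trans ?_
    have e4 : 41 * H * (D / H ^ 40) = 41 * D / H ^ 39 := by
      field_simp
    rw [e4, div_le_iff₀ (by positivity)]
    rw [div_le_iff₀ hpl] at q6
    have e5 : H ≤ H ^ 39 := by
      have := w2 1 39 (by norm_num)
      rwa [pow_one] at this
    have e6 : H * Q.pl ≤ H ^ 39 * Q.pl := mul_le_mul_of_nonneg_right e5 hpl.le
    linarith
  · -- hx1
    rw [div_le_iff₀ hD0] at q8
    have e5 : H ≤ x0 H := by
      have := w2 1 19 (by norm_num)
      rw [pow_one] at this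
      linarith
    have := mul_le_mul_of_nonneg_right e5 hD0.le
    linarith
  · -- hN
    have e1 : 4 * c.C * (2 * H ^ 42 + H ^ 60) + 2 ≤ 14 * c.C * H ^ 60 := by
      have a1 := w2 42 60 (by norm_num)
      have a2 := w1 60
      have a3 : c.C * H ^ 42 ≤ c.C * H ^ 60 := mul_le_mul_of_nonneg_left a1 hcC.le
      have a4 : 1 ≤ c.C * H ^ 60 := one_le_mul_of_one_le_of_one_le hcC1 a2
      linarith only [a3, a4]
    have e2 : 4 * c.C * (2 * (2 * C * x0 H)) + 2 ≤ 18 * c.C * C * x0 H := by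
      have a1 : 1 ≤ x0 H := (w1 19).trans hx1
      have a2 : 1 ≤ c.C * C := one_le_mul_of_one_le_of_one_le hcC1 hC
      have a3 : 1 ≤ c.C * C * x0 H := one_le_mul_of_one_le_of_one_le a2 a1
      linarith only [a3]
    have e3 : (4 * c.C * (2 * H ^ 42 + H ^ 60) + 2) * (4 * c.C * (2 * (2 * C * x0 H)) + 2) ≤
        (14 * c.C * H ^ 60) * (18 * c.C * C * x0 H) :=
      mul_le_mul e1 e2 (by positivity) (by positivity)
    have e4 : 2 * ((14 * c.C * H ^ 60) * (18 * c.C * C * x0 H)) = G * H ^ 60 * x0 H := by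
      rw [hGdef]
      ring
    linarith
  · -- hw1
    have e1 := w2 1 33 (by norm_num)
    have e2 := w3 59 60 rfl
    have e3 := w2 33 59 (by norm_num)
    rw [pow_one] at e1
    linarith
  · -- hw2
    have e2 := w3 59 60 rfl
    have e3 := w2 41 59 (by norm_num)
    linarith
  · -- Peierls
    have hbox2 : c.C * (|α| + C + B) ≤ R := by
      have e3 : |α| + C + B ≤ 10 * H ^ 80 := by
        have a1 := w2 1 80 (by norm_num)
        have a3 := w2 41 80 (by norm_num)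
        rw [pow_one] at a1
        linarith
      have e4 : c.C * (|α| + C + B) ≤ H * (10 * H ^ 80) :=
        mul_le_mul (by linarith) e3 (by positivity) (by positivity)
      have e5 : H * (10 * H ^ 80) = 10 * H ^ 81 := by ring
      have e6 := w3 81 82 rfl
      have e7 := w2 82 1000 (by norm_num)
      linarith
    have hl1 : 1 ≤ h ^ 59 := by
      have : 1 ≤ h := by
        have h10 : (10 : ℝ) ≤ (h : ℝ) := by rw [← hH]; exact q3
        have : (10 : ℕ) ≤ h := by exact_mod_cast h10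
        omega
      exact Nat.one_le_pow _ _ this
    refine (Tilt5_peierls hG c (by linarith) hB0.le hbox2 (h ^ 59) hl1).trans ?_
    have e1 := Tilt4_half (h ^ 59) hl1
    push_cast at e1
    rw [← hH] at e1
    have e2 : 4 * c.C * (2 * C) + 2 ≤ 10 * c.C * C := by
      have a2 : 1 ≤ c.C * C := one_le_mul_of_one_le_of_one_le hcC1 hC
      linarith only [a2]
    have e3 : 4 * c.C * (2 * B) + 2 ≤ 10 * c.C * B := by
      have a1 : 1 ≤ B := (w1 39).trans hB1
      have a2 : 1 ≤ c.C * B := one_le_mul_of_one_le_of_one_le hcC1 a1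
      linarith only [a2]
    have e4 : (4 * c.C * (2 * C) + 2) * (4 * c.C * (2 * B) + 2) ≤ (10 * c.C * C) * (10 * c.C * B) :=
      mul_le_mul e2 e3 (by positivity) (by positivity)
    have e5 : (10 * c.C * C) * (10 * c.C * B) ≤ 100 * c.C ^ 2 * C ^ 2 * H ^ 40 := by
      have : (10 * c.C * C) * (10 * c.C * B) = 100 * c.C ^ 2 * C ^ 2 * s0 H := by
        rw [hB]
        ring
      rw [this]
      exact mul_le_mul_of_nonneg_left hs2 (by positivity)
    have e6 : Q.K * (1 / 2) ^ h ^ 59 ≤ Q.K * (1 / H ^ 59) :=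
      mul_le_mul_of_nonneg_left e1 (by linarith)
    have e7 : (4 * c.C * (2 * C) + 2) * (4 * c.C * (2 * B) + 2) * (Q.K * (1 / 2) ^ h ^ 59) ≤
        (100 * c.C ^ 2 * C ^ 2 * H ^ 40) * (Q.K * (1 / H ^ 59)) :=
      mul_le_mul (e4.trans e5) e6 (by positivity) (by positivity)
    refine e7.trans ?_
    have e8 : (100 * c.C ^ 2 * C ^ 2 * H ^ 40) * (Q.K * (1 / H ^ 59)) =
        (100 * c.C ^ 2 * C ^ 2 * Q.K) / H ^ 19 := by
      field_simp
    rw [e8, div_le_iff₀ (by positivity)]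
    have e9 := w2 1 19 (by norm_num)
    rw [pow_one] at e9
    linarith
  · -- lanes
    have e1 := hlanes H q2 R M hG hRR α B (C * x0 H) ?_ ?_ ?_ ?_
    · refine e1.trans ?_
      have e2 : CL * B / ((C * x0 H) ^ 2 * Real.log H) = CL / C * (s0 H / (x0 H ^ 2 * Real.log H)) := by
        obtain ⟨hL1, -, -, -⟩ := Tilt4_log hH3
        have hL : 0 < Real.log H := by linarith
        rw [hB]
        field_simp
      rw [e2, Tilt4_lane hH3]
      have hs3 : 0 < Real.sqrt (Real.log H) := by linarith [(Tilt4_log hH3).2.2.1]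
      have e3 : CL / C * (1 / Real.sqrt (Real.log H)) ≤ 1 / 1000 := by
        have a1 : CL / C ≤ CL := by
          rw [div_le_iff₀ (by linarith only [hC])]
          exact le_mul_of_one_le_right (by linarith only [hCL]) hC
        have a2 : CL / C * (1 / Real.sqrt (Real.log H)) ≤ CL * (1 / Real.sqrt (Real.log H)) :=
          mul_le_mul_of_nonneg_right a1 (by positivity)
        refine a2.trans ?_
        rw [mul_one_div, div_le_div_iff₀ hs3 (by norm_num)]
        linarith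
      have e4 : 1 / H ^ 100 ≤ 1 / 1000 := by
        refine one_div_le_one_div_of_le (by norm_num) ?_
        have := w2 3 100 (by norm_num)
        have : (10 : ℝ) ^ 3 ≤ H ^ 3 := pow_le_pow_left₀ (by norm_num) q3 3
        norm_num at this
        linarith
      linarith
    · have := w3 80 81 rfl
      have := w1 80
      linarith
    · exact (w2 35 39 (by norm_num)).trans hB1
    · have := w2 41 42 (by norm_num)
      linarith
    · exact ((w2 18 19 (by norm_num)).trans hx1).trans (le_mul_of_one_le_left hx.le hC)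
  · -- err
    have e1 := Tilt4_err (h := H) (K := Q.K) (D := D) (G := G) (N := G * H ^ 60 * x0 H)
      (by linarith) (by linarith) hG0 le_rfl r1
    push_cast
    rw [← hH]
    have e2 : (2 * (H ^ 20 + 2) + 1 : ℝ) = 2 * H ^ 20 + 5 := by ring
    rw [e2]
    exact e1

end Pool.Agent.W_1b8d5d_h85
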