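import Pool.Agent.W_1b8d5d_h85.DGood
import Pool.Agent.W_1b8d5d_h85.TiltE

/-!
MP_1b8d5d_pr, proofs row 571: the core theorem.
-/

set_option autoImplicit false

namespace Pool.Agent.W_1b8d5d_h85

/-- **Core theorem.**  A corner with two flat cones which end at corners is impossible. -/
theorem core (Q : Par) (g : V → ℝ) (hg : IsMean Q g) (hm : HasModels Q g) (c d : Crd) (c₀ C₁ θ η : ℝ)
    (hc : IsCone g c c₀ C₁) (hd : IsCone g d c₀ C₁) (hθ : 0 < θ) (hq : ∀ x, d.q x = -θ * c.q x)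
    (hp : ∀ x, d.p x = c.p x + η * c.q x) : False :=
  tilt_contra Q g hg hm c c₀ C₁ hc (good_lane Q g hg c d c₀ C₁ θ η ⟨hc, hd, hθ, hq, hp⟩)

end Pool.Agent.W_1b8d5d_h85
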