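import Pool.Agent.W_1b8d5d_h85.DDet

/-!
MP_1b8d5d_pr, proofs row 571, (6a): heights at the columns.
-/

set_option autoImplicit false

namespace Pool.Agent.W_1b8d5d_h85

open Finset

private theorem DCol_net (c e : Crd) (lam : ℝ) (hlam : lam ≠ 0)
    (hq : ∀ x, e.q x = lam * c.q x) (δ : ℝ) (hδ : 0 < δ) :
    ∃ (C : ℝ) (n : ℕ), ∀ (α u : ℝ), 1 ≤ u →
      ∃ s : Finset V, s.card ≤ n ∧
        (∀ z' ∈ s, |e.p z' - α| ≤ C ∧ |c.q z'| ≤ 3 * u + C ∧ u / 2 - C ≤ |c.q z'|) ∧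
        ∀ z, α ≤ e.p z → e.p z ≤ α + e.C → u ≤ |c.q z| → |c.q z| ≤ 2 * u →
          ∃ z' ∈ s, nm (z - z') ≤ δ * u + C := by
  classical
  have hL : 0 < |lam| := abs_pos.2 hlam
  have hC1 := e.one_le
  have hC0 : 0 < e.C := by linarith
  obtain ⟨δ', hδ'⟩ : ∃ δ' : ℝ, δ' = min (1 / 2) (δ / (e.C * |lam|)) := ⟨_, rfl⟩
  have hδ'0 : 0 < δ' := by
    rw [hδ']
    exact lt_min (by norm_num) (by positivity)
  have hδ'1 : δ' ≤ 1 / 2 := by
    rw [hδ']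
    exact min_le_left _ _
  have hδ'2 : e.C * |lam| * δ' ≤ δ := by
    have h1 : δ' ≤ δ / (e.C * |lam|) := by
      rw [hδ']
      exact min_le_right _ _
    rw [le_div_iff₀ (by positivity)] at h1
    linarith
  obtain ⟨N, hN⟩ : ∃ N : ℕ, N = ⌊2 / δ'⌋₊ + 1 := ⟨_, rfl⟩
  refine ⟨e.C + e.C / |lam| + 3 * e.C ^ 2, 2 * N, fun α u hu => ?_⟩
  have hu0 : 0 < u := by linarith
  -- the points
  have hpt : ∀ t : ℝ, u / 2 ≤ |t| → |t| ≤ 2 * u → |e.p (e.rd α (lam * t)) - α| ≤ e.C ∧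
      |c.q (e.rd α (lam * t)) - t| ≤ e.C / |lam| := by
    intro t _ _
    refine ⟨e.rd_p _ _, ?_⟩
    have h1 := e.rd_q α (lam * t)
    rw [hq, ← mul_sub, abs_mul] at h1
    rw [le_div_iff₀ hL]
    linarith
  have hin : ∀ t : ℝ, u / 2 ≤ |t| → |t| ≤ 2 * u →
      |e.p (e.rd α (lam * t)) - α| ≤ e.C + e.C / |lam| + 3 * e.C ^ 2 ∧
      |c.q (e.rd α (lam * t))| ≤ 3 * u + (e.C + e.C / |lam| + 3 * e.C ^ 2) ∧
      u / 2 - (e.C + e.C / |lam| + 3 * e.C ^ 2) ≤ |c.q (e.rd α (lam * t))| := by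
    intro t h1 h2
    obtain ⟨h3, h4⟩ := hpt t h1 h2
    have h5 : 0 ≤ e.C / |lam| := by positivity
    have h6 : 0 ≤ 3 * e.C ^ 2 := by positivity
    have h7 := abs_sub_abs_le_abs_sub (c.q (e.rd α (lam * t))) t
    have h8 := abs_sub_abs_le_abs_sub t (c.q (e.rd α (lam * t)))
    rw [abs_sub_comm t] at h8
    refine ⟨by linarith, by linarith, by linarith⟩
  have hcov : ∀ (z : V) (t : ℝ), α ≤ e.p z → e.p z ≤ α + e.C → |c.q z - t| ≤ δ' * u →
      nm (z - e.rd α (lam * t)) ≤ δ * u + (e.C + e.C / |lam| + 3 * e.C ^ 2) := by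
    intro z t h1 h2 h3
    have h4 := e.nm_le (z - e.rd α (lam * t))
    have h5 : |e.p (z - e.rd α (lam * t))| ≤ 2 * e.C := by
      rw [map_sub]
      have h6 := e.rd_p α (lam * t)
      rw [abs_le] at h6 ⊢
      constructor <;> linarith [h6.1, h6.2]
    have h7 : |e.q (z - e.rd α (lam * t))| ≤ |lam| * (δ' * u) + e.C := by
      rw [map_sub]
      have h8 := e.rd_q α (lam * t)
      have h9 : |e.q z - lam * t| ≤ |lam| * (δ' * u) := by
        rw [hq, ← mul_sub, abs_mul]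
        exact mul_le_mul_of_nonneg_left h3 hL.le
      rw [abs_le] at h8 h9 ⊢
      constructor <;> linarith [h8.1, h8.2, h9.1, h9.2]
    have h10 : e.C * (|e.p (z - e.rd α (lam * t))| + |e.q (z - e.rd α (lam * t))|) ≤
        e.C * (2 * e.C + (|lam| * (δ' * u) + e.C)) :=
      mul_le_mul_of_nonneg_left (add_le_add h5 h7) hC0.le
    have h11 : e.C * |lam| * δ' * u ≤ δ * u := mul_le_mul_of_nonneg_right hδ'2 hu0.le
    have h12 : 0 ≤ e.C / |lam| := by positivity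
    nlinarith
  refine ⟨((Finset.range N).filter (fun i : ℕ => 1 / 2 ≤ (i : ℝ) * δ')).image
      (fun i : ℕ => e.rd α (lam * ((i : ℝ) * δ' * u))) ∪
    ((Finset.range N).filter (fun i : ℕ => 1 / 2 ≤ (i : ℝ) * δ')).image
      (fun i : ℕ => e.rd α (lam * (-((i : ℝ) * δ' * u)))), ?_, ?_, ?_⟩
  · refine (Finset.card_union_le _ _).trans ?_
    have h1 : ((Finset.range N).filter (fun i : ℕ => 1 / 2 ≤ (i : ℝ) * δ')).card ≤ N :=
      (Finset.card_filter_le _ _).trans (by rw [Finset.card_range])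
    have h2 := Finset.card_image_le (s := (Finset.range N).filter (fun i : ℕ => 1 / 2 ≤ (i : ℝ) * δ'))
      (f := fun i : ℕ => e.rd α (lam * ((i : ℝ) * δ' * u)))
    have h3 := Finset.card_image_le (s := (Finset.range N).filter (fun i : ℕ => 1 / 2 ≤ (i : ℝ) * δ'))
      (f := fun i : ℕ => e.rd α (lam * (-((i : ℝ) * δ' * u))))
    omega
  · intro z' hz'
    have hi : ∀ i ∈ (Finset.range N).filter (fun i : ℕ => 1 / 2 ≤ (i : ℝ) * δ'),
        u / 2 ≤ (i : ℝ) * δ' * u ∧ (i : ℝ) * δ' * u ≤ 2 * u := by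
      intro i hi
      rw [Finset.mem_filter, Finset.mem_range] at hi
      have h1 : (i : ℝ) ≤ 2 / δ' := by
        have h2 : i ≤ ⌊2 / δ'⌋₊ := by omega
        exact (Nat.cast_le.2 h2).trans (Nat.floor_le (by positivity))
      rw [le_div_iff₀ hδ'0] at h1
      constructor
      · have := mul_le_mul_of_nonneg_right hi.2 hu0.le
        linarith
      · exact mul_le_mul_of_nonneg_right h1 hu0.le
    rcases Finset.mem_union.1 hz' with h | h
    · obtain ⟨i, hi1, rfl⟩ := Finset.mem_image.1 h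
      obtain ⟨h1, h2⟩ := hi i hi1
      have h0 : 0 ≤ (i : ℝ) * δ' * u := by positivity
      exact hin _ (by rw [abs_of_nonneg h0]; exact h1) (by rw [abs_of_nonneg h0]; exact h2)
    · obtain ⟨i, hi1, rfl⟩ := Finset.mem_image.1 h
      obtain ⟨h1, h2⟩ := hi i hi1
      have h0 : 0 ≤ (i : ℝ) * δ' * u := by positivity
      exact hin _ (by rw [abs_neg, abs_of_nonneg h0]; exact h1)
        (by rw [abs_neg, abs_of_nonneg h0]; exact h2)
  · intro z h1 h2 h3 h4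
    obtain ⟨i, hi⟩ : ∃ i : ℕ, i = ⌊|c.q z| / (δ' * u)⌋₊ := ⟨_, rfl⟩
    have hpos : 0 < δ' * u := by positivity
    have h5 : (i : ℝ) * (δ' * u) ≤ |c.q z| := by
      rw [← le_div_iff₀ hpos, hi]
      exact Nat.floor_le (by positivity)
    have h6 : |c.q z| < ((i : ℝ) + 1) * (δ' * u) := by
      rw [← div_lt_iff₀ hpos, hi]
      exact Nat.lt_floor_add_one _
    have h7 : i ∈ (Finset.range N).filter (fun i : ℕ => 1 / 2 ≤ (i : ℝ) * δ') := by
      rw [Finset.mem_filter, Finset.mem_range]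
      constructor
      · have h8 : i ≤ ⌊2 / δ'⌋₊ := by
          apply Nat.le_floor
          rw [le_div_iff₀ hδ'0]
          have h9 : (i : ℝ) * δ' * u ≤ 2 * u := by nlinarith
          exact le_of_mul_le_mul_right h9 hu0
        omega
      · have h8 : u < ((i : ℝ) + 1) * δ' * u := by nlinarith
        have h9 : 1 < ((i : ℝ) + 1) * δ' := by
          by_contra hcon
          push Not at hcon
          have := mul_le_mul_of_nonneg_right hcon hu0.le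
          linarith
        linarith
    rcases le_total 0 (c.q z) with hs | hs
    · refine ⟨e.rd α (lam * ((i : ℝ) * δ' * u)), ?_, hcov z _ h1 h2 ?_⟩
      · exact Finset.mem_union_left _ (Finset.mem_image.2 ⟨i, h7, rfl⟩)
      · rw [abs_of_nonneg hs] at h5 h6
        rw [abs_le]
        constructor <;> nlinarith
    · refine ⟨e.rd α (lam * (-((i : ℝ) * δ' * u))), ?_, hcov z _ h1 h2 ?_⟩
      · exact Finset.mem_union_right _ (Finset.mem_image.2 ⟨i, h7, rfl⟩)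
      · rw [abs_of_nonpos hs] at h5 h6
        rw [abs_le]
        constructor <;> nlinarith

private theorem DCol_lam {g : V → ℝ} {c d : Crd} {c₀ C₁ θ η : ℝ}
    (hT : TwoCones g c d c₀ C₁ θ η) {e : Crd} (he : e = c ∨ e = d) :
    ∃ lam : ℝ, lam ≠ 0 ∧ ∀ x, e.q x = lam * c.q x := by
  rcases he with rfl | rfl
  · exact ⟨1, one_ne_zero, fun x => (one_mul _).symm⟩
  · exact ⟨-θ, neg_ne_zero.2 hT.hθ.ne', hT.hq⟩

/-- A net on the columns (deterministic).  For every real `u ≥ 1` and `δ > 0` there is a set of at most `C(δ)` points `z'` with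
`|e.p z' - α| ≤ C`, `u/2 ≤ |c.q z'| ≤ 3 u` such that every `z` with `α ≤ e.p z ≤ α + e.C`, `u ≤ |c.q z| ≤ 2 u` is within
`nm (z - z') ≤ δ u + C` of one of them.  PROOF.  Points `e.rd α (± (θ or 1) * i * δ' u)`. -/
theorem col_net (g : V → ℝ) (c d : Crd) (c₀ C₁ θ η : ℝ) (hT : TwoCones g c d c₀ C₁ θ η) (e : Crd)
    (he : e = c ∨ e = d) (δ : ℝ) (hδ : 0 < δ) : ∃ (C : ℝ) (n : ℕ), ∀ (α u : ℝ), 1 ≤ u →
      ∃ s : Finset V, s.card ≤ n ∧ (∀ z' ∈ s, |e.p z' - α| ≤ C ∧ |c.q z'| ≤ 3 * u + C ∧ u / 2 - C ≤ |c.q z'|) ∧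
        ∀ z, α ≤ e.p z → e.p z ≤ α + e.C → u ≤ |c.q z| → |c.q z| ≤ 2 * u →
          ∃ z' ∈ s, nm (z - z') ≤ δ * u + C := by
  obtain ⟨lam, hlam, hq⟩ := DCol_lam hT he
  exact DCol_net c e lam hlam hq δ hδ

/-- The columns of any coordinates. -/
private theorem DCol_ix (c e : Crd) (h : ℕ) (τ : Env) (k : ℕ) (hk : k < h ^ 20)
    (hy : (k : ℝ) * (h : ℝ) ^ 60 ≤ e.p (yM c h)) :
    ix c e h τ k ≤ (wM c h τ).length ∧
    (k : ℝ) * (h : ℝ) ^ 60 ≤ e.p (vx c h τ (ix c e h τ k)) ∧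
      e.p (vx c h τ (ix c e h τ k)) ≤ k * (h : ℝ) ^ 60 + e.C := by
  have hix : ix c e h τ k = sInf {i | (k : ℝ) * (h : ℝ) ^ 60 ≤ e.p (vx c h τ i)} := by
    unfold ix
    rw [if_pos hk]
  rw [hix]
  obtain ⟨A, hA⟩ : ∃ A : Set ℕ, A = {i | (k : ℝ) * (h : ℝ) ^ 60 ≤ e.p (vx c h τ i)} := ⟨_, rfl⟩
  rw [← hA]
  have hlen : (wM c h τ).length ∈ A := by
    rw [hA]
    change (k : ℝ) * (h : ℝ) ^ 60 ≤ e.p (vx c h τ (wM c h τ).length)
    rw [vx_last c h τ le_rfl]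
    exact hy
  have hmem : sInf A ∈ A := Nat.sInf_mem ⟨_, hlen⟩
  have hle : sInf A ≤ (wM c h τ).length := Nat.sInf_le hlen
  have hmem' : (k : ℝ) * (h : ℝ) ^ 60 ≤ e.p (vx c h τ (sInf A)) := by
    have h1 := hmem
    rw [hA] at h1
    rw [hA]
    exact h1
  refine ⟨hle, hmem', ?_⟩
  have hC := e.one_le
  rcases Nat.eq_zero_or_pos (sInf A) with h0 | h0
  · rw [h0, vx_zero, map_zero]
    have : (0 : ℝ) ≤ k * (h : ℝ) ^ 60 := by positivity
    linarith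
  · obtain ⟨j, hj⟩ : ∃ j, sInf A = j + 1 := ⟨sInf A - 1, by omega⟩
    have hnj : j ∉ A := Nat.notMem_of_lt_sInf (by omega)
    have hadj := (wM c h τ).adj_getVert_succ (i := j) (by omega)
    have h1 : e.p (vx c h τ j) < (k : ℝ) * (h : ℝ) ^ 60 := by
      rw [hA] at hnj
      exact not_le.1 hnj
    have h2 : |e.p (vx c h τ (j + 1)) - e.p (vx c h τ j)| ≤ e.C := by
      rw [← map_sub]
      refine (e.p_le _).trans ?_
      have h3 : nm (vx c h τ (j + 1) - vx c h τ j) = 1 := nm_adj hadj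
      rw [h3, mul_one]
    rw [hj]
    have h3 := le_abs_self (e.p (vx c h τ (j + 1)) - e.p (vx c h τ j))
    linarith

private theorem DCol_P_false {a b : ℝ} (M : Mdl a b) {p : Env → Prop}
    (hp : ∀ τ, Bd a b τ → ¬ p τ) : M.P p ≤ 0 := by
  classical
  rw [Mdl.P_def]
  refine M.E_le_of_le fun τ hτ => ?_
  rw [if_neg (hp τ hτ)]

private theorem DCol_log {h : ℕ} (hh : (3 : ℝ) ≤ h) : 0 < Real.log h :=
  Real.log_pos (by linarith)

private theorem DCol_S {h : ℕ} (hh : (3 : ℝ) ≤ h) : S ((h : ℝ) ^ 80) ≤ s0 h := by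
  have hl := DCol_log hh
  have h0 : (0 : ℝ) < h := by linarith
  have e1 : s0 h = Real.sqrt ((h : ℝ) ^ 80 / Real.log h) := by
    unfold s0
    rw [Real.sqrt_div (by positivity)]
    congr 1
    rw [show (h : ℝ) ^ 80 = ((h : ℝ) ^ 40) ^ 2 by ring, Real.sqrt_sq (by positivity)]
  rw [e1]
  unfold S
  refine Real.sqrt_le_sqrt ?_
  refine div_le_div_of_nonneg_left (by positivity) hl ?_
  refine Real.log_le_log h0 ?_
  have h1 : (h : ℝ) ^ 1 ≤ (h : ℝ) ^ 80 := pow_le_pow_right₀ (by linarith) (by norm_num)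
  linarith

private theorem DCol_s0 {h : ℕ} (hh : (3 : ℝ) ≤ h) : 1 ≤ s0 h := by
  have hl := DCol_log hh
  have h0 : (0 : ℝ) < h := by linarith
  unfold s0
  rw [le_div_iff₀ (Real.sqrt_pos.2 hl), one_mul]
  rw [show (h : ℝ) ^ 40 = Real.sqrt (((h : ℝ) ^ 40) ^ 2) by rw [Real.sqrt_sq (by positivity)]]
  refine Real.sqrt_le_sqrt ?_
  have h1 : Real.log h ≤ h := (Real.log_le_sub_one_of_pos h0).trans (by linarith)
  have h2 : (h : ℝ) ^ 1 ≤ (h : ℝ) ^ 80 := pow_le_pow_right₀ (by linarith) (by norm_num)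
  calc Real.log h ≤ (h : ℝ) ^ 1 := by rw [pow_one]; exact h1
    _ ≤ (h : ℝ) ^ 80 := h2
    _ = ((h : ℝ) ^ 40) ^ 2 := by ring

private theorem DCol_yM (c : Crd) (h : ℕ) (hh : (3 : ℝ) ≤ h) :
    |c.p (yM c h) - (h : ℝ) ^ 80| ≤ c.C ∧ |c.q (yM c h)| ≤ c.C ∧
      nm (yM c h) ≤ c.C * (1 + 2 * c.C) * (h : ℝ) ^ 80 := by
  have h1 := c.rd_p ((h : ℝ) ^ 80) 0
  have h2 := c.rd_q ((h : ℝ) ^ 80) 0
  rw [sub_zero] at h2
  refine ⟨h1, h2, ?_⟩
  have h3 := c.nm_le (yM c h)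
  have hC := c.one_le
  have hp : (1 : ℝ) ≤ (h : ℝ) ^ 80 := one_le_pow₀ (by linarith)
  have h1' : |c.p (yM c h)| ≤ (h : ℝ) ^ 80 + c.C := by
    have h4 : |c.p (yM c h) - (h : ℝ) ^ 80| ≤ c.C := h1
    rw [abs_le] at h4 ⊢
    constructor <;> linarith [h4.1, h4.2]
  have h2' : |c.q (yM c h)| ≤ c.C := h2
  calc nm (yM c h) ≤ c.C * (|c.p (yM c h)| + |c.q (yM c h)|) := h3
    _ ≤ c.C * ((h : ℝ) ^ 80 + c.C + c.C) :=
        mul_le_mul_of_nonneg_left (add_le_add h1' h2') (by linarith)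
    _ ≤ c.C * (1 + 2 * c.C) * (h : ℝ) ^ 80 := by
        have : c.C ≤ c.C * (h : ℝ) ^ 80 := by nlinarith
        nlinarith

private theorem DCol_hgt (Q : Par) (c e : Crd) (h k : ℕ) {τ : Env} (hτ : Bd Q.a Q.b τ) :
    hgt c e h k τ ≤ c.C * (Q.b / Q.a * nm (yM c h)) := by
  unfold hgt
  refine (c.q_le _).trans ?_
  exact mul_le_mul_of_nonneg_left (vx_nm hτ c h _) (by linarith [c.one_le])

/-- Lower bound for the mean of the way through a point. -/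
private theorem DCol_low {g : V → ℝ} {c d : Crd} {c₀ C₁ θ η : ℝ}
    (hT : TwoCones g c d c₀ C₁ θ η) (h : ℕ) (hh : (3 : ℝ) ≤ h) (z : V) :
    (h : ℝ) ^ 80 - c.C * (2 + |η - θ|) + (1 - (η - θ)) * |c.q z| ≤
      g z + g (yM c h - z) := by
  obtain ⟨h1, h2, _⟩ := DCol_yM c h hh
  have hC := c.one_le
  have hlc : ∀ x, c.p x + c.q x ≤ g x := by
    intro x
    have h3 := hT.hc.low x
    have h4 : 0 ≤ c₀ * max (max (-c.p x) (-c.q x)) 0 :=
      mul_nonneg hT.hc.pos.le (le_max_right _ _)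
    linarith
  have hld : ∀ x, c.p x + (η - θ) * c.q x ≤ g x := by
    intro x
    have h3 := hT.hd.low x
    have h4 : 0 ≤ c₀ * max (max (-d.p x) (-d.q x)) 0 :=
      mul_nonneg hT.hd.pos.le (le_max_right _ _)
    have h5 := hT.hp x
    have h6 := hT.hq x
    have h7 : c.p x + (η - θ) * c.q x = d.p x + d.q x := by
      rw [h5, h6]; ring
    rw [h7]
    linarith
  have h5 : |(η - θ) * c.q (yM c h)| ≤ |η - θ| * c.C := by
    rw [abs_mul]
    exact mul_le_mul_of_nonneg_left h2 (abs_nonneg _)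
  rw [abs_le] at h1 h2 h5
  have h6 : 0 ≤ |η - θ| * c.C := by positivity
  rcases le_total 0 (c.q z) with hs | hs
  · have h7 := hlc z
    have h8 := hld (yM c h - z)
    rw [map_sub, map_sub] at h8
    rw [abs_of_nonneg hs]
    nlinarith [h1.1, h5.1]
  · have h7 := hld z
    have h8 := hlc (yM c h - z)
    rw [map_sub, map_sub] at h8
    rw [abs_of_nonpos hs]
    nlinarith [h1.1, h2.1]

/-- The three deviations of a point. -/
private def DCol_B {a b : ℝ} (M : Mdl a b) (y : V) (t : ℝ) (z : V) (τ : Env) : Prop :=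
  t ≤ |T τ 0 z - M.E fun τ => T τ 0 z| ∨ t ≤ |T τ z y - M.E fun τ => T τ z y| ∨
    t ≤ |T τ 0 y - M.E fun τ => T τ 0 y|

private theorem DCol_PB {Q : Par} {g : V → ℝ} {R : ℝ} {M : Mdl Q.a Q.b} (hM : Good Q g R M)
    {y z : V} {l t : ℝ} (hl : 1 ≤ l) (hR : l ≤ R) (h1 : nm z ≤ l) (h2 : nm (y - z) ≤ l)
    (h3 : nm y ≤ l) (ht : 0 < t) : M.P (DCol_B M y t z) ≤ 3 * (Q.K * S l ^ 2 / t ^ 2) := by
  have key : ∀ x w : V, nm (w - x) ≤ l →
      M.P (fun τ => t ≤ |T τ x w - M.E fun τ => T τ x w|) ≤ Q.K * S l ^ 2 / t ^ 2 := by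
    intro x w hxw
    refine (M.chebyshev (fun τ => T τ x w) ht).trans ?_
    exact div_le_div_of_nonneg_right (hM.var' hl hxw hR) (by positivity)
  have e1 := key 0 z (by rwa [sub_zero])
  have e2 := key z y h2
  have e3 := key 0 y (by rwa [sub_zero])
  have f1 := M.P_or (fun τ => t ≤ |T τ 0 z - M.E fun τ => T τ 0 z|)
    (fun τ => t ≤ |T τ z y - M.E fun τ => T τ z y| ∨ t ≤ |T τ 0 y - M.E fun τ => T τ 0 y|)
  have f2 := M.P_or (fun τ => t ≤ |T τ z y - M.E fun τ => T τ z y|)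
    (fun τ => t ≤ |T τ 0 y - M.E fun τ => T τ 0 y|)
  have f3 : M.P (DCol_B M y t z) = M.P (fun τ => t ≤ |T τ 0 z - M.E fun τ => T τ 0 z| ∨
      (t ≤ |T τ z y - M.E fun τ => T τ z y| ∨ t ≤ |T τ 0 y - M.E fun τ => T τ 0 y|)) := rfl
  rw [f3]
  linarith

private theorem DCol_nm {c e : Crd} {C₂ C₄ C₅ C₆ lam α u y : ℝ} {yv z' : V} (hC₄0 : 0 ≤ C₄)
    (hC₅ : C₅ = e.C * (1 + |C₂| + |lam| * (3 * C₄ + |C₂|)))
    (hC₆ : C₆ = C₅ + c.C * (1 + 2 * c.C)) (hy3 : nm yv ≤ c.C * (1 + 2 * c.C) * y)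
    (hy : 1 ≤ y) (hα0 : 0 ≤ α) (hα1 : α ≤ y) (hu : u ≤ C₄ * y)
    (hq : ∀ x, e.q x = lam * c.q x)
    (hz : |e.p z' - α| ≤ C₂ ∧ |c.q z'| ≤ 3 * u + C₂ ∧ u / 2 - C₂ ≤ |c.q z'|) :
    nm z' ≤ C₆ * y ∧ nm (yv - z') ≤ C₆ * y := by
  have heC := e.one_le
  have hcC := c.one_le
  have h1 : nm z' ≤ C₅ * y := by
    have h2 := e.nm_le z'
    have h3 : |e.p z'| ≤ (1 + |C₂|) * y := by
      have h4 := hz.1
      have h5 := le_abs_self C₂
      have h6 : |C₂| ≤ |C₂| * y := le_mul_of_one_le_right (abs_nonneg _) hy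
      rw [abs_le] at h4 ⊢
      constructor <;> nlinarith [h4.1, h4.2]
    have h7 : |e.q z'| ≤ |lam| * (3 * C₄ + |C₂|) * y := by
      rw [hq, abs_mul, mul_assoc]
      refine mul_le_mul_of_nonneg_left ?_ (abs_nonneg _)
      have h5 := le_abs_self C₂
      have h6 : |C₂| ≤ |C₂| * y := le_mul_of_one_le_right (abs_nonneg _) hy
      nlinarith [hz.2.1]
    rw [hC₅]
    calc nm z' ≤ e.C * (|e.p z'| + |e.q z'|) := h2
      _ ≤ e.C * ((1 + |C₂|) * y + |lam| * (3 * C₄ + |C₂|) * y) :=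
          mul_le_mul_of_nonneg_left (add_le_add h3 h7) (by linarith)
      _ = e.C * (1 + |C₂| + |lam| * (3 * C₄ + |C₂|)) * y := by ring
  have h8 := nm_add_le yv (-z')
  rw [← sub_eq_add_neg, nm_neg] at h8
  have h9 : 0 ≤ c.C * (1 + 2 * c.C) * y := by positivity
  have hC₅0 : 0 ≤ C₅ * y := by
    rw [hC₅]
    positivity
  rw [hC₆]
  constructor <;> nlinarith

private theorem DCol_lR {C₆ R : ℝ} {h : ℕ} (hh3 : (3 : ℝ) ≤ h) (hhC : C₆ ≤ h)
    (hR : (h : ℝ) ^ 1000 ≤ R) : C₆ * (h : ℝ) ^ 80 ≤ R := by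
  calc C₆ * (h : ℝ) ^ 80 ≤ (h : ℝ) * (h : ℝ) ^ 80 :=
        mul_le_mul_of_nonneg_right hhC (by positivity)
    _ = (h : ℝ) ^ 81 := by ring
    _ ≤ (h : ℝ) ^ 1000 := pow_le_pow_right₀ (by linarith) (by norm_num)
    _ ≤ R := hR

/-- One dyadic annulus.  PROOF.  If `u ≤ |c.q z| ≤ 2 u` for `z = vx (ix k)` (`k < h^20`; `k = h^20` trivial), take the net point `z'`:
`T 0 z' + T z' yM ≤ T 0 yM + 2 b (δ u + C)`; the mean of the left side is `≥ g z' + g (yM - z') - 2 ≥ h^80 + (1 - κ) u/2 - C`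
(both functionals, as in `height`), the mean of `T 0 yM` is `≤ h^80 + C s0`; so one of three passage times deviates from its mean
by `c u` (for `u ≥ C s0 h`); Chebyshev with the variance `K S(C h^80)² ≤ C s0²` (`|c.q z'| ≤ 3u`, `u ≤ C h^80`). -/
theorem annulus (Q : Par) (g : V → ℝ) (hg : IsMean Q g) (c d : Crd) (c₀ C₁ θ η : ℝ)
    (hT : TwoCones g c d c₀ C₁ θ η) (e : Crd) (he : e = c ∨ e = d) :
    ∃ C h₀ : ℝ, 1 ≤ C ∧ ∀ h : ℕ, h₀ ≤ h → ∀ (R : ℝ) (M : Mdl Q.a Q.b), Good Q g R M →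
    (h : ℝ) ^ 1000 ≤ R → ∀ (k : ℕ) (u : ℝ), k ≤ h ^ 20 → C * s0 h ≤ u →
      M.P (fun τ => u ≤ hgt c e h k τ ∧ hgt c e h k τ ≤ 2 * u) ≤ C * s0 h ^ 2 / u ^ 2 := by
  obtain ⟨lam, hlam, hq⟩ := DCol_lam hT he
  have hκ := kappa_pos hg hT
  obtain ⟨κ, hκd⟩ : ∃ κ : ℝ, κ = 1 - (η - θ) := ⟨_, rfl⟩
  rw [← hκd] at hκ
  have hκ0 : 0 < κ := lt_of_lt_of_le (mul_pos hT.hc.pos hT.hθ) hκ
  have ha0 := Q.ha
  have hb0 : 0 < Q.b := Q.ha.trans Q.hab
  have hK0 : 0 < Q.K := lt_of_lt_of_le one_pos Q.hK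
  have hcC := c.one_le
  have heC := e.one_le
  obtain ⟨C₂, n, hnet⟩ := col_net g c d c₀ C₁ θ η hT e he (κ / (16 * Q.b)) (by positivity)
  obtain ⟨h₁, hyM⟩ := yM_p g c d c₀ C₁ θ η hT e he
  obtain ⟨C₄, hC₄⟩ : ∃ C₄ : ℝ, C₄ = c.C * (Q.b / Q.a * (c.C * (1 + 2 * c.C))) := ⟨_, rfl⟩
  have hC₄0 : 0 ≤ C₄ := by rw [hC₄]; positivity
  obtain ⟨C₅, hC₅⟩ : ∃ C₅ : ℝ, C₅ = e.C * (1 + |C₂| + |lam| * (3 * C₄ + |C₂|)) := ⟨_, rfl⟩
  have hC₅0 : 0 ≤ C₅ := by rw [hC₅]; positivity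
  obtain ⟨C₆, hC₆⟩ : ∃ C₆ : ℝ, C₆ = C₅ + c.C * (1 + 2 * c.C) := ⟨_, rfl⟩
  have hC₆1 : 1 ≤ C₆ := by
    rw [hC₆]
    nlinarith
  obtain ⟨K₂, hK₂⟩ : ∃ K₂ : ℝ, K₂ = κ * |C₂| + c.C * (2 + |η - θ|) + 3 + |C₁| + 2 * Q.b * |C₂| :=
    ⟨_, rfl⟩
  have hK₂0 : 0 ≤ K₂ := by rw [hK₂]; positivity
  obtain ⟨C, hC⟩ : ∃ C : ℝ, C = 1 + c.C + 8 * K₂ / κ + 3 * n * Q.K * C₆ / (κ / 12) ^ 2 :=
    ⟨_, rfl⟩
  have hCa : 0 ≤ 8 * K₂ / κ := by positivity
  have hCb : 0 ≤ 3 * n * Q.K * C₆ / (κ / 12) ^ 2 := by positivity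
  have hC1 : 1 ≤ C := by rw [hC]; linarith
  refine ⟨C, max 3 (max C₆ h₁), hC1, ?_⟩
  intro h hh R M hM hR k u hk hu
  have hh3 : (3 : ℝ) ≤ h := (le_max_left _ _).trans hh
  have hhC : C₆ ≤ h := ((le_max_left _ _).trans (le_max_right _ _)).trans hh
  have hh1 : h₁ ≤ h := ((le_max_right _ _).trans (le_max_right _ _)).trans hh
  have hs1 := DCol_s0 hh3
  have hs0 : 0 < s0 h := by linarith
  have hu1 : C ≤ u := by nlinarith
  have hu0 : 0 < u := by linarith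
  have hRHS : 0 ≤ C * s0 h ^ 2 / u ^ 2 := by positivity
  obtain ⟨hy1, hy2, hy3⟩ := DCol_yM c h hh3
  have hp80 : (1 : ℝ) ≤ (h : ℝ) ^ 80 := one_le_pow₀ (by linarith)
  -- the last column
  rcases Nat.lt_or_ge k (h ^ 20) with hk' | hk'
  swap
  · refine (DCol_P_false M fun τ _ hev => ?_).trans hRHS
    have h1 : hgt c e h k τ = |c.q (yM c h)| := by
      unfold hgt
      have h2 : ix c e h τ k = (wM c h τ).length := by
        unfold ix
        rw [if_neg (by omega)]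
      rw [h2, vx_last c h τ le_rfl]
    rw [h1] at hev
    have : c.C < u := by
      rw [hC] at hu1
      linarith
    linarith [hev.1]
  -- large `u`
  by_cases hbig : C₄ * (h : ℝ) ^ 80 < u
  · refine (DCol_P_false M fun τ hτ hev => ?_).trans hRHS
    have h1 := DCol_hgt Q c e h k hτ
    have h2 : c.C * (Q.b / Q.a * nm (yM c h)) ≤ C₄ * (h : ℝ) ^ 80 := by
      rw [hC₄]
      calc c.C * (Q.b / Q.a * nm (yM c h)) ≤
          c.C * (Q.b / Q.a * (c.C * (1 + 2 * c.C) * (h : ℝ) ^ 80)) := by gcongr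
        _ = c.C * (Q.b / Q.a * (c.C * (1 + 2 * c.C))) * (h : ℝ) ^ 80 := by ring
    linarith [hev.1]
  push Not at hbig
  obtain ⟨α, hα⟩ : ∃ α : ℝ, α = (k : ℝ) * (h : ℝ) ^ 60 := ⟨_, rfl⟩
  have hα0 : 0 ≤ α := by rw [hα]; positivity
  have hkr : (k : ℝ) + 1 ≤ (h : ℝ) ^ 20 := by
    have : k + 1 ≤ h ^ 20 := hk'
    exact_mod_cast this
  have hα1 : α + (h : ℝ) ^ 60 ≤ (h : ℝ) ^ 80 := by
    rw [hα]
    have h60 : (0 : ℝ) ≤ (h : ℝ) ^ 60 := by positivity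
    have := mul_le_mul_of_nonneg_right hkr h60
    calc (k : ℝ) * (h : ℝ) ^ 60 + (h : ℝ) ^ 60 = ((k : ℝ) + 1) * (h : ℝ) ^ 60 := by ring
      _ ≤ (h : ℝ) ^ 20 * (h : ℝ) ^ 60 := this
      _ = (h : ℝ) ^ 80 := by ring
  have h60 : (h : ℝ) ≤ (h : ℝ) ^ 60 := by
    calc (h : ℝ) = (h : ℝ) ^ 1 := (pow_one _).symm
      _ ≤ (h : ℝ) ^ 60 := pow_le_pow_right₀ (by linarith) (by norm_num)
  have hcC6 : c.C ≤ C₆ := by
    rw [hC₆]
    nlinarith
  have hcol : (k : ℝ) * (h : ℝ) ^ 60 ≤ e.p (yM c h) := hyM h hh1 k hk'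
  obtain ⟨s, hsn, hs1', hs2'⟩ := hnet α u (by linarith)
  have hsub : M.P (fun τ => u ≤ hgt c e h k τ ∧ hgt c e h k τ ≤ 2 * u) ≤
      M.P (fun τ => ∃ z' ∈ s, DCol_B M (yM c h) (κ / 12 * u) z' τ) := by
    refine M.P_mono fun τ hτ hev => ?_
    obtain ⟨hixl, hz1, hz2⟩ := DCol_ix c e h τ k hk' hcol
    obtain ⟨z, hz⟩ : ∃ z : V, z = vx c h τ (ix c e h τ k) := ⟨_, rfl⟩
    have hgz : hgt c e h k τ = |c.q z| := by rw [hz]; rfl
    rw [hgz] at hev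
    rw [← hz] at hz1 hz2
    rw [← hα] at hz1 hz2
    obtain ⟨z', hz's, hnm⟩ := hs2' z hz1 hz2 hev.1 hev.2
    refine ⟨z', hz's, ?_⟩
    obtain ⟨hp', _, hq'⟩ := hs1' z' hz's
    by_contra hcon
    unfold DCol_B at hcon
    push Not at hcon
    obtain ⟨g1, g2, g3⟩ := hcon
    have hTz : T τ z (yM c h) = T τ 0 (yM c h) - T τ 0 z := by
      have h1 := T_vx hτ c h hixl
      rw [vx_last c h τ le_rfl, ← hz] at h1
      exact h1
    have hb1 := T_lip hτ ha0.le 0 z' z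
    have hb2 := T_lip' hτ ha0.le z' z (yM c h)
    rw [nm_sub_comm] at hnm
    have hnm2 : Q.b * nm (z' - z) ≤ Q.b * (κ / (16 * Q.b) * u + C₂) :=
      mul_le_mul_of_nonneg_left hnm hb0.le
    have hbu : Q.b * (κ / (16 * Q.b) * u + C₂) = κ * u / 16 + Q.b * C₂ := by
      field_simp
    rw [hbu] at hnm2
    have hlow := DCol_low hT h hh3 z'
    rw [← hκd] at hlow
    have hnz' : nm z' ≤ C₆ * (h : ℝ) ^ 80 ∧ nm (yM c h - z') ≤ C₆ * (h : ℝ) ^ 80 := by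
      exact DCol_nm hC₄0 hC₅ hC₆ hy3 hp80 hα0 (by linarith [hα1]) hbig hq (hs1' z' hz's)
    have hlR : C₆ * (h : ℝ) ^ 80 ≤ R := DCol_lR hh3 hhC hR
    have m1 := hM.mean' (x := 0) (y := z') (by rw [sub_zero]; exact hnz'.1.trans hlR)
    have m2 := hM.mean' (x := z') (y := yM c h) (hnz'.2.trans hlR)
    have hy3' : nm (yM c h) ≤ C₆ * (h : ℝ) ^ 80 := by
      refine hy3.trans ?_
      rw [hC₆]
      have : 0 ≤ C₅ * (h : ℝ) ^ 80 := by positivity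
      nlinarith
    have m3 := hM.mean' (x := 0) (y := yM c h) (by rw [sub_zero]; exact hy3'.trans hlR)
    rw [sub_zero] at m1 m3
    have hup := hT.hc.upp ((h : ℝ) ^ 80) (yM c h) hp80 hy1 hy2
    have hS := DCol_S hh3
    have hS0 := S_nonneg ((h : ℝ) ^ 80)
    have hC₁S : C₁ * S ((h : ℝ) ^ 80) ≤ |C₁| * s0 h := by
      calc C₁ * S ((h : ℝ) ^ 80) ≤ |C₁| * S ((h : ℝ) ^ 80) :=
            mul_le_mul_of_nonneg_right (le_abs_self _) hS0
        _ ≤ |C₁| * s0 h := mul_le_mul_of_nonneg_left hS (abs_nonneg _)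
    have hC₂ := le_abs_self C₂
    have hκC₂ : κ * C₂ ≤ κ * |C₂| * s0 h := by
      have h1 : κ * C₂ ≤ κ * |C₂| := mul_le_mul_of_nonneg_left hC₂ hκ0.le
      have h2 : 0 ≤ κ * |C₂| := by positivity
      nlinarith
    have hbC₂ : 2 * (Q.b * C₂) ≤ 2 * Q.b * |C₂| * s0 h := by
      have h1 : Q.b * C₂ ≤ Q.b * |C₂| := mul_le_mul_of_nonneg_left hC₂ hb0.le
      have h2 : 0 ≤ Q.b * |C₂| := by positivity
      nlinarith
    have hcs : c.C * (2 + |η - θ|) + 3 ≤ (c.C * (2 + |η - θ|) + 3) * s0 h := by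
      have h1 : 0 ≤ c.C * (2 + |η - θ|) + 3 := by positivity
      nlinarith
    have hK₂s : κ * |C₂| * s0 h + (c.C * (2 + |η - θ|) + 3) * s0 h + |C₁| * s0 h +
        2 * Q.b * |C₂| * s0 h = K₂ * s0 h := by
      rw [hK₂]
      ring
    have hK₂u : K₂ * s0 h ≤ κ * u / 8 := by
      have h1 : 8 * K₂ / κ ≤ C := by
        rw [hC]
        linarith
      have h2 : 8 * K₂ / κ * s0 h ≤ u := (mul_le_mul_of_nonneg_right h1 hs0.le).trans hu
      have h3 : κ * (8 * K₂ / κ * s0 h) = 8 * (K₂ * s0 h) := by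
        field_simp
      have h4 := mul_le_mul_of_nonneg_left h2 hκ0.le
      rw [h3] at h4
      linarith
    have hκq : κ * (u / 2 - C₂) ≤ κ * |c.q z'| := mul_le_mul_of_nonneg_left hq' hκ0.le
    have hqe : κ * (u / 2 - C₂) = κ * u / 2 - κ * C₂ := by ring
    rw [hqe] at hκq
    have hk12 : κ / 12 * u = κ * u / 12 := by ring
    rw [hk12] at g1 g2 g3
    rw [abs_lt] at g1 g2 g3
    rw [abs_le] at hb1 hb2 m1 m2 m3
    have hκu : 0 < κ * u := mul_pos hκ0 hu0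
    linarith [g1.1, g2.1, g3.2, hb1.2, hb2.2, m1.1, m2.1, m3.2]
  refine hsub.trans ((M.P_exists_le s _).trans ?_)
  have hlR : C₆ * (h : ℝ) ^ 80 ≤ R := DCol_lR hh3 hhC hR
  have hl1 : 1 ≤ C₆ * (h : ℝ) ^ 80 := by nlinarith
  have hy3' : nm (yM c h) ≤ C₆ * (h : ℝ) ^ 80 := by
    refine hy3.trans ?_
    rw [hC₆]
    have : 0 ≤ C₅ * (h : ℝ) ^ 80 := by positivity
    nlinarith
  have hSl : S (C₆ * (h : ℝ) ^ 80) ^ 2 ≤ C₆ * s0 h ^ 2 := by
    have h1 := S_mul_le hC₆1 (by positivity : (0 : ℝ) ≤ (h : ℝ) ^ 80)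
    have h2 : S (C₆ * (h : ℝ) ^ 80) ≤ Real.sqrt C₆ * s0 h :=
      h1.trans (mul_le_mul_of_nonneg_left (DCol_S hh3) (Real.sqrt_nonneg _))
    have h3 := pow_le_pow_left₀ (S_nonneg _) h2 2
    rw [mul_pow, Real.sq_sqrt (by linarith)] at h3
    exact h3
  have hterm : ∀ z' ∈ s, M.P (DCol_B M (yM c h) (κ / 12 * u) z') ≤
      3 * (Q.K * (C₆ * s0 h ^ 2) / (κ / 12 * u) ^ 2) := by
    intro z' hz'
    have hnz' := DCol_nm hC₄0 hC₅ hC₆ hy3 hp80 hα0 (by linarith [hα1]) hbig hq (hs1' z' hz')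
    refine (DCol_PB hM hl1 hlR hnz'.1 hnz'.2 hy3' (by positivity)).trans ?_
    gcongr
  refine (Finset.sum_le_sum hterm).trans ?_
  rw [Finset.sum_const, nsmul_eq_mul]
  have hX0 : 0 ≤ 3 * (Q.K * (C₆ * s0 h ^ 2) / (κ / 12 * u) ^ 2) := by positivity
  have hn : (s.card : ℝ) ≤ n := by exact_mod_cast hsn
  calc (s.card : ℝ) * (3 * (Q.K * (C₆ * s0 h ^ 2) / (κ / 12 * u) ^ 2)) ≤
      (n : ℝ) * (3 * (Q.K * (C₆ * s0 h ^ 2) / (κ / 12 * u) ^ 2)) :=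
        mul_le_mul_of_nonneg_right hn hX0
    _ = (3 * n * Q.K * C₆ / (κ / 12) ^ 2) * s0 h ^ 2 / u ^ 2 := by
        field_simp
    _ ≤ C * s0 h ^ 2 / u ^ 2 := by
        have h1 : 3 * n * Q.K * C₆ / (κ / 12) ^ 2 ≤ C := by
          rw [hC]
          linarith
        gcongr

/-- **(6a).**  PROOF.  Sum of `annulus` over `2^i u`; finitely many because `hgt ≤ C h^80` (`vx_nm`); for `u < C s0` trivial. -/
theorem col_height (Q : Par) (g : V → ℝ) (hg : IsMean Q g) (c d : Crd) (c₀ C₁ θ η : ℝ)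
    (hT : TwoCones g c d c₀ C₁ θ η) (e : Crd) (he : e = c ∨ e = d) :
    ∃ C h₀ : ℝ, 1 ≤ C ∧ ∀ h : ℕ, h₀ ≤ h → ∀ (R : ℝ) (M : Mdl Q.a Q.b), Good Q g R M →
    (h : ℝ) ^ 1000 ≤ R → ∀ (k : ℕ) (u : ℝ), k ≤ h ^ 20 → 0 < u →
      M.P (fun τ => u ≤ hgt c e h k τ) ≤ C * s0 h ^ 2 / u ^ 2 := by
  obtain ⟨C, h₀, hC, H⟩ := annulus Q g hg c d c₀ C₁ θ η hT e he
  refine ⟨2 * C + C ^ 2, max 3 h₀, by nlinarith, ?_⟩
  intro h hh R M hM hR k u hk hu
  have hh3 : (3 : ℝ) ≤ h := (le_max_left _ _).trans hh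
  have hh0 : h₀ ≤ h := (le_max_right _ _).trans hh
  have hs1 := DCol_s0 hh3
  have hs0 : 0 < s0 h := by linarith
  rcases lt_or_ge u (C * s0 h) with hlt | hge
  · refine (M.P_le_one _).trans ?_
    rw [le_div_iff₀ (by positivity), one_mul]
    have h1 : u ^ 2 ≤ (C * s0 h) ^ 2 := pow_le_pow_left₀ hu.le hlt.le 2
    have h2 : 0 ≤ 2 * C * s0 h ^ 2 := by positivity
    nlinarith
  · have key : ∀ I : ℕ, ∀ u : ℝ, C * s0 h ≤ u →
        M.P (fun τ => u ≤ hgt c e h k τ ∧ hgt c e h k τ ≤ 2 ^ I * u) ≤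
          2 * C * s0 h ^ 2 / u ^ 2 := by
      intro I
      induction I with
      | zero =>
        intro u hu
        have hu0 : 0 < u := lt_of_lt_of_le (by positivity) hu
        have h1 := H h hh0 R M hM hR k u hk hu
        refine (M.P_mono fun τ _ hev => ?_).trans (h1.trans ?_)
        · refine ⟨hev.1, ?_⟩
          have := hev.2
          rw [pow_zero, one_mul] at this
          linarith
        · have : 0 ≤ C * s0 h ^ 2 := by positivity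
          gcongr
          linarith
      | succ I ih =>
        intro u hu
        have hu0 : 0 < u := lt_of_lt_of_le (by positivity) hu
        have h1 := H h hh0 R M hM hR k u hk hu
        have h2 := ih (2 * u) (by linarith)
        have h3 := M.P_or (fun τ => u ≤ hgt c e h k τ ∧ hgt c e h k τ ≤ 2 * u)
          (fun τ => 2 * u ≤ hgt c e h k τ ∧ hgt c e h k τ ≤ 2 ^ I * (2 * u))
        refine (M.P_mono fun τ _ hev => ?_).trans (h3.trans ?_)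
        · rcases le_total (hgt c e h k τ) (2 * u) with h4 | h4
          · exact Or.inl ⟨hev.1, h4⟩
          · refine Or.inr ⟨h4, ?_⟩
            have := hev.2
            rw [pow_succ] at this
            linarith
        · have h4 : 2 * C * s0 h ^ 2 / (2 * u) ^ 2 = (1 / 2) * (C * s0 h ^ 2 / u ^ 2) := by
            field_simp
            try ring
          have h5 : 2 * C * s0 h ^ 2 / u ^ 2 = 2 * (C * s0 h ^ 2 / u ^ 2) := by ring
          have h6 : 0 ≤ C * s0 h ^ 2 / u ^ 2 := by positivity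
          rw [h4] at h2
          rw [h5]
          linarith
    obtain ⟨I, hI⟩ := pow_unbounded_of_one_lt (c.C * (Q.b / Q.a * nm (yM c h)) / u)
      (one_lt_two : (1 : ℝ) < 2)
    rw [div_lt_iff₀ hu] at hI
    refine (M.P_mono fun τ hτ hev => ?_).trans ((key I u hge).trans ?_)
    · exact ⟨hev, (DCol_hgt Q c e h k hτ).trans hI.le⟩
    · have h1 : 0 ≤ C ^ 2 := sq_nonneg C
      gcongr
      linarith

end Pool.Agent.W_1b8d5d_h85
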