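import Pool.Agent.W_1b8d5d_h85.DDet

/-!
MP_1b8d5d_pr, proofs row 571, (6b): confinement of the long geodesic.
-/

set_option autoImplicit false

namespace Pool.Agent.W_1b8d5d_h85

open Finset

/-- The concentration events at the scales `h^80` and `h^60`. -/
def CEM (g : V → ℝ) (h : ℕ) (τ : Env) : Prop :=
  CE g ((h : ℝ) ^ 82) ((h : ℝ) ^ 81) ((h : ℝ) ^ 41) τ ∧
  CE g ((h : ℝ) ^ 82) ((h : ℝ) ^ 61) ((h : ℝ) ^ 32) τ

private theorem DConf_exp (C : ℝ) (hC : 1 ≤ C) : ∃ h₀ : ℝ, 1 ≤ h₀ ∧ ∀ H : ℝ, h₀ ≤ H →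
    2 * C * H ^ 328 * Real.exp (-(Real.sqrt H / C)) ≤ 1 / H ^ 300 := by
  have h1 := Real.tendsto_pow_mul_exp_neg_atTop_nhds_zero 1256
  have h2 : Filter.Tendsto
      (fun x : ℝ => 2 * C * C ^ 1256 * (x ^ 1256 * Real.exp (-x))) Filter.atTop (nhds 0) := by
    have := h1.const_mul (2 * C * C ^ 1256)
    rwa [mul_zero] at this
  have h3 := h2.eventually_le_const (show (0 : ℝ) < 1 by norm_num)
  obtain ⟨x₀, hx₀⟩ := Filter.eventually_atTop.1 h3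
  refine ⟨max 1 ((C * x₀) ^ 2), le_max_left _ _, fun H hH => ?_⟩
  have hH1 : 1 ≤ H := (le_max_left _ _).trans hH
  have hH0 : 0 < H := by linarith
  have hC0 : 0 < C := by linarith
  have hx : x₀ ≤ Real.sqrt H / C := by
    rw [le_div_iff₀ hC0]
    apply Real.le_sqrt_of_sq_le
    rw [mul_comm x₀ C]
    exact (le_max_right _ _).trans hH
  have h4 := hx₀ _ hx
  have h5 : C ^ 1256 * (Real.sqrt H / C) ^ 1256 = H ^ 628 := by
    rw [← mul_pow, mul_div_cancel₀ _ hC0.ne', show (1256 : ℕ) = 2 * 628 by norm_num, pow_mul,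
      Real.sq_sqrt hH0.le]
  rw [le_div_iff₀ (by positivity)]
  calc 2 * C * H ^ 328 * Real.exp (-(Real.sqrt H / C)) * H ^ 300
      = 2 * C * H ^ 628 * Real.exp (-(Real.sqrt H / C)) := by ring
    _ = 2 * C * (C ^ 1256 * (Real.sqrt H / C) ^ 1256) * Real.exp (-(Real.sqrt H / C)) := by rw [h5]
    _ = 2 * C * C ^ 1256 * ((Real.sqrt H / C) ^ 1256 * Real.exp (-(Real.sqrt H / C))) := by ring
    _ ≤ 1 := h4

/-- PROOF.  `conc_event`: `h^41` against `√(h^81)`, `h^32` against `√(h^61)`. -/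
theorem CEM_prob (Q : Par) (g : V → ℝ) : ∃ h₀ : ℝ, ∀ h : ℕ, h₀ ≤ h → ∀ (R : ℝ) (M : Mdl Q.a Q.b),
    Good Q g R M → (h : ℝ) ^ 1000 ≤ R → M.P (fun τ => ¬ CEM g h τ) ≤ 1 / (h : ℝ) ^ 300 := by
  obtain ⟨C, hC, hce⟩ := conc_event Q
  obtain ⟨h₀, hh₀, hexp⟩ := DConf_exp C hC
  refine ⟨max h₀ 2, fun h hh R M hG hR => ?_⟩
  have hH : h₀ ≤ (h : ℝ) := (le_max_left _ _).trans hh
  have hH2 : (2 : ℝ) ≤ h := (le_max_right _ _).trans hh
  have hC0 : 0 < C := by linarith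
  obtain ⟨H, hHd⟩ : ∃ H : ℝ, H = (h : ℝ) := ⟨_, rfl⟩
  have hH1 : 1 ≤ H := by rw [hHd]; linarith
  have hH0 : 0 < H := by linarith
  have hR1 : H ^ 81 ≤ R := by
    rw [hHd] at hH1 ⊢
    exact (pow_le_pow_right₀ hH1 (by norm_num)).trans hR
  have hR2 : H ^ 61 ≤ R := by
    rw [hHd] at hH1 ⊢
    exact (pow_le_pow_right₀ hH1 (by norm_num)).trans hR
  have hp : ∀ n : ℕ, n ≠ 0 → 2 ≤ H ^ n := by
    intro n hn
    calc (2 : ℝ) ≤ H := by rw [hHd]; exact hH2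
      _ = H ^ 1 := (pow_one H).symm
      _ ≤ H ^ n := pow_le_pow_right₀ hH1 (Nat.one_le_iff_ne_zero.2 hn)
  have h1 := hce g R M hG (H ^ 82) (H ^ 81) (H ^ 41) (one_le_pow₀ hH1) (one_le_pow₀ hH1) hR1
    (hp 41 (by norm_num))
  have h2 := hce g R M hG (H ^ 82) (H ^ 61) (H ^ 32) (one_le_pow₀ hH1) (one_le_pow₀ hH1) hR2
    (hp 32 (by norm_num))
  have hs0 : 0 < Real.sqrt H := Real.sqrt_pos.2 hH0
  have hss : Real.sqrt H * Real.sqrt H = H := Real.mul_self_sqrt hH0.le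
  have q1 : Real.sqrt (H ^ 81) = H ^ 40 * Real.sqrt H := by
    rw [show H ^ 81 = (H ^ 40) ^ 2 * H by ring, Real.sqrt_mul (sq_nonneg _),
      Real.sqrt_sq (by positivity)]
  have q2 : Real.sqrt (H ^ 61) = H ^ 30 * Real.sqrt H := by
    rw [show H ^ 61 = (H ^ 30) ^ 2 * H by ring, Real.sqrt_mul (sq_nonneg _),
      Real.sqrt_sq (by positivity)]
  have e1 : Real.sqrt H / C ≤ H ^ 41 / (C * Real.sqrt (H ^ 81)) := by
    rw [q1, div_le_div_iff₀ hC0 (by positivity)]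
    calc Real.sqrt H * (C * (H ^ 40 * Real.sqrt H)) = C * H ^ 40 * (Real.sqrt H * Real.sqrt H) := by
          ring
      _ = C * H ^ 40 * H := by rw [hss]
      _ = H ^ 41 * C := by ring
      _ ≤ H ^ 41 * C := le_refl _
  have e2 : Real.sqrt H / C ≤ H ^ 32 / (C * Real.sqrt (H ^ 61)) := by
    rw [q2, div_le_div_iff₀ hC0 (by positivity)]
    calc Real.sqrt H * (C * (H ^ 30 * Real.sqrt H)) = C * H ^ 30 * (Real.sqrt H * Real.sqrt H) := by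
          ring
      _ = C * H ^ 30 * H := by rw [hss]
      _ = H ^ 31 * C := by ring
      _ ≤ H ^ 32 * C := mul_le_mul_of_nonneg_right (pow_le_pow_right₀ hH1 (by norm_num)) hC0.le
  have f1 : Real.exp (-(H ^ 41 / (C * Real.sqrt (H ^ 81)))) ≤ Real.exp (-(Real.sqrt H / C)) :=
    Real.exp_le_exp.2 (neg_le_neg e1)
  have f2 : Real.exp (-(H ^ 32 / (C * Real.sqrt (H ^ 61)))) ≤ Real.exp (-(Real.sqrt H / C)) :=
    Real.exp_le_exp.2 (neg_le_neg e2)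
  have hCD : 0 ≤ C * (H ^ 82) ^ 4 := by positivity
  have g1 := mul_le_mul_of_nonneg_left f1 hCD
  have g2 := mul_le_mul_of_nonneg_left f2 hCD
  have h3 : M.P (fun τ => ¬ CEM g h τ) ≤ M.P (fun τ => ¬ CE g (H ^ 82) (H ^ 81) (H ^ 41) τ) +
      M.P (fun τ => ¬ CE g (H ^ 82) (H ^ 61) (H ^ 32) τ) := by
    refine le_trans (M.P_mono ?_) (M.P_or _ _)
    intro τ _ hτ
    rw [hHd]
    exact not_and_or.1 hτ
  have h4 := hexp H (by rw [hHd]; exact hH)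
  rw [hHd] at h4 g1 g2 h1 h2 h3
  calc M.P (fun τ => ¬ CEM g h τ)
      ≤ C * ((h : ℝ) ^ 82) ^ 4 * Real.exp (-(Real.sqrt h / C)) +
        C * ((h : ℝ) ^ 82) ^ 4 * Real.exp (-(Real.sqrt h / C)) := by linarith
    _ = 2 * C * (h : ℝ) ^ 328 * Real.exp (-(Real.sqrt h / C)) := by ring
    _ ≤ 1 / (h : ℝ) ^ 300 := h4

/-- The two functionals. -/
private theorem DConf_rho {g : V → ℝ} {c d : Crd} {c₀ C₁ θ η : ℝ}
    (hT : TwoCones g c d c₀ C₁ θ η) (w : V) :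
    c.p w + c.q w ≤ g w ∧ c.p w + (η - θ) * c.q w ≤ g w := by
  have h1 := hT.hc.low w
  have h2 := hT.hd.low w
  have h3 : 0 ≤ c₀ * max (max (-c.p w) (-c.q w)) 0 := mul_nonneg hT.hc.pos.le (le_max_right _ _)
  have h4 : 0 ≤ c₀ * max (max (-d.p w) (-d.q w)) 0 := mul_nonneg hT.hc.pos.le (le_max_right _ _)
  have h5 : d.p w + d.q w ≤ g w := by linarith
  rw [hT.hp w, hT.hq w] at h5
  refine ⟨by linarith, ?_⟩
  linarith

private theorem DConf_low {g : V → ℝ} {c d : Crd} {c₀ C₁ θ η : ℝ}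
    (hT : TwoCones g c d c₀ C₁ θ η) (x y z : V) :
    (1 - (η - θ)) * |c.q (z - x)| ≤
      g (z - x) + g (y - z) - c.p (y - x) + (1 + |η - θ|) * |c.q (y - x)| := by
  obtain ⟨a1, a2⟩ := DConf_rho hT (z - x)
  obtain ⟨b1, b2⟩ := DConf_rho hT (y - z)
  have ep : c.p (y - z) = c.p (y - x) - c.p (z - x) := by
    simp only [map_sub]
    ring
  have eq : c.q (y - z) = c.q (y - x) - c.q (z - x) := by
    simp only [map_sub]
    ring
  rw [ep, eq] at b1 b2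
  generalize c.p (y - x) = P at *
  generalize c.p (z - x) = P' at *
  generalize c.q (z - x) = u at *
  generalize c.q (y - x) = v at *
  generalize g (z - x) = g1 at *
  generalize g (y - z) = g2 at *
  generalize η - θ = κ at *
  have k1 : -(|κ| * |v|) ≤ κ * v := by
    rw [← abs_mul]
    exact neg_abs_le _
  have k2 : 0 ≤ |κ| * |v| := by positivity
  have k3 := neg_abs_le v
  have k4 := abs_nonneg v
  rcases abs_cases u with ⟨h, _⟩ | ⟨h, _⟩ <;> rw [h]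
  · linarith
  · linarith

private theorem DConf_e {g : V → ℝ} {c d : Crd} {c₀ C₁ θ η : ℝ}
    (hT : TwoCones g c d c₀ C₁ θ η) {e : Crd} (he : e = c ∨ e = d) :
    IsCone g e c₀ C₁ ∧ (∃ η' : ℝ, |η'| ≤ |η| ∧ ∀ x, e.p x = c.p x + η' * c.q x) ∧
      ∃ κ' : ℝ, |κ'| ≤ 1 + |η - θ| ∧ ∀ x, e.p x + e.q x = c.p x + κ' * c.q x := by
  rcases he with rfl | rfl
  · refine ⟨hT.hc, ⟨0, by rw [abs_zero]; exact abs_nonneg _, fun x => by ring⟩, 1, ?_, fun x => by ring⟩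
    rw [abs_one]
    linarith [abs_nonneg (η - θ)]
  · refine ⟨hT.hd, ⟨η, le_refl _, hT.hp⟩, η - θ, by linarith, fun x => ?_⟩
    rw [hT.hp x, hT.hq x]
    ring

private theorem DConf_yM (c : Crd) (H : ℝ) :
    |c.p (yM c H) - H ^ 80| ≤ c.C ∧ |c.q (yM c H)| ≤ c.C := by
  refine ⟨c.rd_p _ _, ?_⟩
  have := c.rd_q (H ^ 80) 0
  rwa [sub_zero] at this

private theorem DConf_yM_nm (c : Crd) {H : ℝ} (hH : 1 ≤ H) :
    nm (yM c H) ≤ c.C * (1 + 2 * c.C) * H ^ 80 := by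
  obtain ⟨h1, h2⟩ := DConf_yM c H
  have hC := c.one_le
  have h3 := c.nm_le (yM c H)
  have hH80 : 1 ≤ H ^ 80 := one_le_pow₀ hH
  have h4 : |c.p (yM c H)| ≤ H ^ 80 + c.C := by
    have h5 : |c.p (yM c H)| ≤ |c.p (yM c H) - H ^ 80| + |H ^ 80| := by
      have := abs_add_le (c.p (yM c H) - H ^ 80) (H ^ 80)
      rwa [sub_add_cancel] at this
    rw [abs_of_nonneg (show (0 : ℝ) ≤ H ^ 80 by linarith)] at h5
    linarith
  have h6 : |c.p (yM c H)| + |c.q (yM c H)| ≤ (1 + 2 * c.C) * H ^ 80 := by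
    have : 2 * c.C ≤ 2 * c.C * H ^ 80 := le_mul_of_one_le_right (by linarith) hH80
    linarith
  have h7 := mul_le_mul_of_nonneg_left h6 (show 0 ≤ c.C by linarith)
  linarith

private theorem DConf_base (Q : Par) (g : V → ℝ) (hg : IsMean Q g) (c d : Crd) (c₀ C₁ θ η : ℝ)
    (hT : TwoCones g c d c₀ C₁ θ η) : ∃ C h₀ : ℝ, 1 ≤ C ∧ 1 ≤ h₀ ∧ ∀ h : ℕ, h₀ ≤ h →
      ∀ τ, Bd Q.a Q.b τ → CEM g h τ →
      (∀ i, nm (vx c h τ i) ≤ (h : ℝ) ^ 81) ∧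
      (∀ i j, i ≤ j → |T τ 0 (vx c h τ j) - T τ 0 (vx c h τ i) - g (vx c h τ j - vx c h τ i)|
        ≤ (h : ℝ) ^ 41) ∧
      T τ 0 (yM c h) ≤ (h : ℝ) ^ 80 + C * (h : ℝ) ^ 41 := by
  have hC := c.one_le
  have hba : 0 ≤ Q.b / Q.a := div_nonneg (Q.ha.trans Q.hab).le Q.ha.le
  set A : ℝ := Q.b / Q.a * (c.C * (1 + 2 * c.C)) with hA
  have hA0 : 0 ≤ A := mul_nonneg hba (mul_nonneg (by linarith) (by linarith))
  refine ⟨1 + 2 * |C₁|, 1 + 2 * A, by linarith [abs_nonneg C₁], by linarith, ?_⟩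
  intro h hh τ hB hτ
  have hH1 : (1 : ℝ) ≤ h := by linarith
  have hH0 : (0 : ℝ) < h := by linarith
  have hnm : ∀ i, nm (vx c h τ i) ≤ (h : ℝ) ^ 81 / 2 := by
    intro i
    have h1 := vx_nm hB c h i
    have h2 := mul_le_mul_of_nonneg_left (DConf_yM_nm c hH1) hba
    have h3 : 2 * A * (h : ℝ) ^ 80 ≤ (h : ℝ) * (h : ℝ) ^ 80 :=
      mul_le_mul_of_nonneg_right (by linarith) (by positivity)
    have h4 : (h : ℝ) ^ 81 = (h : ℝ) * (h : ℝ) ^ 80 := by ring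
    have h5 : Q.b / Q.a * (c.C * (1 + 2 * c.C) * (h : ℝ) ^ 80) = A * (h : ℝ) ^ 80 := by
      rw [hA]
      ring
    linarith
  have h81 : (0 : ℝ) ≤ (h : ℝ) ^ 81 := by positivity
  have h82 : (h : ℝ) ^ 81 ≤ (h : ℝ) ^ 82 := pow_le_pow_right₀ hH1 (by norm_num)
  have hce : ∀ i j, i ≤ j →
      |T τ 0 (vx c h τ j) - T τ 0 (vx c h τ i) - g (vx c h τ j - vx c h τ i)| ≤ (h : ℝ) ^ 41 := by
    intro i j hij
    rw [← T_vx hB c h hij]
    refine hτ.1 _ _ ?_ ?_ ?_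
    · linarith [hnm i]
    · linarith [hnm j]
    · have h1 := nm_add_le (vx c h τ j) (-vx c h τ i)
      rw [nm_neg, ← sub_eq_add_neg] at h1
      linarith [hnm i, hnm j]
  refine ⟨fun i => by linarith [hnm i], hce, ?_⟩
  have h1 := hce 0 (wM c h τ).length (Nat.zero_le _)
  rw [vx_zero, vx_last c h τ (le_refl _), T_self hB Q.ha.le, sub_zero, sub_zero] at h1
  have h2 := (abs_le.1 h1).2
  obtain ⟨y1, y2⟩ := DConf_yM c (h : ℝ)
  have h3 := hT.hc.upp ((h : ℝ) ^ 80) (yM c h) (one_le_pow₀ hH1) y1 y2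
  have h4 := S_le_two_sqrt (show (0 : ℝ) ≤ (h : ℝ) ^ 80 by positivity)
  have h5 : Real.sqrt ((h : ℝ) ^ 80) = (h : ℝ) ^ 40 := by
    rw [show (h : ℝ) ^ 80 = ((h : ℝ) ^ 40) ^ 2 by ring, Real.sqrt_sq (by positivity)]
  rw [h5] at h4
  have h6 : C₁ * S ((h : ℝ) ^ 80) ≤ |C₁| * (2 * (h : ℝ) ^ 40) :=
    mul_le_mul (le_abs_self _) h4 (S_nonneg _) (abs_nonneg _)
  have h7 : (h : ℝ) ^ 40 ≤ (h : ℝ) ^ 41 := pow_le_pow_right₀ hH1 (by norm_num)
  have h8 : |C₁| * (2 * (h : ℝ) ^ 40) ≤ |C₁| * (2 * (h : ℝ) ^ 41) :=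
    mul_le_mul_of_nonneg_left (by linarith) (abs_nonneg _)
  linarith

/-- Heights of the long geodesic.  PROOF.  `T 0 x + T x yM = T 0 yM ≤ h^80 + C S(h^80) + C + h^41`; `g x ≥ c.rho x`, `g (yM - x) ≥ d.rho (yM - x)`
and conversely give `g x + g (yM - x) ≥ h^80 + (1 - κ)|c.q x| - C` (`kappa_pos`). -/
theorem height (Q : Par) (g : V → ℝ) (hg : IsMean Q g) (c d : Crd) (c₀ C₁ θ η : ℝ)
    (hT : TwoCones g c d c₀ C₁ θ η) : ∃ C h₀ : ℝ, ∀ h : ℕ, h₀ ≤ h → ∀ τ, Bd Q.a Q.b τ →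
      CEM g h τ → ∀ i, |c.q (vx c h τ i)| ≤ C * (h : ℝ) ^ 41 := by
  obtain ⟨C, h₀, hC, hh₀, hb⟩ := DConf_base Q g hg c d c₀ C₁ θ η hT
  have hk := kappa_pos hg hT
  have hcθ : 0 < c₀ * θ := mul_pos hT.hc.pos hT.hθ
  have hcC := c.one_le
  set D : ℝ := C + 2 + c.C + (1 + |η - θ|) * c.C with hD
  refine ⟨D / (c₀ * θ), h₀, ?_⟩
  intro h hh τ hB hτ i
  have hH1 : (1 : ℝ) ≤ h := by linarith
  obtain ⟨b1, b2, b3⟩ := hb h hh τ hB hτ
  have h1 := b2 0 i (Nat.zero_le _)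
  have h2 := b2 i (max i (wM c h τ).length) (le_max_left _ _)
  rw [vx_last c h τ (le_max_right _ _)] at h2
  rw [vx_zero, T_self hB Q.ha.le, sub_zero, sub_zero] at h1
  have h3 := DConf_low hT 0 (yM c h) (vx c h τ i)
  rw [sub_zero, sub_zero] at h3
  obtain ⟨y1, y2⟩ := DConf_yM c (h : ℝ)
  have a1 := (abs_le.1 h1).1
  have a2 := (abs_le.1 h2).1
  have y1' := (abs_le.1 y1).1
  have h41 : (1 : ℝ) ≤ (h : ℝ) ^ 41 := one_le_pow₀ hH1
  have hκ : 0 ≤ 1 + |η - θ| := by linarith [abs_nonneg (η - θ)]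
  have h4 := mul_le_mul_of_nonneg_left y2 hκ
  have h5 : c.C + (1 + |η - θ|) * c.C ≤ (c.C + (1 + |η - θ|) * c.C) * (h : ℝ) ^ 41 :=
    le_mul_of_one_le_right (add_nonneg (by linarith) (mul_nonneg hκ (by linarith))) h41
  have h6 : (1 - (η - θ)) * |c.q (vx c h τ i)| ≤ D * (h : ℝ) ^ 41 := by
    rw [hD]
    linarith
  have h7 : c₀ * θ * |c.q (vx c h τ i)| ≤ (1 - (η - θ)) * |c.q (vx c h τ i)| :=
    mul_le_mul_of_nonneg_right hk (abs_nonneg _)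
  rw [div_mul_eq_mul_div, le_div_iff₀ hcθ]
  linarith

/-- The two ends of a block. -/
private theorem DConf_blk (g : V → ℝ) (c d : Crd) (c₀ C₁ θ η : ℝ)
    (hT : TwoCones g c d c₀ C₁ θ η) (e : Crd) (he : e = c ∨ e = d) :
    ∃ C h₀ : ℝ, 1 ≤ C ∧ 1 ≤ h₀ ∧ ∀ h : ℕ, h₀ ≤ h → ∀ (τ : Env) (k : ℕ) (W : ℝ), k < h ^ 20 →
      1 ≤ W → hgt c e h k τ ≤ W → hgt c e h (k + 1) τ ≤ W →
      |e.p (vx c h τ (ix c e h τ (k + 1)) - vx c h τ (ix c e h τ k)) - (h : ℝ) ^ 60| ≤ C ∧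
      |c.q (vx c h τ (ix c e h τ (k + 1)) - vx c h τ (ix c e h τ k))| ≤ 2 * W ∧
      |c.p (vx c h τ (ix c e h τ (k + 1)) - vx c h τ (ix c e h τ k)) - (h : ℝ) ^ 60| ≤ C * W := by
  obtain ⟨h₀, hix⟩ := ix_spec g c d c₀ C₁ θ η hT e he
  obtain ⟨hcone, ⟨η', hη', hpe⟩, -⟩ := DConf_e hT he
  have hcC := c.one_le
  have heC := e.one_le
  set C' : ℝ := e.C + (1 + |η|) * c.C with hC'
  have hη0 := abs_nonneg η
  have hηc : 0 ≤ |η| * c.C := mul_nonneg hη0 (by linarith)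
  have hC'1 : 1 ≤ C' := by
    rw [hC', add_mul, one_mul]
    linarith
  refine ⟨C' + 2 * |η|, max h₀ 1, by linarith, le_max_right _ _, ?_⟩
  intro h hh τ k W hk hW hg1 hg2
  have hH1 : (1 : ℝ) ≤ h := (le_max_right _ _).trans hh
  have hh0 : h₀ ≤ h := (le_max_left _ _).trans hh
  obtain ⟨-, -, -, hk1, -⟩ := hix h hh0 τ k
  obtain ⟨x1, x2, -⟩ := hk1 hk
  unfold hgt at hg1 hg2
  set x : V := vx c h τ (ix c e h τ k) with hx
  set y : V := vx c h τ (ix c e h τ (k + 1)) with hy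
  have hp : |e.p (y - x) - (h : ℝ) ^ 60| ≤ C' := by
    rw [map_sub]
    rcases lt_or_ge (k + 1) (h ^ 20) with hlt | hge
    · obtain ⟨-, -, -, hk2, -⟩ := hix h hh0 τ (k + 1)
      obtain ⟨y1, y2, -⟩ := hk2 hlt
      rw [← hy] at y1 y2
      push_cast at y1 y2
      rw [add_mul, one_mul] at y1 y2
      rw [abs_le]
      have : 0 ≤ (1 + |η|) * c.C := mul_nonneg (by linarith) (by linarith)
      constructor <;> linarith
    · obtain ⟨-, -, -, -, hk2⟩ := hix h hh0 τ (k + 1)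
      have hyM : y = yM c h := by
        rw [hy, hk2 hge]
        exact vx_last c h τ (le_refl _)
      have hkh : k + 1 = h ^ 20 := le_antisymm hk hge
      have hkR : ((k : ℝ) + 1) * (h : ℝ) ^ 60 = (h : ℝ) ^ 80 := by
        have : ((k : ℝ) + 1) = (h : ℝ) ^ 20 := by exact_mod_cast hkh
        rw [this]
        ring
      rw [add_mul, one_mul] at hkR
      obtain ⟨m1, m2⟩ := DConf_yM c (h : ℝ)
      have m3 : |e.p (yM c h) - (h : ℝ) ^ 80| ≤ (1 + |η|) * c.C := by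
        rw [hpe]
        have : c.p (yM c h) + η' * c.q (yM c h) - (h : ℝ) ^ 80 =
            (c.p (yM c h) - (h : ℝ) ^ 80) + η' * c.q (yM c h) := by ring
        rw [this]
        refine (abs_add_le _ _).trans ?_
        rw [abs_mul, add_mul, one_mul]
        exact add_le_add m1 (mul_le_mul hη' m2 (abs_nonneg _) hη0)
      rw [← hyM] at m3
      rw [abs_le] at m3 ⊢
      constructor <;> linarith [m3.1, m3.2]
  have hq : |c.q (y - x)| ≤ 2 * W := by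
    rw [map_sub]
    have := abs_sub_le (c.q y) 0 (c.q x)
    rw [sub_zero, zero_sub, abs_neg] at this
    linarith
  refine ⟨by linarith, hq, ?_⟩
  have hcp : c.p (y - x) - (h : ℝ) ^ 60 = (e.p (y - x) - (h : ℝ) ^ 60) - η' * c.q (y - x) := by
    rw [hpe]
    ring
  rw [hcp]
  refine (abs_sub _ _).trans ?_
  rw [abs_mul]
  have h1 : |η'| * |c.q (y - x)| ≤ |η| * (2 * W) := mul_le_mul hη' hq (abs_nonneg _) hη0
  have h2 : C' ≤ C' * W := le_mul_of_one_le_right (by linarith) hW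
  linarith

private theorem DConf_nm (c : Crd) {C H W : ℝ} (hC : 0 ≤ C) (hH : 0 ≤ H) (hW : W ≤ H) {u : V}
    (hp : |c.p u - H| ≤ C * W) (hq : |c.q u| ≤ 2 * W) : nm u ≤ c.C * (C + 3) * H := by
  have hcC := c.one_le
  have h1 : |c.p u| ≤ H + C * W := by
    have h5 : |c.p u| ≤ |c.p u - H| + |H| := by
      have := abs_add_le (c.p u - H) H
      rwa [sub_add_cancel] at this
    rw [abs_of_nonneg hH] at h5
    linarith
  have h2 : C * W ≤ C * H := mul_le_mul_of_nonneg_left hW hC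
  have h3 := c.nm_le u
  have h4 : |c.p u| + |c.q u| ≤ (C + 3) * H := by linarith
  have h5 := mul_le_mul_of_nonneg_left h4 (show 0 ≤ c.C by linarith)
  linarith

/-- Heights in a block.  `e` is `c` or `d`: the system of columns.  PROOF.  `x = vx (ix k)`, `y = vx (ix (k+1))`, `z = vx i`,
`T x z + T z y = T x y ≤ g (y - x) + h^32`, `g (y - x) ≤ h^60 + C S + C B` (`hc.upp` for a point near `(h^60, 0)`, `g` Lipschitz);
`g (z - x) + g (y - z) ≥ c.rho (z - x) + d.rho (y - z)` and conversely: `≥ p(y - x) - C B + (1 - κ)|c.q (z - x)|`;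
`C S(h^60) + 4 h^32 ≤ h^39 ≤ B`.  (The last block, `k + 1 = h^20`: `y = yM`, the same.) -/
theorem block_height (Q : Par) (g : V → ℝ) (hg : IsMean Q g) (c d : Crd) (c₀ C₁ θ η : ℝ)
    (hT : TwoCones g c d c₀ C₁ θ η) (e : Crd) (he : e = c ∨ e = d) :
    ∃ C h₀ : ℝ, 1 ≤ C ∧ ∀ h : ℕ, h₀ ≤ h → ∀ τ, Bd Q.a Q.b τ → CEM g h τ → ∀ (k : ℕ) (B : ℝ),
      k < h ^ 20 → (h : ℝ) ^ 39 ≤ B → B ≤ (h : ℝ) ^ 42 → hgt c e h k τ ≤ B → hgt c e h (k + 1) τ ≤ B →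
      ∀ i, ix c e h τ k ≤ i → i ≤ ix c e h τ (k + 1) → |c.q (vx c h τ i)| ≤ C * B := by
  obtain ⟨Cb, h₁, hCb, hh₁, hb⟩ := DConf_base Q g hg c d c₀ C₁ θ η hT
  obtain ⟨Ck, h₂, hCk, hh₂, hk⟩ := DConf_blk g c d c₀ C₁ θ η hT e he
  have hkap := kappa_pos hg hT
  have hcθ : 0 < c₀ * θ := mul_pos hT.hc.pos hT.hθ
  have hcC := c.one_le
  have hb0 : 0 < Q.b := Q.ha.trans Q.hab
  have hba : 0 ≤ Q.b / Q.a := div_nonneg hb0.le Q.ha.le
  set D : ℝ := 5 + 2 * |C₁| + Q.b * (c.C * (Ck + 2 * c.C + 2)) + Ck + 2 * (1 + |η - θ|) with hD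
  have hC10 := abs_nonneg C₁
  have hκ0 := abs_nonneg (η - θ)
  have hD0 : 0 ≤ D := by positivity
  refine ⟨1 + D / (c₀ * θ), h₁ + h₂ + (1 + Q.b / Q.a) * (c.C * (Ck + 3)), ?_, ?_⟩
  · have : 0 ≤ D / (c₀ * θ) := div_nonneg hD0 hcθ.le
    linarith
  intro h hh τ hB hτ k B hkh hB1 hB2 hg1 hg2 i hi1 hi2
  have hR0 : 0 ≤ (1 + Q.b / Q.a) * (c.C * (Ck + 3)) := by positivity
  have hH1 : (1 : ℝ) ≤ h := by linarith
  have hH0 : (0 : ℝ) < h := by linarith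
  have hBone : 1 ≤ B := (one_le_pow₀ hH1).trans hB1
  obtain ⟨b1, -, -⟩ := hb h (by linarith) τ hB hτ
  obtain ⟨k1, k2, k3⟩ := hk h (by linarith) τ k B hkh hBone hg1 hg2
  set x : V := vx c h τ (ix c e h τ k) with hx
  set y : V := vx c h τ (ix c e h τ (k + 1)) with hy
  set z : V := vx c h τ i with hz
  have hB60 : B ≤ (h : ℝ) ^ 60 := hB2.trans (pow_le_pow_right₀ hH1 (by norm_num))
  have hyx : nm (y - x) ≤ c.C * (Ck + 3) * (h : ℝ) ^ 60 :=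
    DConf_nm c (by linarith) (by positivity) hB60 k3 k2
  have hzx : nm (z - x) ≤ Q.b / Q.a * nm (y - x) := vx_piece hB c h hi1 hi2
  have h61 : (1 + Q.b / Q.a) * nm (y - x) ≤ (h : ℝ) ^ 61 := by
    calc (1 + Q.b / Q.a) * nm (y - x) ≤ (1 + Q.b / Q.a) * (c.C * (Ck + 3) * (h : ℝ) ^ 60) :=
          mul_le_mul_of_nonneg_left hyx (by linarith)
      _ = (1 + Q.b / Q.a) * (c.C * (Ck + 3)) * (h : ℝ) ^ 60 := by ring
      _ ≤ (h : ℝ) * (h : ℝ) ^ 60 := mul_le_mul_of_nonneg_right (by linarith) (by positivity)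
      _ = (h : ℝ) ^ 61 := by ring
  rw [add_mul, one_mul] at h61
  have hn0 := nm_nonneg (y - x)
  have hn1 : 0 ≤ Q.b / Q.a * nm (y - x) := mul_nonneg hba hn0
  have hyz : nm (y - z) ≤ nm (y - x) + nm (z - x) := by
    have := nm_add_le (y - x) (x - z)
    rw [sub_add_sub_cancel, nm_sub_comm x] at this
    exact this
  have h82 : (h : ℝ) ^ 81 ≤ (h : ℝ) ^ 82 := pow_le_pow_right₀ hH1 (by norm_num)
  have nx : nm x ≤ (h : ℝ) ^ 82 := (b1 _).trans h82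
  have ny : nm y ≤ (h : ℝ) ^ 82 := (b1 _).trans h82
  have nz : nm z ≤ (h : ℝ) ^ 82 := (b1 _).trans h82
  have c1 := hτ.2 x z nx nz (by linarith)
  have c2 := hτ.2 z y nz ny (by linarith)
  have c3 := hτ.2 x y nx ny (by linarith)
  have t1 := T_vx hB c h hi1
  have t2 := T_vx hB c h hi2
  have t3 := T_vx hB c h (hi1.trans hi2)
  rw [← hx, ← hz] at t1
  rw [← hy, ← hz] at t2
  rw [← hx, ← hy] at t3
  have low := DConf_low hT x y z
  -- the upper bound for the mean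
  obtain ⟨u, hu⟩ : ∃ u : V, u = c.rd ((h : ℝ) ^ 60) 0 := ⟨_, rfl⟩
  have u1 : |c.p u - (h : ℝ) ^ 60| ≤ c.C := by
    rw [hu]
    exact c.rd_p _ _
  have u2 : |c.q u| ≤ c.C := by
    have := c.rd_q ((h : ℝ) ^ 60) 0
    rwa [sub_zero, ← hu] at this
  have u3 := hT.hc.upp ((h : ℝ) ^ 60) u (one_le_pow₀ hH1) u1 u2
  have u4 := (abs_le.1 (hg.lip (y - x) u)).2
  have u5 : nm (y - x - u) ≤ c.C * (Ck + 2 * c.C + 2) * B := by
    have v1 := c.nm_le (y - x - u)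
    have v2 : |c.p (y - x - u)| ≤ Ck * B + c.C := by
      have e1 : c.p (y - x - u) = (c.p (y - x) - (h : ℝ) ^ 60) - (c.p u - (h : ℝ) ^ 60) := by
        rw [map_sub c.p (y - x) u]
        ring
      rw [e1]
      exact (abs_sub _ _).trans (add_le_add k3 u1)
    have v3 : |c.q (y - x - u)| ≤ 2 * B + c.C := by
      rw [map_sub c.q (y - x) u]
      exact (abs_sub _ _).trans (add_le_add k2 u2)
    have v4 : c.C ≤ c.C * B := le_mul_of_one_le_right (by linarith) hBone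
    have v5 : |c.p (y - x - u)| + |c.q (y - x - u)| ≤ (Ck + 2 * c.C + 2) * B := by linarith
    have v6 := mul_le_mul_of_nonneg_left v5 (show 0 ≤ c.C by linarith)
    linarith
  have u6 := mul_le_mul_of_nonneg_left u5 hb0.le
  have s1 := S_le_two_sqrt (show (0 : ℝ) ≤ (h : ℝ) ^ 60 by positivity)
  have s2 : Real.sqrt ((h : ℝ) ^ 60) = (h : ℝ) ^ 30 := by
    rw [show (h : ℝ) ^ 60 = ((h : ℝ) ^ 30) ^ 2 by ring, Real.sqrt_sq (by positivity)]
  rw [s2] at s1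
  have s3 : (h : ℝ) ^ 30 ≤ B := (pow_le_pow_right₀ hH1 (by norm_num)).trans hB1
  have s4 : (h : ℝ) ^ 32 ≤ B := (pow_le_pow_right₀ hH1 (by norm_num)).trans hB1
  have s5 : C₁ * S ((h : ℝ) ^ 60) ≤ |C₁| * (2 * B) :=
    mul_le_mul (le_abs_self _) (by linarith) (S_nonneg _) (abs_nonneg _)
  have a1 := (abs_le.1 c1).1
  have a2 := (abs_le.1 c2).1
  have a3 := (abs_le.1 c3).2
  have p1 := (abs_le.1 k3).1
  have q1 := mul_le_mul_of_nonneg_left k2 (show 0 ≤ 1 + |η - θ| by linarith)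
  have key : (1 - (η - θ)) * |c.q (z - x)| ≤ D * B := by
    have : D * B = 5 * B + 2 * |C₁| * B + Q.b * (c.C * (Ck + 2 * c.C + 2) * B) + Ck * B +
        (1 + |η - θ|) * (2 * B) := by
      rw [hD]
      ring
    rw [this]
    linarith
  have key2 : c₀ * θ * |c.q (z - x)| ≤ (1 - (η - θ)) * |c.q (z - x)| :=
    mul_le_mul_of_nonneg_right hkap (abs_nonneg _)
  have key3 : |c.q (z - x)| ≤ D / (c₀ * θ) * B := by
    rw [div_mul_eq_mul_div, le_div_iff₀ hcθ]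
    linarith
  have key4 : |c.q z| ≤ |c.q x| + |c.q (z - x)| := by
    have := abs_add_le (c.q x) (c.q (z - x))
    rwa [← map_add, add_sub_cancel] at this
  have key5 : |c.q x| ≤ B := hg1
  rw [add_mul, one_mul]
  linarith

/-- No backtracking at the scale `h^42`.  PROOF.  `T 0 x + T x z + T z yM = T 0 yM`, `x = vx (ix k)`, `z = vx i`; `IsCone.low` for `z - x`
in the cone `e` gives the extra term `c₀ (e.p x - e.p z)`. -/
theorem no_back (Q : Par) (g : V → ℝ) (hg : IsMean Q g) (c d : Crd) (c₀ C₁ θ η : ℝ)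
    (hT : TwoCones g c d c₀ C₁ θ η) (e : Crd) (he : e = c ∨ e = d) :
    ∃ h₀ : ℝ, ∀ h : ℕ, h₀ ≤ h → ∀ τ, Bd Q.a Q.b τ → CEM g h τ → ∀ i j : ℕ, i ≤ j →
      e.p (vx c h τ i) - (h : ℝ) ^ 42 ≤ e.p (vx c h τ j) := by
  obtain ⟨Cb, h₁, hCb, hh₁, hb⟩ := DConf_base Q g hg c d c₀ C₁ θ η hT
  obtain ⟨hcone, -, κ', hκ', hrho⟩ := DConf_e hT he
  have hc0 := hT.hc.pos
  have hcC := c.one_le
  have hκ0 := abs_nonneg (η - θ)
  set D : ℝ := Cb + 3 + c.C + (1 + |η - θ|) * c.C with hD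
  have hD0 : 0 ≤ D := by positivity
  refine ⟨h₁ + D / c₀, ?_⟩
  intro h hh τ hB hτ i j hij
  have hDc : 0 ≤ D / c₀ := div_nonneg hD0 hc0.le
  have hH1 : (1 : ℝ) ≤ h := by linarith
  have hDh : D ≤ c₀ * h := by
    rw [← div_le_iff₀' hc0]
    linarith
  obtain ⟨-, b2, b3⟩ := hb h (by linarith) τ hB hτ
  have h1 := b2 0 i (Nat.zero_le _)
  have h2 := b2 i j hij
  have h3 := b2 j (max j (wM c h τ).length) (le_max_left _ _)
  rw [vx_last c h τ (le_max_right _ _)] at h3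
  rw [vx_zero, T_self hB Q.ha.le, sub_zero, sub_zero] at h1
  set x : V := vx c h τ i with hx
  set z : V := vx c h τ j with hz
  obtain ⟨y1, y2⟩ := DConf_yM c (h : ℝ)
  have a1 := (abs_le.1 h1).1
  have a2 := (abs_le.1 h2).1
  have a3 := (abs_le.1 h3).1
  have y1' := (abs_le.1 y1).1
  have h41 : (1 : ℝ) ≤ (h : ℝ) ^ 41 := one_le_pow₀ hH1
  have l1 := hcone.low x
  have l2 := hcone.low (z - x)
  have l3 := hcone.low (yM c h - z)
  have m1 : 0 ≤ c₀ * max (max (-e.p x) (-e.q x)) 0 := mul_nonneg hc0.le (le_max_right _ _)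
  have m3 : 0 ≤ c₀ * max (max (-e.p (yM c h - z)) (-e.q (yM c h - z))) 0 :=
    mul_nonneg hc0.le (le_max_right _ _)
  have m2 : c₀ * (-e.p (z - x)) ≤ c₀ * max (max (-e.p (z - x)) (-e.q (z - x))) 0 :=
    mul_le_mul_of_nonneg_left ((le_max_left _ _).trans (le_max_left _ _)) hc0.le
  have e1 : e.p (z - x) = e.p z - e.p x := map_sub _ _ _
  have e2 : e.q (z - x) = e.q z - e.q x := map_sub _ _ _
  have e3 : e.p (yM c h - z) = e.p (yM c h) - e.p z := map_sub _ _ _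
  have e4 : e.q (yM c h - z) = e.q (yM c h) - e.q z := map_sub _ _ _
  have r1 := hrho (yM c h)
  have r2 : -((1 + |η - θ|) * c.C) ≤ κ' * c.q (yM c h) := by
    have := neg_abs_le (κ' * c.q (yM c h))
    rw [abs_mul] at this
    have := mul_le_mul hκ' y2 (abs_nonneg _) (show 0 ≤ 1 + |η - θ| by linarith)
    linarith
  have key : c₀ * (e.p x - e.p z) ≤ D * (h : ℝ) ^ 41 := by
    have t1 : c.C + (1 + |η - θ|) * c.C ≤ (c.C + (1 + |η - θ|) * c.C) * (h : ℝ) ^ 41 :=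
      le_mul_of_one_le_right (by positivity) h41
    have t2 : D * (h : ℝ) ^ 41 = Cb * (h : ℝ) ^ 41 + 3 * (h : ℝ) ^ 41 +
        (c.C + (1 + |η - θ|) * c.C) * (h : ℝ) ^ 41 := by
      rw [hD]
      ring
    have t3 : c₀ * (-e.p (z - x)) = c₀ * (e.p x - e.p z) := by
      rw [e1]
      ring
    rw [t3] at m2
    rw [t2]
    linarith
  have key2 : D * (h : ℝ) ^ 41 ≤ c₀ * (h : ℝ) ^ 42 := by
    calc D * (h : ℝ) ^ 41 ≤ c₀ * h * (h : ℝ) ^ 41 := mul_le_mul_of_nonneg_right hDh (by positivity)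
      _ = c₀ * (h : ℝ) ^ 42 := by ring
  have key3 := le_of_mul_le_mul_left (key.trans key2) hc0
  linarith

/-- Negative increments do not go back by more than `h^33/2`.  PROOF.  `T x z ≤ e.rho (z - x)` by `T_vx_Xi`, `confine` with the points
`x, z, z` replaced by `(x, z)`: `IsCone.low` for `z - x` and `CE` (`nm (z - x) ≤ h^61` by `vx_piece`, `hgt`). -/
theorem neg_back (Q : Par) (g : V → ℝ) (hg : IsMean Q g) (c d : Crd) (c₀ C₁ θ η : ℝ)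
    (hT : TwoCones g c d c₀ C₁ θ η) (e : Crd) (he : e = c ∨ e = d) :
    ∃ h₀ : ℝ, ∀ h : ℕ, h₀ ≤ h → ∀ τ, Bd Q.a Q.b τ → CEM g h τ → ∀ k : ℕ, k < h ^ 20 →
      ∀ i, ix c e h τ k ≤ i → i ≤ ix c e h τ (k + 1) →
      Xi c e h τ i ≤ Xi c e h τ (ix c e h τ k) →
        e.p (vx c h τ (ix c e h τ k)) - (h : ℝ) ^ 33 / 2 ≤ e.p (vx c h τ i) := by
  obtain ⟨Cb, h₁, hCb, hh₁, hb⟩ := DConf_base Q g hg c d c₀ C₁ θ η hT
  obtain ⟨Ck, h₂, hCk, hh₂, hk⟩ := DConf_blk g c d c₀ C₁ θ η hT e he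
  obtain ⟨Ch, h₃, hht⟩ := height Q g hg c d c₀ C₁ θ η hT
  obtain ⟨hcone, -, -⟩ := DConf_e hT he
  have hc0 := hT.hc.pos
  have hcC := c.one_le
  have hb0 : 0 < Q.b := Q.ha.trans Q.hab
  have hba : 0 ≤ Q.b / Q.a := div_nonneg hb0.le Q.ha.le
  have hCh := abs_nonneg Ch
  have h30 := abs_nonneg h₃
  refine ⟨h₁ + h₂ + |h₃| + (1 + Q.b / Q.a) * (c.C * (Ck + 3)) + (1 + |Ch|) + 2 / c₀, ?_⟩
  intro h hh τ hB hτ k hkh i hi1 hi2 hXi
  have hR0 : 0 ≤ (1 + Q.b / Q.a) * (c.C * (Ck + 3)) := by positivity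
  have h2c : 0 ≤ 2 / c₀ := by positivity
  have hH1 : (1 : ℝ) ≤ h := by linarith
  have hH0 : (0 : ℝ) < h := by linarith
  obtain ⟨b1, -, -⟩ := hb h (by linarith) τ hB hτ
  have hht' := hht h (by linarith [le_abs_self h₃]) τ hB hτ
  set W : ℝ := (1 + |Ch|) * (h : ℝ) ^ 41 with hW
  have h41 : (1 : ℝ) ≤ (h : ℝ) ^ 41 := one_le_pow₀ hH1
  have hW1 : 1 ≤ W := by
    have : (h : ℝ) ^ 41 ≤ W := le_mul_of_one_le_left (by linarith) (by linarith)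
    linarith
  have hWall : ∀ i, |c.q (vx c h τ i)| ≤ W := by
    intro i
    refine (hht' i).trans (mul_le_mul_of_nonneg_right ?_ (by linarith))
    linarith [le_abs_self Ch]
  have hW42 : W ≤ (h : ℝ) ^ 42 := by
    calc W ≤ (h : ℝ) * (h : ℝ) ^ 41 := mul_le_mul_of_nonneg_right (by linarith) (by linarith)
      _ = (h : ℝ) ^ 42 := by ring
  obtain ⟨k1, k2, k3⟩ := hk h (by linarith) τ k W hkh hW1 (hWall _) (hWall _)
  have t0 := T_vx_Xi hB c e h hi1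
  set x : V := vx c h τ (ix c e h τ k) with hx
  set y : V := vx c h τ (ix c e h τ (k + 1)) with hy
  set z : V := vx c h τ i with hz
  have hW60 : W ≤ (h : ℝ) ^ 60 := hW42.trans (pow_le_pow_right₀ hH1 (by norm_num))
  have hyx : nm (y - x) ≤ c.C * (Ck + 3) * (h : ℝ) ^ 60 :=
    DConf_nm c (by linarith) (by positivity) hW60 k3 k2
  have hzx : nm (z - x) ≤ Q.b / Q.a * nm (y - x) := vx_piece hB c h hi1 hi2
  have h61 : (1 + Q.b / Q.a) * nm (y - x) ≤ (h : ℝ) ^ 61 := by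
    calc (1 + Q.b / Q.a) * nm (y - x) ≤ (1 + Q.b / Q.a) * (c.C * (Ck + 3) * (h : ℝ) ^ 60) :=
          mul_le_mul_of_nonneg_left hyx (by linarith)
      _ = (1 + Q.b / Q.a) * (c.C * (Ck + 3)) * (h : ℝ) ^ 60 := by ring
      _ ≤ (h : ℝ) * (h : ℝ) ^ 60 := mul_le_mul_of_nonneg_right (by linarith) (by positivity)
      _ = (h : ℝ) ^ 61 := by ring
  rw [add_mul, one_mul] at h61
  have hn0 := nm_nonneg (y - x)
  have h82 : (h : ℝ) ^ 81 ≤ (h : ℝ) ^ 82 := pow_le_pow_right₀ hH1 (by norm_num)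
  have nx : nm x ≤ (h : ℝ) ^ 82 := (b1 _).trans h82
  have nz : nm z ≤ (h : ℝ) ^ 82 := (b1 _).trans h82
  have c1 := (abs_le.1 (hτ.2 x z nx nz (by linarith))).1
  have low := hcone.low (z - x)
  have m2 : c₀ * (-e.p (z - x)) ≤ c₀ * max (max (-e.p (z - x)) (-e.q (z - x))) 0 :=
    mul_le_mul_of_nonneg_left ((le_max_left _ _).trans (le_max_left _ _)) hc0.le
  have t3 : c₀ * (-e.p (z - x)) = c₀ * (e.p x - e.p z) := by
    rw [map_sub e.p z x]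
    ring
  unfold Crd.rho at t0
  have key : c₀ * (e.p x - e.p z) ≤ (h : ℝ) ^ 32 := by
    rw [t3] at m2
    linarith
  have key2 : (h : ℝ) ^ 32 ≤ c₀ * ((h : ℝ) ^ 33 / 2) := by
    have h2 : 2 ≤ c₀ * h := by
      rw [← div_le_iff₀' hc0]
      linarith
    have h3 : 2 * (h : ℝ) ^ 32 ≤ c₀ * h * (h : ℝ) ^ 32 :=
      mul_le_mul_of_nonneg_right h2 (by positivity)
    have h4 : c₀ * h * (h : ℝ) ^ 32 = 2 * (c₀ * ((h : ℝ) ^ 33 / 2)) := by ring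
    linarith
  have key3 := le_of_mul_le_mul_left (key.trans key2) hc0
  linarith

end Pool.Agent.W_1b8d5d_h85
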