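import Pool.Agent.W_1b8d5d_h85.LDefs

/-!
MP_1b8d5d_pr, proofs row 571, sections 6 and 7: definitions.  `h` is a natural number, blocks of length `N = h^60`, `h^20` of them.
-/

set_option autoImplicit false

namespace Pool.Agent.W_1b8d5d_h85

open Finset

/-- `x₀ = h^20 / √(log h)`. -/
noncomputable def x0 (h : ℝ) : ℝ := h ^ 20 / Real.sqrt (Real.log h)

/-- `h^40 / √(log h)`, the order of `S (h^80)`. -/
noncomputable def s0 (h : ℝ) : ℝ := h ^ 40 / Real.sqrt (Real.log h)

/-- The good lane event: a geodesic `w` from the column `α` to the column `α + ℓ`, `ℓ = h^60 - 2 h^41`, in the window of height `C s0`,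
with oscillation of the height at most `C x0` and excess at most `C x0`. -/
def GoodLane (c : Crd) (C h α : ℝ) (τ : Env) : Prop :=
  ∃ (z z' : V) (w : grid.Walk z z'), IsGeo τ w ∧
    |c.p z - α| ≤ C ∧ |c.p z' - (α + (h ^ 60 - 2 * h ^ 41))| ≤ C ∧ |c.q z| ≤ C * s0 h ∧ |c.q z'| ≤ C * s0 h ∧
    (∀ v ∈ w.support, α - 2 * h ^ 42 ≤ c.p v ∧ c.p v ≤ α + h ^ 60 ∧ |c.q v - c.q z| ≤ C * x0 h) ∧
    T τ z z' ≤ c.rho (z' - z) + C * x0 h

/-- The end point of the long geodesic. -/
def yM (c : Crd) (h : ℝ) : V := c.rd (h ^ 80) 0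

/-- The long geodesic. -/
noncomputable def wM (c : Crd) (h : ℝ) (τ : Env) : grid.Walk 0 (yM c h) := geo τ 0 (yM c h)

/-- Its vertices. -/
noncomputable def vx (c : Crd) (h : ℝ) (τ : Env) (i : ℕ) : V := (wM c h τ).getVert i

/-- The first index with `f ≥ k h^60` (`k < h^20`); the last block ends at the end of the geodesic.  `c` determines the geodesic, `d` the
columns. -/
noncomputable def ix (c d : Crd) (h : ℕ) (τ : Env) (k : ℕ) : ℕ :=
  if k < h ^ 20 then sInf {i | (k : ℝ) * (h : ℝ) ^ 60 ≤ d.p (vx c h τ i)} else (wM c h τ).length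

/-- The excess along the geodesic with respect to the functional `d.rho`. -/
noncomputable def Xi (c d : Crd) (h : ℕ) (τ : Env) (i : ℕ) : ℝ := T τ 0 (vx c h τ i) - d.rho (vx c h τ i)

/-- Negative variation in the block `k` (from column `k` to column `k+1`), measured from the beginning. -/
noncomputable def Zn (c d : Crd) (h : ℕ) (k : ℕ) (τ : Env) : ℝ :=
  sSup ((fun i => Xi c d h τ (ix c d h τ k) - Xi c d h τ i) '' Set.Icc (ix c d h τ k) (ix c d h τ (k + 1)))

/-- Negative variation in the block `k`, measured from the end. -/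
noncomputable def Zr (c d : Crd) (h : ℕ) (k : ℕ) (τ : Env) : ℝ :=
  sSup ((fun i => Xi c d h τ i - Xi c d h τ (ix c d h τ (k + 1))) '' Set.Icc (ix c d h τ k) (ix c d h τ (k + 1)))

/-- The increment over the block `k`. -/
noncomputable def Xk (c d : Crd) (h : ℕ) (k : ℕ) (τ : Env) : ℝ :=
  Xi c d h τ (ix c d h τ (k + 1)) - Xi c d h τ (ix c d h τ k)

/-- The oscillation bound for the block `k`. -/
noncomputable def Ok (c d : Crd) (h : ℕ) (k : ℕ) (τ : Env) : ℝ :=
  max (Xk c d h k τ) 0 + Zn c d h k τ + Zr c d h k τ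

/-- The height at the column `k`. -/
noncomputable def hgt (c d : Crd) (h : ℕ) (k : ℕ) (τ : Env) : ℝ := |c.q (vx c h τ (ix c d h τ k))|

/-- The situation of section 6: two cones with the common corner `v`; `d` is `c` or the cone on the other side. -/
structure TwoCones (g : V → ℝ) (c d : Crd) (c₀ C₁ θ η : ℝ) : Prop where
  hc : IsCone g c c₀ C₁
  hd : IsCone g d c₀ C₁
  hθ : 0 < θ
  hq : ∀ x, d.q x = -θ * c.q x
  hp : ∀ x, d.p x = c.p x + η * c.q x

end Pool.Agent.W_1b8d5d_h85
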