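import Pool.Agent.W_1b8d5d_h85.DDefs

/-!
MP_1b8d5d_pr, proofs row 571, section 6: deterministic facts on the long geodesic.
-/

set_option autoImplicit false

namespace Pool.Agent.W_1b8d5d_h85

open Finset

section

variable {Q : Par} {τ : Env} (hτ : Bd Q.a Q.b τ) (c d : Crd) (h : ℕ)

include hτ

theorem wM_geo : IsGeo τ (wM c h τ) := by
  exact geo_isGeo hτ Q.ha 0 (yM c h)

theorem T_vx {i j : ℕ} (hij : i ≤ j) :
    T τ (vx c h τ i) (vx c h τ j) = T τ 0 (vx c h τ j) - T τ 0 (vx c h τ i) := by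
  exact geo_sub hτ Q.ha.le (wM_geo hτ c h) hij

/-- Excess between two vertices of the geodesic. -/
theorem T_vx_Xi {i j : ℕ} (hij : i ≤ j) :
    T τ (vx c h τ i) (vx c h τ j)
      = d.rho (vx c h τ j - vx c h τ i) + (Xi c d h τ j - Xi c d h τ i) := by
  rw [T_vx hτ c h hij]
  unfold Xi Crd.rho
  rw [map_sub, map_sub]
  ring

theorem vx_nm (i : ℕ) : nm (vx c h τ i) ≤ Q.b / Q.a * nm (yM c h) := by
  have h1 := geo_near hτ Q.ha (wM_geo hτ c h) i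
  rw [sub_zero, sub_zero] at h1
  exact h1

/-- Pieces of the geodesic: distance of two vertices against the distance of the end points of the piece. -/
theorem vx_piece {i j l : ℕ} (hil : i ≤ l) (hlj : l ≤ j) :
    nm (vx c h τ l - vx c h τ i) ≤ Q.b / Q.a * nm (vx c h τ j - vx c h τ i) := by
  have h1 := T_vx hτ c h hil
  have h2 := T_vx hτ c h (hil.trans hlj)
  have h3 := T_vx hτ c h hlj
  have h4 := T_nonneg hτ Q.ha.le (vx c h τ l) (vx c h τ j)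
  have h5 := T_lower hτ Q.ha.le (vx c h τ i) (vx c h τ l)
  have h6 := T_upper hτ Q.ha.le (vx c h τ i) (vx c h τ j)
  rw [div_mul_eq_mul_div, le_div_iff₀ Q.ha]
  linarith

end

theorem vx_zero (c : Crd) (h : ℕ) (τ : Env) : vx c h τ 0 = 0 := by
  exact SimpleGraph.Walk.getVert_zero _

theorem vx_last (c : Crd) (h : ℕ) (τ : Env) {i : ℕ} (hi : (wM c h τ).length ≤ i) :
    vx c h τ i = yM c h := by
  exact SimpleGraph.Walk.getVert_of_length_le _ hi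

/-- `yM` is to the right of all the columns `k < h^20`. -/
theorem yM_p (g : V → ℝ) (c d : Crd) (c₀ C₁ θ η : ℝ) (hT : TwoCones g c d c₀ C₁ θ η) (e : Crd)
    (he : e = c ∨ e = d) :
    ∃ h₀ : ℝ, ∀ h : ℕ, h₀ ≤ h → ∀ k < h ^ 20, (k : ℝ) * (h : ℝ) ^ 60 ≤ e.p (yM c h) := by
  refine ⟨c.C * (1 + |η|) + 1, fun h hh k hk => ?_⟩
  have hC := c.one_le
  have hp := c.rd_p ((h : ℝ) ^ 80) 0
  have hq := c.rd_q ((h : ℝ) ^ 80) 0
  change |c.p (yM c h) - _| ≤ _ at hp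
  change |c.q (yM c h) - _| ≤ _ at hq
  rw [sub_zero] at hq
  have h0 : 0 ≤ c.C * |η| := mul_nonneg (by linarith) (abs_nonneg η)
  have h1 : (1 : ℝ) ≤ h := by linarith
  have e1 : (h : ℝ) ≤ (h : ℝ) ^ 60 := le_self_pow₀ h1 (by norm_num)
  have hk1 : (k : ℝ) + 1 ≤ (h : ℝ) ^ 20 := by exact_mod_cast hk
  have e2 : ((k : ℝ) + 1) * (h : ℝ) ^ 60 ≤ (h : ℝ) ^ 80 := by
    calc ((k : ℝ) + 1) * (h : ℝ) ^ 60 ≤ (h : ℝ) ^ 20 * (h : ℝ) ^ 60 :=
          mul_le_mul_of_nonneg_right hk1 (by positivity)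
      _ = (h : ℝ) ^ 80 := by rw [← pow_add]
  have e4 : |η * c.q (yM c h)| ≤ |η| * c.C := by
    rw [abs_mul]
    exact mul_le_mul_of_nonneg_left hq (abs_nonneg _)
  rw [abs_le] at e4 hp
  rcases he with he | he
  · rw [he]
    linarith
  · rw [he, hT.hp]
    linarith

/-- The indices of the columns.  PROOF.  `first_passage` for `e.p` (changes by at most `e.C` along an edge). -/
theorem ix_spec (g : V → ℝ) (c d : Crd) (c₀ C₁ θ η : ℝ) (hT : TwoCones g c d c₀ C₁ θ η) (e : Crd)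
    (he : e = c ∨ e = d) :
    ∃ h₀ : ℝ, ∀ h : ℕ, h₀ ≤ h → ∀ (τ : Env) (k : ℕ),
      ix c e h τ k ≤ (wM c h τ).length ∧ ix c e h τ 0 = 0 ∧ ix c e h τ k ≤ ix c e h τ (k + 1) ∧
      (k < h ^ 20 → (k : ℝ) * (h : ℝ) ^ 60 ≤ e.p (vx c h τ (ix c e h τ k)) ∧
        e.p (vx c h τ (ix c e h τ k)) ≤ k * (h : ℝ) ^ 60 + e.C ∧
        ∀ i < ix c e h τ k, e.p (vx c h τ i) < k * (h : ℝ) ^ 60) ∧
      (h ^ 20 ≤ k → ix c e h τ k = (wM c h τ).length) := by
  obtain ⟨h₁, H⟩ := yM_p g c d c₀ C₁ θ η hT e he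
  refine ⟨max h₁ 1, fun h hh τ k => ?_⟩
  have hh1 : h₁ ≤ h := (le_max_left _ _).trans hh
  have h1 : (1 : ℝ) ≤ h := (le_max_right _ _).trans hh
  have h1' : 1 ≤ h := by exact_mod_cast h1
  have hmem : ∀ m < h ^ 20, (wM c h τ).length ∈
      {i | (m : ℝ) * (h : ℝ) ^ 60 ≤ e.p (vx c h τ i)} := by
    intro m hm
    have h2 := H h hh1 m hm
    show (m : ℝ) * (h : ℝ) ^ 60 ≤ e.p (vx c h τ (wM c h τ).length)
    rw [vx_last c h τ le_rfl]
    exact h2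
  have hlen : ∀ m, ix c e h τ m ≤ (wM c h τ).length := by
    intro m
    unfold ix
    split_ifs with hm
    · exact Nat.sInf_le (hmem m hm)
    · exact le_rfl
  have hz : (0 : ℕ) ∈ {i | ((0 : ℕ) : ℝ) * (h : ℝ) ^ 60 ≤ e.p (vx c h τ i)} := by
    show ((0 : ℕ) : ℝ) * (h : ℝ) ^ 60 ≤ e.p (vx c h τ 0)
    rw [vx_zero, map_zero, Nat.cast_zero, zero_mul]
  have h20 : 0 < h ^ 20 := Nat.pow_pos (by omega)
  have hix0 : ix c e h τ 0 = 0 := by
    unfold ix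
    rw [if_pos h20]
    exact Nat.le_zero.1 (Nat.sInf_le hz)
  refine ⟨hlen k, hix0, ?_, ?_, ?_⟩
  · by_cases hk : k + 1 < h ^ 20
    · have hk' : k < h ^ 20 := by omega
      have h3 : ix c e h τ (k + 1) ∈
          {i | ((k + 1 : ℕ) : ℝ) * (h : ℝ) ^ 60 ≤ e.p (vx c h τ i)} := by
        unfold ix
        rw [if_pos hk]
        exact Nat.sInf_mem ⟨_, hmem _ hk⟩
      have h4 : ix c e h τ (k + 1) ∈ {i | (k : ℝ) * (h : ℝ) ^ 60 ≤ e.p (vx c h τ i)} := by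
        have h3' : ((k + 1 : ℕ) : ℝ) * (h : ℝ) ^ 60 ≤ e.p (vx c h τ (ix c e h τ (k + 1))) := h3
        show (k : ℝ) * (h : ℝ) ^ 60 ≤ e.p (vx c h τ (ix c e h τ (k + 1)))
        push_cast at h3'
        have h60 : 0 ≤ (h : ℝ) ^ 60 := by positivity
        linarith
      have h5 : ix c e h τ k = sInf {i | (k : ℝ) * (h : ℝ) ^ 60 ≤ e.p (vx c h τ i)} := by
        unfold ix
        rw [if_pos hk']
      rw [h5]
      exact Nat.sInf_le h4
    · have h6 : ix c e h τ (k + 1) = (wM c h τ).length := by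
        unfold ix
        rw [if_neg hk]
      rw [h6]
      exact hlen k
  · intro hk
    have h5 : ix c e h τ k = sInf {i | (k : ℝ) * (h : ℝ) ^ 60 ≤ e.p (vx c h τ i)} := by
      unfold ix
      rw [if_pos hk]
    have h6 : (k : ℝ) * (h : ℝ) ^ 60 ≤ e.p (vx c h τ (ix c e h τ k)) := by
      rw [h5]
      exact Nat.sInf_mem ⟨_, hmem k hk⟩
    have h7 : ∀ i < ix c e h τ k, e.p (vx c h τ i) < k * (h : ℝ) ^ 60 := by
      intro i hi
      rw [h5] at hi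
      have := Nat.notMem_of_lt_sInf hi
      exact not_le.1 this
    refine ⟨h6, ?_, h7⟩
    by_cases hi0 : ix c e h τ k = 0
    · rw [hi0, vx_zero, map_zero]
      have hd := e.one_le
      positivity
    · obtain ⟨m, hm⟩ := Nat.exists_eq_succ_of_ne_zero hi0
      have h8 := h7 m (by omega)
      have h9 : m < (wM c h τ).length := by
        have := hlen k
        omega
      have h10 : grid.Adj (vx c h τ m) (vx c h τ (m + 1)) := (wM c h τ).adj_getVert_succ h9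
      have h11 := e.p_le (vx c h τ (m + 1) - vx c h τ m)
      rw [nm_adj h10, mul_one, map_sub, abs_le] at h11
      rw [hm]
      show e.p (vx c h τ (m + 1)) ≤ _
      linarith
  · intro hk
    unfold ix
    rw [if_neg (not_lt.2 hk)]

/-- Vertices of the block `k` are to the left of the next column. -/
theorem ix_block (g : V → ℝ) (c d : Crd) (c₀ C₁ θ η : ℝ) (hT : TwoCones g c d c₀ C₁ θ η) (e : Crd)
    (he : e = c ∨ e = d) :
    ∃ h₀ : ℝ, ∀ h : ℕ, h₀ ≤ h → ∀ (τ : Env) (k i : ℕ), k + 1 < h ^ 20 → i ≤ ix c e h τ (k + 1) →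
      e.p (vx c h τ i) ≤ (k + 1) * (h : ℝ) ^ 60 + e.C := by
  obtain ⟨h₁, H⟩ := ix_spec g c d c₀ C₁ θ η hT e he
  refine ⟨h₁, fun h hh τ k i hk hi => ?_⟩
  obtain ⟨_, _, _, h4, _⟩ := H h hh τ (k + 1)
  obtain ⟨_, h5, h6⟩ := h4 hk
  push_cast at h5 h6
  rcases hi.lt_or_eq with hlt | heq
  · have h7 := h6 i hlt
    have h8 := e.one_le
    linarith
  · rw [heq]
    exact h5

/-- Comparison of the two excesses. -/
theorem Xi_diff {g : V → ℝ} {c d : Crd} {c₀ C₁ θ η : ℝ} (hT : TwoCones g c d c₀ C₁ θ η) (h : ℕ)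
    (τ : Env) (i : ℕ) :
    Xi c d h τ i - Xi c c h τ i = (1 - (η - θ)) * c.q (vx c h τ i) := by
  unfold Xi Crd.rho
  rw [hT.hq, hT.hp]
  ring

/-- The comparison function is at most the square root. -/
private theorem DDet_S {x : ℝ} (hx : 1 ≤ x) : S x ≤ Real.sqrt x := by
  unfold S
  refine Real.sqrt_le_sqrt ?_
  have h1 : 1 ≤ Real.log (x + 2) := by
    rw [Real.le_log_iff_exp_le (by linarith)]
    have := Real.exp_one_lt_d9
    linarith
  exact div_le_self (by linarith) h1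

/-- `1 - κ` is positive.  PROOF.  `hd.low` for `z = rd(0, l)` (`c`-coordinates) and `hc.upq`: `κ l + c₀ θ l - C ≤ g z ≤ l + C₁ S l`, `l → ∞`. -/
theorem kappa_pos {Q : Par} {g : V → ℝ} (hg : IsMean Q g) {c d : Crd} {c₀ C₁ θ η : ℝ}
    (hT : TwoCones g c d c₀ C₁ θ η) : c₀ * θ ≤ 1 - (η - θ) := by
  have hC := c.one_le
  by_contra hcon
  push Not at hcon
  set A : ℝ := c.C * (1 + |η - θ| + c₀ * θ) with hA
  set δ : ℝ := (η - θ) + c₀ * θ - 1 with hδ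
  have hc0 : 0 < c₀ * θ := mul_pos hT.hc.pos hT.hθ
  have hA0 : 0 ≤ A := by
    have := abs_nonneg (η - θ)
    positivity
  have hδ0 : 0 < δ := by linarith
  have key : ∀ l : ℝ, 1 ≤ l → δ * l ≤ A + |C₁| * Real.sqrt l := by
    intro l hl
    have hp := c.rd_p 0 l
    have hq := c.rd_q 0 l
    rw [sub_zero] at hp
    have h1 := hT.hc.upq l (c.rd 0 l) hl hp hq
    have h2 := hT.hd.low (c.rd 0 l)
    rw [hT.hp, hT.hq] at h2
    have h3 : c₀ * (θ * c.q (c.rd 0 l)) ≤ c₀ * max (max (-(c.p (c.rd 0 l) + η * c.q (c.rd 0 l)))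
        (-(-θ * c.q (c.rd 0 l)))) 0 := by
      refine mul_le_mul_of_nonneg_left ?_ hT.hc.pos.le
      refine le_trans ?_ (le_max_left _ _)
      refine le_trans ?_ (le_max_right _ _)
      linarith
    have h4 : C₁ * S l ≤ |C₁| * Real.sqrt l :=
      (mul_le_mul_of_nonneg_right (le_abs_self C₁) (Real.sqrt_nonneg _)).trans
        (mul_le_mul_of_nonneg_left (DDet_S hl) (abs_nonneg _))
    have h5 : (η - θ) * (c.q (c.rd 0 l) - l) ≥ -(|η - θ| * c.C) := by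
      have h6 : |(η - θ) * (c.q (c.rd 0 l) - l)| ≤ |η - θ| * c.C := by
        rw [abs_mul]
        exact mul_le_mul_of_nonneg_left hq (abs_nonneg _)
      exact (abs_le.1 h6).1
    have h7 : (c₀ * θ) * (c.q (c.rd 0 l) - l) ≥ -(c₀ * θ * c.C) := by
      have h8 := (abs_le.1 hq).1
      nlinarith
    have h9 := (abs_le.1 hp).1
    rw [hA, hδ]
    nlinarith
  obtain ⟨s, hs⟩ := exists_gt (max 1 ((A + |C₁|) / δ))
  have hs1 : 1 < s := (le_max_left _ _).trans_lt hs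
  have hs2 : (A + |C₁|) / δ < s := (le_max_right _ _).trans_lt hs
  rw [div_lt_iff₀ hδ0] at hs2
  have h1 := key (s ^ 2) (one_le_pow₀ hs1.le)
  rw [Real.sqrt_sq (by linarith)] at h1
  have h2 : A ≤ A * s := le_mul_of_one_le_right hA0 hs1.le
  have h3 : (A + |C₁|) * s < s * δ * s := mul_lt_mul_of_pos_right hs2 (by linarith)
  nlinarith

section

variable (c d : Crd) (h : ℕ) (k : ℕ) (τ : Env)

/-- PROOF.  The images of finite sets. -/
theorem Zn_ge {i : ℕ} (h1 : ix c d h τ k ≤ i) (h2 : i ≤ ix c d h τ (k + 1)) :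
    Xi c d h τ (ix c d h τ k) - Xi c d h τ i ≤ Zn c d h k τ := by
  unfold Zn
  exact le_csSup (((Set.finite_Icc _ _).image _).bddAbove) ⟨i, ⟨h1, h2⟩, rfl⟩

theorem Zr_ge {i : ℕ} (h1 : ix c d h τ k ≤ i) (h2 : i ≤ ix c d h τ (k + 1)) :
    Xi c d h τ i - Xi c d h τ (ix c d h τ (k + 1)) ≤ Zr c d h k τ := by
  unfold Zr
  exact le_csSup (((Set.finite_Icc _ _).image _).bddAbove) ⟨i, ⟨h1, h2⟩, rfl⟩

theorem Zn_exists (h1 : ix c d h τ k ≤ ix c d h τ (k + 1)) :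
    ∃ i, ix c d h τ k ≤ i ∧ i ≤ ix c d h τ (k + 1) ∧
      Zn c d h k τ = Xi c d h τ (ix c d h τ k) - Xi c d h τ i := by
  have hne : ((fun i => Xi c d h τ (ix c d h τ k) - Xi c d h τ i) ''
      Set.Icc (ix c d h τ k) (ix c d h τ (k + 1))).Nonempty := (Set.nonempty_Icc.2 h1).image _
  obtain ⟨i, ⟨hi1, hi2⟩, hi⟩ := hne.csSup_mem ((Set.finite_Icc _ _).image _)
  exact ⟨i, hi1, hi2, hi.symm⟩

theorem Zr_exists (h1 : ix c d h τ k ≤ ix c d h τ (k + 1)) :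
    ∃ i, ix c d h τ k ≤ i ∧ i ≤ ix c d h τ (k + 1) ∧
      Zr c d h k τ = Xi c d h τ i - Xi c d h τ (ix c d h τ (k + 1)) := by
  have hne : ((fun i => Xi c d h τ i - Xi c d h τ (ix c d h τ (k + 1))) ''
      Set.Icc (ix c d h τ k) (ix c d h τ (k + 1))).Nonempty := (Set.nonempty_Icc.2 h1).image _
  obtain ⟨i, ⟨hi1, hi2⟩, hi⟩ := hne.csSup_mem ((Set.finite_Icc _ _).image _)
  exact ⟨i, hi1, hi2, hi.symm⟩

theorem Ok_ge (h1 : ix c d h τ k ≤ ix c d h τ (k + 1)) {i : ℕ} (h2 : ix c d h τ k ≤ i)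
    (h3 : i ≤ ix c d h τ (k + 1)) :
    |Xi c d h τ i - Xi c d h τ (ix c d h τ k)| ≤ Ok c d h k τ := by
  have a1 := Zn_ge c d h k τ h2 h3
  have a2 := Zr_ge c d h k τ h2 h3
  have a3 := Zn_ge c d h k τ le_rfl h1
  have a4 := Zr_ge c d h k τ h1 le_rfl
  have a5 : Xk c d h k τ = Xi c d h τ (ix c d h τ (k + 1)) - Xi c d h τ (ix c d h τ k) := rfl
  have a6 := le_max_left (Xk c d h k τ) 0
  have a7 := le_max_right (Xk c d h k τ) 0
  rw [sub_self] at a3 a4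
  unfold Ok
  rw [abs_le]
  constructor <;> linarith

end

/-- Telescoping. -/
theorem sum_Xk (g : V → ℝ) (c d : Crd) (c₀ C₁ θ η : ℝ) (hT : TwoCones g c d c₀ C₁ θ η) (e : Crd)
    (he : e = c ∨ e = d) :
    ∃ h₀ : ℝ, ∀ h : ℕ, h₀ ≤ h → ∀ τ : Env, ∑ k ∈ range (h ^ 20), Xk c e h k τ
      = T τ 0 (yM c h) - T τ 0 0 - e.rho (yM c h) := by
  obtain ⟨h₁, H⟩ := ix_spec g c d c₀ C₁ θ η hT e he
  refine ⟨h₁, fun h hh τ => ?_⟩
  have h1 : ix c e h τ 0 = 0 := (H h hh τ 0).2.1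
  have h2 : ix c e h τ (h ^ 20) = (wM c h τ).length := (H h hh τ (h ^ 20)).2.2.2.2 le_rfl
  unfold Xk
  rw [Finset.sum_range_sub fun k => Xi c e h τ (ix c e h τ k), h1, h2]
  unfold Xi Crd.rho
  rw [vx_last c h τ le_rfl, vx_zero, map_zero, map_zero]
  ring

/-- Crude bounds. -/
theorem Z_crude (Q : Par) (c d : Crd) : ∃ h₀ : ℝ, ∀ h : ℕ, h₀ ≤ h → ∀ (τ : Env) (k : ℕ),
    Bd Q.a Q.b τ → ix c d h τ k ≤ ix c d h τ (k + 1) →
      0 ≤ Zn c d h k τ ∧ Zn c d h k τ ≤ (h : ℝ) ^ 81 ∧ 0 ≤ Zr c d h k τ ∧ Zr c d h k τ ≤ (h : ℝ) ^ 81 ∧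
      |Xk c d h k τ| ≤ (h : ℝ) ^ 81 := by
  set K : ℝ := (Q.b + 2 * d.C) * (Q.b / Q.a * (c.C * (1 + 2 * c.C))) with hK
  have ha := Q.ha
  have hb : 0 < Q.b := Q.ha.trans Q.hab
  have hC := c.one_le
  have hD := d.one_le
  have hK0 : 0 ≤ K := by positivity
  refine ⟨2 * K + 1, fun h hh τ k hτ hix => ?_⟩
  have h1 : (1 : ℝ) ≤ h := by linarith
  have hX : ∀ i, |Xi c d h τ i| ≤ (h : ℝ) ^ 81 / 2 := by
    intro i
    have hp := c.rd_p ((h : ℝ) ^ 80) 0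
    have hq := c.rd_q ((h : ℝ) ^ 80) 0
    change |c.p (yM c h) - _| ≤ _ at hp
    change |c.q (yM c h) - _| ≤ _ at hq
    rw [sub_zero] at hq
    have h80 : (1 : ℝ) ≤ (h : ℝ) ^ 80 := one_le_pow₀ h1
    have hp2 : |c.p (yM c h)| ≤ (h : ℝ) ^ 80 + c.C := by
      rw [abs_le] at hp ⊢
      constructor <;> linarith
    have e1 : nm (yM c h) ≤ c.C * (1 + 2 * c.C) * (h : ℝ) ^ 80 := by
      refine (c.nm_le _).trans ?_
      rw [mul_assoc]
      refine mul_le_mul_of_nonneg_left ?_ (by linarith)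
      nlinarith
    have e2 : nm (vx c h τ i) ≤ Q.b / Q.a * (c.C * (1 + 2 * c.C)) * (h : ℝ) ^ 80 := by
      refine (vx_nm hτ c h i).trans ?_
      rw [mul_assoc]
      exact mul_le_mul_of_nonneg_left e1 (by positivity)
    have e3 : |Xi c d h τ i| ≤ (Q.b + 2 * d.C) * nm (vx c h τ i) := by
      have f1 := T_nonneg hτ ha.le 0 (vx c h τ i)
      have f2 := T_upper hτ ha.le 0 (vx c h τ i)
      rw [sub_zero] at f2
      have f3 := d.p_le (vx c h τ i)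
      have f4 := d.q_le (vx c h τ i)
      have f5 : 0 ≤ Q.b * nm (vx c h τ i) := mul_nonneg hb.le (nm_nonneg _)
      unfold Xi Crd.rho
      rw [abs_le] at f3 f4 ⊢
      constructor <;> linarith
    have e4 : (Q.b + 2 * d.C) * nm (vx c h τ i) ≤ K * (h : ℝ) ^ 80 := by
      rw [hK, mul_assoc]
      exact mul_le_mul_of_nonneg_left e2 (by linarith)
    have e5 : 2 * K * (h : ℝ) ^ 80 ≤ (h : ℝ) * (h : ℝ) ^ 80 :=
      mul_le_mul_of_nonneg_right (by linarith) (by positivity)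
    have e6 : (h : ℝ) * (h : ℝ) ^ 80 = (h : ℝ) ^ 81 := by rw [← pow_succ']
    linarith
  obtain ⟨i, _, _, hi⟩ := Zn_exists c d h k τ hix
  obtain ⟨j, _, _, hj⟩ := Zr_exists c d h k τ hix
  have a3 := Zn_ge c d h k τ le_rfl hix
  have a4 := Zr_ge c d h k τ hix le_rfl
  rw [sub_self] at a3 a4
  have b1 := abs_le.1 (hX i)
  have b2 := abs_le.1 (hX j)
  have b3 := abs_le.1 (hX (ix c d h τ k))
  have b4 := abs_le.1 (hX (ix c d h τ (k + 1)))
  refine ⟨a3, by rw [hi]; linarith, a4, by rw [hj]; linarith, ?_⟩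
  unfold Xk
  rw [abs_le]
  constructor <;> linarith

end Pool.Agent.W_1b8d5d_h85
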