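import Pool.Agent.W_1b8d5d_h85.DSel

/-!
MP_1b8d5d_pr, proofs row 571, end of section 6: good lanes exist with probability at least 3/4.
-/

set_option autoImplicit false

namespace Pool.Agent.W_1b8d5d_h85

open Finset

private lemma DGood_log {h : ℝ} (hh : 3 ≤ h) : 1 ≤ Real.sqrt (Real.log h) ∧ Real.sqrt (Real.log h) ≤ h := by
  have h0 : 0 < h := by linarith
  have h1 : 1 ≤ Real.log h := by
    rw [Real.le_log_iff_exp_le h0]
    have := Real.exp_one_lt_d9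
    linarith
  refine ⟨Real.one_le_sqrt.2 h1, ?_⟩
  have h2 : Real.log h ≤ h := (Real.log_le_sub_one_of_pos h0).trans (by linarith)
  rw [Real.sqrt_le_left h0.le]
  nlinarith

private lemma DGood_s0 {h : ℝ} (hh : 3 ≤ h) : h ^ 39 ≤ s0 h ∧ s0 h ≤ h ^ 40 := by
  obtain ⟨h1, h2⟩ := DGood_log hh
  have h0 : 0 < h := by linarith
  have h3 : 0 < Real.sqrt (Real.log h) := by linarith
  unfold s0
  constructor
  · rw [le_div_iff₀ h3]
    calc h ^ 39 * Real.sqrt (Real.log h) ≤ h ^ 39 * h := by gcongr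
      _ = h ^ 40 := by ring
  · exact div_le_self (by positivity) h1

private lemma DGood_x0 {h : ℝ} (hh : 3 ≤ h) : 0 < x0 h := by
  obtain ⟨h1, h2⟩ := DGood_log hh
  have h0 : 0 < h := by linarith
  have h3 : 0 < Real.sqrt (Real.log h) := by linarith
  unfold x0
  positivity

/-- the column functional `c.p` changes by at most `c.C` along an edge -/
private lemma DGood_lip (c : Crd) : ∀ x y, grid.Adj x y → |c.p y - c.p x| ≤ c.C := by
  intro x y hxy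
  rw [← map_sub]
  refine (c.p_le _).trans ?_
  rw [nm_adj hxy, mul_one]

/-- the end point of the long geodesic -/
private lemma DGood_yM (c : Crd) : ∃ h₀ : ℝ, 3 ≤ h₀ ∧ ∀ h : ℕ, h₀ ≤ h → ∀ k : ℕ, k < h ^ 20 →
    (k : ℝ) * (h : ℝ) ^ 60 ≤ c.p (yM c h) := by
  refine ⟨3 + c.C, by have := c.one_le; linarith, ?_⟩
  intro h hh k hk
  have hC := c.one_le
  have hh3 : (3 : ℝ) ≤ h := by linarith
  have h1 : (k : ℝ) + 1 ≤ (h : ℝ) ^ 20 := by exact_mod_cast hk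
  have h2 := (abs_le.1 (c.rd_p ((h : ℝ) ^ 80) 0)).1
  have h3 : (h : ℝ) ≤ (h : ℝ) ^ 60 := by
    calc (h : ℝ) = (h : ℝ) ^ 1 := by ring
      _ ≤ (h : ℝ) ^ 60 := pow_le_pow_right₀ (by linarith) (by norm_num)
  have h4 : ((k : ℝ) + 1) * (h : ℝ) ^ 60 ≤ (h : ℝ) ^ 20 * (h : ℝ) ^ 60 := by gcongr
  have h5 : (h : ℝ) ^ 20 * (h : ℝ) ^ 60 = (h : ℝ) ^ 80 := by ring
  unfold yM
  nlinarith

/-- the indices of the columns of `c` -/
private lemma DGood_ix (c : Crd) : ∃ h₀ : ℝ, 3 ≤ h₀ ∧ ∀ h : ℕ, h₀ ≤ h → ∀ (τ : Env) (k : ℕ),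
    k + 1 < h ^ 20 →
    (∀ i < ix c c h τ k, c.p (vx c h τ i) < (k : ℝ) * (h : ℝ) ^ 60) ∧
    ((k : ℝ) + 1) * (h : ℝ) ^ 60 ≤ c.p (vx c h τ (ix c c h τ (k + 1))) ∧
    ix c c h τ k ≤ ix c c h τ (k + 1) := by
  obtain ⟨h₀, h3, hy⟩ := DGood_yM c
  refine ⟨h₀, h3, ?_⟩
  intro h hh τ k hk
  have hk' : k < h ^ 20 := by omega
  have e1 : ix c c h τ k = sInf {i | (k : ℝ) * (h : ℝ) ^ 60 ≤ c.p (vx c h τ i)} := if_pos hk'
  have e2 : ix c c h τ (k + 1) =
      sInf {i | ((k + 1 : ℕ) : ℝ) * (h : ℝ) ^ 60 ≤ c.p (vx c h τ i)} := if_pos hk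
  have hne : {i | ((k + 1 : ℕ) : ℝ) * (h : ℝ) ^ 60 ≤ c.p (vx c h τ i)}.Nonempty := by
    refine ⟨(wM c h τ).length, ?_⟩
    show ((k + 1 : ℕ) : ℝ) * (h : ℝ) ^ 60 ≤ c.p (vx c h τ (wM c h τ).length)
    rw [vx_last c h τ le_rfl]
    exact hy h hh (k + 1) hk
  have hmem := Nat.sInf_mem hne
  rw [← e2] at hmem
  have hmem' : ((k : ℝ) + 1) * (h : ℝ) ^ 60 ≤ c.p (vx c h τ (ix c c h τ (k + 1))) := by
    have h1 : ((k + 1 : ℕ) : ℝ) * (h : ℝ) ^ 60 ≤ c.p (vx c h τ (ix c c h τ (k + 1))) := hmem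
    push_cast at h1
    exact h1
  refine ⟨?_, hmem', ?_⟩
  · intro i hi
    rw [e1] at hi
    have h1 := Nat.notMem_of_lt_sInf hi
    exact not_le.1 h1
  · rw [e1]
    apply Nat.sInf_le
    show (k : ℝ) * (h : ℝ) ^ 60 ≤ c.p (vx c h τ (ix c c h τ (k + 1)))
    have : (0 : ℝ) ≤ (h : ℝ) ^ 60 := by positivity
    nlinarith

/-- Deterministic part.  PROOF.  `α = k h^60 + h^41`; `i₋`, `i₊` = first indices with `c.p ≥ α`, `c.p ≥ (k+1) h^60 - h^41`
(`first_passage`); they are in the block `k` of `c`.  `block_height` (with `B = A s0 h ≥ h^39`): `|c.q| ≤ C A s0` in the block, much less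
than `h^41`; so `i₋`, `i₊` and everything between is also in the block `k` of `d`: `d.p = c.p + η c.q`; for indices before the block `k` of `c`
use `height` (`|c.q| ≤ C h^41`).  `Ok_ge` for `c` and for `d`: both excesses oscillate by `≤ 2 A x0` on `[i₋, i₊]`; `Xi_diff`,
`kappa_pos`: `c.q` oscillates by `≤ C x0`; `T_vx_Xi`: the excess is `≤ 2 A x0`; `no_back`; `geo_piece` gives the walk. -/
theorem goodLane_of (Q : Par) (g : V → ℝ) (hg : IsMean Q g) (c d : Crd) (c₀ C₁ θ η : ℝ)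
    (hT : TwoCones g c d c₀ C₁ θ η) (A : ℝ) (hA : 1 ≤ A) :
    ∃ C h₀ : ℝ, ∀ h : ℕ, h₀ ≤ h → ∀ τ, Bd Q.a Q.b τ → CEM g h τ → ∀ k : ℕ, k + 1 < h ^ 20 →
      hgt c c h k τ ≤ A * s0 h → hgt c c h (k + 1) τ ≤ A * s0 h →
      Ok c c h k τ ≤ A * x0 h → Ok c d h k τ ≤ A * x0 h →
        GoodLane c C h (k * (h : ℝ) ^ 60 + (h : ℝ) ^ 41) τ := by
  obtain ⟨Ch, hh1, Hh⟩ := height Q g hg c d c₀ C₁ θ η hT
  obtain ⟨Cb, hh2, hCb, Hb⟩ := block_height Q g hg c d c₀ C₁ θ η hT c (Or.inl rfl)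
  obtain ⟨hh3, Hn⟩ := no_back Q g hg c d c₀ C₁ θ η hT c (Or.inl rfl)
  obtain ⟨hh4, hh43, Hy⟩ := DGood_yM c
  obtain ⟨hh5, hh53, Hi⟩ := DGood_ix c
  obtain ⟨hh6, Hd⟩ := ix_spec g c d c₀ C₁ θ η hT d (Or.inr rfl)
  have hκ := kappa_pos hg hT
  have hc0 : 0 < c₀ := hT.hc.pos
  have hκ0 : 0 < c₀ * θ := mul_pos hc0 hT.hθ
  have hC1 := c.one_le
  have habs : 0 ≤ |η| := abs_nonneg η
  have hA0 : 0 < A := by linarith
  have hCA : 0 ≤ Cb * A := by positivity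
  refine ⟨c.C + Cb * A + 4 * A / (c₀ * θ) + 2 * A,
    3 + hh1 + hh2 + hh3 + hh4 + hh5 + hh6 + |hh1| + |hh2| + |hh3| + |hh6| + A +
      2 * (Cb * A * (|η| + 1)) + |η| * |Ch| + c.C, ?_⟩
  intro h hh τ hB hCE k hk hg1 hg2 ho1 ho2
  -- the largeness of h
  have a1 := neg_abs_le hh1
  have a2 := neg_abs_le hh2
  have a3 := neg_abs_le hh3
  have a6 := neg_abs_le hh6
  have b1 := le_abs_self hh1
  have b2 := le_abs_self hh2
  have b3 := le_abs_self hh3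
  have b6 := le_abs_self hh6
  have pos1 : 0 ≤ Cb * A * (|η| + 1) := by positivity
  have pos2 : 0 ≤ |η| * |Ch| := by positivity
  have H1 : hh1 ≤ h := by linarith
  have H2 : hh2 ≤ h := by linarith
  have H3 : hh3 ≤ h := by linarith
  have H4 : hh4 ≤ h := by linarith
  have H5 : hh5 ≤ h := by linarith
  have H6 : hh6 ≤ h := by linarith
  have h3 : (3 : ℝ) ≤ h := by linarith
  have hAh : A ≤ h := by linarith
  have hbig : 2 * (Cb * A * (|η| + 1)) ≤ h := by linarith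
  have hbig2 : |η| * |Ch| ≤ h := by linarith
  have hbig3 : c.C ≤ h := by linarith
  have h1 : (1 : ℝ) ≤ h := by linarith
  have h0 : (0 : ℝ) < h := by linarith
  obtain ⟨s1, s2⟩ := DGood_s0 h3
  have hx0 := DGood_x0 h3
  have hs0 : 0 < s0 (h : ℝ) := lt_of_lt_of_le (by positivity) s1
  -- powers
  have p41 : (h : ℝ) ^ 41 = h * (h : ℝ) ^ 40 := by ring
  have p42 : (h : ℝ) ^ 42 = h * h * (h : ℝ) ^ 40 := by ring
  have p4160 : (h : ℝ) * (h : ℝ) ^ 41 < (h : ℝ) ^ 60 := by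
    have e : (h : ℝ) * (h : ℝ) ^ 41 = (h : ℝ) ^ 42 := by ring
    rw [e]
    exact pow_lt_pow_right₀ (by linarith) (by norm_num)
  have p41_60 : 2 * (h : ℝ) ^ 41 ≤ (h : ℝ) ^ 60 := by
    have : 2 * (h : ℝ) ^ 41 ≤ h * (h : ℝ) ^ 41 := by
      have : (0 : ℝ) ≤ (h : ℝ) ^ 41 := by positivity
      nlinarith
    linarith
  have hone41 : (h : ℝ) ≤ (h : ℝ) ^ 41 := by
    calc (h : ℝ) = (h : ℝ) ^ 1 := by ring
      _ ≤ (h : ℝ) ^ 41 := pow_le_pow_right₀ h1 (by norm_num)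
  have h60pos : (0 : ℝ) < (h : ℝ) ^ 60 := by positivity
  have h41pos : (0 : ℝ) < (h : ℝ) ^ 41 := by positivity
  have h40pos : (0 : ℝ) < (h : ℝ) ^ 40 := by positivity
  -- the block height
  have hBl : (h : ℝ) ^ 39 ≤ A * s0 h := by nlinarith
  have hBu : A * s0 h ≤ (h : ℝ) ^ 42 := by
    rw [p42]
    calc A * s0 h ≤ h * (h : ℝ) ^ 40 := by gcongr
      _ ≤ h * h * (h : ℝ) ^ 40 := by nlinarith
  have hk' : k < h ^ 20 := by omega
  have hblock := Hb h H2 τ hB hCE k (A * s0 h) hk' hBl hBu hg1 hg2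
  obtain ⟨ic1, ic2, ic3⟩ := Hi h H5 τ k hk
  -- smallness of the heights in the block
  have hsmall : Cb * (A * s0 h) * (|η| + 1) ≤ (h : ℝ) ^ 41 / 2 := by
    have : Cb * (A * s0 h) * (|η| + 1) ≤ Cb * A * (|η| + 1) * (h : ℝ) ^ 40 := by
      have e : Cb * (A * s0 h) * (|η| + 1) = Cb * A * (|η| + 1) * s0 h := by ring
      rw [e]
      gcongr
    rw [p41]
    nlinarith
  have hηq : ∀ i, ix c c h τ k ≤ i → i ≤ ix c c h τ (k + 1) →
      |η * c.q (vx c h τ i)| ≤ (h : ℝ) ^ 41 / 2 := by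
    intro i hi1 hi2
    have h2 := hblock i hi1 hi2
    rw [abs_mul]
    calc |η| * |c.q (vx c h τ i)| ≤ |η| * (Cb * (A * s0 h)) := by gcongr
      _ ≤ Cb * (A * s0 h) * (|η| + 1) := by
          have : 0 ≤ Cb * (A * s0 h) := by positivity
          nlinarith
      _ ≤ _ := hsmall
  set α : ℝ := (k : ℝ) * (h : ℝ) ^ 60 + (h : ℝ) ^ 41 with hα
  set α' : ℝ := α + ((h : ℝ) ^ 60 - 2 * (h : ℝ) ^ 41) with hα'
  have hk0 : (0 : ℝ) ≤ k := Nat.cast_nonneg k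
  have hα0 : 0 < α := by positivity
  have hαα' : α ≤ α' := by linarith
  have hα'e : α' = ((k : ℝ) + 1) * (h : ℝ) ^ 60 - (h : ℝ) ^ 41 := by
    rw [hα', hα]; ring
  have hy := Hy h H4 (k + 1) hk
  push_cast at hy
  have hp0 : c.p (0 : V) = 0 := map_zero _
  -- the first passages
  obtain ⟨i1, hi1l, hi1a, hi1b, hi1c⟩ := first_passage c.p c.C (DGood_lip c) α (wM c h τ)
    (by rw [hp0]; exact hα0) (by linarith)
  obtain ⟨i2, hi2l, hi2a, hi2b, hi2c⟩ := first_passage c.p c.C (DGood_lip c) α' (wM c h τ)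
    (by rw [hp0]; linarith) (by linarith)
  have hi12 : i1 ≤ i2 := by
    by_contra hcon
    push Not at hcon
    have := hi1c i2 hcon
    linarith
  have hi1c' : ∀ j < i1, c.p (vx c h τ j) < α := hi1c
  have hi2c' : ∀ j < i2, c.p (vx c h τ j) < α' := hi2c
  have hi1a' : α ≤ c.p (vx c h τ i1) := hi1a
  have hi2a' : α' ≤ c.p (vx c h τ i2) := hi2a
  have hi1b' : c.p (vx c h τ i1) < α + c.C := hi1b
  have hi2b' : c.p (vx c h τ i2) < α' + c.C := hi2b
  -- the block of c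
  have hc1 : ix c c h τ k ≤ i1 := by
    by_contra hcon
    push Not at hcon
    have := ic1 i1 hcon
    linarith
  have hc2 : i2 ≤ ix c c h τ (k + 1) := by
    by_contra hcon
    push Not at hcon
    have := hi2c' _ hcon
    linarith
  -- the block of d
  obtain ⟨-, -, id1, id2, -⟩ := Hd h H6 τ k
  obtain ⟨id2a, id2b, id2c⟩ := id2 hk'
  obtain ⟨-, -, -, id3, -⟩ := Hd h H6 τ (k + 1)
  obtain ⟨id3a, id3b, id3c⟩ := id3 hk
  have hd1 : ix c d h τ k ≤ i1 := by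
    by_contra hcon
    push Not at hcon
    have h4 := id2c i1 hcon
    rw [hT.hp] at h4
    have h5 := (abs_le.1 (hηq i1 hc1 (hi12.trans hc2))).1
    linarith
  have hd2 : i2 ≤ ix c d h τ (k + 1) := by
    by_contra hcon
    push Not at hcon
    have h4 := hi2c' _ hcon
    push_cast at id3a
    rw [hT.hp] at id3a
    have h5 : (h : ℝ) ^ 41 < η * c.q (vx c h τ (ix c d h τ (k + 1))) := by linarith
    rcases le_or_gt (ix c c h τ k) (ix c d h τ (k + 1)) with h6 | h6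
    · have h7 := (abs_le.1 (hηq _ h6 (hcon.le.trans hc2))).2
      linarith
    · have h7 := ic1 _ h6
      have h8 : (h : ℝ) ^ 60 < η * c.q (vx c h τ (ix c d h τ (k + 1))) := by linarith
      have h9 := Hh h H1 τ hB hCE (ix c d h τ (k + 1))
      have h10 : η * c.q (vx c h τ (ix c d h τ (k + 1))) ≤ |η| * |Ch| * (h : ℝ) ^ 41 := by
        calc η * c.q (vx c h τ (ix c d h τ (k + 1)))
            ≤ |η * c.q (vx c h τ (ix c d h τ (k + 1)))| := le_abs_self _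
          _ = |η| * |c.q (vx c h τ (ix c d h τ (k + 1)))| := abs_mul _ _
          _ ≤ |η| * (|Ch| * (h : ℝ) ^ 41) := by
              have : Ch * (h : ℝ) ^ 41 ≤ |Ch| * (h : ℝ) ^ 41 :=
                mul_le_mul_of_nonneg_right (le_abs_self _) h41pos.le
              exact mul_le_mul_of_nonneg_left (h9.trans this) habs
          _ = _ := by ring
      have h11 : |η| * |Ch| * (h : ℝ) ^ 41 ≤ h * (h : ℝ) ^ 41 := by gcongr
      linarith
  -- oscillations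
  have osc_c : ∀ i, i1 ≤ i → i ≤ i2 →
      |Xi c c h τ i - Xi c c h τ (ix c c h τ k)| ≤ A * x0 h := fun i h4 h5 =>
    (Ok_ge c c h k τ ic3 (hc1.trans h4) (h5.trans hc2)).trans ho1
  have osc_d : ∀ i, i1 ≤ i → i ≤ i2 →
      |Xi c d h τ i - Xi c d h τ (ix c d h τ k)| ≤ A * x0 h := fun i h4 h5 =>
    (Ok_ge c d h k τ id1 (hd1.trans h4) (h5.trans hd2)).trans ho2
  have osc_q : ∀ i, i1 ≤ i → i ≤ i2 →
      |c.q (vx c h τ i) - c.q (vx c h τ i1)| ≤ 4 * A / (c₀ * θ) * x0 h := by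
    intro i h4 h5
    have c1 := abs_le.1 (osc_c i h4 h5)
    have c2 := abs_le.1 (osc_c i1 le_rfl hi12)
    have d1 := abs_le.1 (osc_d i h4 h5)
    have d2 := abs_le.1 (osc_d i1 le_rfl hi12)
    have e1 := Xi_diff hT h τ i
    have e2 := Xi_diff hT h τ i1
    have h6 : |(1 - (η - θ)) * (c.q (vx c h τ i) - c.q (vx c h τ i1))| ≤ 4 * A * x0 h := by
      rw [mul_sub, ← e1, ← e2, abs_le]
      constructor <;> linarith
    rw [abs_mul, abs_of_pos (lt_of_lt_of_le hκ0 hκ)] at h6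
    have h7 : (c₀ * θ) * |c.q (vx c h τ i) - c.q (vx c h τ i1)| ≤ 4 * A * x0 h :=
      (mul_le_mul_of_nonneg_right hκ (abs_nonneg _)).trans h6
    rw [div_mul_eq_mul_div, le_div_iff₀ hκ0]
    linarith
  have hx0' : 0 ≤ x0 (h : ℝ) := hx0.le
  have hdiv : 0 ≤ 4 * A / (c₀ * θ) := by positivity
  have hC0 : 0 ≤ c.C := by linarith
  -- the walk
  obtain ⟨w', hw1, hw2, hw3, -⟩ := geo_piece hB Q.ha.le (wM_geo hB c h) hi12 hi2l
  refine ⟨vx c h τ i1, vx c h τ i2, w', hw1, ?_, ?_, ?_, ?_, ?_, ?_⟩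
  · rw [abs_le]
    constructor <;> linarith
  · rw [abs_le]
    constructor <;> linarith
  · refine (hblock i1 hc1 (hi12.trans hc2)).trans ?_
    have : Cb * (A * s0 h) = Cb * A * s0 h := by ring
    rw [this]
    gcongr
    linarith
  · refine (hblock i2 (hc1.trans hi12) hc2).trans ?_
    have : Cb * (A * s0 h) = Cb * A * s0 h := by ring
    rw [this]
    gcongr
    linarith
  · intro v hv
    obtain ⟨l, hl, hl2⟩ := (SimpleGraph.Walk.mem_support_iff_exists_getVert).1 hv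
    have hl3 : l ≤ i2 - i1 := hl2.trans (le_of_eq hw2)
    have hv' : v = vx c h τ (i1 + l) := hl.symm.trans (hw3 l hl3)
    have h4 : i1 ≤ i1 + l := Nat.le_add_right _ _
    have h5 : i1 + l ≤ i2 := by omega
    rw [hv']
    refine ⟨?_, ?_, ?_⟩
    · have := Hn h H3 τ hB hCE i1 (i1 + l) h4
      have h6 : (0 : ℝ) ≤ (h : ℝ) ^ 42 := by positivity
      linarith
    · rcases h5.lt_or_eq with h6 | h6
      · have := hi2c' _ h6
        linarith
      · rw [h6]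
        linarith
    · refine (osc_q (i1 + l) h4 h5).trans ?_
      gcongr
      linarith
  · have e := T_vx_Xi hB c c h hi12
    rw [e]
    have c1 := abs_le.1 (osc_c i2 hi12 le_rfl)
    have c2 := abs_le.1 (osc_c i1 le_rfl hi12)
    have h6 : 2 * A * x0 h ≤ (c.C + Cb * A + 4 * A / (c₀ * θ) + 2 * A) * x0 h := by
      gcongr
      linarith
    linarith

/-- **Good lanes.**  PROOF.  `exists_block`, Markov (`Ok ≥ 0`), `col_height`, `CEM_prob`: the four conditions fail with total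
probability `≤ 1/4` if `A` is large. -/
theorem good_lane (Q : Par) (g : V → ℝ) (hg : IsMean Q g) (c d : Crd) (c₀ C₁ θ η : ℝ)
    (hT : TwoCones g c d c₀ C₁ θ η) :
    ∃ C h₀ : ℝ, ∀ h : ℕ, h₀ ≤ h → ∀ (R : ℝ) (M : Mdl Q.a Q.b), Good Q g R M →
      (h : ℝ) ^ 1000 ≤ R → ∃ α : ℝ, |α| ≤ 2 * (h : ℝ) ^ 80 ∧ 3 / 4 ≤ M.P (GoodLane c C h α) := by
  obtain ⟨Cx, hx, Hx⟩ := exists_block Q g hg c d c₀ C₁ θ η hT
  obtain ⟨Cl, hl, hCl, Hl⟩ := col_height Q g hg c d c₀ C₁ θ η hT c (Or.inl rfl)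
  obtain ⟨hm, Hm⟩ := CEM_prob Q g
  obtain ⟨hz1, Hz1⟩ := Z_crude Q c c
  obtain ⟨hz2, Hz2⟩ := Z_crude Q c d
  obtain ⟨hi5, hi53, Hi⟩ := DGood_ix c
  obtain ⟨hi6, Hd⟩ := ix_spec g c d c₀ C₁ θ η hT d (Or.inr rfl)
  have hCl0 : 0 < Cl := by linarith
  obtain ⟨A, hAdef⟩ : ∃ A : ℝ, A = 1 + 20 * |Cx| + 20 * Cl := ⟨_, rfl⟩
  have hx0a := abs_nonneg Cx
  have hA1 : 1 ≤ A := by linarith
  have hA0 : 0 < A := by linarith
  obtain ⟨C, h₀, H⟩ := goodLane_of Q g hg c d c₀ C₁ θ η hT A hA1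
  refine ⟨C, 20 + |hx| + |hl| + |hm| + |hz1| + |hz2| + |hi5| + |hi6| + |h₀|, ?_⟩
  intro h hh R M hM hR
  have n1 := abs_nonneg hx
  have n2 := abs_nonneg hl
  have n3 := abs_nonneg hm
  have n4 := abs_nonneg hz1
  have n5 := abs_nonneg hz2
  have n6 := abs_nonneg hi5
  have n7 := abs_nonneg hi6
  have n8 := abs_nonneg h₀
  have m1 := le_abs_self hx
  have m2 := le_abs_self hl
  have m3 := le_abs_self hm
  have m4 := le_abs_self hz1
  have m5 := le_abs_self hz2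
  have m6 := le_abs_self hi5
  have m7 := le_abs_self hi6
  have m8 := le_abs_self h₀
  have h20 : (20 : ℝ) ≤ h := by linarith
  have h3 : (3 : ℝ) ≤ h := by linarith
  obtain ⟨k, hk1, hk2, hk3⟩ := Hx h (by linarith) R M hM hR
  have hk' : k < h ^ 20 := by omega
  have hs0 : 0 < s0 (h : ℝ) := lt_of_lt_of_le (by positivity) (DGood_s0 h3).1
  have hx0 := DGood_x0 h3
  refine ⟨k * (h : ℝ) ^ 60 + (h : ℝ) ^ 41, ?_, ?_⟩
  · have h1 : (k : ℝ) ≤ (h : ℝ) ^ 20 := by exact_mod_cast hk'.le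
    have h2 : (h : ℝ) ^ 41 ≤ (h : ℝ) ^ 80 := pow_le_pow_right₀ (by linarith) (by norm_num)
    have h4 : (k : ℝ) * (h : ℝ) ^ 60 ≤ (h : ℝ) ^ 20 * (h : ℝ) ^ 60 := by gcongr
    have h5 : (h : ℝ) ^ 20 * (h : ℝ) ^ 60 = (h : ℝ) ^ 80 := by ring
    rw [abs_of_nonneg (by positivity)]
    linarith
  · -- nonnegativity of the oscillation bounds
    have ok1 : ∀ τ, Bd Q.a Q.b τ → 0 ≤ Ok c c h k τ := by
      intro τ hτ
      obtain ⟨z1, -, z2, -, -⟩ := Hz1 h (by linarith) τ k hτ (Hi h (by linarith) τ k hk2).2.2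
      have := le_max_right (Xk c c h k τ) 0
      unfold Ok
      linarith
    have ok2 : ∀ τ, Bd Q.a Q.b τ → 0 ≤ Ok c d h k τ := by
      intro τ hτ
      obtain ⟨-, -, id1, -, -⟩ := Hd h (by linarith) τ k
      obtain ⟨z1, -, z2, -, -⟩ := Hz2 h (by linarith) τ k hτ id1
      have := le_max_right (Xk c d h k τ) 0
      unfold Ok
      linarith
    have hAx : 0 < A * x0 h := by positivity
    have hAs : 0 < A * s0 h := by positivity
    have q1 := M.markov ok1 hAx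
    have q2 := M.markov ok2 hAx
    have q12 : M.E (Ok c c h k) / (A * x0 h) + M.E (Ok c d h k) / (A * x0 h) ≤ 1 / 20 := by
      rw [← add_div, div_le_iff₀ hAx]
      have h1 := le_abs_self Cx
      have h2 : Cx * x0 h ≤ |Cx| * x0 h := mul_le_mul_of_nonneg_right h1 hx0.le
      nlinarith
    have q3 := Hl h (by linarith) R M hM hR k (A * s0 h) hk'.le hAs
    have q4 := Hl h (by linarith) R M hM hR (k + 1) (A * s0 h) hk2.le hAs
    have q34 : Cl * s0 h ^ 2 / (A * s0 h) ^ 2 ≤ 1 / 20 := by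
      rw [mul_pow, div_le_iff₀ (by positivity)]
      have h1 : 20 * Cl ≤ A ^ 2 := by nlinarith
      have h2 : (0 : ℝ) < s0 (h : ℝ) ^ 2 := by positivity
      nlinarith
    have q5 := Hm h (by linarith) R M hM hR
    have q5' : 1 / (h : ℝ) ^ 300 ≤ 1 / 20 := by
      apply one_div_le_one_div_of_le (by norm_num)
      calc (20 : ℝ) ≤ h := h20
        _ = (h : ℝ) ^ 1 := by ring
        _ ≤ (h : ℝ) ^ 300 := pow_le_pow_right₀ (by linarith) (by norm_num)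
    have hbad : M.P (fun τ => ¬ GoodLane c C h (k * (h : ℝ) ^ 60 + (h : ℝ) ^ 41) τ) ≤
        M.P (fun τ => ¬ CEM g h τ) + (M.P (fun τ => A * s0 h ≤ hgt c c h k τ) +
        (M.P (fun τ => A * s0 h ≤ hgt c c h (k + 1) τ) + (M.P (fun τ => A * x0 h ≤ Ok c c h k τ) +
        M.P (fun τ => A * x0 h ≤ Ok c d h k τ)))) := by
      refine (M.P_mono (q := fun τ => ¬ CEM g h τ ∨ (A * s0 h ≤ hgt c c h k τ ∨
        (A * s0 h ≤ hgt c c h (k + 1) τ ∨ (A * x0 h ≤ Ok c c h k τ ∨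
          A * x0 h ≤ Ok c d h k τ)))) ?_).trans ?_
      · intro τ hτ hbad
        by_contra hcon
        push Not at hcon
        obtain ⟨r1, r2, r3, r4, r5⟩ := hcon
        exact hbad (H h (by linarith) τ hτ r1 k hk2 r2.le r3.le r4.le r5.le)
      · refine (M.P_or _ _).trans ?_
        gcongr
        refine (M.P_or _ _).trans ?_
        gcongr
        refine (M.P_or _ _).trans ?_
        gcongr
        exact M.P_or _ _
    have hnot := M.P_not (GoodLane c C h (k * (h : ℝ) ^ 60 + (h : ℝ) ^ 41))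
    linarith

end Pool.Agent.W_1b8d5d_h85
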