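import Pool.Agent.W_1b8d5d_h85.DDefs

/-!
MP_1b8d5d_pr, proofs row 571, (6c): summation over the levels (abstract).
-/

set_option autoImplicit false

namespace Pool.Agent.W_1b8d5d_h85

open Finset

private theorem DLevel_half (N : ℕ) : ∑ i ∈ range N, 1 / (2 : ℝ) ^ i = 2 - 2 / 2 ^ N := by
  induction N with
  | zero => norm_num
  | succ N ih =>
    rw [sum_range_succ, ih, pow_succ]
    field_simp
    ring

private theorem DLevel_two (N : ℕ) : ∑ i ∈ range N, (2 : ℝ) ^ i = 2 ^ N - 1 := by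
  induction N with
  | zero => norm_num
  | succ N ih =>
    rw [sum_range_succ, ih, pow_succ]
    ring

private theorem DLevel_geo {x : ℝ} (h0 : 0 ≤ x) (h1 : x < 1) (N : ℕ) :
    ∑ i ∈ range N, x ^ i ≤ 1 / (1 - x) := by
  have h2 : 0 < 1 - x := by linarith
  have h3 : ∑ i ∈ range N, x ^ i = (1 - x ^ N) / (1 - x) := by
    induction N with
    | zero => simp
    | succ N ih =>
      rw [sum_range_succ, ih, pow_succ]
      field_simp
      ring
  rw [h3]
  apply div_le_div_of_nonneg_right _ h2.le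
  have := pow_nonneg h0 N
  linarith

private theorem DLevel_pt {s : ℝ} (hs : 0 < s) (N : ℕ) (z : ℝ) (hz : z ≤ 2 ^ N * s) :
    z ≤ s + ∑ i ∈ range N, (if 2 ^ i * s ≤ z then 2 ^ i * s else 0) := by
  induction N with
  | zero => simpa using hz
  | succ N ih =>
    rcases le_or_gt z (2 ^ N * s) with h | h
    · rw [sum_range_succ]
      have h1 := ih h
      have h2 : (0 : ℝ) ≤ if 2 ^ N * s ≤ z then 2 ^ N * s else 0 := by
        split_ifs <;> positivity
      linarith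
    · have h1 : ∑ i ∈ range (N + 1), (if 2 ^ i * s ≤ z then 2 ^ i * s else 0) =
          ∑ i ∈ range (N + 1), 2 ^ i * s := by
        refine sum_congr rfl fun i hi => if_pos ?_
        have hiN : i ≤ N := by
          rw [mem_range] at hi
          omega
        have h3 : (2 : ℝ) ^ i ≤ 2 ^ N := pow_le_pow_right₀ (by norm_num) hiN
        have h4 := mul_le_mul_of_nonneg_right h3 hs.le
        linarith
      rw [h1, ← sum_mul, DLevel_two]
      linarith

/-- If `P(Z ≥ t) ≤ D/t² + ε` for `t ≥ s`, then `E (Z 1_{Z > s}) ≤ 4 D / s + ε Zmax`.  Dyadic version. -/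
theorem tail_mean {a b : ℝ} (M : Mdl a b) (Z : Env → ℝ) {D s ε Zm : ℝ} (hD : 0 ≤ D) (hs : 0 < s)
    (hε : 0 ≤ ε) (hZ0 : ∀ τ, Bd a b τ → 0 ≤ Z τ) (hZ : ∀ τ, Bd a b τ → Z τ ≤ Zm)
    (hP : ∀ t, s ≤ t → M.P (fun τ => t ≤ Z τ) ≤ D / t ^ 2 + ε) (F : Env → Prop) :
    M.E (fun τ => open Classical in if F τ then Z τ else 0) ≤ s * M.P F + 4 * D / s + 4 * ε * Zm := by
  classical
  have hZm : 0 ≤ Zm := by
    obtain ⟨ω⟩ := M.ne
    exact (hZ0 _ (M.bd ω)).trans (hZ _ (M.bd ω))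
  have hPF : 0 ≤ M.P F := M.P_nonneg F
  have main : ∀ N : ℕ, Zm ≤ 2 ^ N * s → M.E (fun τ => if F τ then Z τ else 0) ≤
      s * M.P F + ∑ i ∈ range N, (2 ^ i * s) * (D / (2 ^ i * s) ^ 2 + ε) := by
    intro N hN
    have h1 : M.E (fun τ => if F τ then Z τ else 0) ≤
        M.E (fun τ => s * (if F τ then (1 : ℝ) else 0) +
          ∑ i ∈ range N, (2 ^ i * s) * (if 2 ^ i * s ≤ Z τ then (1 : ℝ) else 0)) := by
      refine M.E_mono fun τ hτ => ?_
      have h2 := DLevel_pt hs N (Z τ) ((hZ τ hτ).trans hN)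
      have h3 : ∀ i ∈ range N, (if 2 ^ i * s ≤ Z τ then 2 ^ i * s else 0) =
          (2 ^ i * s) * (if 2 ^ i * s ≤ Z τ then (1 : ℝ) else 0) := by
        intro i _
        split_ifs <;> simp
      rw [sum_congr rfl h3] at h2
      by_cases hF : F τ
      · rw [if_pos hF, if_pos hF, mul_one]
        exact h2
      · rw [if_neg hF, if_neg hF, mul_zero, zero_add]
        refine sum_nonneg fun i _ => ?_
        have : (0 : ℝ) ≤ if 2 ^ i * s ≤ Z τ then (1 : ℝ) else 0 := by split_ifs <;> norm_num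
        positivity
    refine h1.trans ?_
    rw [Mdl.E_add, Mdl.E_mul_left, Mdl.E_sum]
    refine add_le_add (le_of_eq ?_) (sum_le_sum fun i _ => ?_)
    · rw [Mdl.P_def]
    · rw [Mdl.E_mul_left]
      refine mul_le_mul_of_nonneg_left ?_ (by positivity)
      have h4 := hP (2 ^ i * s) (by
        have : (1 : ℝ) ≤ 2 ^ i := one_le_pow₀ (by norm_num)
        nlinarith)
      rw [Mdl.P_def] at h4
      refine le_trans (le_of_eq ?_) h4
      congr 1
  have hsum : ∀ N : ℕ, ∑ i ∈ range N, (2 ^ i * s) * (D / (2 ^ i * s) ^ 2 + ε) ≤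
      2 * D / s + ε * (2 ^ N * s) := by
    intro N
    have h1 : ∀ i ∈ range N, (2 ^ i * s) * (D / (2 ^ i * s) ^ 2 + ε) =
        D / s * (1 / 2 ^ i) + ε * s * 2 ^ i := by
      intro i _
      have : (2 : ℝ) ^ i ≠ 0 := by positivity
      field_simp
    rw [sum_congr rfl h1, sum_add_distrib, ← mul_sum, ← mul_sum, DLevel_half, DLevel_two]
    have h2 : D / s * (2 - 2 / 2 ^ N) ≤ D / s * 2 := by
      apply mul_le_mul_of_nonneg_left _ (by positivity)
      have : (0 : ℝ) ≤ 2 / 2 ^ N := by positivity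
      linarith
    have h3 : ε * s * (2 ^ N - 1) ≤ ε * (2 ^ N * s) := by
      have : 0 ≤ ε * s := by positivity
      nlinarith
    have h4 : D / s * 2 = 2 * D / s := by ring
    linarith
  have hD4 : 0 ≤ D / s := by positivity
  have hε4 : 0 ≤ ε * Zm := by positivity
  have e1 : 2 * D / s = 2 * (D / s) := by ring
  have e2 : 4 * D / s = 4 * (D / s) := by ring
  rcases le_or_gt Zm s with h | h
  · have h1 := main 0 (by simpa using h)
    rw [range_zero, sum_empty, add_zero] at h1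
    rw [e2]
    linarith
  · obtain ⟨n, hn1, hn2⟩ := exists_nat_pow_near (x := Zm / s) (y := (2 : ℝ))
      (by rw [le_div_iff₀ hs]; linarith) (by norm_num)
    rw [le_div_iff₀ hs] at hn1
    rw [div_lt_iff₀ hs] at hn2
    have h1 := main (n + 1) hn2.le
    have h2 := hsum (n + 1)
    have h3 : ε * (2 ^ (n + 1) * s) ≤ ε * (2 * Zm) := by
      apply mul_le_mul_of_nonneg_left _ hε
      rw [pow_succ]
      linarith
    rw [e1] at h2
    rw [e2]
    linarith

/-- **Levels.**  `r` is the height, `Z` the quantity to be estimated, `Ln B t` the lane events.  PROOF.  Levels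
`F_j = {2^(j-1) s0 < r ≤ 2^j s0}` (`j ≥ 1`), `F_0 = {r ≤ s0}`; `P(F_j) ≤ 4 K 4^-j`.  On the event `CEv` and `F_j`, `Z > t ≥ h^18` implies
`Ln (2^j s0) t`.  Apply `tail_mean` to `Z 1_{CEv} 1_{F_j}` with `s_j = 2^(3j/2) √(s0/log h) + h^18`, `D_j = K 2^j s0/log h`,
`ε = 1/h^100`; the sum over `j ≤ 2 log h` (because `r ≤ K h^41` on `CEv`) of `s_j 4^-j + 4 D_j/s_j ≤ C 2^(-j/2) √(s0/log h) + C 4^-j h^18`
is `≤ C √(s0/log h) + C h^18 = C h^20 (log h)^(-3/4) + C h^18 ≤ C x0 h`; off `CEv`: `Z ≤ h^81`, probability `≤ h^-300`. -/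
theorem level_sum (K : ℝ) (hK : 1 ≤ K) : ∃ C h₀ : ℝ, ∀ (h : ℝ), h₀ ≤ h → ∀ (a b : ℝ) (M : Mdl a b)
    (Z r : Env → ℝ) (CEv : Env → Prop) (Ln : ℝ → ℝ → Env → Prop),
    (∀ τ, Bd a b τ → 0 ≤ Z τ ∧ Z τ ≤ h ^ 81) →
    (∀ u, 0 < u → M.P (fun τ => u ≤ r τ) ≤ K * s0 h ^ 2 / u ^ 2) →
    M.P (fun τ => ¬ CEv τ) ≤ 1 / h ^ 300 →
    (∀ τ, Bd a b τ → CEv τ → r τ ≤ K * h ^ 41) →
    (∀ B t, s0 h ≤ B → B ≤ 4 * K * h ^ 41 → h ^ 18 ≤ t →
      M.P (Ln B t) ≤ K * B / (t ^ 2 * Real.log h) + 1 / h ^ 100) →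
    (∀ τ, Bd a b τ → CEv τ → ∀ B t, s0 h ≤ B → B ≤ 4 * K * h ^ 41 → r τ ≤ B → h ^ 18 ≤ t → t ≤ Z τ →
      Ln B t τ) →
    M.E Z ≤ C * x0 h := by
  classical
  refine ⟨1 + 52 * K, 3, ?_⟩
  intro h hh a b M Z r CEv Ln hZ hr hCE hrK hLn hev
  have hh0 : (0 : ℝ) < h := by linarith
  have hh1 : (1 : ℝ) ≤ h := by linarith
  have hK0 : 0 < K := by linarith
  set L : ℝ := Real.log h with hL
  have hL1 : 1 ≤ L := by
    rw [hL, Real.le_log_iff_exp_le hh0]
    exact (Real.exp_one_lt_three.le).trans hh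
  have hL0 : 0 < L := by linarith
  have hLh : L ≤ h := by
    have := Real.log_le_sub_one_of_pos hh0
    linarith
  set q : ℝ := Real.sqrt L with hq
  have hqq : q * q = L := Real.mul_self_sqrt hL0.le
  have hq1 : 1 ≤ q := by
    rw [hq, Real.one_le_sqrt]
    exact hL1
  have hq0 : 0 < q := by linarith
  have hqh : q ≤ h := by nlinarith
  set σ : ℝ := s0 h with hσ
  have hσe : σ = h ^ 40 / q := rfl
  have hσ0 : 0 < σ := by rw [hσe]; positivity
  set x : ℝ := x0 h with hx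
  have hxe : x = h ^ 20 / q := rfl
  have hx0 : 0 < x := by rw [hxe]; positivity
  set m : ℝ := Real.sqrt (σ / L) with hm
  have hσL : 0 < σ / L := by positivity
  have hm0 : 0 < m := Real.sqrt_pos.2 hσL
  have hmm : m * m = σ / L := Real.mul_self_sqrt hσL.le
  have hmx : m ≤ x := by
    have h1 : m * m ≤ x * x := by
      rw [hmm, hσe, hxe]
      have e : h ^ 20 / q * (h ^ 20 / q) = h ^ 40 / (q * q) := by
        field_simp
      rw [e, hqq, div_div]
      apply div_le_div_of_nonneg_left (by positivity) hL0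
      nlinarith
    nlinarith
  have h18 : h ^ 18 ≤ x := by
    rw [hxe, le_div_iff₀ hq0]
    have h1 : q ≤ h ^ 2 := by nlinarith
    calc h ^ 18 * q ≤ h ^ 18 * h ^ 2 := mul_le_mul_of_nonneg_left h1 (by positivity)
      _ = h ^ 20 := by ring
  have h1x : 1 ≤ x := (one_le_pow₀ hh1).trans h18
  have hσ41 : σ ≤ h ^ 41 := by
    rw [hσe, div_le_iff₀ hq0]
    have h1 : (0 : ℝ) < h ^ 40 := by positivity
    have h2 : h ^ 41 * q = h ^ 40 * (h * q) := by ring
    have h3 : 1 ≤ h * q := by nlinarith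
    rw [h2]
    nlinarith
  obtain ⟨J, hJ1, hJ2⟩ := exists_nat_pow_near (x := 4 * K * h ^ 41 / σ) (y := (2 : ℝ))
    (by
      rw [le_div_iff₀ hσ0]
      have h1 : (0 : ℝ) < h ^ 41 := by positivity
      nlinarith) (by norm_num)
  have hJ1' := hJ1
  rw [le_div_iff₀ hσ0] at hJ1
  rw [div_lt_iff₀ hσ0] at hJ2
  obtain ⟨F, hF⟩ : ∃ F : ℕ → Env → Prop, ∀ j τ, F j τ ↔
      (CEv τ ∧ (1 ≤ j → 2 ^ (j - 1) * σ ≤ r τ) ∧ r τ ≤ 2 ^ j * σ) := ⟨_, fun _ _ => Iff.rfl⟩
  obtain ⟨G, hG⟩ : ∃ G : ℕ → Env → Prop, ∀ j τ, G j τ ↔ (CEv τ ∧ r τ ≤ 2 ^ j * σ) :=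
    ⟨_, fun _ _ => Iff.rfl⟩
  -- the decomposition
  have hdec : M.E Z ≤ h ^ 81 * M.P (fun τ => ¬ CEv τ) +
      ∑ j ∈ range (J + 1), M.E (fun τ => if F j τ then (if G j τ then Z τ else 0) else 0) := by
    rw [Mdl.P_def, ← Mdl.E_mul_left, ← Mdl.E_sum, ← Mdl.E_add]
    refine M.E_mono fun τ hτ => ?_
    obtain ⟨hz0, hz1⟩ := hZ τ hτ
    have hsn : ∀ j ∈ range (J + 1), (0 : ℝ) ≤ if F j τ then (if G j τ then Z τ else 0) else 0 := by
      intro j _
      split_ifs <;> linarith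
    by_cases hc : CEv τ
    · rw [if_neg (not_not.2 hc), mul_zero, zero_add]
      have hex : ∃ j : ℕ, r τ ≤ 2 ^ j * σ := by
        refine ⟨J, ?_⟩
        have h1 := hrK τ hτ hc
        rw [pow_succ (2 : ℝ) J] at hJ2
        have h2 : (0 : ℝ) < K * h ^ 41 := by positivity
        nlinarith
      have hj := Nat.find_spec hex
      have hjmin : ∀ i, i < Nat.find hex → ¬ r τ ≤ 2 ^ i * σ := fun i hi => Nat.find_min hex hi
      have hjJ : Nat.find hex ≤ J := by
        apply Nat.find_min'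
        have h1 := hrK τ hτ hc
        rw [pow_succ (2 : ℝ) J] at hJ2
        have h2 : (0 : ℝ) < K * h ^ 41 := by positivity
        nlinarith
      have hFj : F (Nat.find hex) τ := by
        rw [hF]
        refine ⟨hc, fun h1 => ?_, hj⟩
        have h2 := hjmin (Nat.find hex - 1) (by omega)
        push Not at h2
        exact h2.le
      have hGj : G (Nat.find hex) τ := by
        rw [hG]
        exact ⟨hc, hj⟩
      refine le_trans (le_of_eq ?_) (single_le_sum hsn (mem_range.2 (Nat.lt_succ_of_le hjJ)))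
      rw [if_pos hFj, if_pos hGj]
    · rw [if_pos hc, mul_one]
      have := sum_nonneg hsn
      linarith
  -- one level
  have hlev : ∀ j ∈ range (J + 1), M.E (fun τ => if F j τ then (if G j τ then Z τ else 0) else 0) ≤
      4 * K * (m * (3 / 4) ^ j + h ^ 18 * (1 / 4) ^ j) + 4 * K * (m * (2 / 3) ^ j) +
        4 * (1 / h ^ 100) * h ^ 81 := by
    intro j hj
    have hjJ : j ≤ J := by
      rw [mem_range] at hj
      omega
    have h2j : (1 : ℝ) ≤ 2 ^ j := one_le_pow₀ (by norm_num)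
    have hB1 : σ ≤ 2 ^ j * σ := by nlinarith
    have hB2 : 2 ^ j * σ ≤ 4 * K * h ^ 41 := by
      have h1 : (2 : ℝ) ^ j ≤ 2 ^ J := pow_le_pow_right₀ (by norm_num) hjJ
      have h2 := mul_le_mul_of_nonneg_right h1 hσ0.le
      linarith
    set sj : ℝ := 3 ^ j * m + h ^ 18 with hsj
    have hsj0 : 0 < sj := by positivity
    have h18j : h ^ 18 ≤ sj := by
      have : 0 < 3 ^ j * m := by positivity
      linarith
    have htm := tail_mean M (fun τ => if G j τ then Z τ else 0) (D := K * (2 ^ j * σ) / L) (s := sj)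
      (ε := 1 / h ^ 100) (Zm := h ^ 81) (by positivity) hsj0 (by positivity)
      (by
        intro τ hτ
        have := (hZ τ hτ).1
        split_ifs <;> linarith)
      (by
        intro τ hτ
        have h1 := (hZ τ hτ).2
        have h2 : (0 : ℝ) < h ^ 81 := by positivity
        split_ifs <;> linarith)
      (by
        intro t ht
        have ht18 : h ^ 18 ≤ t := h18j.trans ht
        have ht0 : 0 < t := hsj0.trans_le ht
        have h1 : M.P (fun τ => t ≤ if G j τ then Z τ else 0) ≤ M.P (Ln (2 ^ j * σ) t) := by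
          refine M.P_mono fun τ hτ h2 => ?_
          by_cases hg : G j τ
          · rw [if_pos hg] at h2
            rw [hG] at hg
            exact hev τ hτ hg.1 _ _ hB1 hB2 hg.2 ht18 h2
          · rw [if_neg hg] at h2
            linarith
        refine h1.trans ((hLn _ _ hB1 hB2 ht18).trans (le_of_eq ?_))
        congr 1
        field_simp)
      (F j)
    refine htm.trans ?_
    have hPj : M.P (F j) ≤ 4 * K * (1 / 4) ^ j := by
      rcases Nat.eq_zero_or_pos j with h0 | h0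
      · subst h0
        have := M.P_le_one (F 0)
        rw [pow_zero]
        linarith
      · have h1 : M.P (F j) ≤ M.P (fun τ => 2 ^ (j - 1) * σ ≤ r τ) := by
          refine M.P_mono fun τ _ h2 => ?_
          rw [hF] at h2
          exact h2.2.1 h0
        refine h1.trans ((hr _ (by positivity)).trans (le_of_eq ?_))
        obtain ⟨i, rfl⟩ : ∃ i, j = i + 1 := ⟨j - 1, by omega⟩
        rw [Nat.add_sub_cancel]
        have e1 : ((2 : ℝ) ^ i * σ) ^ 2 = 4 ^ i * σ ^ 2 := by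
          rw [mul_pow, ← pow_mul, mul_comm i 2, pow_mul]
          norm_num
        rw [e1, one_div, inv_pow, pow_succ (4 : ℝ) i]
        field_simp
    have t1 : sj * M.P (F j) ≤ 4 * K * (m * (3 / 4) ^ j + h ^ 18 * (1 / 4) ^ j) := by
      have h1 := mul_le_mul_of_nonneg_left hPj hsj0.le
      refine h1.trans (le_of_eq ?_)
      rw [hsj]
      have e1 : ((3 : ℝ) / 4) ^ j = 3 ^ j * (1 / 4) ^ j := by
        rw [← mul_pow]
        norm_num
      rw [e1]
      ring
    have t2 : 4 * (K * (2 ^ j * σ) / L) / sj ≤ 4 * K * (m * (2 / 3) ^ j) := by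
      rw [div_le_iff₀ hsj0]
      have e1 : 4 * (K * (2 ^ j * σ) / L) = 4 * K * 2 ^ j * (m * m) := by
        rw [hmm]
        ring
      have e2 : 4 * K * (m * (2 / 3) ^ j) * sj = 4 * K * 2 ^ j * (m * m) +
          4 * K * (m * (2 / 3) ^ j) * h ^ 18 := by
        rw [hsj]
        have e3 : ((2 : ℝ) / 3) ^ j * 3 ^ j = 2 ^ j := by
          rw [← mul_pow]
          norm_num
        calc 4 * K * (m * (2 / 3) ^ j) * (3 ^ j * m + h ^ 18)
            = 4 * K * ((2 / 3) ^ j * 3 ^ j) * (m * m) + 4 * K * (m * (2 / 3) ^ j) * h ^ 18 := by ring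
          _ = _ := by rw [e3]
      rw [e1, e2]
      have : 0 ≤ 4 * K * (m * (2 / 3) ^ j) * h ^ 18 := by positivity
      linarith
    linarith
  -- the sum of the levels
  have hs := sum_le_sum hlev
  rw [sum_add_distrib, sum_add_distrib, ← mul_sum, ← mul_sum, sum_add_distrib, ← mul_sum,
    ← mul_sum, ← mul_sum, sum_const, card_range, nsmul_eq_mul] at hs
  have g1 := DLevel_geo (x := 3 / 4) (by norm_num) (by norm_num) (J + 1)
  have g2 := DLevel_geo (x := 1 / 4) (by norm_num) (by norm_num) (J + 1)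
  have g3 := DLevel_geo (x := 2 / 3) (by norm_num) (by norm_num) (J + 1)
  have g1' : ∑ i ∈ range (J + 1), ((3 : ℝ) / 4) ^ i ≤ 4 := by
    refine g1.trans (le_of_eq ?_)
    norm_num
  have g2' : ∑ i ∈ range (J + 1), ((1 : ℝ) / 4) ^ i ≤ 2 := by
    refine g2.trans ?_
    norm_num
  have g3' : ∑ i ∈ range (J + 1), ((2 : ℝ) / 3) ^ i ≤ 3 := by
    refine g3.trans (le_of_eq ?_)
    norm_num
  have u1 : m * ∑ i ∈ range (J + 1), ((3 : ℝ) / 4) ^ i ≤ 4 * x := by
    have h1 := mul_le_mul_of_nonneg_left g1' hm0.le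
    linarith
  have u2 : h ^ 18 * ∑ i ∈ range (J + 1), ((1 : ℝ) / 4) ^ i ≤ 2 * x := by
    have h1 := mul_le_mul_of_nonneg_left g2' (by positivity : (0 : ℝ) ≤ h ^ 18)
    linarith
  have u3 : m * ∑ i ∈ range (J + 1), ((2 : ℝ) / 3) ^ i ≤ 3 * x := by
    have h1 := mul_le_mul_of_nonneg_left g3' hm0.le
    linarith
  have u4 : ((J + 1 : ℕ) : ℝ) * (4 * (1 / h ^ 100) * h ^ 81) ≤ 16 * K := by
    have h1 : ((J + 1 : ℕ) : ℝ) ≤ 2 ^ J := by
      have : J + 1 ≤ 2 ^ J := Nat.lt_two_pow_self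
      exact_mod_cast this
    have h2 : ((J + 1 : ℕ) : ℝ) ≤ 4 * K * h ^ 2 := by
      refine (h1.trans hJ1').trans ?_
      rw [div_le_iff₀ hσ0, hσe]
      have e1 : 4 * K * h ^ 2 * (h ^ 40 / q) = 4 * K * (h ^ 42 / q) := by ring
      rw [e1]
      apply mul_le_mul_of_nonneg_left _ (by positivity)
      rw [le_div_iff₀ hq0]
      have h3 : (0 : ℝ) < h ^ 41 := by positivity
      calc h ^ 41 * q ≤ h ^ 41 * h := mul_le_mul_of_nonneg_left hqh h3.le
        _ = h ^ 42 := by ring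
    have h3 : 4 * (1 / h ^ 100) * h ^ 81 = 4 / h ^ 19 := by
      field_simp
    rw [h3]
    have h4 : (0 : ℝ) < 4 / h ^ 19 := by positivity
    have h5 := mul_le_mul_of_nonneg_right h2 h4.le
    refine h5.trans ?_
    have h6 : 4 * K * h ^ 2 * (4 / h ^ 19) = 16 * K * (1 / h ^ 17) := by
      field_simp
      ring
    rw [h6]
    have h7 : (1 : ℝ) / h ^ 17 ≤ 1 := by
      rw [div_le_one (by positivity)]
      exact one_le_pow₀ hh1
    nlinarith
  have u5 : h ^ 81 * M.P (fun τ => ¬ CEv τ) ≤ 1 := by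
    have h1 := mul_le_mul_of_nonneg_left hCE (by positivity : (0 : ℝ) ≤ h ^ 81)
    refine h1.trans ?_
    rw [mul_one_div, div_le_one (by positivity)]
    exact pow_le_pow_right₀ hh1 (by norm_num)
  have v1 := mul_le_mul_of_nonneg_left (add_le_add u1 u2) (by positivity : (0 : ℝ) ≤ 4 * K)
  have v3 := mul_le_mul_of_nonneg_left u3 (by positivity : (0 : ℝ) ≤ 4 * K)
  have w1 : 16 * K ≤ 16 * K * x := by nlinarith
  nlinarith

end Pool.Agent.W_1b8d5d_h85
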