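import Pool.Agent.W_1b8d5d_h85.LWin

/-!
MP_1b8d5d_pr, proofs row 571, (5c): the costs of the traveller.
-/

set_option autoImplicit false

namespace Pool.Agent.W_1b8d5d_h85

open Finset

/-- polynomials times `exp (- κ √h)` are small -/
private theorem LStrip_ev (A κ : ℝ) (hκ : 0 < κ) (n : ℕ) :
    ∀ᶠ h : ℝ in Filter.atTop, A * h ^ n * Real.exp (-(κ * Real.sqrt h)) ≤ 1 := by
  have h1 : Filter.Tendsto (fun h : ℝ => κ * Real.sqrt h) Filter.atTop Filter.atTop :=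
    Real.tendsto_sqrt_atTop.const_mul_atTop hκ
  have h2 := (Real.tendsto_pow_mul_exp_neg_atTop_nhds_zero (2 * n)).comp h1
  have h3 := h2.const_mul (A / κ ^ (2 * n))
  rw [mul_zero] at h3
  filter_upwards [h3.eventually_le_const zero_lt_one, Filter.eventually_ge_atTop 0] with h h4 h5
  refine le_trans (le_of_eq ?_) h4
  show _ = A / κ ^ (2 * n) * ((κ * Real.sqrt h) ^ (2 * n) * Real.exp (-(κ * Real.sqrt h)))
  have h6 : (κ * Real.sqrt h) ^ (2 * n) = κ ^ (2 * n) * h ^ n := by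
    rw [mul_pow, pow_mul (Real.sqrt h), Real.sq_sqrt h5]
  have h7 : κ ^ (2 * n) ≠ 0 := by positivity
  rw [h6]
  field_simp

private theorem LStrip_ge (K : ℝ) : ∀ᶠ h : ℝ in Filter.atTop, K ≤ h := Filter.eventually_ge_atTop K

private theorem LStrip_sq (K : ℝ) : ∀ᶠ h : ℝ in Filter.atTop, K ≤ Real.sqrt h :=
  Real.tendsto_sqrt_atTop.eventually_ge_atTop K

/-- deterministic step: the passage time from `x` to `y`, `y` close to `x + v` -/
private theorem LStrip_det {Q : Par} {g : V → ℝ} {c : Crd} {c₀ C₁ : ℝ} (hc : IsCone g c c₀ C₁)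
    {D l s w r k : ℝ} {τ : Env} (hB : Bd Q.a Q.b τ) (hτ : CE g D l s τ) {x y v : V}
    (hx : nm x + Q.b / Q.a * nm (y - x) ≤ D) (hy : nm y ≤ D)
    (hl : (1 + Q.b / Q.a) * nm (y - x) ≤ l) (hxv : nm (x + v) ≤ D) (hv : nm v ≤ l)
    (hk : nm (y - (x + v)) ≤ k)
    (h : g v + s + Q.b * k ≤ c.p (y - x) + c.q (y - x) + w) (hr : 2 * s + w ≤ c₀ * r)
    {A : Set Edge} (hA : ∀ e ∈ edg {z | nm z ≤ D ∧ c.p x - r ≤ c.p z ∧ c.p z ≤ c.p y + r ∧
      c.q x - r ≤ c.q z ∧ c.q z ≤ c.q y + r}, e ∈ A) :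
    T (res Q.b A τ) x y = T τ x y ∧ T τ x y ≤ g v + s + Q.b * k := by
  have ha : 0 < Q.a := Q.ha
  have hb : 0 < Q.b := Q.ha.trans Q.hab
  have h0 : 0 ≤ Q.b / Q.a * nm (y - x) := mul_nonneg (by positivity) (nm_nonneg _)
  have h1 : T τ x y ≤ g v + s + Q.b * k := by
    have h2 := T_triangle hB ha.le x (x + v) y
    have h3 := hτ x (x + v) (by linarith) hxv (by rw [add_sub_cancel_left]; exact hv)
    rw [add_sub_cancel_left, abs_le] at h3
    have h4 := T_upper hB ha.le (x + v) y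
    have h5 := mul_le_mul_of_nonneg_left hk hb.le
    linarith [h3.2]
  exact ⟨confine_res hc hB hτ hx hy hl (h1.trans h) hr hA, h1⟩

/-- the mean of the restricted passage time -/
private theorem LStrip_exp {Q : Par} {g : V → ℝ} {R : ℝ} {M : Mdl Q.a Q.b} (hM : Good Q g R M)
    {c : Crd} {c₀ C₁ : ℝ} (hc : IsCone g c c₀ C₁)
    {D l s w r k : ℝ} {x y v : V}
    (hx : nm x + Q.b / Q.a * nm (y - x) ≤ D) (hy : nm y ≤ D)
    (hl : (1 + Q.b / Q.a) * nm (y - x) ≤ l) (hxv : nm (x + v) ≤ D) (hv : nm v ≤ l) (hlR : l ≤ R)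
    (hk : nm (y - (x + v)) ≤ k)
    (h : g v + s + Q.b * k ≤ c.p (y - x) + c.q (y - x) + w) (hr : 2 * s + w ≤ c₀ * r)
    {A : Set Edge} (hA : ∀ e ∈ edg {z | nm z ≤ D ∧ c.p x - r ≤ c.p z ∧ c.p z ≤ c.p y + r ∧
      c.q x - r ≤ c.q z ∧ c.q z ≤ c.q y + r}, e ∈ A) :
    M.E (fun τ => T (res Q.b A τ) x y) ≤
      g v + 1 + Q.b * k + Q.b * nm (y - x) * M.P (fun τ => ¬ CE g D l s τ) := by
  classical
  have ha : 0 < Q.a := Q.ha
  have hb : 0 < Q.b := Q.ha.trans Q.hab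
  obtain ⟨p, hp⟩ : ∃ p : Env → Prop, p = fun τ => ¬ CE g D l s τ := ⟨_, rfl⟩
  rw [← hp]
  have h1 : M.E (fun τ => T (res Q.b A τ) x y) ≤
      M.E (fun τ => T τ x (x + v) + (Q.b * k + Q.b * nm (y - x) *
        (if p τ then (1 : ℝ) else 0))) := by
    refine M.E_mono fun τ hB => ?_
    have h4 := T_upper hB ha.le (x + v) y
    have h5 := mul_le_mul_of_nonneg_left hk hb.le
    have hpτ : p τ = ¬ CE g D l s τ := by rw [hp]
    by_cases hτ : CE g D l s τ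
    · rw [if_neg (by rw [hpτ]; exact not_not.2 hτ), mul_zero, add_zero,
        (LStrip_det hc hB hτ hx hy hl hxv hv hk h hr hA).1]
      have h2 := T_triangle hB ha.le x (x + v) y
      linarith
    · rw [if_pos (by rw [hpτ]; exact hτ), mul_one]
      have h6 := T_upper (Bd_res Q.hab.le hB A) ha.le x y
      have h7 := T_nonneg hB ha.le x (x + v)
      have h8 : 0 ≤ Q.b * k := mul_nonneg hb.le ((nm_nonneg _).trans hk)
      linarith
  have h2 : M.E (fun τ => T τ x (x + v)) ≤ g v + 1 := by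
    have h3 := hM.mean' (x := x) (y := x + v) (by rw [add_sub_cancel_left]; linarith)
    rw [add_sub_cancel_left, abs_le] at h3
    linarith [h3.2]
  rw [Mdl.E_add, Mdl.E_add M (fun _ => Q.b * k), Mdl.E_const, Mdl.E_mul_left, ← Mdl.P_def] at h1
  linarith


private theorem LStrip_nm (c : Crd) (x : V) {X j : ℝ} (hX : 1 ≤ X) (hj : 0 ≤ j)
    (hp : |c.p x| + |c.q x| ≤ X + j * c.C) : nm x ≤ (1 + j) * c.C ^ 2 * X := by
  have h1 := c.nm_le x
  have hC := c.one_le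
  have h2 : c.C * (|c.p x| + |c.q x|) ≤ c.C * (X + j * c.C) :=
    mul_le_mul_of_nonneg_left hp (by linarith)
  have h3 : c.C * X ≤ c.C ^ 2 * X := by
    have : c.C ≤ c.C ^ 2 := by nlinarith
    exact mul_le_mul_of_nonneg_right this (by linarith)
  have h4 : j * c.C ^ 2 * 1 ≤ j * c.C ^ 2 * X := mul_le_mul_of_nonneg_left hX (by positivity)
  nlinarith

private theorem LStrip_sqrt33 {h : ℝ} (hh : 0 ≤ h) (n : ℕ) :
    Real.sqrt (h ^ (2 * n + 1)) = h ^ n * Real.sqrt h := by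
  rw [pow_succ, pow_mul', Real.sqrt_mul (by positivity), Real.sqrt_sq (by positivity)]

/-- From `0` to the middle of the strip.  PROOF.  `z = rd(h^17, 0)` is reached at cost `≤ C h^17`; from `z` to `u = rd(4 h^33, 0)` the mean
passage time is `≤ 4 h^33 - h^17 + C S(4 h^33) + 2` (`IsCone.upp` for `u - z`, up to bounded changes, `Good.mean'`); on the event
`CE g (h^34) (C h^33) (c h^17)` (probability `≥ 1 - exp(-c √h)·h^200`) its geodesic stays within `h^17/2` of the segment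
(`confine_res`), so in the strip; off this event the restricted passage time is `≤ C h^33`. -/
theorem strip_conn (Q : Par) (g : V → ℝ) (hg : IsMean Q g) (c : Crd) (c₀ C₁ : ℝ)
    (hc : IsCone g c c₀ C₁) : ∃ C h₀ : ℝ, ∀ h ≥ h₀, ∀ (R : ℝ) (M : Mdl Q.a Q.b), Good Q g R M →
    h ^ 70 ≤ R → ∀ B : ℝ, h ^ 35 ≤ B →
      M.E (fun τ => T (res Q.b (Strip c h B) τ) 0 (c.rd (4 * h ^ 33) 0)) ≤ 4 * h ^ 33 + C * h ^ 17 := by
  obtain ⟨C₂, hC₂, hce⟩ := conc_event Q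
  have ha : 0 < Q.a := Q.ha
  have hb : 0 < Q.b := Q.ha.trans Q.hab
  have hc₀ : 0 < c₀ := hc.pos
  obtain ⟨K, hKd⟩ : ∃ K : ℝ, K = c.C := ⟨_, rfl⟩
  have hK : 1 ≤ K := hKd ▸ c.one_le
  obtain ⟨L, hL⟩ : ∃ L : ℝ, L = (1 + Q.b / Q.a) * (20 * K ^ 2) := ⟨_, rfl⟩
  have hba : 0 < Q.b / Q.a := by positivity
  have hL20 : 20 * K ^ 2 ≤ L := by rw [hL]; nlinarith [sq_nonneg K]
  have hL0 : 1 ≤ L := by nlinarith
  obtain ⟨κ, hκ⟩ : ∃ κ : ℝ, κ = c₀ / 12 / (C₂ * Real.sqrt L) := ⟨_, rfl⟩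
  have hκ0 : 0 < κ := by
    rw [hκ]
    have : 0 < Real.sqrt L := Real.sqrt_pos.2 (by linarith)
    positivity
  have ev := (LStrip_ge 1).and ((LStrip_ge (3 * K ^ 2 + L)).and
    ((LStrip_sq (32 * |C₁| / c₀)).and
    ((LStrip_ge (8 * (6 * Q.b * K ^ 2 + 4 * K) / c₀)).and
    ((LStrip_ge (2 / (c₀ / 12))).and
    ((LStrip_ge (2 * K)).and
    (LStrip_ev (Q.b * (20 * K ^ 2) * C₂) κ hκ0 169))))))
  obtain ⟨h₀, hh₀⟩ := Filter.eventually_atTop.1 ev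
  refine ⟨3 * Q.b * K ^ 2 + 4 * |C₁| + 2 + 6 * Q.b * K ^ 2, h₀, ?_⟩
  intro h hh R M hM hR B hB
  obtain ⟨e1, e2, e3, e4, e5, e6, e7⟩ := hh₀ h hh
  have h0 : 0 ≤ h := by linarith
  have p17 : 1 ≤ h ^ 17 := one_le_pow₀ e1
  have p17' : h ≤ h ^ 17 := by simpa using pow_le_pow_right₀ e1 (show 1 ≤ 17 by norm_num)
  have p33 : h ^ 17 ≤ h ^ 33 := pow_le_pow_right₀ e1 (by norm_num)
  have p34 : h ^ 34 = h * h ^ 33 := by ring
  have p35 : h ^ 33 ≤ h ^ 35 := pow_le_pow_right₀ e1 (by norm_num)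
  have p70 : h ^ 34 ≤ h ^ 70 := pow_le_pow_right₀ e1 (by norm_num)
  obtain ⟨z, hz⟩ : ∃ z : V, z = c.rd (h ^ 17) 0 := ⟨_, rfl⟩
  obtain ⟨u, hu⟩ : ∃ u : V, u = c.rd (4 * h ^ 33) 0 := ⟨_, rfl⟩
  obtain ⟨v, hv⟩ : ∃ v : V, v = c.rd (4 * h ^ 33 - h ^ 17) 0 := ⟨_, rfl⟩
  have pz := c.rd_p (h ^ 17) 0
  have qz := c.rd_q (h ^ 17) 0
  have pu := c.rd_p (4 * h ^ 33) 0
  have qu := c.rd_q (4 * h ^ 33) 0
  have pv := c.rd_p (4 * h ^ 33 - h ^ 17) 0
  have qv := c.rd_q (4 * h ^ 33 - h ^ 17) 0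
  rw [← hz, ← hKd, abs_le] at pz qz
  rw [← hu, ← hKd, abs_le] at pu qu
  rw [← hv, ← hKd, abs_le] at pv qv
  rw [← hu]
  obtain ⟨pz1, pz2⟩ := pz
  obtain ⟨qz1, qz2⟩ := qz
  obtain ⟨pu1, pu2⟩ := pu
  obtain ⟨qu1, qu2⟩ := qu
  obtain ⟨pv1, pv2⟩ := pv
  obtain ⟨qv1, qv2⟩ := qv
  have puz : c.p (u - z) = c.p u - c.p z := map_sub _ _ _
  have quz : c.q (u - z) = c.q u - c.q z := map_sub _ _ _
  -- norms
  have nz : nm z ≤ 3 * K ^ 2 * h ^ 17 := by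
    have h1 := LStrip_nm c z (X := h ^ 17) (j := 2) p17 (by norm_num) (by
      rw [← hKd]
      have h1 : |c.p z| ≤ h ^ 17 + K := abs_le.2 ⟨by linarith, by linarith⟩
      have h2 : |c.q z| ≤ K := abs_le.2 ⟨by linarith, by linarith⟩
      linarith)
    rw [← hKd] at h1
    linarith
  have nu : nm u ≤ 12 * K ^ 2 * h ^ 33 := by
    have h1 := LStrip_nm c u (X := 4 * h ^ 33) (j := 2) (by linarith) (by norm_num) (by
      rw [← hKd]
      have h1 : |c.p u| ≤ 4 * h ^ 33 + K := abs_le.2 ⟨by linarith, by linarith⟩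
      have h2 : |c.q u| ≤ K := abs_le.2 ⟨by linarith, by linarith⟩
      linarith)
    rw [← hKd] at h1
    linarith
  have nv : nm v ≤ 12 * K ^ 2 * h ^ 33 := by
    have h1 := LStrip_nm c v (X := 4 * h ^ 33) (j := 2) (by linarith) (by norm_num) (by
      rw [← hKd]
      have h1 : |c.p v| ≤ 4 * h ^ 33 + K := abs_le.2 ⟨by linarith, by linarith⟩
      have h2 : |c.q v| ≤ K := abs_le.2 ⟨by linarith, by linarith⟩
      linarith)
    rw [← hKd] at h1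
    linarith
  have nuz : nm (u - z) ≤ 20 * K ^ 2 * h ^ 33 := by
    have h1 := LStrip_nm c (u - z) (X := 4 * h ^ 33) (j := 4) (by linarith) (by norm_num) (by
      rw [← hKd, puz, quz]
      have h1 : |c.p u - c.p z| ≤ 4 * h ^ 33 + 2 * K := abs_le.2 ⟨by linarith, by linarith⟩
      have h2 : |c.q u - c.q z| ≤ 2 * K := abs_le.2 ⟨by linarith, by linarith⟩
      linarith)
    rw [← hKd] at h1
    linarith
  have nk : nm (u - (z + v)) ≤ 6 * K ^ 2 := by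
    have h1 := c.nm_le (u - (z + v))
    have h2 : |c.p (u - (z + v))| ≤ 3 * K := by
      rw [map_sub, map_add]
      exact abs_le.2 ⟨by linarith, by linarith⟩
    have h3 : |c.q (u - (z + v))| ≤ 3 * K := by
      rw [map_sub, map_add]
      exact abs_le.2 ⟨by linarith, by linarith⟩
    rw [← hKd] at h1
    nlinarith
  have nzv : nm (z + v) ≤ h ^ 34 := by
    have h1 := nm_add_le z v
    rw [p34]
    have h2 : 3 * K ^ 2 * h ^ 17 ≤ 3 * K ^ 2 * h ^ 33 := mul_le_mul_of_nonneg_left p33 (by positivity)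
    have h3 : (3 * K ^ 2 + 20 * K ^ 2) * h ^ 33 ≤ h * h ^ 33 :=
      mul_le_mul_of_nonneg_right (by linarith) (by positivity)
    nlinarith [sq_nonneg K]
  have nuD : nm u ≤ h ^ 34 := by
    rw [p34]
    have h3 : (3 * K ^ 2 + 20 * K ^ 2) * h ^ 33 ≤ h * h ^ 33 :=
      mul_le_mul_of_nonneg_right (by linarith) (by positivity)
    nlinarith [sq_nonneg K]
  have hl : (1 + Q.b / Q.a) * nm (u - z) ≤ L * h ^ 33 := by
    rw [hL, mul_assoc]
    exact mul_le_mul_of_nonneg_left nuz (by linarith)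
  have hx : nm z + Q.b / Q.a * nm (u - z) ≤ h ^ 34 := by
    rw [p34]
    have h2 : 3 * K ^ 2 * h ^ 17 ≤ 3 * K ^ 2 * h ^ 33 := mul_le_mul_of_nonneg_left p33 (by positivity)
    have h3 : (3 * K ^ 2 + L) * h ^ 33 ≤ h * h ^ 33 :=
      mul_le_mul_of_nonneg_right (by linarith) (by positivity)
    have h4 := nm_nonneg (u - z)
    linarith
  have hv' : nm v ≤ L * h ^ 33 := by
    refine nv.trans (mul_le_mul_of_nonneg_right ?_ (by positivity))
    nlinarith [sq_nonneg K]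
  have hlR : L * h ^ 33 ≤ R := by
    have h3 : L * h ^ 33 ≤ h * h ^ 33 :=
      mul_le_mul_of_nonneg_right (by nlinarith [sq_nonneg K]) (by positivity)
    linarith
  -- the mean
  have gv : g v ≤ (4 * h ^ 33 - h ^ 17) + C₁ * S (4 * h ^ 33 - h ^ 17) :=
    hc.upp _ v (by linarith) (by rw [← hKd]; exact abs_le.2 ⟨by linarith, by linarith⟩)
      (by rw [← hKd]; exact abs_le.2 ⟨by linarith, by linarith⟩)
  have hS : S (4 * h ^ 33 - h ^ 17) ≤ 4 * (h ^ 16 * Real.sqrt h) := by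
    have h1 : S (4 * h ^ 33 - h ^ 17) ≤ S (4 * h ^ 33) := S_mono (by linarith) (by linarith)
    have h2 := S_le_two_sqrt (x := 4 * h ^ 33) (by positivity)
    have h3 : Real.sqrt (4 * h ^ 33) = 2 * (h ^ 16 * Real.sqrt h) := by
      rw [Real.sqrt_mul (by norm_num), LStrip_sqrt33 h0 16, show (4 : ℝ) = 2 ^ 2 by norm_num,
        Real.sqrt_sq (by norm_num)]
    linarith
  have hCS : C₁ * S (4 * h ^ 33 - h ^ 17) ≤ |C₁| * (4 * (h ^ 16 * Real.sqrt h)) := by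
    refine (mul_le_mul_of_nonneg_right (le_abs_self _) (S_nonneg _)).trans ?_
    exact mul_le_mul_of_nonneg_left hS (abs_nonneg _)
  have hsq : Real.sqrt h * Real.sqrt h = h := Real.mul_self_sqrt h0
  have hs1 : |C₁| * (4 * (h ^ 16 * Real.sqrt h)) ≤ c₀ * h ^ 17 / 8 := by
    rw [div_le_iff₀ hc₀] at e3
    have h1 : 32 * |C₁| * Real.sqrt h ≤ c₀ * h := by
      have := mul_le_mul_of_nonneg_right e3 (Real.sqrt_nonneg h)
      nlinarith
    have h2 := mul_le_mul_of_nonneg_right h1 (show 0 ≤ h ^ 16 by positivity)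
    have h3 : c₀ * h * h ^ 16 = c₀ * h ^ 17 := by ring
    nlinarith
  have hs2 : 6 * Q.b * K ^ 2 + 4 * K ≤ c₀ * h ^ 17 / 8 := by
    rw [div_le_iff₀ hc₀] at e4
    have := mul_le_mul_of_nonneg_left p17' hc₀.le
    linarith
  have hs3 : 2 ≤ c₀ / 12 * h ^ 17 := by
    rw [div_le_iff₀ (by positivity)] at e5
    have := mul_le_mul_of_nonneg_left p17' (show 0 ≤ c₀ / 12 by positivity)
    linarith
  have hsh : Real.sqrt h ≤ h := by
    rw [Real.sqrt_le_left h0]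
    nlinarith
  have hs4 : |C₁| * (4 * (h ^ 16 * Real.sqrt h)) ≤ 4 * |C₁| * h ^ 17 := by
    have h1 : h ^ 16 * Real.sqrt h ≤ h ^ 16 * h := mul_le_mul_of_nonneg_left hsh (by positivity)
    have h2 : h ^ 16 * h = h ^ 17 := by ring
    have h3 := mul_le_mul_of_nonneg_left (h2 ▸ h1) (abs_nonneg C₁)
    linarith
  have hexp := LStrip_exp hM hc (D := h ^ 34) (l := L * h ^ 33) (s := c₀ / 12 * h ^ 17)
    (w := c₀ * h ^ 17 / 3) (r := h ^ 17 / 2) (k := 6 * K ^ 2) (x := z) (y := u) (v := v)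
    hx nuD hl nzv hv' hlR nk (by rw [puz, quz]; linarith) (by linarith)
    (A := Strip c h B) (by
      rintro e ⟨⟨a1, a2, a3, a4, a5⟩, ⟨b1, b2, b3, b4, b5⟩⟩
      refine ⟨⟨⟨?_, ?_, ?_⟩, ⟨?_, ?_, ?_⟩⟩, a1.trans p70⟩ <;> linarith)
  have hP := hce g R M hM (h ^ 34) (L * h ^ 33) (c₀ / 12 * h ^ 17) (one_le_pow₀ e1)
    (by nlinarith) hlR hs3
  have hbad : Q.b * nm (u - z) * M.P (fun τ => ¬ CE g (h ^ 34) (L * h ^ 33) (c₀ / 12 * h ^ 17) τ)
      ≤ 1 := by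
    refine le_trans ?_ e7
    have h1 : Real.sqrt (L * h ^ 33) = Real.sqrt L * (h ^ 16 * Real.sqrt h) := by
      rw [Real.sqrt_mul (by linarith), LStrip_sqrt33 h0 16]
    have h2 : c₀ / 12 * h ^ 17 / (C₂ * Real.sqrt (L * h ^ 33)) = κ * Real.sqrt h := by
      rw [h1, hκ]
      have hs0 : 0 < Real.sqrt h := Real.sqrt_pos.2 (by linarith)
      have hL1 : 0 < Real.sqrt L := Real.sqrt_pos.2 (by linarith)
      have hh0 : 0 < h := by linarith
      have h17 : h ^ 17 = h ^ 16 * (Real.sqrt h * Real.sqrt h) := by rw [hsq]; ring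
      rw [h17]
      field_simp
    rw [h2] at hP
    have h3 : Q.b * nm (u - z) ≤ Q.b * (20 * K ^ 2 * h ^ 33) := mul_le_mul_of_nonneg_left nuz hb.le
    have h4 := mul_le_mul h3 hP (M.P_nonneg _) (by positivity)
    refine h4.trans (le_of_eq ?_)
    ring
  have h1 : M.E (fun τ => T (res Q.b (Strip c h B) τ) 0 u) ≤
      M.E (fun τ => Q.b * nm z + T (res Q.b (Strip c h B) τ) z u) := by
    refine M.E_mono fun τ hB' => ?_
    have h2 := T_triangle (Bd_res Q.hab.le hB' (Strip c h B)) ha.le 0 z u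
    have h3 := T_upper (Bd_res Q.hab.le hB' (Strip c h B)) ha.le 0 z
    rw [sub_zero] at h3
    linarith
  rw [Mdl.E_add, Mdl.E_const] at h1
  have h5 : Q.b * nm z ≤ Q.b * (3 * K ^ 2 * h ^ 17) := mul_le_mul_of_nonneg_left nz hb.le
  have h6 : 6 * Q.b * K ^ 2 + 2 ≤ (6 * Q.b * K ^ 2 + 2) * h ^ 17 := by
    have : 0 ≤ 6 * Q.b * K ^ 2 + 2 := by positivity
    nlinarith
  linarith

/-- The climb.  PROOF.  `IsCone.upq` for the difference; confinement in the strip `3 h^33 ≤ p ≤ 5 h^33` by `confine_res` with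
`CE g (h^67) (h^65) (c h^33)`: deviations `h^33` against `√(h^65)`. -/
theorem strip_climb (Q : Par) (g : V → ℝ) (hg : IsMean Q g) (c : Crd) (c₀ C₁ : ℝ)
    (hc : IsCone g c c₀ C₁) : ∃ C h₀ : ℝ, ∀ h ≥ h₀, ∀ (R : ℝ) (M : Mdl Q.a Q.b), Good Q g R M →
    h ^ 70 ≤ R → ∀ (B : ℝ) (x : V), h ^ 35 ≤ B → 1 ≤ c.q x → c.q x ≤ h ^ 64 →
      M.E (fun τ => T (res Q.b (Strip c h B) τ) (c.rd (4 * h ^ 33) 0) (c.rd (4 * h ^ 33) (c.q x)))
        ≤ c.q x + C * S (c.q x) + C := by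
  obtain ⟨C₂, hC₂, hce⟩ := conc_event Q
  have ha : 0 < Q.a := Q.ha
  have hb : 0 < Q.b := Q.ha.trans Q.hab
  have hc₀ : 0 < c₀ := hc.pos
  obtain ⟨K, hKd⟩ : ∃ K : ℝ, K = c.C := ⟨_, rfl⟩
  have hK : 1 ≤ K := hKd ▸ c.one_le
  obtain ⟨L, hL⟩ : ∃ L : ℝ, L = (1 + Q.b / Q.a) * (20 * K ^ 2) := ⟨_, rfl⟩
  have hba : 0 < Q.b / Q.a := by positivity
  have hL20 : 20 * K ^ 2 ≤ L := by rw [hL]; nlinarith [sq_nonneg K]
  have hL0 : 1 ≤ L := by nlinarith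
  obtain ⟨κ, hκ⟩ : ∃ κ : ℝ, κ = c₀ / 12 / C₂ := ⟨_, rfl⟩
  have hκ0 : 0 < κ := by
    rw [hκ]
    positivity
  have ev := (LStrip_ge 1).and ((LStrip_ge (12 * K ^ 2 + L)).and
    ((LStrip_ge (16 * |C₁| / c₀)).and
    ((LStrip_ge (8 * (6 * Q.b * K ^ 2 + 4 * K) / c₀)).and
    ((LStrip_ge (2 / (c₀ / 12))).and
    ((LStrip_ge (2 * K)).and
    (LStrip_ev (Q.b * (5 * K ^ 2) * C₂) κ hκ0 332))))))
  obtain ⟨h₀, hh₀⟩ := Filter.eventually_atTop.1 ev
  refine ⟨|C₁| + 2 + 6 * Q.b * K ^ 2, h₀, ?_⟩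
  intro h hh R M hM hR B x₀ hB hm1 hm2
  obtain ⟨m, hm⟩ : ∃ m : ℝ, m = c.q x₀ := ⟨_, rfl⟩
  rw [← hm] at hm1 hm2 ⊢
  obtain ⟨e1, e2, e3, e4, e5, e6, e7⟩ := hh₀ h hh
  have h0 : 0 ≤ h := by linarith
  have p33 : 1 ≤ h ^ 33 := one_le_pow₀ e1
  have p33' : h ≤ h ^ 33 := by simpa using pow_le_pow_right₀ e1 (show 1 ≤ 33 by norm_num)
  have p64 : h ^ 33 ≤ h ^ 64 := pow_le_pow_right₀ e1 (by norm_num)
  have p65 : h ^ 65 = h * h ^ 64 := by ring
  have p67 : h ^ 65 ≤ h ^ 67 := pow_le_pow_right₀ e1 (by norm_num)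
  have p35 : h ^ 33 ≤ h ^ 35 := pow_le_pow_right₀ e1 (by norm_num)
  have p70 : h ^ 67 ≤ h ^ 70 := pow_le_pow_right₀ e1 (by norm_num)
  have hBig : (12 * K ^ 2 + L) * h ^ 64 ≤ h ^ 65 := by
    rw [p65]
    exact mul_le_mul_of_nonneg_right e2 (by positivity)
  have hK2 : 0 ≤ K ^ 2 * h ^ 64 := by positivity
  have hLB : 20 * K ^ 2 * h ^ 64 ≤ L * h ^ 64 := mul_le_mul_of_nonneg_right hL20 (by positivity)
  obtain ⟨z, hz⟩ : ∃ z : V, z = c.rd (4 * h ^ 33) 0 := ⟨_, rfl⟩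
  obtain ⟨u, hu⟩ : ∃ u : V, u = c.rd (4 * h ^ 33) m := ⟨_, rfl⟩
  obtain ⟨v, hv⟩ : ∃ v : V, v = c.rd 0 m := ⟨_, rfl⟩
  have pz := c.rd_p (4 * h ^ 33) 0
  have qz := c.rd_q (4 * h ^ 33) 0
  have pu := c.rd_p (4 * h ^ 33) m
  have qu := c.rd_q (4 * h ^ 33) m
  have pv := c.rd_p 0 m
  have qv := c.rd_q 0 m
  rw [← hz, ← hKd, abs_le] at pz qz
  rw [← hu, ← hKd, abs_le] at pu qu
  rw [← hv, ← hKd, abs_le] at pv qv
  rw [← hu, ← hz]
  obtain ⟨pz1, pz2⟩ := pz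
  obtain ⟨qz1, qz2⟩ := qz
  obtain ⟨pu1, pu2⟩ := pu
  obtain ⟨qu1, qu2⟩ := qu
  obtain ⟨pv1, pv2⟩ := pv
  obtain ⟨qv1, qv2⟩ := qv
  have puz : c.p (u - z) = c.p u - c.p z := map_sub _ _ _
  have quz : c.q (u - z) = c.q u - c.q z := map_sub _ _ _
  -- norms
  have nz : nm z ≤ 12 * K ^ 2 * h ^ 64 := by
    have h1 := LStrip_nm c z (X := 4 * h ^ 64) (j := 2) (by linarith) (by norm_num) (by
      rw [← hKd]
      have h1 : |c.p z| ≤ 4 * h ^ 33 + K := abs_le.2 ⟨by linarith, by linarith⟩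
      have h2 : |c.q z| ≤ K := abs_le.2 ⟨by linarith, by linarith⟩
      linarith)
    rw [← hKd] at h1
    linarith
  have nu : nm u ≤ 15 * K ^ 2 * h ^ 64 := by
    have h1 := LStrip_nm c u (X := 5 * h ^ 64) (j := 2) (by linarith) (by norm_num) (by
      rw [← hKd]
      have h1 : |c.p u| ≤ 4 * h ^ 33 + K := abs_le.2 ⟨by linarith, by linarith⟩
      have h2 : |c.q u| ≤ h ^ 64 + K := abs_le.2 ⟨by linarith, by linarith⟩
      linarith)
    rw [← hKd] at h1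
    linarith
  have nv : nm v ≤ 3 * K ^ 2 * h ^ 64 := by
    have h1 := LStrip_nm c v (X := h ^ 64) (j := 2) (by linarith) (by norm_num) (by
      rw [← hKd]
      have h1 : |c.p v| ≤ K := abs_le.2 ⟨by linarith, by linarith⟩
      have h2 : |c.q v| ≤ h ^ 64 + K := abs_le.2 ⟨by linarith, by linarith⟩
      linarith)
    rw [← hKd] at h1
    linarith
  have nuz : nm (u - z) ≤ 5 * K ^ 2 * h ^ 64 := by
    have h1 := LStrip_nm c (u - z) (X := h ^ 64) (j := 4) (by linarith) (by norm_num) (by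
      rw [← hKd, puz, quz]
      have h1 : |c.p u - c.p z| ≤ 2 * K := abs_le.2 ⟨by linarith, by linarith⟩
      have h2 : |c.q u - c.q z| ≤ h ^ 64 + 2 * K := abs_le.2 ⟨by linarith, by linarith⟩
      linarith)
    rw [← hKd] at h1
    linarith
  have nk : nm (u - (z + v)) ≤ 6 * K ^ 2 := by
    have h1 := c.nm_le (u - (z + v))
    have h2 : |c.p (u - (z + v))| ≤ 3 * K := by
      rw [map_sub, map_add]
      exact abs_le.2 ⟨by linarith, by linarith⟩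
    have h3 : |c.q (u - (z + v))| ≤ 3 * K := by
      rw [map_sub, map_add]
      exact abs_le.2 ⟨by linarith, by linarith⟩
    rw [← hKd] at h1
    have h4 : K * (|c.p (u - (z + v))| + |c.q (u - (z + v))|) ≤ K * (6 * K) :=
      mul_le_mul_of_nonneg_left (by linarith) (by linarith)
    have h5 : K * (6 * K) = 6 * K ^ 2 := by ring
    linarith
  have nzv : nm (z + v) ≤ h ^ 67 := by
    have h1 := nm_add_le z v
    linarith
  have nuD : nm u ≤ h ^ 67 := by linarith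
  have hl : (1 + Q.b / Q.a) * nm (u - z) ≤ h ^ 65 := by
    have h1 : (1 + Q.b / Q.a) * nm (u - z) ≤ (1 + Q.b / Q.a) * (20 * K ^ 2 * h ^ 64) :=
      mul_le_mul_of_nonneg_left (by linarith) (by linarith)
    have h2 : (1 + Q.b / Q.a) * (20 * K ^ 2 * h ^ 64) = L * h ^ 64 := by rw [hL]; ring
    linarith
  have hx : nm z + Q.b / Q.a * nm (u - z) ≤ h ^ 67 := by
    have h1 : (1 + Q.b / Q.a) * nm (u - z) ≤ (1 + Q.b / Q.a) * (20 * K ^ 2 * h ^ 64) :=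
      mul_le_mul_of_nonneg_left (by linarith) (by linarith)
    have h2 : (1 + Q.b / Q.a) * (20 * K ^ 2 * h ^ 64) = L * h ^ 64 := by rw [hL]; ring
    have h4 := nm_nonneg (u - z)
    linarith
  have hv' : nm v ≤ h ^ 65 := by linarith
  have hlR : h ^ 65 ≤ R := by linarith
  -- the mean
  have gv : g v ≤ m + C₁ * S m :=
    hc.upq _ v hm1 (by rw [← hKd]; exact abs_le.2 ⟨by linarith, by linarith⟩)
      (by rw [← hKd]; exact abs_le.2 ⟨by linarith, by linarith⟩)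
  have hS : S m ≤ 2 * h ^ 32 := by
    have h1 := S_le_two_sqrt (x := m) (by linarith)
    have h2 : Real.sqrt m ≤ h ^ 32 := by
      rw [Real.sqrt_le_left (by positivity)]
      calc m ≤ h ^ 64 := hm2
        _ = (h ^ 32) ^ 2 := by ring
    linarith
  have hCS : C₁ * S m ≤ |C₁| * S m := mul_le_mul_of_nonneg_right (le_abs_self _) (S_nonneg _)
  have hCS2 : |C₁| * S m ≤ |C₁| * (2 * h ^ 32) := mul_le_mul_of_nonneg_left hS (abs_nonneg _)
  have hs1 : |C₁| * (2 * h ^ 32) ≤ c₀ * h ^ 33 / 8 := by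
    rw [div_le_iff₀ hc₀] at e3
    have h2 := mul_le_mul_of_nonneg_right e3 (show 0 ≤ h ^ 32 by positivity)
    have h3 : h * c₀ * h ^ 32 = c₀ * h ^ 33 := by ring
    linarith
  have hs2 : 6 * Q.b * K ^ 2 + 4 * K ≤ c₀ * h ^ 33 / 8 := by
    rw [div_le_iff₀ hc₀] at e4
    have := mul_le_mul_of_nonneg_left p33' hc₀.le
    linarith
  have hs3 : 2 ≤ c₀ / 12 * h ^ 33 := by
    rw [div_le_iff₀ (by positivity)] at e5
    have := mul_le_mul_of_nonneg_left p33' (show 0 ≤ c₀ / 12 by positivity)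
    linarith
  have hexp := LStrip_exp hM hc (D := h ^ 67) (l := h ^ 65) (s := c₀ / 12 * h ^ 33)
    (w := c₀ * h ^ 33 / 3) (r := h ^ 33 / 2) (k := 6 * K ^ 2) (x := z) (y := u) (v := v)
    hx nuD hl nzv hv' hlR nk (by rw [puz, quz]; linarith) (by linarith)
    (A := Strip c h B) (by
      rintro e ⟨⟨a1, a2, a3, a4, a5⟩, ⟨b1, b2, b3, b4, b5⟩⟩
      refine ⟨⟨⟨?_, ?_, ?_⟩, ⟨?_, ?_, ?_⟩⟩, a1.trans p70⟩ <;> linarith)
  have hP := hce g R M hM (h ^ 67) (h ^ 65) (c₀ / 12 * h ^ 33) (one_le_pow₀ e1)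
    (one_le_pow₀ e1) hlR hs3
  have hbad : Q.b * nm (u - z) * M.P (fun τ => ¬ CE g (h ^ 67) (h ^ 65) (c₀ / 12 * h ^ 33) τ)
      ≤ 1 := by
    refine le_trans ?_ e7
    have h1 : Real.sqrt (h ^ 65) = h ^ 32 * Real.sqrt h := LStrip_sqrt33 h0 32
    have h2 : c₀ / 12 * h ^ 33 / (C₂ * Real.sqrt (h ^ 65)) = κ * Real.sqrt h := by
      rw [h1, hκ]
      have hs0 : 0 < Real.sqrt h := Real.sqrt_pos.2 (by linarith)
      have hh0 : 0 < h := by linarith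
      have hsq : Real.sqrt h * Real.sqrt h = h := Real.mul_self_sqrt h0
      have h33 : h ^ 33 = h ^ 32 * (Real.sqrt h * Real.sqrt h) := by rw [hsq]; ring
      rw [h33]
      field_simp
    rw [h2] at hP
    have h3 : Q.b * nm (u - z) ≤ Q.b * (5 * K ^ 2 * h ^ 64) := mul_le_mul_of_nonneg_left nuz hb.le
    have h4 := mul_le_mul h3 hP (M.P_nonneg _) (by positivity)
    refine h4.trans (le_of_eq ?_)
    ring
  have h7 : 0 ≤ (2 + 6 * Q.b * K ^ 2) * S m := mul_nonneg (by positivity) (S_nonneg _)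
  have h8 := abs_nonneg C₁
  linarith

/-- The cost on the good event.  PROOF.  `T (res QB) 0 Y ≤ T 0 u₀ + T u₀ u* + T u* x* + T x* y* + T y* Y` in the environment `res QB τ`,
`u₀ = rd(4 h^33, 0)`, `u* = rd(4 h^33, q x*)`, `(x*, y*) = xyS τ`.  First two: `T_res_anti` (`Strip ⊆ QB`).  Third and fifth: distances
`≤ C h^33`, on `CE` the passage times are `≤ p + C S + h^17` (`IsCone.upp`) and the geodesics stay in `QB` (`confine_res` with
`r = h^18`, `w = C h^17`), so they are not changed by the restriction.  Fourth: `xyS_spec` and `T_res_anti`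
(`edg (Gr ..) ⊆ QB`). -/
theorem Af_le_good (Q : Par) (g : V → ℝ) (c : Crd) (w c₀ C₁ : ℝ)
    (hc : IsCone g c c₀ C₁) : ∃ C L' h₀ : ℝ, 1 ≤ L' ∧ ∀ h ≥ h₀, ∀ (B t : ℝ) (I : ℕ), h ^ 35 ≤ B → B ≤ h ^ 42 →
    10 * B * (I + 2) ≤ h ^ 64 → ∀ τ, Bd Q.a Q.b τ → CE g (h ^ 68) (L' * h ^ 33) (h ^ 17) τ →
    Suc Q.b c w h B t I τ →
      Af Q.b c w h B t I τ ≤
        (T (res Q.b (Strip c h B) τ) 0 (c.rd (4 * h ^ 33) 0) - 4 * h ^ 33) +
        (T (res Q.b (Strip c h B) τ) (c.rd (4 * h ^ 33) 0)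
          (c.rd (4 * h ^ 33) (c.q (xyS Q.b c w h B t τ).1)) - c.q (xyS Q.b c w h B t τ).1) +
        C * h ^ 17 - t := by
  have ha : 0 < Q.a := Q.ha
  have hb : 0 < Q.b := Q.ha.trans Q.hab
  have hc₀ : 0 < c₀ := hc.pos
  obtain ⟨K, hKd⟩ : ∃ K : ℝ, K = c.C := ⟨_, rfl⟩
  have hK : 1 ≤ K := hKd ▸ c.one_le
  have hba : 0 < Q.b / Q.a := by positivity
  obtain ⟨W, hW⟩ : ∃ W : ℝ, W = |w| := ⟨_, rfl⟩
  have hW0 : 0 ≤ W := by rw [hW]; exact abs_nonneg w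
  obtain ⟨k, hk⟩ : ∃ k : ℝ, k = K * (5 * K + W) := ⟨_, rfl⟩
  have hk0 : 0 ≤ k := by rw [hk]; positivity
  obtain ⟨N, hN⟩ : ∃ N : ℝ, N = 30 * K ^ 2 + K * W := ⟨_, rfl⟩
  have hKW : 0 ≤ K * W := by positivity
  have hN1 : 30 ≤ N := by rw [hN]; nlinarith
  obtain ⟨L, hL⟩ : ∃ L : ℝ, L = (1 + Q.b / Q.a) * N := ⟨_, rfl⟩
  have hLN : N ≤ L := by rw [hL]; nlinarith
  obtain ⟨A₁, hA₁⟩ : ∃ A₁ : ℝ, A₁ = 5 * |C₁| + 3 + Q.b * k + 3 * K + W := ⟨_, rfl⟩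
  have hC₁ := abs_nonneg C₁
  have hbk : 0 ≤ Q.b * k := by positivity
  have ev := (LStrip_ge 1).and ((LStrip_ge (2 * L)).and
    ((LStrip_ge (A₁ / c₀)).and
    ((LStrip_ge (2 * K)).and (LStrip_ge (2 * W)))))
  obtain ⟨h₀, hh₀⟩ := Filter.eventually_atTop.1 ev
  refine ⟨9 * |C₁| + 2 + Q.b * k + 3 * K + W, 2 * L, h₀, by linarith, ?_⟩
  intro h hh B t I hB1 hB2 hBI τ hτ hCE hS
  obtain ⟨e1, e2, e3, e4, e5⟩ := hh₀ h hh
  have h0 : 0 ≤ h := by linarith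
  obtain ⟨hiI, hj, hLP⟩ := xyS_spec hS
  obtain ⟨i, hi⟩ : ∃ i : ℕ, i = iS Q.b c w h B t τ := ⟨_, rfl⟩
  obtain ⟨j, hjd⟩ : ∃ j : ℕ, j = jS Q.b c w h B t τ := ⟨_, rfl⟩
  obtain ⟨x, hxd⟩ : ∃ x : V, x = (xyS Q.b c w h B t τ).1 := ⟨_, rfl⟩
  obtain ⟨y, hyd⟩ : ∃ y : V, y = (xyS Q.b c w h B t τ).2 := ⟨_, rfl⟩
  obtain ⟨o, hod⟩ : ∃ o : V, o = an c h B i := ⟨_, rfl⟩
  rw [← hi] at hiI
  rw [← hjd] at hj
  unfold LP at hLP
  rw [← hi, ← hjd, ← hxd, ← hyd, ← hod] at hLP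
  obtain ⟨l1, l2, l3, l4, l5, l6, l7⟩ := hLP
  rw [← hxd]
  have hw0 : 0 ≤ w := (abs_nonneg _).trans l1
  have hwW : W = w := by rw [hW, abs_of_nonneg hw0]
  rw [map_sub] at l1 l2 l3 l4 l5 l6
  rw [abs_le] at l1 l2 l6
  obtain ⟨l1, l1'⟩ := l1
  obtain ⟨l2, l2'⟩ := l2
  obtain ⟨l6, l6'⟩ := l6
  -- powers
  have p17 : 1 ≤ h ^ 17 := one_le_pow₀ e1
  have p17' : h ≤ h ^ 17 := by simpa using pow_le_pow_right₀ e1 (show 1 ≤ 17 by norm_num)
  have p18 : h ^ 18 ≤ h ^ 33 := pow_le_pow_right₀ e1 (by norm_num)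
  have p33 : 1 ≤ h ^ 33 := one_le_pow₀ e1
  have p33' : h ≤ h ^ 33 := by simpa using pow_le_pow_right₀ e1 (show 1 ≤ 33 by norm_num)
  have p34 : h ^ 34 = h * h ^ 33 := by ring
  have p35 : h ^ 33 ≤ h ^ 35 := pow_le_pow_right₀ e1 (by norm_num)
  have p60 : h ^ 33 ≤ h ^ 60 := pow_le_pow_right₀ e1 (by norm_num)
  have p64 : h ^ 60 ≤ h ^ 64 := pow_le_pow_right₀ e1 (by norm_num)
  have p65 : h ^ 65 = h * h ^ 64 := by ring
  have p68 : h ^ 65 ≤ h ^ 68 := pow_le_pow_right₀ e1 (by norm_num)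
  have p70 : h ^ 68 ≤ h ^ 70 := pow_le_pow_right₀ e1 (by norm_num)
  have hBig : 2 * L * h ^ 64 ≤ h ^ 65 := by
    rw [p65]
    exact mul_le_mul_of_nonneg_right e2 (by positivity)
  have hL33 : 0 ≤ L * h ^ 33 := mul_nonneg (by linarith) (by positivity)
  have hK2 : 0 ≤ K ^ 2 * h ^ 64 := by positivity
  have hLB : N * h ^ 64 ≤ L * h ^ 64 := mul_le_mul_of_nonneg_right hLN (by positivity)
  have hLB33 : N * h ^ 33 ≤ L * h ^ 33 := mul_le_mul_of_nonneg_right hLN (by positivity)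
  have hN64 : N * h ^ 64 = 30 * K ^ 2 * h ^ 64 + K * W * h ^ 64 := by rw [hN]; ring
  have hN33 : N * h ^ 33 = 30 * K ^ 2 * h ^ 33 + K * W * h ^ 33 := by rw [hN]; ring
  have hKW64 : 0 ≤ K * W * h ^ 64 := by positivity
  have hKW33 : 0 ≤ K * W * h ^ 33 := by positivity
  have hK33 : 0 ≤ K ^ 2 * h ^ 33 := by positivity
  have hK3364 : K ^ 2 * h ^ 33 ≤ K ^ 2 * h ^ 64 :=
    mul_le_mul_of_nonneg_left (by linarith) (by positivity)
  have hB0 : 0 < B := by linarith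
  -- the anchor
  obtain ⟨β, hβ⟩ : ∃ β : ℝ, β = 10 * B * (i + 1) := ⟨_, rfl⟩
  have hβ1 : 10 * B ≤ β := by
    rw [hβ]
    have : 0 ≤ 10 * B * (i : ℝ) := by positivity
    linarith
  have hβ2 : β ≤ h ^ 64 - 20 * B := by
    have h1 : (i : ℝ) + 1 ≤ I := by exact_mod_cast hiI
    have h2 : 10 * B * ((i : ℝ) + 1) ≤ 10 * B * I := mul_le_mul_of_nonneg_left h1 (by positivity)
    rw [hβ]
    linarith
  have po := c.rd_p (8 * h ^ 33) β
  have qo := c.rd_q (8 * h ^ 33) β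
  have hod' : o = c.rd (8 * h ^ 33) β := by rw [hod, hβ]; rfl
  rw [← hod', ← hKd, abs_le] at po qo
  obtain ⟨po1, po2⟩ := po
  obtain ⟨qo1, qo2⟩ := qo
  obtain ⟨u₀, hu₀⟩ : ∃ u : V, u = c.rd (4 * h ^ 33) 0 := ⟨_, rfl⟩
  obtain ⟨us, hus⟩ : ∃ u : V, u = c.rd (4 * h ^ 33) (c.q x) := ⟨_, rfl⟩
  obtain ⟨v, hv⟩ : ∃ v : V, v = c.rd (6 * h ^ 33) 0 := ⟨_, rfl⟩
  have pu := c.rd_p (4 * h ^ 33) 0
  have qu := c.rd_q (4 * h ^ 33) 0
  have ps := c.rd_p (4 * h ^ 33) (c.q x)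
  have qs := c.rd_q (4 * h ^ 33) (c.q x)
  have pv := c.rd_p (6 * h ^ 33) 0
  have qv := c.rd_q (6 * h ^ 33) 0
  rw [← hu₀, ← hKd, abs_le] at pu qu
  rw [← hus, ← hKd, abs_le] at ps qs
  rw [← hv, ← hKd, abs_le] at pv qv
  obtain ⟨pu1, pu2⟩ := pu
  obtain ⟨qu1, qu2⟩ := qu
  obtain ⟨ps1, ps2⟩ := ps
  obtain ⟨qs1, qs2⟩ := qs
  obtain ⟨pv1, pv2⟩ := pv
  obtain ⟨qv1, qv2⟩ := qv
  rw [← hu₀, ← hus]
  have hYf : Yf Q.b c w h B t I τ = y + v := by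
    unfold Yf
    rw [if_pos hS, ← hyd, ← hv]
  -- norms
  have nu : nm u₀ ≤ 12 * K ^ 2 * h ^ 33 := by
    have h1 := LStrip_nm c u₀ (X := 4 * h ^ 33) (j := 2) (by linarith) (by norm_num) (by
      rw [← hKd]
      have h1 : |c.p u₀| ≤ 4 * h ^ 33 + K := abs_le.2 ⟨by linarith, by linarith⟩
      have h2 : |c.q u₀| ≤ K := abs_le.2 ⟨by linarith, by linarith⟩
      linarith)
    rw [← hKd] at h1
    linarith
  have nv : nm v ≤ 18 * K ^ 2 * h ^ 33 := by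
    have h1 := LStrip_nm c v (X := 6 * h ^ 33) (j := 2) (by linarith) (by norm_num) (by
      rw [← hKd]
      have h1 : |c.p v| ≤ 6 * h ^ 33 + K := abs_le.2 ⟨by linarith, by linarith⟩
      have h2 : |c.q v| ≤ K := abs_le.2 ⟨by linarith, by linarith⟩
      linarith)
    rw [← hKd] at h1
    linarith
  have nus : nm us ≤ 15 * K ^ 2 * h ^ 64 := by
    have h1 := LStrip_nm c us (X := 5 * h ^ 64) (j := 2) (by linarith) (by norm_num) (by
      rw [← hKd]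
      have h1 : |c.p us| ≤ 4 * h ^ 33 + K := abs_le.2 ⟨by linarith, by linarith⟩
      have h2 : |c.q us| ≤ h ^ 64 + K := abs_le.2 ⟨by linarith, by linarith⟩
      linarith)
    rw [← hKd] at h1
    linarith
  have nx : nm x ≤ 20 * K ^ 2 * h ^ 64 := by
    have h1 := LStrip_nm c x (X := 10 * h ^ 64) (j := 1) (by linarith) (by norm_num) (by
      rw [← hKd]
      have h1 : |c.p x| ≤ 9 * h ^ 33 + K := abs_le.2 ⟨by linarith, by linarith⟩
      have h2 : |c.q x| ≤ h ^ 64 := abs_le.2 ⟨by linarith, by linarith⟩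
      linarith)
    rw [← hKd] at h1
    linarith
  have hj0 : 0 ≤ (j : ℝ) * h ^ 33 := by positivity
  have ny : nm y ≤ 24 * K ^ 2 * h ^ 64 := by
    have h1 := LStrip_nm c y (X := 12 * h ^ 64) (j := 1) (by linarith) (by norm_num) (by
      rw [← hKd]
      have h1 : |c.p y| ≤ 10 * h ^ 60 + K := abs_le.2 ⟨by linarith, by linarith⟩
      have h2 : |c.q y| ≤ h ^ 64 := abs_le.2 ⟨by linarith, by linarith⟩
      linarith)
    rw [← hKd] at h1
    linarith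
  have nxs : nm (x - us) ≤ N * h ^ 33 := by
    have h1 := c.nm_le (x - us)
    rw [map_sub, map_sub, ← hKd] at h1
    have h2 : |c.p x - c.p us| ≤ 4 * h ^ 33 + 2 * K + W := abs_le.2 ⟨by linarith, by linarith⟩
    have h3 : |c.q x - c.q us| ≤ K := abs_le.2 ⟨by linarith, by linarith⟩
    have h4 : K * (|c.p x - c.p us| + |c.q x - c.q us|) ≤ K * (4 * h ^ 33 + 3 * K + W) :=
      mul_le_mul_of_nonneg_left (by linarith) (by linarith)
    have h5 : K * h ^ 33 ≤ K ^ 2 * h ^ 33 := mul_le_mul_of_nonneg_right (by nlinarith) (by positivity)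
    have h6 : K ^ 2 * 1 ≤ K ^ 2 * h ^ 33 := mul_le_mul_of_nonneg_left p33 (by positivity)
    have h7 : K * W * 1 ≤ K * W * h ^ 33 := mul_le_mul_of_nonneg_left p33 hKW
    rw [hN33]
    linarith
  -- third
  have hgu : g u₀ ≤ 4 * h ^ 33 + |C₁| * (4 * h ^ 17) := by
    have h1 : g u₀ ≤ 4 * h ^ 33 + C₁ * S (4 * h ^ 33) :=
      hc.upp _ u₀ (by linarith) (by rw [← hKd]; exact abs_le.2 ⟨by linarith, by linarith⟩)
        (by rw [← hKd]; exact abs_le.2 ⟨by linarith, by linarith⟩)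
    have h2 := S_le_two_sqrt (x := 4 * h ^ 33) (by positivity)
    have h3 : Real.sqrt (4 * h ^ 33) ≤ 2 * h ^ 17 := by
      rw [Real.sqrt_le_left (by positivity)]
      have : h ^ 33 ≤ h ^ 34 := pow_le_pow_right₀ e1 (by norm_num)
      calc 4 * h ^ 33 ≤ 4 * h ^ 34 := by linarith
        _ = (2 * h ^ 17) ^ 2 := by ring
    have h4 : C₁ * S (4 * h ^ 33) ≤ |C₁| * (4 * h ^ 17) :=
      (mul_le_mul_of_nonneg_right (le_abs_self _) (S_nonneg _)).trans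
        (mul_le_mul_of_nonneg_left (by linarith) hC₁)
    linarith
  have hgv : g v ≤ 6 * h ^ 33 + |C₁| * (5 * h ^ 17) := by
    have h1 : g v ≤ 6 * h ^ 33 + C₁ * S (6 * h ^ 33) :=
      hc.upp _ v (by linarith) (by rw [← hKd]; exact abs_le.2 ⟨by linarith, by linarith⟩)
        (by rw [← hKd]; exact abs_le.2 ⟨by linarith, by linarith⟩)
    have h2 := S_le_two_sqrt (x := 6 * h ^ 33) (by positivity)
    have h3 : Real.sqrt (6 * h ^ 33) ≤ 5 / 2 * h ^ 17 := by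
      rw [Real.sqrt_le_left (by positivity)]
      have : h ^ 33 ≤ h ^ 34 := pow_le_pow_right₀ e1 (by norm_num)
      calc 6 * h ^ 33 ≤ 25 / 4 * h ^ 34 := by linarith
        _ = (5 / 2 * h ^ 17) ^ 2 := by ring
    have h4 : C₁ * S (6 * h ^ 33) ≤ |C₁| * (5 * h ^ 17) :=
      (mul_le_mul_of_nonneg_right (le_abs_self _) (S_nonneg _)).trans
        (mul_le_mul_of_nonneg_left (by linarith) hC₁)
    linarith
  have hr : A₁ * h ^ 17 ≤ c₀ * h ^ 18 := by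
    rw [div_le_iff₀ hc₀] at e3
    have h1 := mul_le_mul_of_nonneg_right e3 (show 0 ≤ h ^ 17 by positivity)
    have h2 : h * c₀ * h ^ 17 = c₀ * h ^ 18 := by ring
    linarith
  have hA17 : A₁ * h ^ 17 = 5 * |C₁| * h ^ 17 + 3 * h ^ 17 + (Q.b * k) * h ^ 17
      + 3 * K * h ^ 17 + W * h ^ 17 := by rw [hA₁]; ring
  have m1 : 0 ≤ |C₁| * h ^ 17 := by positivity
  have m2 : Q.b * k * 1 ≤ Q.b * k * h ^ 17 := mul_le_mul_of_nonneg_left p17 hbk
  have m3 : K * 1 ≤ K * h ^ 17 := mul_le_mul_of_nonneg_left p17 (by linarith)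
  have m4 : W * 1 ≤ W * h ^ 17 := mul_le_mul_of_nonneg_left p17 hW0
  have hl3 : (1 + Q.b / Q.a) * nm (x - us) ≤ L * h ^ 33 := by
    have h1 : (1 + Q.b / Q.a) * nm (x - us) ≤ (1 + Q.b / Q.a) * (N * h ^ 33) :=
      mul_le_mul_of_nonneg_left nxs (by linarith)
    have h2 : (1 + Q.b / Q.a) * (N * h ^ 33) = L * h ^ 33 := by rw [hL]; ring
    linarith
  have hl5 : (1 + Q.b / Q.a) * nm (y + v - y) ≤ L * h ^ 33 := by
    rw [add_sub_cancel_left]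
    have h1 : (1 + Q.b / Q.a) * nm v ≤ (1 + Q.b / Q.a) * (N * h ^ 33) :=
      mul_le_mul_of_nonneg_left (by linarith) (by linarith)
    have h2 : (1 + Q.b / Q.a) * (N * h ^ 33) = L * h ^ 33 := by rw [hL]; ring
    linarith
  have hLp : L * h ^ 33 ≤ L * h ^ 64 := mul_le_mul_of_nonneg_left (by linarith) (by linarith)
  have hLp0 : 0 ≤ L * h ^ 33 := mul_nonneg (by linarith) (by positivity)
  have t3 := LStrip_det hc (D := h ^ 68) (l := 2 * L * h ^ 33) (s := h ^ 17) (w := (A₁ - 2) * h ^ 17)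
    (r := h ^ 18) (k := k) hτ hCE (x := us) (y := x) (v := u₀)
    (by have := nm_nonneg (x - us); linarith) (by linarith) (by linarith)
    (by have := nm_add_le us u₀; linarith) (by linarith)
    (by
      have h1 := c.nm_le (x - (us + u₀))
      rw [map_sub, map_sub, map_add, map_add, ← hKd] at h1
      have h2 : |c.p x - (c.p us + c.p u₀)| ≤ 3 * K + W := abs_le.2 ⟨by linarith, by linarith⟩
      have h3 : |c.q x - (c.q us + c.q u₀)| ≤ 2 * K := abs_le.2 ⟨by linarith, by linarith⟩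
      have h4 : K * (|c.p x - (c.p us + c.p u₀)| + |c.q x - (c.q us + c.q u₀)|) ≤ K * (5 * K + W) :=
        mul_le_mul_of_nonneg_left (by linarith) (by linarith)
      rw [hk]
      linarith)
    (by
      rw [map_sub, map_sub, sub_mul, hA17]
      linarith) (by linarith) (A := QB c h B) (by
      rintro e ⟨⟨a1, a2, a3, a4, a5⟩, ⟨b1, b2, b3, b4, b5⟩⟩
      refine ⟨⟨⟨?_, ?_⟩, ⟨?_, ?_⟩⟩, a1.trans p70⟩
      all_goals rw [map_zero]; linarith)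
  have t5 := LStrip_det hc (D := h ^ 68) (l := 2 * L * h ^ 33) (s := h ^ 17) (w := (A₁ - 2) * h ^ 17)
    (r := h ^ 18) (k := 0) hτ hCE (x := y) (y := y + v) (v := v)
    (by have := nm_nonneg (y + v - y); linarith) (by have := nm_add_le y v; linarith) (by linarith)
    (by have := nm_add_le y v; linarith) (by linarith)
    (by rw [sub_self, nm_zero])
    (by
      rw [add_sub_cancel_left, sub_mul, hA17]
      linarith) (by linarith) (A := QB c h B) (by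
      rintro e ⟨⟨a1, a2, a3, a4, a5⟩, ⟨b1, b2, b3, b4, b5⟩⟩
      refine ⟨⟨⟨?_, ?_⟩, ⟨?_, ?_⟩⟩, a1.trans p70⟩
      all_goals rw [map_zero]; linarith)
  -- fourth
  have t4 : T (res Q.b (QB c h B) τ) x y ≤ c.rho (y - x) - t := by
    refine le_trans ?_ l7
    refine T_res_anti ha.le Q.hab.le hτ ?_ x y
    rintro e ⟨⟨a1, a2, a3⟩, ⟨b1, b2, b3⟩⟩
    rw [map_sub] at a1 a2 a3 b1 b2 b3
    rw [abs_le] at a3 b3
    obtain ⟨a3, a3'⟩ := a3
    obtain ⟨b3, b3'⟩ := b3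
    refine ⟨⟨⟨?_, ?_⟩, ⟨?_, ?_⟩⟩, ?_⟩
    · rw [map_zero]; linarith
    · rw [map_zero]; linarith
    · rw [map_zero]; linarith
    · rw [map_zero]; linarith
    · have h6 : (j : ℝ) * h ^ 33 ≤ 3 * h ^ 60 := by
        have := mul_le_mul_of_nonneg_right hj (show 0 ≤ h ^ 33 by positivity)
        calc (j : ℝ) * h ^ 33 ≤ 3 * h ^ 27 * h ^ 33 := this
          _ = 3 * h ^ 60 := by ring
      have h1 := LStrip_nm c e.1 (X := 14 * h ^ 64) (j := 2) (by linarith) (by norm_num) (by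
        rw [← hKd]
        have h1 : |c.p e.1| ≤ 13 * h ^ 60 + K := abs_le.2 ⟨by linarith, by linarith⟩
        have h2 : |c.q e.1| ≤ h ^ 64 + K := abs_le.2 ⟨by linarith, by linarith⟩
        linarith)
      rw [← hKd] at h1
      have p70' : h ^ 66 ≤ h ^ 70 := pow_le_pow_right₀ e1 (by norm_num)
      have p66 : h ^ 66 = h * h ^ 65 := by ring
      have h7 : 20 * h ^ 65 ≤ h * h ^ 65 := mul_le_mul_of_nonneg_right (by linarith) (by positivity)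
      linarith
  -- first two
  have hSQ : Strip c h B ⊆ QB c h B := by
    rintro e ⟨⟨⟨a1, a2, a3⟩, ⟨b1, b2, b3⟩⟩, a4⟩
    refine ⟨⟨⟨?_, ?_⟩, ⟨?_, ?_⟩⟩, a4⟩
    all_goals rw [map_zero]; linarith
  have t1 := T_res_anti ha.le Q.hab.le hτ hSQ 0 u₀
  have t2 := T_res_anti ha.le Q.hab.le hτ hSQ u₀ us
  have hR := Bd_res Q.hab.le hτ (QB c h B)
  have q1 := T_triangle hR ha.le 0 u₀ (y + v)
  have q2 := T_triangle hR ha.le u₀ us (y + v)
  have q3 := T_triangle hR ha.le us x (y + v)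
  have q4 := T_triangle hR ha.le x y (y + v)
  obtain ⟨t3a, t3b⟩ := t3
  obtain ⟨t5a, t5b⟩ := t5
  unfold Af
  rw [hYf]
  unfold Crd.rho at t4 ⊢
  rw [map_sub, map_sub] at t4
  rw [map_add, map_add]
  rw [mul_zero, add_zero] at t5b
  rw [t5a] at q4
  rw [t3a] at q3
  have hfin : (9 * |C₁| + 2 + Q.b * k + 3 * K + W) * h ^ 17 = 9 * |C₁| * h ^ 17 + 2 * h ^ 17
      + (Q.b * k) * h ^ 17 + 3 * K * h ^ 17 + W * h ^ 17 := by ring
  rw [hfin]
  linarith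

/-- The trivial bound.  PROOF.  `T ≤ b nm`, `Yf_mem`. -/
theorem Af_le (Q : Par) (c : Crd) (w : ℝ) : ∃ C h₀ : ℝ, ∀ h ≥ h₀, ∀ (B t : ℝ) (I : ℕ), h ^ 35 ≤ B →
    B ≤ h ^ 42 → 10 * B * (I + 2) ≤ h ^ 64 → ∀ τ, Bd Q.a Q.b τ →
      Af Q.b c w h B t I τ ≤ C * h ^ 70 := by
  have ha : 0 < Q.a := Q.ha
  have hb : 0 < Q.b := Q.ha.trans Q.hab
  obtain ⟨h₀, hY⟩ := Yf_mem c w
  refine ⟨Q.b, h₀, ?_⟩
  intro h hh B t I h1 h2 h3 τ hτ
  obtain ⟨n1, n2, n3⟩ := hY h hh Q.b B t I h1 h2 h3 τ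
  unfold Af Crd.rho
  have h4 := T_upper (Bd_res Q.hab.le hτ (QB c h B)) ha.le 0 (Yf Q.b c w h B t I τ)
  rw [sub_zero] at h4
  have h5 : Q.b * nm (Yf Q.b c w h B t I τ) ≤ Q.b * h ^ 70 := mul_le_mul_of_nonneg_left n1 hb.le
  linarith

end Pool.Agent.W_1b8d5d_h85
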