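import Pool.Agent.W_1b8d5d_h85.LProb
import Pool.Agent.W_1b8d5d_h85.LStrip

/-!
MP_1b8d5d_pr, proofs row 571, (5c): lanes of very negative excess are rare.
-/

set_option autoImplicit false

namespace Pool.Agent.W_1b8d5d_h85

open Finset

/-- The first vertex of the chosen lane. -/
private theorem LFin_xI {b : ℝ} {c : Crd} {w h B t : ℝ} {I : ℕ} {τ : Env} (hB : 2 * c.C ≤ B)
    (hS : Suc b c w h B t I τ) :
    B ≤ c.q (xyS b c w h B t τ).1 ∧ c.q (xyS b c w h B t τ).1 ≤ 10 * B * (I + 2) := by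
  obtain ⟨hI, _, hLP⟩ := xyS_spec hS
  obtain ⟨_, h2, _⟩ := hLP
  have hC := c.one_le
  have hi : (0 : ℝ) ≤ (iS b c w h B t τ : ℝ) := Nat.cast_nonneg _
  have hi2 : (iS b c w h B t τ : ℝ) + 1 ≤ I := by exact_mod_cast hI
  have ho := c.rd_q (8 * h ^ 33) (10 * B * ((iS b c w h B t τ : ℝ) + 1))
  rw [map_sub] at h2
  unfold an at h2
  rw [abs_le] at h2 ho
  have hBi : 0 ≤ B * (iS b c w h B t τ : ℝ) := mul_nonneg (by linarith) hi
  have hBi2 : B * ((iS b c w h B t τ : ℝ) + 1) ≤ B * I := mul_le_mul_of_nonneg_left hi2 (by linarith)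
  constructor
  · nlinarith
  · nlinarith

open Classical in
/-- Decomposition by the value of `X`. -/
private theorem LFin_split {a b : ℝ} (M : Mdl a b) (p : Env → Prop) (X : Env → V) (φ : Env → V → ℝ) :
    M.E (fun τ => if p τ then φ τ (X τ) else 0)
      = ∑ x ∈ univ.image (fun ω : M.Ω => X (M.env ω)),
        M.E (fun τ => (if p τ ∧ X τ = x then (1 : ℝ) else 0) * φ τ x) := by
  unfold Mdl.E
  rw [← Ex_sum]
  refine Ex_congr fun ω => ?_
  show (if p (M.env ω) then φ (M.env ω) (X (M.env ω)) else 0) =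
    ∑ x ∈ univ.image (fun ω : M.Ω => X (M.env ω)),
      (if p (M.env ω) ∧ X (M.env ω) = x then (1 : ℝ) else 0) * φ (M.env ω) x
  by_cases hp : p (M.env ω)
  · rw [if_pos hp, sum_eq_single_of_mem (X (M.env ω)) (mem_image.2 ⟨ω, mem_univ ω, rfl⟩)]
    · rw [if_pos ⟨hp, rfl⟩, one_mul]
    · intro x _ hx
      rw [if_neg (fun h => hx h.2.symm), zero_mul]
  · rw [if_neg hp]
    refine (sum_eq_zero fun x _ => ?_).symm
    rw [if_neg (fun h => hp h.1), zero_mul]

open Classical in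
/-- The mean cost of the climb. -/
private theorem LFin_climb (Q : Par) (g : V → ℝ) (hg : IsMean Q g) (c : Crd) (w c₀ C₁ : ℝ)
    (hc : IsCone g c c₀ C₁) : ∃ C h₀ : ℝ, 0 ≤ C ∧ ∀ h ≥ h₀, ∀ (R : ℝ) (M : Mdl Q.a Q.b), Good Q g R M →
    h ^ 70 ≤ R → ∀ (B t : ℝ) (I : ℕ), h ^ 35 ≤ B → B ≤ h ^ 42 → 10 * B * (I + 2) ≤ h ^ 64 →
      M.E (fun τ => if Suc Q.b c w h B t I τ then
        (T (res Q.b (Strip c h B) τ) (c.rd (4 * h ^ 33) 0)
          (c.rd (4 * h ^ 33) (c.q (xyS Q.b c w h B t τ).1)) - c.q (xyS Q.b c w h B t τ).1) else 0)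
      ≤ C * M.E (fun τ => if Suc Q.b c w h B t I τ then S (c.q (xyS Q.b c w h B t τ).1) else 0) + C := by
  obtain ⟨Cd, hd0, Hclimb⟩ := strip_climb Q g hg c c₀ C₁ hc
  obtain ⟨he0, Hdep⟩ := xyS_dep c w
  have hC := c.one_le
  refine ⟨|Cd|, max (max hd0 he0) (2 * c.C + 1), abs_nonneg _, ?_⟩
  intro h hh R M hM hR B t I hB hB2 hBI
  have hh1 : hd0 ≤ h := (le_max_left _ _).trans ((le_max_left _ _).trans hh)
  have hh2 : he0 ≤ h := (le_max_right _ _).trans ((le_max_left _ _).trans hh)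
  have hh3 : 2 * c.C + 1 ≤ h := (le_max_right _ _).trans hh
  have hone : 1 ≤ h := by linarith
  have hh35 : h ≤ h ^ 35 := by
    calc h = h ^ 1 := (pow_one h).symm
      _ ≤ h ^ 35 := pow_le_pow_right₀ hone (by norm_num)
  have hBh : h ≤ B := hh35.trans hB
  set p : Env → Prop := fun τ => Suc Q.b c w h B t I τ with hp
  set X : Env → V := fun τ => (xyS Q.b c w h B t τ).1 with hX
  set G : V → Env → ℝ := fun x τ => T (res Q.b (Strip c h B) τ) (c.rd (4 * h ^ 33) 0)
    (c.rd (4 * h ^ 33) (c.q x)) with hG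
  have e1 := LFin_split M p X (fun τ x => G x τ - c.q x)
  have e2 := LFin_split M p X (fun _ x => S (c.q x))
  have e3 := LFin_split M p X (fun _ _ => 1)
  have hone' : M.E (fun τ => if p τ then (1 : ℝ) else 0) ≤ 1 := M.E_le_of_le fun τ _ => by
    split_ifs <;> norm_num
  show M.E (fun τ => if p τ then G (X τ) τ - c.q (X τ) else 0)
    ≤ |Cd| * M.E (fun τ => if p τ then S (c.q (X τ)) else 0) + |Cd|
  have key : ∀ x, M.E (fun τ => (if p τ ∧ X τ = x then (1 : ℝ) else 0) * (G x τ - c.q x))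
      ≤ |Cd| * M.E (fun τ => (if p τ ∧ X τ = x then (1 : ℝ) else 0) * S (c.q x))
        + |Cd| * M.E (fun τ => (if p τ ∧ X τ = x then (1 : ℝ) else 0) * 1) := by
    intro x
    set F : Env → ℝ := fun τ => if p τ ∧ X τ = x then (1 : ℝ) else 0 with hF
    have hF0 : 0 ≤ M.E F := M.E_nonneg fun τ _ => by
      simp only [hF]
      split_ifs <;> norm_num
    have hind : M.E (fun τ => F τ * G x τ) = M.E F * M.E (G x) := by
      refine hM.indep (WinE c h) (Strip c h B) (disj_WinE_Strip c hone B) ?_ F (G x) ?_ ?_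
      · rintro e (he | he)
        · exact he.2.trans hR
        · exact he.2.trans hR
      · intro τ τ' hττ
        have h1 := Hdep h hh2 Q.b B t I hB hB2 hBI x hττ
        simp only [hF]
        have h2 : (p τ ∧ X τ = x) = (p τ' ∧ X τ' = x) := h1
        rw [if_congr (iff_of_eq h2) rfl rfl]
      · exact dependsOn_T_res Q.b (Strip c h B) _ _
    have e4 : M.E (fun τ => F τ * (G x τ - c.q x)) = M.E F * (M.E (G x) - c.q x) := by
      have e5 : M.E (fun τ => F τ * (G x τ - c.q x)) = M.E (fun τ => F τ * G x τ - c.q x * F τ) :=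
        M.E_congr fun τ _ => by ring
      rw [e5, M.E_sub, M.E_mul_left, hind]
      ring
    have e6 : M.E (fun τ => F τ * S (c.q x)) = M.E F * S (c.q x) := by
      have e7 : M.E (fun τ => F τ * S (c.q x)) = M.E (fun τ => S (c.q x) * F τ) :=
        M.E_congr fun τ _ => by ring
      rw [e7, M.E_mul_left]
      ring
    have e8 : M.E (fun τ => F τ * 1) = M.E F := M.E_congr fun τ _ => mul_one _
    rw [e4, e6, e8]
    by_cases hne : ∃ τ, p τ ∧ X τ = x
    · obtain ⟨τ, hτ1, hτ2⟩ := hne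
      obtain ⟨x1, x2⟩ := LFin_xI (by linarith) hτ1
      have x1' : B ≤ c.q x := by rw [← hτ2]; exact x1
      have x2' : c.q x ≤ 10 * B * (I + 2) := by rw [← hτ2]; exact x2
      have h1 : M.E (G x) ≤ c.q x + Cd * S (c.q x) + Cd :=
        Hclimb h hh1 R M hM hR B x hB (by linarith) (by linarith)
      have h2 : Cd * S (c.q x) ≤ |Cd| * S (c.q x) := mul_le_mul_of_nonneg_right (le_abs_self _) (S_nonneg _)
      have h3 := le_abs_self Cd
      have h4 : M.E (G x) - c.q x ≤ |Cd| * S (c.q x) + |Cd| := by linarith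
      calc M.E F * (M.E (G x) - c.q x) ≤ M.E F * (|Cd| * S (c.q x) + |Cd|) :=
            mul_le_mul_of_nonneg_left h4 hF0
        _ = |Cd| * (M.E F * S (c.q x)) + |Cd| * M.E F := by ring
    · have h5 : M.E F = 0 := by
        have h6 : M.E F = M.E (fun _ => 0) := M.E_congr fun τ _ => by
          simp only [hF]
          rw [if_neg (fun h => hne ⟨τ, h⟩)]
        rw [h6, M.E_const]
      rw [h5]
      simp
  rw [e1, e2]
  calc ∑ x ∈ univ.image (fun ω : M.Ω => X (M.env ω)),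
        M.E (fun τ => (if p τ ∧ X τ = x then (1 : ℝ) else 0) * (G x τ - c.q x))
      ≤ ∑ x ∈ univ.image (fun ω : M.Ω => X (M.env ω)),
        (|Cd| * M.E (fun τ => (if p τ ∧ X τ = x then (1 : ℝ) else 0) * S (c.q x))
        + |Cd| * M.E (fun τ => (if p τ ∧ X τ = x then (1 : ℝ) else 0) * 1)) :=
        sum_le_sum fun x _ => key x
    _ = |Cd| * ∑ x ∈ univ.image (fun ω : M.Ω => X (M.env ω)),
          M.E (fun τ => (if p τ ∧ X τ = x then (1 : ℝ) else 0) * S (c.q x))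
        + |Cd| * M.E (fun τ => if p τ then (1 : ℝ) else 0) := by
        rw [sum_add_distrib, ← mul_sum, ← mul_sum, e3]
    _ ≤ |Cd| * ∑ x ∈ univ.image (fun ω : M.Ω => X (M.env ω)),
          M.E (fun τ => (if p τ ∧ X τ = x then (1 : ℝ) else 0) * S (c.q x)) + |Cd| := by
        have := mul_le_mul_of_nonneg_left hone' (abs_nonneg Cd)
        linarith

open Classical in
/-- The mean cost.  PROOF.  Split into: success and `CE` (`Af_le_good`), the rest (`Af_le`); the first cost: `strip_conn` (it is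
nonnegative up to a constant by `IsCone.low`, or keep it without the indicator: `T (res) 0 u₀ ≥ g(u₀) - ...`; simplest: bound the
indicator of the complement times `|T 0 u₀ - 4 h^33| ≤ C h^33` by `C h^33 P(not ..)`); the second cost: sum over the values
`x` of `x* = (xyS τ).1` (finitely many, in the box), `{Suc, x* = x}` is independent of the strip (`xyS_dep`, `disj_WinE_Strip`,
`Good.indep`), `strip_climb`; `C h^70` times the probability of the failure events. -/
theorem E_Af (Q : Par) (g : V → ℝ) (hg : IsMean Q g) (c : Crd) (w c₀ C₁ : ℝ)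
    (hc : IsCone g c c₀ C₁) : ∃ C L' h₀ : ℝ, 0 ≤ C ∧ 1 ≤ L' ∧ ∀ h ≥ h₀, ∀ (R : ℝ) (M : Mdl Q.a Q.b),
    Good Q g R M → h ^ 70 ≤ R → ∀ (B t : ℝ) (I : ℕ), h ^ 35 ≤ B → B ≤ h ^ 42 → 10 * B * (I + 2) ≤ h ^ 64 →
    h ^ 18 ≤ t → t ≤ h ^ 31 →
      M.E (Af Q.b c w h B t I) ≤ C * h ^ 17 - t +
        C * M.E (fun τ => if Suc Q.b c w h B t I τ then S (c.q (xyS Q.b c w h B t τ).1) else 0) +
        C * h ^ 70 * (M.P (fun τ => ¬ Suc Q.b c w h B t I τ) +
          M.P (fun τ => ¬ CE g (h ^ 68) (L' * h ^ 33) (h ^ 17) τ)) := by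
  obtain ⟨Ca, L', ha0, hL', Hgood⟩ := Af_le_good Q g c w c₀ C₁ hc
  obtain ⟨Cb, hb0, Hbad⟩ := Af_le Q c w
  obtain ⟨Cc, hc0, Hconn⟩ := strip_conn Q g hg c c₀ C₁ hc
  obtain ⟨Cd, hd0, hCd, Hclimb⟩ := LFin_climb Q g hg c w c₀ C₁ hc
  have hC := c.one_le
  have a1 := abs_nonneg Ca
  have a2 := abs_nonneg Cb
  have a3 := abs_nonneg Cc
  refine ⟨|Ca| + |Cb| + |Cc| + Cd + 10, L', max (max (max ha0 hb0) (max hc0 hd0)) (2 * c.C + 1),
    by positivity, hL', ?_⟩
  intro h hh R M hM hR B t I hB hB2 hBI ht1 ht2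
  have hh1 : ha0 ≤ h := (le_max_left _ _).trans ((le_max_left _ _).trans ((le_max_left _ _).trans hh))
  have hh2 : hb0 ≤ h := (le_max_right _ _).trans ((le_max_left _ _).trans ((le_max_left _ _).trans hh))
  have hh3 : hc0 ≤ h := (le_max_left _ _).trans ((le_max_right _ _).trans ((le_max_left _ _).trans hh))
  have hh4 : hd0 ≤ h := (le_max_right _ _).trans ((le_max_right _ _).trans ((le_max_left _ _).trans hh))
  have hh5 : 2 * c.C + 1 ≤ h := (le_max_right _ _).trans hh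
  have hone : 1 ≤ h := by linarith
  have hh35 : h ≤ h ^ 35 := by
    calc h = h ^ 1 := (pow_one h).symm
      _ ≤ h ^ 35 := pow_le_pow_right₀ hone (by norm_num)
  have hBh : h ≤ B := hh35.trans hB
  have q17 : 1 ≤ h ^ 17 := one_le_pow₀ hone
  have q17' : h ^ 17 ≤ h ^ 70 := pow_le_pow_right₀ hone (by norm_num)
  have q33 : h ^ 33 ≤ h ^ 70 := pow_le_pow_right₀ hone (by norm_num)
  have q31 : h ^ 31 ≤ h ^ 70 := pow_le_pow_right₀ hone (by norm_num)
  have q64 : h ^ 64 ≤ h ^ 70 := pow_le_pow_right₀ hone (by norm_num)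
  have q70 : 0 ≤ h ^ 70 := by positivity
  set p : Env → Prop := fun τ => Suc Q.b c w h B t I τ with hp
  set e : Env → Prop := fun τ => CE g (h ^ 68) (L' * h ^ 33) (h ^ 17) τ with he
  set X : Env → V := fun τ => (xyS Q.b c w h B t τ).1 with hX
  set U0 : Env → ℝ := fun τ => T (res Q.b (Strip c h B) τ) 0 (c.rd (4 * h ^ 33) 0) with hU0
  set Φ : Env → ℝ := fun τ => if Suc Q.b c w h B t I τ then
        (T (res Q.b (Strip c h B) τ) (c.rd (4 * h ^ 33) 0)
          (c.rd (4 * h ^ 33) (c.q (xyS Q.b c w h B t τ).1)) - c.q (xyS Q.b c w h B t τ).1) else 0 with hΦ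
  set D : ℝ := (|Ca| + |Cb| + 10) * h ^ 70 with hD
  have hD1 : |Cb| * h ^ 70 + 4 * h ^ 33 + h ^ 64 + |Ca| * h ^ 17 + h ^ 31 ≤ D := by
    have := mul_le_mul_of_nonneg_left q17' a1
    rw [hD]
    nlinarith
  set i1 : Env → ℝ := fun τ => if ¬ p τ then (1 : ℝ) else 0 with hi1
  set i2 : Env → ℝ := fun τ => if ¬ e τ then (1 : ℝ) else 0 with hi2
  have hD0 : 0 ≤ D := by rw [hD]; positivity
  have pw : ∀ τ, Bd Q.a Q.b τ → Af Q.b c w h B t I τ ≤
      (U0 τ - 4 * h ^ 33) + Φ τ + ((|Ca| * h ^ 17 - t) + D * (i1 τ + i2 τ)) := by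
    intro τ hτ
    have hres : Bd Q.a Q.b (res Q.b (Strip c h B) τ) := Bd_res Q.hab.le hτ _
    have hU : 0 ≤ U0 τ := T_nonneg hres Q.ha.le _ _
    have hCa : Ca * h ^ 17 ≤ |Ca| * h ^ 17 := mul_le_mul_of_nonneg_right (le_abs_self _) (by linarith)
    have hCb : Cb * h ^ 70 ≤ |Cb| * h ^ 70 := mul_le_mul_of_nonneg_right (le_abs_self _) q70
    have hCa0 : 0 ≤ |Ca| * h ^ 17 := by positivity
    by_cases hpτ : p τ
    · have hΦτ : Φ τ = T (res Q.b (Strip c h B) τ) (c.rd (4 * h ^ 33) 0)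
          (c.rd (4 * h ^ 33) (c.q (xyS Q.b c w h B t τ).1)) - c.q (xyS Q.b c w h B t τ).1 := if_pos hpτ
      have hT : 0 ≤ T (res Q.b (Strip c h B) τ) (c.rd (4 * h ^ 33) 0)
          (c.rd (4 * h ^ 33) (c.q (xyS Q.b c w h B t τ).1)) := T_nonneg hres Q.ha.le _ _
      have h1 : i1 τ = 0 := if_neg (not_not.2 hpτ)
      by_cases heτ : e τ
      · have h2 : i2 τ = 0 := if_neg (not_not.2 heτ)
        have h3 := Hgood h hh1 B t I hB hB2 hBI τ hτ heτ hpτ
        rw [h1, h2, hΦτ]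
        linarith
      · have h2 : i2 τ = 1 := if_pos heτ
        have h3 := Hbad h hh2 B t I hB hB2 hBI τ hτ
        have h4 := (LFin_xI (by linarith) hpτ).2
        rw [h1, h2, hΦτ]
        linarith
    · have h1 : i1 τ = 1 := if_pos hpτ
      have hΦτ : Φ τ = 0 := if_neg hpτ
      have h2 : 0 ≤ i2 τ := by
        simp only [hi2]
        split_ifs <;> norm_num
      have h3 := Hbad h hh2 B t I hB hB2 hBI τ hτ
      have h4 : 0 ≤ D * i2 τ := mul_nonneg hD0 h2
      have h5 : 0 ≤ h ^ 64 := by positivity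
      rw [h1, hΦτ]
      linarith
  have hE := M.E_mono pw
  have e1 : M.E (fun τ => (U0 τ - 4 * h ^ 33) + Φ τ + ((|Ca| * h ^ 17 - t) + D * (i1 τ + i2 τ)))
      = (M.E U0 - 4 * h ^ 33) + M.E Φ + ((|Ca| * h ^ 17 - t) +
        D * (M.P (fun τ => ¬ p τ) + M.P (fun τ => ¬ e τ))) := by
    have j1 : M.E i1 = M.P (fun τ => ¬ p τ) := by
      rw [M.P_def]
      refine M.E_congr fun τ _ => ?_
      by_cases h : p τ <;> simp [hi1, h]
    have j2 : M.E i2 = M.P (fun τ => ¬ e τ) := by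
      rw [M.P_def]
      refine M.E_congr fun τ _ => ?_
      by_cases h : e τ <;> simp [hi2, h]
    rw [M.E_add, M.E_add, M.E_sub, M.E_const, M.E_add, M.E_const, M.E_mul_left, M.E_add, j1, j2]
  rw [e1] at hE
  have h1 := Hconn h hh3 R M hM hR B hB
  have h2 := Hclimb h hh4 R M hM hR B t I hB hB2 hBI
  have h3 : Cc * h ^ 17 ≤ |Cc| * h ^ 17 := mul_le_mul_of_nonneg_right (le_abs_self _) (by linarith)
  set P1 := M.P (fun τ => ¬ p τ) with hP1
  set P2 := M.P (fun τ => ¬ e τ) with hP2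
  have hP1' : 0 ≤ P1 := M.P_nonneg _
  have hP2' : 0 ≤ P2 := M.P_nonneg _
  set ES := M.E (fun τ => if Suc Q.b c w h B t I τ then S (c.q (xyS Q.b c w h B t τ).1) else 0) with hES
  have hES0 : 0 ≤ ES := M.E_nonneg fun τ _ => by
    split_ifs
    · exact S_nonneg _
    · exact le_rfl
  have h4 : Cd * ES ≤ (|Ca| + |Cb| + |Cc| + Cd + 10) * ES := mul_le_mul_of_nonneg_right (by linarith) hES0
  have h5 : D * (P1 + P2) ≤ (|Ca| + |Cb| + |Cc| + Cd + 10) * h ^ 70 * (P1 + P2) := by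
    refine mul_le_mul_of_nonneg_right ?_ (by linarith)
    rw [hD]
    exact mul_le_mul_of_nonneg_right (by linarith) q70
  have h6 : |Cc| * h ^ 17 + |Ca| * h ^ 17 + Cd ≤ (|Ca| + |Cb| + |Cc| + Cd + 10) * h ^ 17 := by nlinarith
  have h7 : M.E U0 ≤ 4 * h ^ 33 + Cc * h ^ 17 := h1
  have h8 : M.E Φ ≤ Cd * ES + Cd := h2
  linarith

private theorem LFin_xq {b : ℝ} {c : Crd} {w h B t : ℝ} {I : ℕ} {τ : Env} (hB : 2 * c.C ≤ B)
    (hS : Suc b c w h B t I τ) :
    B ≤ c.q (xyS b c w h B t τ).1 ∧ c.q (xyS b c w h B t τ).1 ≤ 20 * B * ((iS b c w h B t τ : ℝ) + 2) := by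
  obtain ⟨_, _, hLP⟩ := xyS_spec hS
  obtain ⟨_, h2, _⟩ := hLP
  have hC := c.one_le
  have hi : (0 : ℝ) ≤ (iS b c w h B t τ : ℝ) := Nat.cast_nonneg _
  have ho := c.rd_q (8 * h ^ 33) (10 * B * ((iS b c w h B t τ : ℝ) + 1))
  rw [map_sub] at h2
  unfold an at h2
  rw [abs_le] at h2 ho
  have hBi : 0 ≤ B * (iS b c w h B t τ : ℝ) := mul_nonneg (by linarith) hi
  constructor
  · nlinarith
  · nlinarith

open Classical in
/-- PROOF.  `c.q x* ≤ 10 B (iS + 1) + B + C ≤ 20 B (iS + 2)`, `S` monotone, `S x ≤ √(x / (35 log h))` for `x ≥ h^35`, Cauchy-Schwarz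
(`E √Z ≤ √(E Z)`), `iS_mean`. -/
theorem E_S_le (Q : Par) (g : V → ℝ) (c : Crd) (w : ℝ) : ∃ C h₀ : ℝ, ∀ h ≥ h₀,
    ∀ (R : ℝ) (M : Mdl Q.a Q.b), Good Q g R M → h ^ 70 ≤ R → ∀ (B t : ℝ) (I : ℕ), h ^ 35 ≤ B →
    B ≤ h ^ 42 → 10 * B * (I + 2) ≤ h ^ 64 → 0 < M.P (GW Q.b c w h B t 0) →
      M.E (fun τ => if Suc Q.b c w h B t I τ then S (c.q (xyS Q.b c w h B t τ).1) else 0)
        ≤ C * Real.sqrt (B / (M.P (GW Q.b c w h B t 0) * Real.log h)) := by
  have hC := c.one_le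
  obtain ⟨h₀, hI⟩ := iS_mean Q g c w
  refine ⟨Real.sqrt 40, max h₀ (2 * c.C + 2), ?_⟩
  intro h hh R M hM hR B t I hB hB2 hBI hq
  have hh0 : h₀ ≤ h := (le_max_left _ _).trans hh
  have hh1 : 2 * c.C + 2 ≤ h := (le_max_right _ _).trans hh
  have hone : 1 ≤ h := by linarith
  have hlog : 0 < Real.log h := Real.log_pos (by linarith)
  have hh35 : h ≤ h ^ 35 := by
    calc h = h ^ 1 := (pow_one h).symm
      _ ≤ h ^ 35 := pow_le_pow_right₀ hone (by norm_num)
  have hBh : h ≤ B := hh35.trans hB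
  have hB0 : 0 < B := by linarith
  set q : ℝ := M.P (GW Q.b c w h B t 0) with hq'
  set Z : Env → ℝ := fun τ => if Suc Q.b c w h B t I τ then (iS Q.b c w h B t τ : ℝ) + 2 else 0 with hZ
  have hZ0 : ∀ τ, 0 ≤ Z τ := by
    intro τ
    simp only [hZ]
    split_ifs
    · positivity
    · exact le_rfl
  have h1 : ∀ τ, Bd Q.a Q.b τ → (if Suc Q.b c w h B t I τ then S (c.q (xyS Q.b c w h B t τ).1) else 0)
      ≤ Real.sqrt (20 * B / Real.log h) * Real.sqrt (Z τ) := by
    intro τ _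
    by_cases hS : Suc Q.b c w h B t I τ
    · obtain ⟨x1, x2⟩ := LFin_xq (by linarith) hS
      rw [if_pos hS, ← Real.sqrt_mul (by positivity)]
      simp only [hZ, if_pos hS]
      unfold S
      apply Real.sqrt_le_sqrt
      set X : ℝ := c.q (xyS Q.b c w h B t τ).1
      have hX0 : 0 < X := by linarith
      have l1 : Real.log h ≤ Real.log (X + 2) := Real.log_le_log (by linarith) (by linarith)
      calc X / Real.log (X + 2) ≤ X / Real.log h := div_le_div_of_nonneg_left hX0.le hlog l1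
        _ ≤ 20 * B * ((iS Q.b c w h B t τ : ℝ) + 2) / Real.log h :=
            div_le_div_of_nonneg_right x2 hlog.le
        _ = 20 * B / Real.log h * ((iS Q.b c w h B t τ : ℝ) + 2) := by ring
    · rw [if_neg hS]
      positivity
  have h2 : M.E (fun τ => Real.sqrt (Z τ)) ≤ Real.sqrt (M.E Z) := by
    have h3 := Ex_abs_le_sqrt (fun ω => Real.sqrt (Z (M.env ω)))
    have e1 : Ex (fun ω => |Real.sqrt (Z (M.env ω))|) = M.E (fun τ => Real.sqrt (Z τ)) :=
      Ex_congr fun ω => abs_of_nonneg (Real.sqrt_nonneg _)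
    have e2 : Ex (fun ω => Real.sqrt (Z (M.env ω)) ^ 2) = M.E Z :=
      Ex_congr fun ω => Real.sq_sqrt (hZ0 _)
    rwa [e1, e2] at h3
  have h3 : M.E Z ≤ 2 / q := hI h hh0 R M hM hR B t I hB hB2 hBI hq
  calc M.E (fun τ => if Suc Q.b c w h B t I τ then S (c.q (xyS Q.b c w h B t τ).1) else 0)
      ≤ M.E (fun τ => Real.sqrt (20 * B / Real.log h) * Real.sqrt (Z τ)) := M.E_mono h1
    _ = Real.sqrt (20 * B / Real.log h) * M.E (fun τ => Real.sqrt (Z τ)) := M.E_mul_left _ _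
    _ ≤ Real.sqrt (20 * B / Real.log h) * Real.sqrt (2 / q) :=
        mul_le_mul_of_nonneg_left (h2.trans (Real.sqrt_le_sqrt h3)) (Real.sqrt_nonneg _)
    _ = Real.sqrt 40 * Real.sqrt (B / (q * Real.log h)) := by
        rw [← Real.sqrt_mul (by positivity), ← Real.sqrt_mul (by norm_num)]
        congr 1
        field_simp
        ring

private theorem LFin_exp (C : ℝ) (hC : 1 ≤ C) : ∃ h₀ : ℝ, 1 ≤ h₀ ∧ ∀ H : ℝ, h₀ ≤ H →
    C * H ^ 272 * Real.exp (-(Real.sqrt H / C)) ≤ 1 / H ^ 100 := by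
  have h1 := Real.tendsto_pow_mul_exp_neg_atTop_nhds_zero 744
  have h2 : Filter.Tendsto
      (fun x : ℝ => C * C ^ 744 * (x ^ 744 * Real.exp (-x))) Filter.atTop (nhds 0) := by
    have := h1.const_mul (C * C ^ 744)
    rwa [mul_zero] at this
  have h3 := h2.eventually_le_const (show (0 : ℝ) < 1 by norm_num)
  obtain ⟨x₀, hx₀⟩ := Filter.eventually_atTop.1 h3
  refine ⟨max 1 ((C * x₀) ^ 2), le_max_left _ _, fun H hH => ?_⟩
  have hH1 : 1 ≤ H := (le_max_left _ _).trans hH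
  have hH0 : 0 < H := by linarith
  have hC0 : 0 < C := by linarith
  have hx : x₀ ≤ Real.sqrt H / C := by
    rw [le_div_iff₀ hC0]
    apply Real.le_sqrt_of_sq_le
    rw [mul_comm x₀ C]
    exact (le_max_right _ _).trans hH
  have h4 := hx₀ _ hx
  have h5 : C ^ 744 * (Real.sqrt H / C) ^ 744 = H ^ 372 := by
    rw [← mul_pow, mul_div_cancel₀ _ hC0.ne', show (744 : ℕ) = 2 * 372 by norm_num, pow_mul,
      Real.sq_sqrt hH0.le]
  rw [le_div_iff₀ (by positivity)]
  calc C * H ^ 272 * Real.exp (-(Real.sqrt H / C)) * H ^ 100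
      = C * H ^ 372 * Real.exp (-(Real.sqrt H / C)) := by ring
    _ = C * (C ^ 744 * (Real.sqrt H / C) ^ 744) * Real.exp (-(Real.sqrt H / C)) := by rw [h5]
    _ = C * C ^ 744 * ((Real.sqrt H / C) ^ 744 * Real.exp (-(Real.sqrt H / C))) := by ring
    _ ≤ 1 := h4

/-- Powers of a large number. -/
private theorem LFin_pow {h A : ℝ} (hh : 1 ≤ h) (hA : A ≤ h) {m n : ℕ} (hmn : m + 1 ≤ n) :
    A * h ^ m ≤ h ^ n := by
  have h0 : 0 ≤ h ^ m := by positivity
  calc A * h ^ m ≤ h * h ^ m := mul_le_mul_of_nonneg_right hA h0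
    _ = h ^ (m + 1) := by ring
    _ ≤ h ^ n := pow_le_pow_right₀ hh hmn

/-- The window event is rare.  PROOF.  Suppose `q = P(GW) > C B/(t² log h)`; then `q ≥ h^-30`; `I = ⌈1000 log h / q⌉`,
`10 B (I + 2) ≤ h^64`; `no_good`: `P(¬ Suc) ≤ exp(-q I) ≤ h^-1000`; `conc_event`; `E_Af`, `E_S_le`:
`E Af ≤ C h^17 - t + C √(B/(q log h)) + small < -1`, contradiction to `flat` with `H = h^70`, `β = 4 B`,
`Yf_mem`, `Yf_dep`, `Af_dep`, `T_le_res`. -/
theorem GW_rare (Q : Par) (g : V → ℝ) (hg : IsMean Q g) (c : Crd) (w c₀ C₁ : ℝ)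
    (hc : IsCone g c c₀ C₁) : ∃ C h₀ : ℝ, ∀ h ≥ h₀, ∀ (R : ℝ) (M : Mdl Q.a Q.b), Good Q g R M →
    h ^ 1000 ≤ R → ∀ (B t : ℝ), h ^ 35 ≤ B → B ≤ h ^ 42 → h ^ 18 ≤ t → t ≤ h ^ 31 →
      M.P (GW Q.b c w h B t 0) ≤ C * B / (t ^ 2 * Real.log h) := by
  classical
  obtain ⟨CA, L', hA, hCA, hL', HA⟩ := E_Af Q g hg c w c₀ C₁ hc
  obtain ⟨CS, hS, HS⟩ := E_S_le Q g c w
  obtain ⟨hN, HN⟩ := no_good Q g c w
  obtain ⟨K, hK, hce⟩ := conc_event Q
  obtain ⟨H₀, hH₀, hflat⟩ := flat Q g c hg (fun z => by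
    have h1 := hc.low z
    have h2 : 0 ≤ c₀ * max (max (-c.p z) (-c.q z)) 0 := mul_nonneg hc.pos.le (le_max_right _ _)
    linarith)
  obtain ⟨hy1, HY1⟩ := Yf_mem c w
  obtain ⟨hy2, HY2⟩ := Yf_dep c w
  obtain ⟨hy3, HY3⟩ := Af_dep c w
  have hsL : 1 ≤ Real.sqrt L' := by
    rw [Real.le_sqrt (by norm_num) (by linarith)]
    linarith
  have hKL : 1 ≤ K * Real.sqrt L' := by nlinarith
  obtain ⟨hx, hhx, hexp⟩ := LFin_exp (K * Real.sqrt L') hKL
  set A : ℝ := CA * |CS| with hAd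
  have hA0 : 0 ≤ A := mul_nonneg hCA (abs_nonneg _)
  set C : ℝ := 20000 + (4 * A) ^ 2 with hC
  have hC1 : 20000 ≤ C := by rw [hC]; nlinarith [sq_nonneg (4 * A)]
  have hCpos : 0 < C := by linarith
  refine ⟨C, max (max (max hA hS) (max hN H₀)) (max (max (max hy1 hy2) (max hy3 hx)) (8 + 4 * CA + L')), ?_⟩
  intro h hh R M hM hR B t hB hB2 ht1 ht2
  have g1 : hA ≤ h := (le_max_left _ _).trans ((le_max_left _ _).trans ((le_max_left _ _).trans hh))
  have g2 : hS ≤ h := (le_max_right _ _).trans ((le_max_left _ _).trans ((le_max_left _ _).trans hh))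
  have g3 : hN ≤ h := (le_max_left _ _).trans ((le_max_right _ _).trans ((le_max_left _ _).trans hh))
  have g4 : H₀ ≤ h := (le_max_right _ _).trans ((le_max_right _ _).trans ((le_max_left _ _).trans hh))
  have g5 : hy1 ≤ h := (le_max_left _ _).trans ((le_max_left _ _).trans ((le_max_left _ _).trans ((le_max_right _ _).trans hh)))
  have g6 : hy2 ≤ h := (le_max_right _ _).trans ((le_max_left _ _).trans ((le_max_left _ _).trans ((le_max_right _ _).trans hh)))
  have g7 : hy3 ≤ h := (le_max_left _ _).trans ((le_max_right _ _).trans ((le_max_left _ _).trans ((le_max_right _ _).trans hh)))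
  have g8 : hx ≤ h := (le_max_right _ _).trans ((le_max_right _ _).trans ((le_max_left _ _).trans ((le_max_right _ _).trans hh)))
  have g9 : 8 + 4 * CA + L' ≤ h := (le_max_right _ _).trans ((le_max_right _ _).trans hh)
  have hone : 1 ≤ h := by linarith
  have hpos : 0 < h := by linarith
  have h8 : 8 ≤ h := by linarith
  have hlog : 0 < Real.log h := Real.log_pos (by linarith)
  have hlogh : Real.log h ≤ h := (Real.log_le_sub_one_of_pos hpos).trans (by linarith)
  have p35 : 0 < h ^ 35 := by positivity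
  have hB0 : 0 < B := p35.trans_le hB
  have p18 : 0 < h ^ 18 := by positivity
  have ht0 : 0 < t := p18.trans_le ht1
  have hR70 : h ^ 70 ≤ R := (pow_le_pow_right₀ hone (by norm_num)).trans hR
  by_contra hcon
  push Not at hcon
  set q : ℝ := M.P (GW Q.b c w h B t 0) with hq
  have hq0 : 0 < q := lt_trans (by positivity) hcon
  have hq1 : q ≤ 1 := M.P_le_one _
  have htl : 0 < t ^ 2 * Real.log h := by positivity
  -- `B / (q log h) < t² / C`
  have hBq : C * B < q * (t ^ 2 * Real.log h) := by rwa [div_lt_iff₀ htl] at hcon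
  have hBq1 : B / (q * Real.log h) ≤ t ^ 2 / C := by
    rw [div_le_div_iff₀ (by positivity) hCpos]
    nlinarith
  have hBq2 : B / q ≤ t ^ 2 * Real.log h / C := by
    rw [div_le_div_iff₀ hq0 hCpos]
    nlinarith
  -- the number of windows
  set I : ℕ := ⌈1000 * Real.log h / q⌉₊ with hI
  have hI1 : 1000 * Real.log h / q ≤ I := Nat.le_ceil _
  have hI2 : (I : ℝ) ≤ 1000 * Real.log h / q + 1 := (Nat.ceil_lt_add_one (by positivity)).le
  have p62 : t ^ 2 ≤ h ^ 62 := by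
    calc t ^ 2 ≤ (h ^ 31) ^ 2 := pow_le_pow_left₀ ht0.le ht2 2
      _ = h ^ 62 := by ring
  have hBI : 10 * B * (I + 2) ≤ h ^ 64 := by
    have k1 : 10 * B * (I + 2) ≤ 10000 * Real.log h * (B / q) + 30 * B := by
      have k2 : 10 * B * ((I : ℝ) + 2) ≤ 10 * B * (1000 * Real.log h / q + 3) :=
        mul_le_mul_of_nonneg_left (by linarith) (by positivity)
      have k3 : 10 * B * (1000 * Real.log h / q + 3) = 10000 * Real.log h * (B / q) + 30 * B := by
        field_simp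
        ring
      linarith
    have k4 : 10000 * Real.log h * (B / q) ≤ h ^ 64 / 2 := by
      have k5 : B / q ≤ h ^ 62 * h / 20000 := by
        refine hBq2.trans ?_
        refine div_le_div₀ (by positivity) ?_ (by norm_num) hC1
        exact mul_le_mul p62 hlogh hlog.le (by positivity)
      calc 10000 * Real.log h * (B / q) ≤ 10000 * h * (h ^ 62 * h / 20000) := by
            refine mul_le_mul ?_ k5 (by positivity) (by positivity)
            linarith
        _ = h ^ 64 / 2 := by ring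
    have k6 : 30 * B ≤ h ^ 64 / 2 := by
      have k7 : (60 : ℝ) ≤ h ^ 22 := by
        calc (60 : ℝ) ≤ 8 ^ 2 := by norm_num
          _ ≤ h ^ 2 := pow_le_pow_left₀ (by norm_num) h8 2
          _ ≤ h ^ 22 := pow_le_pow_right₀ hone (by norm_num)
      have k8 : h ^ 64 = h ^ 22 * h ^ 42 := by ring
      have k9 : 0 ≤ h ^ 42 := by positivity
      nlinarith
    linarith
  -- the failure probabilities
  have hP1 : M.P (fun τ => ¬ Suc Q.b c w h B t I τ) ≤ 1 / h ^ 100 := by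
    rw [HN h g3 R M hM hR70 B t hB hB2 I hBI]
    have k1 : 1 - q ≤ Real.exp (-q) := by
      have := Real.add_one_le_exp (-q)
      linarith
    have k2 : (1 - q) ^ I ≤ Real.exp (-q) ^ I := pow_le_pow_left₀ (by linarith) k1 I
    refine k2.trans ?_
    rw [← Real.exp_nat_mul]
    have k3 : 100 * Real.log h ≤ I * q := by
      have : 1000 * Real.log h ≤ I * q := by
        rwa [div_le_iff₀ hq0] at hI1
      linarith
    have k4 : Real.exp (-(100 * Real.log h)) = 1 / h ^ 100 := by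
      rw [Real.exp_neg, one_div]
      congr 1
      have : (100 : ℝ) * Real.log h = Real.log (h ^ 100) := by
        rw [Real.log_pow]
        norm_num
      rw [this, Real.exp_log (by positivity)]
    rw [← k4]
    apply Real.exp_le_exp.2
    linarith
  have hP2 : M.P (fun τ => ¬ CE g (h ^ 68) (L' * h ^ 33) (h ^ 17) τ) ≤ 1 / h ^ 100 := by
    have k1 : L' * h ^ 33 ≤ R := by
      have := LFin_pow (A := L') (m := 33) (n := 70) hone (by linarith) (by norm_num)
      linarith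
    have k2 : 1 ≤ L' * h ^ 33 := by
      have : 1 ≤ h ^ 33 := one_le_pow₀ hone
      nlinarith
    have k3 : 2 ≤ h ^ 17 := by
      calc (2 : ℝ) ≤ h := by linarith
        _ = h ^ 1 := (pow_one h).symm
        _ ≤ h ^ 17 := pow_le_pow_right₀ hone (by norm_num)
    refine (hce g R M hM (h ^ 68) (L' * h ^ 33) (h ^ 17) (one_le_pow₀ hone) k2 k1 k3).trans ?_
    have hs : 0 < Real.sqrt h := Real.sqrt_pos.2 hpos
    have hsL0 : 0 < Real.sqrt L' := by linarith
    have e1 : Real.sqrt (L' * h ^ 33) = Real.sqrt L' * (h ^ 16 * Real.sqrt h) := by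
      rw [Real.sqrt_mul (by linarith), show h ^ 33 = (h ^ 16) ^ 2 * h by ring, Real.sqrt_mul (by positivity),
        Real.sqrt_sq (by positivity)]
    have e2 : h ^ 17 / (K * Real.sqrt (L' * h ^ 33)) = Real.sqrt h / (K * Real.sqrt L') := by
      rw [e1, div_eq_div_iff (by positivity) (by positivity)]
      have : Real.sqrt h * Real.sqrt h = h := Real.mul_self_sqrt hpos.le
      calc h ^ 17 * (K * Real.sqrt L') = K * Real.sqrt L' * h ^ 16 * h := by ring
        _ = K * Real.sqrt L' * h ^ 16 * (Real.sqrt h * Real.sqrt h) := by rw [this]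
        _ = Real.sqrt h * (K * (Real.sqrt L' * (h ^ 16 * Real.sqrt h))) := by ring
    rw [e2]
    refine le_trans ?_ (hexp h g8)
    refine mul_le_mul_of_nonneg_right ?_ (Real.exp_pos _).le
    have k4 : 0 ≤ h ^ 272 := by positivity
    calc K * (h ^ 68) ^ 4 = K * h ^ 272 := by ring
      _ ≤ K * Real.sqrt L' * h ^ 272 := mul_le_mul_of_nonneg_right (by nlinarith) k4
  -- the mean cost
  have hE := HA h g1 R M hM hR70 B t I hB hB2 hBI ht1 ht2
  have hES := HS h g2 R M hM hR70 B t I hB hB2 hBI hq0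
  have hES2 : CA * M.E (fun τ => if Suc Q.b c w h B t I τ then S (c.q (xyS Q.b c w h B t τ).1) else 0)
      ≤ t / 4 := by
    have k1 : CS * Real.sqrt (B / (q * Real.log h)) ≤ |CS| * Real.sqrt (t ^ 2 / C) :=
      mul_le_mul (le_abs_self _) (Real.sqrt_le_sqrt hBq1) (Real.sqrt_nonneg _) (abs_nonneg _)
    have k2 : A * Real.sqrt (t ^ 2 / C) ≤ t / 4 := by
      have k3 : (4 * A) * Real.sqrt (t ^ 2 / C) ≤ t := by
        have k4 : (4 * A) * Real.sqrt (t ^ 2 / C) = Real.sqrt ((4 * A) ^ 2 * (t ^ 2 / C)) := by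
          rw [Real.sqrt_mul (sq_nonneg _), Real.sqrt_sq (by positivity)]
        rw [k4, Real.sqrt_le_left ht0.le, mul_div_assoc', div_le_iff₀ hCpos]
        have k5 : (4 * A) ^ 2 ≤ C := by rw [hC]; linarith
        have k6 : 0 ≤ t ^ 2 := sq_nonneg t
        nlinarith
      linarith
    calc CA * M.E (fun τ => if Suc Q.b c w h B t I τ then S (c.q (xyS Q.b c w h B t τ).1) else 0)
        ≤ CA * (|CS| * Real.sqrt (t ^ 2 / C)) := mul_le_mul_of_nonneg_left (hES.trans k1) hCA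
      _ = A * Real.sqrt (t ^ 2 / C) := by rw [hAd]; ring
      _ ≤ t / 4 := k2
  have h17 : CA * h ^ 17 ≤ t / 4 := by
    have k1 : h ^ 18 = h * h ^ 17 := by ring
    have k2 : 0 ≤ h ^ 17 := by positivity
    nlinarith
  have h70 : CA * h ^ 70 * (M.P (fun τ => ¬ Suc Q.b c w h B t I τ) +
      M.P (fun τ => ¬ CE g (h ^ 68) (L' * h ^ 33) (h ^ 17) τ)) ≤ 1 := by
    have k1 : CA * h ^ 70 * (M.P (fun τ => ¬ Suc Q.b c w h B t I τ) +
      M.P (fun τ => ¬ CE g (h ^ 68) (L' * h ^ 33) (h ^ 17) τ)) ≤ CA * h ^ 70 * (2 / h ^ 100) := by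
      refine mul_le_mul_of_nonneg_left ?_ (by positivity)
      have : 2 / h ^ 100 = 1 / h ^ 100 + 1 / h ^ 100 := by ring
      linarith
    refine k1.trans ?_
    rw [mul_div_assoc', div_le_one (by positivity)]
    have k2 : h ^ 100 = h ^ 30 * h ^ 70 := by ring
    have k3 : 2 * CA ≤ h ^ 30 := by
      calc 2 * CA ≤ h := by linarith
        _ = h ^ 1 := (pow_one h).symm
        _ ≤ h ^ 30 := pow_le_pow_right₀ hone (by norm_num)
    have k4 : 0 ≤ h ^ 70 := by positivity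
    nlinarith
  have ht8 : 8 ≤ t := by
    calc (8 : ℝ) ≤ h := h8
      _ = h ^ 1 := (pow_one h).symm
      _ ≤ h ^ 18 := pow_le_pow_right₀ hone (by norm_num)
      _ ≤ t := ht1
  -- the flat principle
  have hH : H₀ ≤ h ^ 70 := by
    calc H₀ ≤ h := g4
      _ = h ^ 1 := (pow_one h).symm
      _ ≤ h ^ 70 := pow_le_pow_right₀ hone (by norm_num)
  have hR2 : 8 * (h ^ 70) ^ 12 ≤ R := by
    have k1 := LFin_pow (A := 8) (m := 840) (n := 1000) hone h8 (by norm_num)
    calc 8 * (h ^ 70) ^ 12 = 8 * h ^ 840 := by ring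
      _ ≤ h ^ 1000 := k1
      _ ≤ R := hR
  have hfl := hflat (h ^ 70) hH R M hR2 hM (4 * B) (Yf Q.b c w h B t I) (Af Q.b c w h B t I) (by positivity)
    (HY1 h g5 Q.b B t I hB hB2 hBI) (HY2 h g6 Q.b B t I hB hB2 hBI) (HY3 h g7 Q.b B t I hB hB2 hBI) (by
      intro τ hτ
      have k1 := T_le_res Q.ha.le hτ (QB c h B) 0 (Yf Q.b c w h B t I τ)
      unfold Af Crd.rho
      linarith)
  linarith

/-- A lane at `α` is a lane at `0` of the shifted environment. -/
private theorem LFin_lane_sh (c : Crd) {w h α B t : ℝ} (hh : 2 * c.C ≤ h) (hh1 : 1 ≤ h) (hB : c.C ≤ B) {τ : Env}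
    (hL : Lane c w (h ^ 33 / 2) (3 / 2 * h ^ 60) α B t τ) :
    Lane c (w + c.C) (h ^ 33) (2 * h ^ 60) 0 (2 * B) t (sh (c.rd α 0) τ) := by
  obtain ⟨x, y, h1, h2, h3, h4, h5, h6⟩ := hL
  have o1 := c.rd_p α 0
  have o2 := c.rd_q α 0
  rw [sub_zero] at o2
  have p33 : 2 * c.C ≤ h ^ 33 := by
    have := LFin_pow (m := 0) (n := 33) hh1 hh (by norm_num)
    simpa using this
  have p60 : 2 * c.C ≤ h ^ 60 := by
    have := LFin_pow (m := 0) (n := 60) hh1 hh (by norm_num)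
    simpa using this
  rw [abs_le] at h1 h2 h5 o1 o2
  refine ⟨x - c.rd α 0, y - c.rd α 0, ?_, ?_, ?_, ?_, ?_, ?_⟩
  · rw [map_sub, sub_zero, abs_le]
    constructor <;> linarith
  · rw [map_sub, abs_le]
    constructor <;> linarith
  · rw [map_sub]
    linarith
  · rw [map_sub]
    linarith
  · rw [map_sub, abs_le]
    constructor <;> linarith
  · rw [T_sh, sub_add_cancel, sub_add_cancel, sub_sub_sub_cancel_right]
    exact h6

/-- **Lanes of very negative excess are rare.**  PROOF.  Shift by `o = rd(α, 0)` (`Good.P_sh`, `T_sh`): a lane at `α` becomes a lane at `0`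
with `w + C`, `B + C ≤ 2 B`.  For `t ≤ h^31`: `lane_GW` on the event `CE g (h^66) (h^61) (h^32)` (`conc_event`: the complement has
probability `≤ h^-200`), `GW_rare`.  For `t > h^31`: a lane contradicts `CE g (h^66) (h^61) (h^31/2)` (`g ≥ ρ` by
`IsCone.low`), whose complement has probability `≤ C h^264 exp(-h^31/(C h^30.5)) ≤ h^-100`. -/
theorem lanes (Q : Par) (g : V → ℝ) (hg : IsMean Q g) (c : Crd) (w c₀ C₁ : ℝ)
    (hc : IsCone g c c₀ C₁) : ∃ C h₀ : ℝ, 1 ≤ C ∧ ∀ h ≥ h₀, ∀ (R : ℝ) (M : Mdl Q.a Q.b),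
    Good Q g R M → h ^ 1000 ≤ R → ∀ (α B t : ℝ), |α| ≤ h ^ 81 → h ^ 35 ≤ B → B ≤ h ^ 42 / 2 →
    h ^ 18 ≤ t →
      M.P (Lane c w (h ^ 33 / 2) (3 / 2 * h ^ 60) α B t) ≤ C * B / (t ^ 2 * Real.log h) + 1 / h ^ 100 := by
  have hC1 := c.one_le
  obtain ⟨C, h₀, hG⟩ := GW_rare Q g hg c (w + c.C) c₀ C₁ hc
  obtain ⟨h₁, hLG⟩ := lane_GW Q g c (w + c.C) c₀ C₁ hc
  obtain ⟨K, hK, hce⟩ := conc_event Q
  obtain ⟨h₂, hh₂, hexp⟩ := LFin_exp (2 * K) (by linarith)
  refine ⟨max (2 * C) 1, max (max h₀ h₁) (max h₂ (10 * c.C * (|w| + c.C + 10))), le_max_right _ _, ?_⟩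
  intro h hh R M hM hR α B t hα hB hB2 ht
  have hh0 : h₀ ≤ h := (le_max_left _ _).trans ((le_max_left _ _).trans hh)
  have hh1 : h₁ ≤ h := (le_max_right _ _).trans ((le_max_left _ _).trans hh)
  have hh2 : h₂ ≤ h := (le_max_left _ _).trans ((le_max_right _ _).trans hh)
  have hh3 : 10 * c.C * (|w| + c.C + 10) ≤ h := (le_max_right _ _).trans ((le_max_right _ _).trans hh)
  have hw0 := abs_nonneg w
  have hw1 := le_abs_self w
  have hk1 : 100 * c.C ≤ h := by nlinarith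
  have hone : 1 ≤ h := by linarith
  have hh100 : 100 ≤ h := by linarith
  have hpos : 0 < h := by linarith
  have hwh : |w| + c.C ≤ h := by nlinarith
  set E : Env → Prop := CE g (h ^ 66) (h ^ 61) (h ^ 31 / 2) with hE
  -- the probability of the complement of `E`
  have hPE : M.P (fun τ => ¬ E τ) ≤ 1 / h ^ 100 := by
    have p61 : h ^ 61 ≤ R := (pow_le_pow_right₀ hone (by norm_num)).trans hR
    have p31 : 2 ≤ h ^ 31 / 2 := by
      have := LFin_pow (m := 0) (n := 31) hone hh100 (by norm_num)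
      norm_num at this
      linarith
    refine (hce g R M hM (h ^ 66) (h ^ 61) (h ^ 31 / 2) (one_le_pow₀ hone) (one_le_pow₀ hone) p61 p31).trans ?_
    have e1 : Real.sqrt (h ^ 61) = h ^ 30 * Real.sqrt h := by
      rw [show h ^ 61 = (h ^ 30) ^ 2 * h by ring, Real.sqrt_mul (by positivity), Real.sqrt_sq (by positivity)]
    have hs : 0 < Real.sqrt h := Real.sqrt_pos.2 hpos
    have e2 : h ^ 31 / 2 / (K * Real.sqrt (h ^ 61)) = Real.sqrt h / (2 * K) := by
      rw [e1, div_div, div_eq_div_iff (by positivity) (by positivity)]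
      have : Real.sqrt h * Real.sqrt h = h := Real.mul_self_sqrt hpos.le
      calc h ^ 31 * (2 * K) = 2 * K * h ^ 30 * h := by ring
        _ = 2 * K * h ^ 30 * (Real.sqrt h * Real.sqrt h) := by rw [this]
        _ = Real.sqrt h * (2 * (K * (h ^ 30 * Real.sqrt h))) := by ring
    rw [e2]
    refine le_trans ?_ (hexp h hh2)
    refine mul_le_mul_of_nonneg_right ?_ (Real.exp_pos _).le
    have p264 : h ^ 264 ≤ h ^ 272 := pow_le_pow_right₀ hone (by norm_num)
    have : 0 ≤ h ^ 264 := by positivity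
    calc K * (h ^ 66) ^ 4 = K * h ^ 264 := by ring
      _ ≤ 2 * K * h ^ 272 := by nlinarith
  have hshift : M.P (Lane c w (h ^ 33 / 2) (3 / 2 * h ^ 60) α B t)
      ≤ M.P (Lane c (w + c.C) (h ^ 33) (2 * h ^ 60) 0 (2 * B) t) := by
    rw [← hM.P_sh (c.rd α 0) (Lane c (w + c.C) (h ^ 33) (2 * h ^ 60) 0 (2 * B) t)]
    refine M.P_mono fun τ _ hL => LFin_lane_sh c (by linarith) hone ?_ hL
    have := LFin_pow (A := c.C) (m := 0) (n := 35) hone (by linarith) (by norm_num)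
    rw [pow_zero, mul_one] at this
    exact this.trans hB
  refine hshift.trans ?_
  have hlog : 0 < Real.log h := Real.log_pos (by linarith)
  have ht0 : 0 < t := lt_of_lt_of_le (by positivity) ht
  have hB0 : 0 < B := lt_of_lt_of_le (by positivity) hB
  have hq0 : 0 ≤ max (2 * C) 1 * B / (t ^ 2 * Real.log h) := by positivity
  by_cases ht2 : t ≤ h ^ 31
  · have h1 : M.P (Lane c (w + c.C) (h ^ 33) (2 * h ^ 60) 0 (2 * B) t)
        ≤ M.P (GW Q.b c (w + c.C) h (2 * B) t 0) + M.P (fun τ => ¬ E τ) := by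
      refine le_trans (M.P_mono fun τ hτ hL => ?_) (M.P_or _ _)
      by_cases hEτ : E τ
      · left
        refine hLG h hh1 (2 * B) t (by linarith) (by linarith) ht0.le τ hτ ?_ hL
        intro x y hx hy hxy
        refine (hEτ x y hx hy hxy).trans ?_
        have : h ^ 31 ≤ h ^ 32 := pow_le_pow_right₀ hone (by norm_num)
        have : 0 ≤ h ^ 31 := by positivity
        linarith
      · right
        exact hEτ
    have h2 := hG h hh0 R M hM hR (2 * B) t (by linarith) (by linarith) ht ht2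
    have h3 : C * (2 * B) / (t ^ 2 * Real.log h) ≤ max (2 * C) 1 * B / (t ^ 2 * Real.log h) := by
      refine div_le_div_of_nonneg_right ?_ (by positivity)
      calc C * (2 * B) = 2 * C * B := by ring
        _ ≤ max (2 * C) 1 * B := mul_le_mul_of_nonneg_right (le_max_left _ _) hB0.le
    linarith
  · push Not at ht2
    have h1 : M.P (Lane c (w + c.C) (h ^ 33) (2 * h ^ 60) 0 (2 * B) t) ≤ M.P (fun τ => ¬ E τ) := by
      refine M.P_mono fun τ hτ hL hEτ => ?_
      obtain ⟨x, y, g1, g2, g3, g4, g5, g6⟩ := hL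
      rw [sub_zero] at g1
      have p60 : h ^ 42 ≤ h ^ 60 := pow_le_pow_right₀ hone (by norm_num)
      have p33 : h ^ 33 ≤ h ^ 60 := pow_le_pow_right₀ hone (by norm_num)
      have p1 : h ≤ h ^ 60 := by
        calc h = h ^ 1 := (pow_one h).symm
          _ ≤ h ^ 60 := pow_le_pow_right₀ hone (by norm_num)
      have g5' := abs_le.1 g5
      have g3' : |c.p y| ≤ 2 * h ^ 60 := by
        rw [abs_le]
        constructor <;> linarith
      have nx : nm x ≤ 2 * c.C * h ^ 60 := by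
        refine (c.nm_le x).trans ?_
        have : |c.p x| + |c.q x| ≤ 2 * h ^ 60 := by linarith
        nlinarith
      have ny : nm y ≤ 3 * c.C * h ^ 60 := by
        refine (c.nm_le y).trans ?_
        have : |c.p y| + |c.q y| ≤ 3 * h ^ 60 := by linarith
        nlinarith
      have nxy : nm (y - x) ≤ 5 * c.C * h ^ 60 := by
        have e1 := nm_add_le y (-x)
        rw [nm_neg, ← sub_eq_add_neg] at e1
        linarith
      have q61 : 5 * c.C * h ^ 60 ≤ h ^ 61 := LFin_pow hone (by linarith) (by norm_num)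
      have q66 : 5 * c.C * h ^ 60 ≤ h ^ 66 := LFin_pow hone (by linarith) (by norm_num)
      have q0 : 0 ≤ c.C * h ^ 60 := by positivity
      have h3 := hEτ x y (by linarith) (by linarith) (by linarith)
      have h4 := hc.low (y - x)
      have h5 : 0 ≤ c₀ * max (max (-c.p (y - x)) (-c.q (y - x))) 0 :=
        mul_nonneg hc.pos.le (le_max_right _ _)
      have h6 := (abs_le.1 h3).1
      unfold Crd.rho at g6
      have h7 : 0 < h ^ 31 := by positivity
      linarith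
    linarith

/-- The reversed statement.  PROOF.  Reflection: `T_rf`, `Good.P_rf`; a reversed lane `(x, y)` at `α` becomes the lane `(-y, -x)` at `-α`. -/
theorem lanes' (Q : Par) (g : V → ℝ) (hg : IsMean Q g) (c : Crd) (w c₀ C₁ : ℝ)
    (hc : IsCone g c c₀ C₁) : ∃ C h₀ : ℝ, 1 ≤ C ∧ ∀ h ≥ h₀, ∀ (R : ℝ) (M : Mdl Q.a Q.b),
    Good Q g R M → h ^ 1000 ≤ R → ∀ (α B t : ℝ), |α| ≤ h ^ 81 → h ^ 35 ≤ B → B ≤ h ^ 42 / 2 →
    h ^ 18 ≤ t →
      M.P (Lane' c w (h ^ 33 / 2) (3 / 2 * h ^ 60) α B t) ≤ C * B / (t ^ 2 * Real.log h) + 1 / h ^ 100 := by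
  obtain ⟨C, h₀, hC, H⟩ := lanes Q g hg c w c₀ C₁ hc
  refine ⟨C, h₀, hC, fun h hh R M hM hR α B t hα hB hB2 ht => ?_⟩
  refine le_trans ?_ (H h hh R M hM hR (-α) B t (by rwa [abs_neg]) hB hB2 ht)
  rw [← hM.P_rf (Lane c w (h ^ 33 / 2) (3 / 2 * h ^ 60) (-α) B t)]
  refine M.P_mono fun τ _ hL => ?_
  obtain ⟨x, y, h1, h2, h3, h4, h5, h6⟩ := hL
  refine ⟨-y, -x, ?_, ?_, ?_, ?_, ?_, ?_⟩
  · rw [map_neg, sub_neg_eq_add, neg_add_eq_sub, abs_sub_comm]
    exact h1
  · rw [map_neg, abs_neg]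
    exact h2
  · rw [map_neg]
    linarith
  · rw [map_neg]
    linarith
  · rw [map_neg, abs_neg]
    exact h5
  · rw [T_rf, neg_neg, neg_neg, T_symm, neg_sub_neg]
    exact h6

end Pool.Agent.W_1b8d5d_h85
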