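import Pool.Agent.W_1b8d5d_h85.DConf
import Pool.Agent.W_1b8d5d_h85.DCol
import Pool.Agent.W_1b8d5d_h85.DLevel
import Pool.Agent.W_1b8d5d_h85.LFin

/-!
MP_1b8d5d_pr, proofs row 571, (6c): the negative variations.
-/

set_option autoImplicit false

namespace Pool.Agent.W_1b8d5d_h85

open Finset

/-- The end point is to the right of all columns, for both systems of columns. -/
private theorem DNeg_yM {g : V → ℝ} {c d : Crd} {c₀ C₁ θ η : ℝ}
    (hT : TwoCones g c d c₀ C₁ θ η) (e : Crd) (he : e = c ∨ e = d) :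
    ∃ h₀ : ℝ, ∀ h : ℕ, h₀ ≤ h → (∀ k < h ^ 20, (k : ℝ) * (h : ℝ) ^ 60 ≤ e.p (yM c h)) ∧
      e.p (yM c h) ≤ (h : ℝ) ^ 80 + (1 + |η|) * c.C := by
  have hC := c.one_le
  refine ⟨2 + (1 + |η|) * c.C, fun h hh => ?_⟩
  have hη : 0 ≤ |η| * c.C := by positivity
  have hh1 : (1 : ℝ) ≤ h := by nlinarith
  have hp : |c.p (yM c h) - (h : ℝ) ^ 80| ≤ c.C := c.rd_p ((h : ℝ) ^ 80) 0
  have hq : |c.q (yM c h)| ≤ c.C := by
    have := c.rd_q ((h : ℝ) ^ 80) 0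
    rw [sub_zero] at this
    exact this
  rw [abs_le] at hp
  have hep : e.p (yM c h) ≥ (h : ℝ) ^ 80 - (1 + |η|) * c.C ∧
      e.p (yM c h) ≤ (h : ℝ) ^ 80 + (1 + |η|) * c.C := by
    rcases he with rfl | rfl
    · constructor <;> nlinarith
    · rw [hT.hp]
      have h1 : |η * c.q (yM c h)| ≤ |η| * c.C := by
        rw [abs_mul]
        exact mul_le_mul_of_nonneg_left hq (abs_nonneg _)
      rw [abs_le] at h1
      constructor <;> nlinarith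
  refine ⟨fun k hk => ?_, hep.2⟩
  have hk1 : (k : ℝ) + 1 ≤ (h : ℝ) ^ 20 := by exact_mod_cast hk
  have h60 : (h : ℝ) ≤ (h : ℝ) ^ 60 := by
    have : (h : ℝ) ^ 1 ≤ (h : ℝ) ^ 60 := pow_le_pow_right₀ hh1 (by norm_num)
    rwa [pow_one] at this
  have h3 : (k : ℝ) * (h : ℝ) ^ 60 ≤ (h : ℝ) ^ 80 - (h : ℝ) ^ 60 := by
    have h4 : (k : ℝ) * (h : ℝ) ^ 60 ≤ ((h : ℝ) ^ 20 - 1) * (h : ℝ) ^ 60 :=
      mul_le_mul_of_nonneg_right (by linarith) (by positivity)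
    refine h4.trans (le_of_eq ?_)
    ring
  linarith [hep.1]

/-- The indices of the columns. -/
private theorem DNeg_ix (c e : Crd) {h : ℕ} (h1' : 1 ≤ h)
    (H : ∀ k < h ^ 20, (k : ℝ) * (h : ℝ) ^ 60 ≤ e.p (yM c h)) (τ : Env) (k : ℕ) :
    ix c e h τ k ≤ (wM c h τ).length ∧ ix c e h τ k ≤ ix c e h τ (k + 1) ∧
      (k < h ^ 20 → (k : ℝ) * (h : ℝ) ^ 60 ≤ e.p (vx c h τ (ix c e h τ k)) ∧
        e.p (vx c h τ (ix c e h τ k)) ≤ k * (h : ℝ) ^ 60 + e.C ∧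
        ∀ i < ix c e h τ k, e.p (vx c h τ i) < k * (h : ℝ) ^ 60) := by
  have hmem : ∀ m < h ^ 20, (wM c h τ).length ∈
      {i | (m : ℝ) * (h : ℝ) ^ 60 ≤ e.p (vx c h τ i)} := by
    intro m hm
    have h2 := H m hm
    show (m : ℝ) * (h : ℝ) ^ 60 ≤ e.p (vx c h τ (wM c h τ).length)
    rw [vx_last c h τ le_rfl]
    exact h2
  have hlen : ∀ m, ix c e h τ m ≤ (wM c h τ).length := by
    intro m
    unfold ix
    split_ifs with hm
    · exact Nat.sInf_le (hmem m hm)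
    · exact le_rfl
  refine ⟨hlen k, ?_, ?_⟩
  · by_cases hk : k + 1 < h ^ 20
    · have hk' : k < h ^ 20 := by omega
      have h3 : ix c e h τ (k + 1) ∈
          {i | ((k + 1 : ℕ) : ℝ) * (h : ℝ) ^ 60 ≤ e.p (vx c h τ i)} := by
        unfold ix
        rw [if_pos hk]
        exact Nat.sInf_mem ⟨_, hmem _ hk⟩
      have h4 : ix c e h τ (k + 1) ∈ {i | (k : ℝ) * (h : ℝ) ^ 60 ≤ e.p (vx c h τ i)} := by
        have h3' : ((k + 1 : ℕ) : ℝ) * (h : ℝ) ^ 60 ≤ e.p (vx c h τ (ix c e h τ (k + 1))) := h3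
        show (k : ℝ) * (h : ℝ) ^ 60 ≤ e.p (vx c h τ (ix c e h τ (k + 1)))
        push_cast at h3'
        have h60 : 0 ≤ (h : ℝ) ^ 60 := by positivity
        linarith
      have h5 : ix c e h τ k = sInf {i | (k : ℝ) * (h : ℝ) ^ 60 ≤ e.p (vx c h τ i)} := by
        unfold ix
        rw [if_pos hk']
      rw [h5]
      exact Nat.sInf_le h4
    · have h6 : ix c e h τ (k + 1) = (wM c h τ).length := by
        unfold ix
        rw [if_neg hk]
      rw [h6]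
      exact hlen k
  · intro hk
    have h5 : ix c e h τ k = sInf {i | (k : ℝ) * (h : ℝ) ^ 60 ≤ e.p (vx c h τ i)} := by
      unfold ix
      rw [if_pos hk]
    have h6 : (k : ℝ) * (h : ℝ) ^ 60 ≤ e.p (vx c h τ (ix c e h τ k)) := by
      rw [h5]
      exact Nat.sInf_mem ⟨_, hmem k hk⟩
    have h7 : ∀ i < ix c e h τ k, e.p (vx c h τ i) < k * (h : ℝ) ^ 60 := by
      intro i hi
      rw [h5] at hi
      have := Nat.notMem_of_lt_sInf hi
      exact not_le.1 this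
    refine ⟨h6, ?_, h7⟩
    by_cases hi0 : ix c e h τ k = 0
    · rw [hi0, vx_zero, map_zero]
      have hd := e.one_le
      positivity
    · obtain ⟨m, hm⟩ := Nat.exists_eq_succ_of_ne_zero hi0
      have h8 := h7 m (by omega)
      have h9 : m < (wM c h τ).length := by
        have := hlen k
        omega
      have h10 : grid.Adj (vx c h τ m) (vx c h τ (m + 1)) := (wM c h τ).adj_getVert_succ h9
      have h11 := e.p_le (vx c h τ (m + 1) - vx c h τ m)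
      rw [nm_adj h10, mul_one, map_sub, abs_le] at h11
      rw [hm]
      show e.p (vx c h τ (m + 1)) ≤ _
      linarith

/-- Vertices of the block `k` are to the left of the next column. -/
private theorem DNeg_block (c e : Crd) {h : ℕ} (h1' : 1 ≤ h)
    (H : ∀ k < h ^ 20, (k : ℝ) * (h : ℝ) ^ 60 ≤ e.p (yM c h)) (τ : Env) {k i : ℕ}
    (hk : k + 1 < h ^ 20) (hi : i ≤ ix c e h τ (k + 1)) :
    e.p (vx c h τ i) ≤ (k + 1) * (h : ℝ) ^ 60 + e.C := by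
  obtain ⟨_, _, h4⟩ := DNeg_ix c e h1' H τ (k + 1)
  obtain ⟨_, h5, h6⟩ := h4 hk
  push_cast at h5 h6
  rcases hi.lt_or_eq with hlt | heq
  · have h7 := h6 i hlt
    have h8 := e.one_le
    linarith
  · rw [heq]
    exact h5

private theorem DNeg_q {g : V → ℝ} {c d : Crd} {c₀ C₁ θ η : ℝ} (hT : TwoCones g c d c₀ C₁ θ η)
    (e : Crd) (he : e = c ∨ e = d) (x : V) : |e.q x| ≤ (1 + θ) * |c.q x| := by
  have hθ := hT.hθ
  have h0 := abs_nonneg (c.q x)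
  rcases he with rfl | rfl
  · nlinarith
  · rw [hT.hq, abs_mul, abs_neg, abs_of_pos hθ]
    nlinarith

/-- `s0 h ≥ h^39`. -/
private theorem DNeg_s0 {h : ℝ} (hh : 2 ≤ h) : h ^ 39 ≤ s0 h := by
  have h0 : 0 < h := by linarith
  have hl : 0 < Real.log h := Real.log_pos (by linarith)
  unfold s0
  rw [le_div_iff₀ (Real.sqrt_pos.2 hl)]
  have h1 : Real.log h ≤ h := (Real.log_le_sub_one_of_pos h0).trans (by linarith)
  have h2 : Real.sqrt (Real.log h) ≤ h := by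
    rw [Real.sqrt_le_left h0.le]
    nlinarith
  calc h ^ 39 * Real.sqrt (Real.log h) ≤ h ^ 39 * h := mul_le_mul_of_nonneg_left h2 (by positivity)
    _ = h ^ 40 := by ring

/-- Everything which is common to the two directions. -/
private theorem DNeg_common (Q : Par) (g : V → ℝ) (hg : IsMean Q g) (c d : Crd) (c₀ C₁ θ η : ℝ)
    (hT : TwoCones g c d c₀ C₁ θ η) (e : Crd) (he : e = c ∨ e = d) :
    ∃ Cb : ℝ, 1 ≤ Cb ∧ ∀ Cl : ℝ, 1 ≤ Cl → ∃ C h₀ : ℝ, ∀ h : ℕ, h₀ ≤ h → ∀ (R : ℝ)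
      (M : Mdl Q.a Q.b), Good Q g R M → (h : ℝ) ^ 1000 ≤ R → ∀ k : ℕ, k < h ^ 20 →
      ∀ (Z : Env → ℝ) (Ln : ℝ → ℝ → Env → Prop),
      (∀ τ, Bd Q.a Q.b τ → 0 ≤ Z τ ∧ Z τ ≤ (h : ℝ) ^ 81) →
      (∀ B t, (h : ℝ) ^ 35 ≤ B → B ≤ (h : ℝ) ^ 42 / 2 → (h : ℝ) ^ 18 ≤ t →
        M.P (Ln B t) ≤ Cl * B / (t ^ 2 * Real.log h) + 1 / (h : ℝ) ^ 100) →
      (∀ τ, Bd Q.a Q.b τ → CEM g h τ → ∀ B t, (h : ℝ) ^ 18 ≤ t → t ≤ Z τ →
        (∀ i, ix c e h τ k ≤ i → i ≤ ix c e h τ (k + 1) → |e.q (vx c h τ i)| ≤ B) → Ln B t τ) →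
      M.E Z ≤ C * x0 h := by
  have hθ := hT.hθ
  obtain ⟨C1, h1, hC1, H1⟩ := col_height Q g hg c d c₀ C₁ θ η hT e he
  obtain ⟨h2, H2⟩ := CEM_prob Q g
  obtain ⟨C3, h3, H3⟩ := height Q g hg c d c₀ C₁ θ η hT
  obtain ⟨C4, h4, hC4, H4⟩ := block_height Q g hg c d c₀ C₁ θ η hT e he
  have hCb : 1 ≤ (1 + θ) * C4 := by nlinarith
  refine ⟨(1 + θ) * C4, hCb, fun Cl hCl => ?_⟩
  set Cb : ℝ := (1 + θ) * C4 with hCbdef
  have hCC : 0 ≤ Cl * Cb := by positivity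
  have hC3 := abs_nonneg C3
  set K : ℝ := 1 + 2 * C1 + |C3| + Cl * Cb with hK
  have hK1 : 1 ≤ K := by linarith
  obtain ⟨C, h10, H10⟩ := level_sum K hK1
  refine ⟨C, max (max (max h1 h2) (max h3 h4)) (max h10 (3 + 8 * K * Cb + 4 * K)),
    fun h hh R M hM hR k hk Z Ln hZ hLn hev => ?_⟩
  have g1 : h1 ≤ h := (le_max_left _ _).trans ((le_max_left _ _).trans ((le_max_left _ _).trans hh))
  have g2 : h2 ≤ h := (le_max_right _ _).trans ((le_max_left _ _).trans ((le_max_left _ _).trans hh))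
  have g3 : h3 ≤ h := (le_max_left _ _).trans ((le_max_right _ _).trans ((le_max_left _ _).trans hh))
  have g4 : h4 ≤ h :=
    (le_max_right _ _).trans ((le_max_right _ _).trans ((le_max_left _ _).trans hh))
  have g10 : h10 ≤ h := (le_max_left _ _).trans ((le_max_right _ _).trans hh)
  have g11 : 3 + 8 * K * Cb + 4 * K ≤ h := (le_max_right _ _).trans ((le_max_right _ _).trans hh)
  have hKC : 0 ≤ 8 * K * Cb := by positivity
  have hh3 : (3 : ℝ) ≤ h := by linarith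
  have hh0 : (0 : ℝ) < h := by linarith
  have hs0 := DNeg_s0 (h := (h : ℝ)) (by linarith)
  have h41 : 0 < (h : ℝ) ^ 41 := by positivity
  refine H10 (h : ℝ) g10 Q.a Q.b M Z (fun τ => max (hgt c e h k τ) (hgt c e h (k + 1) τ))
    (CEM g h) (fun B t => Ln (Cb * B) t) hZ ?_ (H2 h g2 R M hM hR) ?_ ?_ ?_
  · intro u hu
    have a1 := H1 h g1 R M hM hR k u hk.le hu
    have a2 := H1 h g1 R M hM hR (k + 1) u hk hu
    have a3 : M.P (fun τ => u ≤ max (hgt c e h k τ) (hgt c e h (k + 1) τ)) ≤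
        M.P (fun τ => u ≤ hgt c e h k τ) + M.P (fun τ => u ≤ hgt c e h (k + 1) τ) :=
      (M.P_mono fun τ _ hu' => le_max_iff.1 hu').trans (M.P_or _ _)
    refine a3.trans ((add_le_add a1 a2).trans ?_)
    have a4 : 0 ≤ s0 (h : ℝ) ^ 2 / u ^ 2 := by positivity
    have a5 : K * s0 (h : ℝ) ^ 2 / u ^ 2 = K * (s0 (h : ℝ) ^ 2 / u ^ 2) := by ring
    have a6 : C1 * s0 (h : ℝ) ^ 2 / u ^ 2 = C1 * (s0 (h : ℝ) ^ 2 / u ^ 2) := by ring
    rw [a5, a6]
    nlinarith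
  · intro τ hτ hC
    have a0 : C3 * (h : ℝ) ^ 41 ≤ K * (h : ℝ) ^ 41 := by
      refine mul_le_mul_of_nonneg_right ?_ h41.le
      linarith [le_abs_self C3]
    exact max_le ((H3 h g3 τ hτ hC _).trans a0) ((H3 h g3 τ hτ hC _).trans a0)
  · intro B t hB1 hB2 ht
    have hB0 : 0 ≤ B := (by positivity : (0 : ℝ) ≤ (h : ℝ) ^ 39).trans (hs0.trans hB1)
    have b1 : (h : ℝ) ^ 35 ≤ Cb * B := by
      have b2 : (h : ℝ) ^ 35 ≤ (h : ℝ) ^ 39 := pow_le_pow_right₀ (by linarith) (by norm_num)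
      nlinarith
    have b2 : Cb * B ≤ (h : ℝ) ^ 42 / 2 := by
      have b3 : Cb * B ≤ Cb * (4 * K * (h : ℝ) ^ 41) := mul_le_mul_of_nonneg_left hB2 (by linarith)
      have b4 : (8 * K * Cb) * (h : ℝ) ^ 41 ≤ (h : ℝ) * (h : ℝ) ^ 41 :=
        mul_le_mul_of_nonneg_right (by linarith) h41.le
      have b5 : (h : ℝ) * (h : ℝ) ^ 41 = (h : ℝ) ^ 42 := by ring
      nlinarith
    refine (hLn (Cb * B) t b1 b2 ht).trans ?_
    have hlog : 0 < Real.log (h : ℝ) := Real.log_pos (by linarith)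
    have ht0 : 0 < t := lt_of_lt_of_le (by positivity) ht
    have b6 : Cl * (Cb * B) / (t ^ 2 * Real.log h) ≤ K * B / (t ^ 2 * Real.log h) := by
      refine div_le_div_of_nonneg_right ?_ (by positivity)
      have : Cl * (Cb * B) = Cl * Cb * B := by ring
      rw [this]
      refine mul_le_mul_of_nonneg_right ?_ hB0
      linarith
    linarith
  · intro τ hτ hC B t hB1 hB2 hr ht htZ
    refine hev τ hτ hC (Cb * B) t ht htZ fun i hi1 hi2 => ?_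
    have c1 : B ≤ (h : ℝ) ^ 42 := by
      have c2 : 4 * K * (h : ℝ) ^ 41 ≤ (h : ℝ) * (h : ℝ) ^ 41 :=
        mul_le_mul_of_nonneg_right (by linarith) h41.le
      have c3 : (h : ℝ) * (h : ℝ) ^ 41 = (h : ℝ) ^ 42 := by ring
      linarith
    have c2 := H4 h g4 τ hτ hC k B hk (hs0.trans hB1) c1 ((le_max_left _ _).trans hr)
      ((le_max_right _ _).trans hr) i hi1 hi2
    refine (DNeg_q hT e he _).trans ?_
    rw [hCbdef, mul_assoc]
    exact mul_le_mul_of_nonneg_left c2 (by linarith)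

/-- **(6c), forward.**  PROOF.  `level_sum` with `Z = Zn`, `r = max (hgt k) (hgt (k+1))`, `CEv = CEM`, `Ln B t = Lane e w (h^33/2)
(3/2 h^60) (k h^60) (C B) t`, `w = e.C`: `lanes` gives the bound of the probability; on `CEM`, if `r ≤ B` and `t ≤ Zn`, the lane is
`(vx (ix k), vx i)` with `i` from `Zn_exists`: `T_vx_Xi`, `ix_spec`, `neg_back`, `ix_block` (last block `k + 1 = h^20`: `no_back` and
`yM`), `block_height` (with `max B h^39`), `height` for `r ≤ C h^41`. -/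
theorem E_Zn (Q : Par) (g : V → ℝ) (hg : IsMean Q g) (c d : Crd) (c₀ C₁ θ η : ℝ)
    (hT : TwoCones g c d c₀ C₁ θ η) (e : Crd) (he : e = c ∨ e = d) :
    ∃ C h₀ : ℝ, ∀ h : ℕ, h₀ ≤ h → ∀ (R : ℝ) (M : Mdl Q.a Q.b), Good Q g R M →
    (h : ℝ) ^ 1000 ≤ R → ∀ k : ℕ, k < h ^ 20 → M.E (Zn c e h k) ≤ C * x0 h := by
  have hcone : IsCone g e c₀ C₁ := by
    rcases he with rfl | rfl
    · exact hT.hc
    · exact hT.hd
  obtain ⟨Cb, hCb, H0⟩ := DNeg_common Q g hg c d c₀ C₁ θ η hT e he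
  obtain ⟨C7, h7, hC7, H7⟩ := lanes Q g hg e e.C c₀ C₁ hcone
  obtain ⟨C, h0, H⟩ := H0 C7 hC7
  obtain ⟨h5, H5⟩ := no_back Q g hg c d c₀ C₁ θ η hT e he
  obtain ⟨h6, H6⟩ := neg_back Q g hg c d c₀ C₁ θ η hT e he
  obtain ⟨h8, H8⟩ := DNeg_yM hT e he
  obtain ⟨h9, H9⟩ := Z_crude Q c e
  have hη : 0 ≤ (1 + |η|) * c.C := by
    have := c.one_le
    positivity
  have heC := e.one_le
  refine ⟨C, max (max (max h7 h0) (max h5 h6))
    (max (max h8 h9) (3 + 2 * e.C + 4 * ((1 + |η|) * c.C))), fun h hh R M hM hR k hk => ?_⟩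
  have g7 : h7 ≤ h := (le_max_left _ _).trans ((le_max_left _ _).trans ((le_max_left _ _).trans hh))
  have g0 : h0 ≤ h := (le_max_right _ _).trans ((le_max_left _ _).trans ((le_max_left _ _).trans hh))
  have g5 : h5 ≤ h := (le_max_left _ _).trans ((le_max_right _ _).trans ((le_max_left _ _).trans hh))
  have g6 : h6 ≤ h :=
    (le_max_right _ _).trans ((le_max_right _ _).trans ((le_max_left _ _).trans hh))
  have g8 : h8 ≤ h := (le_max_left _ _).trans ((le_max_left _ _).trans ((le_max_right _ _).trans hh))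
  have g9 : h9 ≤ h :=
    (le_max_right _ _).trans ((le_max_left _ _).trans ((le_max_right _ _).trans hh))
  have g10 : 3 + 2 * e.C + 4 * ((1 + |η|) * c.C) ≤ h :=
    (le_max_right _ _).trans ((le_max_right _ _).trans hh)
  have hh3 : (3 : ℝ) ≤ h := by linarith
  have hh1 : (1 : ℝ) ≤ h := by linarith
  have hh1' : 1 ≤ h := by exact_mod_cast hh1
  obtain ⟨K1, K2⟩ := H8 h g8
  have p60 : (h : ℝ) ≤ (h : ℝ) ^ 60 := le_self_pow₀ hh1 (by norm_num)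
  have p42 : 4 * (h : ℝ) ^ 42 ≤ (h : ℝ) ^ 60 := by
    have q1 : (h : ℝ) ^ 60 = (h : ℝ) ^ 18 * (h : ℝ) ^ 42 := by ring
    have q2 : (h : ℝ) ^ 2 ≤ (h : ℝ) ^ 18 := pow_le_pow_right₀ hh1 (by norm_num)
    rw [q1]
    refine mul_le_mul_of_nonneg_right ?_ (by positivity)
    nlinarith
  have hk1 : (k : ℝ) + 1 ≤ (h : ℝ) ^ 20 := by exact_mod_cast hk
  have hk80 : ((k : ℝ) + 1) * (h : ℝ) ^ 60 ≤ (h : ℝ) ^ 80 := by
    have := mul_le_mul_of_nonneg_right hk1 (by positivity : (0 : ℝ) ≤ (h : ℝ) ^ 60)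
    calc _ ≤ _ := this
      _ = (h : ℝ) ^ 80 := by ring
  have hkα : |(k : ℝ) * (h : ℝ) ^ 60| ≤ (h : ℝ) ^ 81 := by
    rw [abs_of_nonneg (by positivity)]
    have q1 : (h : ℝ) ^ 80 ≤ (h : ℝ) ^ 81 := pow_le_pow_right₀ hh1 (by norm_num)
    nlinarith
  refine H h g0 R M hM hR k hk (Zn c e h k)
    (fun B t => Lane e e.C ((h : ℝ) ^ 33 / 2) (3 / 2 * (h : ℝ) ^ 60) (k * (h : ℝ) ^ 60) B t)
    (fun τ hτ => ?_) (fun B t hB1 hB2 ht => H7 h g7 R M hM hR _ B t hkα hB1 hB2 ht) ?_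
  · obtain ⟨_, hm, _⟩ := DNeg_ix c e hh1' K1 τ k
    obtain ⟨r1, r2, _⟩ := H9 h g9 τ k hτ hm
    exact ⟨r1, r2⟩
  · intro τ hτ hC B t ht htZ hB
    obtain ⟨hl, hm, hsp⟩ := DNeg_ix c e hh1' K1 τ k
    obtain ⟨s1, s2, s3⟩ := hsp hk
    obtain ⟨i, hi1, hi2, hi3⟩ := Zn_exists c e h k τ hm
    have ht0 : 0 < t := lt_of_lt_of_le (by positivity) ht
    refine ⟨vx c h τ (ix c e h τ k), vx c h τ i, ?_, hB _ le_rfl hm, ?_, ?_, hB i hi1 hi2, ?_⟩
    · rw [abs_le]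
      constructor <;> linarith
    · have n1 := H6 h g6 τ hτ hC k hk i hi1 hi2 (by linarith)
      linarith
    · by_cases hk2 : k + 1 < h ^ 20
      · have n2 := DNeg_block c e hh1' K1 τ hk2 hi2
        linarith
      · have hk3 : k + 1 = h ^ 20 := by omega
        have hk4 : (k : ℝ) + 1 = (h : ℝ) ^ 20 := by exact_mod_cast hk3
        have hk5 : ((k : ℝ) + 1) * (h : ℝ) ^ 60 = (h : ℝ) ^ 80 := by
          rw [hk4]
          ring
        have hil : i ≤ (wM c h τ).length := by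
          have hl2 := (DNeg_ix c e hh1' K1 τ (k + 1)).1
          exact hi2.trans hl2
        have n3 := H5 h g5 τ hτ hC i (wM c h τ).length hil
        rw [vx_last c h τ le_rfl] at n3
        linarith
    · rw [T_vx_Xi hτ c e h hi1]
      linarith

/-- **(6c), backward** (not needed for the last block).  PROOF.  The same with `lanes'`: reversed lane `(vx i, vx (ix (k+1)))`, column
`(k+1) h^60`; `i` from `Zr_exists`; the start is at most `h^60 + h^42` to the left of the column (`no_back`), `ix_block`. -/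
theorem E_Zr (Q : Par) (g : V → ℝ) (hg : IsMean Q g) (c d : Crd) (c₀ C₁ θ η : ℝ)
    (hT : TwoCones g c d c₀ C₁ θ η) (e : Crd) (he : e = c ∨ e = d) :
    ∃ C h₀ : ℝ, ∀ h : ℕ, h₀ ≤ h → ∀ (R : ℝ) (M : Mdl Q.a Q.b), Good Q g R M →
    (h : ℝ) ^ 1000 ≤ R → ∀ k : ℕ, k + 1 < h ^ 20 → M.E (Zr c e h k) ≤ C * x0 h := by
  have hcone : IsCone g e c₀ C₁ := by
    rcases he with rfl | rfl
    · exact hT.hc
    · exact hT.hd
  obtain ⟨Cb, hCb, H0⟩ := DNeg_common Q g hg c d c₀ C₁ θ η hT e he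
  obtain ⟨C7, h7, hC7, H7⟩ := lanes' Q g hg e e.C c₀ C₁ hcone
  obtain ⟨C, h0, H⟩ := H0 C7 hC7
  obtain ⟨h5, H5⟩ := no_back Q g hg c d c₀ C₁ θ η hT e he
  obtain ⟨h8, H8⟩ := DNeg_yM hT e he
  obtain ⟨h9, H9⟩ := Z_crude Q c e
  have heC := e.one_le
  refine ⟨C, max (max h7 h0) (max h5 (max (max h8 h9) (3 + 2 * e.C))),
    fun h hh R M hM hR k hk => ?_⟩
  have g7 : h7 ≤ h := (le_max_left _ _).trans ((le_max_left _ _).trans hh)
  have g0 : h0 ≤ h := (le_max_right _ _).trans ((le_max_left _ _).trans hh)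
  have g5 : h5 ≤ h := (le_max_left _ _).trans ((le_max_right _ _).trans hh)
  have g8 : h8 ≤ h := (le_max_left _ _).trans ((le_max_left _ _).trans
    ((le_max_right _ _).trans ((le_max_right _ _).trans hh)))
  have g9 : h9 ≤ h := (le_max_right _ _).trans ((le_max_left _ _).trans
    ((le_max_right _ _).trans ((le_max_right _ _).trans hh)))
  have g10 : 3 + 2 * e.C ≤ h := (le_max_right _ _).trans
    ((le_max_right _ _).trans ((le_max_right _ _).trans hh))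
  have hh3 : (3 : ℝ) ≤ h := by linarith
  have hh1 : (1 : ℝ) ≤ h := by linarith
  have hh1' : 1 ≤ h := by exact_mod_cast hh1
  have hk' : k < h ^ 20 := by omega
  obtain ⟨K1, K2⟩ := H8 h g8
  have p33 : (h : ℝ) ≤ (h : ℝ) ^ 33 := le_self_pow₀ hh1 (by norm_num)
  have p42 : 4 * (h : ℝ) ^ 42 ≤ (h : ℝ) ^ 60 := by
    have q1 : (h : ℝ) ^ 60 = (h : ℝ) ^ 18 * (h : ℝ) ^ 42 := by ring
    have q2 : (h : ℝ) ^ 2 ≤ (h : ℝ) ^ 18 := pow_le_pow_right₀ hh1 (by norm_num)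
    rw [q1]
    refine mul_le_mul_of_nonneg_right ?_ (by positivity)
    nlinarith
  have h420 : (0 : ℝ) ≤ (h : ℝ) ^ 42 := by positivity
  have hk1 : (k : ℝ) + 1 ≤ (h : ℝ) ^ 20 := by exact_mod_cast hk'
  have hk80 : ((k : ℝ) + 1) * (h : ℝ) ^ 60 ≤ (h : ℝ) ^ 80 := by
    have := mul_le_mul_of_nonneg_right hk1 (by positivity : (0 : ℝ) ≤ (h : ℝ) ^ 60)
    calc _ ≤ _ := this
      _ = (h : ℝ) ^ 80 := by ring
  have hkα : |((k : ℝ) + 1) * (h : ℝ) ^ 60| ≤ (h : ℝ) ^ 81 := by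
    rw [abs_of_nonneg (by positivity)]
    have q1 : (h : ℝ) ^ 80 ≤ (h : ℝ) ^ 81 := pow_le_pow_right₀ hh1 (by norm_num)
    linarith
  refine H h g0 R M hM hR k hk' (Zr c e h k)
    (fun B t => Lane' e e.C ((h : ℝ) ^ 33 / 2) (3 / 2 * (h : ℝ) ^ 60) ((k + 1) * (h : ℝ) ^ 60) B t)
    (fun τ hτ => ?_) (fun B t hB1 hB2 ht => H7 h g7 R M hM hR _ B t hkα hB1 hB2 ht) ?_
  · obtain ⟨_, hm, _⟩ := DNeg_ix c e hh1' K1 τ k
    obtain ⟨_, _, r3, r4, _⟩ := H9 h g9 τ k hτ hm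
    exact ⟨r3, r4⟩
  · intro τ hτ hC B t ht htZ hB
    obtain ⟨hl, hm, hsp⟩ := DNeg_ix c e hh1' K1 τ k
    obtain ⟨s1, s2, s3⟩ := hsp hk'
    obtain ⟨hl', hm', hsp'⟩ := DNeg_ix c e hh1' K1 τ (k + 1)
    obtain ⟨s1', s2', s3'⟩ := hsp' hk
    push_cast at s1' s2'
    obtain ⟨i, hi1, hi2, hi3⟩ := Zr_exists c e h k τ hm
    refine ⟨vx c h τ i, vx c h τ (ix c e h τ (k + 1)), ?_, hB _ hm le_rfl, ?_, ?_, hB i hi1 hi2, ?_⟩
    · rw [abs_le]
      constructor <;> linarith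
    · have n3 := H5 h g5 τ hτ hC (ix c e h τ k) i hi1
      linarith
    · have n2 := DNeg_block c e hh1' K1 τ hk hi2
      linarith
    · rw [T_vx_Xi hτ c e h hi2]
      linarith

end Pool.Agent.W_1b8d5d_h85
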