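import Pool.Agent.W_1b8d5d_h85.DNeg

/-!
MP_1b8d5d_pr, proofs row 571, (6d): a typical block.
-/

set_option autoImplicit false

namespace Pool.Agent.W_1b8d5d_h85

open Finset

/-- `S (h^80) ≤ s0 h`.  PROOF.  `log (h^80 + 2) ≥ log h`. -/
theorem S_h80 {h : ℝ} (hh : 2 ≤ h) : S (h ^ 80) ≤ s0 h := by
  have h0 : 0 < h := by linarith
  have hl : 0 < Real.log h := Real.log_pos (by linarith)
  have hle : h ≤ h ^ 80 + 2 := by
    have : h ^ 1 ≤ h ^ 80 := pow_le_pow_right₀ (by linarith) (by norm_num)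
    rw [pow_one] at this
    linarith
  have hl2 : Real.log h ≤ Real.log (h ^ 80 + 2) := Real.log_le_log h0 hle
  unfold S s0
  rw [Real.sqrt_div (by positivity)]
  have e1 : Real.sqrt (h ^ 80) = h ^ 40 := by
    rw [show h ^ 80 = (h ^ 40) ^ 2 by ring, Real.sqrt_sq (by positivity)]
  rw [e1]
  exact div_le_div_of_nonneg_left (by positivity) (Real.sqrt_pos.2 hl) (Real.sqrt_le_sqrt hl2)

private theorem DSel_s0_eq (h : ℝ) : s0 h = h ^ 20 * x0 h := by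
  unfold s0 x0
  ring

private theorem DSel_x0_nonneg {h : ℝ} (hh : 0 ≤ h) : 0 ≤ x0 h := by
  unfold x0
  positivity

private theorem DSel_one_le_s0 {h : ℝ} (hh : 2 ≤ h) : 1 ≤ s0 h := by
  have h0 : 0 < h := by linarith
  have hl : 0 < Real.log h := Real.log_pos (by linarith)
  unfold s0
  rw [le_div_iff₀ (Real.sqrt_pos.2 hl), one_mul]
  have h1 : Real.log h ≤ h := (Real.log_le_sub_one_of_pos h0).trans (by linarith)
  have h2 : Real.sqrt (Real.log h) ≤ h := by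
    rw [Real.sqrt_le_left h0.le]
    nlinarith
  refine h2.trans ?_
  have : h ^ 1 ≤ h ^ 40 := pow_le_pow_right₀ (by linarith) (by norm_num)
  rwa [pow_one] at this

/-- The end point is to the right of all columns, for both systems of columns. -/
private theorem DSel_yM_p {g : V → ℝ} {c d : Crd} {c₀ C₁ θ η : ℝ}
    (hT : TwoCones g c d c₀ C₁ θ η) (e : Crd) (he : e = c ∨ e = d) :
    ∃ h₀ : ℝ, ∀ h : ℕ, h₀ ≤ h → ∀ k < h ^ 20, (k : ℝ) * (h : ℝ) ^ 60 ≤ e.p (yM c h) := by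
  have hθ := hT.hθ
  have hC := c.one_le
  refine ⟨2 + (1 + |η|) * c.C, fun h hh k hk => ?_⟩
  have hη : 0 ≤ |η| * c.C := by positivity
  have hh1 : (1 : ℝ) ≤ h := by nlinarith
  have hp : c.p (yM c h) ≥ (h : ℝ) ^ 80 - c.C := by
    have := abs_le.1 (c.rd_p ((h : ℝ) ^ 80) 0)
    unfold yM
    linarith [this.1]
  have hq : |c.q (yM c h)| ≤ c.C := by
    have := c.rd_q ((h : ℝ) ^ 80) 0
    rw [sub_zero] at this
    exact this
  have hep : e.p (yM c h) ≥ (h : ℝ) ^ 80 - (1 + |η|) * c.C := by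
    rcases he with rfl | rfl
    · nlinarith
    · rw [hT.hp]
      have h1 : -(|η| * c.C) ≤ η * c.q (yM c h) := by
        have h2 : |η * c.q (yM c h)| ≤ |η| * c.C := by
          rw [abs_mul]
          exact mul_le_mul_of_nonneg_left hq (abs_nonneg _)
        exact (abs_le.1 h2).1
      nlinarith
  have hk1 : (k : ℝ) + 1 ≤ (h : ℝ) ^ 20 := by exact_mod_cast hk
  have h60 : (h : ℝ) ≤ (h : ℝ) ^ 60 := by
    have : (h : ℝ) ^ 1 ≤ (h : ℝ) ^ 60 := pow_le_pow_right₀ hh1 (by norm_num)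
    rwa [pow_one] at this
  have h3 : (k : ℝ) * (h : ℝ) ^ 60 ≤ (h : ℝ) ^ 80 - (h : ℝ) ^ 60 := by
    have h4 : (k : ℝ) * (h : ℝ) ^ 60 ≤ ((h : ℝ) ^ 20 - 1) * (h : ℝ) ^ 60 :=
      mul_le_mul_of_nonneg_right (by linarith) (by positivity)
    refine h4.trans (le_of_eq ?_)
    ring
  linarith

private theorem DSel_ix_mono (c e : Crd) {h : ℕ}
    (hy : ∀ k < h ^ 20, (k : ℝ) * (h : ℝ) ^ 60 ≤ e.p (yM c h)) (τ : Env) (k : ℕ) :
    ix c e h τ k ≤ ix c e h τ (k + 1) := by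
  have hlast : vx c h τ (wM c h τ).length = yM c h := vx_last c h τ le_rfl
  have hmem : ∀ k < h ^ 20, (wM c h τ).length ∈
      {i | (k : ℝ) * (h : ℝ) ^ 60 ≤ e.p (vx c h τ i)} := fun k hk => by
    show (k : ℝ) * (h : ℝ) ^ 60 ≤ e.p (vx c h τ (wM c h τ).length)
    rw [hlast]
    exact hy k hk
  unfold ix
  by_cases h1 : k + 1 < h ^ 20
  · have h2 : k < h ^ 20 := by omega
    rw [if_pos h1, if_pos h2]
    refine Nat.sInf_le ?_
    have h3 := Nat.sInf_mem (⟨_, hmem (k + 1) h1⟩ :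
      {i | ((k + 1 : ℕ) : ℝ) * (h : ℝ) ^ 60 ≤ e.p (vx c h τ i)}.Nonempty)
    have h4 : ((k + 1 : ℕ) : ℝ) * (h : ℝ) ^ 60 ≤ e.p (vx c h τ
        (sInf {i | ((k + 1 : ℕ) : ℝ) * (h : ℝ) ^ 60 ≤ e.p (vx c h τ i)})) := h3
    refine le_trans ?_ h4
    refine mul_le_mul_of_nonneg_right ?_ (by positivity)
    push_cast
    linarith
  · rw [if_neg h1]
    by_cases h2 : k < h ^ 20
    · rw [if_pos h2]
      exact Nat.sInf_le (hmem k h2)
    · rw [if_neg h2]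

private theorem DSel_sum_Xk (c e : Crd) {h : ℕ} (hh : 1 ≤ h) (τ : Env) :
    ∑ k ∈ range (h ^ 20), Xk c e h k τ = T τ 0 (yM c h) - T τ 0 0 - e.rho (yM c h) := by
  have h1 : ∑ k ∈ range (h ^ 20), Xk c e h k τ =
      Xi c e h τ (ix c e h τ (h ^ 20)) - Xi c e h τ (ix c e h τ 0) :=
    Finset.sum_range_sub (fun k => Xi c e h τ (ix c e h τ k)) (h ^ 20)
  have h2 : ix c e h τ (h ^ 20) = (wM c h τ).length := by
    unfold ix
    rw [if_neg (lt_irrefl _)]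
  have h3 : ix c e h τ 0 = 0 := by
    unfold ix
    rw [if_pos (by positivity)]
    refine Nat.le_zero.1 (Nat.sInf_le ?_)
    show ((0 : ℕ) : ℝ) * (h : ℝ) ^ 60 ≤ e.p (vx c h τ 0)
    rw [vx_zero, map_zero]
    simp
  rw [h1, h2, h3]
  unfold Xi
  rw [vx_zero, vx_last c h τ le_rfl]
  have h4 : e.rho 0 = 0 := by
    unfold Crd.rho
    rw [map_zero, map_zero, add_zero]
  rw [h4]
  ring

/-- PROOF.  `sum_Xk`, mean of `T 0 yM ≤ h^80 + C S(h^80) + C`, `e.rho yM ≥ h^80 - C`; `s0 h = h^20 x0 h`. -/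
theorem E_sum_Xk (Q : Par) (g : V → ℝ) (hg : IsMean Q g) (c d : Crd) (c₀ C₁ θ η : ℝ)
    (hT : TwoCones g c d c₀ C₁ θ η) (e : Crd) (he : e = c ∨ e = d) :
    ∃ C h₀ : ℝ, ∀ h : ℕ, h₀ ≤ h → ∀ (R : ℝ) (M : Mdl Q.a Q.b), Good Q g R M →
    (h : ℝ) ^ 1000 ≤ R → ∑ k ∈ range (h ^ 20), M.E (Xk c e h k) ≤ C * (h : ℝ) ^ 20 * x0 h := by
  have hC := c.one_le
  have hθ := hT.hθ
  refine ⟨|C₁| + (1 + (2 + |η| + θ) * c.C), 3 + c.C, fun h hh R M hG hR => ?_⟩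
  have hh3 : (3 : ℝ) ≤ h := by linarith
  have hh1 : 1 ≤ h := by
    have : (1 : ℝ) ≤ h := by linarith
    exact_mod_cast this
  have hCh : c.C ≤ h := by linarith
  have hp : |c.p (yM c h) - (h : ℝ) ^ 80| ≤ c.C := c.rd_p ((h : ℝ) ^ 80) 0
  have hq : |c.q (yM c h)| ≤ c.C := by
    have := c.rd_q ((h : ℝ) ^ 80) 0
    rw [sub_zero] at this
    exact this
  have hp1 := abs_le.1 hp
  have hq1 := abs_le.1 hq
  have h80 : (1 : ℝ) ≤ (h : ℝ) ^ 80 := one_le_pow₀ (by linarith)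
  -- the range
  have hnm : nm (yM c h) ≤ R := by
    refine (c.nm_le _).trans (le_trans ?_ hR)
    have h1 : |c.p (yM c h)| ≤ (h : ℝ) ^ 80 + c.C := by
      rw [abs_le]
      constructor <;> linarith
    have h2 : c.C * (|c.p (yM c h)| + |c.q (yM c h)|) ≤ (h : ℝ) * ((h : ℝ) ^ 80 + h + h) := by
      refine mul_le_mul hCh (by linarith) (by positivity) (by positivity)
    refine h2.trans ?_
    have h3 : (h : ℝ) ≤ (h : ℝ) ^ 80 := by
      have : (h : ℝ) ^ 1 ≤ (h : ℝ) ^ 80 := pow_le_pow_right₀ (by linarith) (by norm_num)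
      rwa [pow_one] at this
    have h4 : (h : ℝ) ^ 80 + h + h ≤ h * (h : ℝ) ^ 80 := by nlinarith
    have h5 : (h : ℝ) * ((h : ℝ) ^ 80 + h + h) ≤ (h : ℝ) * (h * (h : ℝ) ^ 80) :=
      mul_le_mul_of_nonneg_left h4 (by positivity)
    refine h5.trans ?_
    rw [show (h : ℝ) * (h * (h : ℝ) ^ 80) = (h : ℝ) ^ 82 by ring]
    exact pow_le_pow_right₀ (by linarith) (by norm_num)
  have hmean := abs_le.1 (hG.mean (yM c h) hnm)
  have hupp := hT.hc.upp ((h : ℝ) ^ 80) (yM c h) h80 hp hq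
  have hS : S ((h : ℝ) ^ 80) ≤ s0 h := S_h80 (by linarith)
  have hS0 : 0 ≤ S ((h : ℝ) ^ 80) := Real.sqrt_nonneg _
  have hrho : e.rho (yM c h) ≥ (h : ℝ) ^ 80 - (2 + |η| + θ) * c.C := by
    have hηC : 0 ≤ |η| * c.C := by positivity
    have hθC : 0 ≤ θ * c.C := by positivity
    rcases he with rfl | rfl
    · unfold Crd.rho
      nlinarith
    · unfold Crd.rho
      rw [hT.hp, hT.hq]
      have h1 : -(|η| * c.C) ≤ η * c.q (yM c h) := by
        have h2 : |η * c.q (yM c h)| ≤ |η| * c.C := by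
          rw [abs_mul]
          exact mul_le_mul_of_nonneg_left hq (abs_nonneg _)
        exact (abs_le.1 h2).1
      have h3 : θ * c.q (yM c h) ≤ θ * c.C := mul_le_mul_of_nonneg_left hq1.2 hθ.le
      nlinarith
  have hsum : ∑ k ∈ range (h ^ 20), M.E (Xk c e h k) ≤
      M.E (fun τ => T τ 0 (yM c h)) - e.rho (yM c h) := by
    rw [← M.E_sum, ← M.E_const (e.rho (yM c h)), ← M.E_sub]
    refine M.E_mono fun τ hτ => ?_
    rw [DSel_sum_Xk c e hh1 τ]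
    have := T_nonneg hτ Q.ha.le 0 0
    linarith
  have hs1 : 1 ≤ s0 (h : ℝ) := DSel_one_le_s0 (by linarith)
  have hCS : C₁ * S ((h : ℝ) ^ 80) ≤ |C₁| * s0 h :=
    (mul_le_mul_of_nonneg_right (le_abs_self _) hS0).trans
      (mul_le_mul_of_nonneg_left hS (abs_nonneg _))
  have hfin : (|C₁| + (1 + (2 + |η| + θ) * c.C)) * (h : ℝ) ^ 20 * x0 h =
      |C₁| * s0 h + (1 + (2 + |η| + θ) * c.C) * s0 h := by
    rw [DSel_s0_eq]
    ring
  rw [hfin]
  have hpos : 0 ≤ 1 + (2 + |η| + θ) * c.C := by positivity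
  have hlast : 1 + (2 + |η| + θ) * c.C ≤ (1 + (2 + |η| + θ) * c.C) * s0 h :=
    le_mul_of_one_le_right hpos hs1
  linarith [hmean.2]

/-- The sum of the oscillation bounds. -/
private theorem DSel_sum_Ok (Q : Par) (g : V → ℝ) (hg : IsMean Q g) (c d : Crd) (c₀ C₁ θ η : ℝ)
    (hT : TwoCones g c d c₀ C₁ θ η) (e : Crd) (he : e = c ∨ e = d) :
    ∃ C h₀ : ℝ, ∀ h : ℕ, h₀ ≤ h → ∀ (R : ℝ) (M : Mdl Q.a Q.b), Good Q g R M →
    (h : ℝ) ^ 1000 ≤ R → ∑ k ∈ Finset.Ico 1 (h ^ 20 - 1), M.E (Ok c e h k) ≤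
      C * (h : ℝ) ^ 20 * x0 h := by
  obtain ⟨C1, h1, H1⟩ := E_sum_Xk Q g hg c d c₀ C₁ θ η hT e he
  obtain ⟨C2, h2, H2⟩ := E_Zn Q g hg c d c₀ C₁ θ η hT e he
  obtain ⟨C3, h3, H3⟩ := E_Zr Q g hg c d c₀ C₁ θ η hT e he
  obtain ⟨h4, H4⟩ := DSel_yM_p hT e he
  refine ⟨|C1| + 2 * |C2| + |C3|, max (max h1 h2) (max (max h3 h4) 2),
    fun h hh R M hG hR => ?_⟩
  have k1 : h1 ≤ h := (le_max_left _ _).trans ((le_max_left _ _).trans hh)
  have k2 : h2 ≤ h := (le_max_right _ _).trans ((le_max_left _ _).trans hh)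
  have k3 : h3 ≤ h := (le_max_left _ _).trans ((le_max_left _ _).trans ((le_max_right _ _).trans hh))
  have k4 : h4 ≤ h := (le_max_right _ _).trans ((le_max_left _ _).trans ((le_max_right _ _).trans hh))
  have k5 : (2 : ℝ) ≤ h := (le_max_right _ _).trans ((le_max_right _ _).trans hh)
  have hx : 0 ≤ x0 (h : ℝ) := DSel_x0_nonneg (by positivity)
  have hmono := fun τ k => DSel_ix_mono c e (H4 h k4) τ k
  -- pointwise bounds
  have hZ0 : ∀ τ k, 0 ≤ Zn c e h k τ := fun τ k => by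
    have := Zn_ge c e h k τ le_rfl (hmono τ k)
    linarith
  have hmax : ∀ τ k, max (Xk c e h k τ) 0 ≤ Xk c e h k τ + Zn c e h k τ := fun τ k => by
    have a1 := Zn_ge c e h k τ (hmono τ k) le_rfl
    have a2 := hZ0 τ k
    refine max_le (by linarith) ?_
    unfold Xk
    linarith
  -- the sum of the positive parts
  have hpos : ∑ k ∈ range (h ^ 20), M.E (fun τ => max (Xk c e h k τ) 0) ≤
      (|C1| + |C2|) * (h : ℝ) ^ 20 * x0 h := by
    have b1 : ∀ k ∈ range (h ^ 20), M.E (fun τ => max (Xk c e h k τ) 0) ≤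
        M.E (Xk c e h k) + |C2| * x0 h := fun k hk => by
      have c1 : M.E (fun τ => max (Xk c e h k τ) 0) ≤ M.E (Xk c e h k) + M.E (Zn c e h k) := by
        rw [← M.E_add]
        exact M.E_mono fun τ _ => hmax τ k
      have c2 := H2 h k2 R M hG hR k (Finset.mem_range.1 hk)
      have c3 : C2 * x0 h ≤ |C2| * x0 h := mul_le_mul_of_nonneg_right (le_abs_self _) hx
      linarith
    refine (Finset.sum_le_sum b1).trans ?_
    rw [Finset.sum_add_distrib, Finset.sum_const, Finset.card_range, nsmul_eq_mul]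
    have b2 := H1 h k1 R M hG hR
    have b3 : C1 * (h : ℝ) ^ 20 * x0 h ≤ |C1| * (h : ℝ) ^ 20 * x0 h :=
      mul_le_mul_of_nonneg_right (mul_le_mul_of_nonneg_right (le_abs_self _) (by positivity)) hx
    push_cast
    nlinarith
  have hsub : Finset.Ico 1 (h ^ 20 - 1) ⊆ range (h ^ 20) := fun k hk => by
    rw [Finset.mem_Ico] at hk
    rw [Finset.mem_range]
    omega
  have hpos' : ∑ k ∈ Finset.Ico 1 (h ^ 20 - 1), M.E (fun τ => max (Xk c e h k τ) 0) ≤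
      (|C1| + |C2|) * (h : ℝ) ^ 20 * x0 h :=
    (Finset.sum_le_sum_of_subset_of_nonneg hsub
      (fun k _ _ => M.E_nonneg fun τ _ => le_max_right _ _)).trans hpos
  have hO : ∀ k ∈ Finset.Ico 1 (h ^ 20 - 1), M.E (Ok c e h k) ≤
      M.E (fun τ => max (Xk c e h k τ) 0) + (|C2| + |C3|) * x0 h := fun k hk => by
    rw [Finset.mem_Ico] at hk
    have c1 : M.E (Ok c e h k) = M.E (fun τ => max (Xk c e h k τ) 0) + M.E (Zn c e h k) +
        M.E (Zr c e h k) := by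
      rw [← M.E_add, ← M.E_add]
      rfl
    have c2 := H2 h k2 R M hG hR k (by omega)
    have c3 := H3 h k3 R M hG hR k (by omega)
    have c4 : C2 * x0 h ≤ |C2| * x0 h := mul_le_mul_of_nonneg_right (le_abs_self _) hx
    have c5 : C3 * x0 h ≤ |C3| * x0 h := mul_le_mul_of_nonneg_right (le_abs_self _) hx
    rw [c1]
    linarith
  refine (Finset.sum_le_sum hO).trans ?_
  rw [Finset.sum_add_distrib, Finset.sum_const, Nat.card_Ico, nsmul_eq_mul]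
  have d1 : ((h ^ 20 - 1 - 1 : ℕ) : ℝ) ≤ (h : ℝ) ^ 20 := by
    have : h ^ 20 - 1 - 1 ≤ h ^ 20 := by omega
    exact_mod_cast this
  have d2 : ((h ^ 20 - 1 - 1 : ℕ) : ℝ) * ((|C2| + |C3|) * x0 h) ≤
      (h : ℝ) ^ 20 * ((|C2| + |C3|) * x0 h) :=
    mul_le_mul_of_nonneg_right d1 (by positivity)
  have d3 : (|C1| + 2 * |C2| + |C3|) * (h : ℝ) ^ 20 * x0 h =
      (|C1| + |C2|) * (h : ℝ) ^ 20 * x0 h + (h : ℝ) ^ 20 * ((|C2| + |C3|) * x0 h) := by ring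
  rw [d3]
  linarith

/-- **(6d).**  PROOF.  `max X 0 ≤ X + Zn` (`Zn ≥ -X`), so `∑_k E (max X 0) ≤ C h^20 x0`, hence `∑ E Ok ≤ C h^20 x0` over
`1 ≤ k`, `k + 1 < h^20` for both systems of columns; take the smallest term. -/
theorem exists_block (Q : Par) (g : V → ℝ) (hg : IsMean Q g) (c d : Crd) (c₀ C₁ θ η : ℝ)
    (hT : TwoCones g c d c₀ C₁ θ η) :
    ∃ C h₀ : ℝ, ∀ h : ℕ, h₀ ≤ h → ∀ (R : ℝ) (M : Mdl Q.a Q.b), Good Q g R M →
    (h : ℝ) ^ 1000 ≤ R → ∃ k : ℕ, 1 ≤ k ∧ k + 1 < h ^ 20 ∧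
      M.E (Ok c c h k) + M.E (Ok c d h k) ≤ C * x0 h := by
  obtain ⟨Cc, hc0, Hc⟩ := DSel_sum_Ok Q g hg c d c₀ C₁ θ η hT c (Or.inl rfl)
  obtain ⟨Cd, hd0, Hd⟩ := DSel_sum_Ok Q g hg c d c₀ C₁ θ η hT d (Or.inr rfl)
  refine ⟨2 * (|Cc| + |Cd|), max (max hc0 hd0) 2, fun h hh R M hG hR => ?_⟩
  have h1 : hc0 ≤ h := (le_max_left _ _).trans ((le_max_left _ _).trans hh)
  have h2 : hd0 ≤ h := (le_max_right _ _).trans ((le_max_left _ _).trans hh)
  have h3 : (2 : ℝ) ≤ h := (le_max_right _ _).trans hh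
  have h3n : 2 ≤ h := by exact_mod_cast h3
  have hc1 := Hc h h1 R M hG hR
  have hd1 := Hd h h2 R M hG hR
  have hx : 0 ≤ x0 (h : ℝ) := DSel_x0_nonneg (by positivity)
  have h20 : 4 ≤ h ^ 20 := by
    calc 4 ≤ 2 ^ 20 := by norm_num
      _ ≤ h ^ 20 := Nat.pow_le_pow_left h3n 20
  have h20r : (4 : ℝ) ≤ (h : ℝ) ^ 20 := by exact_mod_cast h20
  have hne : (Finset.Ico 1 (h ^ 20 - 1)).Nonempty := by
    rw [Finset.nonempty_Ico]
    omega
  have hsum : ∑ k ∈ Finset.Ico 1 (h ^ 20 - 1), (M.E (Ok c c h k) + M.E (Ok c d h k)) ≤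
      ∑ _k ∈ Finset.Ico 1 (h ^ 20 - 1), 2 * (|Cc| + |Cd|) * x0 h := by
    rw [Finset.sum_add_distrib, Finset.sum_const, Nat.card_Ico, nsmul_eq_mul]
    have e1 : ((h ^ 20 - 1 - 1 : ℕ) : ℝ) = (h : ℝ) ^ 20 - 2 := by
      rw [Nat.sub_sub, Nat.cast_sub (by omega)]
      push_cast
      ring
    rw [e1]
    have a1 : Cc * (h : ℝ) ^ 20 * x0 h ≤ |Cc| * (h : ℝ) ^ 20 * x0 h :=
      mul_le_mul_of_nonneg_right (mul_le_mul_of_nonneg_right (le_abs_self _) (by positivity)) hx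
    have a2 : Cd * (h : ℝ) ^ 20 * x0 h ≤ |Cd| * (h : ℝ) ^ 20 * x0 h :=
      mul_le_mul_of_nonneg_right (mul_le_mul_of_nonneg_right (le_abs_self _) (by positivity)) hx
    have a3 : 0 ≤ (|Cc| + |Cd|) * x0 h := by positivity
    nlinarith
  obtain ⟨k, hk, hk2⟩ := Finset.exists_le_of_sum_le hne hsum
  rw [Finset.mem_Ico] at hk
  exact ⟨k, hk.1, by omega, hk2⟩

end Pool.Agent.W_1b8d5d_h85
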