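import Mathlib

/-!
MP_1b8d5d_pr, proofs row 571: the limit shape of planar first-passage percolation is not a polygon.
Definitions: the grid, environments, passage times, finite expectations.
-/

set_option autoImplicit false

namespace Pool.Agent.W_1b8d5d_h85

open Finset
open scoped BigOperators

/-- The vertices of the square lattice. -/
abbrev V := ℤ × ℤ

/-- The `ℓ¹` norm. -/
def nm (x : V) : ℝ := |(x.1 : ℝ)| + |(x.2 : ℝ)|

/-- The two unit vectors. -/
def dir (s : Bool) : V := if s then (0, 1) else (1, 0)

/-- Edges: `(x, s)` joins `x` and `x + dir s`. -/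
abbrev Edge := V × Bool

/-- Environments: a passage time for every edge. -/
abbrev Env := Edge → ℝ

/-- The grid graph. -/
def grid : SimpleGraph V where
  Adj x y := ∃ s, y = x + dir s ∨ x = y + dir s
  symm := ⟨by
    rintro x y ⟨s, h | h⟩
    · exact ⟨s, Or.inr h⟩
    · exact ⟨s, Or.inl h⟩⟩
  loopless := ⟨by
    rintro x ⟨s, h | h⟩ <;>
    · have h1 := congrArg Prod.fst h
      have h2 := congrArg Prod.snd h
      cases s <;> simp [dir] at h1 h2⟩

/-- The edge which joins two adjacent vertices. -/
def ke : Sym2 V → Edge :=
  Sym2.lift ⟨fun x y => ((min x.1 y.1, min x.2 y.2), decide (x.1 = y.1)), by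
    intro x y
    simp only [min_comm x.1 y.1, min_comm x.2 y.2, eq_comm (a := x.1) (b := y.1)]⟩

/-- The list of the edges of a walk. -/
def wedges {x y : V} (w : grid.Walk x y) : List Edge := w.edges.map ke

/-- The passage time of a walk. -/
noncomputable def cost (τ : Env) {x y : V} (w : grid.Walk x y) : ℝ := ((wedges w).map τ).sum

/-- The passage time between two vertices. -/
noncomputable def T (τ : Env) (x y : V) : ℝ := ⨅ w : grid.Walk x y, cost τ w

/-- The environment has values in `[a, b]`. -/
def Bd (a b : ℝ) (τ : Env) : Prop := ∀ e, a ≤ τ e ∧ τ e ≤ b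

/-- `w` is a geodesic of the environment `τ`: a path which realises the passage time. -/
def IsGeo (τ : Env) {x y : V} (w : grid.Walk x y) : Prop := w.IsPath ∧ cost τ w = T τ x y

open Classical in
/-- The environment `τ` on the set `S` and `b` off `S`. -/
noncomputable def res (b : ℝ) (S : Set Edge) (τ : Env) : Env := fun e => if e ∈ S then τ e else b

/-- The shift of an environment. -/
def sh (z : V) (τ : Env) : Env := fun e => τ (e.1 + z, e.2)

/-- The reflected environment: the edge `(x, s)` is mapped to the edge from `-x - dir s` to `-x`. -/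
def rf (τ : Env) : Env := fun e => τ (-e.1 - dir e.2, e.2)

/-- The edges with both end points in the set `A` of vertices. -/
def edg (A : Set V) : Set Edge := {e | e.1 ∈ A ∧ e.1 + dir e.2 ∈ A}

/-- The comparison function for the fluctuations. -/
noncomputable def S (x : ℝ) : ℝ := Real.sqrt (x / Real.log (x + 2))

section prob

variable {Ω : Type*} [Fintype Ω]

/-- The average over a finite set. -/
noncomputable def Ex (f : Ω → ℝ) : ℝ := (∑ ω, f ω) / (Fintype.card Ω : ℝ)

open Classical in
/-- The uniform probability of an event. -/
noncomputable def Pr (p : Ω → Prop) : ℝ := Ex fun ω => if p ω then (1 : ℝ) else 0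

/-- The variance. -/
noncomputable def Vr (f : Ω → ℝ) : ℝ := Ex fun ω => (f ω - Ex f) ^ 2

end prob

section product

variable {J β : Type*} [Fintype J] [DecidableEq J] [Fintype β]

/-- The average over the coordinate `i`. -/
noncomputable def avg (i : J) (f : (J → β) → ℝ) : (J → β) → ℝ :=
  fun ω => Ex fun u => f (Function.update ω i u)

end product

end Pool.Agent.W_1b8d5d_h85
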