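import Pool.Agent.W_1b8d5d_h85.Basic

/-!
MP_1b8d5d_pr, proofs row 571, (1a): the Efron-Stein inequality on a finite product space.
-/

set_option autoImplicit false

namespace Pool.Agent.W_1b8d5d_h85

open Finset

variable {J β : Type} [Fintype J] [DecidableEq J] [Fintype β] [Nonempty β]

private theorem EfronStein_upd (i : J) (f : (J → β) → ℝ) (ω : J → β) (u : β) :
    avg i f (Function.update ω i u) = avg i f ω := by
  unfold avg
  simp only [Function.update_idem]

/-- fibrewise variance -/
private theorem EfronStein_fib (i : J) (f : (J → β) → ℝ) :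
    Ex (fun ω => (f ω - avg i f ω) ^ 2) =
      Ex fun ω => Vr fun u => f (Function.update ω i u) := by
  rw [← Ex_avg i]
  refine Ex_congr fun ω => ?_
  show Ex (fun u => (f (Function.update ω i u) - avg i f (Function.update ω i u)) ^ 2) = _
  unfold Vr
  refine Ex_congr fun u => ?_
  rw [EfronStein_upd]
  rfl

private theorem EfronStein_sq (i : J) (f : (J → β) → ℝ) :
    Ex (fun ω => (f ω - avg i f ω) ^ 2) =
      Ex (fun ω => f ω ^ 2) - Ex (fun ω => avg i f ω ^ 2) := by
  rw [EfronStein_fib]
  have h1 : ∀ ω : J → β, Vr (fun u => f (Function.update ω i u)) =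
      avg i (fun ω => f ω ^ 2) ω - avg i f ω ^ 2 := by
    intro ω
    rw [Vr_eq]
    rfl
  rw [Ex_congr h1, Ex_sub (avg i (fun ω => f ω ^ 2)), Ex_avg]

private theorem EfronStein_contr (i : J) (f : (J → β) → ℝ) :
    Ex (fun ω => avg i f ω ^ 2) ≤ Ex (fun ω => f ω ^ 2) := by
  have h1 := EfronStein_sq i f
  have h2 : 0 ≤ Ex (fun ω => (f ω - avg i f ω) ^ 2) := Ex_nonneg fun ω => sq_nonneg _
  linarith

private theorem EfronStein_comm (i j : J) (f : (J → β) → ℝ) :
    avg j (avg i f) = avg i (avg j f) := by
  by_cases h : i = j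
  · rw [h]
  · funext ω
    show Ex (fun u => Ex fun v => f (Function.update (Function.update ω j u) i v)) =
      Ex (fun u => Ex fun v => f (Function.update (Function.update ω i u) j v))
    rw [Ex_comm]
    refine Ex_congr fun v => Ex_congr fun u => ?_
    rw [Function.update_comm h]

private theorem EfronStein_avg_sub (i : J) (f g : (J → β) → ℝ) (ω : J → β) :
    avg i (fun ω => f ω - g ω) ω = avg i f ω - avg i g ω := by
  unfold avg
  exact Ex_sub _ _

private theorem EfronStein_main (s : Finset J) : ∀ (t : Finset J) (f : (J → β) → ℝ),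
    (∀ ω ω' : J → β, (∀ j, j ∉ t → ω j = ω' j) → f ω = f ω') →
    ∃ g : (J → β) → ℝ, Ex g = Ex f ∧
      (∀ ω ω' : J → β, (∀ j, j ∉ t ∪ s → ω j = ω' j) → g ω = g ω') ∧
      Ex (fun ω => f ω ^ 2) - Ex (fun ω => g ω ^ 2) ≤
        ∑ i ∈ s, Ex fun ω => (f ω - avg i f ω) ^ 2 := by
  induction s using Finset.induction_on with
  | empty =>
    intro t f hf
    refine ⟨f, rfl, ?_, ?_⟩
    · intro ω ω' h
      exact hf ω ω' fun j hj => h j (by simpa using hj)
    · simp
  | insert i s hi ih =>
    intro t f hf
    have hD : ∀ ω ω' : J → β, (∀ j, j ∉ insert i t → ω j = ω' j) →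
        avg i f ω = avg i f ω' := by
      intro ω ω' h
      unfold avg
      refine Ex_congr fun u => ?_
      apply hf
      intro j hj
      by_cases hji : j = i
      · rw [hji, Function.update_self, Function.update_self]
      · rw [Function.update_of_ne hji, Function.update_of_ne hji]
        exact h j (by
          rw [mem_insert]
          push Not
          exact ⟨hji, hj⟩)
    obtain ⟨g, hg1, hg2, hg3⟩ := ih (insert i t) (avg i f) hD
    refine ⟨g, hg1.trans (Ex_avg i f), ?_, ?_⟩
    · intro ω ω' h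
      apply hg2
      intro j hj
      apply h
      intro hj'
      apply hj
      simp only [mem_union, mem_insert] at hj' ⊢
      tauto
    · rw [sum_insert hi, EfronStein_sq i f]
      have h1 : ∑ j ∈ s, Ex (fun ω => (avg i f ω - avg j (avg i f) ω) ^ 2) ≤
          ∑ j ∈ s, Ex (fun ω => (f ω - avg j f ω) ^ 2) := by
        refine sum_le_sum fun j _ => ?_
        have h2 := EfronStein_contr i (fun ω => f ω - avg j f ω)
        refine le_trans (le_of_eq ?_) h2
        refine Ex_congr fun ω => ?_
        rw [EfronStein_avg_sub, EfronStein_comm i j]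
      linarith

/-- PROOF.  Enumerate `J` (induct on a `Finset`, or use `Fintype.equivFin`), `f_j` = average of `f` over the first `j`
coordinates.  `E f_{j-1}² - E f_j² = E (f_{j-1} - avg j f_{j-1})²` (orthogonality, `Ex_avg`) and
`f_{j-1} - avg j f_{j-1}` is the average over the first `j-1` coordinates of `f - avg j f` (the averages commute), so by
Cauchy-Schwarz (`sq_Ex_le` in every coordinate) it is at most `E (f - avg j f)²`. -/
theorem efron_stein (f : (J → β) → ℝ) :
    Vr f ≤ ∑ i, Ex fun ω => (f ω - avg i f ω) ^ 2 := by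
  obtain ⟨g, hg1, hg2, hg3⟩ := EfronStein_main (univ : Finset J) ∅ f (by
    intro ω ω' h
    rw [funext fun j => h j (notMem_empty j)])
  have hconst : ∀ ω, g ω = Ex f := by
    intro ω
    rw [← hg1]
    have h1 : Ex g = Ex fun _ : J → β => g ω := by
      refine Ex_congr fun ω' => hg2 _ _ fun j hj => ?_
      exact absurd (mem_union_right ∅ (mem_univ j)) hj
    rw [h1, Ex_const]
  have h2 : Ex (fun ω => g ω ^ 2) = Ex f ^ 2 := by
    rw [Ex_congr (g := fun _ => Ex f ^ 2) fun ω => by rw [hconst ω], Ex_const]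
  rw [Vr_eq, ← h2]
  exact hg3

private theorem EfronStein_sym (F : β → ℝ) :
    Vr F = Ex fun u => Ex fun v => (max (F v - F u) 0) ^ 2 := by
  have h1 : Ex (fun u => Ex fun v => (max (F v - F u) 0) ^ 2) =
      Ex (fun u => Ex fun v => (max (F u - F v) 0) ^ 2) := by
    rw [Ex_comm]
  have h2 : Ex (fun u => Ex fun v => (max (F v - F u) 0) ^ 2) +
      Ex (fun u => Ex fun v => (max (F u - F v) 0) ^ 2) =
      Ex (fun u => Ex fun v => (F u - F v) ^ 2) := by
    rw [← Ex_add]
    refine Ex_congr fun u => ?_
    rw [← Ex_add]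
    refine Ex_congr fun v => ?_
    rcases le_total (F u) (F v) with h | h
    · rw [max_eq_left (by linarith), max_eq_right (by linarith)]
      ring
    · rw [max_eq_right (by linarith), max_eq_left (by linarith)]
      ring
  have h3 : Ex (fun u => Ex fun v => (F u - F v) ^ 2) = 2 * Vr F := by
    have h4 : ∀ u, Ex (fun v => (F u - F v) ^ 2) =
        F u ^ 2 - 2 * Ex F * F u + Ex (fun v => F v ^ 2) := by
      intro u
      have h5 : ∀ v, (F u - F v) ^ 2 = F u ^ 2 - 2 * F u * F v + F v ^ 2 := fun v => by ring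
      rw [Ex_congr h5, Ex_add, Ex_sub, Ex_mul_left, Ex_const]
      ring
    rw [Ex_congr h4, Ex_add, Ex_sub, Ex_mul_left, Ex_const, Vr_eq]
    ring
  linarith

/-- PROOF.  For fixed other coordinates, `E_u (F u - E F)² = (1/2) E_u E_v (F u - F v)² = E_u E_v (max (F v - F u) 0)²`
(for real numbers `(x-y)² = (max (x-y) 0)² + (max (y-x) 0)²`, symmetry). -/
theorem efron_stein' (f : (J → β) → ℝ) :
    Vr f ≤ ∑ i, Ex fun ω => Ex fun u => (max (f (Function.update ω i u) - f ω) 0) ^ 2 := by
  refine (efron_stein f).trans (le_of_eq ?_)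
  refine sum_congr rfl fun i _ => ?_
  rw [EfronStein_fib, ← Ex_avg i (fun ω => Ex fun u =>
    (max (f (Function.update ω i u) - f ω) 0) ^ 2)]
  refine Ex_congr fun ω => ?_
  rw [EfronStein_sym]
  unfold avg
  simp only [Function.update_idem]

end Pool.Agent.W_1b8d5d_h85
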