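import Pool.Agent.W_1b8d5d_h85.EfronStein

/-!
MP_1b8d5d_pr, proofs row 571, (1b): exponential concentration from the Efron-Stein inequality (Aida-Stroock).
-/

set_option autoImplicit false

namespace Pool.Agent.W_1b8d5d_h85

open Finset

variable {J β : Type} [Fintype J] [DecidableEq J] [Fintype β] [Nonempty β]

private theorem ExpConc_half : Real.exp (1 / 2) ≤ 2 := by
  have h1 : Real.exp (1 / 2) ^ 2 = Real.exp 1 := by
    rw [← Real.exp_nat_mul]
    norm_num
  have h2 := Real.exp_one_lt_d9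
  have h3 := Real.exp_pos (1 / 2)
  nlinarith

private theorem ExpConc_lam {v c lam : ℝ} (hcv : c ^ 2 ≤ v) (hv0 : 0 < v)
    (hl : |lam| ≤ 1 / (2 * Real.sqrt v)) : |lam| * c ≤ 1 / 2 ∧ lam ^ 2 * v ≤ 1 / 4 := by
  have hs : 0 < Real.sqrt v := Real.sqrt_pos.2 hv0
  have hsq : Real.sqrt v ^ 2 = v := Real.sq_sqrt hv0.le
  have hc : c ≤ Real.sqrt v := Real.le_sqrt_of_sq_le hcv
  have h1 : |lam| * Real.sqrt v ≤ 1 / 2 := by
    calc |lam| * Real.sqrt v ≤ 1 / (2 * Real.sqrt v) * Real.sqrt v := by gcongr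
      _ = 1 / 2 := by field_simp
  constructor
  · calc |lam| * c ≤ |lam| * Real.sqrt v := by gcongr
      _ ≤ 1 / 2 := h1
  · have h2 : lam ^ 2 * v = (|lam| * Real.sqrt v) ^ 2 := by
      rw [mul_pow, sq_abs, hsq]
    rw [h2]
    have h3 : 0 ≤ |lam| * Real.sqrt v := by positivity
    nlinarith

private theorem ExpConc_pos {lam c x y : ℝ} (h0 : 0 ≤ lam) (hc : |y - x| ≤ c)
    (hlc : lam * c ≤ 1 / 2) :
    (max (Real.exp (lam / 2 * y) - Real.exp (lam / 2 * x)) 0) ^ 2 ≤
      Real.exp (lam * x) * (lam ^ 2 / 2) * (max (y - x) 0) ^ 2 := by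
  rcases le_total y x with h | h
  · have h1 : Real.exp (lam / 2 * y) - Real.exp (lam / 2 * x) ≤ 0 := by
      rw [sub_nonpos]
      apply Real.exp_le_exp.2
      nlinarith
    rw [max_eq_right h1, zero_pow two_ne_zero]
    positivity
  · have h1 : 0 ≤ Real.exp (lam / 2 * y) - Real.exp (lam / 2 * x) := by
      rw [sub_nonneg]
      apply Real.exp_le_exp.2
      nlinarith
    rw [max_eq_left h1, max_eq_left (sub_nonneg.2 h)]
    set d := y - x with hd
    have hd0 : 0 ≤ d := sub_nonneg.2 h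
    have hdc : d ≤ c := (le_abs_self _).trans hc
    have e1 : Real.exp (lam / 2 * y) = Real.exp (lam / 2 * x) * Real.exp (lam * d / 2) := by
      rw [← Real.exp_add]
      congr 1
      rw [hd]
      ring
    have e2 : Real.exp (lam * d / 2) - 1 ≤ lam * d / 2 * Real.exp (lam * d / 2) := by
      have h3 := Real.add_one_le_exp (-(lam * d / 2))
      have h4 := Real.exp_pos (lam * d / 2)
      have h5 : Real.exp (lam * d / 2) * Real.exp (-(lam * d / 2)) = 1 := by
        rw [← Real.exp_add]; simp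
      nlinarith
    have e3 : Real.exp (lam * d / 2) ^ 2 ≤ 2 := by
      rw [← Real.exp_nat_mul]
      refine le_trans (Real.exp_le_exp.2 ?_) ExpConc_half
      push_cast
      nlinarith
    have e4 : Real.exp (lam / 2 * x) ^ 2 = Real.exp (lam * x) := by
      rw [← Real.exp_nat_mul]
      congr 1
      push_cast
      ring
    have e5 : 0 ≤ Real.exp (lam * d / 2) - 1 := by
      have := Real.add_one_le_exp (lam * d / 2)
      have h6 : 0 ≤ lam * d := mul_nonneg h0 hd0
      linarith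
    have e6 : (Real.exp (lam * d / 2) - 1) ^ 2 ≤ (lam ^ 2 / 2) * d ^ 2 := by
      calc (Real.exp (lam * d / 2) - 1) ^ 2 ≤ (lam * d / 2 * Real.exp (lam * d / 2)) ^ 2 := by
            gcongr
        _ = (lam * d / 2) ^ 2 * Real.exp (lam * d / 2) ^ 2 := by ring
        _ ≤ (lam * d / 2) ^ 2 * 2 := by gcongr
        _ = (lam ^ 2 / 2) * d ^ 2 := by ring
    calc (Real.exp (lam / 2 * y) - Real.exp (lam / 2 * x)) ^ 2
        = Real.exp (lam / 2 * x) ^ 2 * (Real.exp (lam * d / 2) - 1) ^ 2 := by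
          rw [e1]; ring
      _ ≤ Real.exp (lam / 2 * x) ^ 2 * ((lam ^ 2 / 2) * d ^ 2) := by gcongr
      _ = _ := by rw [e4]; ring

private theorem ExpConc_neg {lam x y : ℝ} (h0 : lam ≤ 0) :
    (max (Real.exp (lam / 2 * x) - Real.exp (lam / 2 * y)) 0) ^ 2 ≤
      Real.exp (lam * x) * (lam ^ 2 / 2) * (max (y - x) 0) ^ 2 := by
  rcases le_total y x with h | h
  · have h1 : Real.exp (lam / 2 * x) - Real.exp (lam / 2 * y) ≤ 0 := by
      rw [sub_nonpos]
      apply Real.exp_le_exp.2
      nlinarith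
    rw [max_eq_right h1, zero_pow two_ne_zero]
    positivity
  · have h1 : 0 ≤ Real.exp (lam / 2 * x) - Real.exp (lam / 2 * y) := by
      rw [sub_nonneg]
      apply Real.exp_le_exp.2
      nlinarith
    rw [max_eq_left h1, max_eq_left (sub_nonneg.2 h)]
    set d := y - x with hd
    have hd0 : 0 ≤ d := sub_nonneg.2 h
    have e1 : Real.exp (lam / 2 * y) = Real.exp (lam / 2 * x) * Real.exp (lam * d / 2) := by
      rw [← Real.exp_add]
      congr 1
      rw [hd]
      ring
    have e2 : 1 - Real.exp (lam * d / 2) ≤ -(lam * d / 2) := by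
      have h3 := Real.add_one_le_exp (lam * d / 2)
      linarith
    have e5 : 0 ≤ 1 - Real.exp (lam * d / 2) := by
      have h6 : lam * d ≤ 0 := mul_nonpos_of_nonpos_of_nonneg h0 hd0
      have : Real.exp (lam * d / 2) ≤ 1 := Real.exp_le_one_iff.2 (by linarith)
      linarith
    have e4 : Real.exp (lam / 2 * x) ^ 2 = Real.exp (lam * x) := by
      rw [← Real.exp_nat_mul]
      congr 1
      push_cast
      ring
    have e6 : (1 - Real.exp (lam * d / 2)) ^ 2 ≤ (lam ^ 2 / 2) * d ^ 2 := by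
      calc (1 - Real.exp (lam * d / 2)) ^ 2 ≤ (-(lam * d / 2)) ^ 2 := by gcongr
        _ = (lam ^ 2 / 4) * d ^ 2 := by ring
        _ ≤ (lam ^ 2 / 2) * d ^ 2 := by gcongr; norm_num
    calc (Real.exp (lam / 2 * x) - Real.exp (lam / 2 * y)) ^ 2
        = Real.exp (lam / 2 * x) ^ 2 * (1 - Real.exp (lam * d / 2)) ^ 2 := by
          rw [e1]; ring
      _ ≤ Real.exp (lam / 2 * x) ^ 2 * ((lam ^ 2 / 2) * d ^ 2) := by gcongr
      _ = _ := by rw [e4]; ring

private theorem ExpConc_sum (f h : (J → β) → ℝ) {v lam : ℝ}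
    (hv : ∀ ω, ∑ i, Ex (fun u => (max (f (Function.update ω i u) - f ω) 0) ^ 2) ≤ v)
    (hh : ∀ ω i u, (max (h (Function.update ω i u) - h ω) 0) ^ 2 ≤
      Real.exp (lam * f ω) * (lam ^ 2 / 2) * (max (f (Function.update ω i u) - f ω) 0) ^ 2) :
    Vr h ≤ lam ^ 2 * v / 2 * Ex (fun ω => Real.exp (lam * f ω)) := by
  refine (efron_stein' h).trans ?_
  rw [← Ex_sum, ← Ex_mul_left]
  refine Ex_mono fun ω => ?_
  calc ∑ i, Ex (fun u => (max (h (Function.update ω i u) - h ω) 0) ^ 2)
      ≤ ∑ i, Ex (fun u => Real.exp (lam * f ω) * (lam ^ 2 / 2) *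
          (max (f (Function.update ω i u) - f ω) 0) ^ 2) := by
        refine sum_le_sum fun i _ => Ex_mono fun u => hh ω i u
    _ = Real.exp (lam * f ω) * (lam ^ 2 / 2) *
          ∑ i, Ex (fun u => (max (f (Function.update ω i u) - f ω) 0) ^ 2) := by
        rw [mul_sum]
        refine sum_congr rfl fun i _ => ?_
        rw [Ex_mul_left]
    _ ≤ Real.exp (lam * f ω) * (lam ^ 2 / 2) * v := by
        refine mul_le_mul_of_nonneg_left (hv ω) (by positivity)
    _ = _ := by ring

/-- PROOF.  Let `|lam| ≤ 1/(2√v)` and `G = exp (lam f / 2)`.  For `f' = f (update ω i u) > f ω`: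
`(G' - G)² ≤ (lam²/4) (f' - f)² exp (|lam| c) G²` (mean value; for `lam > 0` use `G' ≤ exp (lam c / 2) G`, for `lam < 0` the
larger value is `G`).  So `efron_stein'` for `G` gives `Vr G ≤ (lam²/4) e^{1/2} v E G²`, `E G² - (E G)² ≤ ...`.  Remark: in
`efron_stein'` for `G` the sign matters only through `(G'-G)²`, so use the symmetric form: the sum over the pairs
`f' > f` of `(G'-G)²`; for `lam < 0` apply `efron_stein'` to `-G` or use the symmetry of the double average. -/
theorem mgf_step (f : (J → β) → ℝ) {v c : ℝ}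
    (hv : ∀ ω, ∑ i, Ex (fun u => (max (f (Function.update ω i u) - f ω) 0) ^ 2) ≤ v)
    (hc : ∀ ω i u, |f (Function.update ω i u) - f ω| ≤ c) (hcv : c ^ 2 ≤ v) (hv0 : 0 < v)
    {lam : ℝ} (hl : |lam| ≤ 1 / (2 * Real.sqrt v)) :
    (1 - lam ^ 2 * v / 2) * Ex (fun ω => Real.exp (lam * f ω))
      ≤ Ex (fun ω => Real.exp (lam / 2 * f ω)) ^ 2 := by
  obtain ⟨hlc, -⟩ := ExpConc_lam hcv hv0 hl
  have hVr : Vr (fun ω => Real.exp (lam / 2 * f ω)) ≤
      lam ^ 2 * v / 2 * Ex (fun ω => Real.exp (lam * f ω)) := by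
    rcases le_total 0 lam with h0 | h0
    · rw [abs_of_nonneg h0] at hlc
      exact ExpConc_sum f _ hv fun ω i u => ExpConc_pos h0 (hc ω i u) hlc
    · have h1 := ExpConc_sum (lam := lam) f (fun ω => -Real.exp (lam / 2 * f ω)) hv (fun ω i u => by
        have h2 := ExpConc_neg (x := f ω) (y := f (Function.update ω i u)) h0
        have h3 : -Real.exp (lam / 2 * f (Function.update ω i u)) - -Real.exp (lam / 2 * f ω) =
            Real.exp (lam / 2 * f ω) - Real.exp (lam / 2 * f (Function.update ω i u)) := by ring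
        rw [h3]
        exact h2)
      have h4 : Vr (fun ω => -Real.exp (lam / 2 * f ω)) = Vr (fun ω => Real.exp (lam / 2 * f ω)) := by
        unfold Vr
        rw [Ex_neg]
        refine Ex_congr fun ω => ?_
        ring
      rwa [h4] at h1
  rw [Vr_eq] at hVr
  have h5 : Ex (fun ω => Real.exp (lam / 2 * f ω) ^ 2) = Ex (fun ω => Real.exp (lam * f ω)) := by
    refine Ex_congr fun ω => ?_
    rw [← Real.exp_nat_mul]
    congr 1
    push_cast
    ring
  rw [h5] at hVr
  linarith

/-- PROOF.  With `M(lam) = E exp (lam (f - E f))`, `mgf_step` (for `f - E f`) gives `M(lam) ≤ (1 - lam² v/2)⁻¹ M(lam/2)²`;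
iterate `n` times and let `n → ∞`: `M(lam/2^n)^(2^n) → 1` because `M(δ) ≤ 1 + C δ²` (`f` bounded).
`∏_{j<n} (1 - lam² v 4^-j/2)^(-2^j) ≤ exp (2 lam² v)`. -/
theorem mgf_bound (f : (J → β) → ℝ) {v c : ℝ}
    (hv : ∀ ω, ∑ i, Ex (fun u => (max (f (Function.update ω i u) - f ω) 0) ^ 2) ≤ v)
    (hc : ∀ ω i u, |f (Function.update ω i u) - f ω| ≤ c) (hcv : c ^ 2 ≤ v) (hv0 : 0 < v)
    {lam : ℝ} (hl : |lam| ≤ 1 / (2 * Real.sqrt v)) :
    Ex (fun ω => Real.exp (lam * (f ω - Ex f))) ≤ Real.exp (2 * lam ^ 2 * v) := by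
  set B : ℝ := ∑ ω, |f ω - Ex f| with hB
  have hFB : ∀ ω, |f ω - Ex f| ≤ B := fun ω =>
    single_le_sum (f := fun ω => |f ω - Ex f|) (fun _ _ => abs_nonneg _) (mem_univ ω)
  have hB0 : 0 ≤ B := sum_nonneg fun _ _ => abs_nonneg _
  have hE0 : Ex (fun ω => f ω - Ex f) = 0 := by
    rw [Ex_sub_const, sub_self]
  have hVv : Vr f ≤ v := by
    refine (efron_stein' f).trans ?_
    rw [← Ex_sum]
    exact Ex_le_of_le hv
  have key : ∀ (n : ℕ) (m : ℝ), |m| ≤ 1 / (2 * Real.sqrt v) → |m| / 2 ^ n * B ≤ 1 →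
      Ex (fun ω => Real.exp (m * (f ω - Ex f))) ≤ Real.exp (2 * m ^ 2 * v) := by
    intro n
    induction n with
    | zero =>
      intro m _ hm
      rw [pow_zero, div_one] at hm
      have h1 : ∀ ω, Real.exp (m * (f ω - Ex f)) ≤
          1 + (m * (f ω - Ex f) + m ^ 2 * (f ω - Ex f) ^ 2) := by
        intro ω
        have h2 : |m * (f ω - Ex f)| ≤ 1 := by
          rw [abs_mul]
          refine le_trans ?_ hm
          exact mul_le_mul_of_nonneg_left (hFB ω) (abs_nonneg _)
        have h3 := (abs_le.1 (Real.abs_exp_sub_one_sub_id_le h2)).2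
        have h4 : (m * (f ω - Ex f)) ^ 2 = m ^ 2 * (f ω - Ex f) ^ 2 := by ring
        linarith
      have h5 : Ex (fun ω => 1 + (m * (f ω - Ex f) + m ^ 2 * (f ω - Ex f) ^ 2)) =
          1 + m ^ 2 * Vr f := by
        rw [Ex_add (fun _ => (1 : ℝ)), Ex_const, Ex_add, Ex_mul_left, Ex_mul_left, hE0]
        unfold Vr
        ring
      calc Ex (fun ω => Real.exp (m * (f ω - Ex f))) ≤ 1 + m ^ 2 * Vr f := by
            rw [← h5]; exact Ex_mono h1
        _ ≤ 1 + m ^ 2 * v := by
            have : m ^ 2 * Vr f ≤ m ^ 2 * v := mul_le_mul_of_nonneg_left hVv (sq_nonneg _)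
            linarith
        _ ≤ Real.exp (m ^ 2 * v) := by
            have := Real.add_one_le_exp (m ^ 2 * v)
            linarith
        _ ≤ Real.exp (2 * m ^ 2 * v) := by
            apply Real.exp_le_exp.2
            have : 0 ≤ m ^ 2 * v := by positivity
            linarith
    | succ n ih =>
      intro m hm hm'
      obtain ⟨-, hmv⟩ := ExpConc_lam hcv hv0 hm
      have h1 : |m / 2| = |m| / 2 := by
        rw [abs_div]
        norm_num
      have h2 := ih (m / 2) (by
        rw [h1]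
        have := abs_nonneg m
        linarith) (by
        rw [h1]
        refine le_trans (le_of_eq ?_) hm'
        rw [pow_succ]
        ring)
      have h3 := mgf_step (fun ω => f ω - Ex f) (v := v) (c := c)
        (fun ω => by
          refine le_trans (le_of_eq ?_) (hv ω)
          refine sum_congr rfl fun i _ => Ex_congr fun u => ?_
          congr 2
          ring)
        (fun ω i u => by
          refine le_trans (le_of_eq ?_) (hc ω i u)
          congr 1
          ring)
        hcv hv0 hm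
      have h6 : 0 ≤ m ^ 2 * v / 2 := by positivity
      have h4 : 1 ≤ (1 - m ^ 2 * v / 2) * Real.exp (m ^ 2 * v) := by
        have h5 := Real.add_one_le_exp (m ^ 2 * v)
        nlinarith
      have h7 : 0 < 1 - m ^ 2 * v / 2 := by linarith
      have hpos : 0 ≤ Ex (fun ω => Real.exp (m / 2 * (f ω - Ex f))) :=
        Ex_nonneg fun ω => (Real.exp_pos _).le
      have h8 : Ex (fun ω => Real.exp (m / 2 * (f ω - Ex f))) ^ 2 ≤ Real.exp (m ^ 2 * v) := by
        calc Ex (fun ω => Real.exp (m / 2 * (f ω - Ex f))) ^ 2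
            ≤ Real.exp (2 * (m / 2) ^ 2 * v) ^ 2 := by gcongr
          _ = Real.exp (m ^ 2 * v) := by
              rw [← Real.exp_nat_mul]
              congr 1
              push_cast
              ring
      have h9 : 0 ≤ Ex (fun ω => Real.exp (m * (f ω - Ex f))) :=
        Ex_nonneg fun ω => (Real.exp_pos _).le
      have h10 : Real.exp (2 * m ^ 2 * v) = Real.exp (m ^ 2 * v) * Real.exp (m ^ 2 * v) := by
        rw [← Real.exp_add]
        congr 1
        ring
      rw [h10]
      calc Ex (fun ω => Real.exp (m * (f ω - Ex f)))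
          = 1 * Ex (fun ω => Real.exp (m * (f ω - Ex f))) := (one_mul _).symm
        _ ≤ (1 - m ^ 2 * v / 2) * Real.exp (m ^ 2 * v) *
              Ex (fun ω => Real.exp (m * (f ω - Ex f))) := by gcongr
        _ = Real.exp (m ^ 2 * v) * ((1 - m ^ 2 * v / 2) *
              Ex (fun ω => Real.exp (m * (f ω - Ex f)))) := by ring
        _ ≤ Real.exp (m ^ 2 * v) * Real.exp (m ^ 2 * v) := by
            refine mul_le_mul_of_nonneg_left (h3.trans h8) (Real.exp_pos _).le
  obtain ⟨n, hn⟩ := pow_unbounded_of_one_lt (|lam| * B) (one_lt_two)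
  refine key n lam hl ?_
  rw [div_mul_eq_mul_div, div_le_one (by positivity)]
  exact hn.le

/-- PROOF.  Markov with `lam = ± 1/(2√v)`. -/
theorem exp_conc (f : (J → β) → ℝ) {v c : ℝ}
    (hv : ∀ ω, ∑ i, Ex (fun u => (max (f (Function.update ω i u) - f ω) 0) ^ 2) ≤ v)
    (hc : ∀ ω i u, |f (Function.update ω i u) - f ω| ≤ c) (hcv : c ^ 2 ≤ v) (hv0 : 0 < v)
    (s : ℝ) :
    Pr (fun ω => s ≤ |f ω - Ex f|) ≤ 4 * Real.exp (-(s / (2 * Real.sqrt v))) := by
  have hs : 0 < Real.sqrt v := Real.sqrt_pos.2 hv0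
  have hsq : Real.sqrt v ^ 2 = v := Real.sq_sqrt hv0.le
  have main : ∀ lam : ℝ, |lam| = 1 / (2 * Real.sqrt v) →
      Pr (fun ω => |lam| * s ≤ lam * (f ω - Ex f)) ≤
        2 * Real.exp (-(s / (2 * Real.sqrt v))) := by
    intro lam hlam
    have h1 := mgf_bound f hv hc hcv hv0 hlam.le
    have h2 : 2 * lam ^ 2 * v = 1 / 2 := by
      rw [← sq_abs, hlam, div_pow, mul_pow, hsq]
      field_simp
    rw [h2] at h1
    have h3 := markov (f := fun ω => Real.exp (lam * (f ω - Ex f)))
      (fun ω => (Real.exp_pos _).le) (Real.exp_pos (|lam| * s))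
    refine (Pr_mono fun ω hω => ?_).trans (h3.trans ?_)
    · exact Real.exp_le_exp.2 hω
    · rw [div_eq_mul_inv, ← Real.exp_neg]
      have h4 : -(|lam| * s) = -(s / (2 * Real.sqrt v)) := by
        rw [hlam]; ring
      rw [h4]
      refine mul_le_mul_of_nonneg_right (h1.trans ExpConc_half) (Real.exp_pos _).le
  have hL : 0 < 1 / (2 * Real.sqrt v) := by positivity
  have m1 := main (1 / (2 * Real.sqrt v)) (abs_of_pos hL)
  have m2 := main (-(1 / (2 * Real.sqrt v))) (by rw [abs_neg, abs_of_pos hL])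
  have h5 : Pr (fun ω => s ≤ |f ω - Ex f|) ≤
      Pr (fun ω => |1 / (2 * Real.sqrt v)| * s ≤ 1 / (2 * Real.sqrt v) * (f ω - Ex f) ∨
        |-(1 / (2 * Real.sqrt v))| * s ≤ -(1 / (2 * Real.sqrt v)) * (f ω - Ex f)) := by
    refine Pr_mono fun ω hω => ?_
    rw [abs_neg, abs_of_pos hL]
    rcases le_abs.1 hω with h | h
    · left
      exact mul_le_mul_of_nonneg_left h hL.le
    · right
      have := mul_le_mul_of_nonneg_left h hL.le
      linarith
  have h6 := h5.trans (Pr_or _ _)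
  linarith

end Pool.Agent.W_1b8d5d_h85
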