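import Pool.Agent.W_1b8d5d_h85.FEdges

/-!
MP_1b8d5d_pr, proofs row 571, sections 4 and 8: the cones of two adjacent edges.
-/

set_option autoImplicit false

namespace Pool.Agent.W_1b8d5d_h85

/-- The relation between the time constant `μ` and the mean passage times `g`. -/
structure MuG (b : ℝ) (μ : ℝ × ℝ → ℝ) (g : V → ℝ) : Prop where
  hom : ∀ (c : ℝ) (x : ℝ × ℝ), 0 ≤ c → μ (c • x) = c * μ x
  pos : ∀ x : ℝ × ℝ, x ≠ 0 → 0 < μ x
  upp : ∀ x : ℝ × ℝ, μ x ≤ b * rn x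
  le : ∀ x : V, μ (toR x) ≤ g x
  lim : ∀ (v : ℝ × ℝ) (ε D : ℝ), 0 < ε → ∃ n₀ : ℕ, ∀ n : ℕ, n₀ ≤ n → ∀ x : V,
    rn (toR x - (n : ℝ) • v) ≤ D → g x ≤ n * (μ v + ε)

/-- The corner bound of section 3, for all corners (this is `corner` of part B). -/
def CornerThm (g : V → ℝ) : Prop :=
  ∀ c : Crd, (∀ z, c.p z + |c.q z| ≤ g z) →
    (∀ ε : ℝ, 0 < ε → ∃ L : ℝ, ∀ l : ℝ, L ≤ l → g (c.rd l 0) ≤ (1 + ε) * l) →
    ∀ C₀ : ℝ, ∃ C₁ : ℝ, 0 ≤ C₁ ∧ ∀ (l : ℝ) (z : V), 1 ≤ l → |c.p z - l| ≤ C₀ → |c.q z| ≤ C₀ →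
      g z ≤ l + C₁ * S l

/-- The cones of two adjacent edges of the polygon, with the common end point `v`. -/
structure FTwoCones (g : V → ℝ) where
  c : Crd
  c' : Crd
  c₀ : ℝ
  C₁ : ℝ
  η : ℝ
  θ : ℝ
  h : IsCone g c c₀ C₁
  h' : IsCone g c' c₀ C₁
  hθ : 0 < θ
  hκ : η - θ < 1
  hp : ∀ x, c'.p x = c.p x + η * c.q x
  hq : ∀ x, c'.q x = -θ * c.q x

variable {b : ℝ} {μ : ℝ × ℝ → ℝ} {g : V → ℝ}

/-- A linear form which is at most one on `{μ ≤ 1}` is at most `μ`. -/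
theorem dp_le_mu (h : MuG b μ g) {f : ℝ × ℝ} (hf : ∀ w, μ w ≤ 1 → dp f w ≤ 1) (x : ℝ × ℝ) :
    dp f x ≤ μ x := by
  by_cases hx : x = 0
  · subst hx
    have h0 := h.hom 0 0 le_rfl
    rw [zero_smul, zero_mul] at h0
    rw [h0]
    simp [dp]
  · have hpos := h.pos x hx
    have h1 : μ ((μ x)⁻¹ • x) = 1 := by
      rw [h.hom _ _ (inv_nonneg.mpr hpos.le), inv_mul_cancel₀ hpos.ne']
    have h2 := hf _ h1.le
    rw [dp_smul, inv_mul_le_iff₀ hpos, mul_one] at h2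
    exact h2

theorem cor_le_mu (h : MuG b μ g) {f v : ℝ × ℝ} {δ : ℝ}
    (hf : ∀ w, μ w ≤ 1 → dp f w + δ * |dt v w| ≤ 1) (x : ℝ × ℝ) :
    dp f x + δ * |dt v x| ≤ μ x := by
  by_cases hx : x = 0
  · subst hx
    have h0 := h.hom 0 0 le_rfl
    rw [zero_smul, zero_mul] at h0
    rw [h0]
    simp [dp, dt]
  · have hpos := h.pos x hx
    have h1 : μ ((μ x)⁻¹ • x) = 1 := by
      rw [h.hom _ _ (inv_nonneg.mpr hpos.le), inv_mul_cancel₀ hpos.ne']
    have h2 := hf _ h1.le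
    have h3 : dp f ((μ x)⁻¹ • x) + δ * |dt v ((μ x)⁻¹ • x)|
        = (μ x)⁻¹ * (dp f x + δ * |dt v x|) := by
      rw [dp_smul, dt_smul, abs_mul, abs_of_nonneg (inv_nonneg.mpr hpos.le)]
      ring
    rw [h3, inv_mul_le_iff₀ hpos, mul_one] at h2
    exact h2

/-- `S` is nonnegative on `[1, ∞)`. -/
theorem S_nonneg' (x : ℝ) : 0 ≤ S x := Real.sqrt_nonneg _

/-- The corner bound at a corner `v`, in terms of the distance to `l v`. PROOF: the coordinates (`exists_crd`) for the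
basis `v, u` with `u = δ⁻¹ (-f.2, f.1)` are `p = dp f`, `q = δ dt v` (`dt v (-f.2, f.1) = dp f v = 1`); `cor_le_mu`,
`MuG.lim` for the point `c.rd l 0` and `n = ⌊l⌋₊` (`rn (toR (c.rd l 0) - n • v)` is bounded by `c.nm_le`-type estimates:
`toR x = p x • v + q x • u` by `cramer`). -/
theorem corner_bound (h : MuG b μ g) (hc : CornerThm g) {v f : ℝ × ℝ} {δ : ℝ} (hδ : 0 < δ)
    (hv : μ v ≤ 1) (hf : IsCor {w | μ w ≤ 1} δ v f) (D : ℝ) :
    ∃ C₁ : ℝ, ∀ (l : ℝ) (z : V), 1 ≤ l → rn (toR z - l • v) ≤ D → g z ≤ l + C₁ * S l := by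
  obtain ⟨hf1, hf2⟩ := hf
  have hf1' : f.1 * v.1 + f.2 * v.2 = 1 := hf1
  obtain ⟨u, hu1, hu2⟩ : ∃ u : ℝ × ℝ, u.1 = δ⁻¹ * (-f.2) ∧ u.2 = δ⁻¹ * f.1 :=
    ⟨(δ⁻¹ * (-f.2), δ⁻¹ * f.1), rfl, rfl⟩
  have hdx : ∀ x : ℝ × ℝ, dt x u = δ⁻¹ * dp f x := by
    intro x
    simp only [dt, dp, hu1, hu2]
    ring
  have hvu : dt v u = δ⁻¹ := by rw [hdx, hf1, mul_one]
  have hne : dt v u ≠ 0 := by rw [hvu]; exact inv_ne_zero hδ.ne'
  obtain ⟨c, hcp, hcq⟩ := exists_crd hne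
  have hp : ∀ x, c.p x = dp f (toR x) := by
    intro x
    rw [hcp, hdx, hvu]
    field_simp
  have hq : ∀ x, c.q x = δ * dt v (toR x) := by
    intro x
    rw [hcq, hvu]
    field_simp
  have hcr : ∀ x : V, toR x = c.p x • v + c.q x • u := by
    intro x
    have := cramer hne (toR x)
    rw [← hcp, ← hcq] at this
    exact this
  have hlow : ∀ z, c.p z + |c.q z| ≤ g z := by
    intro z
    rw [hp, hq, abs_mul, abs_of_pos hδ]
    exact (cor_le_mu h (fun w hw => hf2 w hw) (toR z)).trans (h.le z)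
  have hup : ∀ ε : ℝ, 0 < ε → ∃ L : ℝ, ∀ l : ℝ, L ≤ l → g (c.rd l 0) ≤ (1 + ε) * l := by
    intro ε hε
    obtain ⟨n₀, hn₀⟩ := h.lim v ε ((c.C + 1) * rn v + c.C * rn u) hε
    refine ⟨n₀, fun l hl => ?_⟩
    have hl0 : (0 : ℝ) ≤ l := (Nat.cast_nonneg n₀).trans hl
    have hfl : n₀ ≤ ⌊l⌋₊ := Nat.le_floor hl
    have hfl1 : (⌊l⌋₊ : ℝ) ≤ l := Nat.floor_le hl0
    have hfl2 : l < (⌊l⌋₊ : ℝ) + 1 := Nat.lt_floor_add_one l
    have hb1 := c.rd_p l 0
    have hb2 := c.rd_q l 0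
    rw [sub_zero] at hb2
    have hD : rn (toR (c.rd l 0) - ((⌊l⌋₊ : ℕ) : ℝ) • v) ≤ (c.C + 1) * rn v + c.C * rn u := by
      have he : toR (c.rd l 0) - ((⌊l⌋₊ : ℕ) : ℝ) • v
          = (c.p (c.rd l 0) - (⌊l⌋₊ : ℝ)) • v + c.q (c.rd l 0) • u := by
        conv_lhs => rw [hcr (c.rd l 0)]
        module
      rw [he]
      refine (rn_add_le _ _).trans ?_
      rw [rn_smul, rn_smul]
      have h1 : |c.p (c.rd l 0) - (⌊l⌋₊ : ℝ)| ≤ c.C + 1 := by
        have h3 := abs_sub_le (c.p (c.rd l 0)) l (⌊l⌋₊ : ℝ)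
        have h4 : |l - (⌊l⌋₊ : ℝ)| ≤ 1 := by
          rw [abs_of_nonneg (by linarith)]
          linarith
        linarith
      exact add_le_add (mul_le_mul_of_nonneg_right h1 (rn_nonneg v))
        (mul_le_mul_of_nonneg_right hb2 (rn_nonneg u))
    refine (hn₀ _ hfl _ hD).trans ?_
    have h1 : (⌊l⌋₊ : ℝ) * (μ v + ε) ≤ (⌊l⌋₊ : ℝ) * (1 + ε) :=
      mul_le_mul_of_nonneg_left (by linarith) (Nat.cast_nonneg _)
    have h2 : (⌊l⌋₊ : ℝ) * (1 + ε) ≤ l * (1 + ε) :=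
      mul_le_mul_of_nonneg_right hfl1 (by linarith)
    linarith
  obtain ⟨C₁, -, hC₁⟩ := hc c hlow hup (max (rn f * D) (δ * (rn v * D)))
  refine ⟨C₁, fun l z hl hz => hC₁ l z hl ?_ ?_⟩
  · refine le_trans ?_ (le_max_left _ _)
    have he : c.p z - l = dp f (toR z - l • v) := by
      rw [hp]
      simp only [dp, Prod.fst_sub, Prod.snd_sub, Prod.smul_fst, Prod.smul_snd, smul_eq_mul]
      linear_combination l * hf1'
    rw [he]
    exact (abs_dp_le _ _).trans (mul_le_mul_of_nonneg_left hz (rn_nonneg f))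
  · refine le_trans ?_ (le_max_right _ _)
    have he : c.q z = δ * dt v (toR z - l • v) := by
      rw [hq]
      simp only [dt, Prod.fst_sub, Prod.snd_sub, Prod.smul_fst, Prod.smul_snd, smul_eq_mul]
      ring
    rw [he, abs_mul, abs_of_pos hδ]
    exact mul_le_mul_of_nonneg_left
      ((abs_dt_le _ _).trans (mul_le_mul_of_nonneg_left hz (rn_nonneg v))) hδ.le

/-- The cone of one edge. PROOF: `low`: `μ` is at least `dp ρ = p + q`, at least `dp f = p + q (dp f v')` and at least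
`dp f' = p (dp f' v) + q`; `dp f v' ≤ 1 - δ |dt v v'|`, `dp f' v ≤ 1 - δ |dt v' v|`. `upp`, `upq`: `corner_bound`. -/
theorem exists_cone (h : MuG b μ g) (hc : CornerThm g) {v v' f f' ρ : ℝ × ℝ} {δ : ℝ} (hδ : 0 < δ)
    (hv : μ v ≤ 1) (hv' : μ v' ≤ 1) (hf : IsCor {w | μ w ≤ 1} δ v f)
    (hf' : IsCor {w | μ w ≤ 1} δ v' f') (hρ : ∀ w, μ w ≤ 1 → dp ρ w ≤ 1)
    (h1 : dp ρ v = 1) (h2 : dp ρ v' = 1) (hne : dt v v' ≠ 0) (c : Crd)
    (hp : ∀ x, c.p x = dt (toR x) v' / dt v v') (hq : ∀ x, c.q x = dt v (toR x) / dt v v') :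
    ∃ c₀ C₁ : ℝ, 0 < c₀ ∧ ∀ c₀' C₁' : ℝ, 0 < c₀' → c₀' ≤ c₀ → C₁ ≤ C₁' → IsCone g c c₀' C₁' := by
  have hcr : ∀ x : V, toR x = c.p x • v + c.q x • v' := by
    intro x
    have := cramer hne (toR x)
    rw [← hp, ← hq] at this
    exact this
  have hsym : |dt v' v| = |dt v v'| := by
    have : dt v' v = -dt v v' := by simp only [dt]; ring
    rw [this, abs_neg]
  obtain ⟨A₁, hA₁⟩ := corner_bound h hc hδ hv hf (c.C * rn v + c.C * rn v')
  obtain ⟨A₂, hA₂⟩ := corner_bound h hc hδ hv' hf' (c.C * rn v + c.C * rn v')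
  refine ⟨δ * |dt v v'|, max A₁ A₂, mul_pos hδ (abs_pos.mpr hne), ?_⟩
  intro c₀ C₁ hc₀ hle hC₁
  have e1 : ∀ x : V, dp ρ (toR x) = c.p x + c.q x := by
    intro x
    conv_lhs => rw [hcr x]
    rw [dp_add, dp_smul, dp_smul, h1, h2, mul_one, mul_one]
  have e2 : ∀ x : V, dp f (toR x) = c.p x + c.q x * dp f v' := by
    intro x
    conv_lhs => rw [hcr x]
    rw [dp_add, dp_smul, dp_smul, hf.1, mul_one]
  have e3 : ∀ x : V, dp f' (toR x) = c.p x * dp f' v + c.q x := by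
    intro x
    conv_lhs => rw [hcr x]
    rw [dp_add, dp_smul, dp_smul, hf'.1, mul_one]
  have b2 : dp f v' ≤ 1 - δ * |dt v v'| := by
    have := hf.2 v' hv'
    linarith
  have b3 : dp f' v ≤ 1 - δ * |dt v v'| := by
    have := hf'.2 v hv
    rw [hsym] at this
    linarith
  have f1 : ∀ w, μ w ≤ 1 → dp f w ≤ 1 := by
    intro w hw
    have := hf.2 w hw
    have h0 : 0 ≤ δ * |dt v w| := mul_nonneg hδ.le (abs_nonneg _)
    linarith
  have f2 : ∀ w, μ w ≤ 1 → dp f' w ≤ 1 := by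
    intro w hw
    have := hf'.2 w hw
    have h0 : 0 ≤ δ * |dt v' w| := mul_nonneg hδ.le (abs_nonneg _)
    linarith
  refine ⟨hc₀, fun z => ?_, fun l z hl hz1 hz2 => ?_, fun l z hl hz1 hz2 => ?_⟩
  · have hg := h.le z
    have g1 := dp_le_mu h hρ (toR z)
    have g2 := dp_le_mu h f1 (toR z)
    have g3 := dp_le_mu h f2 (toR z)
    rw [e1] at g1
    rw [e2] at g2
    rw [e3] at g3
    have k0 : c.p z + c.q z + c₀ * 0 ≤ g z := by rw [mul_zero]; linarith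
    have k1 : c.p z + c.q z + c₀ * (-c.p z) ≤ g z := by
      rcases le_total 0 (c.p z) with h0 | h0
      · have : 0 ≤ c₀ * c.p z := mul_nonneg hc₀.le h0
        linarith
      · have j1 : c.p z * (1 - δ * |dt v v'|) ≤ c.p z * dp f' v :=
          mul_le_mul_of_nonpos_left b3 h0
        have j2 : c.p z * (δ * |dt v v'|) ≤ c.p z * c₀ :=
          mul_le_mul_of_nonpos_left hle h0
        linarith
    have k2 : c.p z + c.q z + c₀ * (-c.q z) ≤ g z := by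
      rcases le_total 0 (c.q z) with h0 | h0
      · have : 0 ≤ c₀ * c.q z := mul_nonneg hc₀.le h0
        linarith
      · have j1 : c.q z * (1 - δ * |dt v v'|) ≤ c.q z * dp f v' :=
          mul_le_mul_of_nonpos_left b2 h0
        have j2 : c.q z * (δ * |dt v v'|) ≤ c.q z * c₀ :=
          mul_le_mul_of_nonpos_left hle h0
        linarith
    rcases max_choice (max (-c.p z) (-c.q z)) 0 with hm | hm
    · rw [hm]
      rcases max_choice (-c.p z) (-c.q z) with hm' | hm'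
      · rw [hm']; exact k1
      · rw [hm']; exact k2
    · rw [hm]; exact k0
  · have he : toR z - l • v = (c.p z - l) • v + c.q z • v' := by
      conv_lhs => rw [hcr z]
      module
    have hD : rn (toR z - l • v) ≤ c.C * rn v + c.C * rn v' := by
      rw [he]
      refine (rn_add_le _ _).trans ?_
      rw [rn_smul, rn_smul]
      exact add_le_add (mul_le_mul_of_nonneg_right hz1 (rn_nonneg _))
        (mul_le_mul_of_nonneg_right hz2 (rn_nonneg _))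
    have := hA₁ l z hl hD
    have h3 : A₁ * S l ≤ C₁ * S l :=
      mul_le_mul_of_nonneg_right ((le_max_left _ _).trans hC₁) (S_nonneg' l)
    linarith
  · have he : toR z - l • v' = c.p z • v + (c.q z - l) • v' := by
      conv_lhs => rw [hcr z]
      module
    have hD : rn (toR z - l • v') ≤ c.C * rn v + c.C * rn v' := by
      rw [he]
      refine (rn_add_le _ _).trans ?_
      rw [rn_smul, rn_smul]
      exact add_le_add (mul_le_mul_of_nonneg_right hz1 (rn_nonneg _))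
        (mul_le_mul_of_nonneg_right hz2 (rn_nonneg _))
    have := hA₂ l z hl hD
    have h3 : A₂ * S l ≤ C₁ * S l :=
      mul_le_mul_of_nonneg_right ((le_max_right _ _).trans hC₁) (S_nonneg' l)
    linarith

/-- Two cones from two edges. PROOF: `exists_crd` for the bases `v, v'` and `v, v''`, `exists_cone` twice. With
`A = dt v' v'' / dt v v''`, `B = dt v v' / dt v v'' < 0` one has `v' = A v + B v''` (`cramer`), so `η = A`, `θ = -B`,
and `A + B = dp ρ' v' < 1`. -/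
theorem exists_twoCones (h : MuG b μ g) (hc : CornerThm g) {K : Set (ℝ × ℝ)}
    (hK : K = {w | μ w ≤ 1}) (e : TwoEdges K) : Nonempty (FTwoCones g) := by
  subst hK
  obtain ⟨v, v', v'', f, f', f'', ρ, ρ', δ, hδ, hv, hv', hv'', cf, cf', cf'', ρv, ρv', ρle, ρ'v,
    ρ'v'', ρ'le, ρ'lt, hpos, hneg⟩ := e
  have hne : dt v v' ≠ 0 := hpos.ne'
  have hne' : dt v v'' ≠ 0 := hneg.ne
  obtain ⟨c, hcp, hcq⟩ := exists_crd hne
  obtain ⟨c', hcp', hcq'⟩ := exists_crd hne'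
  obtain ⟨a₀, A₁, ha₀, hA⟩ := exists_cone h hc hδ hv hv' cf cf' ρle ρv ρv' hne c hcp hcq
  obtain ⟨b₀, B₁, hb₀, hB⟩ := exists_cone h hc hδ hv hv'' cf cf'' ρ'le ρ'v ρ'v'' hne' c' hcp' hcq'
  have hmin : 0 < min a₀ b₀ := lt_min ha₀ hb₀
  refine ⟨⟨c, c', min a₀ b₀, max A₁ B₁, dt v' v'' / dt v v'', -(dt v v' / dt v v''),
    hA _ _ hmin (min_le_left _ _) (le_max_left _ _),
    hB _ _ hmin (min_le_right _ _) (le_max_right _ _), ?_, ?_, ?_, ?_⟩⟩
  · exact neg_pos.mpr (div_neg_of_pos_of_neg hpos hneg)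
  · have h0 : dp ρ' v' = dt v' v'' / dt v v'' + dt v v' / dt v v'' := by
      conv_lhs => rw [cramer hne' v']
      rw [dp_add, dp_smul, dp_smul, ρ'v, ρ'v'', mul_one, mul_one]
    rw [h0] at ρ'lt
    linarith
  · intro x
    rw [hcp', hcp, hcq]
    have hpl : dt (toR x) v'' * dt v v' = dt (toR x) v' * dt v v'' + dt v' v'' * dt v (toR x) := by
      simp only [dt]
      ring
    rw [div_mul_div_comm, div_add_div _ _ hne (mul_ne_zero hne' hne),
      div_eq_div_iff hne' (mul_ne_zero hne (mul_ne_zero hne' hne))]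
    linear_combination dt v v'' * dt v v' * hpl
  · intro x
    rw [hcq', hcq]
    field_simp

/-- The polygon theorem in terms of `μ` and `g`. PROOF: the ball of radius `1 / b` is contained in `{μ ≤ 1}`;
`exists_twoEdges`, `exists_twoCones`. -/
theorem twoCones_of_polygon (hb : 0 < b) (h : MuG b μ g) (hc : CornerThm g) {s : Set (ℝ × ℝ)}
    (hs : s.Finite) (hK : {w | μ w ≤ 1} = convexHull ℝ s) : Nonempty (FTwoCones g) := by
  have hball : ∀ x : ℝ × ℝ, rn x ≤ 1 / b → x ∈ convexHull ℝ s := by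
    intro x hx
    rw [← hK]
    have h1 := h.upp x
    have h2 : b * rn x ≤ b * (1 / b) := mul_le_mul_of_nonneg_left hx hb.le
    rw [mul_one_div_cancel hb.ne'] at h2
    exact h1.trans h2
  obtain ⟨e⟩ := exists_twoEdges hs (one_div_pos.mpr hb) hball
  exact exists_twoCones h hc hK.symm e

end Pool.Agent.W_1b8d5d_h85
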