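import Pool.Agent.W_1b8d5d_h85.FHull

/-!
MP_1b8d5d_pr, proofs row 571, section 8: two adjacent edges of a polygon.
-/

set_option autoImplicit false

namespace Pool.Agent.W_1b8d5d_h85

/-- Two adjacent edges `[v, v']`, `[v, v'']` of the polygon `K`. -/
structure TwoEdges (K : Set (ℝ × ℝ)) where
  v : ℝ × ℝ
  v' : ℝ × ℝ
  v'' : ℝ × ℝ
  f : ℝ × ℝ
  f' : ℝ × ℝ
  f'' : ℝ × ℝ
  ρ : ℝ × ℝ
  ρ' : ℝ × ℝ
  δ : ℝ
  hδ : 0 < δ
  hv : v ∈ K
  hv' : v' ∈ K
  hv'' : v'' ∈ K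
  c : IsCor K δ v f
  c' : IsCor K δ v' f'
  c'' : IsCor K δ v'' f''
  ρ_v : dp ρ v = 1
  ρ_v' : dp ρ v' = 1
  ρ_le : ∀ w ∈ K, dp ρ w ≤ 1
  ρ'_v : dp ρ' v = 1
  ρ'_v'' : dp ρ' v'' = 1
  ρ'_le : ∀ w ∈ K, dp ρ' w ≤ 1
  ρ'_lt : dp ρ' v' < 1
  pos : 0 < dt v v'
  neg : dt v v'' < 0

/-- There are points of `t` on both sides of the line through `0` and `v`. PROOF: otherwise `dt v` has one sign on the
hull, but `± r (-v.2, v.1) / rn v` are in the hull. -/
theorem exists_side {t : Set (ℝ × ℝ)} {r : ℝ} (hr : 0 < r)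
    (hball : ∀ x : ℝ × ℝ, rn x ≤ r → x ∈ convexHull ℝ t) {v : ℝ × ℝ} (hv : v ≠ 0) :
    (∃ w ∈ t, 0 < dt v w) ∧ ∃ w ∈ t, dt v w < 0 := by
  have hrv : 0 < rn v := by
    rcases eq_or_lt_of_le (rn_nonneg v) with h | h
    · exact absurd (rn_eq_zero.1 h.symm) hv
    · exact h
  have hsq : 0 < v.1 * v.1 + v.2 * v.2 := by
    by_contra hcon
    have h1 : v.1 = 0 := by nlinarith [mul_self_nonneg v.1, mul_self_nonneg v.2]
    have h2 : v.2 = 0 := by nlinarith [mul_self_nonneg v.1, mul_self_nonneg v.2]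
    exact hv (Prod.ext h1 h2)
  have hc : 0 < r / rn v := div_pos hr hrv
  have hrn : ∀ c : ℝ, |c| = r / rn v → rn (c * -v.2, c * v.1) ≤ r := by
    intro c hcc
    have h1 : rn (c * -v.2, c * v.1) = |c| * rn v := by
      unfold rn
      simp only [abs_mul, abs_neg]
      ring
    rw [h1, hcc, div_mul_cancel₀ _ hrv.ne']
  constructor
  · by_contra hcon
    push Not at hcon
    have h1 : ∀ w ∈ t, dp (-v.2, v.1) w ≤ 0 := by
      intro w hw
      have h2 := hcon w hw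
      unfold dt at h2
      unfold dp
      simp only
      linarith
    have hx := hball _ (hrn (r / rn v) (abs_of_pos hc))
    have h3 := dp_le_hull h1 hx
    unfold dp at h3
    simp only at h3
    have h4 : -v.2 * (r / rn v * -v.2) + v.1 * (r / rn v * v.1) =
        r / rn v * (v.1 * v.1 + v.2 * v.2) := by ring
    rw [h4] at h3
    have := mul_pos hc hsq
    linarith
  · by_contra hcon
    push Not at hcon
    have h1 : ∀ w ∈ t, dp (v.2, -v.1) w ≤ 0 := by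
      intro w hw
      have h2 := hcon w hw
      unfold dt at h2
      unfold dp
      simp only
      linarith
    have hx := hball _ (hrn (-(r / rn v)) (by rw [abs_neg, abs_of_pos hc]))
    have h3 := dp_le_hull h1 hx
    unfold dp at h3
    simp only at h3
    have h4 : v.2 * (-(r / rn v) * -v.2) + -v.1 * (-(r / rn v) * v.1) =
        r / rn v * (v.1 * v.1 + v.2 * v.2) := by ring
    rw [h4] at h3
    have := mul_pos hc hsq
    linarith

/-- One edge at `v`, on the side where `σ * dt v` is positive (`σ = 1` or `σ = -1`). PROOF: with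
`η x = σ * dt v x` let `α` be the minimum of `(1 - dp f w) / η w` over `w ∈ t` with `0 < η w`, attained at `v'`, and
`ρ = f + α η` (as a form: `η x = dp (σ * -v.2, σ * v.1) x`). For `η w ≤ 0`, `w ≠ v`: `dp ρ w ≤ dp f w < 1`. -/
theorem exists_edge {t : Set (ℝ × ℝ)} (ht : t.Finite) {σ : ℝ} (hσ : σ = 1 ∨ σ = -1)
    {v f : ℝ × ℝ} (hf : dp f v = 1) (hlt : ∀ w ∈ t, w ≠ v → dp f w < 1)
    (hex : ∃ w ∈ t, 0 < σ * dt v w) :
    ∃ v' ∈ t, ∃ ρ : ℝ × ℝ, 0 < σ * dt v v' ∧ dp ρ v = 1 ∧ dp ρ v' = 1 ∧ (∀ w ∈ t, dp ρ w ≤ 1) ∧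
      ∀ w ∈ t, σ * dt v w < 0 → dp ρ w < 1 := by
  classical
  set F : Finset (ℝ × ℝ) := ht.toFinset.filter (fun w => 0 < σ * dt v w) with hF
  have hFne : F.Nonempty := by
    obtain ⟨w, hw, hw0⟩ := hex
    exact ⟨w, by rw [hF, Finset.mem_filter, Set.Finite.mem_toFinset]; exact ⟨hw, hw0⟩⟩
  obtain ⟨v', hv'F, hmin⟩ := F.exists_min_image (fun w => (1 - dp f w) / (σ * dt v w)) hFne
  rw [hF, Finset.mem_filter, Set.Finite.mem_toFinset] at hv'F
  obtain ⟨hv't, hv'0⟩ := hv'F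
  set α : ℝ := (1 - dp f v') / (σ * dt v v') with hα
  have hvv : dt v v = 0 := by
    unfold dt
    ring
  have hne : v' ≠ v := by
    intro h
    rw [h, hvv, mul_zero] at hv'0
    exact lt_irrefl _ hv'0
  have hα0 : 0 < α := by
    have := hlt v' hv't hne
    exact div_pos (by linarith) hv'0
  have hρ : ∀ x : ℝ × ℝ, dp (f.1 + α * (σ * -v.2), f.2 + α * (σ * v.1)) x =
      dp f x + α * (σ * dt v x) := by
    intro x
    unfold dp dt
    simp only
    ring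
  refine ⟨v', hv't, (f.1 + α * (σ * -v.2), f.2 + α * (σ * v.1)), hv'0, ?_, ?_, ?_, ?_⟩
  · rw [hρ, hf, hvv]
    ring
  · rw [hρ, hα, div_mul_cancel₀ _ hv'0.ne']
    ring
  · intro w hw
    rw [hρ]
    have hle : dp f w ≤ 1 := by
      by_cases h : w = v
      · rw [h, hf]
      · exact (hlt w hw h).le
    rcases lt_or_ge 0 (σ * dt v w) with h | h
    · have h1 : α ≤ (1 - dp f w) / (σ * dt v w) := by
        refine hmin w ?_
        rw [hF, Finset.mem_filter, Set.Finite.mem_toFinset]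
        exact ⟨hw, h⟩
      rw [le_div_iff₀ h] at h1
      linarith
    · have h1 : α * (σ * dt v w) ≤ 0 := mul_nonpos_of_nonneg_of_nonpos hα0.le h
      linarith
  · intro w hw h
    rw [hρ]
    have hne' : w ≠ v := by
      intro hwv
      rw [hwv, hvv, mul_zero] at h
      exact lt_irrefl _ h
    have h1 := hlt w hw hne'
    have h2 : α * (σ * dt v w) < 0 := mul_neg_of_pos_of_neg hα0 h
    linarith

/-- PROOF: `exists_min_hull`, `exists_cor`, `exists_strict` (any `v ∈ t`; `t` is nonempty), `exists_side`, `exists_edge`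
for `σ = 1` and `σ = -1`; `dp_le_hull`. -/
theorem exists_twoEdges {s : Set (ℝ × ℝ)} (hs : s.Finite) {r : ℝ} (hr : 0 < r)
    (hball : ∀ x : ℝ × ℝ, rn x ≤ r → x ∈ convexHull ℝ s) : Nonempty (TwoEdges (convexHull ℝ s)) := by
  obtain ⟨t, ht, hts, hmin⟩ := exists_min_hull hs
  rw [← hts] at hball ⊢
  obtain ⟨δ, hδ, hcor⟩ := exists_cor ht hr hball hmin
  have h0 : (0 : ℝ × ℝ) ∈ convexHull ℝ t := by
    apply hball
    rw [rn_eq_zero.2 rfl]
    exact hr.le
  have hne : t.Nonempty := convexHull_nonempty_iff.1 ⟨_, h0⟩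
  obtain ⟨v, hv⟩ := hne
  obtain ⟨f₀, hf₀, hlt⟩ := exists_strict ht hr hball hv (hmin v hv)
  have hv0 : v ≠ 0 := by
    intro h
    rw [h] at hf₀
    unfold dp at hf₀
    simp at hf₀
  obtain ⟨⟨w₁, hw₁, hw₁0⟩, ⟨w₂, hw₂, hw₂0⟩⟩ := exists_side hr hball hv0
  obtain ⟨v', hv't, ρ, h1, h2, h3, h4, h5⟩ := exists_edge ht (σ := 1) (Or.inl rfl) hf₀ hlt
    ⟨w₁, hw₁, by linarith⟩
  obtain ⟨v'', hv''t, ρ', k1, k2, k3, k4, k5⟩ := exists_edge ht (σ := -1) (Or.inr rfl) hf₀ hlt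
    ⟨w₂, hw₂, by linarith⟩
  obtain ⟨f, hf⟩ := hcor v hv
  obtain ⟨f', hf'⟩ := hcor v' hv't
  obtain ⟨f'', hf''⟩ := hcor v'' hv''t
  exact ⟨{
    v := v, v' := v', v'' := v'', f := f, f' := f', f'' := f'', ρ := ρ, ρ' := ρ', δ := δ
    hδ := hδ
    hv := subset_convexHull ℝ t hv
    hv' := subset_convexHull ℝ t hv't
    hv'' := subset_convexHull ℝ t hv''t
    c := hf
    c' := hf'
    c'' := hf''
    ρ_v := h2
    ρ_v' := h3
    ρ_le := fun w hw => dp_le_hull h4 hw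
    ρ'_v := k2
    ρ'_v'' := k3
    ρ'_le := fun w hw => dp_le_hull k4 hw
    ρ'_lt := k5 v' hv't (by linarith)
    pos := by linarith
    neg := by linarith }⟩

end Pool.Agent.W_1b8d5d_h85
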