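import Pool.Agent.W_1b8d5d_h85.FLin

/-!
MP_1b8d5d_pr, proofs row 571, section 8: the vertices of a polygon and strictly supporting linear forms.
-/

set_option autoImplicit false

namespace Pool.Agent.W_1b8d5d_h85

/-- `v` is a corner of the set `K`, with the strictly supporting form `f`. -/
def IsCor (K : Set (ℝ × ℝ)) (δ : ℝ) (v f : ℝ × ℝ) : Prop :=
  dp f v = 1 ∧ ∀ w ∈ K, dp f w + δ * |dt v w| ≤ 1

/-- A finite set has a minimal subset with the same convex hull. PROOF: induction on the cardinality; if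
`v ∈ convexHull (s \ {v})` then `convexHull (s \ {v}) = convexHull s` (`convexHull_min`). -/
theorem exists_min_hull {s : Set (ℝ × ℝ)} (hs : s.Finite) :
    ∃ t : Set (ℝ × ℝ), t.Finite ∧ convexHull ℝ t = convexHull ℝ s ∧
      ∀ v ∈ t, v ∉ convexHull ℝ (t \ {v}) := by
  classical
  induction hn : s.ncard using Nat.strong_induction_on generalizing s with
  | _ n ih =>
    by_cases h : ∀ v ∈ s, v ∉ convexHull ℝ (s \ {v})
    · exact ⟨s, hs, rfl, h⟩
    · push Not at h
      obtain ⟨v, hv, hvc⟩ := h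
      have h1 : (s \ {v}).Finite := hs.subset Set.sdiff_subset
      have h2 : (s \ {v}).ncard < n := by
        rw [← hn]
        exact Set.ncard_sdiff_singleton_lt_of_mem hv hs
      obtain ⟨t, ht, hte, htm⟩ := ih _ h2 h1 rfl
      refine ⟨t, ht, ?_, htm⟩
      rw [hte]
      refine le_antisymm (convexHull_mono Set.sdiff_subset) ?_
      refine convexHull_min ?_ (convex_convexHull ℝ _)
      intro w hw
      by_cases hwv : w = v
      · rw [hwv]; exact hvc
      · exact subset_convexHull ℝ _ ⟨hw, hwv⟩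

/-- A continuous linear form on the plane is some `dp f`. -/
theorem exists_dp (L : (ℝ × ℝ) →L[ℝ] ℝ) : ∃ f : ℝ × ℝ, ∀ x, L x = dp f x := by
  refine ⟨(L (1, 0), L (0, 1)), fun x => ?_⟩
  have h : x = x.1 • ((1, 0) : ℝ × ℝ) + x.2 • ((0, 1) : ℝ × ℝ) := by
    ext <;> simp
  have h2 : L x = x.1 * L (1, 0) + x.2 * L (0, 1) := by
    conv_lhs => rw [h]
    rw [map_add, map_smul, map_smul, smul_eq_mul, smul_eq_mul]
  rw [h2]
  simp only [dp]
  ring

/-- A bound for a linear form on `t` holds on its convex hull. -/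
theorem dp_le_hull {t : Set (ℝ × ℝ)} {f : ℝ × ℝ} {M : ℝ} (h : ∀ w ∈ t, dp f w ≤ M) {x : ℝ × ℝ}
    (hx : x ∈ convexHull ℝ t) : dp f x ≤ M := by
  have hc : Convex ℝ {x : ℝ × ℝ | dp f x ≤ M} := by
    intro x hx y hy a b ha hb hab
    simp only [Set.mem_ofPred_eq] at hx hy ⊢
    have h1 := mul_le_mul_of_nonneg_left hx ha
    have h2 := mul_le_mul_of_nonneg_left hy hb
    have h3 : dp f (a • x + b • y) = a * dp f x + b * dp f y := by
      simp only [dp, Prod.fst_add, Prod.snd_add, Prod.smul_fst, Prod.smul_snd, smul_eq_mul]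
      ring
    have h4 : a * M + b * M = M := by rw [← add_mul, hab, one_mul]
    rw [h3]
    linarith
  exact convexHull_min (fun w hw => h w hw) hc hx

/-- The same for `dp f x + δ |dt v x|` (a convex function). -/
theorem cor_le_hull {t : Set (ℝ × ℝ)} {f v : ℝ × ℝ} {δ M : ℝ} (hδ : 0 ≤ δ)
    (h : ∀ w ∈ t, dp f w + δ * |dt v w| ≤ M) {x : ℝ × ℝ}
    (hx : x ∈ convexHull ℝ t) : dp f x + δ * |dt v x| ≤ M := by
  have hc : Convex ℝ {x : ℝ × ℝ | dp f x + δ * |dt v x| ≤ M} := by
    intro x hx y hy a b ha hb hab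
    simp only [Set.mem_ofPred_eq] at hx hy ⊢
    have h1 := mul_le_mul_of_nonneg_left hx ha
    have h2 := mul_le_mul_of_nonneg_left hy hb
    have h3 : dp f (a • x + b • y) = a * dp f x + b * dp f y := by
      simp only [dp, Prod.fst_add, Prod.snd_add, Prod.smul_fst, Prod.smul_snd, smul_eq_mul]
      ring
    have h5 : dt v (a • x + b • y) = a * dt v x + b * dt v y := by
      simp only [dt, Prod.fst_add, Prod.snd_add, Prod.smul_fst, Prod.smul_snd, smul_eq_mul]
      ring
    have h6 : |a * dt v x + b * dt v y| ≤ a * |dt v x| + b * |dt v y| := by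
      calc |a * dt v x + b * dt v y| ≤ |a * dt v x| + |b * dt v y| := abs_add_le _ _
        _ = a * |dt v x| + b * |dt v y| := by
            rw [abs_mul, abs_mul, abs_of_nonneg ha, abs_of_nonneg hb]
    have h7 := mul_le_mul_of_nonneg_left h6 hδ
    have h4 : a * M + b * M = M := by rw [← add_mul, hab, one_mul]
    rw [h3, h5]
    linarith
  exact convexHull_min (fun w hw => h w hw) hc hx

private theorem FHull_dt_self (v : ℝ × ℝ) : dt v v = 0 := by
  simp only [dt]; ring

private theorem FHull_min {ι : Type*} {t : Set ι} (ht : t.Finite) (a : ι → ℝ)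
    (ha : ∀ w ∈ t, 0 < a w) : ∃ δ : ℝ, 0 < δ ∧ ∀ w ∈ t, δ ≤ a w := by
  rcases t.eq_empty_or_nonempty with he | hne
  · exact ⟨1, one_pos, by simp [he]⟩
  · obtain ⟨w, hw, hmin⟩ := Set.exists_min_image t a ht hne
    exact ⟨a w, ha w hw, hmin⟩

/-- PROOF: `convexHull ℝ (t \ {v})` is compact and convex (`Set.Finite.isCompact_convexHull`) and does not contain `v`:
geometric Hahn-Banach gives a linear form `L` with `L w < L v` for `w ∈ t \ {v}`, `L ≠ 0`
(if `t = {v}` take any `L ≠ 0`; this cannot happen because of the ball). A nonzero form is positive somewhere on the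
ball, so `0 < L v` (`dp_le_hull`); divide by `L v`. -/
theorem exists_strict {t : Set (ℝ × ℝ)} (ht : t.Finite) {r : ℝ} (hr : 0 < r)
    (hball : ∀ x : ℝ × ℝ, rn x ≤ r → x ∈ convexHull ℝ t) {v : ℝ × ℝ} (hv : v ∈ t)
    (hmin : v ∉ convexHull ℝ (t \ {v})) : ∃ f : ℝ × ℝ, dp f v = 1 ∧ ∀ w ∈ t, w ≠ v → dp f w < 1 := by
  classical
  have hfin : (t \ {v}).Finite := ht.subset Set.sdiff_subset
  obtain ⟨L, u, hL1, hL2⟩ := geometric_hahn_banach_closed_point (convex_convexHull ℝ (t \ {v}))
    (hfin.isCompact_convexHull (𝕜 := ℝ)).isClosed hmin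
  obtain ⟨f, hf⟩ := exists_dp L
  have hlt : ∀ w ∈ t, w ≠ v → dp f w < dp f v := by
    intro w hw hwv
    have h1 := hL1 w (subset_convexHull ℝ _ ⟨hw, hwv⟩)
    rw [hf] at h1 hL2
    exact h1.trans hL2
  have hle : ∀ w ∈ t, dp f w ≤ dp f v := by
    intro w hw
    by_cases hwv : w = v
    · rw [hwv]
    · exact (hlt w hw hwv).le
  -- some other point exists
  have hne : ∃ w ∈ t, w ≠ v := by
    by_contra hcon
    push Not at hcon
    have ht1 : t ⊆ {v} := fun w hw => hcon w hw
    have hh : convexHull ℝ t ⊆ {v} := convexHull_min ht1 (convex_singleton v)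
    have h0 := hh (hball 0 (by simp [rn, hr.le]))
    have h1 := hh (hball (r, 0) (by simp [rn, abs_of_pos hr]))
    rw [Set.mem_singleton_iff] at h0 h1
    rw [← h0] at h1
    have := congrArg Prod.fst h1
    simp at this
    exact hr.ne' this
  have hfne : f.1 ≠ 0 ∨ f.2 ≠ 0 := by
    obtain ⟨w, hw, hwv⟩ := hne
    by_contra hcon
    push Not at hcon
    have h1 := hlt w hw hwv
    simp only [dp, hcon.1, hcon.2] at h1
    simp at h1
  have hpos : 0 < dp f v := by
    rcases hfne with h1 | h1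
    · rcases lt_or_gt_of_ne h1 with h2 | h2
      · have h3 := dp_le_hull hle (hball (-r, 0) (by simp [rn, abs_of_pos hr]))
        have h4 : 0 < dp f (-r, 0) := by
          simp only [dp]
          nlinarith
        linarith
      · have h3 := dp_le_hull hle (hball (r, 0) (by simp [rn, abs_of_pos hr]))
        have h4 : 0 < dp f (r, 0) := by
          simp only [dp]
          nlinarith
        linarith
    · rcases lt_or_gt_of_ne h1 with h2 | h2
      · have h3 := dp_le_hull hle (hball (0, -r) (by simp [rn, abs_of_pos hr]))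
        have h4 : 0 < dp f (0, -r) := by
          simp only [dp]
          nlinarith
        linarith
      · have h3 := dp_le_hull hle (hball (0, r) (by simp [rn, abs_of_pos hr]))
        have h4 : 0 < dp f (0, r) := by
          simp only [dp]
          nlinarith
        linarith
  have hsc : ∀ x, dp ((dp f v)⁻¹ • f) x = (dp f v)⁻¹ * dp f x := by
    intro x
    simp only [dp, Prod.smul_fst, Prod.smul_snd, smul_eq_mul]
    ring
  refine ⟨(dp f v)⁻¹ • f, ?_, ?_⟩
  · rw [hsc, inv_mul_cancel₀ hpos.ne']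
  · intro w hw hwv
    rw [hsc, inv_mul_lt_iff₀ hpos, mul_one]
    exact hlt w hw hwv

/-- PROOF: for one `v` the number `δ` exists because `t` is finite (`dt v v = 0`, `dp f w < 1` for `w ≠ v`); take the
minimum over the finite set of the `v`. -/
theorem exists_cor {t : Set (ℝ × ℝ)} (ht : t.Finite) {r : ℝ} (hr : 0 < r)
    (hball : ∀ x : ℝ × ℝ, rn x ≤ r → x ∈ convexHull ℝ t)
    (hmin : ∀ v ∈ t, v ∉ convexHull ℝ (t \ {v})) :
    ∃ δ : ℝ, 0 < δ ∧ ∀ v ∈ t, ∃ f, IsCor (convexHull ℝ t) δ v f := by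
  classical
  have key : ∀ v ∈ t, ∃ f : ℝ × ℝ, ∃ δ : ℝ, 0 < δ ∧ IsCor (convexHull ℝ t) δ v f := by
    intro v hv
    obtain ⟨f, hf1, hf2⟩ := exists_strict ht hr hball hv (hmin v hv)
    obtain ⟨δ, hδ, hδ2⟩ := FHull_min (t := t \ {v}) (ht.subset Set.sdiff_subset)
      (fun w => (1 - dp f w) / (|dt v w| + 1)) (by
        intro w hw
        have h1 := hf2 w hw.1 hw.2
        have h2 := abs_nonneg (dt v w)
        exact div_pos (by linarith) (by linarith))
    refine ⟨f, δ, hδ, hf1, ?_⟩
    intro x hx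
    refine cor_le_hull hδ.le (fun w hw => ?_) hx
    by_cases hwv : w = v
    · rw [hwv, hf1, FHull_dt_self, abs_zero, mul_zero, add_zero]
    · have h1 := hδ2 w ⟨hw, hwv⟩
      have h2 := abs_nonneg (dt v w)
      rw [le_div_iff₀ (by linarith)] at h1
      nlinarith
  choose! F D hD hF using key
  obtain ⟨δ, hδ, hδ2⟩ := FHull_min ht D hD
  refine ⟨δ, hδ, fun v hv => ⟨F v, (hF v hv).1, fun w hw => ?_⟩⟩
  have h1 := (hF v hv).2 w hw
  have h2 := mul_le_mul_of_nonneg_right (hδ2 v hv) (abs_nonneg (dt v w))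
  linarith

end Pool.Agent.W_1b8d5d_h85
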