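import Pool.Agent.W_1b8d5d_h85.Model

/-!
MP_1b8d5d_pr, proofs row 571, section 8: coordinates in the plane with respect to a basis, as a `Crd`.
-/

set_option autoImplicit false

namespace Pool.Agent.W_1b8d5d_h85

/-- The determinant. -/
def dt (x y : ℝ × ℝ) : ℝ := x.1 * y.2 - x.2 * y.1

/-- A linear form, given by its values on the standard basis. -/
def dp (f x : ℝ × ℝ) : ℝ := f.1 * x.1 + f.2 * x.2

/-- Lattice points as points of the plane. -/
def toR (x : V) : ℝ × ℝ := ((x.1 : ℝ), (x.2 : ℝ))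

/-- The `ℓ¹` norm of the plane. -/
noncomputable def rn (x : ℝ × ℝ) : ℝ := |x.1| + |x.2|

theorem nm_eq_rn (x : V) : nm x = rn (toR x) := by
  rfl

theorem toR_add (x y : V) : toR (x + y) = toR x + toR y := by
  simp only [toR, Prod.fst_add, Prod.snd_add, Int.cast_add, Prod.mk_add_mk]

theorem toR_neg (x : V) : toR (-x) = -toR x := by
  simp only [toR, Prod.fst_neg, Prod.snd_neg, Int.cast_neg, Prod.neg_mk]

theorem toR_sub (x y : V) : toR (x - y) = toR x - toR y := by
  simp only [toR, Prod.fst_sub, Prod.snd_sub, Int.cast_sub, Prod.mk_sub_mk]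

theorem toR_nsmul (n : ℕ) (x : V) : toR (n • x) = (n : ℝ) • toR x := by
  simp [toR]

theorem toR_zero : toR 0 = 0 := by
  simp [toR]

theorem rn_nonneg (x : ℝ × ℝ) : 0 ≤ rn x := by
  exact add_nonneg (abs_nonneg _) (abs_nonneg _)

theorem rn_eq_zero {x : ℝ × ℝ} : rn x = 0 ↔ x = 0 := by
  constructor
  · intro h
    have h1 := abs_nonneg x.1
    have h2 := abs_nonneg x.2
    unfold rn at h
    have h3 : |x.1| = 0 := by linarith
    have h4 : |x.2| = 0 := by linarith
    exact Prod.ext (abs_eq_zero.1 h3) (abs_eq_zero.1 h4)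
  · rintro rfl
    simp [rn]

theorem rn_add_le (x y : ℝ × ℝ) : rn (x + y) ≤ rn x + rn y := by
  have h1 := abs_add_le x.1 y.1
  have h2 := abs_add_le x.2 y.2
  simp only [rn, Prod.fst_add, Prod.snd_add]
  linarith

theorem rn_smul (c : ℝ) (x : ℝ × ℝ) : rn (c • x) = |c| * rn x := by
  simp only [rn, Prod.smul_fst, Prod.smul_snd, smul_eq_mul, abs_mul]
  ring

theorem rn_neg (x : ℝ × ℝ) : rn (-x) = rn x := by
  simp only [rn, Prod.fst_neg, Prod.snd_neg, abs_neg]

theorem continuous_rn : Continuous rn := by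
  unfold rn
  fun_prop

theorem dp_add (f x y : ℝ × ℝ) : dp f (x + y) = dp f x + dp f y := by
  simp only [dp, Prod.fst_add, Prod.snd_add]
  ring

theorem dp_smul (f : ℝ × ℝ) (c : ℝ) (x : ℝ × ℝ) : dp f (c • x) = c * dp f x := by
  simp only [dp, Prod.smul_fst, Prod.smul_snd, smul_eq_mul]
  ring

theorem dt_add (v x y : ℝ × ℝ) : dt v (x + y) = dt v x + dt v y := by
  simp only [dt, Prod.fst_add, Prod.snd_add]
  ring

theorem dt_smul (v : ℝ × ℝ) (c : ℝ) (x : ℝ × ℝ) : dt v (c • x) = c * dt v x := by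
  simp only [dt, Prod.smul_fst, Prod.smul_snd, smul_eq_mul]
  ring

theorem abs_dp_le (f x : ℝ × ℝ) : |dp f x| ≤ rn f * rn x := by
  have h1 : |f.1 * x.1 + f.2 * x.2| ≤ |f.1| * |x.1| + |f.2| * |x.2| := by
    rw [← abs_mul, ← abs_mul]
    exact abs_add_le _ _
  have h2 := mul_nonneg (abs_nonneg f.1) (abs_nonneg x.2)
  have h3 := mul_nonneg (abs_nonneg f.2) (abs_nonneg x.1)
  unfold dp rn
  nlinarith

theorem abs_dt_le (v x : ℝ × ℝ) : |dt v x| ≤ rn v * rn x := by
  have h1 : |v.1 * x.2 - v.2 * x.1| ≤ |v.1| * |x.2| + |v.2| * |x.1| := by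
    rw [← abs_mul, ← abs_mul]
    exact abs_sub _ _
  have h2 := mul_nonneg (abs_nonneg v.1) (abs_nonneg x.1)
  have h3 := mul_nonneg (abs_nonneg v.2) (abs_nonneg x.2)
  unfold dt rn
  nlinarith

/-- Cramer's rule. -/
theorem cramer {v w : ℝ × ℝ} (h : dt v w ≠ 0) (x : ℝ × ℝ) :
    x = (dt x w / dt v w) • v + (dt v x / dt v w) • w := by
  have h1 : (dt x w / dt v w) * v.1 + (dt v x / dt v w) * w.1 = x.1 := by
    rw [div_mul_eq_mul_div, div_mul_eq_mul_div, ← add_div, div_eq_iff h]
    unfold dt
    ring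
  have h2 : (dt x w / dt v w) * v.2 + (dt v x / dt v w) * w.2 = x.2 := by
    rw [div_mul_eq_mul_div, div_mul_eq_mul_div, ← add_div, div_eq_iff h]
    unfold dt
    ring
  refine Prod.ext ?_ ?_
  · simp only [Prod.fst_add, Prod.smul_fst, smul_eq_mul, h1]
  · simp only [Prod.snd_add, Prod.smul_snd, smul_eq_mul, h2]

/-- There is a lattice point near every point of the plane. -/
theorem exists_round (x : ℝ × ℝ) : ∃ z : V, rn (toR z - x) ≤ 1 := by
  refine ⟨(round x.1, round x.2), ?_⟩
  have h1 := abs_sub_round x.1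
  have h2 := abs_sub_round x.2
  have h3 : |((round x.1 : ℤ) : ℝ) - x.1| ≤ 1 / 2 := by rwa [abs_sub_comm]
  have h4 : |((round x.2 : ℤ) : ℝ) - x.2| ≤ 1 / 2 := by rwa [abs_sub_comm]
  simp only [rn, toR, Prod.fst_sub, Prod.snd_sub]
  linarith

/-- The coordinates with respect to the basis `v, w`. PROOF: `p x = dt x w / dt v w`, `q x = dt v x / dt v w`,
`rd α β` = a lattice point near `α v + β w` (`exists_round`); `cramer`, `abs_dt_le` for the bounds. -/
theorem exists_crd {v w : ℝ × ℝ} (h : dt v w ≠ 0) :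
    ∃ c : Crd, (∀ x, c.p x = dt (toR x) w / dt v w) ∧ (∀ x, c.q x = dt v (toR x) / dt v w) := by
  choose z hz using exists_round
  have hd : 0 < |dt v w| := abs_pos.2 h
  have hv := rn_nonneg v
  have hw := rn_nonneg w
  set D : ℝ := (rn v + rn w) / |dt v w| with hD
  have hD0 : 0 ≤ D := div_nonneg (add_nonneg hv hw) hd.le
  have hvD : rn v / |dt v w| ≤ D := div_le_div_of_nonneg_right (by linarith) hd.le
  have hwD : rn w / |dt v w| ≤ D := div_le_div_of_nonneg_right (by linarith) hd.le
  have hbp : ∀ x : ℝ × ℝ, |dt x w / dt v w| ≤ D * rn x := by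
    intro x
    rw [abs_div]
    calc |dt x w| / |dt v w| ≤ (rn x * rn w) / |dt v w| :=
          div_le_div_of_nonneg_right (abs_dt_le x w) hd.le
      _ = (rn w / |dt v w|) * rn x := by ring
      _ ≤ D * rn x := mul_le_mul_of_nonneg_right hwD (rn_nonneg x)
  have hbq : ∀ x : ℝ × ℝ, |dt v x / dt v w| ≤ D * rn x := by
    intro x
    rw [abs_div]
    calc |dt v x| / |dt v w| ≤ (rn v * rn x) / |dt v w| :=
          div_le_div_of_nonneg_right (abs_dt_le v x) hd.le
      _ = (rn v / |dt v w|) * rn x := by ring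
      _ ≤ D * rn x := mul_le_mul_of_nonneg_right hvD (rn_nonneg x)
  have hps : ∀ x y : ℝ × ℝ, dt (x + y) w / dt v w = dt x w / dt v w + dt y w / dt v w := by
    intro x y
    rw [← add_div]
    congr 1
    simp only [dt, Prod.fst_add, Prod.snd_add]
    ring
  have hqs : ∀ x y : ℝ × ℝ, dt v (x + y) / dt v w = dt v x / dt v w + dt v y / dt v w := by
    intro x y
    rw [← add_div, dt_add]
  have hpl : ∀ α β : ℝ, dt (α • v + β • w) w / dt v w = α := by
    intro α β
    rw [div_eq_iff h]
    simp only [dt, Prod.fst_add, Prod.snd_add, Prod.smul_fst, Prod.smul_snd, smul_eq_mul]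
    ring
  have hql : ∀ α β : ℝ, dt v (α • v + β • w) / dt v w = β := by
    intro α β
    rw [div_eq_iff h]
    simp only [dt, Prod.fst_add, Prod.snd_add, Prod.smul_fst, Prod.smul_snd, smul_eq_mul]
    ring
  let C : ℝ := 1 + D + rn v + rn w
  have hDC : D ≤ C := by simp only [C]; linarith
  refine ⟨{ p := AddMonoidHom.mk' (fun x => dt (toR x) w / dt v w) (fun x y => by
              rw [toR_add, hps])
            q := AddMonoidHom.mk' (fun x => dt v (toR x) / dt v w) (fun x y => by
              rw [toR_add, hqs])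
            C := C
            one_le := by simp only [C]; linarith
            p_le := fun x => by
              rw [nm_eq_rn]
              exact (hbp (toR x)).trans (mul_le_mul_of_nonneg_right hDC (rn_nonneg _))
            q_le := fun x => by
              rw [nm_eq_rn]
              exact (hbq (toR x)).trans (mul_le_mul_of_nonneg_right hDC (rn_nonneg _))
            nm_le := fun x => ?_
            rd := fun α β => z (α • v + β • w)
            rd_p := fun α β => ?_
            rd_q := fun α β => ?_ }, fun x => rfl, fun x => rfl⟩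
  · show nm x ≤ C * (|dt (toR x) w / dt v w| + |dt v (toR x) / dt v w|)
    rw [nm_eq_rn]
    have h1 : rn (toR x) ≤ |dt (toR x) w / dt v w| * rn v + |dt v (toR x) / dt v w| * rn w := by
      conv_lhs => rw [cramer h (toR x)]
      refine (rn_add_le _ _).trans (le_of_eq ?_)
      rw [rn_smul, rn_smul]
    have h2 : rn v ≤ C := by simp only [C]; linarith
    have h3 : rn w ≤ C := by simp only [C]; linarith
    have h4 := mul_le_mul_of_nonneg_left h2 (abs_nonneg (dt (toR x) w / dt v w))
    have h5 := mul_le_mul_of_nonneg_left h3 (abs_nonneg (dt v (toR x) / dt v w))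
    linarith
  · show |dt (toR (z (α • v + β • w))) w / dt v w - α| ≤ C
    have h1 : toR (z (α • v + β • w)) = (α • v + β • w) + (toR (z (α • v + β • w)) - (α • v + β • w)) := by
      abel
    rw [h1, hps, hpl, add_sub_cancel_left]
    refine (hbp _).trans ?_
    have h2 := hz (α • v + β • w)
    nlinarith
  · show |dt v (toR (z (α • v + β • w))) / dt v w - β| ≤ C
    have h1 : toR (z (α • v + β • w)) = (α • v + β • w) + (toR (z (α • v + β • w)) - (α • v + β • w)) := by
      abel
    rw [h1, hqs, hql, add_sub_cancel_left]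
    refine (hbq _).trans ?_
    have h2 := hz (α • v + β • w)
    nlinarith

end Pool.Agent.W_1b8d5d_h85
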