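import Pool.Agent.W_1b8d5d_h85.Model

/-!
MP_1b8d5d_pr, proofs row 571, section 9: quantiles of an atomless law on `[a, b]`.
-/

set_option autoImplicit false

open MeasureTheory ProbabilityTheory

namespace Pool.Agent.W_1b8d5d_h85

/-- An atomless probability law on `[a, b]`. -/
structure Law (a b : ℝ) (ν : Measure ℝ) : Prop where
  prob : IsProbabilityMeasure ν
  supp : ν (Set.Icc a b)ᶜ = 0
  atom : ∀ x : ℝ, ν ({x} : Set ℝ) = 0

/-- The distribution function. -/
noncomputable def Fd (ν : Measure ℝ) (x : ℝ) : ℝ := (ν (Set.Iic x)).toReal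

variable {a b : ℝ} {ν : Measure ℝ}

theorem Law.lt (h : Law a b ν) : a < b := by
  by_contra hab
  push Not at hab
  haveI := h.prob
  have h1 : Set.Icc a b ⊆ ({a} : Set ℝ) := by
    intro x hx
    have : x = a := le_antisymm (hx.2.trans hab) hx.1
    simp [this]
  have h2 : ν (Set.Icc a b) = 0 := measure_mono_null h1 (h.atom a)
  have h3 : ν Set.univ = 0 := by
    have h4 : (Set.univ : Set ℝ) = Set.Icc a b ∪ (Set.Icc a b)ᶜ := (Set.union_compl_self _).symm
    rw [h4]
    exact measure_union_null h2 h.supp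
  rw [measure_univ] at h3
  exact one_ne_zero h3

theorem Fd_mono [IsProbabilityMeasure ν] : Monotone (Fd ν) := by
  intro x y hxy
  unfold Fd
  exact ENNReal.toReal_mono (measure_ne_top _ _) (measure_mono (Set.Iic_subset_Iic.2 hxy))

theorem Fd_le_one [IsProbabilityMeasure ν] (x : ℝ) : 0 ≤ Fd ν x ∧ Fd ν x ≤ 1 := by
  unfold Fd
  refine ⟨ENNReal.toReal_nonneg, ?_⟩
  have h1 : ν (Set.Iic x) ≤ 1 := prob_le_one
  have := ENNReal.toReal_mono ENNReal.one_ne_top h1
  simpa using this

theorem Fd_a (h : Law a b ν) : Fd ν a = 0 := by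
  unfold Fd
  have h1 : Set.Iic a ⊆ ({a} : Set ℝ) ∪ (Set.Icc a b)ᶜ := by
    intro x hx
    rcases lt_or_eq_of_le (Set.mem_Iic.1 hx) with h2 | h2
    · right
      intro h3
      exact absurd h3.1 (not_le.2 h2)
    · left
      simp [h2]
  have h2 : ν (Set.Iic a) = 0 := measure_mono_null h1 (measure_union_null (h.atom a) h.supp)
  rw [h2]
  simp

theorem Fd_b (h : Law a b ν) : Fd ν b = 1 := by
  haveI := h.prob
  unfold Fd
  have h1 : (Set.Iic b)ᶜ ⊆ (Set.Icc a b)ᶜ := by
    intro x hx h2
    exact hx h2.2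
  have h2 : ν (Set.Iic b)ᶜ = 0 := measure_mono_null h1 h.supp
  have h3 : ν (Set.Iic b) = 1 := (prob_compl_eq_zero_iff measurableSet_Iic).1 h2
  rw [h3]
  simp

/-- no atoms -/
theorem Fd_cont (h : Law a b ν) : Continuous (Fd ν) := by
  haveI := h.prob
  have he : Fd ν = fun x => cdf ν x := by
    funext x
    rw [cdf_eq_real]
    rfl
  rw [he, continuous_iff_continuousAt]
  intro x
  have hm : Monotone (fun x => cdf ν x) := (cdf ν).mono
  rw [hm.continuousAt_iff_leftLim_eq_rightLim]
  have h1 : (cdf ν).measure {x} = 0 := by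
    rw [measure_cdf]
    exact h.atom x
  rw [StieltjesFunction.measure_singleton, ENNReal.ofReal_eq_zero] at h1
  have h2 : Function.leftLim (fun x => cdf ν x) x ≤ cdf ν x := hm.leftLim_le le_rfl
  have h3 : Function.rightLim (fun x => cdf ν x) x = cdf ν x := (cdf ν).rightLim_eq x
  rw [h3]
  have h4 : Function.leftLim (cdf ν) x = Function.leftLim (fun x => cdf ν x) x := rfl
  linarith

/-- Cut points `a = c 0 ≤ c 1 ≤ .. ≤ c N = b` with `Fd (c j) = j / N` for `j ≤ N` (constant `b` afterwards). -/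
structure Cuts (ν : Measure ℝ) (a b : ℝ) (N : ℕ) (c : ℕ → ℝ) : Prop where
  mono : Monotone c
  zero : c 0 = a
  last : ∀ j, N ≤ j → c j = b
  val : ∀ j, j ≤ N → Fd ν (c j) = (j : ℝ) / N

/-- PROOF: `c j` = the infimum of `{x ∈ [a, b] : j / N ≤ Fd ν x}` for `0 < j < N` (intermediate value theorem, closed
set), `a` for `j = 0`, `b` for `j ≥ N`. -/
theorem exists_cuts (h : Law a b ν) {N : ℕ} (hN : 0 < N) : ∃ c : ℕ → ℝ, Cuts ν a b N c := by
  haveI := h.prob
  have hab := h.lt
  set S : ℝ → Set ℝ := fun t => {x | x ∈ Set.Icc a b ∧ t ≤ Fd ν x} with hS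
  have hbdd : ∀ t, BddBelow (S t) := fun t => ⟨a, fun x hx => hx.1.1⟩
  have hbS : ∀ t, t ≤ 1 → b ∈ S t := by
    intro t ht
    refine ⟨⟨hab.le, le_rfl⟩, ?_⟩
    rw [Fd_b h]
    exact ht
  have hclosed : ∀ t, IsClosed (S t) := by
    intro t
    exact isClosed_Icc.inter (isClosed_le continuous_const (Fd_cont h))
  have hmem : ∀ t, t ≤ 1 → sInf (S t) ∈ S t := fun t ht =>
    (hclosed t).csInf_mem ⟨b, hbS t ht⟩ (hbdd t)
  have hval : ∀ t, 0 ≤ t → t ≤ 1 → Fd ν (sInf (S t)) = t := by
    intro t ht0 ht1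
    have hq := hmem t ht1
    refine le_antisymm ?_ hq.2
    by_contra hlt
    push Not at hlt
    have hqa : a ≤ sInf (S t) := hq.1.1
    have hivt := intermediate_value_Icc hqa (Fd_cont h).continuousOn
    have htm : t ∈ Set.Icc (Fd ν a) (Fd ν (sInf (S t))) := by
      rw [Fd_a h]
      exact ⟨ht0, hlt.le⟩
    obtain ⟨x, hx, hxt⟩ := hivt htm
    have hxS : x ∈ S t := ⟨⟨hx.1, hx.2.trans hq.1.2⟩, hxt.ge⟩
    have h1 : sInf (S t) ≤ x := csInf_le (hbdd t) hxS
    have h2 : x = sInf (S t) := le_antisymm hx.2 h1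
    rw [h2] at hxt
    linarith
  have hNr : (0 : ℝ) < N := by exact_mod_cast hN
  refine ⟨fun j => if N ≤ j then b else sInf (S ((j : ℝ) / N)), ?_, ?_, ?_, ?_⟩
  · intro j k hjk
    show (if N ≤ j then b else sInf (S ((j : ℝ) / N))) ≤ (if N ≤ k then b else sInf (S ((k : ℝ) / N)))
    by_cases hj : N ≤ j
    · rw [if_pos hj, if_pos (hj.trans hjk)]
    · rw [if_neg hj]
      have hj1 : (j : ℝ) / N ≤ 1 := by
        rw [div_le_one hNr]
        exact_mod_cast (not_le.1 hj).le
      by_cases hk : N ≤ k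
      · rw [if_pos hk]
        exact (hmem _ hj1).1.2
      · rw [if_neg hk]
        have hk1 : (k : ℝ) / N ≤ 1 := by
          rw [div_le_one hNr]
          exact_mod_cast (not_le.1 hk).le
        refine csInf_le_csInf (hbdd _) ⟨b, hbS _ hk1⟩ ?_
        intro x hx
        refine ⟨hx.1, le_trans ?_ hx.2⟩
        have : (j : ℝ) ≤ k := by exact_mod_cast hjk
        exact div_le_div_of_nonneg_right this hNr.le
  · show (if N ≤ 0 then b else sInf (S (((0 : ℕ) : ℝ) / N))) = a
    rw [if_neg (by omega)]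
    have : S (((0 : ℕ) : ℝ) / N) = Set.Icc a b := by
      ext x
      simp only [hS, Set.mem_setOf_eq, Nat.cast_zero, zero_div]
      exact ⟨fun hx => hx.1, fun hx => ⟨hx, (Fd_le_one x).1⟩⟩
    rw [this, csInf_Icc hab.le]
  · intro j hj
    show (if N ≤ j then b else sInf (S ((j : ℝ) / N))) = b
    rw [if_pos hj]
  · intro j hj
    show Fd ν (if N ≤ j then b else sInf (S ((j : ℝ) / N))) = (j : ℝ) / N
    by_cases hjN : N ≤ j
    · have : j = N := le_antisymm hj hjN
      rw [if_pos hjN, Fd_b h, this, div_self hNr.ne']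
    · rw [if_neg hjN]
      refine hval _ (by positivity) ?_
      rw [div_le_one hNr]
      exact_mod_cast hj

theorem Cuts.mem {N : ℕ} {c : ℕ → ℝ} (hc : Cuts ν a b N c) (j : ℕ) : c j ∈ Set.Icc a b := by
  refine ⟨?_, ?_⟩
  · rw [← hc.zero]
    exact hc.mono (Nat.zero_le j)
  · rw [← hc.last (max j N) (le_max_right _ _)]
    exact hc.mono (le_max_left _ _)

/-- Few of the cut points are below a level `x` with small `Fd ν x`. -/
theorem Cuts.le_Fd (h : Law a b ν) {N : ℕ} (hN : 0 < N) {c : ℕ → ℝ} (hc : Cuts ν a b N c) {j : ℕ} {x : ℝ}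
    (hj : j ≤ N) (hx : c j ≤ x) : (j : ℝ) / N ≤ Fd ν x := by
  haveI := h.prob
  rw [← hc.val j hj]
  exact Fd_mono hx

/-- Many of the cut points are below a level `x` with large `Fd ν x`. -/
theorem Cuts.le_of_lt (h : Law a b ν) {N : ℕ} (hN : 0 < N) {c : ℕ → ℝ} (hc : Cuts ν a b N c) {j : ℕ} {x : ℝ}
    (hj : j ≤ N) (hx : (j : ℝ) / N < Fd ν x) : c j ≤ x := by
  haveI := h.prob
  by_contra hlt
  push Not at hlt
  have h1 := Fd_mono (ν := ν) hlt.le
  rw [hc.val j hj] at h1
  linarith

/-- The index of the cut interval of `x`: the number of `j < N - 1` with `c (j + 1) < x`. -/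
noncomputable def idx (c : ℕ → ℝ) (N : ℕ) (x : ℝ) : ℕ :=
  ((Finset.range (N - 1)).filter fun j => c (j + 1) < x).card

theorem idx_lt {N : ℕ} (hN : 0 < N) (c : ℕ → ℝ) (x : ℝ) : idx c N x < N := by
  unfold idx
  have h1 := Finset.card_filter_le (Finset.range (N - 1)) (fun j => c (j + 1) < x)
  rw [Finset.card_range] at h1
  omega

/-- the filter is an initial segment -/
private theorem FQuant_mem {c : ℕ → ℝ} (hm : Monotone c) (N : ℕ) (x : ℝ) (k : ℕ) :
    k < idx c N x ↔ k < N - 1 ∧ c (k + 1) < x := by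
  set T := (Finset.range (N - 1)).filter fun j => c (j + 1) < x with hT
  have hidx : idx c N x = T.card := rfl
  have hsub : T ⊆ Finset.range T.card := by
    intro i hi
    rw [hT, Finset.mem_filter, Finset.mem_range] at hi
    have h1 : Finset.range (i + 1) ⊆ T := by
      intro l hl
      rw [Finset.mem_range] at hl
      rw [hT, Finset.mem_filter, Finset.mem_range]
      exact ⟨by omega, lt_of_le_of_lt (hm (by omega)) hi.2⟩
    have h2 := Finset.card_le_card h1
    rw [Finset.card_range] at h2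
    rw [Finset.mem_range]
    omega
  have heq : T = Finset.range T.card :=
    Finset.eq_of_subset_of_card_le hsub (by rw [Finset.card_range])
  rw [hidx, ← Finset.mem_range, ← heq, hT, Finset.mem_filter, Finset.mem_range]

/-- PROOF: the filter is an initial segment of `range (N - 1)` since `c` is monotone. -/
theorem idx_le {N : ℕ} (hN : 0 < N) {c : ℕ → ℝ} (hc : Cuts ν a b N c) {x : ℝ} (hx : x ∈ Set.Icc a b) :
    c (idx c N x) ≤ x ∧ x ≤ c (idx c N x + 1) := by
  have hm := hc.mono
  have hlt := idx_lt hN c x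
  constructor
  · rcases Nat.eq_zero_or_pos (idx c N x) with h0 | h0
    · rw [h0, hc.zero]
      exact hx.1
    · have h1 := ((FQuant_mem hm N x (idx c N x - 1)).1 (by omega)).2
      rw [Nat.sub_add_cancel h0] at h1
      exact h1.le
  · rcases Nat.lt_or_ge (idx c N x) (N - 1) with h1 | h1
    · by_contra h2
      push Not at h2
      have := (FQuant_mem hm N x (idx c N x)).2 ⟨h1, h2⟩
      omega
    · rw [hc.last _ (by omega)]
      exact hx.2

theorem measurable_idx (c : ℕ → ℝ) (N : ℕ) : Measurable (idx c N) := by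
  unfold idx
  simp only [Finset.card_filter]
  refine Finset.measurable_sum _ fun j _ => ?_
  refine Measurable.ite ?_ measurable_const measurable_const
  exact measurableSet_Ioi

/-- Every index has probability `1 / N`. PROOF: `{x | idx c N x = j}` is the interval from `c j` to `c (j + 1)`
(up to the points outside `[a, b]` and the end points), with measure `Fd (c (j + 1)) - Fd (c j)`. -/
theorem law_idx (h : Law a b ν) {N : ℕ} (hN : 0 < N) {c : ℕ → ℝ} (hc : Cuts ν a b N c) {j : ℕ} (hj : j < N) :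
    (ν {x | idx c N x = j}).toReal = 1 / N := by
  haveI := h.prob
  have hm := hc.mono
  have hNr : (0 : ℝ) < N := by exact_mod_cast hN
  have hsub1 : Set.Ioc (c j) (c (j + 1)) ⊆ {x | idx c N x = j} := by
    intro x hx
    show idx c N x = j
    refine le_antisymm ?_ ?_
    · by_contra h1
      push Not at h1
      have := ((FQuant_mem hm N x j).1 h1).2
      exact absurd hx.2 (not_le.2 this)
    · by_contra h1
      push Not at h1
      have h2 := (FQuant_mem hm N x (idx c N x)).2 ⟨by omega, lt_of_le_of_lt (hm (by omega)) hx.1⟩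
      omega
  have hsub2 : {x | idx c N x = j} ⊆ Set.Ioc (c j) (c (j + 1)) ∪ (({c j} : Set ℝ) ∪ (Set.Icc a b)ᶜ) := by
    intro x hx
    have hxj : idx c N x = j := hx
    by_cases hxI : x ∈ Set.Icc a b
    · have h1 := idx_le hN hc hxI
      rw [hxj] at h1
      rcases lt_or_eq_of_le h1.1 with h2 | h2
      · left
        exact ⟨h2, h1.2⟩
      · right
        left
        simp [h2]
    · right
      right
      exact hxI
  have h0 : ν (({c j} : Set ℝ) ∪ (Set.Icc a b)ᶜ) = 0 := measure_union_null (h.atom _) h.supp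
  have heq : ν {x | idx c N x = j} = ν (Set.Ioc (c j) (c (j + 1))) := by
    refine le_antisymm ?_ (measure_mono hsub1)
    refine (measure_mono hsub2).trans ((measure_union_le _ _).trans ?_)
    rw [h0, add_zero]
  rw [heq]
  have hun : ν (Set.Iic (c j)) + ν (Set.Ioc (c j) (c (j + 1))) = ν (Set.Iic (c (j + 1))) := by
    rw [← measure_union _ measurableSet_Ioc, Set.Iic_union_Ioc_eq_Iic (hm (Nat.le_succ j))]
    rw [Set.disjoint_left]
    intro x hx1 hx2
    exact absurd hx1 (not_le.2 hx2.1)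
  have hun2 := congrArg ENNReal.toReal hun
  rw [ENNReal.toReal_add (measure_ne_top _ _) (measure_ne_top _ _)] at hun2
  have v1 := hc.val j hj.le
  have v2 := hc.val (j + 1) hj
  unfold Fd at v1 v2
  rw [v1, v2] at hun2
  push_cast at hun2
  have : ((j : ℝ) + 1) / N = (j : ℝ) / N + 1 / N := by ring
  linarith

end Pool.Agent.W_1b8d5d_h85
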