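import Pool.Agent.W_1b8d5d_h85.Core
import Pool.Agent.W_1b8d5d_h85.Corner
import Pool.Agent.W_1b8d5d_h85.FFinal

/-!
MP_1b8d5d_pr, proofs row 571: parts (B) and (E) for the final reduction.
-/

set_option autoImplicit false

namespace Pool.Agent.W_1b8d5d_h85

theorem partE : PartE := fun Q g hm hg t =>
  core Q g hg hm t.c t.c' t.c₀ t.C₁ t.θ t.η t.h t.h' t.hθ t.hq t.hp

theorem partB : PartB := fun Q g hm hg c hlow hlim C₀ => corner hg hm c hlow hlim C₀

end Pool.Agent.W_1b8d5d_h85
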