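import Pool.Agent.W_1b8d5d_h85.Defs

/-!
MP_1b8d5d_pr, proofs row 571: passage times as a metric.
-/

set_option autoImplicit false

namespace Pool.Agent.W_1b8d5d_h85

theorem nm_nonneg (x : V) : 0 ≤ nm x := by
  unfold nm
  positivity

theorem nm_zero : nm 0 = 0 := by
  simp [nm]

theorem nm_eq_zero {x : V} : nm x = 0 ↔ x = 0 := by
  constructor
  · intro h
    unfold nm at h
    have h1 : |(x.1 : ℝ)| = 0 := by
      have := abs_nonneg (x.1 : ℝ)
      have := abs_nonneg (x.2 : ℝ)
      linarith
    have h2 : |(x.2 : ℝ)| = 0 := by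
      have := abs_nonneg (x.1 : ℝ)
      have := abs_nonneg (x.2 : ℝ)
      linarith
    have h3 : x.1 = 0 := by exact_mod_cast abs_eq_zero.1 h1
    have h4 : x.2 = 0 := by exact_mod_cast abs_eq_zero.1 h2
    exact Prod.ext h3 h4
  · rintro rfl
    exact nm_zero

theorem nm_neg (x : V) : nm (-x) = nm x := by
  simp [nm, abs_neg]

theorem nm_add_le (x y : V) : nm (x + y) ≤ nm x + nm y := by
  unfold nm
  have h1 := abs_add_le (x.1 : ℝ) (y.1 : ℝ)
  have h2 := abs_add_le (x.2 : ℝ) (y.2 : ℝ)
  simp only [Prod.fst_add, Prod.snd_add, Int.cast_add]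
  linarith

theorem nm_sub_comm (x y : V) : nm (x - y) = nm (y - x) := by
  rw [← nm_neg, neg_sub]

theorem nm_dir (s : Bool) : nm (dir s) = 1 := by
  cases s <;> simp [nm, dir]

/-- `nm` is a natural number. -/
theorem nm_eq_nat (x : V) : nm x = ((x.1.natAbs + x.2.natAbs : ℕ) : ℝ) := by
  unfold nm
  push_cast [Nat.cast_natAbs]
  rfl

theorem one_le_nm {x : V} (h : x ≠ 0) : 1 ≤ nm x := by
  rw [nm_eq_nat]
  have h1 : x.1.natAbs + x.2.natAbs ≠ 0 := by
    intro h2
    apply h
    have h3 : x.1 = 0 := by omega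
    have h4 : x.2 = 0 := by omega
    exact Prod.ext h3 h4
  exact_mod_cast Nat.one_le_iff_ne_zero.2 h1

/-- Adjacent vertices have distance one. -/
theorem nm_adj {x y : V} (h : grid.Adj x y) : nm (y - x) = 1 := by
  obtain ⟨s, h | h⟩ := h
  · rw [h, add_sub_cancel_left, nm_dir]
  · rw [h, nm_sub_comm, add_sub_cancel_left, nm_dir]

/-- `ke` of an adjacent pair. -/
theorem ke_dir (x : V) (s : Bool) : ke s(x, x + dir s) = (x, s) := by
  obtain ⟨a, b⟩ := x
  cases s
  · simp [ke, dir]
  · simp [ke, dir]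

theorem ke_dir' (x : V) (s : Bool) : ke s(x + dir s, x) = (x, s) := by
  rw [Sym2.eq_swap, ke_dir]

private theorem Grid1_mem {e : Sym2 V} (h : e ∈ grid.edgeSet) :
    ∃ x s, e = s(x, x + dir s) := by
  induction e using Sym2.ind with
  | _ x y =>
    rw [SimpleGraph.mem_edgeSet] at h
    obtain ⟨s, h | h⟩ := h
    · exact ⟨x, s, by rw [h]⟩
    · exact ⟨y, s, by rw [h, Sym2.eq_swap]⟩

/-- `ke` is injective on the edges of the grid. -/
theorem ke_inj {e e' : Sym2 V} (h : e ∈ grid.edgeSet) (h' : e' ∈ grid.edgeSet) (he : ke e = ke e') :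
    e = e' := by
  obtain ⟨x, s, rfl⟩ := Grid1_mem h
  obtain ⟨x', s', rfl⟩ := Grid1_mem h'
  rw [ke_dir, ke_dir] at he
  have h1 : x = x' := congrArg Prod.fst he
  have h2 : s = s' := congrArg Prod.snd he
  rw [h1, h2]

private theorem Grid1_line (s : Bool) (x : V) (n : ℕ) :
    ∃ w : grid.Walk x (x + (n : ℤ) • dir s), w.length = n := by
  induction n with
  | zero =>
    refine ⟨(SimpleGraph.Walk.nil : grid.Walk x x).copy rfl (by simp), by simp⟩
  | succ n ih =>
    obtain ⟨w, hw⟩ := ih
    have hadj : grid.Adj (x + (n : ℤ) • dir s) (x + ((n + 1 : ℕ) : ℤ) • dir s) := by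
      refine ⟨s, Or.inl ?_⟩
      push_cast
      rw [add_smul, one_smul, add_assoc]
    exact ⟨w.concat hadj, by rw [SimpleGraph.Walk.length_concat, hw]⟩

private theorem Grid1_line' (s : Bool) (x : V) (n : ℤ) :
    ∃ w : grid.Walk x (x + n • dir s), w.length = n.natAbs := by
  rcases Int.natAbs_eq n with h | h
  · obtain ⟨w, hw⟩ := Grid1_line s x n.natAbs
    refine ⟨w.copy rfl (by rw [← h]), by simpa using hw⟩
  · obtain ⟨w, hw⟩ := Grid1_line s (x + n • dir s) n.natAbs
    have e : x + n • dir s + (n.natAbs : ℤ) • dir s = x := by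
      rw [add_assoc, ← add_smul]
      have : n + (n.natAbs : ℤ) = 0 := by omega
      rw [this, zero_smul, add_zero]
    exact ⟨(w.copy rfl e).reverse, by simpa using hw⟩

/-- There is a walk of length `nm (y - x)`. -/
theorem exists_walk (x y : V) : ∃ w : grid.Walk x y, (w.length : ℝ) = nm (y - x) := by
  obtain ⟨w1, h1⟩ := Grid1_line' false x (y.1 - x.1)
  obtain ⟨w2, h2⟩ := Grid1_line' true (x + (y.1 - x.1) • dir false) (y.2 - x.2)
  have e : x + (y.1 - x.1) • dir false + (y.2 - x.2) • dir true = y := by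
    apply Prod.ext
    · simp [dir]
    · simp [dir]
  refine ⟨(w1.append w2).copy rfl e, ?_⟩
  rw [SimpleGraph.Walk.length_copy, SimpleGraph.Walk.length_append, h1, h2, nm_eq_nat]
  simp

theorem nm_le_length {x y : V} (w : grid.Walk x y) : nm (y - x) ≤ w.length := by
  induction w with
  | nil => simp [nm]
  | @cons u v w h p ih =>
    have h1 : w - u = (v - u) + (w - v) := by abel
    rw [h1, SimpleGraph.Walk.length_cons]
    have h2 := nm_add_le (v - u) (w - v)
    have h3 := nm_adj h
    push_cast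
    linarith

instance (x y : V) : Nonempty (grid.Walk x y) := ⟨(exists_walk x y).choose⟩

theorem length_wedges {x y : V} (w : grid.Walk x y) : (wedges w).length = w.length := by
  unfold wedges
  rw [List.length_map, SimpleGraph.Walk.length_edges]

theorem wedges_append {x y z : V} (w : grid.Walk x y) (w' : grid.Walk y z) :
    wedges (w.append w') = wedges w ++ wedges w' := by
  unfold wedges
  rw [SimpleGraph.Walk.edges_append, List.map_append]

theorem wedges_reverse {x y : V} (w : grid.Walk x y) : wedges w.reverse = (wedges w).reverse := by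
  unfold wedges
  rw [SimpleGraph.Walk.edges_reverse, List.map_reverse]

/-- A path has no repeated edge. -/
theorem wedges_nodup {x y : V} {w : grid.Walk x y} (hw : w.IsPath) : (wedges w).Nodup := by
  unfold wedges
  have h1 : w.edges.Nodup := hw.isTrail.edges_nodup
  refine h1.map_on ?_
  intro e he e' he' h
  exact ke_inj (w.edges_subset_edgeSet he) (w.edges_subset_edgeSet he') h

theorem cost_append (τ : Env) {x y z : V} (w : grid.Walk x y) (w' : grid.Walk y z) :
    cost τ (w.append w') = cost τ w + cost τ w' := by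
  unfold cost
  rw [wedges_append, List.map_append, List.sum_append]

theorem cost_reverse (τ : Env) {x y : V} (w : grid.Walk x y) : cost τ w.reverse = cost τ w := by
  unfold cost
  rw [wedges_reverse, List.map_reverse, List.sum_reverse]

private theorem Grid1_sum_le {a : ℝ} (l : List Edge) (f : Env) (h : ∀ e, a ≤ f e) :
    a * l.length ≤ (l.map f).sum := by
  induction l with
  | nil => simp
  | cons e l ih =>
    rw [List.map_cons, List.sum_cons, List.length_cons]
    push_cast
    have := h e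
    linarith

private theorem Grid1_le_sum {b : ℝ} (l : List Edge) (f : Env) (h : ∀ e, f e ≤ b) :
    (l.map f).sum ≤ b * l.length := by
  induction l with
  | nil => simp
  | cons e l ih =>
    rw [List.map_cons, List.sum_cons, List.length_cons]
    push_cast
    have := h e
    linarith

section bd

variable {a b : ℝ} {τ : Env} (hτ : Bd a b τ)

include hτ

theorem le_cost {x y : V} (w : grid.Walk x y) : a * w.length ≤ cost τ w := by
  have := Grid1_sum_le (wedges w) τ (fun e => (hτ e).1)
  rwa [length_wedges] at this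

theorem cost_le {x y : V} (w : grid.Walk x y) : cost τ w ≤ b * w.length := by
  have := Grid1_le_sum (wedges w) τ (fun e => (hτ e).2)
  rwa [length_wedges] at this

private theorem Grid1_cost_nonneg (ha : 0 ≤ a) {x y : V} (w : grid.Walk x y) : 0 ≤ cost τ w :=
  le_trans (by positivity) (le_cost hτ w)

private theorem Grid1_bdd (ha : 0 ≤ a) (x y : V) :
    BddBelow (Set.range fun w : grid.Walk x y => cost τ w) := by
  refine ⟨0, ?_⟩
  rintro _ ⟨w, rfl⟩
  exact Grid1_cost_nonneg hτ ha w

theorem T_le_cost (ha : 0 ≤ a) {x y : V} (w : grid.Walk x y) : T τ x y ≤ cost τ w :=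
  ciInf_le (Grid1_bdd hτ ha x y) w

theorem T_nonneg (ha : 0 ≤ a) (x y : V) : 0 ≤ T τ x y :=
  le_ciInf fun w => Grid1_cost_nonneg hτ ha w

theorem T_self (ha : 0 ≤ a) (x : V) : T τ x x = 0 := by
  apply le_antisymm _ (T_nonneg hτ ha x x)
  refine (T_le_cost hτ ha (SimpleGraph.Walk.nil : grid.Walk x x)).trans ?_
  simp [cost, wedges]

theorem T_triangle (ha : 0 ≤ a) (x y z : V) : T τ x z ≤ T τ x y + T τ y z := by
  have h1 : ∀ w : grid.Walk x y, T τ x z - cost τ w ≤ T τ y z := by
    intro w
    apply le_ciInf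
    intro w'
    have := T_le_cost hτ ha (w.append w')
    rw [cost_append] at this
    linarith
  have h2 : T τ x z - T τ y z ≤ T τ x y := by
    apply le_ciInf
    intro w
    have := h1 w
    linarith
  linarith

theorem T_lower (ha : 0 ≤ a) (x y : V) : a * nm (y - x) ≤ T τ x y := by
  apply le_ciInf
  intro w
  exact (mul_le_mul_of_nonneg_left (nm_le_length w) ha).trans (le_cost hτ w)

theorem T_upper (ha : 0 ≤ a) (x y : V) : T τ x y ≤ b * nm (y - x) := by
  obtain ⟨w, hw⟩ := exists_walk x y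
  rw [← hw]
  exact (T_le_cost hτ ha w).trans (cost_le hτ w)

/-- Lipschitz in the end point. -/
theorem T_lip (ha : 0 ≤ a) (x y y' : V) : |T τ x y - T τ x y'| ≤ b * nm (y - y') := by
  rw [abs_le]
  have h1 := T_triangle hτ ha x y y'
  have h2 := T_triangle hτ ha x y' y
  have h3 := T_upper hτ ha y y'
  have h4 := T_upper hτ ha y' y
  rw [nm_sub_comm] at h3
  constructor <;> linarith

end bd

private theorem Grid1_symm_le (τ : Env) (x y : V) :
    Set.range (fun w : grid.Walk x y => cost τ w) = Set.range (fun w : grid.Walk y x => cost τ w) := by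
  ext r
  constructor
  · rintro ⟨w, rfl⟩
    exact ⟨w.reverse, cost_reverse τ w⟩
  · rintro ⟨w, rfl⟩
    exact ⟨w.reverse, cost_reverse τ w⟩

theorem T_symm (τ : Env) (x y : V) : T τ x y = T τ y x := by
  unfold T iInf
  rw [Grid1_symm_le]

section bd2

variable {a b : ℝ} {τ : Env} (hτ : Bd a b τ)

include hτ

/-- Lipschitz in the starting point. -/
theorem T_lip' (ha : 0 ≤ a) (x x' y : V) : |T τ x y - T τ x' y| ≤ b * nm (x - x') := by
  rw [T_symm τ x y, T_symm τ x' y]
  exact T_lip hτ ha y x x'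

end bd2

/-- an automorphism of the grid with the induced map on the edges -/
private theorem Grid1_map (τ τ' : Env) (f : V → V) (hf : ∀ x y, grid.Adj x y → grid.Adj (f x) (f y))
    (hc : ∀ x y, grid.Adj x y → τ (ke s(f x, f y)) = τ' (ke s(x, y))) {x y : V}
    (w : grid.Walk x y) : ∃ w' : grid.Walk (f x) (f y), cost τ w' = cost τ' w := by
  induction w with
  | nil => exact ⟨SimpleGraph.Walk.nil, by simp [cost, wedges]⟩
  | @cons u v w h p ih =>
    obtain ⟨w', hw'⟩ := ih
    refine ⟨SimpleGraph.Walk.cons (hf _ _ h) w', ?_⟩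
    unfold cost wedges at hw' ⊢
    rw [SimpleGraph.Walk.edges_cons, SimpleGraph.Walk.edges_cons, List.map_cons, List.map_cons,
      List.map_cons, List.map_cons, List.sum_cons, List.sum_cons, hw', hc _ _ h]

private theorem Grid1_aut (τ τ' : Env) (f g : V → V)
    (hf : ∀ x y, grid.Adj x y → grid.Adj (f x) (f y))
    (hg : ∀ x y, grid.Adj x y → grid.Adj (g x) (g y)) (hgf : ∀ x, g (f x) = x)
    (hfg : ∀ x, f (g x) = x)
    (hc : ∀ x y, grid.Adj x y → τ (ke s(f x, f y)) = τ' (ke s(x, y))) (x y : V) :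
    T τ' x y = T τ (f x) (f y) := by
  unfold T iInf
  congr 1
  ext r
  constructor
  · rintro ⟨w, rfl⟩
    obtain ⟨w', hw'⟩ := Grid1_map τ τ' f hf hc w
    exact ⟨w', hw'⟩
  · rintro ⟨w, rfl⟩
    have hc' : ∀ x y, grid.Adj x y → τ' (ke s(g x, g y)) = τ (ke s(x, y)) := by
      intro x y h
      rw [← hc _ _ (hg _ _ h), hfg, hfg]
    obtain ⟨w', hw'⟩ := Grid1_map τ' τ g hg hc' w
    exact ⟨w'.copy (hgf x) (hgf y), by
      show cost τ' (w'.copy (hgf x) (hgf y)) = cost τ w
      rw [← hw']
      unfold cost wedges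
      rw [SimpleGraph.Walk.edges_copy]⟩

/-- Shift covariance. -/
theorem T_sh (z : V) (τ : Env) (x y : V) : T (sh z τ) x y = T τ (x + z) (y + z) := by
  refine Grid1_aut τ (sh z τ) (fun v => v + z) (fun v => v - z) ?_ ?_ ?_ ?_ ?_ x y
  · rintro x y ⟨s, h | h⟩
    · exact ⟨s, Or.inl (by rw [h]; abel)⟩
    · exact ⟨s, Or.inr (by rw [h]; abel)⟩
  · rintro x y ⟨s, h | h⟩
    · exact ⟨s, Or.inl (by rw [h]; abel)⟩
    · exact ⟨s, Or.inr (by rw [h]; abel)⟩
  · intro x
    abel
  · intro x
    abel
  · rintro x y ⟨s, h | h⟩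
    · subst h
      have e : x + dir s + z = (x + z) + dir s := by abel
      simp only [e, ke_dir, sh]
    · subst h
      have e : y + dir s + z = (y + z) + dir s := by abel
      simp only [e, ke_dir', sh]

/-- Reflection. -/
theorem T_rf (τ : Env) (x y : V) : T (rf τ) x y = T τ (-x) (-y) := by
  refine Grid1_aut τ (rf τ) (fun v => -v) (fun v => -v) ?_ ?_ ?_ ?_ ?_ x y
  · rintro x y ⟨s, h | h⟩
    · exact ⟨s, Or.inr (by rw [h]; abel)⟩
    · exact ⟨s, Or.inl (by rw [h]; abel)⟩
  · rintro x y ⟨s, h | h⟩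
    · exact ⟨s, Or.inr (by rw [h]; abel)⟩
    · exact ⟨s, Or.inl (by rw [h]; abel)⟩
  · intro x
    simp
  · intro x
    simp
  · rintro x y ⟨s, h | h⟩
    · subst h
      have e : -x = -(x + dir s) + dir s := by abel
      have e2 : (-(x + dir s) : V) = -x - dir s := by abel
      conv_lhs => rw [e]
      rw [ke_dir', ke_dir, e2]
      rfl
    · subst h
      have e : -y = -(y + dir s) + dir s := by abel
      have e2 : (-(y + dir s) : V) = -y - dir s := by abel
      conv_lhs => rw [e]
      rw [ke_dir, ke_dir', e2]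
      rfl

private theorem Grid1_sum_mono (l : List Edge) {f g : Env} (h : ∀ e, f e ≤ g e) :
    (l.map f).sum ≤ (l.map g).sum := by
  induction l with
  | nil => simp
  | cons e l ih =>
    rw [List.map_cons, List.sum_cons, List.map_cons, List.sum_cons]
    have := h e
    linarith

/-- Monotonicity in the environment. -/
theorem T_mono {a b : ℝ} (ha : 0 ≤ a) {τ τ' : Env} (hτ : Bd a b τ) (h : ∀ e, τ e ≤ τ' e)
    (x y : V) : T τ x y ≤ T τ' x y := by
  apply le_ciInf
  intro w
  exact (T_le_cost hτ ha w).trans (Grid1_sum_mono _ h)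

theorem Bd_sh {a b : ℝ} {τ : Env} (hτ : Bd a b τ) (z : V) : Bd a b (sh z τ) := fun _ => hτ _

theorem Bd_rf {a b : ℝ} {τ : Env} (hτ : Bd a b τ) : Bd a b (rf τ) := fun _ => hτ _

end Pool.Agent.W_1b8d5d_h85
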