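import Pool.Agent.W_1b8d5d_h85.LanesA

/-!
MP_1b8d5d_pr, proofs row 571, (5c): definitions of the traveller's strategy.  `r = h^33`, lanes of length `h^60`.
-/

set_option autoImplicit false

namespace Pool.Agent.W_1b8d5d_h85

open Finset

/-- The functional `ρ = p + q`. -/
def Crd.rho (c : Crd) (x : V) : ℝ := c.p x + c.q x

/-- There is a lane of excess at most `-t` which starts on the column `p = α` and ends at most `ℓ` to the right of it (or `u` to the
left), in the window `|q| ≤ B`. -/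
def Lane (c : Crd) (w u ℓ α B t : ℝ) (τ : Env) : Prop :=
  ∃ x y, |c.p x - α| ≤ w ∧ |c.q x| ≤ B ∧ α - u ≤ c.p y ∧ c.p y ≤ α + ℓ ∧ |c.q y| ≤ B ∧
    T τ x y ≤ c.rho (y - x) - t

/-- The reversed lanes: the end is on the column `p = α`. -/
def Lane' (c : Crd) (w u ℓ α B t : ℝ) (τ : Env) : Prop :=
  ∃ x y, |c.p y - α| ≤ w ∧ |c.q y| ≤ B ∧ α - ℓ ≤ c.p x ∧ c.p x ≤ α + u ∧ |c.q x| ≤ B ∧
    T τ x y ≤ c.rho (y - x) - t

/-- The region used by the lanes which start at the anchor `o` and end in the slice `j` (`(j-1) r ≤ p - p o < j r`). -/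
def Gr (c : Crd) (h B : ℝ) (o : V) (j : ℕ) : Set V :=
  {z | -2 * h ^ 33 ≤ c.p (z - o) ∧ c.p (z - o) ≤ (j + 2) * h ^ 33 ∧ |c.q (z - o)| ≤ 2 * B}

/-- `xy` is a lane at the anchor `o`, slice `j`, in the environment `τ`. -/
def LP (c : Crd) (w h B t : ℝ) (o : V) (j : ℕ) (xy : V × V) (τ : Env) : Prop :=
  |c.p (xy.1 - o)| ≤ w ∧ |c.q (xy.1 - o)| ≤ B ∧ ((j : ℝ) - 1) * h ^ 33 ≤ c.p (xy.2 - o) ∧
  c.p (xy.2 - o) < j * h ^ 33 ∧ c.p (xy.2 - o) ≤ 2 * h ^ 60 ∧ |c.q (xy.2 - o)| ≤ B ∧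
  T τ xy.1 xy.2 ≤ c.rho (xy.2 - xy.1) - t

/-- The slice `j` of the window at `o` is good. -/
def GS (b : ℝ) (c : Crd) (w h B t : ℝ) (o : V) (j : ℕ) (τ : Env) : Prop :=
  ∃ xy, LP c w h B t o j xy (res b (edg (Gr c h B o j)) τ)

/-- The window at `o` is good. -/
def GW (b : ℝ) (c : Crd) (w h B t : ℝ) (o : V) (τ : Env) : Prop :=
  ∃ j : ℕ, (j : ℝ) ≤ 3 * h ^ 27 ∧ GS b c w h B t o j τ

open Classical in
/-- The chosen lane in a given environment (any lane if there is one). -/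
noncomputable def pick (c : Crd) (w h B t : ℝ) (o : V) (j : ℕ) (τ : Env) : V × V :=
  if H : ∃ xy, LP c w h B t o j xy τ then H.choose else (0, 0)

/-- The anchors of the windows. -/
def an (c : Crd) (h B : ℝ) (i : ℕ) : V := c.rd (8 * h ^ 33) (10 * B * (i + 1))

/-- The event that one of the first `I` windows is good. -/
def Suc (b : ℝ) (c : Crd) (w h B t : ℝ) (I : ℕ) (τ : Env) : Prop :=
  ∃ i < I, GW b c w h B t (an c h B i) τ

/-- The first good window. -/
noncomputable def iS (b : ℝ) (c : Crd) (w h B t : ℝ) (τ : Env) : ℕ :=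
  sInf {i | GW b c w h B t (an c h B i) τ}

/-- The first good slice of the first good window. -/
noncomputable def jS (b : ℝ) (c : Crd) (w h B t : ℝ) (τ : Env) : ℕ :=
  sInf {j | GS b c w h B t (an c h B (iS b c w h B t τ)) j τ}

/-- The chosen lane. -/
noncomputable def xyS (b : ℝ) (c : Crd) (w h B t : ℝ) (τ : Env) : V × V :=
  pick c w h B t (an c h B (iS b c w h B t τ)) (jS b c w h B t τ)
    (res b (edg (Gr c h B (an c h B (iS b c w h B t τ)) (jS b c w h B t τ))) τ)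

open Classical in
/-- The end of the macro step. -/
noncomputable def Yf (b : ℝ) (c : Crd) (w h B t : ℝ) (I : ℕ) (τ : Env) : V :=
  if Suc b c w h B t I τ then (xyS b c w h B t τ).2 + c.rd (6 * h ^ 33) 0
  else c.rd (4 * h ^ 60) (2 * c.C)

/-- The edges which the traveller may use. -/
def QB (c : Crd) (h B : ℝ) : Set Edge := {e | e ∈ edg (Qd c (4 * B) 0) ∧ nm e.1 ≤ h ^ 70}

/-- The cost of the macro step (its excess, in the environment restricted to `QB`). -/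
noncomputable def Af (b : ℝ) (c : Crd) (w h B t : ℝ) (I : ℕ) (τ : Env) : ℝ :=
  T (res b (QB c h B) τ) 0 (Yf b c w h B t I τ) - c.rho (Yf b c w h B t I τ)

/-- The climbing strip. -/
def Strip (c : Crd) (h B : ℝ) : Set Edge :=
  {e | e ∈ edg {z | 0 ≤ c.p z ∧ c.p z ≤ 5 * h ^ 33 ∧ -(4 * B) ≤ c.q z} ∧ nm e.1 ≤ h ^ 70}

end Pool.Agent.W_1b8d5d_h85
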