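import Pool.Agent.W_1b8d5d_h85.LWin

/-!
MP_1b8d5d_pr, proofs row 571, (5c): the number of windows which the traveller has to inspect.
-/

set_option autoImplicit false

namespace Pool.Agent.W_1b8d5d_h85

open Finset

private theorem LProb_Gr_iff (c : Crd) (h B : ℝ) (o : V) (j : ℕ) (z : V) :
    z + o ∈ Gr c h B o j ↔ z ∈ Gr c h B 0 j := by
  simp only [Gr, Set.mem_setOf_eq, add_sub_cancel_right, sub_zero]

private theorem LProb_res_sh (b : ℝ) (c : Crd) (h B : ℝ) (o : V) (j : ℕ) (τ : Env) :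
    sh o (res b (edg (Gr c h B o j)) τ) = res b (edg (Gr c h B 0 j)) (sh o τ) := by
  funext e
  have h1 : ((e.1 + o, e.2) : Edge) ∈ edg (Gr c h B o j) ↔ e ∈ edg (Gr c h B 0 j) := by
    have h2 : e.1 + o + dir e.2 = e.1 + dir e.2 + o := by abel
    simp only [edg, Set.mem_setOf_eq, h2, LProb_Gr_iff]
  by_cases h3 : e ∈ edg (Gr c h B 0 j)
  · simp only [sh, res, h1, h3, if_true]
  · simp only [sh, res, h1, h3, if_false]

private theorem LProb_LP_sh (c : Crd) (w h B t : ℝ) (o : V) (j : ℕ) (x y : V) (τ : Env) :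
    LP c w h B t o j (x, y) τ ↔ LP c w h B t 0 j (x - o, y - o) (sh o τ) := by
  simp only [LP, sub_zero, T_sh, sub_add_cancel, sub_sub_sub_cancel_right]

/-- The window event seen from the anchor.  PROOF.  `T_sh`, and `res b (edg (Gr c h B o j)) τ` shifted by `o` is
`res b (edg (Gr c h B 0 j)) (sh o τ)`. -/
theorem GW_sh (b : ℝ) (c : Crd) (w h B t : ℝ) (o : V) (τ : Env) :
    GW b c w h B t o τ ↔ GW b c w h B t 0 (sh o τ) := by
  unfold GW GS
  constructor
  · rintro ⟨j, hj, ⟨x, y⟩, h1⟩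
    refine ⟨j, hj, (x - o, y - o), ?_⟩
    rw [← LProb_res_sh, ← LProb_LP_sh]
    exact h1
  · rintro ⟨j, hj, ⟨x, y⟩, h1⟩
    refine ⟨j, hj, (x + o, y + o), ?_⟩
    rw [LProb_LP_sh, LProb_res_sh, add_sub_cancel_right, add_sub_cancel_right]
    exact h1

/-- The edges of the window at `o`. -/
private def LProb_W (c : Crd) (h B : ℝ) (o : V) : Set Edge :=
  {e | ∃ j : ℕ, (j : ℝ) ≤ 3 * h ^ 27 ∧ e ∈ edg (Gr c h B o j)}

private theorem LProb_res_congr (b : ℝ) {A : Set Edge} {τ τ' : Env} (h : ∀ e ∈ A, τ e = τ' e) :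
    res b A τ = res b A τ' := by
  funext e
  by_cases he : e ∈ A
  · simp only [res, he, if_true]
    exact h e he
  · simp only [res, he, if_false]

private theorem LProb_GW_dep (b : ℝ) (c : Crd) (w h B t : ℝ) (o : V) {τ τ' : Env}
    (hτ : ∀ e ∈ LProb_W c h B o, τ e = τ' e) : GW b c w h B t o τ ↔ GW b c w h B t o τ' := by
  unfold GW GS
  refine exists_congr fun j => and_congr_right fun hj => ?_
  rw [LProb_res_congr b fun e he => hτ e ⟨j, hj, he⟩]

private theorem LProb_pow {h : ℝ} (hh : 1 ≤ h) {m n : ℕ} (hmn : m ≤ n) : h ^ m ≤ h ^ n :=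
  pow_le_pow_right₀ hh hmn

/-- Location of the edges of a window. -/
private theorem LProb_W_q (c : Crd) {h B : ℝ} {o : V} {e : Edge} (he : e ∈ LProb_W c h B o) :
    |c.q e.1 - c.q o| ≤ 2 * B := by
  obtain ⟨j, _, h1, _⟩ := he
  have h2 := h1.2.2
  rwa [map_sub] at h2

private theorem LProb_W_p (c : Crd) {h B : ℝ} (hh : 1 ≤ h) {o : V} {e : Edge}
    (he : e ∈ LProb_W c h B o) : |c.p e.1 - c.p o| ≤ 5 * h ^ 60 := by
  obtain ⟨j, hj, h1, _⟩ := he
  have h2 := h1.1
  have h3 := h1.2.1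
  rw [map_sub] at h2 h3
  have h4 : h ^ 60 = h ^ 27 * h ^ 33 := by rw [← pow_add]
  have h5 : h ^ 33 ≤ h ^ 60 := LProb_pow hh (by norm_num)
  have h6 : (0 : ℝ) ≤ h ^ 33 := by positivity
  have h7 : ((j : ℝ) + 2) * h ^ 33 ≤ 5 * h ^ 60 := by
    have := mul_le_mul_of_nonneg_right hj h6
    rw [h4] at *
    linarith
  rw [abs_le]
  constructor <;> linarith

private theorem LProb_box (c : Crd) {h B : ℝ} (h15 : 15 ≤ h) (hC : c.C ≤ h) (hB : h ^ 35 ≤ B)
    {i : ℕ} (hi : 10 * B * (i + 2) ≤ h ^ 64) {e : Edge} (he : e ∈ LProb_W c h B (an c h B i)) :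
    nm e.1 ≤ h ^ 70 := by
  have hh : 1 ≤ h := by linarith
  have h1 := LProb_W_q c he
  have h2 := LProb_W_p c hh he
  have h3 := c.rd_p (8 * h ^ 33) (10 * B * (i + 1))
  have h4 := c.rd_q (8 * h ^ 33) (10 * B * (i + 1))
  rw [← an] at h3 h4
  have h5 : h ^ 33 ≤ h ^ 64 := LProb_pow hh (by norm_num)
  have h6 : h ^ 60 ≤ h ^ 64 := LProb_pow hh (by norm_num)
  have h7 : h ≤ h ^ 35 := by simpa using LProb_pow hh (show 1 ≤ 35 by norm_num)
  have h8 : h ^ 35 ≤ h ^ 64 := LProb_pow hh (by norm_num)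
  have h33 : (0 : ℝ) ≤ h ^ 33 := by positivity
  have h64 : (0 : ℝ) ≤ h ^ 64 := by positivity
  rw [abs_le] at h1 h2 h3 h4
  have h9 : |c.p e.1| ≤ 14 * h ^ 64 := by
    rw [abs_le]
    constructor <;> linarith
  have hB0 : 0 ≤ B := le_trans (by positivity) hB
  have hi0 : (0 : ℝ) ≤ i := Nat.cast_nonneg i
  have hBi : 0 ≤ B * i := mul_nonneg hB0 hi0
  have h10 : |c.q e.1| ≤ h ^ 64 := by
    rw [abs_le]
    constructor <;> nlinarith
  have h11 := c.nm_le e.1
  have h12 : c.C * (|c.p e.1| + |c.q e.1|) ≤ h * (15 * h ^ 64) :=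
    mul_le_mul hC (by linarith) (by positivity) (by linarith)
  have h13 : h * (15 * h ^ 64) ≤ h * (h * h ^ 64) :=
    mul_le_mul_of_nonneg_left (mul_le_mul_of_nonneg_right h15 (by positivity)) (by linarith)
  have h14 : h * (h * h ^ 64) = h ^ 66 := by ring
  have h15' : h ^ 66 ≤ h ^ 70 := LProb_pow hh (by norm_num)
  linarith

private theorem LProb_disj (c : Crd) {h B : ℝ} (h15 : 15 ≤ h) (hC : c.C ≤ h) (hB : h ^ 35 ≤ B)
    {i n : ℕ} (hi : i < n) {e : Edge} (he : e ∈ LProb_W c h B (an c h B i))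
    (he' : e ∈ LProb_W c h B (an c h B n)) : False := by
  have hh : 1 ≤ h := by linarith
  have h1 := LProb_W_q c he
  have h2 := LProb_W_q c he'
  have h3 := c.rd_q (8 * h ^ 33) (10 * B * (i + 1))
  have h4 := c.rd_q (8 * h ^ 33) (10 * B * (n + 1))
  rw [← an] at h3 h4
  have h7 : h ≤ h ^ 35 := by simpa using LProb_pow hh (show 1 ≤ 35 by norm_num)
  rw [abs_le] at h1 h2 h3 h4
  have hB0 : 0 < B := by linarith
  have hin : (i : ℝ) + 1 ≤ n := by exact_mod_cast hi
  have h5 := mul_le_mul_of_nonneg_left hin hB0.le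
  nlinarith

private theorem LProb_E_ite {a b : ℝ} (M : Mdl a b) (p : Env → Prop) (dec : ∀ τ, Decidable (p τ)) :
    M.E (fun τ => @ite ℝ (p τ) (dec τ) 1 0) = M.P p := by
  rw [Mdl.P_def]
  refine M.E_congr fun τ _ => ?_
  by_cases h : p τ
  · rw [if_pos h, if_pos h]
  · rw [if_neg h, if_neg h]

/-- Different windows are independent: no good window among the first `n`.  PROOF.  Induction on `n`; the event for the windows `< n` and
the event for the window `n` depend on disjoint sets of edges (heights `≤ 10 B n + 2 B + C`, resp. `≥ 10 B (n+1) - 2 B - C`), all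
in the box `h^70 ≤ R`; `Good.indep`, `GW_sh`, `Good.P_sh`. -/
theorem no_good (Q : Par) (g : V → ℝ) (c : Crd) (w : ℝ) : ∃ h₀ : ℝ, ∀ h ≥ h₀,
    ∀ (R : ℝ) (M : Mdl Q.a Q.b), Good Q g R M → h ^ 70 ≤ R → ∀ (B t : ℝ), h ^ 35 ≤ B →
    B ≤ h ^ 42 → ∀ n : ℕ, 10 * B * (n + 2) ≤ h ^ 64 →
      M.P (fun τ => ¬ Suc Q.b c w h B t n τ) = (1 - M.P (GW Q.b c w h B t 0)) ^ n := by
  classical
  refine ⟨max 15 c.C, fun h hh R M hM hR B t hB1 hB2 n => ?_⟩
  have h15 : 15 ≤ h := (le_max_left _ _).trans hh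
  have hC : c.C ≤ h := (le_max_right _ _).trans hh
  have hB0 : 0 ≤ B := le_trans (by positivity) hB1
  induction n with
  | zero =>
    intro _
    rw [pow_zero, M.P_def]
    refine (M.E_congr (G := fun _ => (1 : ℝ)) fun τ _ => ?_).trans (M.E_const 1)
    rw [if_pos]
    rintro ⟨i, hi, _⟩
    exact absurd hi (Nat.not_lt_zero i)
  | succ n ih =>
    intro hn
    have hn' : 10 * B * ((n : ℝ) + 2) ≤ h ^ 64 := by
      refine le_trans ?_ hn
      push_cast
      nlinarith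
    have hn2 : ∀ i ≤ n, 10 * B * ((i : ℝ) + 2) ≤ h ^ 64 := by
      intro i hi
      have h1 : (i : ℝ) ≤ n := by exact_mod_cast hi
      refine le_trans ?_ hn'
      have := mul_le_mul_of_nonneg_left h1 hB0
      nlinarith
    have h1 := hM.indep {e | ∃ i < n, e ∈ LProb_W c h B (an c h B i)}
      (LProb_W c h B (an c h B n)) ?_ ?_
      (fun τ => if ¬ Suc Q.b c w h B t n τ then (1 : ℝ) else 0)
      (fun τ => if ¬ GW Q.b c w h B t (an c h B n) τ then (1 : ℝ) else 0) ?_ ?_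
    · have e1 : M.E (fun τ => if ¬ Suc Q.b c w h B t n τ then (1 : ℝ) else 0)
          = M.P fun τ => ¬ Suc Q.b c w h B t n τ := LProb_E_ite M _ _
      have e2 : M.E (fun τ => if ¬ GW Q.b c w h B t (an c h B n) τ then (1 : ℝ) else 0)
          = M.P fun τ => ¬ GW Q.b c w h B t (an c h B n) τ := LProb_E_ite M _ _
      rw [e1, e2, ih hn', M.P_not] at h1
      have h2 : M.P (GW Q.b c w h B t (an c h B n)) = M.P (GW Q.b c w h B t 0) := by
        refine Eq.trans ?_ (hM.P_sh (an c h B n) (GW Q.b c w h B t 0))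
        unfold Mdl.P
        congr 1
        funext ω
        exact propext (GW_sh _ _ _ _ _ _ _ _)
      rw [h2, ← pow_succ] at h1
      rw [← h1, M.P_def]
      refine M.E_congr fun τ _ => ?_
      have h3 : Suc Q.b c w h B t (n + 1) τ ↔
          Suc Q.b c w h B t n τ ∨ GW Q.b c w h B t (an c h B n) τ := by
        unfold Suc
        constructor
        · rintro ⟨i, hi, h4⟩
          rcases Nat.lt_succ_iff_lt_or_eq.1 hi with h5 | h5
          · exact Or.inl ⟨i, h5, h4⟩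
          · exact Or.inr (h5 ▸ h4)
        · rintro (⟨i, hi, h4⟩ | h4)
          · exact ⟨i, by omega, h4⟩
          · exact ⟨n, by omega, h4⟩
      by_cases h5 : Suc Q.b c w h B t n τ <;> by_cases h6 : GW Q.b c w h B t (an c h B n) τ <;>
        simp [h3, h5, h6]
    · rw [Set.disjoint_left]
      rintro e ⟨i, hi, he⟩ he'
      exact LProb_disj c h15 hC hB1 hi he he'
    · rintro e (⟨i, hi, he⟩ | he)
      · exact (LProb_box c h15 hC hB1 (hn2 i hi.le) he).trans hR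
      · exact (LProb_box c h15 hC hB1 (hn2 n le_rfl) he).trans hR
    · intro τ τ' hτ
      have h2 : Suc Q.b c w h B t n τ ↔ Suc Q.b c w h B t n τ' := by
        unfold Suc
        refine exists_congr fun i => and_congr_right fun hi => ?_
        exact LProb_GW_dep _ _ _ _ _ _ _ fun e he => hτ e ⟨i, hi, he⟩
      simp only [h2]
    · intro τ τ' hτ
      have h2 := LProb_GW_dep Q.b c w h B t (an c h B n) hτ
      simp only [h2]

open Classical in
/-- The mean height.  PROOF.  `E [(iS + 1) 1_Suc] ≤ ∑_{n < I} P(no good window among the first n) ≤ 1/q`, and `P(Suc) ≤ 1 ≤ 1/q`. -/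
theorem iS_mean (Q : Par) (g : V → ℝ) (c : Crd) (w : ℝ) : ∃ h₀ : ℝ, ∀ h ≥ h₀,
    ∀ (R : ℝ) (M : Mdl Q.a Q.b), Good Q g R M → h ^ 70 ≤ R → ∀ (B t : ℝ) (I : ℕ), h ^ 35 ≤ B →
    B ≤ h ^ 42 → 10 * B * (I + 2) ≤ h ^ 64 → 0 < M.P (GW Q.b c w h B t 0) →
      M.E (fun τ => if Suc Q.b c w h B t I τ then (iS Q.b c w h B t τ : ℝ) + 2 else 0)
        ≤ 2 / M.P (GW Q.b c w h B t 0) := by
  obtain ⟨h₀, H⟩ := no_good Q g c w
  refine ⟨max h₀ 1, fun h hh R M hM hR B t I hB1 hB2 hI hq => ?_⟩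
  have hh0 : h₀ ≤ h := (le_max_left _ _).trans hh
  have hh1 : 1 ≤ h := (le_max_right _ _).trans hh
  have hB0 : 0 ≤ B := le_trans (by positivity) hB1
  set q := M.P (GW Q.b c w h B t 0) with hqd
  have hq1 : q ≤ 1 := M.P_le_one _
  have h1 : ∀ n < I, M.P (fun τ => ¬ Suc Q.b c w h B t n τ) = (1 - q) ^ n := by
    intro n hn
    refine H h hh0 R M hM hR B t hB1 hB2 n (le_trans ?_ hI)
    have h2 : (n : ℝ) ≤ I := by exact_mod_cast hn.le
    have := mul_le_mul_of_nonneg_left h2 hB0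
    nlinarith
  have h2 : M.E (fun τ => if Suc Q.b c w h B t I τ then (iS Q.b c w h B t τ : ℝ) + 2 else 0)
      ≤ M.E (fun τ => (∑ n ∈ range I, if ¬ Suc Q.b c w h B t n τ then (1 : ℝ) else 0) + 1) := by
    refine M.E_mono fun τ _ => ?_
    have h3 : 0 ≤ ∑ n ∈ range I, if ¬ Suc Q.b c w h B t n τ then (1 : ℝ) else 0 :=
      sum_nonneg fun n _ => by split_ifs <;> norm_num
    by_cases h4 : Suc Q.b c w h B t I τ
    · rw [if_pos h4]
      obtain ⟨i, hi, h5⟩ := h4
      have h6 : iS Q.b c w h B t τ ≤ i := Nat.sInf_le h5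
      have h7 : ∀ n ∈ range (iS Q.b c w h B t τ + 1),
          (if ¬ Suc Q.b c w h B t n τ then (1 : ℝ) else 0) = 1 := by
        intro n hn
        rw [if_pos]
        rintro ⟨k, hk, h8⟩
        have h9 : iS Q.b c w h B t τ ≤ k := Nat.sInf_le h8
        have := mem_range.1 hn
        omega
      have h8 : ∑ n ∈ range (iS Q.b c w h B t τ + 1),
          (if ¬ Suc Q.b c w h B t n τ then (1 : ℝ) else 0) = iS Q.b c w h B t τ + 1 := by
        rw [sum_congr rfl h7, sum_const, card_range, nsmul_eq_mul, mul_one]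
        push_cast
        ring
      have h9 : ∑ n ∈ range (iS Q.b c w h B t τ + 1),
          (if ¬ Suc Q.b c w h B t n τ then (1 : ℝ) else 0)
          ≤ ∑ n ∈ range I, if ¬ Suc Q.b c w h B t n τ then (1 : ℝ) else 0 := by
        refine sum_le_sum_of_subset_of_nonneg ?_ fun n _ _ => by split_ifs <;> norm_num
        intro n hn
        have := mem_range.1 hn
        exact mem_range.2 (by omega)
      linarith
    · rw [if_neg h4]
      linarith
  refine h2.trans ?_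
  rw [M.E_add, M.E_const, M.E_sum]
  have h3 : ∑ n ∈ range I, M.E (fun τ => if ¬ Suc Q.b c w h B t n τ then (1 : ℝ) else 0)
      = ∑ n ∈ range I, (1 - q) ^ n := by
    refine sum_congr rfl fun n hn => ?_
    exact (LProb_E_ite M (fun τ => ¬ Suc Q.b c w h B t n τ) _).trans (h1 n (mem_range.1 hn))
  rw [h3]
  have h4 : q * ∑ n ∈ range I, (1 - q) ^ n ≤ 1 := by
    have h5 := mul_neg_geom_sum (1 - q) I
    have h6 : 1 - (1 - q) = q := by ring
    rw [h6] at h5
    rw [h5]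
    have : 0 ≤ (1 - q) ^ I := pow_nonneg (by linarith) _
    linarith
  have h5 : ∑ n ∈ range I, (1 - q) ^ n ≤ 1 / q := by
    rw [le_div_iff₀ hq, mul_comm]
    exact h4
  have h6 : 1 ≤ 1 / q := by
    rw [le_div_iff₀ hq, one_mul]
    exact hq1
  have h7 : 2 / q = 1 / q + 1 / q := by ring
  rw [h7]
  exact add_le_add h5 h6

/-- On the concentration event a lane gives a good window.  PROOF.  The lane has `T ≤ ρ - t ≤ ρ`; `confine_res` with `l = C h^60`,
`s = h^32` (`2 s + 0 ≤ c₀ r`), `D = h^66`: the geodesic stays in the box of the lane enlarged by `r = h^33`, which is in `Gr c h B 0 j`,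
`j` the slice of the end point (`j = ⌊p y / h^33⌋ + 1 ≤ 3 h^27`). -/
theorem lane_GW (Q : Par) (g : V → ℝ) (c : Crd) (w c₀ C₁ : ℝ) (hc : IsCone g c c₀ C₁) :
    ∃ h₀ : ℝ, ∀ h ≥ h₀, ∀ (B t : ℝ), h ^ 35 ≤ B → B ≤ h ^ 42 → 0 ≤ t → ∀ τ, Bd Q.a Q.b τ →
      CE g (h ^ 66) (h ^ 61) (h ^ 32) τ → Lane c w (h ^ 33) (2 * h ^ 60) 0 B t τ →
        GW Q.b c w h B t 0 τ := by
  have hc0 := hc.pos
  have hba : 0 ≤ Q.b / Q.a := div_nonneg (Q.ha.trans Q.hab).le Q.ha.le
  have hC1 := c.one_le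
  refine ⟨max (max 1 |w|) (max (6 * c.C * (1 + Q.b / Q.a)) (2 / c₀)),
    fun h hh B t hB1 hB2 ht τ hτ hCE hL => ?_⟩
  have hh1 : 1 ≤ h := (le_max_left _ _).trans ((le_max_left _ _).trans hh)
  have hw : |w| ≤ h := (le_max_right _ _).trans ((le_max_left _ _).trans hh)
  have hK : 6 * c.C * (1 + Q.b / Q.a) ≤ h :=
    (le_max_left _ _).trans ((le_max_right _ _).trans hh)
  have hc0h : 2 ≤ c₀ * h := by
    have h1 : 2 / c₀ ≤ h := (le_max_right _ _).trans ((le_max_right _ _).trans hh)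
    rw [div_le_iff₀ hc0] at h1
    linarith
  obtain ⟨x, y, h1, h2, h3, h4, h5, h6⟩ := hL
  rw [sub_zero] at h1
  rw [zero_sub] at h3
  rw [zero_add] at h4
  have hw' : w ≤ h := (le_abs_self w).trans hw
  have e33 : h ^ 33 ≤ h ^ 60 := LProb_pow hh1 (by norm_num)
  have e42 : h ^ 42 ≤ h ^ 60 := LProb_pow hh1 (by norm_num)
  have e1 : h ≤ h ^ 60 := by simpa using LProb_pow hh1 (show 1 ≤ 60 by norm_num)
  have e133 : h ≤ h ^ 33 := by simpa using LProb_pow hh1 (show 1 ≤ 33 by norm_num)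
  have e3335 : h ^ 33 ≤ h ^ 35 := LProb_pow hh1 (by norm_num)
  have p33 : (0 : ℝ) < h ^ 33 := by positivity
  have p60 : (0 : ℝ) < h ^ 60 := by positivity
  rw [abs_le] at h1 h2 h5
  have hnxy : nm (y - x) ≤ 6 * c.C * h ^ 60 := by
    have h7 := c.nm_le (y - x)
    rw [map_sub, map_sub] at h7
    have h8 : |c.p y - c.p x| ≤ 3 * h ^ 60 := by
      rw [abs_le]
      constructor <;> linarith
    have h9 : |c.q y - c.q x| ≤ 2 * h ^ 60 := by
      rw [abs_le]
      constructor <;> linarith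
    have h10 : c.C * (|c.p y - c.p x| + |c.q y - c.q x|) ≤ c.C * (6 * h ^ 60) :=
      mul_le_mul_of_nonneg_left (by linarith) (by linarith)
    linarith
  have hnx : nm x ≤ 6 * c.C * h ^ 60 := by
    have h7 := c.nm_le x
    have h8 : |c.p x| ≤ h ^ 60 := by
      rw [abs_le]
      constructor <;> linarith
    have h9 : |c.q x| ≤ h ^ 60 := by
      rw [abs_le]
      constructor <;> linarith
    have h10 : c.C * (|c.p x| + |c.q x|) ≤ c.C * (6 * h ^ 60) :=
      mul_le_mul_of_nonneg_left (by linarith) (by linarith)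
    linarith
  have hny : nm y ≤ 6 * c.C * h ^ 60 := by
    have h7 := c.nm_le y
    have h8 : |c.p y| ≤ 2 * h ^ 60 := by
      rw [abs_le]
      constructor <;> linarith
    have h9 : |c.q y| ≤ h ^ 60 := by
      rw [abs_le]
      constructor <;> linarith
    have h10 : c.C * (|c.p y| + |c.q y|) ≤ c.C * (6 * h ^ 60) :=
      mul_le_mul_of_nonneg_left (by linarith) (by linarith)
    linarith
  have hK2 : (1 + Q.b / Q.a) * (6 * c.C * h ^ 60) ≤ h ^ 61 := by
    have h7 := mul_le_mul_of_nonneg_right hK p60.le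
    have h8 : h * h ^ 60 = h ^ 61 := by ring
    nlinarith
  have e61 : h ^ 61 ≤ h ^ 66 := LProb_pow hh1 (by norm_num)
  have hP0 : 0 ≤ 6 * c.C * h ^ 60 := by positivity
  have hkey : ∀ j : ℕ, c.p y < j * h ^ 33 →
      T (res Q.b (edg (Gr c h B 0 j)) τ) x y = T τ x y := by
    intro j hj
    refine confine_res (D := h ^ 66) (l := h ^ 61) (s := h ^ 32) (w := 0) (r := h ^ 33) hc hτ hCE
      ?_ ?_ ?_ ?_ ?_ ?_
    · have h7 := mul_le_mul_of_nonneg_left hnxy hba
      nlinarith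
    · have h7 : 6 * c.C * h ^ 60 ≤ (1 + Q.b / Q.a) * (6 * c.C * h ^ 60) := by
        nlinarith [mul_nonneg hba hP0]
      linarith
    · have h7 := mul_le_mul_of_nonneg_left hnxy (by linarith : 0 ≤ 1 + Q.b / Q.a)
      linarith
    · have h7 : c.rho (y - x) = c.p (y - x) + c.q (y - x) := rfl
      rw [h7] at h6
      linarith
    · have h7 : h ^ 33 = h * h ^ 32 := by ring
      have h8 : (0 : ℝ) < h ^ 32 := by positivity
      rw [h7]
      nlinarith
    · rintro e ⟨⟨_, a1, a2, a3, a4⟩, ⟨_, b1, b2, b3, b4⟩⟩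
      refine ⟨⟨?_, ?_, ?_⟩, ⟨?_, ?_, ?_⟩⟩
      · rw [sub_zero]
        linarith
      · rw [sub_zero]
        linarith
      · rw [sub_zero, abs_le]
        constructor <;> linarith
      · rw [sub_zero]
        linarith
      · rw [sub_zero]
        linarith
      · rw [sub_zero, abs_le]
        constructor <;> linarith
  have hfl : -1 ≤ ⌊c.p y / h ^ 33⌋ := by
    rw [Int.le_floor]
    push_cast
    rw [le_div_iff₀ p33]
    linarith
  obtain ⟨j, hj⟩ : ∃ j : ℕ, (j : ℤ) = ⌊c.p y / h ^ 33⌋ + 1 :=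
    ⟨(⌊c.p y / h ^ 33⌋ + 1).toNat, Int.toNat_of_nonneg (by omega)⟩
  have hj' : (j : ℝ) = (⌊c.p y / h ^ 33⌋ : ℝ) + 1 := by exact_mod_cast hj
  have f1 : (⌊c.p y / h ^ 33⌋ : ℝ) * h ^ 33 ≤ c.p y := by
    rw [← le_div_iff₀ p33]
    exact Int.floor_le _
  have f2 : c.p y < ((⌊c.p y / h ^ 33⌋ : ℝ) + 1) * h ^ 33 := by
    rw [← div_lt_iff₀ p33]
    exact Int.lt_floor_add_one _
  rw [← hj'] at f2
  refine ⟨j, ?_, (x, y), ?_⟩
  · have f3 : (⌊c.p y / h ^ 33⌋ : ℝ) ≤ 2 * h ^ 27 := by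
      refine (Int.floor_le _).trans ?_
      rw [div_le_iff₀ p33]
      have : h ^ 27 * h ^ 33 = h ^ 60 := by rw [← pow_add]
      nlinarith
    have f4 : (1 : ℝ) ≤ h ^ 27 := one_le_pow₀ hh1
    rw [hj']
    linarith
  · refine ⟨?_, ?_, ?_, ?_, ?_, ?_, ?_⟩
    · rw [sub_zero, abs_le]
      exact h1
    · rw [sub_zero, abs_le]
      exact h2
    · rw [sub_zero, hj', add_sub_cancel_right]
      exact f1
    · rw [sub_zero]
      exact f2
    · rw [sub_zero]
      exact h4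
    · rw [sub_zero, abs_le]
      exact h5
    · show T (res Q.b (edg (Gr c h B 0 j)) τ) x y ≤ c.rho (y - x) - t
      rw [hkey j f2]
      exact h6

end Pool.Agent.W_1b8d5d_h85
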