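import Pool.Agent.W_1b8d5d_h85.LDefs

/-!
MP_1b8d5d_pr, proofs row 571, (5c): the end point of the macro step and the edges on which it depends.
-/

set_option autoImplicit false

namespace Pool.Agent.W_1b8d5d_h85

open Finset

/-- The edges of the windows. -/
def WinE (c : Crd) (h : ℝ) : Set Edge :=
  {e | e ∈ edg {z | 11 / 2 * h ^ 33 ≤ c.p z} ∧ nm e.1 ≤ h ^ 70}

/-- Numerical facts. -/
private theorem LWin_num (c : Crd) {h : ℝ} (hh : 100 * c.C ≤ h) :
    100 ≤ h ∧ h ≤ h ^ 33 ∧ h ^ 27 * h ^ 33 = h ^ 60 ∧ 100 * h ^ 33 ≤ h ^ 60 ∧ h ^ 60 ≤ h ^ 64 ∧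
      100 * c.C * h ^ 64 ≤ h ^ 70 ∧ h ≤ h ^ 35 := by
  have hC := c.one_le
  have h100 : (100 : ℝ) ≤ h := by linarith
  have h1 : (1 : ℝ) ≤ h := by linarith
  have h0 : (0 : ℝ) ≤ h := by linarith
  have e1 : h ≤ h ^ 33 := le_self_pow₀ h1 (by norm_num)
  have e2 : h ≤ h ^ 35 := le_self_pow₀ h1 (by norm_num)
  have e3 : h ^ 27 * h ^ 33 = h ^ 60 := by rw [← pow_add]
  have e4 : h ≤ h ^ 27 := le_self_pow₀ h1 (by norm_num)
  have e5 : h ≤ h ^ 6 := le_self_pow₀ h1 (by norm_num)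
  have e6 : h ^ 60 ≤ h ^ 64 := pow_le_pow_right₀ h1 (by norm_num)
  have e7 : h ^ 6 * h ^ 64 = h ^ 70 := by rw [← pow_add]
  refine ⟨h100, e1, e3, ?_, e6, ?_, e2⟩
  · rw [← e3]
    exact mul_le_mul_of_nonneg_right (h100.trans e4) (by positivity)
  · rw [← e7]
    exact mul_le_mul_of_nonneg_right (hh.trans e5) (by positivity)

/-- The norm in terms of the coordinates. -/
private theorem LWin_nm (c : Crd) {h : ℝ} (hh : 100 * c.C ≤ h) {z : V} (hp : |c.p z| ≤ 10 * h ^ 64)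
    (hq : |c.q z| ≤ 10 * h ^ 64) : nm z ≤ h ^ 70 := by
  obtain ⟨h100, e1, e3, e4, e5, e6, e7⟩ := LWin_num c hh
  have hC := c.one_le
  have h64 : 0 ≤ h ^ 64 := by positivity
  have h1 : c.C * (|c.p z| + |c.q z|) ≤ c.C * (20 * h ^ 64) :=
    mul_le_mul_of_nonneg_left (by linarith) (by linarith)
  have h2 := c.nm_le z
  have h3 : 0 ≤ c.C * h ^ 64 := mul_nonneg (by linarith) h64
  nlinarith

/-- Location of the windows. -/
private theorem LWin_loc (c : Crd) {h B : ℝ} {I : ℕ} (hh : 100 * c.C ≤ h) (hB : h ^ 35 ≤ B)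
    (hI : 10 * B * (I + 2) ≤ h ^ 64) {i j : ℕ} (hi : i < I) (hj : (j : ℝ) ≤ 3 * h ^ 27) {z : V}
    (hz : z ∈ Gr c h B (an c h B i) j) :
    11 / 2 * h ^ 33 ≤ c.p z ∧ c.p z ≤ 8 * h ^ 33 + c.C + (j + 2) * h ^ 33 ∧
      c.p z ≤ c.p (an c h B i) + (j + 2) * h ^ 33 ∧ 0 ≤ c.q z ∧
      c.q z ≤ 10 * B * (i + 1) + c.C + 2 * B ∧ nm z ≤ h ^ 70 := by
  obtain ⟨h100, e1, e3, e4, e5, e6, e7⟩ := LWin_num c hh
  have hC := c.one_le
  obtain ⟨z1, z2, z3⟩ := hz
  rw [map_sub] at z1 z2 z3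
  have hp := c.rd_p (8 * h ^ 33) (10 * B * (i + 1))
  have hq := c.rd_q (8 * h ^ 33) (10 * B * (i + 1))
  change |c.p (an c h B i) - _| ≤ _ at hp
  change |c.q (an c h B i) - _| ≤ _ at hq
  rw [abs_le] at hp hq z3
  have hB1 : 100 * c.C ≤ B := by linarith
  have hi1 : (i : ℝ) + 1 ≤ I := by exact_mod_cast hi
  have hi0 : (0 : ℝ) ≤ i := Nat.cast_nonneg _
  have hB0 : 0 ≤ B := by linarith
  have hiB : 10 * B * ((i : ℝ) + 1) ≤ 10 * B * I := mul_le_mul_of_nonneg_left hi1 (by linarith)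
  have hiB0 : 0 ≤ 10 * B * (i : ℝ) := by positivity
  have h33 : 0 ≤ h ^ 33 := by positivity
  have hjr : (j : ℝ) * h ^ 33 ≤ 3 * h ^ 60 := by
    rw [← e3, ← mul_assoc]
    exact mul_le_mul_of_nonneg_right hj h33
  have hjr0 : 0 ≤ (j : ℝ) * h ^ 33 := by positivity
  have a1 : 11 / 2 * h ^ 33 ≤ c.p z := by linarith
  have a2 : c.p z ≤ 8 * h ^ 33 + c.C + (j + 2) * h ^ 33 := by linarith
  have a3 : c.p z ≤ c.p (an c h B i) + (j + 2) * h ^ 33 := by linarith
  have a4 : 0 ≤ c.q z := by nlinarith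
  have a5 : c.q z ≤ 10 * B * (i + 1) + c.C + 2 * B := by linarith
  refine ⟨a1, a2, a3, a4, a5, LWin_nm c hh ?_ ?_⟩
  · rw [abs_le]
    constructor
    · linarith
    · nlinarith
  · rw [abs_le]
    constructor
    · linarith
    · nlinarith

/-- Two environments which agree on a set have the same restriction. -/
private theorem LWin_res {b : ℝ} {A : Set Edge} {τ τ' : Env} (h : ∀ e ∈ A, τ e = τ' e) :
    res b A τ = res b A τ' := by
  classical
  funext e
  unfold res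
  split_ifs with he
  · exact h e he
  · rfl

private theorem LWin_GS {b : ℝ} {c : Crd} {w h B t : ℝ} {o : V} {j : ℕ} {τ τ' : Env}
    (H : ∀ e ∈ edg (Gr c h B o j), τ e = τ' e) : GS b c w h B t o j τ ↔ GS b c w h B t o j τ' := by
  unfold GS
  rw [LWin_res H]

private theorem LWin_GW {b : ℝ} {c : Crd} {w h B t : ℝ} {o : V} {τ τ' : Env}
    (H : ∀ j : ℕ, (j : ℝ) ≤ 3 * h ^ 27 → ∀ e ∈ edg (Gr c h B o j), τ e = τ' e) :
    GW b c w h B t o τ ↔ GW b c w h B t o τ' := by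
  unfold GW
  constructor
  · rintro ⟨j, hj, hG⟩
    exact ⟨j, hj, (LWin_GS (H j hj)).1 hG⟩
  · rintro ⟨j, hj, hG⟩
    exact ⟨j, hj, (LWin_GS (H j hj)).2 hG⟩

/-- Properties of the first good window and slice. -/
private theorem LWin_first {b : ℝ} {c : Crd} {w h B t : ℝ} {I : ℕ} {τ : Env}
    (hS : Suc b c w h B t I τ) :
    iS b c w h B t τ < I ∧ (jS b c w h B t τ : ℝ) ≤ 3 * h ^ 27 ∧
    GW b c w h B t (an c h B (iS b c w h B t τ)) τ ∧
    GS b c w h B t (an c h B (iS b c w h B t τ)) (jS b c w h B t τ) τ := by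
  obtain ⟨i, hi, hG⟩ := hS
  have hne : {i | GW b c w h B t (an c h B i) τ}.Nonempty := ⟨i, hG⟩
  have h1 : GW b c w h B t (an c h B (iS b c w h B t τ)) τ := Nat.sInf_mem hne
  have h2 : iS b c w h B t τ ≤ i := Nat.sInf_le hG
  obtain ⟨j, hj, hGj⟩ := h1
  have hne2 : {j | GS b c w h B t (an c h B (iS b c w h B t τ)) j τ}.Nonempty := ⟨j, hGj⟩
  have h3 : GS b c w h B t (an c h B (iS b c w h B t τ)) (jS b c w h B t τ) τ := Nat.sInf_mem hne2
  have h4 : jS b c w h B t τ ≤ j := Nat.sInf_le hGj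
  have h5 : (jS b c w h B t τ : ℝ) ≤ j := by exact_mod_cast h4
  exact ⟨lt_of_le_of_lt h2 hi, h5.trans hj, ⟨j, hj, hGj⟩, h3⟩

/-- The choices depend only on the windows up to the first good one and its slices up to the first good one. -/
private theorem LWin_key {b : ℝ} {c : Crd} {w h B t : ℝ} {I : ℕ} {τ τ' : Env}
    (hS : Suc b c w h B t I τ)
    (hlow : ∀ i < iS b c w h B t τ, ∀ j : ℕ, (j : ℝ) ≤ 3 * h ^ 27 →
      ∀ e ∈ edg (Gr c h B (an c h B i) j), τ e = τ' e)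
    (hcur : ∀ j ≤ jS b c w h B t τ,
      ∀ e ∈ edg (Gr c h B (an c h B (iS b c w h B t τ)) j), τ e = τ' e) :
    Suc b c w h B t I τ' ∧ xyS b c w h B t τ' = xyS b c w h B t τ := by
  obtain ⟨h1, h2, h3, h4⟩ := LWin_first hS
  have g1 : GS b c w h B t (an c h B (iS b c w h B t τ)) (jS b c w h B t τ) τ' :=
    (LWin_GS (hcur _ le_rfl)).1 h4
  have g2 : GW b c w h B t (an c h B (iS b c w h B t τ)) τ' := ⟨_, h2, g1⟩
  have hS' : Suc b c w h B t I τ' := ⟨_, h1, g2⟩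
  have hi : iS b c w h B t τ' = iS b c w h B t τ := by
    refine le_antisymm (Nat.sInf_le g2) ?_
    by_contra hlt
    push Not at hlt
    have g3 : GW b c w h B t (an c h B (iS b c w h B t τ')) τ' := (LWin_first hS').2.2.1
    have g4 : GW b c w h B t (an c h B (iS b c w h B t τ')) τ := (LWin_GW (hlow _ hlt)).2 g3
    have g5 : iS b c w h B t τ ≤ iS b c w h B t τ' := Nat.sInf_le g4
    omega
  have hj : jS b c w h B t τ' = jS b c w h B t τ := by
    have g6 := (LWin_first hS').2.2.2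
    rw [hi] at g6
    refine le_antisymm ?_ ?_
    · unfold jS
      rw [hi]
      exact Nat.sInf_le g1
    · by_contra hlt
      push Not at hlt
      have g7 : GS b c w h B t (an c h B (iS b c w h B t τ)) (jS b c w h B t τ') τ :=
        (LWin_GS (hcur _ hlt.le)).2 g6
      have g8 : jS b c w h B t τ ≤ jS b c w h B t τ' := Nat.sInf_le g7
      omega
  refine ⟨hS', ?_⟩
  unfold xyS
  rw [hi, hj, LWin_res (hcur _ le_rfl)]

/-- The windows do not meet the strip. -/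
theorem disj_WinE_Strip (c : Crd) {h : ℝ} (hh : 1 ≤ h) (B : ℝ) : Disjoint (WinE c h) (Strip c h B) := by
  rw [Set.disjoint_left]
  rintro e ⟨he, _⟩ ⟨he', _⟩
  have h1 : 11 / 2 * h ^ 33 ≤ c.p e.1 := he.1
  have h2 : c.p e.1 ≤ 5 * h ^ 33 := he'.1.2.1
  have h3 : (1 : ℝ) ≤ h ^ 33 := one_le_pow₀ hh
  linarith

/-- Properties of the chosen lane. -/
theorem xyS_spec {b : ℝ} {c : Crd} {w h B t : ℝ} {I : ℕ} {τ : Env} (hS : Suc b c w h B t I τ) :
    iS b c w h B t τ < I ∧ (jS b c w h B t τ : ℝ) ≤ 3 * h ^ 27 ∧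
    LP c w h B t (an c h B (iS b c w h B t τ)) (jS b c w h B t τ) (xyS b c w h B t τ)
      (res b (edg (Gr c h B (an c h B (iS b c w h B t τ)) (jS b c w h B t τ))) τ) := by
  obtain ⟨h1, h2, h3, h4⟩ := LWin_first hS
  refine ⟨h1, h2, ?_⟩
  unfold xyS pick
  have h5 : ∃ xy, LP c w h B t (an c h B (iS b c w h B t τ)) (jS b c w h B t τ) xy
      (res b (edg (Gr c h B (an c h B (iS b c w h B t τ)) (jS b c w h B t τ))) τ) := h4
  rw [dif_pos h5]
  exact h5.choose_spec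

/-- Location of the end of the macro step. -/
theorem Yf_mem (c : Crd) (w : ℝ) : ∃ h₀ : ℝ, ∀ h ≥ h₀, ∀ (b B t : ℝ) (I : ℕ), h ^ 35 ≤ B →
    B ≤ h ^ 42 → 10 * B * (I + 2) ≤ h ^ 64 → ∀ τ, nm (Yf b c w h B t I τ) ≤ h ^ 70 ∧
      0 ≤ c.p (Yf b c w h B t I τ) ∧ 0 ≤ c.q (Yf b c w h B t I τ) := by
  refine ⟨100 * c.C, fun h hh b B t I hB _ hI τ => ?_⟩
  obtain ⟨h100, e1, e3, e4, e5, e6, e7⟩ := LWin_num c hh
  have hC := c.one_le
  have hB1 : 100 * c.C ≤ B := by linarith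
  have h33 : 0 ≤ h ^ 33 := by positivity
  have hI0 : (0 : ℝ) ≤ I := Nat.cast_nonneg _
  unfold Yf
  split_ifs with hS
  · obtain ⟨s1, s2, s3⟩ := xyS_spec hS
    set i := iS b c w h B t τ with hi_def
    set j := jS b c w h B t τ with hj_def
    set y := (xyS b c w h B t τ).2 with hy
    obtain ⟨_, _, l3, l4, l5, l6, _⟩ := s3
    rw [map_sub] at l3 l4 l5 l6
    have hp := c.rd_p (8 * h ^ 33) (10 * B * (i + 1))
    have hq := c.rd_q (8 * h ^ 33) (10 * B * (i + 1))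
    change |c.p (an c h B i) - _| ≤ _ at hp
    change |c.q (an c h B i) - _| ≤ _ at hq
    have hp' := c.rd_p (6 * h ^ 33) 0
    have hq' := c.rd_q (6 * h ^ 33) 0
    rw [abs_le] at hp hq hp' hq' l6
    have hi1 : (i : ℝ) + 1 ≤ I := by exact_mod_cast s1
    have hi0 : (0 : ℝ) ≤ i := Nat.cast_nonneg _
    have hj0 : (0 : ℝ) ≤ j := Nat.cast_nonneg _
    have hiB : 10 * B * ((i : ℝ) + 1) ≤ 10 * B * I := mul_le_mul_of_nonneg_left hi1 (by linarith)
    have hB0 : 0 ≤ B := by linarith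
    have hiB0 : 0 ≤ 10 * B * (i : ℝ) := by positivity
    have hjr0 : 0 ≤ (j : ℝ) * h ^ 33 := by positivity
    have a1 : 0 ≤ c.p (y + c.rd (6 * h ^ 33) 0) := by
      rw [map_add]
      linarith
    have a2 : 0 ≤ c.q (y + c.rd (6 * h ^ 33) 0) := by
      rw [map_add]
      linarith
    refine ⟨LWin_nm c hh ?_ ?_, a1, a2⟩
    · rw [abs_of_nonneg a1, map_add]
      linarith
    · rw [abs_of_nonneg a2, map_add]
      linarith
  · have hp := c.rd_p (4 * h ^ 60) (2 * c.C)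
    have hq := c.rd_q (4 * h ^ 60) (2 * c.C)
    rw [abs_le] at hp hq
    refine ⟨LWin_nm c hh ?_ ?_, by linarith, by linarith⟩
    · rw [abs_le]
      constructor <;> linarith
    · rw [abs_le]
      constructor <;> linarith

/-- The event `Y = y` does not depend on the quadrant at `y`.  PROOF.  In the success case `y` determines `i = iS` and `j = jS`: the window
`i` contains `y` up to constants, and the slice.  `{Yf = y}` is then determined by the windows `i' < i` (all slices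
`j' ≤ 3 h^27`) and by the slices `j' ≤ j` of the window `i`: the restricted environments `res b (edg (Gr ..)) τ`.  Lower windows lie
below `q y - 4 B` (`10 B i + 2 B + C < 10 B (i+1) - B - 2 C - 4 B`), `Gr (an i) j'` lies to the left of `p y`
(`(j + 2) h^33 + p(an i) < p y`, because `p y ≥ p (an i) + (j - 1) h^33 + 6 h^33 - C`).  If there is no good window all
windows lie to the left of `p y = 4 h^60 ± C`.  All windows are in the quadrant at `0` and in the box. -/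
theorem Yf_dep (c : Crd) (w : ℝ) : ∃ h₀ : ℝ, ∀ h ≥ h₀, ∀ (b B t : ℝ) (I : ℕ), h ^ 35 ≤ B →
    B ≤ h ^ 42 → 10 * B * (I + 2) ≤ h ^ 64 → ∀ y, DependsOn (fun τ => Yf b c w h B t I τ = y)
      {e | e ∈ edg (Qd c (4 * B) 0) ∧ nm e.1 ≤ h ^ 70 ∧ e ∉ edg (Qd c (4 * B) y)} := by
  refine ⟨100 * c.C, fun h hh b B t I hB _ hI y => ?_⟩
  obtain ⟨h100, e1, e3, e4, e5, e6, e7⟩ := LWin_num c hh
  have hC := c.one_le
  have hB1 : 100 * c.C ≤ B := by linarith
  have h33 : 0 ≤ h ^ 33 := by positivity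
  -- the edges of the windows are in the quadrant and in the box
  have hloc : ∀ i < I, ∀ j : ℕ, (j : ℝ) ≤ 3 * h ^ 27 → ∀ e ∈ edg (Gr c h B (an c h B i) j),
      e ∈ edg (Qd c (4 * B) 0) ∧ nm e.1 ≤ h ^ 70 := by
    intro i hi j hj e he
    obtain ⟨u1, u2, u3, u4, u5, u6⟩ := LWin_loc c hh hB hI hi hj he.1
    obtain ⟨v1, v2, v3, v4, v5, v6⟩ := LWin_loc c hh hB hI hi hj he.2
    refine ⟨⟨⟨?_, ?_⟩, ⟨?_, ?_⟩⟩, u6⟩
    · rw [map_zero]; linarith
    · rw [map_zero]; linarith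
    · rw [map_zero]; linarith
    · rw [map_zero]; linarith
  have main : ∀ τ τ' : Env, (∀ e ∈ {e : Edge | e ∈ edg (Qd c (4 * B) 0) ∧ nm e.1 ≤ h ^ 70 ∧
      e ∉ edg (Qd c (4 * B) y)}, τ e = τ' e) → Yf b c w h B t I τ = y →
      Yf b c w h B t I τ' = y := by
    intro τ τ' hag hY
    by_cases hS : Suc b c w h B t I τ
    · have hY' : (xyS b c w h B t τ).2 + c.rd (6 * h ^ 33) 0 = y := by
        rw [← hY]
        unfold Yf
        rw [if_pos hS]
      obtain ⟨s1, s2, s3⟩ := xyS_spec hS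
      have hkey : Suc b c w h B t I τ' ∧ xyS b c w h B t τ' = xyS b c w h B t τ := by
        obtain ⟨_, _, l3, l4, l5, l6, _⟩ := s3
        have hpy : c.p y = c.p (xyS b c w h B t τ).2 + c.p (c.rd (6 * h ^ 33) 0) := by
          rw [← hY', map_add]
        have hqy : c.q y = c.q (xyS b c w h B t τ).2 + c.q (c.rd (6 * h ^ 33) 0) := by
          rw [← hY', map_add]
        rw [map_sub] at l3 l6
        have hp' := c.rd_p (6 * h ^ 33) 0
        have hq' := c.rd_q (6 * h ^ 33) 0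
        have hq := c.rd_q (8 * h ^ 33) (10 * B * ((iS b c w h B t τ : ℝ) + 1))
        change |c.q (an c h B (iS b c w h B t τ)) - _| ≤ _ at hq
        rw [abs_le] at hp' hq' hq l6
        refine LWin_key hS ?_ ?_
        · intro i hi j hj e he
          have hl := hloc i (hi.trans s1) j hj e he
          refine hag e ⟨hl.1, hl.2, ?_⟩
          intro hQ
          obtain ⟨u1, u2, u3, u4, u5, u6⟩ := LWin_loc c hh hB hI (hi.trans s1) hj he.1
          have hQ1 : c.q y - 4 * B ≤ c.q e.1 := hQ.1.2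
          have hi1 : (i : ℝ) + 1 ≤ iS b c w h B t τ := by exact_mod_cast hi
          have hiB : 10 * B * ((i : ℝ) + 1) ≤ 10 * B * (iS b c w h B t τ) :=
            mul_le_mul_of_nonneg_left hi1 (by linarith)
          linarith
        · intro j hj e he
          have hj1 : (j : ℝ) ≤ jS b c w h B t τ := by exact_mod_cast hj
          have hj2 : (j : ℝ) ≤ 3 * h ^ 27 := hj1.trans s2
          have hl := hloc _ s1 j hj2 e he
          refine hag e ⟨hl.1, hl.2, ?_⟩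
          intro hQ
          obtain ⟨u1, u2, u3, u4, u5, u6⟩ := LWin_loc c hh hB hI s1 hj2 he.1
          have hQ1 : c.p y ≤ c.p e.1 := hQ.1.1
          have hjr : (j : ℝ) * h ^ 33 ≤ jS b c w h B t τ * h ^ 33 :=
            mul_le_mul_of_nonneg_right hj1 h33
          linarith
      unfold Yf
      rw [if_pos hkey.1, hkey.2]
      exact hY'
    · have hY' : c.rd (4 * h ^ 60) (2 * c.C) = y := by
        rw [← hY]
        unfold Yf
        rw [if_neg hS]
      have hS' : ¬ Suc b c w h B t I τ' := by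
        rintro ⟨i, hi, hG⟩
        refine hS ⟨i, hi, ?_⟩
        refine (LWin_GW ?_).2 hG
        intro j hj e he
        have hl := hloc i hi j hj e he
        refine hag e ⟨hl.1, hl.2, ?_⟩
        intro hQ
        obtain ⟨u1, u2, u3, u4, u5, u6⟩ := LWin_loc c hh hB hI hi hj he.1
        have hQ1 : c.p y ≤ c.p e.1 := hQ.1.1
        have hp := c.rd_p (4 * h ^ 60) (2 * c.C)
        rw [hY', abs_le] at hp
        have hjr : (j : ℝ) * h ^ 33 ≤ 3 * h ^ 60 := by
          rw [← e3, ← mul_assoc]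
          exact mul_le_mul_of_nonneg_right hj h33
        linarith
      unfold Yf
      rw [if_neg hS']
      exact hY'
  intro τ τ' hag
  exact propext ⟨main τ τ' hag, main τ' τ fun e he => (hag e he).symm⟩

theorem Af_dep (c : Crd) (w : ℝ) : ∃ h₀ : ℝ, ∀ h ≥ h₀, ∀ (b B t : ℝ) (I : ℕ), h ^ 35 ≤ B →
    B ≤ h ^ 42 → 10 * B * (I + 2) ≤ h ^ 64 → DependsOn (Af b c w h B t I)
      {e | e ∈ edg (Qd c (4 * B) 0) ∧ nm e.1 ≤ h ^ 70} := by
  obtain ⟨h₀, H⟩ := Yf_dep c w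
  refine ⟨h₀, fun h hh b B t I hB hB2 hI => ?_⟩
  intro τ τ' hag
  have h1 : Yf b c w h B t I τ' = Yf b c w h B t I τ := by
    have h2 := H h hh b B t I hB hB2 hI (Yf b c w h B t I τ)
    have h3 : (Yf b c w h B t I τ = Yf b c w h B t I τ) =
        (Yf b c w h B t I τ' = Yf b c w h B t I τ) :=
      h2 fun e he => hag e ⟨he.1, he.2.1⟩
    rw [← h3]
  have h4 : res b (QB c h B) τ = res b (QB c h B) τ' := LWin_res hag
  unfold Af
  rw [h1, h4]

/-- The chosen starting point depends only on the windows. -/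
theorem xyS_dep (c : Crd) (w : ℝ) : ∃ h₀ : ℝ, ∀ h ≥ h₀, ∀ (b B t : ℝ) (I : ℕ), h ^ 35 ≤ B →
    B ≤ h ^ 42 → 10 * B * (I + 2) ≤ h ^ 64 → ∀ x,
      DependsOn (fun τ => Suc b c w h B t I τ ∧ (xyS b c w h B t τ).1 = x) (WinE c h) := by
  refine ⟨100 * c.C, fun h hh b B t I hB _ hI x => ?_⟩
  have main : ∀ τ τ' : Env, (∀ e ∈ WinE c h, τ e = τ' e) →
      (Suc b c w h B t I τ ∧ (xyS b c w h B t τ).1 = x) →
      (Suc b c w h B t I τ' ∧ (xyS b c w h B t τ').1 = x) := by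
    rintro τ τ' hag ⟨hS, hx⟩
    have hw : ∀ i < I, ∀ j : ℕ, (j : ℝ) ≤ 3 * h ^ 27 → ∀ e ∈ edg (Gr c h B (an c h B i) j),
        τ e = τ' e := by
      intro i hi j hj e he
      obtain ⟨u1, u2, u3, u4, u5, u6⟩ := LWin_loc c hh hB hI hi hj he.1
      obtain ⟨v1, v2, v3, v4, v5, v6⟩ := LWin_loc c hh hB hI hi hj he.2
      exact hag e ⟨⟨u1, v1⟩, u6⟩
    obtain ⟨s1, s2, _⟩ := xyS_spec hS
    have hkey := LWin_key hS (τ' := τ') (fun i hi => hw i (hi.trans s1)) (fun j hj => by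
      have hj1 : (j : ℝ) ≤ jS b c w h B t τ := by exact_mod_cast hj
      exact hw _ s1 j (hj1.trans s2))
    refine ⟨hkey.1, ?_⟩
    rw [hkey.2]
    exact hx
  intro τ τ' hag
  exact propext ⟨main τ τ' hag, main τ' τ fun e he => (hag e he).symm⟩

end Pool.Agent.W_1b8d5d_h85
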