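import Pool.Agent.W_1b8d5d_h85.FlatB

/-!
MP_1b8d5d_pr, proofs row 571, (5b): the concentration event, confinement.
-/

set_option autoImplicit false

namespace Pool.Agent.W_1b8d5d_h85

open Finset

/-- All passage times in a box between points at distance `≤ l` are within `s` of their means. -/
def CE (g : V → ℝ) (D l s : ℝ) (τ : Env) : Prop :=
  ∀ x y, nm x ≤ D → nm y ≤ D → nm (y - x) ≤ l → |T τ x y - g (y - x)| ≤ s

/-- PROOF.  Union bound over the at most `(2D+1)^4 ≤ 81 D^4` pairs (`P_exists_le`, `Good.conc'`, `Good.mean'`; `s ≥ 2` absorbs the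
difference between `g` and the mean: use `s/2`). -/
theorem conc_event (Q : Par) : ∃ C : ℝ, 1 ≤ C ∧ ∀ (g : V → ℝ) (R : ℝ) (M : Mdl Q.a Q.b),
    Good Q g R M → ∀ D l s : ℝ, 1 ≤ D → 1 ≤ l → l ≤ R → 2 ≤ s →
      M.P (fun τ => ¬ CE g D l s τ) ≤ C * D ^ 4 * Real.exp (-(s / (C * Real.sqrt l))) := by
  have hK := Q.hK
  have hK0 : 0 < Q.K := by linarith
  refine ⟨81 * Q.K, by linarith, ?_⟩
  intro g R M hG D l s hD hl hlR hs
  classical
  set n : ℕ := ⌊D⌋₊ with hn
  have hnD : (n : ℝ) ≤ D := Nat.floor_le (by linarith)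
  set U : Finset V := Icc (-(n : ℤ)) n ×ˢ Icc (-(n : ℤ)) n with hU
  have hmem : ∀ x : V, nm x ≤ D → x ∈ U := by
    intro x hx
    rw [nm_eq_nat] at hx
    have h1 : x.1.natAbs + x.2.natAbs ≤ n := Nat.le_floor hx
    rw [hU, mem_product, mem_Icc, mem_Icc]
    omega
  set W : Finset (V × V) := (U ×ˢ U).filter (fun u => nm (u.2 - u.1) ≤ l) with hW
  have hl0 : 0 < Real.sqrt l := Real.sqrt_pos.2 (by linarith)
  have hone : ∀ u ∈ W, M.P (fun τ => s / 2 ≤ |T τ u.1 u.2 - M.E fun τ => T τ u.1 u.2|) ≤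
      Q.K * Real.exp (-(s / (81 * Q.K * Real.sqrt l))) := by
    intro u hu
    have hu2 : nm (u.2 - u.1) ≤ l := (mem_filter.1 hu).2
    refine (hG.conc' hl hu2 hlR (by linarith)).trans ?_
    refine mul_le_mul_of_nonneg_left ?_ hK0.le
    apply Real.exp_le_exp.2
    apply neg_le_neg
    rw [div_div]
    apply div_le_div_of_nonneg_left (by linarith) (by positivity)
    have : 0 < Q.K * Real.sqrt l := by positivity
    linarith
  have h1 : M.P (fun τ => ¬ CE g D l s τ) ≤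
      M.P (fun τ => ∃ u ∈ W, s / 2 ≤ |T τ u.1 u.2 - M.E fun τ => T τ u.1 u.2|) := by
    apply M.P_mono
    intro τ _ hτ
    unfold CE at hτ
    push Not at hτ
    obtain ⟨x, y, hx, hy, hxy, h⟩ := hτ
    refine ⟨(x, y), mem_filter.2 ⟨mem_product.2 ⟨hmem x hx, hmem y hy⟩, hxy⟩, ?_⟩
    have h2 := hG.mean' (x := x) (y := y) (hxy.trans hlR)
    have h3 : |T τ x y - g (y - x)| ≤ |T τ x y - M.E fun τ => T τ x y| +
        |M.E (fun τ => T τ x y) - g (y - x)| := abs_sub_le _ _ _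
    show s / 2 ≤ |T τ x y - M.E fun τ => T τ x y|
    linarith
  have h2 := M.P_exists_le W (fun u τ => s / 2 ≤ |T τ u.1 u.2 - M.E fun τ => T τ u.1 u.2|)
  have h3 : ∑ u ∈ W, M.P (fun τ => s / 2 ≤ |T τ u.1 u.2 - M.E fun τ => T τ u.1 u.2|) ≤
      (W.card : ℝ) * (Q.K * Real.exp (-(s / (81 * Q.K * Real.sqrt l)))) := by
    rw [← nsmul_eq_mul]
    exact sum_le_card_nsmul _ _ _ hone
  have h4 : (W.card : ℝ) ≤ 81 * D ^ 4 := by
    have h5 : W.card ≤ (U ×ˢ U).card := card_filter_le _ _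
    have h6 : (U ×ˢ U).card = (2 * n + 1) ^ 4 := by
      rw [card_product, hU, card_product, Int.card_Icc]
      have : (n : ℤ) + 1 - -(n : ℤ) = ((2 * n + 1 : ℕ) : ℤ) := by
        push_cast
        ring
      rw [this, Int.toNat_natCast]
      ring
    rw [h6] at h5
    have h7 : (W.card : ℝ) ≤ (2 * (n : ℝ) + 1) ^ 4 := by exact_mod_cast h5
    have h8 : (2 * (n : ℝ) + 1) ^ 4 ≤ (3 * D) ^ 4 :=
      pow_le_pow_left₀ (by positivity) (by linarith) 4
    have h9 : (3 * D) ^ 4 = 81 * D ^ 4 := by ring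
    linarith
  have h5 : 0 ≤ Q.K * Real.exp (-(s / (81 * Q.K * Real.sqrt l))) := by positivity
  have h6 := mul_le_mul_of_nonneg_right h4 h5
  calc M.P (fun τ => ¬ CE g D l s τ) ≤ 81 * D ^ 4 * (Q.K * Real.exp (-(s / (81 * Q.K * Real.sqrt l)))) := by
        linarith
    _ = 81 * Q.K * D ^ 4 * Real.exp (-(s / (81 * Q.K * Real.sqrt l))) := by ring

/-- Confinement (deterministic).  If `z` is on a nearly optimal way from `x` to `y` for the linear functional `p + q`, then `z` is not far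
outside of the box spanned by `x` and `y`.  PROOF.  `IsCone.low` for `z - x` and `y - z`, and `CE`. -/
theorem confine {g : V → ℝ} {c : Crd} {c₀ C₁ : ℝ} (hc : IsCone g c c₀ C₁) {D l s w : ℝ} {τ : Env}
    (hτ : CE g D l s τ) {x y z : V} (hx : nm x ≤ D) (hy : nm y ≤ D) (hz : nm z ≤ D)
    (h1 : nm (z - x) ≤ l) (h2 : nm (y - z) ≤ l)
    (h : T τ x z + T τ z y ≤ c.p (y - x) + c.q (y - x) + w) :
    c₀ * (c.p x - c.p z) ≤ 2 * s + w ∧ c₀ * (c.p z - c.p y) ≤ 2 * s + w ∧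
    c₀ * (c.q x - c.q z) ≤ 2 * s + w ∧ c₀ * (c.q z - c.q y) ≤ 2 * s + w := by
  have hc0 := hc.pos
  have a1 := (abs_le.1 (hτ x z hx hz h1)).1
  have a2 := (abs_le.1 (hτ z y hz hy h2)).1
  have b1 := hc.low (z - x)
  have b2 := hc.low (y - z)
  set m1 : ℝ := max (max (-c.p (z - x)) (-c.q (z - x))) 0 with hm1
  set m2 : ℝ := max (max (-c.p (y - z)) (-c.q (y - z))) 0 with hm2
  have m10 : 0 ≤ m1 := le_max_right _ _
  have m20 : 0 ≤ m2 := le_max_right _ _
  have m1p : -c.p (z - x) ≤ m1 := (le_max_left _ _).trans (le_max_left _ _)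
  have m1q : -c.q (z - x) ≤ m1 := (le_max_right _ _).trans (le_max_left _ _)
  have m2p : -c.p (y - z) ≤ m2 := (le_max_left _ _).trans (le_max_left _ _)
  have m2q : -c.q (y - z) ≤ m2 := (le_max_right _ _).trans (le_max_left _ _)
  clear_value m1 m2
  simp only [map_sub] at b1 b2 h m1p m1q m2p m2q
  have key : c₀ * (m1 + m2) ≤ 2 * s + w := by
    rw [mul_add]
    linarith
  refine ⟨?_, ?_, ?_, ?_⟩
  · exact (mul_le_mul_of_nonneg_left (by linarith) hc0.le).trans key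
  · exact (mul_le_mul_of_nonneg_left (by linarith) hc0.le).trans key
  · exact (mul_le_mul_of_nonneg_left (by linarith) hc0.le).trans key
  · exact (mul_le_mul_of_nonneg_left (by linarith) hc0.le).trans key

/-- The vertices of a geodesic are in the box. -/
private theorem LanesA_near {Q : Par} {D l : ℝ} {τ : Env} (hB : Bd Q.a Q.b τ) {x y : V}
    (hx : nm x + Q.b / Q.a * nm (y - x) ≤ D) (hl : (1 + Q.b / Q.a) * nm (y - x) ≤ l)
    {wk : grid.Walk x y} (hw : IsGeo τ wk) {z : V} (hz : z ∈ wk.support) :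
    nm z ≤ D ∧ nm (z - x) ≤ l ∧ nm (y - z) ≤ l ∧ T τ x z + T τ z y = T τ x y := by
  obtain ⟨i, rfl, -⟩ := SimpleGraph.Walk.mem_support_iff_exists_getVert.1 hz
  have h1 := geo_near hB Q.ha hw i
  have h2 := geo_add hB Q.ha.le hw i
  have h3 := nm_nonneg (y - x)
  have h4 : nm (wk.getVert i) ≤ nm x + nm (wk.getVert i - x) := by
    have := nm_add_le x (wk.getVert i - x)
    rwa [add_sub_cancel] at this
  have h5 : nm (y - wk.getVert i) ≤ nm (y - x) + nm (wk.getVert i - x) := by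
    have := nm_add_le (y - x) (x - wk.getVert i)
    rw [sub_add_sub_cancel, nm_sub_comm x] at this
    exact this
  rw [add_mul, one_mul] at hl
  exact ⟨by linarith, by linarith, by linarith, h2⟩

/-- A geodesic between points with nearly optimal passage time stays near the box spanned by `x` and `y`: a geodesic from `x` to `y` has
all its vertices `z` in `p x - r ≤ p z ≤ p y + r`, `q x - r ≤ q z ≤ q y + r`.  PROOF.  `geo_add`, `geo_near`, `confine`. -/
theorem confine_geo {Q : Par} {g : V → ℝ} {c : Crd} {c₀ C₁ : ℝ} (hc : IsCone g c c₀ C₁)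
    {D l s w r : ℝ} {τ : Env} (hB : Bd Q.a Q.b τ) (hτ : CE g D l s τ) {x y : V}
    (hx : nm x + Q.b / Q.a * nm (y - x) ≤ D) (hy : nm y ≤ D)
    (hl : (1 + Q.b / Q.a) * nm (y - x) ≤ l)
    (h : T τ x y ≤ c.p (y - x) + c.q (y - x) + w) (hr : 2 * s + w ≤ c₀ * r)
    {wk : grid.Walk x y} (hw : IsGeo τ wk) {z : V} (hz : z ∈ wk.support) :
    c.p x - r ≤ c.p z ∧ c.p z ≤ c.p y + r ∧ c.q x - r ≤ c.q z ∧ c.q z ≤ c.q y + r := by
  obtain ⟨h1, h2, h3, h4⟩ := LanesA_near hB hx hl hw hz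
  have hxD : nm x ≤ D := by
    have h5 := nm_nonneg (y - x)
    have h6 : 0 ≤ Q.b / Q.a := div_nonneg (Q.ha.trans Q.hab).le Q.ha.le
    have h7 := mul_nonneg h6 h5
    linarith
  obtain ⟨a1, a2, a3, a4⟩ := confine hc hτ hxD hy h1 h2 h3 (by rw [h4]; exact h)
  have b1 := le_of_mul_le_mul_left (a1.trans hr) hc.pos
  have b2 := le_of_mul_le_mul_left (a2.trans hr) hc.pos
  have b3 := le_of_mul_le_mul_left (a3.trans hr) hc.pos
  have b4 := le_of_mul_le_mul_left (a4.trans hr) hc.pos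
  exact ⟨by linarith, by linarith, by linarith, by linarith⟩

/-- So the passage time is not changed by the restriction to any set of edges which contains the edges of the grid with both
end points in the enlarged box.  PROOF.  `exists_geo`, `confine_geo`, `wedges_support`, `T_res_eq`. -/
theorem confine_res {Q : Par} {g : V → ℝ} {c : Crd} {c₀ C₁ : ℝ} (hc : IsCone g c c₀ C₁)
    {D l s w r : ℝ} {τ : Env} (hB : Bd Q.a Q.b τ) (hτ : CE g D l s τ) {x y : V}
    (hx : nm x + Q.b / Q.a * nm (y - x) ≤ D) (hy : nm y ≤ D)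
    (hl : (1 + Q.b / Q.a) * nm (y - x) ≤ l)
    (h : T τ x y ≤ c.p (y - x) + c.q (y - x) + w) (hr : 2 * s + w ≤ c₀ * r)
    {A : Set Edge} (hA : ∀ e ∈ edg {z | nm z ≤ D ∧ c.p x - r ≤ c.p z ∧ c.p z ≤ c.p y + r ∧
      c.q x - r ≤ c.q z ∧ c.q z ≤ c.q y + r}, e ∈ A) :
    T (res Q.b A τ) x y = T τ x y := by
  obtain ⟨wk, hw⟩ := exists_geo hB Q.ha x y
  refine T_res_eq Q.ha.le Q.hab.le hB hw.2 fun e he => hA e ?_
  obtain ⟨h1, h2⟩ := wedges_support wk he
  exact ⟨⟨(LanesA_near hB hx hl hw h1).1, confine_geo hc hB hτ hx hy hl h hr hw h1⟩,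
    (LanesA_near hB hx hl hw h2).1, confine_geo hc hB hτ hx hy hl h hr hw h2⟩

end Pool.Agent.W_1b8d5d_h85
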