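import Pool.Agent.W_1b8d5d_h85.Basic

/-!
MP_1b8d5d_pr, proofs row 571, (1c): entropy, its tensorisation, the logarithmic Sobolev inequality on the cube.
-/

set_option autoImplicit false

namespace Pool.Agent.W_1b8d5d_h85

open Finset

/-- The entropy of a nonnegative function (`0 log 0 = 0`). -/
noncomputable def Ent {Ω : Type*} [Fintype Ω] (G : Ω → ℝ) : ℝ :=
  Ex (fun ω => G ω * Real.log (G ω)) - Ex G * Real.log (Ex G)

/-- The difference with respect to the bit `i`. -/
def Dd {J : Type*} [DecidableEq J] (i : J) (f : (J → Bool) → ℝ) : (J → Bool) → ℝ :=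
  fun ω => f (Function.update ω i true) - f (Function.update ω i false)

/-- A nonnegative function with mean zero vanishes. -/
private theorem eq_zero_of_Ex {Ω : Type} [Fintype Ω] [Nonempty Ω] {G : Ω → ℝ}
    (hG : ∀ ω, 0 ≤ G ω) (h : Ex G = 0) (ω : Ω) : G ω = 0 := by
  have h1 : ∑ ω, G ω = 0 := by
    unfold Ex at h
    rcases div_eq_zero_iff.1 h with h | h
    · exact h
    · exact absurd h card_pos'.ne'
  exact (sum_eq_zero_iff_of_nonneg fun ω _ => hG ω).1 h1 ω (mem_univ ω)

/-- Gibbs' inequality. -/
private theorem gibbs {Ω : Type} [Fintype Ω] [Nonempty Ω] {G H : Ω → ℝ} (hG : ∀ ω, 0 ≤ G ω)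
    (hH : ∀ ω, 0 ≤ H ω) (hz : ∀ ω, H ω = 0 → G ω = 0) (hc : 0 < Ex H) :
    Ex (fun ω => G ω * Real.log (H ω / Ex H)) ≤ Ent G := by
  have hm0 : 0 ≤ Ex G := Ex_nonneg hG
  rcases hm0.eq_or_lt with hm | hm
  · have h0 : ∀ ω, G ω = 0 := eq_zero_of_Ex hG hm.symm
    have h1 : G = fun _ => 0 := funext h0
    subst h1
    simp [Ent, Ex]
  · have key : ∀ ω, G ω - Ex G / Ex H * H ω + G ω * Real.log (H ω / Ex H) + Real.log (Ex G) * G ω
        ≤ G ω * Real.log (G ω) := by
      intro ω
      rcases (hG ω).eq_or_lt with h | h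
      · rw [← h]
        have : 0 ≤ Ex G / Ex H * H ω := mul_nonneg (div_nonneg hm.le hc.le) (hH ω)
        simp only [zero_mul, mul_zero, add_zero]
        linarith
      · have h2 : 0 < H ω := lt_of_le_of_ne (hH ω) fun h3 => h.ne' (hz ω h3.symm)
        have h3 := Real.log_le_sub_one_of_pos (x := Ex G / Ex H * H ω / G ω) (by positivity)
        have h4 : Real.log (Ex G / Ex H * H ω / G ω)
            = Real.log (Ex G) + Real.log (H ω / Ex H) - Real.log (G ω) := by
          rw [Real.log_div (by positivity) h.ne', div_mul_eq_mul_div, mul_div_assoc,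
            Real.log_mul hm.ne' (by positivity)]
        rw [h4] at h3
        have h5 := mul_le_mul_of_nonneg_left h3 h.le
        have h6 : G ω * (Ex G / Ex H * H ω / G ω - 1) = Ex G / Ex H * H ω - G ω := by
          field_simp
        rw [h6] at h5
        nlinarith [h5]
    have h := Ex_mono key
    rw [Ex_add (fun ω => G ω - Ex G / Ex H * H ω + G ω * Real.log (H ω / Ex H)),
      Ex_add (fun ω => G ω - Ex G / Ex H * H ω), Ex_sub, Ex_mul_left, Ex_mul_left,
      div_mul_cancel₀ _ hc.ne', sub_self, zero_add] at h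
    unfold Ent
    linarith

/-- PROOF.  `x log x` is convex (`Real.convexOn_mul_log`), Jensen. -/
theorem Ent_nonneg {Ω : Type} [Fintype Ω] [Nonempty Ω] {G : Ω → ℝ} (hG : ∀ ω, 0 ≤ G ω) :
    0 ≤ Ent G := by
  have h := gibbs hG (H := fun _ => (1 : ℝ)) (fun _ => zero_le_one)
    (fun ω h => absurd h one_ne_zero) (by rw [Ex_const]; exact one_pos)
  rw [Ex_const] at h
  simpa [Ex] using h

/-- Variational bound.  PROOF.  `c > 0`: the difference of the two sides is `m log (m/c) - m + c ≥ 0`, `m = Ex G`. -/
theorem Ent_le {Ω : Type} [Fintype Ω] [Nonempty Ω] {G : Ω → ℝ} (hG : ∀ ω, 0 ≤ G ω) {c : ℝ}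
    (hc : 0 < c) : Ent G ≤ Ex fun ω => G ω * Real.log (G ω / c) - G ω + c := by
  have h1 : ∀ ω, G ω * Real.log (G ω / c) - G ω + c
      = G ω * Real.log (G ω) - Real.log c * G ω - G ω + c := by
    intro ω
    rcases (hG ω).eq_or_lt with h | h
    · rw [← h]
      simp
    · rw [Real.log_div h.ne' hc.ne']
      ring
  rw [Ex_congr h1, Ex_add_const, Ex_sub, Ex_sub, Ex_mul_left]
  unfold Ent
  have hm0 : 0 ≤ Ex G := Ex_nonneg hG
  rcases hm0.eq_or_lt with hm | hm
  · rw [← hm]
    simp only [zero_mul, mul_zero, sub_zero]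
    linarith
  · have h3 := Real.log_le_sub_one_of_pos (x := c / Ex G) (by positivity)
    rw [Real.log_div hc.ne' hm.ne'] at h3
    have h5 := mul_le_mul_of_nonneg_left h3 hm.le
    have h6 : Ex G * (c / Ex G - 1) = c - Ex G := by
      field_simp
    rw [h6] at h5
    nlinarith [h5]

/-- Convexity of the entropy.  PROOF.  Pointwise, with `ḡ ω = Ex_k G k ω`, `c k = Ex (G k)`, `c̄ = Ex c`, the log sum inequality
`ḡ log (ḡ / c̄) ≤ Ex_k (G k ω log (G k ω / c k))` (Jensen for `x log x` with the weights `c k`; `c k = 0` implies `G k = 0`). -/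
theorem Ent_avg_le {Ω Ω' : Type} [Fintype Ω] [Nonempty Ω] [Fintype Ω'] [Nonempty Ω']
    {G : Ω' → Ω → ℝ} (hG : ∀ k ω, 0 ≤ G k ω) :
    Ent (fun ω => Ex fun k => G k ω) ≤ Ex fun k => Ent (G k) := by
  have hH : ∀ ω, 0 ≤ Ex fun k => G k ω := fun ω => Ex_nonneg fun k => hG k ω
  have hm0 : 0 ≤ Ex (fun ω => Ex fun k => G k ω) := Ex_nonneg hH
  rcases hm0.eq_or_lt with hm | hm
  · have h0 : ∀ ω, (Ex fun k => G k ω) = 0 := eq_zero_of_Ex hH hm.symm
    have h1 : Ent (fun ω => Ex fun k => G k ω) = 0 := by
      have h2 : (fun ω => Ex fun k => G k ω) = fun _ => 0 := funext h0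
      rw [h2]
      simp [Ent, Ex]
    rw [h1]
    exact Ex_nonneg fun k => Ent_nonneg (hG k)
  · have h1 : Ent (fun ω => Ex fun k => G k ω)
        = Ex fun ω => Ex fun k => G k ω
          * Real.log ((Ex fun k => G k ω) / Ex (fun ω => Ex fun k => G k ω)) := by
      have h2 : ∀ ω, (Ex fun k => G k ω
          * Real.log ((Ex fun k => G k ω) / Ex (fun ω => Ex fun k => G k ω)))
          = (Ex fun k => G k ω) * Real.log (Ex fun k => G k ω)
            - Real.log (Ex (fun ω => Ex fun k => G k ω)) * (Ex fun k => G k ω) := by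
        intro ω
        rw [Ex_mul_right]
        rcases (hH ω).eq_or_lt with h | h
        · rw [← h]
          simp
        · rw [Real.log_div h.ne' hm.ne']
          ring
      rw [Ex_congr h2, Ex_sub, Ex_mul_left]
      unfold Ent
      ring
    rw [h1, Ex_comm]
    refine Ex_mono fun k => ?_
    refine gibbs (hG k) hH (fun ω h => ?_) hm
    exact eq_zero_of_Ex (fun k => hG k ω) h k

/-- A function which does not depend on any coordinate is constant. -/
private theorem const_of_update {J β : Type} [Fintype J] [DecidableEq J]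
    {H : (J → β) → ℝ} (h : ∀ i ω u, H (Function.update ω i u) = H ω) (ω ω' : J → β) :
    H ω = H ω' := by
  have key : ∀ s : Finset J, H (s.piecewise ω ω') = H ω' := by
    intro s
    induction s using Finset.induction_on with
    | empty => simp
    | insert j s _ ih => rw [piecewise_insert, h, ih]
  have := key univ
  rwa [piecewise_univ] at this

/-- Tensorisation.  PROOF.  Average over the coordinates one after the other (as in `efron_stein`); the entropy drops at the
step `i` by the mean of the entropy in the coordinate `i` of an average of `G`, which is at most the mean of the entropy of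
`G` in the coordinate `i` by `Ent_avg_le`. -/
theorem Ent_tensor {J β : Type} [Fintype J] [DecidableEq J] [Fintype β] [Nonempty β]
    {G : (J → β) → ℝ} (hG : ∀ ω, 0 ≤ G ω) :
    Ent G ≤ ∑ i, Ex fun ω => Ent fun u => G (Function.update ω i u) := by
  have key : ∀ s : Finset J, ∃ H : (J → β) → ℝ, (∀ ω, 0 ≤ H ω) ∧
      (∀ i ∈ s, ∀ ω u, H (Function.update ω i u) = H ω) ∧
      (Ent G ≤ Ent H + ∑ i ∈ s, Ex fun ω => Ent fun u => G (Function.update ω i u)) ∧
      (∀ i, (Ex fun ω => Ent fun u => H (Function.update ω i u))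
        ≤ Ex fun ω => Ent fun u => G (Function.update ω i u)) := by
    intro s
    induction s using Finset.induction_on with
    | empty => exact ⟨G, hG, by simp, by simp, fun i => le_rfl⟩
    | insert j s hj ih =>
      obtain ⟨H, h0, h1, h2, h3⟩ := ih
      refine ⟨avg j H, fun ω => Ex_nonneg fun u => h0 _, ?_, ?_, ?_⟩
      · intro i hi ω u
        unfold avg
        refine Ex_congr fun v => ?_
        by_cases hij : i = j
        · subst hij
          rw [Function.update_idem]
        · rcases mem_insert.1 hi with hi | hi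
          · exact absurd hi hij
          · rw [Function.update_comm hij, h1 i hi]
      · rw [sum_insert hj]
        have h4 : Ent H = Ent (avg j H) + Ex fun ω => Ent fun u => H (Function.update ω j u) := by
          unfold Ent
          rw [Ex_avg, Ex_sub]
          have h5 := Ex_avg j fun ω => H ω * Real.log (H ω)
          unfold avg at h5
          rw [h5]
          unfold avg
          ring
        have := h3 j
        linarith
      · intro i
        refine le_trans ?_ (h3 i)
        by_cases hij : i = j
        · subst hij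
          have h4 : ∀ ω, (Ent fun u => avg i H (Function.update ω i u)) = 0 := by
            intro ω
            have h5 : (fun u => avg i H (Function.update ω i u)) = fun _ => avg i H ω := by
              funext u
              unfold avg
              refine Ex_congr fun v => ?_
              rw [Function.update_idem]
            rw [h5]
            unfold Ent
            rw [Ex_const, Ex_const, sub_self]
          rw [Ex_congr h4, Ex_const]
          exact Ex_nonneg fun ω => Ent_nonneg fun u => h0 _
        · have h4 := Ex_avg j fun ω => Ent fun u => H (Function.update ω i u)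
          rw [← h4]
          refine Ex_mono fun ω => ?_
          have h5 := Ent_avg_le (G := fun k u => H (Function.update (Function.update ω i u) j k))
            fun k u => h0 _
          refine h5.trans (Ex_congr fun k => ?_).le
          congr 1
          funext u
          rw [Function.update_comm hij]
  obtain ⟨H, h0, h1, h2, h3⟩ := key univ
  refine h2.trans ?_
  have h4 : Ent H = 0 := by
    obtain ⟨ω0⟩ : Nonempty (J → β) := inferInstance
    have h5 : H = fun _ => H ω0 :=
      funext fun ω => const_of_update (fun i ω u => h1 i (mem_univ i) ω u) ω ω0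
    rw [h5]
    unfold Ent
    rw [Ex_const, Ex_const, sub_self]
  rw [h4, zero_add]

private theorem Ex_bool (f : Bool → ℝ) : Ex f = (f true + f false) / 2 := by
  unfold Ex
  rw [Fintype.sum_bool]
  simp

private theorem sq_log_le {x m : ℝ} (hx : 0 ≤ x) (hm : 0 < m) :
    x ^ 2 * Real.log (x ^ 2 / m ^ 2) - x ^ 2 + m ^ 2 ≤ (x - m) ^ 2 * (2 * x / m + 1) := by
  rcases hx.eq_or_lt with h | h
  · rw [← h]
    simp
  · have h1 : Real.log (x ^ 2 / m ^ 2) = 2 * Real.log (x / m) := by
      rw [← div_pow, Real.log_pow]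
      norm_num
    have h2 := Real.log_le_sub_one_of_pos (x := x / m) (by positivity)
    rw [h1]
    have h3 := mul_le_mul_of_nonneg_left h2 (by positivity : (0 : ℝ) ≤ 2 * x ^ 2)
    have h4 : (x - m) ^ 2 * (2 * x / m + 1) = 2 * x ^ 2 * (x / m - 1) - x ^ 2 + m ^ 2 := by
      field_simp
      ring
    rw [h4]
    linarith

/-- The two point inequality.  PROOF.  Replace `g` by `|g|`.  `m = (g 0 + g 1)/2`; if `m = 0` trivial.  `Ent_le` with `c = m²`
and `x² log x² - x² + 1 ≤ (x-1)² (2x+1)` for `x ≥ 0` (from `log x ≤ x - 1`), `x = g/m = 1 ± δ`. -/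
theorem Ent_bool (g : Bool → ℝ) :
    Ent (fun u => g u ^ 2) ≤ 3 / 4 * (g true - g false) ^ 2 := by
  have h0 : (fun u => g u ^ 2) = fun u => |g u| ^ 2 := by
    funext u
    rw [sq_abs]
  rw [h0]
  have h1 : (|g true| - |g false|) ^ 2 ≤ (g true - g false) ^ 2 := by
    rw [← sq_abs (g true - g false), ← sq_abs (|g true| - |g false|)]
    exact pow_le_pow_left₀ (abs_nonneg _) (abs_abs_sub_abs_le_abs_sub _ _) 2
  refine le_trans ?_ (mul_le_mul_of_nonneg_left h1 (by norm_num))
  have ha := abs_nonneg (g true)
  have hb := abs_nonneg (g false)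
  set a := |g true| with haa
  set b := |g false| with hbb
  rcases (add_nonneg ha hb).eq_or_lt with hm | hm
  · have h2 : a = 0 := by linarith
    have h3 : b = 0 := by linarith
    have h4 : (fun u => |g u| ^ 2) = fun _ => 0 := by
      funext u
      cases u
      · rw [← hbb, h3]
        norm_num
      · rw [← haa, h2]
        norm_num
    rw [h4, h2, h3]
    simp [Ent, Ex]
  · have h2 := Ent_le (G := fun u => |g u| ^ 2) (fun u => sq_nonneg _) (c := ((a + b) / 2) ^ 2)
      (by positivity)
    refine h2.trans ?_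
    rw [Ex_bool, ← haa, ← hbb]
    have h3 := sq_log_le ha (half_pos hm)
    have h4 := sq_log_le hb (half_pos hm)
    have h5 : (a - (a + b) / 2) ^ 2 * (2 * a / ((a + b) / 2) + 1)
        + (b - (a + b) / 2) ^ 2 * (2 * b / ((a + b) / 2) + 1) = 3 / 2 * (a - b) ^ 2 := by
      field_simp
      ring
    linarith

/-- The logarithmic Sobolev inequality on the cube.  PROOF.  `Ent_tensor` and `Ent_bool`. -/
theorem Ent_cube {J : Type} [Fintype J] [DecidableEq J] (g : (J → Bool) → ℝ) :
    Ent (fun ω => g ω ^ 2) ≤ 3 / 4 * ∑ i, Ex fun ω => Dd i g ω ^ 2 := by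
  refine (Ent_tensor fun ω => sq_nonneg _).trans ?_
  rw [mul_sum]
  refine sum_le_sum fun i _ => ?_
  rw [← Ex_mul_left]
  exact Ex_mono fun ω => Ent_bool fun u => g (Function.update ω i u)

end Pool.Agent.W_1b8d5d_h85
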