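import Pool.Agent.W_1b8d5d_h85.Basic
import Pool.Agent.W_1b8d5d_h85.Grid1

/-!
MP_1b8d5d_pr, proofs row 571: finite random environments and the list `Good` of their properties.
-/

set_option autoImplicit false

namespace Pool.Agent.W_1b8d5d_h85

open Finset

/-- A finite random environment (uniform measure on `Ω`) with values in `[a, b]`. -/
structure Mdl (a b : ℝ) where
  Ω : Type
  [fin : Fintype Ω]
  [ne : Nonempty Ω]
  env : Ω → Env
  bd : ∀ ω, Bd a b (env ω)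

attribute [instance] Mdl.fin Mdl.ne

/-- The numerical parameters: bounds of the weights, thresholds for high and low edges, lower bound for the probability
of a low edge, constant of the estimates. -/
structure Par where
  a : ℝ
  b : ℝ
  sl : ℝ
  su : ℝ
  pl : ℝ
  K : ℝ
  ha : 0 < a
  hab : a < b
  hs : sl < su
  hpl : 0 < pl
  hK : 1 ≤ K

namespace Mdl

variable {a b : ℝ} (M : Mdl a b)

/-- The expectation of a function of the environment. -/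
noncomputable def E (F : Env → ℝ) : ℝ := Ex fun ω => F (M.env ω)

/-- The probability of an event. -/
noncomputable def P (p : Env → Prop) : ℝ := Pr fun ω => p (M.env ω)

theorem E_add (F G : Env → ℝ) : M.E (fun τ => F τ + G τ) = M.E F + M.E G := Ex_add _ _

theorem E_sub (F G : Env → ℝ) : M.E (fun τ => F τ - G τ) = M.E F - M.E G := Ex_sub _ _

theorem E_mul_left (c : ℝ) (F : Env → ℝ) : M.E (fun τ => c * F τ) = c * M.E F := Ex_mul_left _ _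

theorem E_const (c : ℝ) : M.E (fun _ => c) = c := Ex_const c

theorem E_sum {ι : Type*} (s : Finset ι) (F : ι → Env → ℝ) :
    M.E (fun τ => ∑ i ∈ s, F i τ) = ∑ i ∈ s, M.E (F i) := Ex_sum s fun i ω => F i (M.env ω)

/-- Monotonicity: only environments with values in `[a,b]` matter. -/
theorem E_mono {F G : Env → ℝ} (h : ∀ τ, Bd a b τ → F τ ≤ G τ) : M.E F ≤ M.E G :=
  Ex_mono fun ω => h _ (M.bd ω)

theorem E_congr {F G : Env → ℝ} (h : ∀ τ, Bd a b τ → F τ = G τ) : M.E F = M.E G :=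
  Ex_congr fun ω => h _ (M.bd ω)

theorem E_nonneg {F : Env → ℝ} (h : ∀ τ, Bd a b τ → 0 ≤ F τ) : 0 ≤ M.E F :=
  Ex_nonneg fun ω => h _ (M.bd ω)

theorem E_le_of_le {F : Env → ℝ} {c : ℝ} (h : ∀ τ, Bd a b τ → F τ ≤ c) : M.E F ≤ c :=
  Ex_le_of_le fun ω => h _ (M.bd ω)

theorem le_E_of_le {F : Env → ℝ} {c : ℝ} (h : ∀ τ, Bd a b τ → c ≤ F τ) : c ≤ M.E F :=
  le_Ex_of_le fun ω => h _ (M.bd ω)

theorem P_nonneg (p : Env → Prop) : 0 ≤ M.P p := Pr_nonneg _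

theorem P_le_one (p : Env → Prop) : M.P p ≤ 1 := Pr_le_one _

theorem P_mono {p q : Env → Prop} (h : ∀ τ, Bd a b τ → p τ → q τ) : M.P p ≤ M.P q :=
  Pr_mono fun ω => h _ (M.bd ω)

theorem P_or (p q : Env → Prop) : M.P (fun τ => p τ ∨ q τ) ≤ M.P p + M.P q := Pr_or _ _

theorem P_not (p : Env → Prop) : M.P (fun τ => ¬ p τ) = 1 - M.P p := Pr_not _

theorem P_exists_le {ι : Type*} (s : Finset ι) (p : ι → Env → Prop) :
    M.P (fun τ => ∃ i ∈ s, p i τ) ≤ ∑ i ∈ s, M.P (p i) :=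
  Pr_exists_le s fun i ω => p i (M.env ω)

open Classical in
theorem P_def (p : Env → Prop) : M.P p = M.E fun τ => if p τ then (1 : ℝ) else 0 := rfl

theorem markov {F : Env → ℝ} (hF : ∀ τ, Bd a b τ → 0 ≤ F τ) {s : ℝ} (hs : 0 < s) :
    M.P (fun τ => s ≤ F τ) ≤ M.E F / s :=
  Pool.Agent.W_1b8d5d_h85.markov (f := fun ω => F (M.env ω)) (fun ω => hF _ (M.bd ω)) hs

theorem chebyshev (F : Env → ℝ) {s : ℝ} (hs : 0 < s) :
    M.P (fun τ => s ≤ |F τ - M.E F|) ≤ M.E (fun τ => (F τ - M.E F) ^ 2) / s ^ 2 :=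
  Pool.Agent.W_1b8d5d_h85.chebyshev (fun ω => F (M.env ω)) hs

end Mdl

/-- The number of edges of a walk with weight at least `su`. -/
noncomputable def nHigh (su : ℝ) (τ : Env) {x y : V} (w : grid.Walk x y) : ℕ :=
  ((wedges w).filter fun e => su ≤ τ e).length

/-- The properties (G1)-(G8) of a model, at the range `R`, with the mean passage times `g`. -/
structure Good (Q : Par) (g : V → ℝ) (R : ℝ) (M : Mdl Q.a Q.b) : Prop where
  inv : ∀ (z : V) (F : Env → ℝ), M.E (fun τ => F (sh z τ)) = M.E F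
  refl : ∀ F : Env → ℝ, M.E (fun τ => F (rf τ)) = M.E F
  indep : ∀ A B : Set Edge, Disjoint A B → (∀ e ∈ A ∪ B, nm e.1 ≤ R) →
    ∀ F G : Env → ℝ, DependsOn F A → DependsOn G B →
      M.E (fun τ => F τ * G τ) = M.E F * M.E G
  mean : ∀ z, nm z ≤ R → |M.E (fun τ => T τ 0 z) - g z| ≤ 1
  var : ∀ (l : ℝ) (z : V), 1 ≤ l → nm z ≤ l → l ≤ R →
    M.E (fun τ => (T τ 0 z - M.E fun τ => T τ 0 z) ^ 2) ≤ Q.K * S l ^ 2
  conc : ∀ (l s : ℝ) (z : V), 1 ≤ l → nm z ≤ l → l ≤ R → 0 ≤ s →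
    M.P (fun τ => s ≤ |T τ 0 z - M.E fun τ => T τ 0 z|)
      ≤ Q.K * Real.exp (-(s / (Q.K * Real.sqrt l)))
  peierls : ∀ (x : V) (l : ℕ), nm x ≤ R → 1 ≤ l → M.P (fun τ => ∃ (y : V) (w : grid.Walk x y), w.IsPath ∧
      l ≤ w.length ∧ (w.length : ℝ) ≤ R ∧ (nHigh Q.su τ w : ℝ) < w.length / 2)
      ≤ Q.K * (1 / 2) ^ l
  tilt : ∀ (C : Finset Edge) (d : ℝ), (∀ e ∈ C, nm e.1 ≤ R) → 0 ≤ d → d ≤ 1 / 2 →
    ∃ J : M.Ω → M.Ω → ℝ, (∀ ω ω', 0 ≤ J ω ω') ∧ (∀ ω, ∑ ω', J ω ω' = 1) ∧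
      (∀ ω ω', J ω ω' ≠ 0 → (∀ e, M.env ω' e ≤ M.env ω e) ∧
        ∀ e, e ∉ C → nm e.1 ≤ R → M.env ω' e = M.env ω e) ∧
      (∀ (ω : M.Ω) (H : Finset Edge), H ⊆ C → (∀ e ∈ H, Q.su ≤ M.env ω e) →
        ∑ ω' ∈ univ.filter (fun ω' => ∑ e ∈ H, (M.env ω e - M.env ω' e)
          < (Q.su - Q.sl) * (d * H.card / 4)), J ω ω' ≤ Real.exp (-(d * H.card / 16))) ∧
      (∀ m : ℕ, m * d ≤ Q.pl → Ex (fun ω' => if 2 < ∑ ω, J ω ω' then ∑ ω, J ω ω' else 0)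
        ≤ 2 * (1 / 2) ^ m * Real.exp (Q.K * m ^ 2 * d ^ 2 * C.card))

/-- There are good models at all ranges. -/
def HasModels (Q : Par) (g : V → ℝ) : Prop := ∀ R : ℝ, ∃ (R' : ℝ) (M : Mdl Q.a Q.b), R ≤ R' ∧ Good Q g R' M

/-- Two linearly independent coordinates on the lattice, with rounding. -/
structure Crd where
  p : V →+ ℝ
  q : V →+ ℝ
  C : ℝ
  one_le : 1 ≤ C
  p_le : ∀ x, |p x| ≤ C * nm x
  q_le : ∀ x, |q x| ≤ C * nm x
  nm_le : ∀ x, nm x ≤ C * (|p x| + |q x|)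
  rd : ℝ → ℝ → V
  rd_p : ∀ α β, |p (rd α β) - α| ≤ C
  rd_q : ∀ α β, |q (rd α β) - β| ≤ C

/-- The cone of an edge of the polygon, with both end points corners: (L) and (U) of section 4. -/
structure IsCone (g : V → ℝ) (c : Crd) (c₀ C₁ : ℝ) : Prop where
  pos : 0 < c₀
  low : ∀ z, c.p z + c.q z + c₀ * max (max (-c.p z) (-c.q z)) 0 ≤ g z
  upp : ∀ (l : ℝ) (z : V), 1 ≤ l → |c.p z - l| ≤ c.C → |c.q z| ≤ c.C → g z ≤ l + C₁ * S l
  upq : ∀ (l : ℝ) (z : V), 1 ≤ l → |c.p z| ≤ c.C → |c.q z - l| ≤ c.C → g z ≤ l + C₁ * S l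

/-- The mean passage times. -/
structure IsMean (Q : Par) (g : V → ℝ) : Prop where
  zero : g 0 = 0
  neg : ∀ z, g (-z) = g z
  add : ∀ x y, g (x + y) ≤ g x + g y
  low : ∀ z, Q.a * nm z ≤ g z
  upp : ∀ z, g z ≤ Q.b * nm z

end Pool.Agent.W_1b8d5d_h85
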