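import Pool.Agent.W_1b8d5d_h85.Basic

/-!
MP_1b8d5d_pr, proofs row 571, section 7: the double counting of the tilt argument, as a statement on finite averages.
-/

set_option autoImplicit false

namespace Pool.Agent.W_1b8d5d_h85

open Finset

open Classical in
/-- Double counting.  Every point of `E` has a cell `sel ω`; the kernel of the cell leads with probability `≥ 1/2` to a bad
point of this cell; a bad point reached in this way is not bad for distant cells.  Then bad points are not rare. -/
theorem Tilt1_count {Ω : Type*} [Fintype Ω] [Nonempty Ω] (Js : Finset ℤ) (K : ℤ → Ω → Ω → ℝ)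
    (E : Ω → Prop) (sel : Ω → ℤ) (Bad : ℤ → Ω → Prop) (ε : ℝ)
    (hK : ∀ j ∈ Js, ∀ ω ω', 0 ≤ K j ω ω') (hsel : ∀ ω, E ω → sel ω ∈ Js)
    (h1 : ∀ ω, E ω → 1 / 2 ≤ ∑ ω', if Bad (sel ω) ω' then K (sel ω) ω ω' else 0)
    (h2 : ∀ ω ω' j, E ω → K (sel ω) ω ω' ≠ 0 → Bad (sel ω) ω' → j ∈ Js → Bad j ω' →
      |sel ω - j| ≤ 2)
    (h4 : 1 / 2 ≤ Pr E)
    (h5 : ∀ j ∈ Js, Ex (fun ω' => if 2 < ∑ ω, K j ω ω' then ∑ ω, K j ω ω' else 0) ≤ ε) :
    1 / 4 ≤ 10 * Pr (fun ω' => ∃ j ∈ Js, Bad j ω') + Js.card * ε := by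
  set f : ℤ → Ω → ℝ := fun j ω' => ∑ ω, K j ω ω' with hf
  set F : Ω → Ω → ℝ := fun ω ω' =>
    if E ω then (if Bad (sel ω) ω' then K (sel ω) ω ω' else 0) else 0 with hF
  -- lower bound
  have hlow : (1 / 2 : ℝ) * Pr E ≤ Ex fun ω => ∑ ω', F ω ω' := by
    unfold Pr
    rw [← Ex_mul_left]
    refine Ex_mono fun ω => ?_
    by_cases hE : E ω
    · rw [if_pos hE, mul_one]
      refine (h1 ω hE).trans (le_of_eq ?_)
      refine sum_congr rfl fun ω' _ => ?_
      rw [hF]
      simp only
      rw [if_pos hE]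
    · rw [if_neg hE, mul_zero]
      refine sum_nonneg fun ω' _ => ?_
      rw [hF]
      simp only
      rw [if_neg hE]
  -- exchange
  have hex : (Ex fun ω => ∑ ω', F ω ω') = Ex fun ω' => ∑ ω, F ω ω' := by
    unfold Ex
    rw [sum_comm]
  -- upper bound
  have hup : ∀ ω', ∑ ω, F ω ω' ≤ 10 * (if ∃ j ∈ Js, Bad j ω' then (1 : ℝ) else 0) +
      ∑ j ∈ Js, (if 2 < f j ω' then f j ω' else 0) := by
    intro ω'
    have hfn : ∀ j ∈ Js, 0 ≤ f j ω' := fun j hj => sum_nonneg fun ω _ => hK j hj ω ω'
    have hrest : 0 ≤ ∑ j ∈ Js, (if 2 < f j ω' then f j ω' else 0) := by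
      refine sum_nonneg fun j hj => ?_
      split_ifs
      · exact hfn j hj
      · exact le_rfl
    by_cases hB : ∃ j ∈ Js, Bad j ω'
    · rw [if_pos hB, mul_one]
      obtain ⟨j0, hj0, hbad0⟩ := hB
      set S : Finset ℤ := Js.filter fun j => |j - j0| ≤ 2 with hS
      have hSsub : S ⊆ Js := filter_subset _ _
      have hterm : ∀ ω, F ω ω' ≤ ∑ j ∈ S, K j ω ω' := by
        intro ω
        have h0 : 0 ≤ ∑ j ∈ S, K j ω ω' := sum_nonneg fun j hj => hK j (hSsub hj) ω ω'
        rw [hF]
        simp only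
        by_cases hE : E ω
        · rw [if_pos hE]
          by_cases hb : Bad (sel ω) ω'
          · rw [if_pos hb]
            by_cases hk : K (sel ω) ω ω' = 0
            · rw [hk]
              exact h0
            · have h3 := h2 ω ω' j0 hE hk hb hj0 hbad0
              have hm : sel ω ∈ S := mem_filter.2 ⟨hsel ω hE, h3⟩
              exact single_le_sum (f := fun j => K j ω ω') (fun j hj => hK j (hSsub hj) ω ω') hm
          · rw [if_neg hb]
            exact h0
        · rw [if_neg hE]
          exact h0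
      have hcard : (S.card : ℝ) ≤ 5 := by
        have h3 : S ⊆ Finset.Icc (j0 - 2) (j0 + 2) := by
          intro j hj
          have h4 := abs_le.1 (mem_filter.1 hj).2
          rw [mem_Icc]
          constructor <;> linarith [h4.1, h4.2]
        have h5 := card_le_card h3
        rw [Int.card_Icc] at h5
        have h6 : (j0 + 2 + 1 - (j0 - 2)).toNat = 5 := by
          have : j0 + 2 + 1 - (j0 - 2) = 5 := by ring
          rw [this]
          rfl
        rw [h6] at h5
        exact_mod_cast h5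
      calc ∑ ω, F ω ω' ≤ ∑ ω, ∑ j ∈ S, K j ω ω' := sum_le_sum fun ω _ => hterm ω
        _ = ∑ j ∈ S, f j ω' := by rw [sum_comm]
        _ ≤ ∑ j ∈ S, (2 + (if 2 < f j ω' then f j ω' else 0)) := by
            refine sum_le_sum fun j _ => ?_
            split_ifs with h
            · linarith
            · rw [add_zero]
              exact not_lt.1 h
        _ = S.card * 2 + ∑ j ∈ S, (if 2 < f j ω' then f j ω' else 0) := by
            rw [sum_add_distrib, sum_const, nsmul_eq_mul]
        _ ≤ 10 + ∑ j ∈ Js, (if 2 < f j ω' then f j ω' else 0) := by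
            have h6 : ∑ j ∈ S, (if 2 < f j ω' then f j ω' else 0)
                ≤ ∑ j ∈ Js, (if 2 < f j ω' then f j ω' else 0) := by
              refine sum_le_sum_of_subset_of_nonneg hSsub fun j hj _ => ?_
              split_ifs
              · exact hfn j hj
              · exact le_rfl
            linarith
    · rw [if_neg hB, mul_zero, zero_add]
      have h3 : ∑ ω, F ω ω' = 0 := by
        refine sum_eq_zero fun ω _ => ?_
        rw [hF]
        simp only
        by_cases hE : E ω
        · rw [if_pos hE, if_neg]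
          exact fun hb => hB ⟨sel ω, hsel ω hE, hb⟩
        · rw [if_neg hE]
      rw [h3]
      exact hrest
  have hfin : (Ex fun ω' => ∑ ω, F ω ω') ≤
      10 * Pr (fun ω' => ∃ j ∈ Js, Bad j ω') + Js.card * ε := by
    refine (Ex_mono hup).trans ?_
    rw [Ex_add, Ex_mul_left, Ex_sum]
    have h3 : ∑ j ∈ Js, Ex (fun ω' => if 2 < f j ω' then f j ω' else 0) ≤ Js.card * ε := by
      rw [← nsmul_eq_mul]
      exact sum_le_card_nsmul _ _ _ h5
    have h6 : Ex (fun ω' => if ∃ j ∈ Js, Bad j ω' then (1 : ℝ) else 0)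
        = Pr (fun ω' => ∃ j ∈ Js, Bad j ω') := by
      unfold Pr
      refine Ex_congr fun ω' => ?_
      congr
    rw [h6]
    linarith
  rw [hex] at hlow
  linarith

end Pool.Agent.W_1b8d5d_h85
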