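import Pool.Agent.W_1b8d5d_h85.DDefs

/-!
MP_1b8d5d_pr, proofs row 571, section 7: cells and counting of lattice points.
-/

set_option autoImplicit false

namespace Pool.Agent.W_1b8d5d_h85

open Finset

/-- The vertices of a cell. -/
def CV (c : Crd) (α u ℓ W : ℝ) (j : ℤ) : Set V :=
  {z | α - u ≤ c.p z ∧ c.p z ≤ α + ℓ ∧ j * W ≤ c.q z ∧ c.q z ≤ (j + 2) * W}

/-- Number of lattice points in a parallelogram: the points are separated in the coordinates `p`, `q`. -/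
theorem Tilt2_count (c : Crd) (a P b Q : ℝ) (hP : 0 ≤ P) (hQ : 0 ≤ Q) (s : Finset V)
    (hs : ∀ z ∈ s, a ≤ c.p z ∧ c.p z ≤ a + P ∧ b ≤ c.q z ∧ c.q z ≤ b + Q) :
    (s.card : ℝ) ≤ (4 * c.C * P + 2) * (4 * c.C * Q + 2) := by
  have hC : 0 < c.C := by linarith [c.one_le]
  set κ : ℝ := 4 * c.C with hκ
  have hκ0 : 0 < κ := by rw [hκ]; linarith
  set φ : V → ℤ × ℤ := fun z => (⌊(c.p z - a) * κ⌋, ⌊(c.q z - b) * κ⌋) with hφ
  have hinj : Function.Injective φ := by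
    intro z z' hzz
    by_contra hne
    have h1 : 1 ≤ nm (z - z') := one_le_nm (sub_ne_zero.2 hne)
    have h2 := c.nm_le (z - z')
    rw [map_sub, map_sub] at h2
    have e1 : ⌊(c.p z - a) * κ⌋ = ⌊(c.p z' - a) * κ⌋ := congrArg Prod.fst hzz
    have e2 : ⌊(c.q z - b) * κ⌋ = ⌊(c.q z' - b) * κ⌋ := congrArg Prod.snd hzz
    have f1 := Int.abs_sub_lt_one_of_floor_eq_floor e1
    have f2 := Int.abs_sub_lt_one_of_floor_eq_floor e2
    have g1 : |c.p z - c.p z'| * κ < 1 := by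
      have this0 : |c.p z - c.p z'| * κ = |(c.p z - c.p z') * κ| := by
        rw [abs_mul, abs_of_pos hκ0]
      rw [this0]
      have : (c.p z - a) * κ - (c.p z' - a) * κ = (c.p z - c.p z') * κ := by ring
      rwa [this] at f1
    have g2 : |c.q z - c.q z'| * κ < 1 := by
      have this0 : |c.q z - c.q z'| * κ = |(c.q z - c.q z') * κ| := by
        rw [abs_mul, abs_of_pos hκ0]
      rw [this0]
      have : (c.q z - b) * κ - (c.q z' - b) * κ = (c.q z - c.q z') * κ := by ring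
      rwa [this] at f2
    have h3 : c.C * (|c.p z - c.p z'| + |c.q z - c.q z'|) * 4 < 2 := by
      have : c.C * (|c.p z - c.p z'| + |c.q z - c.q z'|) * 4 =
          |c.p z - c.p z'| * κ + |c.q z - c.q z'| * κ := by rw [hκ]; ring
      rw [this]
      linarith
    linarith
  have himg : s.image φ ⊆ Finset.Icc (0 : ℤ) ⌊κ * P⌋ ×ˢ Finset.Icc (0 : ℤ) ⌊κ * Q⌋ := by
    intro x hx
    obtain ⟨z, hz, rfl⟩ := Finset.mem_image.1 hx
    obtain ⟨h1, h2, h3, h4⟩ := hs z hz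
    rw [mem_product, mem_Icc, mem_Icc]
    refine ⟨⟨?_, ?_⟩, ?_, ?_⟩
    · exact Int.floor_nonneg.2 (mul_nonneg (by linarith) hκ0.le)
    · refine Int.floor_le_floor ?_
      have : (c.p z - a) * κ ≤ P * κ := mul_le_mul_of_nonneg_right (by linarith) hκ0.le
      linarith
    · exact Int.floor_nonneg.2 (mul_nonneg (by linarith) hκ0.le)
    · refine Int.floor_le_floor ?_
      have : (c.q z - b) * κ ≤ Q * κ := mul_le_mul_of_nonneg_right (by linarith) hκ0.le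
      linarith
  have hcard : s.card ≤ (Finset.Icc (0 : ℤ) ⌊κ * P⌋ ×ˢ Finset.Icc (0 : ℤ) ⌊κ * Q⌋).card := by
    rw [← card_image_of_injective s hinj]
    exact card_le_card himg
  rw [card_product, Int.card_Icc, Int.card_Icc] at hcard
  have hfl : ∀ X : ℝ, 0 ≤ X → (((⌊κ * X⌋ + 1 - 0).toNat : ℕ) : ℝ) ≤ κ * X + 2 := by
    intro X hX
    have h0 : 0 ≤ ⌊κ * X⌋ := Int.floor_nonneg.2 (by positivity)
    have h1 : (((⌊κ * X⌋ + 1 - 0).toNat : ℕ) : ℝ) = ((⌊κ * X⌋ + 1 : ℤ) : ℝ) := by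
      have : ((⌊κ * X⌋ + 1 - 0).toNat : ℤ) = ⌊κ * X⌋ + 1 := by
        rw [sub_zero]
        exact Int.toNat_of_nonneg (by omega)
      exact_mod_cast this
    rw [h1]
    push_cast
    have := Int.floor_le (κ * X)
    linarith
  have h1 : (s.card : ℝ) ≤ (((⌊κ * P⌋ + 1 - 0).toNat : ℕ) : ℝ) * (((⌊κ * Q⌋ + 1 - 0).toNat : ℕ) : ℝ) := by
    exact_mod_cast hcard
  refine h1.trans ?_
  exact mul_le_mul (hfl P hP) (hfl Q hQ) (Nat.cast_nonneg _) (by positivity)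

/-- Bounded sets of vertices are finite. -/
theorem Tilt2_fin (D : ℝ) : {x : V | nm x ≤ D}.Finite := by
  have h : {x : V | nm x ≤ D} ⊆ Set.Icc ((-⌈D⌉, -⌈D⌉) : V) (⌈D⌉, ⌈D⌉) := by
    intro x hx
    have h0 : nm x ≤ D := hx
    unfold nm at h0
    have h1 := Int.le_ceil D
    have a1 := abs_nonneg (x.1 : ℝ)
    have a2 := abs_nonneg (x.2 : ℝ)
    have b1 : |(x.1 : ℝ)| ≤ (⌈D⌉ : ℝ) := by linarith
    have b2 : |(x.2 : ℝ)| ≤ (⌈D⌉ : ℝ) := by linarith
    rw [abs_le] at b1 b2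
    rw [Set.mem_Icc, Prod.le_def, Prod.le_def]
    refine ⟨⟨?_, ?_⟩, ?_, ?_⟩
    · show -⌈D⌉ ≤ x.1
      exact_mod_cast b1.1
    · show -⌈D⌉ ≤ x.2
      exact_mod_cast b2.1
    · show x.1 ≤ ⌈D⌉
      exact_mod_cast b1.2
    · show x.2 ≤ ⌈D⌉
      exact_mod_cast b2.2
  exact (Set.finite_Icc _ _).subset h

/-- Bounded sets of edges are finite. -/
theorem Tilt2_finE (A : Set V) (D : ℝ) (hA : ∀ z ∈ A, nm z ≤ D) : (edg A).Finite := by
  have h : edg A ⊆ {x : V | nm x ≤ D} ×ˢ (Set.univ : Set Bool) := by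
    intro e he
    exact ⟨hA e.1 he.1, Set.mem_univ _⟩
  exact ((Tilt2_fin D).prod Set.finite_univ).subset h

/-- The vertices of the cells are in the box. -/
theorem Tilt2_nm (c : Crd) {α u ℓ W : ℝ} {j : ℤ} (hu : 0 ≤ u) (hl : 0 ≤ ℓ) (hW : 0 ≤ W) {z : V}
    (hz : z ∈ CV c α u ℓ W j) :
    nm z ≤ c.C * (|α| + u + ℓ + (|(j : ℝ)| + 2) * W) := by
  obtain ⟨h1, h2, h3, h4⟩ := hz
  refine (c.nm_le z).trans ?_
  refine mul_le_mul_of_nonneg_left ?_ (by linarith [c.one_le])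
  have a1 : |c.p z| ≤ |α| + u + ℓ := by
    have := abs_le.1 (le_refl |α|)
    rw [abs_le]
    constructor <;> linarith [this.1, this.2]
  have a2 : |c.q z| ≤ (|(j : ℝ)| + 2) * W := by
    have hj := abs_le.1 (le_refl |(j : ℝ)|)
    have e1 : -|(j : ℝ)| * W ≤ j * W := mul_le_mul_of_nonneg_right hj.1 hW
    have e2 : (j : ℝ) * W ≤ |(j : ℝ)| * W := mul_le_mul_of_nonneg_right hj.2 hW
    rw [abs_le]
    constructor <;> nlinarith
  linarith

/-- The edges of a cell, as a finite set, and their number. -/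
theorem Tilt2_cell (c : Crd) {α u ℓ W : ℝ} {j : ℤ} (hu : 0 ≤ u) (hl : 0 ≤ ℓ) (hW : 0 ≤ W) :
    ∃ s : Finset Edge, (∀ e, e ∈ s ↔ e ∈ edg (CV c α u ℓ W j)) ∧
      (s.card : ℝ) ≤ 2 * ((4 * c.C * (u + ℓ) + 2) * (4 * c.C * (2 * W) + 2)) := by
  classical
  have hf := Tilt2_finE (CV c α u ℓ W j) _ fun z hz => Tilt2_nm c hu hl hW hz
  refine ⟨hf.toFinset, fun e => hf.mem_toFinset, ?_⟩
  set s1 : Finset V := hf.toFinset.image Prod.fst with hs1
  have h1 : hf.toFinset ⊆ s1 ×ˢ (Finset.univ : Finset Bool) := by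
    intro e he
    exact mem_product.2 ⟨mem_image_of_mem _ he, mem_univ _⟩
  have h2 := card_le_card h1
  rw [card_product] at h2
  have h3 : (s1.card : ℝ) ≤ (4 * c.C * (u + ℓ) + 2) * (4 * c.C * (2 * W) + 2) := by
    refine Tilt2_count c (α - u) (u + ℓ) (j * W) (2 * W) (by linarith) (by linarith) s1 ?_
    intro z hz
    obtain ⟨e, he, rfl⟩ := mem_image.1 hz
    have h4 := (hf.mem_toFinset.1 he).1
    obtain ⟨a1, a2, a3, a4⟩ := h4
    refine ⟨a1, by linarith, a3, by nlinarith⟩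
  have h4 : ((Finset.univ : Finset Bool).card : ℝ) = 2 := by simp
  have h5 : (hf.toFinset.card : ℝ) ≤ (s1.card : ℝ) * ((Finset.univ : Finset Bool).card : ℝ) := by
    exact_mod_cast h2
  rw [h4] at h5
  linarith

/-- Distant cells have no common edge. -/
theorem Tilt2_disj (c : Crd) {α u ℓ W : ℝ} (hW : 0 < W) {j j' : ℤ} (hj : 2 < |j - j'|) {e : Edge}
    (h1 : e ∈ edg (CV c α u ℓ W j)) : e ∉ edg (CV c α u ℓ W j') := by
  intro h2
  obtain ⟨-, -, a3, a4⟩ := h1.1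
  obtain ⟨-, -, b3, b4⟩ := h2.1
  rcases lt_abs.1 hj with h | h
  · have h3 : (j' : ℝ) + 3 ≤ j := by exact_mod_cast (by omega : j' + 3 ≤ j)
    nlinarith
  · have h3 : (j : ℝ) + 3 ≤ j' := by exact_mod_cast (by omega : j + 3 ≤ j')
    nlinarith

/-- A vertex set of small height is in one cell. -/
theorem Tilt2_sel {W y q : ℝ} (hW : 0 < W) (hq : |q - y| ≤ W / 2) :
    (⌊(y - W / 2) / W⌋ : ℝ) * W ≤ q ∧ q ≤ ((⌊(y - W / 2) / W⌋ : ℝ) + 2) * W := by
  have h1 := Int.floor_le ((y - W / 2) / W)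
  have h2 := Int.lt_floor_add_one ((y - W / 2) / W)
  rw [le_div_iff₀ hW] at h1
  rw [div_lt_iff₀ hW] at h2
  rw [abs_le] at hq
  constructor
  · linarith [hq.1]
  · nlinarith [hq.2]

theorem Tilt2_sel_mem {W y Y : ℝ} (hW : 0 < W) (hy : |y| ≤ Y) (m : ℕ) (hm : Y / W + 2 ≤ m) :
    ⌊(y - W / 2) / W⌋ ∈ Finset.Icc (-(m : ℤ)) m := by
  have hYW : |y / W| ≤ Y / W := by
    rw [abs_div, abs_of_pos hW]
    exact div_le_div_of_nonneg_right hy hW.le
  have h3 : (y - W / 2) / W = y / W - 1 / 2 := by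
    field_simp
  rw [abs_le] at hYW
  rw [h3, mem_Icc]
  constructor
  · rw [Int.le_floor]
    push_cast
    linarith [hYW.1]
  · have h4 := Int.floor_le (y / W - 1 / 2)
    have h5 : ((⌊y / W - 1 / 2⌋ : ℤ) : ℝ) ≤ ((m : ℤ) : ℝ) := by
      push_cast
      linarith [hYW.2]
    exact_mod_cast h5

end Pool.Agent.W_1b8d5d_h85
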