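import Pool.Agent.W_1b8d5d_h85.Tilt2
import Pool.Agent.W_1b8d5d_h85.Grid3

/-!
MP_1b8d5d_pr, proofs row 571, section 7: good lanes in a cell and what happens after the tilt.
-/

set_option autoImplicit false

namespace Pool.Agent.W_1b8d5d_h85

open Finset

/-- The cell `j`. -/
def TCell (c : Crd) (h α W : ℝ) (j : ℤ) : Set Edge := edg (CV c α (2 * h ^ 42) (h ^ 60) W j)

/-- A lane of excess `≤ -t` inside the cell `j`. -/
def TBad (b : ℝ) (c : Crd) (C h α B W t : ℝ) (j : ℤ) (τ : Env) : Prop :=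
  ∃ x y, |c.p x - α| ≤ C ∧ |c.q x| ≤ B ∧ |c.p y - (α + (h ^ 60 - 2 * h ^ 41))| ≤ C ∧ |c.q y| ≤ B ∧
    T (res b (TCell c h α W j) τ) x y ≤ c.rho (y - x) - t

/-- A path of excess `≤ X` inside the cell `j` with many high edges. -/
def LaneIn (su : ℝ) (c : Crd) (C h α B W X : ℝ) (j : ℤ) (τ : Env) : Prop :=
  ∃ (z z' : V) (w : grid.Walk z z'), w.IsPath ∧ |c.p z - α| ≤ C ∧ |c.q z| ≤ B ∧
    |c.p z' - (α + (h ^ 60 - 2 * h ^ 41))| ≤ C ∧ |c.q z'| ≤ B ∧
    (∀ e ∈ wedges w, e ∈ TCell c h α W j) ∧ cost τ w ≤ c.rho (z' - z) + X ∧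
    h ^ 60 / (4 * c.C) ≤ nHigh su τ w

/-- A bad cell gives a lane of very negative excess. -/
theorem Tilt3_lane {a b : ℝ} {c : Crd} {C h α B W t : ℝ} {j : ℤ} {τ : Env} (ha : 0 ≤ a)
    (hτ : Bd a b τ) (h1 : C + h ^ 33 / 2 ≤ h ^ 60 / 2) (h2 : 0 ≤ h ^ 41)
    (h3 : 2 * h ^ 41 ≤ h ^ 60 / 2) (h5 : 0 ≤ h ^ 33)
    (hb : TBad b c C h α B W t j τ) : Lane c C (h ^ 33 / 2) (3 / 2 * h ^ 60) α B t τ := by
  obtain ⟨x, y, hx, hqx, hy, hqy, hT⟩ := hb
  refine ⟨x, y, hx, hqx, ?_, ?_, hqy, ?_⟩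
  · rw [abs_le] at hy
    linarith [hy.1]
  · rw [abs_le] at hy
    linarith [hy.2]
  · exact (T_le_res ha hτ _ x y).trans hT

/-- The number of high edges as the cardinality of a set. -/
theorem Tilt3_card (su : ℝ) (τ : Env) {x y : V} {w : grid.Walk x y} (hw : w.IsPath) :
    nHigh su τ w = ((wedges w).toFinset.filter fun e => su ≤ τ e).card := by
  classical
  unfold nHigh
  rw [← List.toFinset_card_of_nodup ((wedges_nodup hw).filter _)]
  congr 1
  ext e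
  simp

/-- Lowering a path. -/
theorem Tilt3_lower {a b : ℝ} {τ τ' : Env} (ha : 0 ≤ a) (hab : a ≤ b) (hτ' : Bd a b τ')
    (A : Set Edge) {x y : V} {w : grid.Walk x y} (hw : w.IsPath) (hA : ∀ e ∈ wedges w, e ∈ A)
    (hle : ∀ e, τ' e ≤ τ e) (H : Finset Edge) (hH : H ⊆ (wedges w).toFinset) :
    T (res b A τ') x y ≤ cost τ w - ∑ e ∈ H, (τ e - τ' e) := by
  have h1 : T (res b A τ') x y ≤ cost (res b A τ') w :=
    T_le_cost (Bd_res hab hτ' A) ha w
  have h2 : cost (res b A τ') w = cost τ' w := by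
    refine cost_congr w fun e he => ?_
    unfold res
    rw [if_pos (hA e he)]
  have h3 : cost τ w - cost τ' w = ∑ e ∈ (wedges w).toFinset, (τ e - τ' e) := by
    rw [cost_path τ hw, cost_path τ' hw, ← sum_sub_distrib]
  have h4 : ∑ e ∈ H, (τ e - τ' e) ≤ ∑ e ∈ (wedges w).toFinset, (τ e - τ' e) :=
    sum_le_sum_of_subset_of_nonneg hH fun e _ _ => sub_nonneg.2 (hle e)
  linarith

/-- The kernel leads from a lane in the cell to a bad cell, unless the total decrease is small. -/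
theorem Tilt3_bad {a b su : ℝ} {c : Crd} {C h α B W X t Y : ℝ} {j : ℤ} {τ τ' : Env} (ha : 0 ≤ a)
    (hab : a ≤ b) (hτ' : Bd a b τ') (hle : ∀ e, τ' e ≤ τ e) {z z' : V} {w : grid.Walk z z'}
    (hw : w.IsPath) (h1 : |c.p z - α| ≤ C) (h2 : |c.q z| ≤ B)
    (h3 : |c.p z' - (α + (h ^ 60 - 2 * h ^ 41))| ≤ C) (h4 : |c.q z'| ≤ B)
    (h5 : ∀ e ∈ wedges w, e ∈ TCell c h α W j) (h6 : cost τ w ≤ c.rho (z' - z) + X)
    (hY : Y ≤ ∑ e ∈ ((wedges w).toFinset.filter fun e => su ≤ τ e), (τ e - τ' e))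
    (ht : X + t ≤ Y) : TBad b c C h α B W t j τ' := by
  classical
  refine ⟨z, z', h1, h2, h3, h4, ?_⟩
  have h7 := Tilt3_lower ha hab hτ' (TCell c h α W j) hw h5 hle _
    (filter_subset (fun e => su ≤ τ e) (wedges w).toFinset)
  linarith

/-- A kernel with total mass one which avoids the bad points only with small probability. -/
theorem Tilt3_half {Ω : Type*} [Fintype Ω] (J : Ω → ℝ) (hJ : ∀ ω, 0 ≤ J ω) (h1 : ∑ ω, J ω = 1)
    (p q : Ω → Prop) [DecidablePred p] [DecidablePred q] (hpq : ∀ ω, J ω ≠ 0 → ¬ p ω → q ω)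
    (hq : ∑ ω ∈ univ.filter q, J ω ≤ 1 / 2) : 1 / 2 ≤ ∑ ω, if p ω then J ω else 0 := by
  have h2 : ∑ ω, J ω ≤ (∑ ω, if p ω then J ω else 0) + ∑ ω, if q ω then J ω else 0 := by
    rw [← sum_add_distrib]
    refine sum_le_sum fun ω _ => ?_
    by_cases hp : p ω
    · rw [if_pos hp]
      split_ifs
      · linarith [hJ ω]
      · linarith
    · rw [if_neg hp, zero_add]
      by_cases h0 : J ω = 0
      · rw [h0]
        split_ifs <;> exact le_rfl
      · rw [if_pos (hpq ω h0 hp)]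
  rw [← sum_filter (p := q)] at h2
  linarith

/-- The restricted passage times agree for environments which agree on the cell; a bad distant cell is also bad before the
tilt. -/
theorem Tilt3_back {b : ℝ} {c : Crd} {C h α B W t : ℝ} {j j' : ℤ} {τ τ' : Env} (hW : 0 < W)
    (hjj : 2 < |j - j'|) (h1 : ∀ e, e ∉ TCell c h α W j → e ∈ TCell c h α W j' → τ' e = τ e)
    (hb : TBad b c C h α B W t j' τ') : TBad b c C h α B W t j' τ := by
  obtain ⟨x, y, hx, hqx, hy, hqy, hT⟩ := hb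
  refine ⟨x, y, hx, hqx, hy, hqy, ?_⟩
  have h2 : T (res b (TCell c h α W j') τ') x y = T (res b (TCell c h α W j') τ) x y := by
    refine dependsOn_T_res b (TCell c h α W j') x y ?_
    intro e he
    refine h1 e ?_ he
    intro he'
    exact Tilt2_disj c hW hjj he' he
  rwa [← h2]

end Pool.Agent.W_1b8d5d_h85
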